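import Pool.Agent.LH.Stmts1

/-!
# CM: a column moves over a rectangle without marks
-/

namespace LH

namespace CM

open Set LG

/-- Alternating of two entries. -/
def AR (p q : En) : Prop := p.isLeft = !q.isLeft

theorem chain_of_zip {R : En → En → Prop} :
    ∀ (T : List En) (x y : En), (∀ p ∈ (x :: T).zip (T ++ [y]), R p.1 p.2) →
      List.IsChain R (x :: T)
  | [], x, y, _ => by simp
  | z :: T, x, y, h => by
      have h1 : R x z := h (x, z) (by simp)
      have h2 : List.IsChain R (z :: T) := chain_of_zip T z y (fun p hp => h p (by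
        simp only [List.cons_append, List.zip_cons_cons, List.mem_cons]
        exact Or.inr hp))
      exact List.isChain_cons_cons.2 ⟨h1, h2⟩

theorem chain_of_cp {x : En} {T : List En} (h : ∀ p ∈ cp (x :: T), p.1.isLeft = !p.2.isLeft) :
    List.IsChain AR (x :: T) := by
  apply chain_of_zip T x x
  intro p hp
  apply h p
  unfold cp
  simpa using hp

theorem mem_zip (p q : En) (B : List En) :
    ∀ (A : List En) (y : En), (p, q) ∈ (A ++ p :: q :: B).zip ((A ++ p :: q :: B).tail ++ [y])
  | [], y => by simp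
  | a :: A, y => by
      have ih := mem_zip p q B A y
      have hne : A ++ p :: q :: B ≠ [] := by simp
      obtain ⟨h, t, ht⟩ := List.exists_cons_of_ne_nil hne
      rw [ht] at ih
      simp only [List.cons_append, List.tail_cons]
      rw [ht]
      simp only [List.cons_append, List.zip_cons_cons, List.mem_cons]
      exact Or.inr (by simpa using ih)

theorem mem_cp (p q : En) (A B : List En) : (p, q) ∈ cp (A ++ p :: q :: B) := by
  unfold cp
  cases A with
  | nil => simp
  | cons a A =>
      have := mem_zip p q B (a :: A) a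
      simpa using this

theorem parse : ∀ (n : ℕ) (l : List En) (c r : Q), l.length ≤ n → List.IsChain AR (Sum.inl c :: l) →
    (Sum.inl c :: l).getLast (by simp) = Sum.inr r → ∃ L : List (Q × Q), Sum.inl c :: l = fl L
  | 0, l, c, r, hn, _, hl => by
      have : l = [] := List.length_eq_zero_iff.1 (Nat.le_zero.1 hn)
      subst this
      simp at hl
  | n + 1, [], c, r, _, _, hl => by simp at hl
  | n + 1, Sum.inl x :: l, c, r, _, hc, _ => by
      have := (List.isChain_cons_cons.1 hc).1
      simp [AR] at this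
  | n + 1, [Sum.inr x], c, r, _, hc, _ => ⟨[(c, x)], by simp [fl]⟩
  | n + 1, Sum.inr x :: Sum.inr z :: l, c, r, _, hc, _ => by
      have h2 := (List.isChain_cons_cons.1 hc).2
      have := (List.isChain_cons_cons.1 h2).1
      simp [AR] at this
  | n + 1, Sum.inr x :: Sum.inl z :: l, c, r, hn, hc, hl => by
      have h2 := (List.isChain_cons_cons.1 hc).2
      have h3 := (List.isChain_cons_cons.1 h2).2
      have hl' : (Sum.inl z :: l).getLast (by simp) = (Sum.inr r : En) := by
        simpa using hl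
      obtain ⟨L, hL⟩ := parse n l z r (by simp at hn; omega) h3 hl'
      exact ⟨(c, x) :: L, by simp [fl] at hL ⊢; exact hL⟩

theorem fl_map (f g : Q → ℝ) (L : List (Q × Q)) :
    fl (L.map (Prod.map f g)) = (fl L).map (Sum.map f g) := by
  induction L with
  | nil => simp [fl]
  | cons p L ih =>
      simp only [fl, List.map_cons, List.flatMap_cons] at ih ⊢
      rw [ih]
      simp

theorem fl_append {α β : Type*} (L L' : List (α × β)) : fl (L ++ L') = fl L ++ fl L' := by
  simp [fl]

theorem inl_mem_fl {α β : Type*} (L : List (α × β)) (a : α) :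
    Sum.inl a ∈ fl L ↔ a ∈ L.map Prod.fst := by
  simp [fl]

theorem inr_mem_fl {α β : Type*} (L : List (α × β)) (b : β) :
    Sum.inr b ∈ fl L ↔ b ∈ L.map Prod.snd := by
  simp [fl]

theorem nodup_fl {α β : Type*} (L : List (α × β)) (h : (fl L).Nodup) :
    (L.map Prod.fst).Nodup ∧ (L.map Prod.snd).Nodup := by
  induction L with
  | nil => simp
  | cons p L ih =>
      have e : fl (p :: L) = Sum.inl p.1 :: Sum.inr p.2 :: fl L := by simp [fl]
      rw [e] at h
      rw [List.nodup_cons, List.nodup_cons] at h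
      obtain ⟨h1, h2, h3⟩ := h
      obtain ⟨i1, i2⟩ := ih h3
      simp only [List.map_cons, List.nodup_cons]
      refine ⟨⟨?_, i1⟩, ⟨?_, i2⟩⟩
      · intro hm
        apply h1
        exact List.mem_cons_of_mem _ ((inl_mem_fl _ _).2 hm)
      · intro hm
        apply h2
        exact (inr_mem_fl _ _).2 hm

open Classical in
/-- The number of elements of `S` below `x`. -/
noncomputable def rk (S : Finset Q) (x : Q) : ℝ := ((S.filter (· < x)).card : ℝ)

theorem rk_lt {S : Finset Q} {x y : Q} (hx : x ∈ S) (h : x < y) : rk S x < rk S y := by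
  classical
  unfold rk
  have : (S.filter (· < x)).card < (S.filter (· < y)).card := by
    apply Finset.card_lt_card
    rw [Finset.ssubset_iff_of_subset]
    · exact ⟨x, by simp [hx, h], by simp⟩
    · intro z hz
      simp only [Finset.mem_filter] at hz ⊢
      exact ⟨hz.1, hz.2.trans h⟩
  exact_mod_cast this

theorem rk_lt_iff {S : Finset Q} {x y : Q} (hx : x ∈ S) (hy : y ∈ S) :
    rk S x < rk S y ↔ x < y := by
  constructor
  · intro h
    rcases lt_trichotomy x y with h' | h' | h'
    · exact h'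
    · subst h'; exact absurd h (lt_irrefl _)
    · exact absurd (rk_lt hy h') (not_lt.2 h.le)
  · exact rk_lt hx

theorem rk_inj {S : Finset Q} {x y : Q} (hx : x ∈ S) (hy : y ∈ S) (h : rk S x = rk S y) :
    x = y := by
  rcases lt_trichotomy x y with h' | h' | h'
  · exact absurd (rk_lt hx h') (by rw [h]; exact lt_irrefl _)
  · exact h'
  · exact absurd (rk_lt hy h') (by rw [h]; exact lt_irrefl _)

theorem unl_of {a b x y : ℝ} (h1 : x < min a b ∨ max a b < x) (h2 : y < min a b ∨ max a b < y) :
    Unl a b x y := by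
  unfold Unl cyc
  grind

end CM

open CM LG Set in
theorem t_CM : Stmt_CM := by
  classical
  intro _ _ a a' r₁ r₂ B hAlt hnd ha'B haa' hM
  -- parse the list
  have hch := chain_of_cp hAlt.2
  obtain ⟨L, hL⟩ := parse _ (Sum.inr r₂ :: (B ++ [Sum.inr r₁])) a r₁ le_rfl hch
    (by simp)
  obtain _ | ⟨p0, L1⟩ := L
  · simp [fl] at hL
  have e0 : fl (p0 :: L1) = Sum.inl p0.1 :: Sum.inr p0.2 :: fl L1 := by simp [fl]
  rw [e0] at hL
  have ha : p0.1 = a := by
    have := (List.cons.inj hL).1
    exact (Sum.inl.inj this).symm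
  have hr : p0.2 = r₂ := by
    have := (List.cons.inj (List.cons.inj hL).2).1
    exact (Sum.inr.inj this).symm
  have hT : B ++ [Sum.inr r₁] = fl L1 := (List.cons.inj (List.cons.inj hL).2).2
  rcases List.eq_nil_or_concat L1 with h | ⟨L', z, h⟩
  · subst h; simp [fl] at hT
  rw [List.concat_eq_append] at h
  subst h
  have ez : fl (L' ++ [z]) = fl L' ++ [Sum.inl z.1] ++ [Sum.inr z.2] := by simp [fl]
  have hT' := hT
  rw [ez] at hT'
  obtain ⟨hB, hz⟩ := List.append_inj' hT' rfl
  have hz2 : z.2 = r₁ := by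
    have := (List.cons.inj hz).1
    exact (Sum.inr.inj this).symm
  obtain ⟨q1, q2⟩ := p0
  simp only at ha hr
  subst ha hr
  -- the lists
  set W : List En := Sum.inl q1 :: Sum.inr q2 :: (B ++ [Sum.inr r₁]) with hW
  set W' : List En := Sum.inl a' :: Sum.inr q2 :: (B ++ [Sum.inr r₁]) with hW'
  have eW : W = fl ((q1, q2) :: (L' ++ [z])) := by
    rw [hW, hT]; simp [fl]
  have eW' : W' = fl ((a', q2) :: (L' ++ [z])) := by
    rw [hW', hT]; simp [fl]
  -- nodup of W'
  have hnd' : W'.Nodup := by
    rw [hW'] 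
    rw [hW] at hnd
    rw [List.nodup_cons] at hnd ⊢
    refine ⟨?_, hnd.2⟩
    intro hm
    simp only [List.mem_cons, reduceCtorEq, List.mem_append, List.not_mem_nil, or_false,
      false_or] at hm
    exact ha'B hm
  -- finite sets
  set S : Finset Q := insert a' (((q1, q2) :: (L' ++ [z])).map Prod.fst).toFinset with hS
  set R : Finset Q := (((q1, q2) :: (L' ++ [z])).map Prod.snd).toFinset with hR
  have hSW : ∀ c, Sum.inl c ∈ W → c ∈ S := by
    intro c hc
    rw [eW, inl_mem_fl] at hc
    rw [hS]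
    exact Finset.mem_insert_of_mem (List.mem_toFinset.2 hc)
  have ha'S : a' ∈ S := Finset.mem_insert_self _ _
  have hSW' : ∀ c, Sum.inl c ∈ W' → c ∈ S := by
    intro c hc
    rw [eW', inl_mem_fl] at hc
    rw [List.map_cons, List.mem_cons] at hc
    rcases hc with hc | hc
    · rw [hc]; exact ha'S
    · rw [hS]
      apply Finset.mem_insert_of_mem
      rw [List.mem_toFinset, List.map_cons]
      exact List.mem_cons_of_mem _ hc
  have hRW : ∀ c, Sum.inr c ∈ W → c ∈ R := by
    intro c hc
    rw [eW, inr_mem_fl] at hc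
    exact List.mem_toFinset.2 hc
  have hRW' : ∀ c, Sum.inr c ∈ W' → c ∈ R := by
    intro c hc
    rw [eW', inr_mem_fl] at hc
    exact List.mem_toFinset.2 hc
  set f : Q → ℝ := fun x => - rk S x with hf
  set g : Q → ℝ := fun x => rk R x with hg
  have hRp : Rp W (((q1, q2) :: (L' ++ [z])).map (Prod.map f g)) := by
    refine ⟨hnd, f, g, ?_, ?_, ?_⟩
    · intro x y hx _ hxy
      have := rk_lt (hSW x hx) hxy
      simp only [hf]; linarith
    · intro x y hx _ hxy
      exact rk_lt (hRW x hx) hxy
    · rw [fl_map, ← eW]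
  have hRp' : Rp W' (((a', q2) :: (L' ++ [z])).map (Prod.map f g)) := by
    refine ⟨hnd', f, g, ?_, ?_, ?_⟩
    · intro x y hx _ hxy
      have := rk_lt (hSW' x hx) hxy
      simp only [hf]; linarith
    · intro x y hx _ hxy
      exact rk_lt (hRW' x hx) hxy
    · rw [fl_map, ← eW']
  refine ⟨_, _, hRp, hRp', ?_⟩
  -- membership facts
  have hcolS : ∀ p ∈ ((q1, q2) :: (L' ++ [z])), p.1 ∈ S := by
    intro p hp
    apply hSW
    rw [eW, inl_mem_fl]
    exact List.mem_map_of_mem hp
  have hrowR : ∀ p ∈ ((q1, q2) :: (L' ++ [z])), p.2 ∈ R := by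
    intro p hp
    apply hRW
    rw [eW, inr_mem_fl]
    exact List.mem_map_of_mem hp
  have hfinj : ∀ x ∈ S, ∀ y ∈ S, f x = f y → x = y := by
    intro x hx y hy h
    exact rk_inj hx hy (by simp only [hf] at h; linarith)
  have hginj : ∀ x ∈ R, ∀ y ∈ R, g x = g y → x = y := by
    intro x hx y hy h
    exact rk_inj hx hy h
  obtain ⟨nd1, nd2⟩ := nodup_fl _ (eW ▸ hnd)
  obtain ⟨nd1', -⟩ := nodup_fl _ (eW' ▸ hnd')
  apply Relation.EqvGen.rel
  have hmap : ∀ x : Q, ((x, q2) :: (L' ++ [z])).map (Prod.map f g) =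
      (f x, g q2) :: (L'.map (Prod.map f g) ++ [Prod.map f g z]) := by
    intro x; simp
  rw [hmap, hmap]
  apply Mv.col
  · -- Nd
    rw [← hmap q1]
    constructor
    · have : (((q1, q2) :: (L' ++ [z])).map (Prod.map f g)).map Prod.fst =
          (((q1, q2) :: (L' ++ [z])).map Prod.fst).map f := by
        simp [Function.comp_def]
      rw [this]
      apply List.Nodup.map_on _ nd1
      intro x hx y hy h
      refine hfinj x ?_ y ?_ h
      · exact Finset.mem_insert_of_mem (List.mem_toFinset.2 hx)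
      · exact Finset.mem_insert_of_mem (List.mem_toFinset.2 hy)
    · have : (((q1, q2) :: (L' ++ [z])).map (Prod.map f g)).map Prod.snd =
          (((q1, q2) :: (L' ++ [z])).map Prod.snd).map g := by
        simp [Function.comp_def]
      rw [this]
      apply List.Nodup.map_on _ nd2
      intro x hx y hy h
      exact hginj x (List.mem_toFinset.2 hx) y (List.mem_toFinset.2 hy) h
  · -- ht
    rw [← hmap q1]
    intro hm
    have e : (((q1, q2) :: (L' ++ [z])).map (Prod.map f g)).map Prod.fst =
          (((q1, q2) :: (L' ++ [z])).map Prod.fst).map f := by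
      simp [Function.comp_def]
    rw [e, List.mem_map] at hm
    obtain ⟨x, hx, hxe⟩ := hm
    have hxa : x = a' := by
      refine hfinj x ?_ a' ha'S hxe
      exact Finset.mem_insert_of_mem (List.mem_toFinset.2 hx)
    subst hxa
    rw [List.map_cons, List.mem_cons] at hx
    rw [List.map_cons, List.nodup_cons] at nd1'
    rcases hx with hx | hx
    · exact haa' hx
    · exact nd1'.1 hx
  · -- hu
    intro B₁ B₂ y x hdec hbt
    rw [← hmap q1] at hdec
    obtain ⟨A₁, A₂, hA, hA1, hA2⟩ := List.map_eq_append_iff.1 hdec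
    obtain ⟨y', A₃, rfl, hy', hA3⟩ := List.map_eq_cons_iff.1 hA2
    obtain ⟨x', A₄, rfl, hx', hA4⟩ := List.map_eq_cons_iff.1 hA3
    subst hy' hx'
    have hy'm : y' ∈ ((q1, q2) :: (L' ++ [z])) := by rw [hA]; simp
    have hx'm : x' ∈ ((q1, q2) :: (L' ++ [z])) := by rw [hA]; simp
    have hzm : z ∈ ((q1, q2) :: (L' ++ [z])) := by simp
    have hqm : ((q1, q2) : Q × Q) ∈ ((q1, q2) :: (L' ++ [z])) := by simp
    have eWd : W = (fl A₁ ++ [Sum.inl y'.1]) ++ Sum.inr y'.2 :: Sum.inl x'.1 ::
        (Sum.inr x'.2 :: fl A₄) := by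
      rw [eW, hA]; simp [fl]
    have eWd2 : W = (fl A₁ ++ [Sum.inl y'.1, Sum.inr y'.2]) ++ Sum.inl x'.1 :: Sum.inr x'.2 ::
        fl A₄ := by
      rw [eW, hA]; simp [fl]
    have m1 : Mk W x'.1 y'.2 := by
      right; rw [eWd]; exact mem_cp _ _ _ _
    have m2 : Mk W x'.1 x'.2 := by
      left; rw [eWd2]; exact mem_cp _ _ _ _
    have hxS := hcolS x' hx'm
    have hqS := hcolS _ hqm
    simp only at hqS
    have hB : Btw q1 a' x'.1 := by
      simp only [Prod.map_fst, hf, neg_lt_neg_iff] at hbt
      rw [rk_lt_iff hxS hqS, rk_lt_iff ha'S hxS, rk_lt_iff hxS ha'S, rk_lt_iff hqS hxS] at hbt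
      unfold Btw
      tauto
    have n1 := hM _ _ m1 hB
    have n2 := hM _ _ m2 hB
    have hzR := hrowR _ hzm
    have hqR := hrowR _ hqm
    have hyR := hrowR _ hy'm
    have hxR := hrowR _ hx'm
    simp only at hqR
    simp only [Prod.map_snd, hg]
    rw [← hz2] at n1 n2
    have key : ∀ r ∈ R, r ∉ uIcc z.2 q2 → rk R r < min (rk R z.2) (rk R q2) ∨
        max (rk R z.2) (rk R q2) < rk R r := by
      intro r hr hn
      rw [lt_min_iff, max_lt_iff, rk_lt_iff hr hzR, rk_lt_iff hr hqR, rk_lt_iff hzR hr,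
        rk_lt_iff hqR hr]
      rw [Set.mem_uIcc, not_or, not_and, not_and, not_le, not_le] at hn
      rcases lt_or_ge r z.2 with h1 | h1
      · left
        refine ⟨h1, ?_⟩
        by_contra h2
        exact absurd (hn.2 (not_lt.1 h2)) (not_lt.2 h1.le)
      · have h3 := hn.1 h1
        rcases h1.lt_or_eq with h4 | h4
        · exact Or.inr ⟨h4, h3⟩
        · exfalso
          have h5 := hn.2 (h4 ▸ h3.le)
          exact absurd h5 (by rw [h4]; exact lt_irrefl _)
    exact unl_of (key _ hyR n1) (key _ hxR n2)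

end LH
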