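import Pool.Agent.LH.Stmts2

/-!
# CMP: components of a polygon
-/

namespace LH

open Set LG

namespace CMP

variable {N : ℕ}

theorem mono_mul (x : ℤ) (hN : 0 < N) : |x| ≤ |x| * (N : ℤ) := by
  have h1 : (1 : ℤ) ≤ (N : ℤ) := by exact_mod_cast hN
  have h2 := abs_nonneg x
  nlinarith

theorem ex (B : P_PGB) (P : Pg N) (a b : ℝ) (hN : 0 < N) (G : Good P a b) (e : ℤ)
    (he : Mts P a b e) : ∃ p q, Comp P a b p q ∧ p ≤ e ∧ e ≤ q := by
  obtain ⟨i0, hi0⟩ := G.out
  have hper : ∀ k : ℤ, P.x (i0 + k * N) = P.x i0 := fun k => (B.sh P i0 k).1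
  have hout : ∀ k : ℤ, P.x (i0 + k * N) < a ∨ b < P.x (i0 + k * N) := by
    intro k
    rw [hper k]
    exact hi0
  obtain ⟨p, ⟨hpe, hpo⟩, hpm⟩ := Int.exists_greatest_of_bdd
    (P := fun z => z ≤ e ∧ (P.x z < a ∨ b < P.x z)) ⟨e, fun z hz => hz.1⟩
    ⟨i0 + (-|i0 - e|) * N, by
      constructor
      · have h1 := mono_mul (N := N) (i0 - e) hN
        have h2 := le_abs_self (i0 - e)
        linarith
      · exact hout _⟩
  obtain ⟨r, ⟨hre, hro⟩, hrm⟩ := Int.exists_least_of_bdd
    (P := fun z => e < z ∧ (P.x z < a ∨ b < P.x z)) ⟨e, fun z hz => hz.1.le⟩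
    ⟨i0 + (|e - i0| + 1) * N, by
      constructor
      · have h1 := mono_mul (N := N) (e - i0) hN
        have h2 := le_abs_self (e - i0)
        have h3 : (1 : ℤ) ≤ (N : ℤ) := by exact_mod_cast hN
        linarith
      · exact hout _⟩
  refine ⟨p, r - 1, ⟨by omega, ?_, hpo, ?_, ?_⟩, hpe, by omega⟩
  · intro i h1 h2
    have hno : ¬ (P.x i < a ∨ b < P.x i) := by
      intro h
      rcases le_or_gt i e with h3 | h3
      · have := hpm i ⟨h3, h⟩
        omega
      · have := hrm i ⟨h3, h⟩
        omega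
    rw [not_or, not_lt, not_lt] at hno
    exact ⟨lt_of_le_of_ne hno.1 (G.av i).1.symm, lt_of_le_of_ne hno.2 (G.av i).2⟩
  · have : r - 1 + 1 = r := by ring
    rw [this]
    exact hro
  · intro hpq
    have h1 : p = e := by omega
    have h2 : r = e + 1 := by omega
    have h3 : r - 1 + 1 = e + 1 := by omega
    rw [h3]
    rw [h2] at hro
    subst h1
    rcases hpo with h | h
    · rcases hro with h' | h'
      · exact absurd ⟨h, h'⟩ he.1
      · exact Or.inl ⟨h, h'⟩
    · rcases hro with h' | h'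
      · exact Or.inr ⟨h', h⟩
      · exact absurd ⟨h, h'⟩ he.2

theorem nin {P : Pg N} {a b : ℝ} {p q i : ℤ} (C : Comp P a b p q) (h1 : p < i) (h2 : i ≤ q)
    (h : P.x i < a ∨ b < P.x i) : False := by
  have := C.ins i h1 h2
  rcases h with h | h
  · exact lt_asymm h this.1
  · exact lt_asymm h this.2

theorem un (P : Pg N) (a b : ℝ) (p q p' q' e : ℤ) (C : Comp P a b p q) (C' : Comp P a b p' q')
    (h1 : p ≤ e) (h2 : e ≤ q) (h3 : p' ≤ e) (h4 : e ≤ q') : p = p' ∧ q = q' := by
  constructor
  · rcases lt_trichotomy p p' with h | h | h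
    · exact (nin C h (h3.trans h2) C'.fst).elim
    · exact h
    · exact (nin C' h (h1.trans h4) C.fst).elim
  · rcases lt_trichotomy q q' with h | h | h
    · exact (nin C' (i := q + 1) (by omega) (by omega) C.lst).elim
    · exact h
    · exact (nin C (i := q' + 1) (by omega) (by omega) C'.lst).elim

theorem xN (P : Pg N) (p : ℤ) : P.x (p + N) = P.x p := P.px p

theorem ln (P : Pg N) (a b : ℝ) (p q : ℤ) (hN : 0 < N) (C : Comp P a b p q) : q < p + N := by
  by_contra h
  have hN' : (0 : ℤ) < (N : ℤ) := by exact_mod_cast hN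
  refine nin C (i := p + N) (by omega) (by omega) ?_
  rw [P.px p]
  exact C.fst

theorem sh (B : P_PGB) (P : Pg N) (a b : ℝ) (p q k : ℤ) (C : Comp P a b p q) :
    Comp P a b (p + k * N) (q + k * N) := by
  have hx : ∀ i : ℤ, P.x (i + k * N) = P.x i := fun i => (B.sh P i k).1
  refine ⟨by have := C.le; omega, ?_, ?_, ?_, ?_⟩
  · intro i h1 h2
    have h3 := C.ins (i - k * N) (by omega) (by omega)
    have h4 := hx (i - k * N)
    rw [sub_add_cancel] at h4
    rw [h4]
    exact h3
  · rw [hx]
    exact C.fst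
  · have : q + k * N + 1 = (q + 1) + k * N := by ring
    rw [this, hx]
    exact C.lst
  · intro h
    have : q + k * N + 1 = (q + 1) + k * N := by ring
    rw [this, hx, hx]
    exact C.one (by omega)

theorem tr (B : P_PGB) (P : Pg N) (p q p' q' m : ℤ) (t : ℝ)
    (h : Sep P p q (p' + m * N) (q' + m * N) t) : Sep P p q p' q' t := by
  have hl : ∀ j : ℤ, P.l (j + m * N) t = P.l j t := fun j => (B.sh P j m).2.2.2 t
  rcases h with h | h
  · left
    intro i hi j hj
    have := h i hi (j + m * N) ⟨by have := hj.1; omega, by have := hj.2; omega⟩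
    rw [hl] at this
    exact this
  · right
    intro i hi j hj
    have := h i hi (j + m * N) ⟨by have := hj.1; omega, by have := hj.2; omega⟩
    rw [hl] at this
    exact this

theorem sep (B : P_PGB) (P : Pg N) (a b : ℝ) (p q p' q' : ℤ) (hN : 0 < N) (G : Good P a b)
    (C : Comp P a b p q) (C' : Comp P a b p' q') :
    (∃ k : ℤ, p' = p + k * N ∧ q' = q + k * N) ∨ Sep P p q p' q' a ∧ Sep P p q p' q' b := by
  have hN' : (0 : ℤ) < (N : ℤ) := by exact_mod_cast hN
  set m : ℤ := (p' - p) / N with hm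
  have hr0 : 0 ≤ (p' - p) % N := Int.emod_nonneg _ hN'.ne'
  have hrN : (p' - p) % N < N := Int.emod_lt_of_pos _ hN'
  have hdm : (p' - p) % N + N * m = p' - p := by
    rw [hm]
    exact Int.emod_add_mul_ediv (p' - p) N
  have C2 : Comp P a b (p' + (-m) * N) (q' + (-m) * N) := sh B P a b p' q' (-m) C'
  have hp2 : p' + (-m) * N = p + (p' - p) % N := by
    have : (-m) * (N : ℤ) = -(N * m) := by ring
    rw [this]
    omega
  rcases hr0.eq_or_lt with h0 | h0
  · left
    have h1 : p' + (-m) * N = p := by rw [hp2, ← h0]; ring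
    rw [h1] at C2
    have h2 := (un P a b p q p _ p C C2 le_rfl C.le le_rfl C2.le).2
    refine ⟨m, ?_, ?_⟩
    · have : (-m) * (N : ℤ) = -(m * N) := by ring
      rw [this] at h1
      omega
    · have : (-m) * (N : ℤ) = -(m * N) := by ring
      rw [this] at h2
      omega
  · right
    have h1 : q < p' + (-m) * N := by
      by_contra hc
      exact nin C (i := p' + (-m) * N) (by omega) (by omega) C2.fst
    have h2 : q' + (-m) * N < p + N := by
      by_contra hc
      refine nin C2 (i := p + N) (by omega) (by omega) ?_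
      rw [P.px p]
      exact C.fst
    obtain ⟨h3, h4⟩ := G.sep p q _ _ C C2 h1 h2
    exact ⟨tr B P p q p' q' (-m) a h3, tr B P p q p' q' (-m) b h4⟩

theorem mt (P : Pg N) (a b : ℝ) (p q e : ℤ) (G : Good P a b) (C : Comp P a b p q)
    (h1 : p ≤ e) (h2 : e ≤ q) : Mts P a b e := by
  rcases h1.eq_or_lt with h3 | h3
  · rcases h2.eq_or_lt with h4 | h4
    · subst h3
      have h5 := C.one h4
      rw [← h4] at h5
      have hab := G.lt
      constructor
      · rintro ⟨h6, h7⟩
        rcases h5 with h | h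
        · linarith [h.2]
        · linarith [h.2]
      · rintro ⟨h6, h7⟩
        rcases h5 with h | h
        · linarith [h.1]
        · linarith [h.1]
    · have h5 := C.ins (e + 1) (by omega) (by omega)
      exact ⟨fun h => lt_asymm h.2 h5.1, fun h => lt_asymm h.2 h5.2⟩
  · have h5 := C.ins e h3 h2
    exact ⟨fun h => lt_asymm h.1 h5.1, fun h => lt_asymm h.1 h5.2⟩

end CMP

/-- CMP -/
theorem t_CMP : Stmt_CMP := by
  intro B
  exact
    { ex := fun P a b hN G e he => CMP.ex B P a b hN G e he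
      un := fun P a b p q p' q' e C C' h1 h2 h3 h4 => CMP.un P a b p q p' q' e C C' h1 h2 h3 h4
      ln := fun P a b p q hN _ C => CMP.ln P a b p q hN C
      sh := fun P a b p q k C => CMP.sh B P a b p q k C
      sep := fun P a b p q p' q' hN G C C' => CMP.sep B P a b p q p' q' hN G C C'
      mt := fun P a b p q e G C h1 h2 => CMP.mt P a b p q e G C h1 h2 }

end LH
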