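import Pool.Agent.LH.Stmts2

/-!
# COV: every crossing is an item
-/

namespace LH

open Set LG

namespace COV

theorem key (x : ℤ → ℝ) (E : ℤ → ℤ) (T : ℤ → ℝ) (X : Set ℝ) (F A : ℤ → Prop)
    (mono : ∀ n n', n ≤ n' → E n ≤ E n')
    (adj : ∀ n, ∀ s ∈ X, ¬ Btw (T n) (T (n + 1)) s)
    (ins : ∀ n m, E n < m → m ≤ E (n + 1) → Btw (T n) (T (n + 1)) (x m))
    (dir : ∀ n, F n ∧ A (n + 1) ∧ T n < T (n + 1) ∨ ¬ F n ∧ ¬ A (n + 1) ∧ T (n + 1) < T n)
    (tl : ∀ n, ¬ (F n ↔ A n) → E n < E (n + 1))
    (okl : ∀ n, ¬ F n → ¬ A n → x (E n + 1) < T n ∧ T n < x (E n))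
    (s : ℝ) (hs : s ∈ X) (e : ℤ) (lo : ∃ n, E n < e) (hi : ∃ n, e < E n) (h1 : x e < s)
    (h2 : s < x (e + 1)) : ∃ n, F n ∧ A n ∧ T n = s ∧ E n = e := by
  by_contra hno
  push Not at hno
  obtain ⟨a, ha⟩ := lo
  obtain ⟨b, hb⟩ := hi
  obtain ⟨n₀, h₀, h₀'⟩ := Int.exists_least_of_bdd (P := fun n => e ≤ E n)
    ⟨a, fun z hz => by
      by_contra hc
      have := mono z a (by omega)
      omega⟩ ⟨b, hb.le⟩
  obtain ⟨n₁, h₁, h₁'⟩ := Int.exists_greatest_of_bdd (P := fun n => E n ≤ e)
    ⟨b, fun z hz => by
      by_contra hc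
      have := mono b z (by omega)
      omega⟩ ⟨a, ha.le⟩
  have p₀ : E (n₀ - 1) < e := by
    by_contra hc
    have := h₀' (n₀ - 1) (by omega)
    omega
  have p₁ : e < E (n₁ + 1) := by
    by_contra hc
    have := h₁' (n₁ + 1) (by omega)
    omega
  have i₀ : Btw (T (n₀ - 1)) (T n₀) (x e) := by
    have := ins (n₀ - 1) e p₀ (by simpa using h₀)
    simpa using this
  have i₁ : Btw (T n₁) (T (n₁ + 1)) (x (e + 1)) := ins n₁ (e + 1) (by omega) (by omega)
  have e₀ : E n₀ = e := by
    by_contra hc
    have h := ins (n₀ - 1) (e + 1) (by omega) (by simp; omega)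
    simp only [sub_add_cancel] at h
    have h' := adj (n₀ - 1) s hs
    simp only [sub_add_cancel] at h'
    rcases i₀ with i | i <;> rcases h with h | h
    · exact h' (Or.inl ⟨i.1.trans h1, h2.trans h.2⟩)
    · linarith [i.1, i.2, h.1, h.2]
    · linarith [i.1, i.2, h.1, h.2]
    · exact h' (Or.inr ⟨i.1.trans h1, h2.trans h.2⟩)
  have e₁ : E n₁ = e := by
    by_contra hc
    have h := ins n₁ e (by omega) (by omega)
    have h' := adj n₁ s hs
    rcases i₁ with i | i <;> rcases h with h | h
    · exact h' (Or.inl ⟨h.1.trans h1, h2.trans i.2⟩)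
    · linarith [i.1, i.2, h.1, h.2]
    · linarith [i.1, i.2, h.1, h.2]
    · exact h' (Or.inr ⟨h.1.trans h1, h2.trans i.2⟩)
  have h01 : n₀ ≤ n₁ := h₁' n₀ e₀.le
  have eq : ∀ k, n₀ ≤ k → k ≤ n₁ → E k = e := fun k hk hk' =>
    le_antisymm ((mono k n₁ hk').trans e₁.le) (e₀.ge.trans (mono n₀ k hk))
  -- the claim
  have claim : ∀ k, n₀ ≤ k → k ≤ n₁ → A k ∧ T (k - 1) < s ∧ T (k - 1) < T k := by
    intro k hk
    induction k, hk using Int.leInduction with
    | base =>
      intro _
      have d := dir (n₀ - 1)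
      simp only [sub_add_cancel] at d
      rcases d with ⟨_, d2, d3⟩ | ⟨_, d2, d3⟩
      · refine ⟨d2, ?_, d3⟩
        rcases i₀ with i | i
        · exact i.1.trans h1
        · linarith [i.1, i.2]
      · exfalso
        have i : T n₀ < x e := by
          rcases i₀ with i | i
          · linarith [i.1, i.2]
          · exact i.1
        by_cases hF : F n₀
        · have := tl n₀ (by simp [hF, d2])
          have hn : n₁ = n₀ := by
            by_contra hc
            have := eq (n₀ + 1) (by omega) (by omega)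
            omega
          subst hn
          rcases dir n₁ with ⟨_, _, d⟩ | ⟨d, _, _⟩
          · rcases i₁ with j | j
            · exact adj n₁ s hs (Or.inl ⟨i.trans h1, h2.trans j.2⟩)
            · linarith [j.1, j.2]
          · exact d hF
        · have := okl n₀ hF d2
          rw [e₀] at this
          linarith [this.1, this.2]
    | succ k hk ih =>
      intro hk'
      obtain ⟨c1, c2, c3⟩ := ih (by omega)
      have ek := eq k hk (by omega)
      have ek' := eq (k + 1) (by omega) hk'
      have hF : F k := by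
        by_contra hF
        have := tl k (by simp [hF, c1])
        omega
      rcases dir k with ⟨_, d2, d3⟩ | ⟨d, _, _⟩
      · refine ⟨d2, ?_, ?_⟩
        · simp only [add_sub_cancel_right]
          have hne := hno k hF c1
          have had := adj (k - 1) s hs
          simp only [sub_add_cancel] at had
          rcases lt_trichotomy (T k) s with h | h | h
          · exact h
          · exact absurd ek (hne h)
          · exact absurd (Or.inl ⟨c2, h⟩) had
        · simpa using d3
      · exact absurd hF d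
  obtain ⟨c1, c2, c3⟩ := claim n₁ h01 le_rfl
  have had := adj (n₁ - 1) s hs
  simp only [sub_add_cancel] at had
  by_cases hF : F n₁
  · rcases dir n₁ with ⟨_, _, d⟩ | ⟨d, _, _⟩
    · rcases lt_trichotomy (T n₁) s with h | h | h
      · rcases i₁ with j | j
        · exact adj n₁ s hs (Or.inl ⟨h, h2.trans j.2⟩)
        · linarith [j.1, j.2]
      · exact hno n₁ hF c1 h e₁
      · exact had (Or.inl ⟨c2, h⟩)
    · exact d hF
  · rcases dir n₁ with ⟨d, _, _⟩ | ⟨_, _, d⟩
    · exact hF d
    · rcases i₁ with j | j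
      · linarith [j.1, j.2]
      · exact had (Or.inl ⟨c2, h2.trans j.2⟩)

theorem btw_neg {a b s : ℝ} : Btw (-a) (-b) (-s) ↔ Btw a b s := by
  simp only [Btw, neg_lt_neg_iff]
  constructor
  · rintro (h | h)
    · exact Or.inr ⟨h.2, h.1⟩
    · exact Or.inl ⟨h.2, h.1⟩
  · rintro (h | h)
    · exact Or.inr ⟨h.2, h.1⟩
    · exact Or.inl ⟨h.2, h.1⟩

theorem kd_cases (k : Kd) : (k.fw ∧ k.ar ∧ k = .rt) ∨ (¬ k.fw ∧ ¬ k.ar ∧ k = .lt) ∨
    ((k = .R ∨ k = .L) ∧ ¬ (k.fw ↔ k.ar)) := by
  cases k <;> simp [Kd.fw, Kd.ar]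

variable {N : ℕ} {P : Pg N} {X : Finset ℝ} {w : List It} {W : ℤ → It}

theorem mono (h : Sq P X w W) (n n' : ℤ) (hn : n ≤ n') : (W n).e ≤ (W n').e := by
  induction n', hn using Int.leInduction with
  | base => exact le_rfl
  | succ k _ ih => exact ih.trans (h.lnk k).le

theorem adj (h : Sq P X w W) (n : ℤ) (s : ℝ) (hs : s ∈ X) : ¬ Btw (W n).t (W (n + 1)).t s := by
  intro hb
  rcases (h.lnk n).adj with ha | ha
  · rcases hb with hb | hb
    · exact ha.2.2.2 s hs hb
    · linarith [ha.2.2.1, hb.1, hb.2]
  · rcases hb with hb | hb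
    · linarith [ha.2.2.1, hb.1, hb.2]
    · exact ha.2.2.2 s hs hb

theorem tl (h : Sq P X w W) (n : ℤ) (hn : ¬ ((W n).k.fw ↔ (W n).k.ar)) :
    (W n).e < (W (n + 1)).e := by
  rcases kd_cases (W n).k with hk | hk | hk
  · exact absurd (iff_of_true hk.1 hk.2.1) hn
  · exact absurd (iff_of_false hk.1 hk.2.1) hn
  · exact (h.lnk n).tl hk.1

theorem pos (h : Sq P X w W) : 0 < N := by
  rcases Nat.eq_zero_or_pos N with h0 | h0
  · exfalso
    have hm := h.ne
    have hc : ∀ n, (W n).e = (W (n + 1)).e := by
      intro n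
      refine le_antisymm (h.lnk n).le ?_
      have h1 := mono h (n + 1) (n + w.length) (by omega)
      rw [h.per n] at h1
      simpa [It.sh, h0] using h1
    have hT : (W (0 + w.length)).t = (W 0).t := by
      rw [h.per 0]
      rfl
    have hfa : ∀ n, ((W n).k.fw ↔ (W n).k.ar) := by
      intro n
      by_contra hn
      have := tl h n hn
      have := hc n
      omega
    by_cases hF : (W 0).k.fw
    · have hall : ∀ k : ℕ, (W k).k.fw ∧ (0 < k → (W 0).t < (W k).t) := by
        intro k
        induction k with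
        | zero => exact ⟨hF, fun h => absurd h (lt_irrefl 0)⟩
        | succ k ih =>
          push_cast
          rcases (h.lnk k).dir with d | d
          · refine ⟨(hfa _).2 d.2.1, fun _ => ?_⟩
            rcases Nat.eq_zero_or_pos k with rfl | hk
            · simpa using d.2.2
            · exact (ih.2 hk).trans d.2.2
          · exact absurd ih.1 d.1
      have := (hall w.length).2 hm
      rw [zero_add] at hT
      linarith
    · have hall : ∀ k : ℕ, ¬ (W k).k.fw ∧ (0 < k → (W k).t < (W 0).t) := by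
        intro k
        induction k with
        | zero => exact ⟨hF, fun h => absurd h (lt_irrefl 0)⟩
        | succ k ih =>
          push_cast
          rcases (h.lnk k).dir with d | d
          · exact absurd d.1 ih.1
          · refine ⟨fun h' => d.2.1 ((hfa _).1 h'), fun _ => ?_⟩
            rcases Nat.eq_zero_or_pos k with rfl | hk
            · simpa using d.2.2
            · exact d.2.2.trans (ih.2 hk)
      have := (hall w.length).2 hm
      rw [zero_add] at hT
      linarith
  · exact h0

theorem hi (h : Sq P X w W) (e : ℤ) : ∃ n, e < (W n).e := by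
  have hN := pos h
  have h1 : ∀ k : ℕ, (W 0).e + k ≤ (W (k * w.length : ℤ)).e := by
    intro k
    induction k with
    | zero => simp
    | succ k ih =>
      have e1 : (((k + 1 : ℕ) : ℤ) * w.length : ℤ) = k * w.length + w.length := by
        push_cast
        ring
      rw [e1, h.per]
      show _ ≤ (W (k * w.length : ℤ)).e + N
      push_cast
      omega
  refine ⟨((e - (W 0).e + 1).toNat : ℤ) * w.length, ?_⟩
  have := h1 (e - (W 0).e + 1).toNat
  have h2 : e - (W 0).e + 1 ≤ (e - (W 0).e + 1).toNat := Int.self_le_toNat _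
  omega

theorem lo (h : Sq P X w W) (e : ℤ) : ∃ n, (W n).e < e := by
  have hN := pos h
  have h1 : ∀ k : ℕ, (W (-(k * w.length : ℤ))).e + k ≤ (W 0).e := by
    intro k
    induction k with
    | zero => simp
    | succ k ih =>
      have e1 : (-(k * w.length : ℤ)) = -(((k + 1 : ℕ) : ℤ) * w.length : ℤ) + w.length := by
        push_cast
        ring
      rw [e1, h.per] at ih
      have ih' : (W (-(((k + 1 : ℕ) : ℤ) * w.length : ℤ))).e + N + k ≤ (W 0).e := ih
      push_cast at ih' ⊢
      omega
  refine ⟨-(((W 0).e - e + 1).toNat * w.length : ℤ), ?_⟩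
  have := h1 ((W 0).e - e + 1).toNat
  have h2 : (W 0).e - e + 1 ≤ ((W 0).e - e + 1).toNat := Int.self_le_toNat _
  omega

end COV

open COV in
/-- COV -/
theorem t_COV : Stmt_COV := by
  intro N P X w W h t ht e
  constructor
  · intro h1 h2
    obtain ⟨n, hF, hA, hT, hE⟩ := key P.x (fun n => (W n).e) (fun n => (W n).t) X
      (fun n => (W n).k.fw) (fun n => (W n).k.ar) (mono h) (fun n s hs => adj h n s hs)
      (fun n m => (h.lnk n).ins m) (fun n => (h.lnk n).dir) (tl h)
      (by
        intro n hF hA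
        rcases kd_cases (W n).k with hk | hk | hk
        · exact absurd hk.1 hF
        · exact (h.ok n).2 hk.2.2
        · exact absurd (iff_of_false hF hA) hk.2) t ht e (lo h e) (hi h e) h1 h2
    refine ⟨n, ?_⟩
    rcases kd_cases (W n).k with hk | hk | hk
    · cases hw : W n
      rw [hw] at hk hT hE
      simp only at hk hT hE
      rw [hk.2.2, hT, hE]
    · exact absurd hF hk.1
    · exact absurd (iff_of_true hF hA) hk.2
  · intro h1 h2
    obtain ⟨n, hF, hA, hT, hE⟩ := key (fun i => - P.x i) (fun n => (W n).e)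
      (fun n => - (W n).t) {s | -s ∈ X}
      (fun n => ¬ (W n).k.fw) (fun n => ¬ (W n).k.ar) (mono h)
      (by
        intro n s hs hb
        refine adj h n (-s) hs (btw_neg.1 ?_)
        rwa [neg_neg])
      (by
        intro n m h3 h4
        exact btw_neg.2 ((h.lnk n).ins m h3 h4))
      (by
        intro n
        rcases (h.lnk n).dir with d | d
        · exact Or.inr ⟨not_not.2 d.1, not_not.2 d.2.1, neg_lt_neg d.2.2⟩
        · exact Or.inl ⟨d.1, d.2.1, neg_lt_neg d.2.2⟩)
      (by
        intro n hn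
        exact tl h n (fun h' => hn (not_congr h')))
      (by
        intro n hF hA
        have hF' := not_not.1 hF
        have hA' := not_not.1 hA
        rcases kd_cases (W n).k with hk | hk | hk
        · have := (h.ok n).1 hk.2.2
          exact ⟨neg_lt_neg this.2, neg_lt_neg this.1⟩
        · exact absurd hF' hk.1
        · exact absurd (iff_of_true hF' hA') hk.2) (-t) (by simpa using ht) e (lo h e) (hi h e)
        (neg_lt_neg h2) (neg_lt_neg h1)
    refine ⟨n, ?_⟩
    rcases kd_cases (W n).k with hk | hk | hk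
    · exact absurd hk.1 hF
    · cases hw : W n
      rw [hw] at hk hT hE
      simp only [neg_inj] at hk hT hE
      rw [hk.2.2, hT, hE]
    · exact absurd (iff_of_false hF hA) hk.2

end LH
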