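import Pool.Agent.LH.Stmts1

/-!
# Elementary properties of closed walks
-/

namespace LH

open Set LG

namespace CWA

variable {α : Type*}

/-- The cyclically consecutive pairs of a rotated list. -/
theorem cp_rotate (w : List α) (n : ℕ) : cp (w.rotate n) = (cp w).rotate n := by
  unfold cp
  rw [List.rotate_rotate, Nat.add_comm, ← List.rotate_rotate]
  exact (List.zipWith_rotate_distrib Prod.mk w (w.rotate 1) n (by simp)).symm

theorem mem_cp_comm (A B : List α) (x : α × α) : x ∈ cp (A ++ B) ↔ x ∈ cp (B ++ A) := by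
  have h : B ++ A = (A ++ B).rotate A.length := by simp
  rw [h, cp_rotate, List.mem_rotate]

theorem mem_cp_iff (w : List α) (p q : α) :
    (p, q) ∈ cp w ↔ ∃ (i : ℕ) (h : i < w.length), w[i] = p ∧
      w[(i + 1) % w.length]'(Nat.mod_lt _ (Nat.lt_of_le_of_lt (Nat.zero_le _) h)) = q := by
  unfold cp
  constructor
  · intro h
    obtain ⟨i, hi, he⟩ := List.mem_iff_getElem.1 h
    have hi' : i < w.length := by
      simp only [List.length_zip, List.length_rotate] at hi
      omega
    refine ⟨i, hi', ?_⟩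
    rw [List.getElem_zip, List.getElem_rotate] at he
    exact Prod.mk.inj he
  · rintro ⟨i, hi, h1, h2⟩
    refine List.mem_iff_getElem.2 ⟨i, by simp [List.length_zip, hi], ?_⟩
    rw [List.getElem_zip, List.getElem_rotate, h1, h2]

theorem succ_unique {w : List α} (hw : w.Nodup) {p q q' : α} (h : (p, q) ∈ cp w)
    (h' : (p, q') ∈ cp w) : q = q' := by
  obtain ⟨i, hi, h1, h2⟩ := (mem_cp_iff w p q).1 h
  obtain ⟨j, hj, h3, h4⟩ := (mem_cp_iff w p q').1 h'
  have hij : i = j := (hw.getElem_inj_iff).1 (h1.trans h3.symm)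
  subst hij
  exact h2.symm.trans h4

theorem pred_unique {w : List α} (hw : w.Nodup) {p p' q : α} (h : (p, q) ∈ cp w)
    (h' : (p', q) ∈ cp w) : p = p' := by
  obtain ⟨i, hi, h1, h2⟩ := (mem_cp_iff w p q).1 h
  obtain ⟨j, hj, h3, h4⟩ := (mem_cp_iff w p' q).1 h'
  have hij : (i + 1) % w.length = (j + 1) % w.length :=
    (hw.getElem_inj_iff).1 (h2.trans h4.symm)
  have hij' : i = j := by
    rcases Nat.lt_or_ge (i + 1) w.length with h5 | h5 <;>
    rcases Nat.lt_or_ge (j + 1) w.length with h6 | h6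
    · rw [Nat.mod_eq_of_lt h5, Nat.mod_eq_of_lt h6] at hij
      omega
    · have h7 : j + 1 = w.length := by omega
      rw [Nat.mod_eq_of_lt h5, h7, Nat.mod_self] at hij
      omega
    · have h7 : i + 1 = w.length := by omega
      rw [Nat.mod_eq_of_lt h6, h7, Nat.mod_self] at hij
      omega
    · omega
  subst hij'
  exact h1.symm.trans h3

/-- A cyclic relation as a chain. -/
theorem chain_iff_zip (R : α → α → Prop) (l : List α) (a : α) :
    List.IsChain R (a :: l) ↔ ∀ x ∈ List.zip (a :: l) l, R x.1 x.2 := by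
  induction l generalizing a with
  | nil => simp
  | cons b l ih =>
    rw [List.isChain_cons_cons, ih b]
    simp [List.zip_cons_cons]

theorem cp_iff_chain (R : α → α → Prop) (a : α) (T : List α) :
    (∀ x ∈ cp (a :: T), R x.1 x.2) ↔ List.IsChain R (a :: (T ++ [a])) := by
  rw [chain_iff_zip]
  have h1 : cp (a :: T) = List.zip (a :: T) (T ++ [a]) := by
    unfold cp
    simp [List.rotate_cons_succ]
  have h2 : List.zip (a :: (T ++ [a])) (T ++ [a]) = List.zip (a :: T) (T ++ [a]) := by
    have h3 : a :: (T ++ [a]) = (a :: T) ++ [a] := rfl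
    have h4 : T ++ [a] = (T ++ [a]) ++ [] := by simp
    conv_lhs => rw [h3, h4]
    rw [List.zip_append (by simp)]
    simp
  rw [h1, h2]

/-- A column follows a row and a row follows a column. -/
def Ra (x y : En) : Prop := x.isLeft = !y.isLeft

theorem chain_ents : ∀ (T : List Pt) (p : Pt), List.IsChain Stp (p :: T) →
    List.IsChain Ra (ent p ++ ents T)
  | [], p, _ => by
    obtain ⟨k, t, h⟩ := p
    cases k <;> simp [ents, ent, Ra]
  | q :: T, p, hc => by
    rw [List.isChain_cons_cons] at hc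
    have ih := chain_ents T q hc.2
    have hs := hc.1
    have he : ents (q :: T) = ent q ++ ents T := by simp [ents]
    rw [he]
    obtain ⟨k, t, h⟩ := p
    obtain ⟨k', t', h'⟩ := q
    cases k <;> cases k' <;> simp_all [ent, Ra, Stp, Kd.fw, Kd.ar]

theorem alt_of (w : List Pt) (hw : w ≠ []) (hs : ∀ x ∈ cp w, Stp x.1 x.2) : Alt (ents w) := by
  obtain ⟨a, T, rfl⟩ := List.exists_cons_of_ne_nil hw
  rw [cp_iff_chain] at hs
  have h1 := chain_ents (T ++ [a]) a hs
  have h2 : ent a ++ ents (T ++ [a]) = ents (a :: T) ++ ent a := by simp [ents]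
  rw [h2] at h1
  obtain ⟨e, r, he⟩ : ∃ e r, ent a = e :: r := by
    obtain ⟨k, t, h⟩ := a
    cases k <;> simp [ent]
  have h3 : ents (a :: T) = e :: (r ++ ents T) := by simp [ents, he]
  refine ⟨by rw [h3]; simp, ?_⟩
  rw [h3]
  refine (cp_iff_chain Ra e (r ++ ents T)).2 ?_
  rw [h3, he] at h1
  have h4 : e :: (r ++ ents T) ++ e :: r = (e :: (r ++ ents T ++ [e])) ++ r := by simp
  rw [h4] at h1
  exact h1.left_of_append

theorem nd_of (w : List Pt) (h : (ents w).Nodup) : w.Nodup := by
  unfold ents at h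
  rw [List.nodup_flatMap] at h
  refine h.2.imp ?_
  intro a b hab heq
  subst heq
  obtain ⟨k, t, h⟩ := a
  cases k <;> simp [ent, Function.onFun] at hab

theorem ne_nil_of {w : List Pt} (h : CW w) : w ≠ [] := by
  rintro rfl
  have := h.len
  simp [ents] at this

theorem ents_append (A B : List Pt) : ents (A ++ B) = ents A ++ ents B := by
  simp [ents]

end CWA

open CWA

/-- CWA: elementary properties of closed walks. -/
theorem t_CWA : Stmt_CWA := by
  intro hW
  have hlk : ∀ w, CW w → ∀ p q, Lk w p q →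
      ((p, q) ∈ cp w ∧ p.k.fw ∧ q.k.ar) ∨ ((q, p) ∈ cp w ∧ ¬ q.k.fw ∧ ¬ p.k.ar) := by
    intro w hw p q h
    obtain ⟨ht, h1 | h1⟩ := h
    · rcases hw.st _ h1 with h2 | h2
      · exact Or.inl ⟨h1, h2.1, h2.2.1⟩
      · exact absurd h2.2.2 (not_lt.2 ht.le)
    · rcases hw.st _ h1 with h2 | h2
      · exact absurd h2.2.2 (not_lt.2 ht.le)
      · exact Or.inr ⟨h1, h2.1, h2.2.1⟩
  have halt : ∀ w, CW w → Alt (ents w) := fun w hw => alt_of w (ne_nil_of hw) hw.st
  refine ⟨halt, ?_, ?_, fun w hw => nd_of w hw.nd, ?_, ?_, ?_⟩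
  · intro A B h
    refine ⟨⟨?_, ?_, ?_⟩, ?_⟩
    · have := h.nd
      rw [ents_append] at this ⊢
      exact List.nodup_append_comm.1 this
    · intro x hx
      exact h.st x ((mem_cp_comm A B x).2 hx)
    · have := h.len
      rw [ents_append, List.length_append] at this ⊢
      omega
    · have h1 := halt _ h
      have h2 := h.nd
      rw [ents_append] at h1 h2
      rw [ents_append, ents_append]
      exact hW.rot _ _ h1 h2
  · intro A B p q
    unfold Lk
    rw [mem_cp_comm A B, mem_cp_comm A B]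
  · intro w hw p p' q h h' hq
    have hn := nd_of w hw.nd
    rcases hlk w hw p q h with h1 | h1 <;> rcases hlk w hw p' q h' with h2 | h2
    · exact pred_unique hn h1.1 h2.1
    · obtain ⟨k, t, hh⟩ := q
      cases k <;> simp_all [Kd.fw, Kd.ar]
    · obtain ⟨k, t, hh⟩ := q
      cases k <;> simp_all [Kd.fw, Kd.ar]
    · exact succ_unique hn h1.1 h2.1
  · intro w hw p q q' h h' hp
    have hn := nd_of w hw.nd
    rcases hlk w hw p q h with h1 | h1 <;> rcases hlk w hw p q' h' with h2 | h2
    · exact succ_unique hn h1.1 h2.1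
    · obtain ⟨k, t, hh⟩ := p
      cases k <;> simp_all [Kd.fw, Kd.ar]
    · obtain ⟨k, t, hh⟩ := p
      cases k <;> simp_all [Kd.fw, Kd.ar]
    · exact pred_unique hn h1.1 h2.1
  · intro w hw p q h
    rcases hlk w hw p q h with h1 | h1
    · obtain ⟨-, h2, h3⟩ := h1
      constructor
      · intro hk; rw [hk] at h2; exact h2
      · intro hk; rw [hk] at h3; exact h3
    · obtain ⟨-, h2, h3⟩ := h1
      constructor
      · intro hk; rw [hk] at h3; exact h3 trivial
      · intro hk; rw [hk] at h2; exact h2 trivial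

end LH
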