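import Pool.Agent.LH.Stmts2

/-!
# CWG: the walk of points for a good set of lines
-/

namespace LH

open Set LG

namespace CWG

/-! ### entries -/

theorem inl_mem {p : Pt} {c : Q} : Sum.inl c ∈ ent p ↔ p.k ≠ .L ∧ c = p.c := by
  unfold ent
  cases h : p.k <;> simp

theorem inr_mem {p : Pt} {r : Q} : Sum.inr r ∈ ent p ↔ p.k ≠ .R ∧ r = p.r := by
  unfold ent
  cases h : p.k <;> simp

theorem ent_nodup (p : Pt) : (ent p).Nodup := by
  unfold ent
  cases h : p.k <;> simp

theorem c_eq {p q : Pt} (h : p.c = q.c) : p.t = q.t ∧ p.h = q.h := by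
  unfold Pt.c at h
  have h1 := toLex.injective h
  exact ⟨congrArg Prod.fst h1, congrArg Prod.snd h1⟩

theorem r_eq {p q : Pt} (h : p.r = q.r) : p.t = q.t ∧ p.h = q.h := by
  unfold Pt.r at h
  have h1 := toLex.injective h
  have h2 : -p.t = -q.t := congrArg Prod.fst h1
  exact ⟨by linarith, congrArg Prod.snd h1⟩

/-! ### adjacency -/

theorem adj_left {X : Finset ℝ} {a a' s : ℝ} (h : AdjX X a s) (h' : AdjX X a' s) : a = a' := by
  obtain ⟨h1, _, h3, h4⟩ := h
  obtain ⟨h1', _, h3', h4'⟩ := h'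
  rcases lt_trichotomy a a' with h5 | h5 | h5
  · exact absurd ⟨h5, h3'⟩ (h4 a' h1')
  · exact h5
  · exact absurd ⟨h5, h3⟩ (h4' a h1)

theorem adj_right {X : Finset ℝ} {s b b' : ℝ} (h : AdjX X s b) (h' : AdjX X s b') : b = b' := by
  obtain ⟨_, h2, h3, h4⟩ := h
  obtain ⟨_, h2', h3', h4'⟩ := h'
  rcases lt_trichotomy b b' with h5 | h5 | h5
  · exact absurd ⟨h3, h5⟩ (h4' b h2)
  · exact h5
  · exact absurd ⟨h3', h5⟩ (h4 b' h2')

theorem av {N : ℕ} {P : Pg N} {X : Finset ℝ} (hX : GoodX P X) : ∀ s ∈ X, ∀ i, P.x i ≠ s := by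
  intro s hs i
  obtain ⟨a0, ha0, h1⟩ := hX.lo
  by_cases h2 : a0 < s
  · have hne : (X.filter fun t => t < s).Nonempty := ⟨a0, Finset.mem_filter.mpr ⟨ha0, h2⟩⟩
    have hm := Finset.mem_filter.mp (Finset.max'_mem _ hne)
    have hadj : AdjX X ((X.filter fun t => t < s).max' hne) s := by
      refine ⟨hm.1, hs, hm.2, ?_⟩
      intro t ht h3
      have h5 : t ∈ X.filter fun t => t < s := Finset.mem_filter.mpr ⟨ht, h3.2⟩
      have h4 := Finset.le_max' _ t h5
      exact absurd h3.1 (not_lt.mpr h4)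
    exact ((hX.gd _ _ hadj).av i).2
  · intro h3
    have h4 := h1 i
    rw [h3] at h4
    exact h2 h4

/-! ### sequences -/

theorem per {N : ℕ} {P : Pg N} {X : Finset ℝ} {w : List It} {W : ℤ → It} (h : Sq P X w W)
    (n c : ℤ) : (W (n + c * w.length)).k = (W n).k ∧ (W (n + c * w.length)).t = (W n).t ∧
      (W (n + c * w.length)).e = (W n).e + c * N := by
  induction c using Int.induction_on with
  | zero => simp
  | succ i ih =>
    have h1 : n + ((i : ℤ) + 1) * w.length = (n + (i : ℤ) * w.length) + w.length := by ring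
    rw [h1, h.per]
    refine ⟨ih.1, ih.2.1, ?_⟩
    change (W (n + (i : ℤ) * w.length)).e + N = _
    rw [ih.2.2]
    ring
  | pred i ih =>
    have h1 : n + (-(i : ℤ)) * w.length = (n + (-(i : ℤ) - 1) * w.length) + w.length := by ring
    rw [h1, h.per] at ih
    refine ⟨ih.1, ih.2.1, ?_⟩
    have h2 : (W (n + (-(i : ℤ) - 1) * w.length)).e + N = (W n).e + (-(i : ℤ)) * N := ih.2.2
    linear_combination h2

/-- The item touches the cell `(a, b)` at the line `s`. -/
def Tch {N : ℕ} (P : Pg N) (a b s : ℝ) (i : It) : Prop :=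
  (i.k = .rt ∨ i.k = .lt) ∧
      (P.x i.e < s ∧ s < P.x (i.e + 1) ∨ P.x (i.e + 1) < s ∧ s < P.x i.e) ∨
    (i.k = .R ∨ i.k = .L) ∧ a < P.x (i.e + 1) ∧ P.x (i.e + 1) < b

theorem Tch.mts {N : ℕ} {P : Pg N} {a b s : ℝ} {i : It} (h : Tch P a b s i) (hs : a ≤ s)
    (hs' : s ≤ b) : Mts P a b i.e := by
  rcases h with ⟨-, ⟨h1, h2⟩ | ⟨h1, h2⟩⟩ | ⟨-, h1, h2⟩
  · exact ⟨fun h3 => by linarith [h3.2], fun h3 => by linarith [h3.1]⟩
  · exact ⟨fun h3 => by linarith [h3.1], fun h3 => by linarith [h3.2]⟩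
  · exact ⟨fun h3 => by linarith [h3.2], fun h3 => by linarith [h3.2]⟩

theorem ym_shift (hPGB : P_PGB) {N : ℕ} {P : Pg N} {p q : ℤ} (h : YM P p q) (k : ℤ) :
    YM P (p + k * N) (q + k * N) := by
  have hy : ∀ i, P.y i = P.y (i - k * N) := by
    intro i
    have h1 := (hPGB.sh P (i - k * N) k).2.1
    rw [← h1]
    congr 1
    ring
  have hm : ∀ i, i ∈ Icc (p + k * N) (q + k * N) → i - k * N ∈ Icc p q := by
    intro i hi
    exact ⟨by linarith [hi.1], by linarith [hi.2]⟩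
  rcases h with h | h
  · left
    intro i hi j hj hij
    rw [hy i, hy j]
    exact h (hm i hi) (hm j hj) (by linarith)
  · right
    intro i hi j hj hij
    rw [hy i, hy j]
    exact h (hm i hi) (hm j hj) (by linarith)

/-- A turn which touches the cell belongs to a component which is monotone in `y`. -/
theorem turn_ym (hPGB : P_PGB) (hCMP : P_CMP) (hSEQ : P_SEQ) {N : ℕ} {P : Pg N} {X : Finset ℝ}
    {w : List It} {W : ℤ → It} (h : Sq P X w W) {a b : ℝ} (hYF : YF P a b w) (n : ℤ)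
    (hk : (W n).k = .R ∨ (W n).k = .L) (h1 : a < P.x ((W n).e + 1)) (h2 : P.x ((W n).e + 1) < b)
    {p q : ℤ} (hC : Comp P a b p q) (hp : p ≤ (W n).e) (hq : (W n).e ≤ q) : YM P p q := by
  obtain ⟨i, hi, k, hk1, -, hk3⟩ := hSEQ.mem P X w W h n
  have hx : P.x ((W n).e + 1) = P.x (i.e + 1) := by
    rw [hk3]
    have h3 := (hPGB.sh P (i.e + 1) k).1
    rw [← h3]
    congr 1
    ring
  rw [hk1] at hk
  rw [hx] at h1 h2
  obtain ⟨p', q', hC', hp', hq', hY⟩ := hYF i hi hk h1 h2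
  have hC2 := hCMP.sh P a b p' q' k hC'
  obtain ⟨e1, e2⟩ := hCMP.un P a b p q (p' + k * N) (q' + k * N) (W n).e hC hC2 hp hq
    (by rw [hk3]; linarith) (by rw [hk3]; linarith)
  rw [e1, e2]
  exact ym_shift hPGB hY k

/-- The heights of two edges of a component monotone in `y` are different at the ends of the
cell. -/
theorem ym_ne (hPGB : P_PGB) {N : ℕ} {P : Pg N} {a b s : ℝ} (hs : s = a ∨ s = b) {p q : ℤ}
    (hC : Comp P a b p q) (hY : YM P p q) {i j : ℤ} (hpi : p ≤ i) (hij : i < j) (hjq : j ≤ q) :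
    P.l i s ≠ P.l j s := by
  have hsub : Icc i j ⊆ Icc p q := Icc_subset_Icc hpi hjq
  have hins : ∀ m, i < m → m ≤ j → a < P.x m ∧ P.x m < b := fun m h1 h2 =>
    hC.ins m (by omega) (by omega)
  rcases hY with hY | hY
  · rcases hs with rfl | rfl
    · exact (hPGB.m2 P i j _ hij (hY.mono hsub) (fun m h1 h2 => (hins m h1 h2).1)).ne'
    · exact (hPGB.m1 P i j _ hij (hY.mono hsub) (fun m h1 h2 => (hins m h1 h2).2)).ne
  · rcases hs with rfl | rfl
    · exact (hPGB.m4 P i j _ hij (hY.mono hsub) (fun m h1 h2 => (hins m h1 h2).1)).ne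
    · exact (hPGB.m3 P i j _ hij (hY.mono hsub) (fun m h1 h2 => (hins m h1 h2).2)).ne'

/-- Two different edges of a strictly increasing component do not cross the same line. -/
theorem cross_mono {N : ℕ} {P : Pg N} {s : ℝ} {p q : ℤ}
    (hM : StrictMonoOn P.x (Icc p (q + 1)) ∨ StrictAntiOn P.x (Icc p (q + 1))) {i j : ℤ}
    (hpi : p ≤ i) (hij : i < j) (hjq : j ≤ q)
    (hi : P.x i < s ∧ s < P.x (i + 1) ∨ P.x (i + 1) < s ∧ s < P.x i)
    (hj : P.x j < s ∧ s < P.x (j + 1) ∨ P.x (j + 1) < s ∧ s < P.x j) : False := by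
  have m1 : i ∈ Icc p (q + 1) := ⟨hpi, by omega⟩
  have m2 : i + 1 ∈ Icc p (q + 1) := ⟨by omega, by omega⟩
  have m3 : j ∈ Icc p (q + 1) := ⟨by omega, by omega⟩
  have m4 : j + 1 ∈ Icc p (q + 1) := ⟨by omega, by omega⟩
  rcases hM with hM | hM
  · have a1 := hM m1 m2 (by omega)
    have a2 := hM m3 m4 (by omega)
    have a3 : P.x (i + 1) ≤ P.x j := hM.monotoneOn m2 m3 (by omega)
    rcases hi with hi | hi
    · rcases hj with hj | hj
      · linarith
      · linarith
    · linarith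
  · have a1 := hM m1 m2 (by omega)
    have a2 := hM m3 m4 (by omega)
    have a3 : P.x j ≤ P.x (i + 1) := hM.antitoneOn m2 m3 (by omega)
    rcases hi with hi | hi
    · linarith
    · rcases hj with hj | hj
      · linarith
      · linarith

/-- Two items of the same line which touch a cell have different heights. -/
theorem main (hPGB : P_PGB) (hCMP : P_CMP) (hSEQ : P_SEQ) {N : ℕ} {P : Pg N} {X : Finset ℝ}
    {w : List It} {W : ℤ → It} (hN : 0 < N) (h : Sq P X w W) {a b s : ℝ} (hG : Good P a b)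
    (hYF : YF P a b w) (hs : s = a ∨ s = b) (n n' : ℤ) (ht : (W n).t = s) (ht' : (W n').t = s)
    (hT : Tch P a b s (W n)) (hT' : Tch P a b s (W n'))
    (hne : ¬ ∃ k : ℤ, n' = n + k * w.length) : P.l (W n).e s ≠ P.l (W n').e s := by
  have hs1 : a ≤ s := by
    rcases hs with rfl | rfl
    · exact le_rfl
    · exact hG.lt.le
  have hs2 : s ≤ b := by
    rcases hs with rfl | rfl
    · exact hG.lt.le
    · exact le_rfl
  obtain ⟨p, q, hC, hp, hq⟩ := hCMP.ex P a b hN hG (W n).e (hT.mts hs1 hs2)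
  obtain ⟨p', q', hC', hp', hq'⟩ := hCMP.ex P a b hN hG (W n').e (hT'.mts hs1 hs2)
  rcases hCMP.sep P a b p q p' q' hN hG hC hC' with ⟨k, rfl, rfl⟩ | ⟨hSa, hSb⟩
  · -- the same component
    obtain ⟨hk1, hk2, hk3⟩ := per h n' (-k)
    have hl : P.l (W (n' + -k * w.length)).e s = P.l (W n').e s := by
      rw [hk3]
      exact (hPGB.sh P (W n').e (-k)).2.2.2 s
    rw [← hl]
    have hpm : p ≤ (W (n' + -k * w.length)).e := by
      rw [hk3]
      linarith
    have hqm : (W (n' + -k * w.length)).e ≤ q := by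
      rw [hk3]
      linarith
    have hx0 : P.x (W (n' + -k * w.length)).e = P.x (W n').e := by
      rw [hk3]
      exact (hPGB.sh P (W n').e (-k)).1
    have hx1 : P.x ((W (n' + -k * w.length)).e + 1) = P.x ((W n').e + 1) := by
      rw [hk3]
      have h3 := (hPGB.sh P ((W n').e + 1) (-k)).1
      rw [← h3]
      congr 1
      ring
    have hT2 : Tch P a b s (W (n' + -k * w.length)) := by
      unfold Tch
      rw [hk1, hx0, hx1]
      exact hT'
    have ht2 : (W (n' + -k * w.length)).t = s := by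
      rw [hk2, ht']
    have hnn : n ≠ n' + -k * w.length := by
      intro h3
      exact hne ⟨k, by linear_combination -h3⟩
    have hee : (W n).e ≠ (W (n' + -k * w.length)).e := by
      rcases lt_or_gt_of_ne hnn with h3 | h3
      · exact (hSEQ.lt P X w W h _ _ h3 (ht.trans ht2.symm)).ne
      · exact (hSEQ.lt P X w W h _ _ h3 (ht2.trans ht.symm)).ne'
    have hfin : YM P p q → P.l (W n).e s ≠ P.l (W (n' + -k * w.length)).e s := by
      intro hY
      rcases lt_or_gt_of_ne hee with h3 | h3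
      · exact ym_ne hPGB hs hC hY hp h3 hqm
      · exact (ym_ne hPGB hs hC hY hpm h3 hq).symm
    rcases hG.ty p q hC with hM | hY
    · rcases hT with ⟨-, hc⟩ | ⟨hk, h4, h5⟩
      · rcases hT2 with ⟨-, hc2⟩ | ⟨hk, h4, h5⟩
        · exfalso
          rcases lt_or_gt_of_ne hee with h3 | h3
          · exact cross_mono hM hp h3 hqm hc hc2
          · exact cross_mono hM hpm h3 hq hc2 hc
        · exact hfin (turn_ym hPGB hCMP hSEQ h hYF _ hk h4 h5 hC hpm hqm)
      · exact hfin (turn_ym hPGB hCMP hSEQ h hYF _ hk h4 h5 hC hp hq)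
    · exact hfin hY
  · have hS : Sep P p q p' q' s := by
      rcases hs with rfl | rfl
      · exact hSa
      · exact hSb
    rcases hS with hS | hS
    · exact (hS _ ⟨hp, hq⟩ _ ⟨hp', hq'⟩).ne
    · exact (hS _ ⟨hp, hq⟩ _ ⟨hp', hq'⟩).ne'

/-! ### the cells of the items -/

theorem lk_fw {N : ℕ} {P : Pg N} {X : Finset ℝ} {i j : It} (h : Lnk P X i j) (hf : i.k.fw) :
    AdjX X i.t j.t := by
  rcases h.dir with ⟨-, -, h1⟩ | ⟨h1, -, -⟩
  · rcases h.adj with h2 | h2
    · exact h2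
    · exact absurd h1 (not_lt.mpr h2.2.2.1.le)
  · exact absurd hf h1

theorem lk_nfw {N : ℕ} {P : Pg N} {X : Finset ℝ} {i j : It} (h : Lnk P X i j) (hf : ¬ i.k.fw) :
    AdjX X j.t i.t := by
  rcases h.dir with ⟨h1, -, -⟩ | ⟨-, -, h1⟩
  · exact absurd h1 hf
  · rcases h.adj with h2 | h2
    · exact absurd h1 (not_lt.mpr h2.2.2.1.le)
    · exact h2

theorem lk_ar {N : ℕ} {P : Pg N} {X : Finset ℝ} {i j : It} (h : Lnk P X i j) (hf : j.k.ar) :
    AdjX X i.t j.t := by
  rcases h.dir with ⟨h1, -, -⟩ | ⟨-, h1, -⟩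
  · exact lk_fw h h1
  · exact absurd hf h1

theorem lk_nar {N : ℕ} {P : Pg N} {X : Finset ℝ} {i j : It} (h : Lnk P X i j) (hf : ¬ j.k.ar) :
    AdjX X j.t i.t := by
  rcases h.dir with ⟨-, h1, -⟩ | ⟨h1, -, -⟩
  · exact absurd h1 hf
  · exact lk_nfw h h1

theorem col_cell {N : ℕ} {P : Pg N} {X : Finset ℝ} {w : List It} {W : ℤ → It} (h : Sq P X w W)
    (n : ℤ) (hk : (W n).k ≠ .L) : ∃ a, AdjX X a (W n).t ∧ Tch P a (W n).t (W n).t (W n) := by
  have hL := h.lnk (n - 1)
  rw [sub_add_cancel] at hL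
  have hL' := h.lnk n
  have hok := h.ok n
  cases hc : (W n).k with
  | rt =>
    refine ⟨_, lk_ar hL (by rw [hc]; trivial), Or.inl ⟨Or.inl hc, Or.inl (hok.1 hc)⟩⟩
  | lt =>
    refine ⟨_, lk_nfw hL' (by rw [hc]; exact fun h => h), Or.inl ⟨Or.inr hc, Or.inr (hok.2 hc)⟩⟩
  | R =>
    have h1 := lk_nfw hL' (by rw [hc]; exact fun h => h)
    refine ⟨_, h1, Or.inr ⟨Or.inl hc, ?_⟩⟩
    have h2 := hL'.tl (Or.inl hc)
    rcases hL'.ins ((W n).e + 1) (by omega) (by omega) with h3 | h3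
    · exact absurd (h3.1.trans h3.2) (not_lt.mpr h1.2.2.1.le)
    · exact h3
  | L => exact absurd hc hk

theorem row_cell {N : ℕ} {P : Pg N} {X : Finset ℝ} {w : List It} {W : ℤ → It} (h : Sq P X w W)
    (n : ℤ) (hk : (W n).k ≠ .R) : ∃ b, AdjX X (W n).t b ∧ Tch P (W n).t b (W n).t (W n) := by
  have hL := h.lnk (n - 1)
  rw [sub_add_cancel] at hL
  have hL' := h.lnk n
  have hok := h.ok n
  cases hc : (W n).k with
  | rt =>
    refine ⟨_, lk_fw hL' (by rw [hc]; trivial), Or.inl ⟨Or.inl hc, Or.inl (hok.1 hc)⟩⟩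
  | lt =>
    refine ⟨_, lk_nar hL (by rw [hc]; exact fun h => h), Or.inl ⟨Or.inr hc, Or.inr (hok.2 hc)⟩⟩
  | L =>
    have h1 := lk_fw hL' (by rw [hc]; trivial)
    refine ⟨_, h1, Or.inr ⟨Or.inr hc, ?_⟩⟩
    have h2 := hL'.tl (Or.inr hc)
    rcases hL'.ins ((W n).e + 1) (by omega) (by omega) with h3 | h3
    · exact h3
    · exact absurd (h3.1.trans h3.2) (not_lt.mpr h1.2.2.1.le)
  | R => exact absurd hc hk

end CWG

open CWG in
theorem t_CWG : Stmt_CWG := by
  intro hPGB hCMP hSEQ hLEN hGYF N P X w hX hw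
  have hN : 0 < N := hSEQ.pos P X w hw.1
  obtain ⟨W, hW⟩ := hSEQ.ex P X w hw.1
  have hYX : YX P X w := hGYF P X X w hX (Finset.Subset.refl _) (av hX) hw
  refine ⟨?_, ?_, hLEN P X X w hX (Finset.Subset.refl _) hw.1⟩
  · unfold ents
    rw [List.nodup_flatMap]
    refine ⟨fun p _ => ent_nodup p, ?_⟩
    rw [List.pairwise_map, List.pairwise_iff_getElem]
    intro i j hi hj hij
    have gi : w[i] = W i := hW.get i hi
    have gj : w[j] = W j := hW.get j hj
    have hne : ¬ ∃ k : ℤ, (j : ℤ) = i + k * w.length := by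
      rintro ⟨k, hk⟩
      rcases lt_or_ge k 1 with h1 | h1
      · have h2 : k * (w.length : ℤ) ≤ 0 :=
          mul_nonpos_of_nonpos_of_nonneg (by omega) (by omega)
        omega
      · have h2 : (w.length : ℤ) ≤ k * w.length := le_mul_of_one_le_left (by omega) h1
        omega
    change List.Disjoint (ent (pt P w[i])) (ent (pt P w[j]))
    intro x hx hy
    rw [gi] at hx
    rw [gj] at hy
    rcases x with c | r
    · obtain ⟨k1, e1⟩ := inl_mem.mp hx
      obtain ⟨k2, e2⟩ := inl_mem.mp hy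
      obtain ⟨ht, hh⟩ := c_eq (e1.symm.trans e2)
      have ht' : (W i).t = (W j).t := ht
      have hh' : P.l (W i).e (W i).t = P.l (W j).e (W j).t := hh
      obtain ⟨a, ha, hTa⟩ := col_cell hW i k1
      obtain ⟨a', ha', hTa'⟩ := col_cell hW j k2
      rw [← ht'] at ha' hTa' hh'
      have haa := adj_left ha ha'
      subst haa
      exact main hPGB hCMP hSEQ hN hW (hX.gd _ _ ha) (hYX _ _ ha) (Or.inr rfl) i j rfl ht'.symm
        hTa hTa' hne hh'
    · obtain ⟨k1, e1⟩ := inr_mem.mp hx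
      obtain ⟨k2, e2⟩ := inr_mem.mp hy
      obtain ⟨ht, hh⟩ := r_eq (e1.symm.trans e2)
      have ht' : (W i).t = (W j).t := ht
      have hh' : P.l (W i).e (W i).t = P.l (W j).e (W j).t := hh
      obtain ⟨a, ha, hTa⟩ := row_cell hW i k1
      obtain ⟨a', ha', hTa'⟩ := row_cell hW j k2
      rw [← ht'] at ha' hTa' hh'
      have haa := adj_right ha ha'
      subst haa
      exact main hPGB hCMP hSEQ hN hW (hX.gd _ _ ha) (hYX _ _ ha) (Or.inl rfl) i j rfl ht'.symm
        hTa hTa' hne hh'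
  · intro x hx
    obtain ⟨n, rfl⟩ := (hSEQ.cp P X w W hW x).mp hx
    exact (hW.lnk n).dir

end LH
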