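import Pool.Agent.LH.Stmts2

/-!
# CWP: the walk of points for generic lines
-/

namespace LH

open Set LG

namespace CWP

/-- The edge `e` crosses the line `t`. -/
def Crs {N : ℕ} (P : Pg N) (t : ℝ) (e : ℤ) : Prop :=
  P.x e < t ∧ t < P.x (e + 1) ∨ P.x (e + 1) < t ∧ t < P.x e

/-- Two different parallel edges of a component cannot both cross a line. -/
theorem core0 {N : ℕ} (P : Pg N) (a b t : ℝ) (p q e₁ e₂ : ℤ) (hG : Good P a b)
    (hC : Comp P a b p q) (h1 : p ≤ e₁) (h2 : e₂ ≤ q) (hlt : e₁ < e₂) (hy : P.y e₁ = P.y e₂)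
    (h : YM P p q ∨ Crs P t e₁ ∧ Crs P t e₂) : False := by
  have m1 : e₁ ∈ Icc p q := ⟨h1, by omega⟩
  have m2 : e₂ ∈ Icc p q := ⟨by omega, h2⟩
  have hYM : ¬ YM P p q := by
    rintro (h3 | h3)
    · exact absurd hy (h3 m1 m2 hlt).ne
    · exact absurd hy (h3 m1 m2 hlt).ne'
  have hc := h.resolve_left hYM
  rcases hG.ty p q hC with (h3 | h3) | h3
  · have k1 : P.x e₁ < P.x (e₁ + 1) := h3 ⟨h1, by omega⟩ ⟨by omega, by omega⟩ (by omega)
    have k2 : P.x e₂ < P.x (e₂ + 1) := h3 ⟨by omega, by omega⟩ ⟨by omega, by omega⟩ (by omega)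
    have k3 : P.x (e₁ + 1) ≤ P.x e₂ := by
      rcases eq_or_lt_of_le (show e₁ + 1 ≤ e₂ by omega) with h4 | h4
      · rw [h4]
      · exact (h3 ⟨by omega, by omega⟩ ⟨by omega, by omega⟩ h4).le
    obtain ⟨c1, c2⟩ := hc
    rcases c1 with ⟨c1, c1'⟩ | ⟨c1, c1'⟩ <;> rcases c2 with ⟨c2, c2'⟩ | ⟨c2, c2'⟩ <;> linarith
  · have k1 : P.x (e₁ + 1) < P.x e₁ := h3 ⟨h1, by omega⟩ ⟨by omega, by omega⟩ (by omega)
    have k2 : P.x (e₂ + 1) < P.x e₂ := h3 ⟨by omega, by omega⟩ ⟨by omega, by omega⟩ (by omega)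
    have k3 : P.x e₂ ≤ P.x (e₁ + 1) := by
      rcases eq_or_lt_of_le (show e₁ + 1 ≤ e₂ by omega) with h4 | h4
      · rw [h4]
      · exact (h3 ⟨by omega, by omega⟩ ⟨by omega, by omega⟩ h4).le
    obtain ⟨c1, c2⟩ := hc
    rcases c1 with ⟨c1, c1'⟩ | ⟨c1, c1'⟩ <;> rcases c2 with ⟨c2, c2'⟩ | ⟨c2, c2'⟩ <;> linarith
  · exact hYM h3

theorem core1 {N : ℕ} (P : Pg N) (a b t : ℝ) (p q e₁ e₂ : ℤ) (hG : Good P a b)
    (hC : Comp P a b p q) (h1 : p ≤ e₁) (h1' : e₁ ≤ q) (h2' : p ≤ e₂) (h2 : e₂ ≤ q)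
    (hne : e₁ ≠ e₂) (hy : P.y e₁ = P.y e₂)
    (h : YM P p q ∨ Crs P t e₁ ∧ Crs P t e₂) : False := by
  rcases lt_or_gt_of_ne hne with h3 | h3
  · exact core0 P a b t p q e₁ e₂ hG hC h1 h2 h3 hy h
  · refine core0 P a b t p q e₂ e₁ hG hC h2' h1' h3 hy.symm ?_
    rcases h with h | ⟨h, h'⟩
    · exact Or.inl h
    · exact Or.inr ⟨h', h⟩

/-- Two items of the same line, one cell. -/
theorem core2 (hP : P_PGB) (hM : P_CMP) {N : ℕ} (P : Pg N) (a b t : ℝ) (e₁ e₂ : ℤ)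
    (hN : 0 < N) (hG : Good P a b) (m1 : Mts P a b e₁) (m2 : Mts P a b e₂)
    (i1 : ∀ p q, Comp P a b p q → p ≤ e₁ → e₁ ≤ q → Crs P t e₁ ∨ YM P p q)
    (i2 : ∀ p q, Comp P a b p q → p ≤ e₂ → e₂ ≤ q → Crs P t e₂ ∨ YM P p q)
    (hlt : e₁ < e₂) (hlt' : e₂ < e₁ + N) (hy : P.y e₁ = P.y e₂) (hl : P.l e₁ t = P.l e₂ t) :
    False := by
  obtain ⟨p, q, hC, hp, hq⟩ := hM.ex P a b hN hG e₁ m1
  obtain ⟨p', q', hC', hp', hq'⟩ := hM.ex P a b hN hG e₂ m2
  have hla : ∀ s, P.l e₁ s = P.l e₂ s := by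
    intro s
    have h1 := hP.dt P e₁ s t
    have h2 := hP.dt P e₂ s t
    rw [hy] at h1
    linarith
  rcases hM.sep P a b p q p' q' hN hG hC hC' with ⟨k, hk, hk'⟩ | ⟨h1, -⟩
  · have hs := hP.sh P e₁ k
    have hs' := hP.sh P (e₁ + 1) k
    have hC2 : Comp P a b (p + k * N) (q + k * N) := hM.sh P a b p q k hC
    rw [← hk, ← hk'] at hC2
    have hne : e₁ + k * N ≠ e₂ := by
      intro h
      have h1 : 0 < k * N := by omega
      have h2 : k * N < 1 * N := by omega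
      have h3 : (0 : ℤ) < N := by exact_mod_cast hN
      have h4 : k < 1 := lt_of_mul_lt_mul_right h2 h3.le
      have h5 : 0 < k := lt_of_mul_lt_mul_right (show 0 * (N : ℤ) < k * N by omega) h3.le
      omega
    refine core1 P a b t p' q' (e₁ + k * N) e₂ hG hC2 (by omega) (by omega) hp' hq' hne ?_ ?_
    · rw [hs.2.1, hy]
    · by_cases hYM : YM P p' q'
      · exact Or.inl hYM
      · right
        have c2 := (i2 p' q' hC' hp' hq').resolve_right hYM
        refine ⟨?_, c2⟩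
        have c1 : Crs P t e₁ := by
          rcases i1 p q hC hp hq with h | h
          · exact h
          · exfalso
            apply hYM
            have key : ∀ i ∈ Icc p' q', P.y i = P.y (i - k * N) := by
              intro i _
              have := (hP.sh P (i - k * N) k).2.1
              rw [sub_add_cancel] at this
              exact this
            rcases h with h | h
            · left
              intro i hi j hj hij
              rw [key i hi, key j hj]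
              exact h ⟨by have := hi.1; omega, by have := hi.2; omega⟩
                ⟨by have := hj.1; omega, by have := hj.2; omega⟩ (by omega)
            · right
              intro i hi j hj hij
              rw [key i hi, key j hj]
              exact h ⟨by have := hi.1; omega, by have := hi.2; omega⟩
                ⟨by have := hj.1; omega, by have := hj.2; omega⟩ (by omega)
        unfold Crs at c1 ⊢
        have e1 : e₁ + k * N + 1 = e₁ + 1 + k * N := by ring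
        rw [e1, hs.1, hs'.1]
        exact c1
  · rcases h1 with h1 | h1
    · exact absurd (hla a) (h1 e₁ ⟨hp, hq⟩ e₂ ⟨hp', hq'⟩).ne
    · exact absurd (hla a) (h1 e₁ ⟨hp, hq⟩ e₂ ⟨hp', hq'⟩).ne'

/-- The facts about one item and one cell. -/
theorem item (hM : P_CMP) {N : ℕ} (P : Pg N) (X Y : Finset ℝ) (w : List It) (W : ℤ → It)
    (hXY : X ⊆ Y) (hS : Sq P Y w W) (hYX : YX P X w) (a b : ℝ) (hab : AdjX X a b) (n : ℤ)
    (hw : W n ∈ w) (ha : a ≤ (W n).t) (hb : (W n).t ≤ b) (hR : (W n).k = .R → a < (W n).t)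
    (hL : (W n).k = .L → (W n).t < b) :
    Mts P a b (W n).e ∧ ∀ p q, Comp P a b p q → p ≤ (W n).e → (W n).e ≤ q →
      Crs P (W n).t (W n).e ∨ YM P p q := by
  have hok := hS.ok n
  have hl := hS.lnk n
  have haY : a ∈ Y := hXY hab.1
  have hbY : b ∈ Y := hXY hab.2.1
  rcases hk : (W n).k with _ | _ | _ | _
  · obtain ⟨h1, h2⟩ := hok.1 hk
    refine ⟨⟨fun h => ?_, fun h => ?_⟩, fun p q _ _ _ => Or.inl (Or.inl ⟨h1, h2⟩)⟩
    · linarith [h.2]
    · linarith [h.1]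
  · obtain ⟨h1, h2⟩ := hok.2 hk
    refine ⟨⟨fun h => ?_, fun h => ?_⟩, fun p q _ _ _ => Or.inl (Or.inr ⟨h1, h2⟩)⟩
    · linarith [h.1]
    · linarith [h.2]
  · have h1 := hl.tl (Or.inl hk)
    have h2 := hl.ins ((W n).e + 1) (by omega) (by omega)
    have h3 : (W (n + 1)).t < (W n).t := by
      rcases hl.dir with ⟨h, -⟩ | ⟨-, -, h⟩
      · rw [hk] at h
        exact absurd h (by simp [Kd.fw])
      · exact h
    have h4 : (W (n + 1)).t < P.x ((W n).e + 1) ∧ P.x ((W n).e + 1) < (W n).t := by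
      rcases h2 with ⟨h5, h6⟩ | h2
      · exact absurd (h5.trans h6) (lt_asymm h3)
      · exact h2
    have h5 : a ≤ (W (n + 1)).t := by
      by_contra h6
      have h7 := hR hk
      rcases hl.adj with h8 | h8
      · exact absurd h8.2.2.1 (lt_asymm h3)
      · exact h8.2.2.2 a haY ⟨not_le.1 h6, h7⟩
    have h6 : a < P.x ((W n).e + 1) := lt_of_le_of_lt h5 h4.1
    have h7 : P.x ((W n).e + 1) < b := lt_of_lt_of_le h4.2 hb
    refine ⟨⟨fun h => lt_asymm h6 h.2, fun h => lt_asymm h7 h.2⟩, fun p q hC hp hq => Or.inr ?_⟩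
    obtain ⟨p', q', hC', hp', hq', hym⟩ := hYX a b hab (W n) hw (Or.inl hk) h6 h7
    obtain ⟨rfl, rfl⟩ := hM.un P a b p q p' q' (W n).e hC hC' hp hq hp' hq'
    exact hym
  · have h1 := hl.tl (Or.inr hk)
    have h2 := hl.ins ((W n).e + 1) (by omega) (by omega)
    have h3 : (W n).t < (W (n + 1)).t := by
      rcases hl.dir with ⟨-, -, h⟩ | ⟨h, -⟩
      · exact h
      · rw [hk] at h
        exact absurd h (by simp [Kd.fw])
    have h4 : (W n).t < P.x ((W n).e + 1) ∧ P.x ((W n).e + 1) < (W (n + 1)).t := by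
      rcases h2 with h2 | ⟨h5, h6⟩
      · exact h2
      · exact absurd (h5.trans h6) (lt_asymm h3)
    have h5 : (W (n + 1)).t ≤ b := by
      by_contra h6
      have h7 := hL hk
      rcases hl.adj with h8 | h8
      · exact h8.2.2.2 b hbY ⟨h7, not_le.1 h6⟩
      · exact absurd h8.2.2.1 (lt_asymm h3)
    have h6 : a < P.x ((W n).e + 1) := lt_of_le_of_lt ha h4.1
    have h7 : P.x ((W n).e + 1) < b := lt_of_lt_of_le h4.2 h5
    refine ⟨⟨fun h => lt_asymm h6 h.2, fun h => lt_asymm h7 h.2⟩, fun p q hC hp hq => Or.inr ?_⟩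
    obtain ⟨p', q', hC', hp', hq', hym⟩ := hYX a b hab (W n) hw (Or.inr hk) h6 h7
    obtain ⟨rfl, rfl⟩ := hM.un P a b p q p' q' (W n).e hC hC' hp hq hp' hq'
    exact hym

/-- The cell to the left of `t`. -/
theorem cellL (X : Finset ℝ) (t a₀ b₀ : ℝ) (ha : a₀ ∈ X) (hb : b₀ ∈ X) (h1 : a₀ < t)
    (h2 : t ≤ b₀) : ∃ a b, AdjX X a b ∧ a < t ∧ t ≤ b := by
  have n1 : (X.filter (· < t)).Nonempty := ⟨a₀, Finset.mem_filter.2 ⟨ha, h1⟩⟩
  have n2 : (X.filter (t ≤ ·)).Nonempty := ⟨b₀, Finset.mem_filter.2 ⟨hb, h2⟩⟩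
  have k1 := Finset.mem_filter.1 (Finset.max'_mem _ n1)
  have k2 := Finset.mem_filter.1 (Finset.min'_mem _ n2)
  refine ⟨(X.filter (· < t)).max' n1, (X.filter (t ≤ ·)).min' n2, ⟨k1.1, k2.1,
    lt_of_lt_of_le k1.2 k2.2, ?_⟩, k1.2, k2.2⟩
  rintro s hs ⟨h3, h4⟩
  rcases lt_or_ge s t with h5 | h5
  · exact absurd (Finset.le_max' _ s (Finset.mem_filter.2 ⟨hs, h5⟩)) (not_le.2 h3)
  · exact absurd (Finset.min'_le _ s (Finset.mem_filter.2 ⟨hs, h5⟩)) (not_le.2 h4)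

/-- The cell to the right of `t`. -/
theorem cellR (X : Finset ℝ) (t a₀ b₀ : ℝ) (ha : a₀ ∈ X) (hb : b₀ ∈ X) (h1 : a₀ ≤ t)
    (h2 : t < b₀) : ∃ a b, AdjX X a b ∧ a ≤ t ∧ t < b := by
  have n1 : (X.filter (· ≤ t)).Nonempty := ⟨a₀, Finset.mem_filter.2 ⟨ha, h1⟩⟩
  have n2 : (X.filter (t < ·)).Nonempty := ⟨b₀, Finset.mem_filter.2 ⟨hb, h2⟩⟩
  have k1 := Finset.mem_filter.1 (Finset.max'_mem _ n1)
  have k2 := Finset.mem_filter.1 (Finset.min'_mem _ n2)
  refine ⟨(X.filter (· ≤ t)).max' n1, (X.filter (t < ·)).min' n2, ⟨k1.1, k2.1,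
    lt_of_le_of_lt k1.2 k2.2, ?_⟩, k1.2, k2.2⟩
  rintro s hs ⟨h3, h4⟩
  rcases le_or_gt s t with h5 | h5
  · exact absurd (Finset.le_max' _ s (Finset.mem_filter.2 ⟨hs, h5⟩)) (not_le.2 h3)
  · exact absurd (Finset.min'_le _ s (Finset.mem_filter.2 ⟨hs, h5⟩)) (not_le.2 h4)

/-- An item with a column has a cell to the left. -/
theorem exL {N : ℕ} (P : Pg N) (X Y : Finset ℝ) (w : List It) (W : ℤ → It) (hX : GoodX P X)
    (hXY : X ⊆ Y) (hS : Sq P Y w W) (n : ℤ) (hk : (W n).k ≠ .L) :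
    ∃ a b, AdjX X a b ∧ a < (W n).t ∧ (W n).t ≤ b := by
  obtain ⟨a₀, ha₀, ha⟩ := hX.lo
  obtain ⟨b₀, hb₀, hb⟩ := hX.hi
  have hok := hS.ok n
  have hl := hS.lnk n
  rcases hk' : (W n).k with _ | _ | _ | _
  · obtain ⟨h1, h2⟩ := hok.1 hk'
    exact cellL X _ a₀ b₀ ha₀ hb₀ ((ha _).trans h1) (h2.trans (hb _)).le
  · obtain ⟨h1, h2⟩ := hok.2 hk'
    exact cellL X _ a₀ b₀ ha₀ hb₀ ((ha _).trans h1) (h2.trans (hb _)).le
  · have h1 := hl.tl (Or.inl hk')
    have h2 := hl.ins ((W n).e + 1) (by omega) (by omega)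
    have h3 : (W (n + 1)).t < (W n).t := by
      rcases hl.dir with ⟨h, -⟩ | ⟨-, -, h⟩
      · rw [hk'] at h
        exact absurd h (by simp [Kd.fw])
      · exact h
    have h4 : (W (n + 1)).t < P.x ((W n).e + 1) ∧ P.x ((W n).e + 1) < (W n).t := by
      rcases h2 with ⟨h5, h6⟩ | h2
      · exact absurd (h5.trans h6) (lt_asymm h3)
      · exact h2
    refine cellL X _ a₀ b₀ ha₀ hb₀ ((ha _).trans h4.2) ?_
    by_contra h6
    rcases hl.adj with h8 | h8
    · exact absurd h8.2.2.1 (lt_asymm h3)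
    · exact h8.2.2.2 b₀ (hXY hb₀) ⟨h4.1.trans (hb _), not_le.1 h6⟩
  · exact absurd hk' hk

/-- An item with a row has a cell to the right. -/
theorem exR {N : ℕ} (P : Pg N) (X Y : Finset ℝ) (w : List It) (W : ℤ → It) (hX : GoodX P X)
    (hXY : X ⊆ Y) (hS : Sq P Y w W) (n : ℤ) (hk : (W n).k ≠ .R) :
    ∃ a b, AdjX X a b ∧ a ≤ (W n).t ∧ (W n).t < b := by
  obtain ⟨a₀, ha₀, ha⟩ := hX.lo
  obtain ⟨b₀, hb₀, hb⟩ := hX.hi
  have hok := hS.ok n
  have hl := hS.lnk n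
  rcases hk' : (W n).k with _ | _ | _ | _
  · obtain ⟨h1, h2⟩ := hok.1 hk'
    exact cellR X _ a₀ b₀ ha₀ hb₀ ((ha _).trans h1).le (h2.trans (hb _))
  · obtain ⟨h1, h2⟩ := hok.2 hk'
    exact cellR X _ a₀ b₀ ha₀ hb₀ ((ha _).trans h1).le (h2.trans (hb _))
  · exact absurd hk' hk
  · have h1 := hl.tl (Or.inr hk')
    have h2 := hl.ins ((W n).e + 1) (by omega) (by omega)
    have h3 : (W n).t < (W (n + 1)).t := by
      rcases hl.dir with ⟨-, -, h⟩ | ⟨h, -⟩
      · exact h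
      · rw [hk'] at h
        exact absurd h (by simp [Kd.fw])
    have h4 : (W n).t < P.x ((W n).e + 1) ∧ P.x ((W n).e + 1) < (W (n + 1)).t := by
      rcases h2 with h2 | ⟨h5, h6⟩
      · exact h2
      · exact absurd (h5.trans h6) (lt_asymm h3)
    refine cellR X _ a₀ b₀ ha₀ hb₀ ?_ (h4.1.trans (hb _))
    by_contra h6
    rcases hl.adj with h8 | h8
    · exact h8.2.2.2 a₀ (hXY ha₀) ⟨not_le.1 h6, (ha _).trans h4.2⟩
    · exact absurd h8.2.2.1 (lt_asymm h3)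

theorem mem_inl (p : Pt) (c : Q) : (Sum.inl c : En) ∈ ent p ↔ p.k ≠ .L ∧ c = p.c := by
  unfold ent
  rcases p with ⟨k, t, h⟩
  cases k <;> simp

theorem mem_inr (p : Pt) (r : Q) : (Sum.inr r : En) ∈ ent p ↔ p.k ≠ .R ∧ r = p.r := by
  unfold ent
  rcases p with ⟨k, t, h⟩
  cases k <;> simp

theorem nodup_ent (p : Pt) : (ent p).Nodup := by
  unfold ent
  rcases p with ⟨k, t, h⟩
  cases k <;> simp

end CWP

open CWP in
/-- CWP: the walk of points for generic lines. -/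
theorem t_CWP : Stmt_CWP := by
  intro hP hM hQ hLen N P X Y w hX hXY hGen hE hYX
  obtain ⟨W, hS⟩ := hQ.ex P Y w hE
  have hN := hQ.pos P Y w hE
  have tY : ∀ n, (W n).t ∈ Y := by
    intro n
    rcases (hS.lnk n).adj with h | h
    · exact h.1
    · exact h.2.1
  -- the main argument
  have main : ∀ i j : ℕ, i < j → j < w.length → (W i).t = (W j).t →
      P.l (W i).e (W i).t = P.l (W j).e (W j).t →
      ¬ (((W i).k ≠ .L ∧ (W j).k ≠ .L) ∨ ((W i).k ≠ .R ∧ (W j).k ≠ .R)) := by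
    intro i j hij hj ht hl hk
    have hwi : W i ∈ w := by
      rw [← hS.get i (hij.trans hj)]
      exact List.getElem_mem _
    have hwj : W j ∈ w := by
      rw [← hS.get j hj]
      exact List.getElem_mem _
    have e1 : (W i).e < (W j).e := hQ.lt P Y w W hS i j (by exact_mod_cast hij) ht
    have hper := hS.per i
    have e2 : (W j).e < (W i).e + N := by
      have h1 := hQ.lt P Y w W hS j (i + w.length) (by omega) (by
        rw [hper]
        exact ht.symm)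
      rw [hper] at h1
      exact h1
    have hy : P.y (W i).e = P.y (W j).e := by
      by_contra h
      refine (hGen _ (tY i)).2 _ _ h ?_
      rw [hl, ht]
    have hl' : P.l (W i).e (W i).t = P.l (W j).e (W i).t := by
      rw [hl, ht]
    rcases hk with ⟨k1, k2⟩ | ⟨k1, k2⟩
    · obtain ⟨a, b, hab, ha, hb⟩ := exL P X Y w W hX hXY hS i k1
      obtain ⟨m1, i1⟩ := item hM P X Y w W hXY hS hYX a b hab i hwi ha.le hb (fun _ => ha)
        (fun h => absurd h k1)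
      obtain ⟨m2, i2⟩ := item hM P X Y w W hXY hS hYX a b hab j hwj (ht ▸ ha.le) (ht ▸ hb)
        (fun _ => ht ▸ ha) (fun h => absurd h k2)
      rw [← ht] at i2
      exact core2 hP hM P a b _ _ _ hN (hX.gd a b hab) m1 m2 i1 i2 e1 e2 hy hl'
    · obtain ⟨a, b, hab, ha, hb⟩ := exR P X Y w W hX hXY hS i k1
      obtain ⟨m1, i1⟩ := item hM P X Y w W hXY hS hYX a b hab i hwi ha hb.le
        (fun h => absurd h k1) (fun _ => hb)
      obtain ⟨m2, i2⟩ := item hM P X Y w W hXY hS hYX a b hab j hwj (ht ▸ ha) (ht ▸ hb.le)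
        (fun h => absurd h k2) (fun _ => ht ▸ hb)
      rw [← ht] at i2
      exact core2 hP hM P a b _ _ _ hN (hX.gd a b hab) m1 m2 i1 i2 e1 e2 hy hl'
  refine ⟨?_, ?_, hLen P X Y w hX hXY hE⟩
  · unfold ents
    rw [List.nodup_flatMap]
    refine ⟨fun p _ => nodup_ent p, ?_⟩
    rw [List.pairwise_map, List.pairwise_iff_getElem]
    intro i j hi hj hij
    have hwi := hS.get i hi
    have hwj := hS.get j hj
    rw [hwi, hwj]
    intro x hx1 hx2
    rcases x with c | r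
    · rw [mem_inl] at hx1 hx2
      have h1 : (pt P (W i)).c = (pt P (W j)).c := hx1.2.symm.trans hx2.2
      have h2 : ((W i).t, P.l (W i).e (W i).t) = ((W j).t, P.l (W j).e (W j).t) :=
        toLex.injective h1
      rw [Prod.mk.injEq] at h2
      exact main i j hij hj h2.1 h2.2 (Or.inl ⟨hx1.1, hx2.1⟩)
    · rw [mem_inr] at hx1 hx2
      have h1 : (pt P (W i)).r = (pt P (W j)).r := hx1.2.symm.trans hx2.2
      have h2 : (-(W i).t, P.l (W i).e (W i).t) = (-(W j).t, P.l (W j).e (W j).t) :=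
        toLex.injective h1
      rw [Prod.mk.injEq] at h2
      exact main i j hij hj (neg_injective h2.1) h2.2 (Or.inr ⟨hx1.1, hx2.1⟩)
  · intro x hx
    obtain ⟨n, rfl⟩ := (hQ.cp P Y w W hS x).1 hx
    exact (hS.lnk n).dir

end LH
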