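import Pool.Agent.LH.Stmts1

/-!
# DC1: removal of a short column
-/

namespace LH

open Set LG

namespace DC1

variable {α β : Type*}

theorem cp_rot (A B : List α) (p : α × α) (h : p ∈ cp (A ++ B)) : p ∈ cp (B ++ A) := by
  unfold cp at *
  have h1 : B ++ A = (A ++ B).rotate A.length := by simp
  rw [h1, List.rotate_rotate, Nat.add_comm, ← List.rotate_rotate]
  have h2 : ((A ++ B).zip ((A ++ B).rotate 1)).rotate A.length
      = ((A ++ B).rotate A.length).zip (((A ++ B).rotate 1).rotate A.length) := by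
    simpa [List.zip] using
      List.zipWith_rotate_distrib Prod.mk (A ++ B) ((A ++ B).rotate 1) A.length (by simp)
  rw [← h2]
  simpa using h

theorem alt_rot {A B : List En} (h : Alt (A ++ B)) : Alt (B ++ A) := by
  refine ⟨?_, fun p hp => h.2 p (cp_rot _ _ _ hp)⟩
  have := h.1
  simp only [ne_eq, List.append_eq_nil_iff] at *
  tauto

theorem chain_zip {R : α → α → Prop} : ∀ (l : List α) (a b : α),
    (∀ p ∈ List.zip (a :: l) (l ++ [b]), R p.1 p.2) → List.IsChain R (a :: (l ++ [b]))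
  | [], a, b, h => by
      simpa using h
  | c :: l, a, b, h => by
      have h1 := chain_zip l c b (fun p hp => h p (by simp at hp ⊢; tauto))
      have h2 : R a c := h (a, c) (by simp)
      simpa using ⟨h2, by simpa using h1⟩

theorem zip_chain {R : α → α → Prop} : ∀ (l : List α) (a b : α),
    List.IsChain R (a :: (l ++ [b])) → (∀ p ∈ List.zip (a :: l) (l ++ [b]), R p.1 p.2)
  | [], a, b, h => by
      simpa using h
  | c :: l, a, b, h => by
      have h1 : R a c ∧ List.IsChain R (c :: (l ++ [b])) := by simpa using h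
      have h2 := zip_chain l c b h1.2
      intro p hp
      have h3 : p = (a, c) ∨ p ∈ List.zip (c :: l) (l ++ [b]) := by simpa using hp
      rcases h3 with rfl | h3
      · exact h1.1
      · exact h2 p h3

theorem alt_iff (a : En) (l : List En) :
    Alt (a :: l) ↔ List.IsChain (fun x y : En => x.isLeft = !y.isLeft) (a :: (l ++ [a])) := by
  have h1 : cp (a :: l) = List.zip (a :: l) (l ++ [a]) := by simp [cp]
  constructor
  · intro h
    apply chain_zip
    rw [← h1]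
    exact h.2
  · intro h
    refine ⟨by simp, ?_⟩
    rw [h1]
    exact zip_chain l a a h

theorem exists_fl : ∀ (L : List (α ⊕ β)),
    List.IsChain (fun x y : α ⊕ β => x.isLeft = !y.isLeft) L →
    (∀ a ∈ L.head?, a.isLeft = true) → (∀ a ∈ L.getLast?, a.isLeft = false) → ∃ P, L = fl P
  | [], _, _, _ => ⟨[], rfl⟩
  | [x], _, h1, h2 => by
      have h3 : x.isLeft = true := h1 x (by simp)
      have h4 : x.isLeft = false := h2 x (by simp)
      rw [h3] at h4
      exact absurd h4 (by simp)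
  | x :: y :: L, h, h1, h2 => by
      have h3 : x.isLeft = (!y.isLeft) ∧
          List.IsChain (fun x y : α ⊕ β => x.isLeft = !y.isLeft) (y :: L) := by
        simpa using h
      have h4 : x.isLeft = true := by simpa using h1
      have h5 : y.isLeft = false := by
        have := h3.1
        rw [h4] at this
        simpa using this.symm
      obtain ⟨P, hP⟩ := exists_fl L h3.2.tail
        (by
          intro a ha
          cases L with
          | nil => simp at ha
          | cons b L =>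
            have h6 : b = a := by simpa using ha
            have h7 := h3.2
            rw [List.isChain_cons_cons] at h7
            rw [h5] at h7
            rw [← h6]
            simpa using h7.1)
        (by
          intro a ha
          apply h2
          cases L with
          | nil => simp at ha
          | cons b L => simpa using ha)
      cases x with
      | inr x => simp at h4
      | inl x =>
        cases y with
        | inl y => simp at h5
        | inr y => exact ⟨(x, y) :: P, by simp [fl, hP] ⟩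

theorem up (a b : Q) (h : a < b) : ∀ L : List En,
    ∃ b', a < b' ∧ b' < b ∧ ∀ r, Sum.inr r ∈ L → r < b → r < b'
  | [] => by
      obtain ⟨c, h1, h2⟩ := exists_between h
      exact ⟨c, h1, h2, by simp⟩
  | x :: L => by
      obtain ⟨c, h1, h2, h3⟩ := up a b h L
      cases x with
      | inl x => exact ⟨c, h1, h2, fun r hr => h3 r (by simpa using hr)⟩
      | inr x =>
        by_cases hx : x < b
        · obtain ⟨d, h4, h5⟩ := exists_between (max_lt h2 hx)
          refine ⟨d, ?_, h5, ?_⟩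
          · exact lt_trans h1 (lt_of_le_of_lt (le_max_left _ _) h4)
          · intro r hr hrb
            have h6 : r = x ∨ Sum.inr r ∈ L := by simpa using hr
            rcases h6 with rfl | h6
            · exact lt_of_le_of_lt (le_max_right _ _) h4
            · exact lt_trans (h3 r h6 hrb) (lt_of_le_of_lt (le_max_left _ _) h4)
        · refine ⟨c, h1, h2, ?_⟩
          intro r hr hrb
          have h6 : r = x ∨ Sum.inr r ∈ L := by simpa using hr
          rcases h6 with rfl | h6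
          · exact absurd hrb hx
          · exact h3 r h6 hrb

theorem dn (a b : Q) (h : b < a) : ∀ L : List En,
    ∃ b', b' < a ∧ b < b' ∧ ∀ r, Sum.inr r ∈ L → b < r → b' < r
  | [] => by
      obtain ⟨c, h1, h2⟩ := exists_between h
      exact ⟨c, h2, h1, by simp⟩
  | x :: L => by
      obtain ⟨c, h1, h2, h3⟩ := dn a b h L
      cases x with
      | inl x => exact ⟨c, h1, h2, fun r hr => h3 r (by simpa using hr)⟩
      | inr x =>
        by_cases hx : b < x
        · obtain ⟨d, h4, h5⟩ := exists_between (lt_min h2 hx)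
          refine ⟨d, ?_, h4, ?_⟩
          · exact lt_trans (lt_of_lt_of_le h5 (min_le_left _ _)) h1
          · intro r hr hrb
            have h6 : r = x ∨ Sum.inr r ∈ L := by simpa using hr
            rcases h6 with rfl | h6
            · exact lt_of_lt_of_le h5 (min_le_right _ _)
            · exact lt_trans (lt_of_lt_of_le h5 (min_le_left _ _)) (h3 r h6 hrb)
        · refine ⟨c, h1, h2, ?_⟩
          intro r hr hrb
          have h6 : r = x ∨ Sum.inr r ∈ L := by simpa using hr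
          rcases h6 with rfl | h6
          · exact absurd hrb hx
          · exact h3 r h6 hrb

/-- the new position of the row -/
theorem pos (b₁ b₀ : Q) (h : b₁ ≠ b₀) (L : List En) :
    ∃ b', b' ≠ b₁ ∧ b' ≠ b₀ ∧ (Sum.inr b' ∉ L) ∧ (∀ r, Sum.inr r ∈ L → ¬ Btw b' b₀ r) ∧
      (∀ r, Btw b₁ b' r → Btw b₁ b₀ r) ∧ (b₁ < b₀ → b' < b₀) ∧ (b₀ < b₁ → b₀ < b') := by
  rcases lt_or_gt_of_ne h with h | h
  · obtain ⟨b', h1, h2, h3⟩ := up b₁ b₀ h L
    refine ⟨b', h1.ne', h2.ne, ?_, ?_, ?_, fun _ => h2, fun h' => absurd h' (lt_asymm h)⟩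
    · intro h4
      exact lt_irrefl _ (h3 b' h4 h2)
    · rintro r hr (h4 | h4)
      · exact lt_asymm h4.1 (h3 r hr h4.2)
      · exact lt_asymm h4.1 (lt_trans h4.2 h2)
    · rintro r (h4 | h4)
      · exact Or.inl ⟨h4.1, lt_trans h4.2 h2⟩
      · exact absurd h1 (lt_asymm (lt_trans h4.1 h4.2))
  · obtain ⟨b', h1, h2, h3⟩ := dn b₁ b₀ h L
    refine ⟨b', h1.ne, h2.ne', ?_, ?_, ?_, fun h' => absurd h' (lt_asymm h), fun _ => h2⟩
    · intro h4
      exact lt_irrefl _ (h3 b' h4 h2)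
    · rintro r hr (h4 | h4)
      · exact lt_asymm h2 (lt_trans h4.1 h4.2)
      · exact lt_asymm h4.2 (h3 r hr h4.1)
    · rintro r (h4 | h4)
      · exact absurd h1 (lt_asymm (lt_trans h4.1 h4.2))
      · exact Or.inr ⟨lt_trans h2 h4.1, h4.2⟩

theorem fl_map {α' β' : Type*} (f : α → α') (g : β → β') (P : List (α × β)) :
    (fl P).map (Sum.map f g) = fl (P.map (Prod.map f g)) := by
  induction P with
  | nil => rfl
  | cons p P ih =>
    have h1 : fl (p :: P) = Sum.inl p.1 :: Sum.inr p.2 :: fl P := by simp [fl]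
    have h2 : fl ((p :: P).map (Prod.map f g))
        = Sum.inl (f p.1) :: Sum.inr (g p.2) :: fl (P.map (Prod.map f g)) := by simp [fl]
    rw [h1, h2, ← ih]
    simp

theorem mem_fl_l (P : List (α × β)) (a : α) : Sum.inl a ∈ fl P ↔ a ∈ P.map Prod.fst := by
  induction P with
  | nil => simp [fl]
  | cons p P ih =>
    have h1 : fl (p :: P) = Sum.inl p.1 :: Sum.inr p.2 :: fl P := by simp [fl]
    rw [h1]
    simp only [List.mem_cons, reduceCtorEq, false_or, ih, List.map_cons, Sum.inl.injEq]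

theorem mem_fl_r (P : List (α × β)) (a : β) : Sum.inr a ∈ fl P ↔ a ∈ P.map Prod.snd := by
  induction P with
  | nil => simp [fl]
  | cons p P ih =>
    have h1 : fl (p :: P) = Sum.inl p.1 :: Sum.inr p.2 :: fl P := by simp [fl]
    rw [h1]
    simp only [List.mem_cons, reduceCtorEq, false_or, ih, List.map_cons, Sum.inr.injEq]

theorem fl_nodup (P : List (α × β)) (h : (fl P).Nodup) :
    (P.map Prod.fst).Nodup ∧ (P.map Prod.snd).Nodup := by
  induction P with
  | nil => simp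
  | cons p P ih =>
    have h1 : fl (p :: P) = Sum.inl p.1 :: Sum.inr p.2 :: fl P := by simp [fl]
    rw [h1] at h
    have h2 : Sum.inl p.1 ∉ fl P ∧ Sum.inr p.2 ∉ fl P ∧ (fl P).Nodup := by
      have h3 := List.nodup_cons.1 h
      have h4 := List.nodup_cons.1 h3.2
      refine ⟨fun h5 => h3.1 (by simp [h5]), h4.1, h4.2⟩
    rw [mem_fl_l, mem_fl_r] at h2
    obtain ⟨h3, h4⟩ := ih h2.2.2
    simp only [List.map_cons, List.nodup_cons]
    exact ⟨⟨h2.1, h3⟩, ⟨h2.2.1, h4⟩⟩

/-- the basic step -/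
theorem scol (c₁ b₁ c₂ c₀ b₀ x : Q) (P : List (Q × Q)) (f g : Q → ℝ)
    (hn : (fl ((c₀, b₀) :: (c₁, b₁) :: (c₂, x) :: P)).Nodup)
    (hf : ∀ a b, a ∈ ((c₀, b₀) :: (c₁, b₁) :: (c₂, x) :: P).map Prod.fst →
      b ∈ ((c₀, b₀) :: (c₁, b₁) :: (c₂, x) :: P).map Prod.fst → a < b → f b < f a)
    (hg : ∀ a b, a ∈ ((c₀, b₀) :: (c₁, b₁) :: (c₂, x) :: P).map Prod.snd →
      b ∈ ((c₀, b₀) :: (c₁, b₁) :: (c₂, x) :: P).map Prod.snd → a < b → g a < g b)
    (hb : ∀ d ∈ ((c₀, b₀) :: (c₁, b₁) :: (c₂, x) :: P).map Prod.snd, ¬ Btw b₁ b₀ d)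
    (h : b₁ < b₀ ∧ cyc c₂ c₀ c₁ ∨ b₀ < b₁ ∧ cyc c₀ c₂ c₁) :
    Mv (((c₀, b₀) :: (c₁, b₁) :: (c₂, x) :: P).map (Prod.map f g))
      (((c₀, b₀) :: (c₂, x) :: P).map (Prod.map f g)) := by
  obtain ⟨hn1, hn2⟩ := fl_nodup _ hn
  set L := (c₀, b₀) :: (c₁, b₁) :: (c₂, x) :: P with hL
  have e1 : (L.map (Prod.map f g)).map Prod.fst = (L.map Prod.fst).map f := by
    simp [List.map_map, Function.comp_def]
  have e2 : (L.map (Prod.map f g)).map Prod.snd = (L.map Prod.snd).map g := by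
    simp [List.map_map, Function.comp_def]
  have hN : Nd (L.map (Prod.map f g)) := by
    constructor
    · rw [e1]
      refine List.Nodup.map_on ?_ hn1
      intro a ha b hb hab
      by_contra hne
      rcases lt_or_gt_of_ne hne with h1 | h1
      · exact absurd hab (hf a b ha hb h1).ne'
      · exact absurd hab (hf b a hb ha h1).ne
    · rw [e2]
      refine List.Nodup.map_on ?_ hn2
      intro a ha b hb hab
      by_contra hne
      rcases lt_or_gt_of_ne hne with h1 | h1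
      · exact absurd hab (hg a b ha hb h1).ne
      · exact absurd hab (hg b a hb ha h1).ne'
  have m0 : c₀ ∈ L.map Prod.fst := by simp [hL]
  have m1 : c₁ ∈ L.map Prod.fst := by simp [hL]
  have m2 : c₂ ∈ L.map Prod.fst := by simp [hL]
  have k0 : b₀ ∈ L.map Prod.snd := by simp [hL]
  have k1 : b₁ ∈ L.map Prod.snd := by simp [hL]
  have f01 := hf c₀ c₁ m0 m1
  have f02 := hf c₀ c₂ m0 m2
  have f10 := hf c₁ c₀ m1 m0
  have f12 := hf c₁ c₂ m1 m2
  have f20 := hf c₂ c₀ m2 m0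
  have f21 := hf c₂ c₁ m2 m1
  have key : ∀ d ∈ L.map Prod.snd, (b₁ < b₀ → ¬ cyc (g b₁) (g d) (g b₀)) ∧
      (b₀ < b₁ → ¬ cyc (g b₀) (g d) (g b₁)) := by
    intro d hd
    have hd0 := hg d b₀ hd k0
    have hd1 := hg d b₁ hd k1
    have h0d := hg b₀ d k0 hd
    have h1d := hg b₁ d k1 hd
    have h01 := hg b₀ b₁ k0 k1
    have h10 := hg b₁ b₀ k1 k0
    have hB := hb d hd
    constructor
    · intro hlt hc
      have h2 := h10 hlt
      have h3 : g b₁ < g d ∧ g d < g b₀ := by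
        unfold cyc at hc
        rcases hc with hc | hc | hc
        · exact hc
        · exact absurd h2 (lt_asymm hc.2)
        · exact absurd h2 (lt_asymm hc.1)
      apply hB
      left
      constructor
      · by_contra hcon
        rcases eq_or_lt_of_le (not_lt.1 hcon) with h4 | h4
        · rw [h4] at h3
          exact lt_irrefl _ h3.1
        · exact lt_asymm h3.1 (hd1 h4)
      · by_contra hcon
        rcases eq_or_lt_of_le (not_lt.1 hcon) with h4 | h4
        · rw [h4] at h3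
          exact lt_irrefl _ h3.2
        · exact lt_asymm h3.2 (h0d h4)
    · intro hlt hc
      have h2 := h01 hlt
      have h3 : g b₀ < g d ∧ g d < g b₁ := by
        unfold cyc at hc
        rcases hc with hc | hc | hc
        · exact hc
        · exact absurd h2 (lt_asymm hc.2)
        · exact absurd h2 (lt_asymm hc.1)
      apply hB
      right
      constructor
      · by_contra hcon
        rcases eq_or_lt_of_le (not_lt.1 hcon) with h4 | h4
        · rw [h4] at h3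
          exact lt_irrefl _ h3.1
        · exact lt_asymm h3.1 (hd0 h4)
      · by_contra hcon
        rcases eq_or_lt_of_le (not_lt.1 hcon) with h4 | h4
        · rw [h4] at h3
          exact lt_irrefl _ h3.2
        · exact lt_asymm h3.2 (h1d h4)
  have hmv := Mv.scol (f c₀) (g b₀) (f c₁) (g b₁) (f c₂, g x) (P.map (Prod.map f g))
    (by simpa [hL] using hN)
    (by
      rcases h with ⟨h1, h2⟩ | ⟨h1, h2⟩
      · right
        constructor
        · intro d hd
          have hd' : d ∈ (L.map Prod.snd).map g := by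
            rw [← e2, hL]
            simpa using hd
          obtain ⟨d', hd1, rfl⟩ := List.mem_map.1 hd'
          exact (key d' hd1).1 h1
        · unfold cyc at h2
          change cyc (f c₁) (f c₀) (f c₂)
          unfold cyc
          rcases h2 with h2 | h2 | h2
          · exact Or.inl ⟨f01 h2.2, f20 h2.1⟩
          · exact Or.inr (Or.inr ⟨f12 h2.2, f01 h2.1⟩)
          · exact Or.inr (Or.inl ⟨f20 h2.2, f12 h2.1⟩)
      · left
        constructor
        · intro d hd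
          have hd' : d ∈ (L.map Prod.snd).map g := by
            rw [← e2, hL]
            simpa using hd
          obtain ⟨d', hd1, rfl⟩ := List.mem_map.1 hd'
          exact (key d' hd1).2 h1
        · unfold cyc at h2
          change cyc (f c₂) (f c₀) (f c₁)
          unfold cyc
          rcases h2 with h2 | h2 | h2
          · exact Or.inr (Or.inr ⟨f21 h2.2, f02 h2.1⟩)
          · exact Or.inr (Or.inl ⟨f10 h2.2, f21 h2.1⟩)
          · exact Or.inl ⟨f02 h2.2, f10 h2.1⟩)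
  simpa [hL] using hmv

/-- the last step -/
theorem last (rpe : Stmt_RPE) (c₁ b' c₂ c₀ b₀ x : Q) (P : List (Q × Q))
    (hA3 : Alt (Sum.inl c₁ :: Sum.inr b' :: Sum.inl c₂ ::
      ((Sum.inr x :: fl P) ++ [Sum.inl c₀, Sum.inr b₀])))
    (hN3 : (Sum.inl c₁ :: Sum.inr b' :: Sum.inl c₂ ::
      ((Sum.inr x :: fl P) ++ [Sum.inl c₀, Sum.inr b₀])).Nodup)
    (hb : ∀ d, Sum.inr d ∈ (Sum.inl c₁ :: Sum.inr b' :: Sum.inl c₂ ::
      ((Sum.inr x :: fl P) ++ [Sum.inl c₀, Sum.inr b₀])) → ¬ Btw b' b₀ d)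
    (hc : b' < b₀ ∧ cyc c₂ c₀ c₁ ∨ b₀ < b' ∧ cyc c₀ c₂ c₁) :
    WE (Sum.inl c₁ :: Sum.inr b' :: Sum.inl c₂ ::
      ((Sum.inr x :: fl P) ++ [Sum.inl c₀, Sum.inr b₀]))
      (Sum.inl c₂ :: ((Sum.inr x :: fl P) ++ [Sum.inl c₀, Sum.inr b₀])) := by
  obtain ⟨M, -, f, g, hf, hg, -⟩ := rpe _ hA3 hN3
  have hfl : fl ((c₀, b₀) :: (c₁, b') :: (c₂, x) :: P)
      = [Sum.inl c₀, Sum.inr b₀] ++ (Sum.inl c₁ :: Sum.inr b' :: Sum.inl c₂ ::
        (Sum.inr x :: fl P)) := by
    simp [fl]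
  have hfl' : fl ((c₀, b₀) :: (c₂, x) :: P)
      = [Sum.inl c₀, Sum.inr b₀] ++ (Sum.inl c₂ :: (Sum.inr x :: fl P)) := by
    simp [fl]
  have hrot1 : List.IsRotated (fl ((c₀, b₀) :: (c₁, b') :: (c₂, x) :: P))
      (Sum.inl c₁ :: Sum.inr b' :: Sum.inl c₂ ::
        ((Sum.inr x :: fl P) ++ [Sum.inl c₀, Sum.inr b₀])) := by
    rw [hfl]
    exact List.isRotated_append
  have hrot2 : List.IsRotated (fl ((c₀, b₀) :: (c₂, x) :: P))
      (Sum.inl c₂ :: ((Sum.inr x :: fl P) ++ [Sum.inl c₀, Sum.inr b₀])) := by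
    rw [hfl']
    exact List.isRotated_append
  generalize hW : (Sum.inl c₁ :: Sum.inr b' :: Sum.inl c₂ ::
        ((Sum.inr x :: fl P) ++ [Sum.inl c₀, Sum.inr b₀]) : List En) = W at *
  generalize hW' : (Sum.inl c₂ :: ((Sum.inr x :: fl P) ++ [Sum.inl c₀, Sum.inr b₀]) : List En)
    = W' at *
  have hWW : W = Sum.inl c₁ :: Sum.inr b' :: W' := by rw [← hW, ← hW']
  have hsub : ∀ y, y ∈ W' → y ∈ W := by
    intro y hy
    rw [hWW]
    exact List.mem_cons_of_mem _ (List.mem_cons_of_mem _ hy)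
  have hmem : ∀ y : En, y ∈ fl ((c₀, b₀) :: (c₁, b') :: (c₂, x) :: P) ↔ y ∈ W :=
    fun y => hrot1.perm.mem_iff
  have hmv := scol c₁ b' c₂ c₀ b₀ x P f g (hrot1.perm.nodup_iff.2 hN3)
    (fun a b ha hb hab => hf a b ((hmem _).1 ((mem_fl_l _ _).2 ha))
      ((hmem _).1 ((mem_fl_l _ _).2 hb)) hab)
    (fun a b ha hb hab => hg a b ((hmem _).1 ((mem_fl_r _ _).2 ha))
      ((hmem _).1 ((mem_fl_r _ _).2 hb)) hab)
    (fun d hd hbt => hb d ((hmem _).1 ((mem_fl_r _ _).2 hd)) hbt) hc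
  refine ⟨_, _, ⟨hN3, f, g, hf, hg, ?_⟩, ⟨?_, f, g, ?_, ?_, ?_⟩,
    Relation.EqvGen.rel _ _ hmv⟩
  · rw [← fl_map]
    exact hrot1.map _
  · rw [hWW, List.nodup_cons, List.nodup_cons] at hN3
    exact hN3.2.2
  · intro a b ha hb hab
    exact hf a b (hsub _ ha) (hsub _ hb) hab
  · intro a b ha hb hab
    exact hg a b (hsub _ ha) (hsub _ hb) hab
  · rw [← fl_map]
    exact hrot2.map _

/-- replacing the row -/
theorem repl (web : P_WEB) (rm : P_RM) (c₁ b₁ b' c₂ : Q) (T : List En)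
    (hA : Alt (Sum.inl c₁ :: Sum.inr b₁ :: Sum.inl c₂ :: T))
    (hN : (Sum.inl c₁ :: Sum.inr b₁ :: Sum.inl c₂ :: T).Nodup)
    (hnot : Sum.inr b' ∉ T) (e1 : b' ≠ b₁)
    (hM : ∀ c r, Mk (Sum.inl c₁ :: Sum.inr b₁ :: Sum.inl c₂ :: T) c r → Btw b₁ b' r →
      c ∉ uIcc c₁ c₂) :
    WE (Sum.inl c₁ :: Sum.inr b₁ :: Sum.inl c₂ :: T) (Sum.inl c₁ :: Sum.inr b' :: Sum.inl c₂ :: T) ∧
      Alt (Sum.inl c₁ :: Sum.inr b' :: Sum.inl c₂ :: T) ∧
      (Sum.inl c₁ :: Sum.inr b' :: Sum.inl c₂ :: T).Nodup := by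
  have r1 : WE (Sum.inl c₁ :: Sum.inr b₁ :: Sum.inl c₂ :: T)
      (Sum.inr b₁ :: Sum.inl c₂ :: (T ++ [Sum.inl c₁])) :=
    web.rot [Sum.inl c₁] (Sum.inr b₁ :: Sum.inl c₂ :: T) hA hN
  have hA1 : Alt (Sum.inr b₁ :: Sum.inl c₂ :: (T ++ [Sum.inl c₁])) :=
    alt_rot (A := [Sum.inl c₁]) (B := Sum.inr b₁ :: Sum.inl c₂ :: T) hA
  have hN1 : (Sum.inr b₁ :: Sum.inl c₂ :: (T ++ [Sum.inl c₁])).Nodup := by
    have hp : List.Perm (Sum.inl c₁ :: Sum.inr b₁ :: Sum.inl c₂ :: T)
      (Sum.inr b₁ :: Sum.inl c₂ :: (T ++ [Sum.inl c₁])) :=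
      List.perm_append_comm (l₁ := [Sum.inl c₁]) (l₂ := Sum.inr b₁ :: Sum.inl c₂ :: T)
    exact hp.nodup_iff.1 hN
  have r2 := rm b₁ b' c₁ c₂ T hA1 hN1 hnot e1 (by
    intro c r hm hb
    apply hM c r ?_ hb
    have hrot : ∀ p : En × En,
        p ∈ cp (Sum.inr b₁ :: Sum.inl c₂ :: (T ++ [Sum.inl c₁])) →
        p ∈ cp (Sum.inl c₁ :: Sum.inr b₁ :: Sum.inl c₂ :: T) := by
      intro p hp
      exact cp_rot (Sum.inr b₁ :: Sum.inl c₂ :: T) [Sum.inl c₁] p hp
    rcases hm with hm | hm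
    · exact Or.inl (hrot _ hm)
    · exact Or.inr (hrot _ hm))
  have hA2 : Alt (Sum.inr b' :: Sum.inl c₂ :: (T ++ [Sum.inl c₁])) := by
    rw [alt_iff] at hA1 ⊢
    have h2 : ∀ z : En, (z :: ((Sum.inl c₂ :: (T ++ [Sum.inl c₁])) ++ [z]))
        = z :: ((Sum.inl c₂ :: (T ++ [Sum.inl c₁])) ++ [z]) := fun z => rfl
    rw [List.cons_append, List.isChain_cons_cons, ← List.cons_append, List.isChain_append]
      at hA1 ⊢
    refine ⟨by simp, hA1.2.1, by simp, ?_⟩
    intro y hy z hz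
    have h3 := hA1.2.2.2 y hy (Sum.inr b₁) (by simp)
    have hz' : z = Sum.inr b' := by simpa using hz.symm
    rw [hz']
    simpa using h3
  have hN2 : (Sum.inr b' :: Sum.inl c₂ :: (T ++ [Sum.inl c₁])).Nodup := by
    rw [List.nodup_cons] at hN1 ⊢
    refine ⟨?_, hN1.2⟩
    intro h
    apply hnot
    simpa using h
  have r3 : WE (Sum.inr b' :: Sum.inl c₂ :: (T ++ [Sum.inl c₁]))
      (Sum.inl c₁ :: Sum.inr b' :: Sum.inl c₂ :: T) :=
    web.rot (Sum.inr b' :: Sum.inl c₂ :: T) [Sum.inl c₁] hA2 hN2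
  have hA3 : Alt (Sum.inl c₁ :: Sum.inr b' :: Sum.inl c₂ :: T) :=
    alt_rot (A := Sum.inr b' :: Sum.inl c₂ :: T) (B := [Sum.inl c₁]) hA2
  have hp3 : List.Perm (Sum.inl c₁ :: Sum.inr b' :: Sum.inl c₂ :: T)
      (Sum.inr b' :: Sum.inl c₂ :: (T ++ [Sum.inl c₁])) :=
    List.perm_append_comm (l₁ := [Sum.inl c₁]) (l₂ := Sum.inr b' :: Sum.inl c₂ :: T)
  exact ⟨web.trans _ _ _ r1 (web.trans _ _ _ r2 r3), hA3, hp3.nodup_iff.2 hN2⟩

end DC1

open DC1 in
theorem t_DC1 : Stmt_DC1 := by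
  intro web rpe rm c₁ b₁ c₂ c₀ b₀ B hA hN hM hc
  -- the structure of `B`
  have hch := (alt_iff _ _).1 hA
  have hB1 : List.IsChain (fun x y : En => x.isLeft = !y.isLeft)
      ((Sum.inl c₂ :: B) ++ [Sum.inl c₀]) := by
    have h1 : (Sum.inl c₁ : En) :: ((Sum.inr b₁ :: Sum.inl c₂ ::
          (B ++ [Sum.inl c₀, Sum.inr b₀])) ++ [Sum.inl c₁])
        = [Sum.inl c₁, Sum.inr b₁] ++ (((Sum.inl c₂ :: B) ++ [Sum.inl c₀]) ++
          [Sum.inr b₀, Sum.inl c₁]) := by
      simp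
    rw [h1] at hch
    exact (List.isChain_append.1 (List.isChain_append.1 hch).2.1).1
  have hB2 := List.isChain_append.1 hB1
  obtain ⟨P, hP⟩ := exists_fl (Sum.inl c₂ :: B) hB2.1 (by simp) (by
    intro a ha
    have := hB2.2.2 a ha (Sum.inl c₀) (by simp)
    simpa using this)
  have hex : ∃ x P', B = Sum.inr x :: fl P' := by
    cases P with
    | nil => simp [fl] at hP
    | cons p P =>
      obtain ⟨c₂', x⟩ := p
      have hP2 : c₂ = c₂' ∧ B = Sum.inr x :: fl P := by simpa [fl] using hP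
      exact ⟨x, P, hP2.2⟩
  obtain ⟨x, P', hBx⟩ := hex
  clear hP hB2 hB1 hch
  have hne : b₁ ≠ b₀ := by
    intro h
    rcases hc with h1 | h1
    · exact absurd h1.1 (by rw [h]; exact lt_irrefl _)
    · exact absurd h1.1 (by rw [h]; exact lt_irrefl _)
  obtain ⟨b', e1, e2, e3, e4, e5, e6, e7⟩ := pos b₁ b₀ hne
    (Sum.inl c₁ :: Sum.inr b₁ :: Sum.inl c₂ :: (B ++ [Sum.inl c₀, Sum.inr b₀]))
  have hnot : Sum.inr b' ∉ (B ++ [Sum.inl c₀, Sum.inr b₀]) := fun h =>
    e3 (List.mem_cons_of_mem _ (List.mem_cons_of_mem _ (List.mem_cons_of_mem _ h)))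
  obtain ⟨r1, hA3, hN3⟩ := repl web rm c₁ b₁ b' c₂ (B ++ [Sum.inl c₀, Sum.inr b₀]) hA hN hnot e1
    (fun c r hm hb => hM c r hm (e5 r hb))
  refine web.trans _ _ _ r1 ?_
  have hb4 : ∀ d, Sum.inr d ∈ (Sum.inl c₁ :: Sum.inr b' :: Sum.inl c₂ ::
      (B ++ [Sum.inl c₀, Sum.inr b₀])) → ¬ Btw b' b₀ d := by
    intro d h1 hbt
    have h2 : d = b' ∨ Sum.inr d ∈
        (Sum.inl c₁ :: Sum.inr b₁ :: Sum.inl c₂ :: (B ++ [Sum.inl c₀, Sum.inr b₀])) := by
      simp only [List.mem_cons, reduceCtorEq, false_or, Sum.inr.injEq] at h1 ⊢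
      tauto
    rcases h2 with h2 | h2
    · rw [h2] at hbt
      rcases hbt with h3 | h3
      · exact lt_irrefl _ h3.1
      · exact lt_irrefl _ h3.2
    · exact e4 d h2 hbt
  have hc4 : b' < b₀ ∧ cyc c₂ c₀ c₁ ∨ b₀ < b' ∧ cyc c₀ c₂ c₁ := by
    rcases hc with h1 | h1
    · exact Or.inl ⟨e6 h1.1, h1.2⟩
    · exact Or.inr ⟨e7 h1.1, h1.2⟩
  subst hBx
  exact last rpe c₁ b' c₂ c₀ b₀ x P' hA3 hN3 hb4 hc4

end LH
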