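import Pool.Agent.LH.Stmts1

/-!
# Part C: a short column, second direction of the walk
-/

namespace LH

open Set LG

namespace DC2

/-! ### alternating lists -/

/-- The alternation as a relation. -/
abbrev Rl (a b : En) : Prop := a.isLeft = !b.isLeft

theorem chain_zip {α : Type*} {R : α → α → Prop} : ∀ (l : List α) (x : α),
    (∀ p ∈ l.zip (l.tail ++ [x]), R p.1 p.2) → List.IsChain R (l ++ [x])
  | [], x, _ => by simp
  | [a], x, h => by
    have := h (a, x) (by simp)
    simpa using this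
  | a :: b :: t, x, h => by
    have h1 : R a b := h (a, b) (by simp)
    have ih := chain_zip (b :: t) x (fun p hp => h p (by
      simp only [List.tail_cons, List.cons_append, List.zip_cons_cons] at hp ⊢
      exact List.mem_cons_of_mem _ hp))
    simp only [List.cons_append] at ih ⊢
    exact List.IsChain.cons_cons h1 ih

theorem alt_chain {x : En} {t : List En} (h : Alt (x :: t)) :
    List.IsChain Rl ((x :: t) ++ [x]) := by
  refine chain_zip (x :: t) x fun p hp => h.2 p ?_
  simpa [cp] using hp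

theorem alt_congr {x y : En} {t : List En} (hxy : x.isLeft = y.isLeft) (h : Alt (x :: t)) :
    Alt (y :: t) := by
  have key : ∀ l : List En, Alt l ↔ l ≠ [] ∧
      ∀ p ∈ cp (l.map Sum.isLeft), p.1 = !p.2 := by
    intro l
    unfold Alt cp
    rw [← List.map_rotate, List.zip_map]
    constructor
    · rintro ⟨h1, h2⟩
      refine ⟨h1, fun p hp => ?_⟩
      obtain ⟨q, hq, rfl⟩ := List.mem_map.1 hp
      exact h2 q hq
    · rintro ⟨h1, h2⟩
      exact ⟨h1, fun p hp => h2 _ (List.mem_map_of_mem hp)⟩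
  rw [key] at h ⊢
  refine ⟨by simp, ?_⟩
  have : (y :: t).map Sum.isLeft = (x :: t).map Sum.isLeft := by simp [hxy]
  rw [this]
  exact h.2

theorem exists_fl : ∀ (n : ℕ) (l : List En), l.length ≤ n → List.IsChain Rl l →
    (∀ a, l.head? = some a → a.isLeft = true) → (∀ a, l.getLast? = some a → a.isLeft = false) →
    ∃ L : List (Q × Q), fl L = l
  | _, [], _, _, _, _ => ⟨[], rfl⟩
  | _, [a], _, _, h1, h2 => by
    have e1 := h1 a rfl
    have e2 := h2 a rfl
    rw [e1] at e2
    cases e2
  | 0, _ :: _ :: _, hl, _, _, _ => by simp at hl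
  | n + 1, a :: b :: t, hl, hc, h1, h2 => by
    have e1 := h1 a rfl
    rw [List.isChain_cons_cons] at hc
    have e2 : b.isLeft = false := by
      have := hc.1
      rw [Rl, e1] at this
      simpa using this.symm
    obtain ⟨x, rfl⟩ : ∃ x, a = Sum.inl x := by
      cases a with
      | inl x => exact ⟨x, rfl⟩
      | inr x => simp at e1
    obtain ⟨y, rfl⟩ : ∃ y, b = Sum.inr y := by
      cases b with
      | inr x => exact ⟨x, rfl⟩
      | inl x => simp at e2
    have hc' : List.IsChain Rl t := hc.2.tail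
    obtain ⟨L, hL⟩ := exists_fl n t (by simp only [List.length_cons] at hl; omega) hc'
      (fun c hcc => by
        cases t with
        | nil => simp at hcc
        | cons d t' =>
          simp only [List.head?_cons, Option.some.injEq] at hcc
          subst hcc
          have := (List.isChain_cons_cons.1 hc.2).1
          rw [Rl] at this
          simpa using this)
      (fun c hcc => by
        refine h2 c ?_
        cases t with
        | nil => simp at hcc
        | cons d t' =>
          rw [List.getLast?_cons_cons, List.getLast?_cons_cons]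
          exact hcc)
    exact ⟨(x, y) :: L, by rw [← hL]; rfl⟩

theorem fl_cons {α β : Type*} (p : α × β) (K : List (α × β)) :
    fl (p :: K) = Sum.inl p.1 :: Sum.inr p.2 :: fl K := rfl

theorem fl_map {α β γ δ : Type*} (f : α → γ) (g : β → δ) :
    ∀ K : List (α × β), fl (K.map (Prod.map f g)) = (fl K).map (Sum.map f g)
  | [] => rfl
  | p :: K => by
    rw [List.map_cons, fl_cons, fl_cons, List.map_cons, List.map_cons, fl_map f g K]
    rfl

theorem mem_fl_inl {α β : Type*} {a : α} :
    ∀ {K : List (α × β)}, a ∈ K.map Prod.fst → Sum.inl a ∈ fl K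
  | [], h => by simp at h
  | p :: K, h => by
    rw [List.map_cons, List.mem_cons] at h
    rw [fl_cons]
    rcases h with rfl | h
    · simp
    · exact List.mem_cons_of_mem _ (List.mem_cons_of_mem _ (mem_fl_inl h))

theorem mem_fl_inr {α β : Type*} {a : β} :
    ∀ {K : List (α × β)}, a ∈ K.map Prod.snd → Sum.inr a ∈ fl K
  | [], h => by simp at h
  | p :: K, h => by
    rw [List.map_cons, List.mem_cons] at h
    rw [fl_cons]
    rcases h with rfl | h
    · simp
    · exact List.mem_cons_of_mem _ (List.mem_cons_of_mem _ (mem_fl_inr h))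

theorem nodup_fst {α β : Type*} : ∀ {K : List (α × β)}, (fl K).Nodup → (K.map Prod.fst).Nodup
  | [], _ => by simp
  | p :: K, h => by
    rw [fl_cons, List.nodup_cons, List.nodup_cons] at h
    rw [List.map_cons, List.nodup_cons]
    exact ⟨fun hm => h.1 (List.mem_cons_of_mem _ (mem_fl_inl hm)), nodup_fst h.2.2⟩

theorem nodup_snd {α β : Type*} : ∀ {K : List (α × β)}, (fl K).Nodup → (K.map Prod.snd).Nodup
  | [], _ => by simp
  | p :: K, h => by
    rw [fl_cons, List.nodup_cons, List.nodup_cons] at h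
    rw [List.map_cons, List.nodup_cons]
    exact ⟨fun hm => h.2.1 (mem_fl_inr hm), nodup_snd h.2.2⟩

/-! ### heights next to a given one -/

theorem below (s : Finset Q) (a b : Q) (h : a < b) :
    ∃ x, a < x ∧ x < b ∧ ∀ r ∈ s, r < b → r < x := by
  obtain ⟨m, hm, hmax⟩ := (insert a (s.filter (· < b))).exists_max_image id
    ⟨a, Finset.mem_insert_self _ _⟩
  have hmb : m < b := by
    rw [Finset.mem_insert, Finset.mem_filter] at hm
    rcases hm with rfl | hm
    · exact h
    · exact hm.2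
  obtain ⟨x, h1, h2⟩ := exists_between hmb
  refine ⟨x, lt_of_le_of_lt (hmax a (Finset.mem_insert_self _ _)) h1, h2, fun r hr hrb => ?_⟩
  exact lt_of_le_of_lt (hmax r (Finset.mem_insert_of_mem (Finset.mem_filter.2 ⟨hr, hrb⟩))) h1

theorem above (s : Finset Q) (a b : Q) (h : b < a) :
    ∃ x, x < a ∧ b < x ∧ ∀ r ∈ s, b < r → x < r := by
  obtain ⟨m, hm, hmin⟩ := (insert a (s.filter (b < ·))).exists_min_image id
    ⟨a, Finset.mem_insert_self _ _⟩
  have hmb : b < m := by
    rw [Finset.mem_insert, Finset.mem_filter] at hm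
    rcases hm with rfl | hm
    · exact h
    · exact hm.2
  obtain ⟨x, h1, h2⟩ := exists_between hmb
  refine ⟨x, lt_of_lt_of_le h2 (hmin a (Finset.mem_insert_self _ _)), h1, fun r hr hrb => ?_⟩
  exact lt_of_lt_of_le h2 (hmin r (Finset.mem_insert_of_mem (Finset.mem_filter.2 ⟨hr, hrb⟩)))

/-! ### the short column -/

theorem core (hR : Stmt_RPE) (c₁ b' c₂ c₀ b₀ : Q) (B : List En)
    (hA : Alt (.inr b' :: .inl c₁ :: .inr b₀ :: .inl c₀ :: (B ++ [.inl c₂])))
    (hN : (Sum.inr b' :: .inl c₁ :: .inr b₀ :: .inl c₀ :: (B ++ [.inl c₂])).Nodup)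
    (hb : ∀ r, Sum.inr r ∈ B → ¬ Btw b' b₀ r)
    (hc : b' < b₀ ∧ cyc c₂ c₀ c₁ ∨ b₀ < b' ∧ cyc c₀ c₂ c₁) :
    WE (.inr b' :: .inl c₁ :: .inr b₀ :: .inl c₀ :: (B ++ [.inl c₂]))
      (.inr b₀ :: .inl c₀ :: (B ++ [.inl c₂])) := by
  obtain ⟨M, -, f, g, hf, hg, -⟩ := hR _ hA hN
  -- the list of pairs
  have hch := alt_chain hA
  obtain ⟨L, hL⟩ : ∃ L : List (Q × Q), fl L = Sum.inl c₀ :: B := by
    have h1 : List.IsChain Rl (Sum.inl c₀ :: (B ++ [Sum.inl c₂])) := by
      have h2 := hch
      simp only [List.cons_append, List.append_assoc] at h2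
      have h3 := h2.tail.tail.tail
      simp only [List.tail_cons] at h3
      have h4 : List.IsChain Rl ((Sum.inl c₀ :: (B ++ [Sum.inl c₂])) ++ [Sum.inr b']) := by
        simpa using h3
      exact (List.isChain_append.1 h4).1
    have h5 : List.IsChain Rl ((Sum.inl c₀ :: B) ++ [Sum.inl c₂]) := by simpa using h1
    have h6 := List.isChain_append.1 h5
    refine exists_fl _ _ le_rfl h6.1 (fun a ha => ?_) (fun a ha => ?_)
    · simp only [List.head?_cons, Option.some.injEq] at ha
      subst ha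
      rfl
    · have := h6.2.2 a ha (Sum.inl c₂) (by simp)
      rw [Rl] at this
      simpa using this
  obtain ⟨p, L', rfl⟩ : ∃ p L', L = p :: L' := by
    cases L with
    | nil => simp [fl] at hL
    | cons p L' => exact ⟨p, L', rfl⟩
  have hp : p.1 = c₀ := by
    rw [fl_cons] at hL
    have := (List.cons.inj hL).1
    exact Sum.inl.inj this
  set K : List (Q × Q) := (c₂, b') :: (c₁, b₀) :: p :: L' with hK
  have hKf : fl K = Sum.inl c₂ :: Sum.inr b' :: Sum.inl c₁ :: Sum.inr b₀ :: Sum.inl c₀ :: B := by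
    rw [hK, fl_cons, fl_cons, hL]
  have hrot : (fl K).IsRotated
      (Sum.inr b' :: .inl c₁ :: .inr b₀ :: .inl c₀ :: (B ++ [.inl c₂])) := by
    rw [hKf]
    refine ⟨1, ?_⟩
    simp
  have hKN : (fl K).Nodup := (hrot.perm.nodup_iff).2 hN
  have memW : ∀ x, x ∈ fl K ↔
      x ∈ (Sum.inr b' :: .inl c₁ :: .inr b₀ :: .inl c₀ :: (B ++ [.inl c₂]) : List En) := fun x =>
    hrot.perm.mem_iff
  have injf : ∀ x ∈ K.map Prod.fst, ∀ y ∈ K.map Prod.fst, f x = f y → x = y := by
    intro x hx y hy hxy
    have h1 := (memW _).1 (mem_fl_inl hx)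
    have h2 := (memW _).1 (mem_fl_inl hy)
    rcases lt_trichotomy x y with h | h | h
    · exact absurd hxy (ne_of_gt (hf x y h1 h2 h))
    · exact h
    · exact absurd hxy (ne_of_lt (hf y x h2 h1 h))
  have injg : ∀ x ∈ K.map Prod.snd, ∀ y ∈ K.map Prod.snd, g x = g y → x = y := by
    intro x hx y hy hxy
    have h1 := (memW _).1 (mem_fl_inr hx)
    have h2 := (memW _).1 (mem_fl_inr hy)
    rcases lt_trichotomy x y with h | h | h
    · exact absurd hxy (ne_of_lt (hg x y h1 h2 h))
    · exact h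
    · exact absurd hxy (ne_of_gt (hg y x h2 h1 h))
  have hNd : Nd (K.map (Prod.map f g)) := by
    constructor
    · have e : (K.map (Prod.map f g)).map Prod.fst = (K.map Prod.fst).map f := by
        simp [List.map_map, Function.comp_def]
      rw [e]
      exact List.Nodup.map_on injf (nodup_fst hKN)
    · have e : (K.map (Prod.map f g)).map Prod.snd = (K.map Prod.snd).map g := by
        simp [List.map_map, Function.comp_def]
      rw [e]
      exact List.Nodup.map_on injg (nodup_snd hKN)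
  -- memberships
  have mc₀ : Sum.inl c₀ ∈ (Sum.inr b' :: .inl c₁ :: .inr b₀ :: .inl c₀ :: (B ++ [.inl c₂]) :
      List En) := by simp
  have mc₁ : Sum.inl c₁ ∈ (Sum.inr b' :: .inl c₁ :: .inr b₀ :: .inl c₀ :: (B ++ [.inl c₂]) :
      List En) := by simp
  have mc₂ : Sum.inl c₂ ∈ (Sum.inr b' :: .inl c₁ :: .inr b₀ :: .inl c₀ :: (B ++ [.inl c₂]) :
      List En) := by simp
  have mb' : Sum.inr b' ∈ (Sum.inr b' :: .inl c₁ :: .inr b₀ :: .inl c₀ :: (B ++ [.inl c₂]) :
      List En) := by simp
  have mb₀ : Sum.inr b₀ ∈ (Sum.inr b' :: .inl c₁ :: .inr b₀ :: .inl c₀ :: (B ++ [.inl c₂]) :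
      List En) := by simp
  have mB : ∀ r, Sum.inr r ∈ B → Sum.inr r ∈ (Sum.inr b' :: .inl c₁ :: .inr b₀ :: .inl c₀ ::
      (B ++ [.inl c₂]) : List En) := fun r hr => by simp [hr]
  have nb' : Sum.inr b' ∉ B := by
    intro h
    have := (List.nodup_cons.1 hN).1
    exact this (by simp [h])
  have nb₀ : Sum.inr b₀ ∉ B := by
    intro h
    have := (List.nodup_cons.1 (List.nodup_cons.1 (List.nodup_cons.1 hN).2).2).1
    exact this (by simp [h])
  have hbb : b' ≠ b₀ := by
    rcases hc with h | h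
    · exact ne_of_lt h.1
    · exact ne_of_gt h.1
  -- the rows of the list
  have rows : ∀ d ∈ (K.map (Prod.map f g)).map Prod.snd, d = g b' ∨ d = g b₀ ∨
      ∃ r, Sum.inr r ∈ B ∧ d = g r := by
    intro d hd
    have e : (K.map (Prod.map f g)).map Prod.snd = (K.map Prod.snd).map g := by
      simp [List.map_map, Function.comp_def]
    rw [e, List.mem_map] at hd
    obtain ⟨r, hr, rfl⟩ := hd
    have h1 := mem_fl_inr hr
    rw [hKf] at h1
    simp only [List.mem_cons, Sum.inr.injEq, reduceCtorEq, false_or] at h1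
    rcases h1 with h1 | h1 | h1
    · exact Or.inl (by rw [h1])
    · exact Or.inr (Or.inl (by rw [h1]))
    · exact Or.inr (Or.inr ⟨r, h1, rfl⟩)
  have cycf : ∀ a b c : Q, Sum.inl a ∈ (Sum.inr b' :: .inl c₁ :: .inr b₀ :: .inl c₀ ::
      (B ++ [.inl c₂]) : List En) → Sum.inl b ∈ (Sum.inr b' :: .inl c₁ :: .inr b₀ :: .inl c₀ ::
      (B ++ [.inl c₂]) : List En) → Sum.inl c ∈ (Sum.inr b' :: .inl c₁ :: .inr b₀ :: .inl c₀ ::
      (B ++ [.inl c₂]) : List En) → cyc a b c → cyc (f c) (f b) (f a) := by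
    intro a b c ha hb hc h
    rcases h with h | h | h
    · exact Or.inl ⟨hf b c hb hc h.2, hf a b ha hb h.1⟩
    · exact Or.inr (Or.inr ⟨hf c a hc ha h.2, hf b c hb hc h.1⟩)
    · exact Or.inr (Or.inl ⟨hf a b ha hb h.2, hf c a hc ha h.1⟩)
  have hMv : Mv (K.map (Prod.map f g)) ((f c₂, g b') :: (p :: L').map (Prod.map f g)) := by
    have e1 : K.map (Prod.map f g) = (f c₂, g b') :: (f c₁, g b₀) :: (f p.1, g p.2) ::
        L'.map (Prod.map f g) := rfl
    rw [e1] at hNd rows ⊢
    refine Mv.scol (f c₂) (g b') (f c₁) (g b₀) (f p.1, g p.2) (L'.map (Prod.map f g)) hNd ?_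
    rcases hc with ⟨h1, h2⟩ | ⟨h1, h2⟩
    · left
      refine ⟨fun d hd hcy => ?_, ?_⟩
      · have hlt := hg b' b₀ mb' mb₀ h1
        have h3 : g b' < d ∧ d < g b₀ := by
          rcases hcy with h | h | h
          · exact h
          · exact absurd hlt (lt_asymm h.2)
          · exact absurd hlt (lt_asymm h.1)
        rcases rows d hd with rfl | rfl | ⟨r, hr, rfl⟩
        · exact lt_irrefl _ h3.1
        · exact lt_irrefl _ h3.2
        · refine hb r hr (Or.inl ⟨?_, ?_⟩)
          · rcases lt_trichotomy b' r with h | h | h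
            · exact h
            · exact absurd h3.1 (by rw [h]; exact lt_irrefl _)
            · exact absurd h3.1 (lt_asymm (hg r b' (mB r hr) mb' h))
          · rcases lt_trichotomy r b₀ with h | h | h
            · exact h
            · exact absurd h3.2 (by rw [h]; exact lt_irrefl _)
            · exact absurd h3.2 (lt_asymm (hg b₀ r mb₀ (mB r hr) h))
      · rw [hp]
        have := cycf c₂ c₀ c₁ mc₂ mc₀ mc₁ h2
        rw [cyc_rot] at this
        exact this
    · right
      refine ⟨fun d hd hcy => ?_, ?_⟩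
      · have hlt := hg b₀ b' mb₀ mb' h1
        have h3 : g b₀ < d ∧ d < g b' := by
          rcases hcy with h | h | h
          · exact h
          · exact absurd hlt (lt_asymm h.2)
          · exact absurd hlt (lt_asymm h.1)
        rcases rows d hd with rfl | rfl | ⟨r, hr, rfl⟩
        · exact lt_irrefl _ h3.2
        · exact lt_irrefl _ h3.1
        · refine hb r hr (Or.inr ⟨?_, ?_⟩)
          · rcases lt_trichotomy b₀ r with h | h | h
            · exact h
            · exact absurd h3.1 (by rw [h]; exact lt_irrefl _)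
            · exact absurd h3.1 (lt_asymm (hg r b₀ (mB r hr) mb₀ h))
          · rcases lt_trichotomy r b' with h | h | h
            · exact h
            · exact absurd h3.2 (by rw [h]; exact lt_irrefl _)
            · exact absurd h3.2 (lt_asymm (hg b' r mb' (mB r hr) h))
      · rw [hp]
        exact cycf c₀ c₂ c₁ mc₀ mc₂ mc₁ h2
  refine ⟨K.map (Prod.map f g), (f c₂, g b') :: (p :: L').map (Prod.map f g),
    ⟨hN, f, g, hf, hg, ?_⟩, ⟨?_, f, fun q => if q = b₀ then g b' else g q, ?_, ?_, ?_⟩,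
    Relation.EqvGen.rel _ _ hMv⟩
  · rw [fl_map]
    exact hrot.map _
  · exact (List.nodup_cons.1 (List.nodup_cons.1 hN).2).2
  · intro a b ha hb hab
    refine hf a b ?_ ?_ hab
    · exact List.mem_cons_of_mem _ (List.mem_cons_of_mem _ ha)
    · exact List.mem_cons_of_mem _ (List.mem_cons_of_mem _ hb)
  · have mem' : ∀ r, Sum.inr r ∈ (Sum.inr b₀ :: .inl c₀ :: (B ++ [.inl c₂]) : List En) →
        r = b₀ ∨ Sum.inr r ∈ B := by
      intro r hr
      simpa using hr
    intro a b ha hb' hab
    rcases mem' a ha with rfl | ha'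
    · have hbn : b ≠ a := ne_of_gt hab
      have hbB : Sum.inr b ∈ B := by
        rcases mem' b hb' with h | h
        · exact absurd h hbn
        · exact h
      simp only [if_true, if_neg hbn]
      refine hg b' b mb' (mB b hbB) ?_
      rcases lt_trichotomy b' b with h | h | h
      · exact h
      · exact absurd (h ▸ hbB) nb'
      · exact absurd (Or.inr ⟨hab, h⟩) (hb b hbB)
    · have han : a ≠ b₀ := fun h => nb₀ (h ▸ ha')
      rcases mem' b hb' with rfl | hbB
      · simp only [if_true, if_neg han]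
        refine hg a b' (mB a ha') mb' ?_
        rcases lt_trichotomy a b' with h | h | h
        · exact h
        · exact absurd (h ▸ ha') nb'
        · exact absurd (Or.inl ⟨h, hab⟩) (hb a ha')
      · have hbn : b ≠ b₀ := fun h => nb₀ (h ▸ hbB)
        simp only [if_neg han, if_neg hbn]
        exact hg a b (mB a ha') (mB b hbB) hab
  · rw [fl_cons, fl_map, hL]
    have e : B.map (Sum.map f fun q => if q = b₀ then g b' else g q) = B.map (Sum.map f g) := by
      refine List.map_congr_left fun x hx => ?_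
      cases x with
      | inl x => rfl
      | inr x =>
        have : x ≠ b₀ := fun h => nb₀ (h ▸ hx)
        simp [this]
    refine ⟨1, ?_⟩
    simp only [List.map_cons, List.map_append, Sum.map_inl, Sum.map_inr, if_true, List.map_nil, e]
    simp

end DC2

theorem t_DC2 : Stmt_DC2 := by
  intro hW hR hRM c₁ b₁ c₂ c₀ b₀ B hA hN hm hc
  -- the rows
  classical
  set s : Finset Q := (B.filterMap Sum.getRight?).toFinset with hs
  have hms : ∀ r, Sum.inr r ∈ B → r ∈ s := by
    intro r hr
    rw [hs, List.mem_toFinset, List.mem_filterMap]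
    exact ⟨_, hr, rfl⟩
  obtain ⟨b', h1, h2, h3, h4⟩ : ∃ b', b' ≠ b₁ ∧ b' ≠ b₀ ∧ (∀ r, Sum.inr r ∈ B →
      r ≠ b' ∧ ¬ Btw b' b₀ r) ∧ (∀ r, Btw b₁ b' r → Btw b₁ b₀ r) ∧
      (b' < b₀ ∧ cyc c₂ c₀ c₁ ∨ b₀ < b' ∧ cyc c₀ c₂ c₁) := by
    rcases hc with ⟨h, h'⟩ | ⟨h, h'⟩
    · obtain ⟨x, e1, e2, e3⟩ := DC2.below s b₁ b₀ h
      refine ⟨x, ne_of_gt e1, ne_of_lt e2, fun r hr => ⟨?_, ?_⟩, fun r hr => ?_, Or.inl ⟨e2, h'⟩⟩
      · rintro rfl
        exact lt_irrefl _ (e3 r (hms r hr) e2)
      · rintro (h5 | h5)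
        · exact lt_asymm h5.1 (e3 r (hms r hr) h5.2)
        · exact lt_asymm e2 (lt_trans h5.1 h5.2)
      · rcases hr with h5 | h5
        · exact Or.inl ⟨h5.1, lt_trans h5.2 e2⟩
        · exact absurd (lt_trans h5.1 h5.2) (lt_asymm e1)
    · obtain ⟨x, e1, e2, e3⟩ := DC2.above s b₁ b₀ h
      refine ⟨x, ne_of_lt e1, ne_of_gt e2, fun r hr => ⟨?_, ?_⟩, fun r hr => ?_, Or.inr ⟨e2, h'⟩⟩
      · rintro rfl
        exact lt_irrefl _ (e3 r (hms r hr) e2)
      · rintro (h5 | h5)
        · exact lt_asymm e2 (lt_trans h5.1 h5.2)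
        · exact lt_asymm h5.2 (e3 r (hms r hr) h5.1)
      · rcases hr with h5 | h5
        · exact absurd (lt_trans h5.1 h5.2) (lt_asymm e1)
        · exact Or.inr ⟨lt_trans e2 h5.1, h5.2⟩
  have hnB : Sum.inr b' ∉ (Sum.inr b₀ :: .inl c₀ :: B : List En) := by
    intro h
    simp only [List.mem_cons, Sum.inr.injEq, reduceCtorEq, false_or] at h
    rcases h with h | h
    · exact h2 h
    · exact (h3 b' h).1 rfl
  have hWE1 : WE (.inr b₁ :: .inl c₁ :: .inr b₀ :: .inl c₀ :: (B ++ [.inl c₂]))
      (.inr b' :: .inl c₁ :: .inr b₀ :: .inl c₀ :: (B ++ [.inl c₂])) := by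
    have := hRM b₁ b' c₂ c₁ (.inr b₀ :: .inl c₀ :: B) hA hN hnB h1 (fun c r hmk hbt => by
      rw [uIcc_comm]
      exact hm c r hmk (h4.1 r hbt))
    exact this
  have hA' := DC2.alt_congr (x := Sum.inr b₁) (y := Sum.inr b') rfl hA
  have hN' : (Sum.inr b' :: .inl c₁ :: .inr b₀ :: .inl c₀ :: (B ++ [.inl c₂])).Nodup := by
    rw [List.nodup_cons] at hN ⊢
    refine ⟨fun h => ?_, hN.2⟩
    simp only [List.mem_cons, Sum.inr.injEq, reduceCtorEq, false_or, List.mem_append,
      List.not_mem_nil, or_false] at h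
    rcases h with h | h
    · exact h2 h
    · exact (h3 b' h).1 rfl
  exact hW.trans _ _ _ hWE1
    (DC2.core hR c₁ b' c₂ c₀ b₀ B hA' hN' (fun r hr => (h3 r hr).2) h4.2)

end LH
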