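import Pool.Agent.LH.Stmts1

/-!
# DEL: removal of a passing point
-/

namespace LH

open Set LG

namespace DEL

theorem cp_cons {α : Type*} (a : α) (T : List α) : cp (a :: T) = (a :: T).zip (T ++ [a]) := by
  simp [cp, List.rotate_cons_succ]

/-- The pair with the first entry `u` is the first one. -/
theorem hd {α : Type*} {u g : α} {T : List α} (hu : u ∉ T) (hg : g ≠ u)
    (h : (u, g) ∈ cp (u :: T)) : ∃ T', T = g :: T' := by
  rw [cp_cons] at h
  cases T with
  | nil => simp at h; exact absurd h hg
  | cons a T' =>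
    rw [List.cons_append, List.zip_cons_cons, List.mem_cons] at h
    rcases h with h | h
    · exact ⟨T', by rw [Prod.mk.injEq] at h; rw [h.2]⟩
    · exact absurd (List.of_mem_zip h).1 hu

/-- The pair with the second entry `u` is the last one. -/
theorem lt {α : Type*} {u x : α} {T : List α} (hu : u ∉ T) (hx : x ≠ u)
    (h : (x, u) ∈ cp (u :: T)) : ∃ T', T = T' ++ [x] := by
  rw [cp_cons] at h
  rcases List.eq_nil_or_concat T with h0 | ⟨T', z, h0⟩
  · subst h0; simp at h; exact absurd h hx
  · rw [List.concat_eq_append] at h0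
    subst h0
    rw [← List.cons_append, List.zip_append (by simp), List.mem_append] at h
    rcases h with h | h
    · exact absurd (List.of_mem_zip h).2 hu
    · simp at h
      exact ⟨T', by rw [h]⟩

theorem cp_last {α : Type*} (u o l : α) (T : List α) : (o, l) ∈ cp (u :: (T ++ [o, l])) := by
  rw [cp_cons]
  have h1 : u :: (T ++ [o, l]) = (u :: T) ++ [o, l] := by simp
  have h2 : T ++ [o, l] ++ [u] = (T ++ [o]) ++ [l, u] := by simp
  rw [h1, h2, List.zip_append (by simp)]
  simp

theorem cp_first {α : Type*} (u o l : α) (T : List α) : (l, o) ∈ cp (u :: l :: o :: T) := by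
  rw [cp_cons]
  simp

theorem c_lt {p q : Pt} (h : p.t < q.t) : p.c < q.c := by
  unfold Pt.c; rw [Prod.Lex.toLex_lt_toLex]; exact Or.inl h

theorem r_lt {p q : Pt} (h : p.t < q.t) : q.r < p.r := by
  unfold Pt.r; rw [Prod.Lex.toLex_lt_toLex]; exact Or.inl (by simpa using h)

theorem ents_cons (u : Pt) (T : List Pt) : ents (u :: T) = ent u ++ ents T := by
  simp [ents]

theorem ents_app (A B : List Pt) : ents (A ++ B) = ents A ++ ents B := by
  simp [ents]

/-- The first entry when the walk arrives from the left. -/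
theorem ent_ar {g : Pt} (h : g.k.ar) : ∃ E, ent g = .inl g.c :: E := by
  cases hk : g.k <;> simp [hk, Kd.ar] at h <;> simp [ent, hk]

theorem ent_nar {g : Pt} (h : ¬ g.k.ar) : ∃ E, ent g = .inr g.r :: E := by
  cases hk : g.k <;> simp [hk, Kd.ar] at h <;> simp [ent, hk]

theorem ent_fw {g : Pt} (h : g.k.fw) : ∃ E, ent g = E ++ [.inr g.r] := by
  cases hk : g.k <;> simp [hk, Kd.fw] at h
  · exact ⟨[.inl g.c], by simp [ent, hk]⟩
  · exact ⟨[], by simp [ent, hk]⟩

theorem ent_nfw {g : Pt} (h : ¬ g.k.fw) : ∃ E, ent g = E ++ [.inl g.c] := by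
  cases hk : g.k <;> simp [hk, Kd.fw] at h
  · exact ⟨[.inr g.r], by simp [ent, hk]⟩
  · exact ⟨[], by simp [ent, hk]⟩

theorem marks (hMK : Stmt_MK) {u : Pt} {T : List Pt} {l g : Pt} (hw : CW (u :: T))
    (hug : u.t < g.t)
    (h1 : ∀ x y, Lk (u :: T) x y → Btw u.r l.r x.r → y.c < u.c ∨ g.c < y.c)
    (h2 : ∀ x ∈ T, (x.k = .rt ∨ x.k = .lt) → Btw u.r l.r x.r → x.c < u.c ∨ g.c < x.c) :
    ∀ c r, Mk (ents (u :: T)) c r → Btw u.r l.r r → c ∉ uIcc u.c g.c := by
  intro c r hm hb
  have hlt : u.c < g.c := c_lt hug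
  rw [uIcc_of_le hlt.le, mem_Icc]
  rw [hMK (u :: T) (by simp) hw.st c r] at hm
  have key : c < u.c ∨ g.c < c := by
    rcases hm with ⟨p, q, hl, hc, hr⟩ | ⟨p, hp, hk, hc, hr⟩
    · rw [hc]; exact h1 p q hl (hr ▸ hb)
    · rcases List.mem_cons.1 hp with hp | hp
      · exfalso
        rw [hr, hp] at hb
        rcases hb with hb | hb
        · exact lt_irrefl _ hb.1
        · exact lt_irrefl _ hb.2
      · rw [hc]; exact h2 p hp hk (hr ▸ hb)
  rintro ⟨ha, hb'⟩
  rcases key with h | h
  · exact absurd h (not_lt.2 ha)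
  · exact absurd h (not_lt.2 hb')

end DEL

open DEL in
/-- DEL -/
theorem t_DEL : Stmt_DEL := by
  intro _ hA hD1 hD2 hMK u T l g hw hT hk hlu hug h1 h2 h3
  have hm := marks hMK hw hug.1 h1 h2
  have halt := hA.alt _ hw
  have hnd := hw.nd
  have hn := hA.nd _ hw
  have hu : u ∉ T := (List.nodup_cons.1 hn).1
  have hst := hw.st
  have hlen := hT.len
  have hlt1 : l.t < u.t := hlu.1
  have hlt2 : u.t < g.t := hug.1
  have hl_ne : l ≠ u := fun h => by rw [h] at hlt1; exact lt_irrefl _ hlt1
  have hg_ne : g ≠ u := fun h => by rw [h] at hlt2; exact lt_irrefl _ hlt2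
  have hr : u.r < l.r := r_lt hlt1
  have hc : u.c < g.c := c_lt hlt2
  have hc' : l.c < u.c := c_lt hlt1
  rcases hk with hk | hk
  · -- walking to the right
    have hlu' : (l, u) ∈ cp (u :: T) := by
      rcases hlu.2 with h | h
      · exact h
      · exfalso
        rcases hst _ h with h | h
        · exact absurd h.2.2 (not_lt.2 hlt1.le)
        · exact h.1 (by simp [hk, Kd.fw])
    have hug' : (u, g) ∈ cp (u :: T) := by
      rcases hug.2 with h | h
      · exact h
      · exfalso
        rcases hst _ h with h | h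
        · exact absurd h.2.2 (not_lt.2 hlt2.le)
        · exact h.2.1 (by simp [hk, Kd.ar])
    have sg : g.k.ar := by
      rcases hst _ hug' with h | h
      · exact h.2.1
      · exact absurd (by simp [hk, Kd.fw]) h.1
    have sl : l.k.fw := by
      rcases hst _ hlu' with h | h
      · exact h.1
      · exact absurd (by simp [hk, Kd.ar]) h.2.1
    obtain ⟨T₁, hT₁⟩ := hd hu hg_ne hug'
    obtain ⟨T₂, hT₂⟩ := DEL.lt hu hl_ne hlu'
    obtain ⟨E, hE⟩ := ent_ar sg
    -- the last two entries
    have hlast : ∃ (c₀ : Q) (F : List En), ents T = F ++ [.inl c₀, .inr l.r] ∧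
        (c₀ < u.c ∨ g.c < c₀) := by
      cases hkl : l.k with
      | rt =>
        refine ⟨l.c, ents T₂, ?_, Or.inl hc'⟩
        rw [hT₂, ents_app]
        simp [ents, ent, hkl]
      | lt => simp [hkl, Kd.fw] at sl
      | R => simp [hkl, Kd.fw] at sl
      | L =>
        rcases List.eq_nil_or_concat T₂ with h0 | ⟨T₄, o, h0⟩
        · exfalso
          rw [hT₂, h0] at hlen
          simp [ents, ent, hkl] at hlen
        · rw [List.concat_eq_append] at h0
          have hT' : T = T₄ ++ [o, l] := by rw [hT₂, h0]; simp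
          have hol : (o, l) ∈ cp (u :: T) := by rw [hT']; exact cp_last u o l T₄
          have so : ¬ o.k.fw ∧ l.t < o.t := by
            rcases hst _ hol with h | h
            · exact absurd h.2.1 (by simp [hkl, Kd.ar])
            · exact ⟨h.1, h.2.2⟩
          obtain ⟨F, hF⟩ := ent_nfw so.1
          refine ⟨o.c, ents T₄ ++ F, ?_, ?_⟩
          · rw [hT', ents_app]
            have : ents [o, l] = ent o ++ ent l := by simp [ents]
            rw [this, hF]
            simp [ent, hkl]
          · refine h3 hkl o ⟨so.2, Or.inr hol⟩ ?_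
            rintro rfl
            exact hu (by rw [hT']; simp)
    obtain ⟨c₀, F, hF, hc0⟩ := hlast
    have hfst : ents T = .inl g.c :: (E ++ ents T₁) := by
      rw [hT₁, ents_cons, hE]; simp
    cases F with
    | nil =>
      exfalso
      rw [hF] at hlen
      simp at hlen
    | cons a B =>
      have ha : a = .inl g.c := by
        rw [hF] at hfst
        simp only [List.cons_append, List.cons.injEq] at hfst
        exact hfst.1
      subst ha
      rw [List.cons_append] at hF
      have hU : ents (u :: T) =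
          .inl u.c :: .inr u.r :: .inl g.c :: (B ++ [.inl c₀, .inr l.r]) := by
        rw [ents_cons, hF]; simp [ent, hk]
      rw [hU] at halt hnd hm
      rw [hU, hF]
      refine hD1 u.c u.r g.c c₀ l.r B halt hnd hm (Or.inl ⟨hr, ?_⟩)
      unfold cyc
      rcases hc0 with h | h
      · exact Or.inr (Or.inl ⟨h, hc⟩)
      · exact Or.inr (Or.inr ⟨hc, h⟩)
  · -- walking to the left
    have hul' : (u, l) ∈ cp (u :: T) := by
      rcases hlu.2 with h | h
      · exfalso
        rcases hst _ h with h | h
        · exact absurd h.2.1 (by simp [hk, Kd.ar])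
        · exact absurd h.2.2 (not_lt.2 hlt1.le)
      · exact h
    have hgu' : (g, u) ∈ cp (u :: T) := by
      rcases hug.2 with h | h
      · exfalso
        rcases hst _ h with h | h
        · exact absurd h.1 (by simp [hk, Kd.fw])
        · exact absurd h.2.2 (not_lt.2 hlt2.le)
      · exact h
    have sg : ¬ g.k.fw := by
      rcases hst _ hgu' with h | h
      · exact absurd h.2.1 (by simp [hk, Kd.ar])
      · exact h.1
    have sl : ¬ l.k.ar := by
      rcases hst _ hul' with h | h
      · exact absurd h.1 (by simp [hk, Kd.fw])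
      · exact h.2.1
    obtain ⟨T₁, hT₁⟩ := hd hu hl_ne hul'
    obtain ⟨T₂, hT₂⟩ := DEL.lt hu hg_ne hgu'
    obtain ⟨E, hE⟩ := ent_nfw sg
    have hfst : ∃ (c₀ : Q) (F : List En), ents T = .inr l.r :: .inl c₀ :: F ∧
        (c₀ < u.c ∨ g.c < c₀) := by
      cases hkl : l.k with
      | lt =>
        refine ⟨l.c, ents T₁, ?_, Or.inl hc'⟩
        rw [hT₁, ents_cons]
        simp [ent, hkl]
      | rt => exact absurd (by simp [hkl, Kd.ar]) sl
      | R => exact absurd (by simp [hkl, Kd.ar]) sl
      | L =>
        cases T₁ with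
        | nil =>
          exfalso
          rw [hT₁] at hlen
          simp [ents, ent, hkl] at hlen
        | cons o T₄ =>
          have hlo : (l, o) ∈ cp (u :: T) := by rw [hT₁]; exact cp_first u o l T₄
          have so : o.k.ar ∧ l.t < o.t := by
            rcases hst _ hlo with h | h
            · exact h.2
            · exact absurd (by simp [hkl, Kd.fw]) h.1
          obtain ⟨F, hF⟩ := ent_ar so.1
          refine ⟨o.c, F ++ ents T₄, ?_, ?_⟩
          · rw [hT₁, ents_cons, ents_cons, hF]
            simp [ent, hkl]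
          · refine h3 hkl o ⟨so.2, Or.inl hlo⟩ ?_
            rintro rfl
            exact hu (by rw [hT₁]; simp)
    obtain ⟨c₀, F, hF, hc0⟩ := hfst
    have hlst : ents T = ents T₂ ++ E ++ [.inl g.c] := by
      rw [hT₂, ents_app]
      have : ents [g] = ent g := by simp [ents]
      rw [this, hE]; simp
    rcases List.eq_nil_or_concat F with h0 | ⟨B, a, h0⟩
    · exfalso
      rw [hF, h0] at hlen
      simp at hlen
    · rw [List.concat_eq_append] at h0
      have ha : a = .inl g.c := by
        have h := hF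
        rw [hlst, h0] at h
        have h' : ents T₂ ++ E ++ [.inl g.c] = (.inr l.r :: .inl c₀ :: B) ++ [a] := by
          rw [h]; simp
        have := (List.append_inj' h' (by simp)).2
        simpa using this.symm
      subst ha
      rw [h0] at hF
      have hU : ents (u :: T) =
          .inr u.r :: .inl u.c :: .inr l.r :: .inl c₀ :: (B ++ [.inl g.c]) := by
        rw [ents_cons, hF]; simp [ent, hk]
      rw [hU] at halt hnd hm
      rw [hU, hF]
      refine hD2 u.c u.r g.c c₀ l.r B halt hnd hm (Or.inl ⟨hr, ?_⟩)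
      unfold cyc
      rcases hc0 with h | h
      · exact Or.inr (Or.inl ⟨h, hc⟩)
      · exact Or.inr (Or.inr ⟨hc, h⟩)

end LH
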