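import Pool.Agent.LH.Stmts1

/-!
# DR1: removal of a short row, first direction
-/

namespace LH

open Set LG

namespace DR1

theorem mem_cp_rot {α : Type*} (A B : List α) (p : α × α) :
    p ∈ cp (A ++ B) ↔ p ∈ cp (B ++ A) := by
  have h : B ++ A = (A ++ B).rotate A.length := (List.rotate_append_length_eq A B).symm
  have h2 : cp (B ++ A) = (cp (A ++ B)).rotate A.length := by
    rw [h]
    unfold cp
    rw [List.rotate_rotate, List.zip_eq_zipWith, List.zip_eq_zipWith,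
      List.zipWith_rotate_distrib _ _ _ _ (by simp), List.rotate_rotate, Nat.add_comm]
  rw [h2, List.mem_rotate]

theorem alt_rot {A B : List En} (h : Alt (A ++ B)) : Alt (B ++ A) := by
  refine ⟨?_, fun p hp => h.2 p ((mem_cp_rot A B p).2 hp)⟩
  intro h0
  apply h.1
  have h1 : A = [] ∧ B = [] := by
    rw [List.append_eq_nil_iff] at h0
    exact ⟨h0.2, h0.1⟩
  rw [h1.1, h1.2]
  rfl

theorem mk_rot {A B : List En} {c r : Q} (h : Mk (A ++ B) c r) : Mk (B ++ A) c r := by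
  unfold Mk at *
  rw [mem_cp_rot A B, mem_cp_rot A B] at h
  exact h

theorem cp_map {α β : Type*} (f : α → β) (W : List α) :
    cp (W.map f) = (cp W).map (Prod.map f f) := by
  unfold cp
  rw [← List.map_rotate, List.zip_map]

theorem alt_iff (W : List En) :
    Alt W ↔ W ≠ [] ∧ ∀ p ∈ cp (W.map Sum.isLeft), p.1 = !p.2 := by
  unfold Alt
  rw [cp_map]
  simp only [List.mem_map, forall_exists_index, and_imp, forall_apply_eq_imp_iff₂, Prod.map_fst,
    Prod.map_snd]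

theorem alt_congr {W W' : List En} (h : W.map Sum.isLeft = W'.map Sum.isLeft) (hA : Alt W) :
    Alt W' := by
  rw [alt_iff] at *
  rw [← h]
  refine ⟨?_, hA.2⟩
  rintro rfl
  apply hA.1
  simpa using h

theorem zip_chain {α : Type*} (R : α → α → Prop) : ∀ (T : List α) (a b : α),
    (∀ p ∈ (a :: T).zip (T ++ [b]), R p.1 p.2) ↔ List.IsChain R (a :: (T ++ [b]))
  | [], a, b => by simp
  | t :: T, a, b => by
    have ih := zip_chain R T t b
    rw [List.cons_append, List.zip_cons_cons, List.isChain_cons_cons, List.forall_mem_cons, ih]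

theorem alt_chain (a : En) (T : List En) :
    Alt (a :: T) ↔ List.IsChain (fun x y : En => x.isLeft = !y.isLeft) (a :: (T ++ [a])) := by
  unfold Alt cp
  rw [← zip_chain]
  simp

theorem chain_fl (c : Q) : ∀ (n : ℕ) (T : List En), T.length ≤ n → ∀ a : Q,
    List.IsChain (fun x y : En => x.isLeft = !y.isLeft) (Sum.inl a :: (T ++ [Sum.inl c])) →
    ∃ L : List (Q × Q), L ≠ [] ∧ Sum.inl a :: T = fl L := by
  intro n
  induction n with
  | zero =>
    intro T hT a h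
    have : T = [] := List.length_eq_zero_iff.1 (Nat.le_zero.1 hT)
    subst this
    simp at h
  | succ n ih =>
    intro T hT a h
    match T, h with
    | [], h => simp at h
    | Sum.inl t :: T', h => simp at h
    | [Sum.inr b], h =>
      exact ⟨[(a, b)], by simp, rfl⟩
    | Sum.inr b :: Sum.inr t :: T', h => simp at h
    | Sum.inr b :: Sum.inl t :: T', h =>
      have h2 : List.IsChain (fun x y : En => x.isLeft = !y.isLeft)
          (Sum.inl t :: (T' ++ [Sum.inl c])) := by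
        rw [List.cons_append, List.cons_append, List.isChain_cons_cons, List.isChain_cons_cons] at h
        exact h.2.2
      obtain ⟨L, -, hL⟩ := ih T' (by simp at hT; omega) t h2
      refine ⟨(a, b) :: L, by simp, ?_⟩
      rw [hL]
      rfl

theorem fl_chain (e : Q) : ∀ L : List (Q × Q),
    List.IsChain (fun x y : En => x.isLeft = !y.isLeft) (fl L ++ [Sum.inl e])
  | [] => by simp [fl]
  | [(a, b)] => by simp [fl]
  | (a, b) :: (a', b') :: L => by
    have ih := fl_chain e ((a', b') :: L)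
    have h : fl ((a, b) :: (a', b') :: L) ++ [Sum.inl e] =
        Sum.inl a :: Sum.inr b :: (fl ((a', b') :: L) ++ [Sum.inl e]) := rfl
    have h' : fl ((a', b') :: L) ++ [Sum.inl e] =
      Sum.inl a' :: Sum.inr b' :: (fl L ++ [Sum.inl e]) := rfl
    rw [h, List.isChain_cons_cons]
    rw [h'] at ih ⊢
    rw [List.isChain_cons_cons]
    exact ⟨rfl, rfl, ih⟩

theorem alt_fl (L : List (Q × Q)) (hL : L ≠ []) : Alt (fl L) := by
  match L, hL with
  | (a, b) :: L, _ =>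
    have h := fl_chain a ((a, b) :: L)
    have h' : fl ((a, b) :: L) = Sum.inl a :: (Sum.inr b :: fl L) := rfl
    rw [h'] at h ⊢
    rw [alt_chain]
    exact h

theorem fl_append {α β : Type*} (L L' : List (α × β)) : fl (L ++ L') = fl L ++ fl L' := by
  unfold fl
  rw [List.flatMap_append]

theorem fl_map {α β γ δ : Type*} (f : α → γ) (g : β → δ) (L : List (α × β)) :
    (fl L).map (Sum.map f g) = fl (L.map (Prod.map f g)) := by
  unfold fl
  rw [List.map_flatMap, List.flatMap_map]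
  rfl

/-- A point next to `c₀`. -/
theorem exists_adj {α : Type*} [LinearOrder α] [DenselyOrdered α] (l : List α) (c₁ c₀ : α)
    (h : c₁ ≠ c₀) : ∃ c', Btw c₁ c₀ c' ∧ ∀ x ∈ l, ¬ Btw c' c₀ x ∧ x ≠ c' := by
  rcases lt_or_gt_of_ne h with h | h
  · have hne : ((insert c₁ l.toFinset).filter (· < c₀)).Nonempty :=
      ⟨c₁, Finset.mem_filter.2 ⟨Finset.mem_insert_self _ _, h⟩⟩
    have hm := Finset.max'_mem _ hne
    set m := Finset.max' _ hne with hmd
    have hm0 : m < c₀ := (Finset.mem_filter.1 hm).2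
    obtain ⟨c', h1, h2⟩ := exists_between hm0
    have hle : ∀ x, (x = c₁ ∨ x ∈ l) → x < c₀ → x < c' := by
      intro x hx hx0
      refine lt_of_le_of_lt (Finset.le_max' _ x ?_) h1
      refine Finset.mem_filter.2 ⟨?_, hx0⟩
      rcases hx with rfl | hx
      · exact Finset.mem_insert_self _ _
      · exact Finset.mem_insert_of_mem (List.mem_toFinset.2 hx)
    refine ⟨c', Or.inl ⟨hle _ (Or.inl rfl) h, h2⟩, fun x hx => ⟨?_, ?_⟩⟩
    · rintro (⟨h3, h4⟩ | ⟨h3, h4⟩)
      · exact lt_asymm h3 (hle x (Or.inr hx) h4)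
      · exact lt_asymm h2 (h3.trans h4)
    · rintro rfl
      exact lt_irrefl _ (hle x (Or.inr hx) h2)
  · have hne : ((insert c₁ l.toFinset).filter (c₀ < ·)).Nonempty :=
      ⟨c₁, Finset.mem_filter.2 ⟨Finset.mem_insert_self _ _, h⟩⟩
    have hm := Finset.min'_mem _ hne
    set m := Finset.min' _ hne with hmd
    have hm0 : c₀ < m := (Finset.mem_filter.1 hm).2
    obtain ⟨c', h1, h2⟩ := exists_between hm0
    have hle : ∀ x, (x = c₁ ∨ x ∈ l) → c₀ < x → c' < x := by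
      intro x hx hx0
      refine lt_of_lt_of_le h2 (Finset.min'_le _ x ?_)
      refine Finset.mem_filter.2 ⟨?_, hx0⟩
      rcases hx with rfl | hx
      · exact Finset.mem_insert_self _ _
      · exact Finset.mem_insert_of_mem (List.mem_toFinset.2 hx)
    refine ⟨c', Or.inr ⟨h1, hle _ (Or.inl rfl) h⟩, fun x hx => ⟨?_, ?_⟩⟩
    · rintro (⟨h3, h4⟩ | ⟨h3, h4⟩)
      · exact lt_asymm h1 (h3.trans h4)
      · exact lt_asymm h4 (hle x (Or.inr hx) h3)
    · rintro rfl
      exact lt_irrefl _ (hle x (Or.inr hx) h1)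

theorem cyc_mono {α β : Type*} [LinearOrder α] [LinearOrder β] (g : α → β) {a b c : α}
    (hab : a < b → g a < g b) (hbc : b < c → g b < g c) (hca : c < a → g c < g a)
    (h : cyc a b c) : cyc (g a) (g b) (g c) := by
  unfold cyc at *
  rcases h with ⟨h1, h2⟩ | ⟨h1, h2⟩ | ⟨h1, h2⟩
  · exact Or.inl ⟨hab h1, hbc h2⟩
  · exact Or.inr (Or.inl ⟨hbc h1, hca h2⟩)
  · exact Or.inr (Or.inr ⟨hca h1, hab h2⟩)

theorem mem_fl {M : List (Q × Q)} {p : Q × Q} (hp : p ∈ M) :
    (Sum.inl p.1 : En) ∈ fl M ∧ (Sum.inr p.2 : En) ∈ fl M := by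
  unfold fl
  exact ⟨List.mem_flatMap.2 ⟨p, hp, by simp⟩, List.mem_flatMap.2 ⟨p, hp, by simp⟩⟩

theorem nodup_fl : ∀ M : List (Q × Q), (fl M).Nodup →
    (M.map Prod.fst).Nodup ∧ (M.map Prod.snd).Nodup
  | [], _ => ⟨List.nodup_nil, List.nodup_nil⟩
  | p :: M, h => by
    have h' : fl (p :: M) = Sum.inl p.1 :: Sum.inr p.2 :: fl M := rfl
    rw [h', List.nodup_cons, List.nodup_cons] at h
    obtain ⟨h1, h2, h3⟩ := h
    obtain ⟨h4, h5⟩ := nodup_fl M h3
    refine ⟨?_, ?_⟩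
    · rw [List.map_cons, List.nodup_cons]
      refine ⟨fun h6 => ?_, h4⟩
      obtain ⟨q, hq, hq'⟩ := List.mem_map.1 h6
      apply h1
      rw [← hq']
      exact List.mem_cons_of_mem _ (mem_fl hq).1
    · rw [List.map_cons, List.nodup_cons]
      refine ⟨fun h6 => ?_, h5⟩
      obtain ⟨q, hq, hq'⟩ := List.mem_map.1 h6
      apply h2
      rw [← hq']
      exact (mem_fl hq).2

/-- A column next to `c₀` and the short row can be removed. -/
theorem core (hE : Stmt_RPE) (b₁ b₂ c₀ c' x b₀ : Q) (L : List (Q × Q))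
    (hN : (fl ((c₀, b₁) :: (c', b₂) :: (L ++ [(x, b₀)]))).Nodup)
    (hadj : ∀ d, Sum.inl d ∈ fl ((c₀, b₁) :: (c', b₂) :: (L ++ [(x, b₀)])) → ¬ Btw c' c₀ d)
    (hc : c' < c₀ ∧ cyc b₁ b₂ b₀ ∨ c₀ < c' ∧ cyc b₁ b₀ b₂) :
    WE (fl ((c₀, b₁) :: (c', b₂) :: (L ++ [(x, b₀)]))) (fl ((c', b₂) :: (L ++ [(x, b₀)]))) := by
  obtain ⟨-, -, f, g, hf, hg, -⟩ := hE _ (alt_fl _ (by simp)) hN
  have hsub : ∀ e, e ∈ fl ((c', b₂) :: (L ++ [(x, b₀)])) →
      e ∈ fl ((c₀, b₁) :: (c', b₂) :: (L ++ [(x, b₀)])) := fun e he =>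
    List.mem_cons_of_mem _ (List.mem_cons_of_mem _ he)
  have hN2 : (fl ((c', b₂) :: (L ++ [(x, b₀)]))).Nodup :=
    (List.nodup_cons.1 (List.nodup_cons.1 hN).2).2
  have flt : ∀ a b, Sum.inl a ∈ fl ((c₀, b₁) :: (c', b₂) :: (L ++ [(x, b₀)])) →
      Sum.inl b ∈ fl ((c₀, b₁) :: (c', b₂) :: (L ++ [(x, b₀)])) → f a < f b → b < a := by
    intro a b ha hb hab
    rcases lt_trichotomy a b with h | h | h
    · exact absurd hab (lt_asymm (hf a b ha hb h))
    · rw [h] at hab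
      exact absurd hab (lt_irrefl _)
    · exact h
  have finj : ∀ a b, Sum.inl a ∈ fl ((c₀, b₁) :: (c', b₂) :: (L ++ [(x, b₀)])) →
      Sum.inl b ∈ fl ((c₀, b₁) :: (c', b₂) :: (L ++ [(x, b₀)])) → f a = f b → a = b := by
    intro a b ha hb hab
    rcases lt_trichotomy a b with h | h | h
    · exact absurd hab (hf a b ha hb h).ne'
    · exact h
    · exact absurd hab (hf b a hb ha h).ne
  have ginj : ∀ a b, Sum.inr a ∈ fl ((c₀, b₁) :: (c', b₂) :: (L ++ [(x, b₀)])) →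
      Sum.inr b ∈ fl ((c₀, b₁) :: (c', b₂) :: (L ++ [(x, b₀)])) → g a = g b → a = b := by
    intro a b ha hb hab
    rcases lt_trichotomy a b with h | h | h
    · exact absurd hab (hg a b ha hb h).ne
    · exact h
    · exact absurd hab (hg b a hb ha h).ne'
  have hz : (x, b₀) ∈ (c₀, b₁) :: (c', b₂) :: (L ++ [(x, b₀)]) := by simp
  have m0 := mem_fl (M := (c₀, b₁) :: (c', b₂) :: (L ++ [(x, b₀)])) (p := (c₀, b₁)) (by simp)
  have m1 := mem_fl (M := (c₀, b₁) :: (c', b₂) :: (L ++ [(x, b₀)])) (p := (c', b₂)) (by simp)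
  have m2 := mem_fl hz
  have hN0 := nodup_fl _ hN
  have key : ∀ d ∈ ((f c₀, g b₁) :: (f c', g b₂) :: (L.map (Prod.map f g) ++
      [(f x, g b₀)])).map Prod.fst, ∃ y, Sum.inl y ∈ fl ((c₀, b₁) :: (c', b₂) :: (L ++ [(x, b₀)])) ∧
      d = f y := by
    have h1 : ((f c₀, g b₁) :: (f c', g b₂) :: (L.map (Prod.map f g) ++
      [(f x, g b₀)])) = ((c₀, b₁) :: (c', b₂) :: (L ++ [(x, b₀)])).map (Prod.map f g) := by
      simp
    rw [h1]
    intro d hd
    rw [List.mem_map] at hd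
    obtain ⟨p, hp, rfl⟩ := hd
    obtain ⟨q, hq, rfl⟩ := List.mem_map.1 hp
    exact ⟨q.1, (mem_fl hq).1, rfl⟩
  refine ⟨(f c₀, g b₁) :: (f c', g b₂) :: (L.map (Prod.map f g) ++ [(f x, g b₀)]),
    (f c', g b₂) :: (L.map (Prod.map f g) ++ [(f x, g b₀)]), ⟨hN, f, g, hf, hg, ?_⟩,
    ⟨hN2, f, g, fun a b ha hb => hf a b (hsub _ ha) (hsub _ hb),
      fun a b ha hb => hg a b (hsub _ ha) (hsub _ hb), ?_⟩, Relation.EqvGen.rel _ _
        (Mv.srow _ _ _ _ _ _ ?_ ?_)⟩
  · rw [fl_map]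
    simp only [List.map_cons, List.map_append, List.map_nil, Prod.map_apply]
    exact List.IsRotated.refl _
  · rw [fl_map]
    simp only [List.map_cons, List.map_append, List.map_nil, Prod.map_apply]
    exact List.IsRotated.refl _
  · have h1 : ((f c₀, g b₁) :: (f c', g b₂) :: (L.map (Prod.map f g) ++
      [(f x, g b₀)])) = ((c₀, b₁) :: (c', b₂) :: (L ++ [(x, b₀)])).map (Prod.map f g) := by
      simp
    rw [h1]
    refine ⟨?_, ?_⟩
    · have h2 : (((c₀, b₁) :: (c', b₂) :: (L ++ [(x, b₀)])).map (Prod.map f g)).map Prod.fst =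
          (((c₀, b₁) :: (c', b₂) :: (L ++ [(x, b₀)])).map Prod.fst).map f := by
        rw [List.map_map, List.map_map]
        rfl
      rw [h2]
      refine List.Nodup.map_on ?_ hN0.1
      intro a ha b hb hab
      obtain ⟨p, hp, rfl⟩ := List.mem_map.1 ha
      obtain ⟨q, hq, rfl⟩ := List.mem_map.1 hb
      exact finj _ _ (mem_fl hp).1 (mem_fl hq).1 hab
    · have h2 : (((c₀, b₁) :: (c', b₂) :: (L ++ [(x, b₀)])).map (Prod.map f g)).map Prod.snd =
          (((c₀, b₁) :: (c', b₂) :: (L ++ [(x, b₀)])).map Prod.snd).map g := by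
        rw [List.map_map, List.map_map]
        rfl
      rw [h2]
      refine List.Nodup.map_on ?_ hN0.2
      intro a ha b hb hab
      obtain ⟨p, hp, rfl⟩ := List.mem_map.1 ha
      obtain ⟨q, hq, rfl⟩ := List.mem_map.1 hb
      exact ginj _ _ (mem_fl hp).2 (mem_fl hq).2 hab
  · rcases hc with ⟨h1, h2⟩ | ⟨h1, h2⟩
    · left
      refine ⟨?_, cyc_mono g (hg _ _ m0.2 m1.2) (hg _ _ m1.2 m2.2) (hg _ _ m2.2 m0.2) h2⟩
      intro d hd hcy
      obtain ⟨y, hy, rfl⟩ := key d hd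
      have h3 := hf _ _ m1.1 m0.1 h1
      rcases hcy with ⟨h4, h5⟩ | ⟨h4, h5⟩ | ⟨h4, h5⟩
      · exact hadj y hy (Or.inl ⟨flt _ _ hy m1.1 h5, flt _ _ m0.1 hy h4⟩)
      · exact lt_asymm h5 h3
      · exact lt_asymm h4 h3
    · right
      refine ⟨?_, cyc_mono g (hg _ _ m2.2 m1.2) (hg _ _ m1.2 m0.2) (hg _ _ m0.2 m2.2)
        (cyc_rot.1 h2)⟩
      intro d hd hcy
      obtain ⟨y, hy, rfl⟩ := key d hd
      have h3 := hf _ _ m0.1 m1.1 h1
      rcases hcy with ⟨h4, h5⟩ | ⟨h4, h5⟩ | ⟨h4, h5⟩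
      · exact hadj y hy (Or.inr ⟨flt _ _ hy m0.1 h5, flt _ _ m1.1 hy h4⟩)
      · exact lt_asymm h5 h3
      · exact lt_asymm h4 h3

/-- The structure of the part `B`. -/
theorem struct {b₁ c₁ b₂ b₀ c₀ : Q} {B : List En}
    (hA : Alt (.inr b₁ :: .inl c₁ :: .inr b₂ :: (B ++ [.inr b₀, .inl c₀]))) :
    ∃ (L : List (Q × Q)) (x : Q), B = fl L ++ [Sum.inl x] := by
  have h1 : Alt (Sum.inl c₁ :: ((Sum.inr b₂ :: (B ++ [.inr b₀, .inl c₀])) ++ [Sum.inr b₁])) :=
    alt_rot (A := [Sum.inr b₁]) (B := Sum.inl c₁ :: Sum.inr b₂ :: (B ++ [Sum.inr b₀, Sum.inl c₀]))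
      hA
  obtain ⟨L, -, hL⟩ := chain_fl c₁ _ _ le_rfl c₁ ((alt_chain _ _).1 h1)
  -- remove the last pair `(c₀, b₁)`
  rcases List.eq_nil_or_concat L with rfl | ⟨L', p, rfl⟩
  · simp [fl] at hL
  rw [List.concat_eq_append, fl_append] at hL
  have h2 : Sum.inl c₁ :: ((Sum.inr b₂ :: (B ++ [.inr b₀, .inl c₀])) ++ [Sum.inr b₁]) =
      (Sum.inl c₁ :: Sum.inr b₂ :: (B ++ [.inr b₀])) ++ [Sum.inl c₀, Sum.inr b₁] := by simp
  rw [h2] at hL
  have h3 : (fl [p] : List En) = [Sum.inl p.1, Sum.inr p.2] := rfl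
  rw [h3] at hL
  have h4 := (List.append_inj' hL rfl).1
  rcases List.eq_nil_or_concat L' with rfl | ⟨L'', q, rfl⟩
  · simp [fl] at h4
  rw [List.concat_eq_append, fl_append] at h4
  have h5 : (fl [q] : List En) = [Sum.inl q.1] ++ [Sum.inr q.2] := rfl
  rw [h5, ← List.append_assoc] at h4
  have h6 : (Sum.inl c₁ :: Sum.inr b₂ :: (B ++ [.inr b₀]) : List En) =
      (Sum.inl c₁ :: Sum.inr b₂ :: B) ++ [.inr b₀] := rfl
  rw [h6] at h4
  have h7 := (List.append_inj' h4 rfl).1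
  match L'', h7 with
  | [], h7 => simp [fl] at h7
  | (a, b) :: L3, h7 =>
    have h8 : fl ((a, b) :: L3) ++ [Sum.inl q.1] =
      Sum.inl a :: Sum.inr b :: (fl L3 ++ [Sum.inl q.1]) := rfl
    rw [h8, List.cons.injEq, List.cons.injEq] at h7
    exact ⟨L3, q.1, h7.2.2⟩

end DR1

/-- DR1: removal of a short row, first direction. -/
theorem t_DR1 : Stmt_DR1 := by
  intro hW hE hCM b₁ c₁ b₂ b₀ c₀ B hA hN hM hc
  obtain ⟨L, x, rfl⟩ := DR1.struct hA
  have hne : c₁ ≠ c₀ := by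
    rcases hc with ⟨h, -⟩ | ⟨h, -⟩
    · exact h.ne
    · exact h.ne'
  obtain ⟨c', hb, hl⟩ := DR1.exists_adj (c₁ :: c₀ :: x :: L.map Prod.fst) c₁ c₀ hne
  have hc'1 : c₁ ≠ c' := (hl c₁ (by simp)).2
  have hc'0 : c₀ ≠ c' := (hl c₀ (by simp)).2
  have hc'x : x ≠ c' := (hl x (by simp)).2
  have hc'L : ∀ p ∈ L, p.1 ≠ c' := fun p hp => (hl p.1 (by
    simp only [List.mem_cons, List.mem_map]
    exact Or.inr (Or.inr (Or.inr ⟨p, hp, rfl⟩)))).2
  have hflL : ∀ c : Q, (Sum.inl c : En) ∈ fl L ↔ ∃ p ∈ L, p.1 = c := by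
    intro c
    unfold fl
    rw [List.mem_flatMap]
    constructor
    · rintro ⟨p, hp, h⟩
      simp only [List.mem_cons, Sum.inl.injEq, List.not_mem_nil, or_false, reduceCtorEq] at h
      exact ⟨p, hp, h.symm⟩
    · rintro ⟨p, hp, rfl⟩
      exact ⟨p, hp, by simp⟩
  have hc'2 : (Sum.inl c' : En) ∉ fl L := by
    rw [hflL]
    rintro ⟨p, hp, h⟩
    exact hc'L p hp h
  -- the first rotation
  have e1 := hW.rot [Sum.inr b₁]
    (Sum.inl c₁ :: Sum.inr b₂ :: ((fl L ++ [Sum.inl x]) ++ [Sum.inr b₀, Sum.inl c₀])) hA hN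
  have hA1 := DR1.alt_rot (A := [Sum.inr b₁])
    (B := Sum.inl c₁ :: Sum.inr b₂ :: ((fl L ++ [Sum.inl x]) ++ [Sum.inr b₀, Sum.inl c₀])) hA
  have hN1 : ((Sum.inl c₁ :: Sum.inr b₂ :: ((fl L ++ [Sum.inl x]) ++
      [Sum.inr b₀, Sum.inl c₀])) ++ [Sum.inr b₁] : List En).Nodup :=
    (List.perm_append_comm.nodup_iff).1 (show ([Sum.inr b₁] ++ (Sum.inl c₁ :: Sum.inr b₂ ::
      ((fl L ++ [Sum.inl x]) ++ [Sum.inr b₀, Sum.inl c₀])) : List En).Nodup from hN)
  -- the move of the column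
  have e2 := hCM c₁ c' b₁ b₂ ((fl L ++ [Sum.inl x]) ++ [Sum.inr b₀, Sum.inl c₀]) hA1 hN1
    (by
      simp only [List.mem_append, List.mem_cons, Sum.inl.injEq, List.not_mem_nil, or_false,
        reduceCtorEq, false_or]
      rintro ((h | h) | h)
      · exact hc'2 h
      · exact hc'x h.symm
      · exact hc'0 h.symm) hc'1.symm
    (by
      intro c r hmk hbt
      refine hM c r ?_ ?_
      · exact DR1.mk_rot (A := Sum.inl c₁ :: Sum.inr b₂ :: ((fl L ++ [Sum.inl x]) ++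
          [Sum.inr b₀, Sum.inl c₀])) (B := [Sum.inr b₁]) hmk
      · rcases hb with ⟨h1, h2⟩ | ⟨h1, h2⟩
        · rcases hbt with ⟨h3, h4⟩ | ⟨h3, h4⟩
          · exact Or.inl ⟨h3, h4.trans h2⟩
          · exact absurd (h3.trans h4) (lt_asymm h1)
        · rcases hbt with ⟨h3, h4⟩ | ⟨h3, h4⟩
          · exact absurd (h3.trans h4) (lt_asymm h2)
          · exact Or.inr ⟨h1.trans h3, h4⟩)
  -- Nodup of the list with the column `c'`
  have hN2 : (fl ((c₀, b₁) :: (c', b₂) :: (L ++ [(x, b₀)])) : List En).Nodup := by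
    have h1 : (fl ((c₀, b₁) :: (c', b₂) :: (L ++ [(x, b₀)])) : List En) =
        Sum.inl c₀ :: Sum.inr b₁ :: Sum.inl c' :: Sum.inr b₂ ::
          (fl L ++ [Sum.inl x, Sum.inr b₀]) := by
      rw [show (c₀, b₁) :: (c', b₂) :: (L ++ [(x, b₀)]) =
        [(c₀, b₁), (c', b₂)] ++ L ++ [(x, b₀)] by simp, DR1.fl_append, DR1.fl_append]
      rfl
    rw [h1]
    have hN' := hN
    simp only [List.nodup_cons, List.nodup_append, List.mem_append, List.mem_cons,
      List.not_mem_nil, or_false, reduceCtorEq, false_or, Sum.inl.injEq, Sum.inr.injEq,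
      List.nodup_nil, not_false_eq_true, and_true, forall_eq_or_imp, forall_eq, not_or,
      ne_eq] at hN' ⊢
    grind
  have f4 : ∀ a : Q, (fl ((a, b₂) :: (L ++ [(x, b₀)])) : List En) =
      Sum.inl a :: Sum.inr b₂ :: (fl L ++ [Sum.inl x, Sum.inr b₀]) := by
    intro a
    rw [show (a, b₂) :: (L ++ [(x, b₀)]) = [(a, b₂)] ++ L ++ [(x, b₀)] by simp, DR1.fl_append,
      DR1.fl_append]
    rfl
  have f3 : (fl ((c₀, b₁) :: (c', b₂) :: (L ++ [(x, b₀)])) : List En) =
      [Sum.inl c₀, Sum.inr b₁] ++ (Sum.inl c' :: Sum.inr b₂ ::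
        (fl L ++ [Sum.inl x, Sum.inr b₀])) := by
    rw [show (c₀, b₁) :: (c', b₂) :: (L ++ [(x, b₀)]) =
      [(c₀, b₁)] ++ ((c', b₂) :: (L ++ [(x, b₀)])) by simp, DR1.fl_append, f4]
    rfl
  -- the second rotation
  have hA3 : Alt (fl ((c₀, b₁) :: (c', b₂) :: (L ++ [(x, b₀)])) : List En) :=
    DR1.alt_fl _ (by simp)
  have hA3' := hA3
  have hN3' := hN2
  rw [f3] at hA3' hN3'
  have hA4 := DR1.alt_rot hA3'
  have hN4 := (List.perm_append_comm.nodup_iff).1 hN3'
  have e3 := hW.rot _ _ hA4 hN4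
  have g3 : (Sum.inl c' :: Sum.inr b₂ :: (fl L ++ [Sum.inl x, Sum.inr b₀]) ++
      [Sum.inl c₀, Sum.inr b₁] : List En) = Sum.inl c' :: Sum.inr b₂ ::
        (fl L ++ [Sum.inl x] ++ [Sum.inr b₀, Sum.inl c₀] ++ [Sum.inr b₁]) := by simp
  rw [g3, ← f3] at e3
  -- the removal
  have mem3 : ∀ d, (Sum.inl d : En) ∈ fl ((c₀, b₁) :: (c', b₂) :: (L ++ [(x, b₀)])) →
      d = c' ∨ d ∈ c₁ :: c₀ :: x :: L.map Prod.fst := by
    intro d hd
    rw [f3] at hd
    simp only [List.mem_cons, List.mem_append, Sum.inl.injEq, reduceCtorEq, List.not_mem_nil,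
      or_false, false_or, hflL, List.mem_map] at hd ⊢
    tauto
  have e4 := DR1.core hE b₁ b₂ c₀ c' x b₀ L hN2
    (by
      intro d hd
      rcases mem3 d hd with rfl | hd
      · rintro (⟨h, -⟩ | ⟨-, h⟩)
        · exact lt_irrefl _ h
        · exact lt_irrefl _ h
      · exact (hl d hd).1)
    (by
      rcases hc with ⟨h1, h2⟩ | ⟨h1, h2⟩
      · rcases hb with ⟨h3, h4⟩ | ⟨h3, h4⟩
        · exact Or.inl ⟨h4, h2⟩
        · exact absurd (h3.trans h4) (lt_asymm h1)
      · rcases hb with ⟨h3, h4⟩ | ⟨h3, h4⟩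
        · exact absurd (h3.trans h4) (lt_asymm h1)
        · exact Or.inr ⟨h3, h2⟩)
  -- renaming of the column
  have hN5 : (fl ((c', b₂) :: (L ++ [(x, b₀)])) : List En).Nodup := by
    have h := hN2
    rw [f3, List.nodup_append] at h
    rw [f4]
    exact h.2.1
  have hN6 : (fl ((c₀, b₂) :: (L ++ [(x, b₀)])) : List En).Nodup := by
    have h := hN2
    rw [f3] at h
    rw [f4]
    simp only [List.nodup_cons, List.nodup_append, List.mem_append, List.mem_cons,
      List.not_mem_nil, or_false, reduceCtorEq, false_or, Sum.inl.injEq, Sum.inr.injEq,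
      List.nodup_nil, not_false_eq_true, and_true, forall_eq_or_imp, forall_eq, not_or,
      ne_eq] at h ⊢
    grind
  have e5 := hW.iso (fl ((c', b₂) :: (L ++ [(x, b₀)]))) (fun c => if c = c' then c₀ else c) id
    (DR1.alt_fl _ (by simp)) hN5
    (by
      have key : ∀ d, (Sum.inl d : En) ∈ fl ((c', b₂) :: (L ++ [(x, b₀)])) → d ≠ c' →
          ¬ Btw c' c₀ d ∧ d ≠ c₀ := by
        intro d hd hne'
        have h1 : (Sum.inl d : En) ∈ fl ((c₀, b₁) :: (c', b₂) :: (L ++ [(x, b₀)])) := by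
          rw [f3]
          rw [f4] at hd
          exact List.mem_append_right _ hd
        refine ⟨?_, ?_⟩
        · rcases mem3 d h1 with h | h
          · exact absurd h hne'
          · exact (hl d h).1
        · rintro rfl
          rw [f4] at hd hN6
          rcases List.mem_cons.1 hd with h | h
          · exact hne' (Sum.inl.inj h)
          · exact (List.nodup_cons.1 hN6).1 h
      intro a b ha hb' hab
      have ka := key a ha
      have kb := key b hb'
      simp only [Btw] at ka kb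
      by_cases h1 : a = c' <;> by_cases h2 : b = c'
      · rw [h1, h2] at hab
        exact absurd hab (lt_irrefl _)
      · simp only [if_pos h1, if_neg h2]
        obtain ⟨k1, k2⟩ := kb h2
        subst h1
        by_contra h3
        rcases lt_or_eq_of_le (not_lt.1 h3) with h4 | h4
        · exact k1 (Or.inl ⟨hab, h4⟩)
        · exact k2 h4
      · simp only [if_neg h1, if_pos h2]
        obtain ⟨k1, k2⟩ := ka h1
        subst h2
        by_contra h3
        rcases lt_or_eq_of_le (not_lt.1 h3) with h4 | h4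
        · exact k1 (Or.inr ⟨h4, hab⟩)
        · exact k2 h4.symm
      · simp only [if_neg h1, if_neg h2]
        exact hab)
    (fun a b _ _ h => h)
  have g5 : (fl ((c', b₂) :: (L ++ [(x, b₀)])) : List En).map
      (Sum.map (fun c => if c = c' then c₀ else c) id) = fl ((c₀, b₂) :: (L ++ [(x, b₀)])) := by
    rw [DR1.fl_map]
    congr 1
    rw [List.map_cons, List.map_append, List.map_cons, List.map_nil]
    congr 1
    · simp
    · congr 1
      · conv_rhs => rw [← List.map_id L]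
        apply List.map_congr_left
        intro p hp
        refine Prod.ext ?_ rfl
        simp only [Prod.map_fst, id_eq]
        exact if_neg (hc'L p hp)
      · simp [hc'x]
  rw [g5] at e5
  -- the last rotation
  have hA6 : Alt (fl ((c₀, b₂) :: (L ++ [(x, b₀)])) : List En) := DR1.alt_fl _ (by simp)
  rw [f4 c₀] at hA6 hN6 e5
  have e6 := hW.rot [Sum.inl c₀] (Sum.inr b₂ :: (fl L ++ [Sum.inl x, Sum.inr b₀])) hA6 hN6
  have g6 : (Sum.inr b₂ :: (fl L ++ [Sum.inl x, Sum.inr b₀]) ++ [Sum.inl c₀] : List En) =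
      Sum.inr b₂ :: (fl L ++ [Sum.inl x] ++ [Sum.inr b₀, Sum.inl c₀]) := by simp
  rw [g6] at e6
  exact hW.trans _ _ _ e1 (hW.trans _ _ _ e2 (hW.trans _ _ _ e3 (hW.trans _ _ _ e4
    (hW.trans _ _ _ e5 e6))))

end LH
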