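import Pool.Agent.LH.Stmts1

/-!
# DR2: a short row is removed, second direction of the walk
-/

namespace LH

open Set LG

namespace DR2

/-- The cyclic alternation is a chain condition. -/
theorem cp_chain {α : Type*} {R : α → α → Prop} (T : List α) : ∀ (x y : α),
    (∀ p ∈ (x :: T).zip (T ++ [y]), R p.1 p.2) → List.IsChain R (x :: (T ++ [y])) := by
  induction T with
  | nil =>
    intro x y h
    have := h (x, y) (by simp)
    simpa using this
  | cons a T ih =>
    intro x y h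
    have h1 := h (x, a) (by simp)
    have h2 := ih a y (fun p hp => h p (by
      simp only [List.cons_append, List.zip_cons_cons, List.mem_cons]
      exact Or.inr hp))
    rw [List.cons_append, List.isChain_cons_cons]
    exact ⟨h1, h2⟩

theorem cp_map {α β : Type*} (f : α → β) (W : List α) :
    cp (W.map f) = (cp W).map (Prod.map f f) := by
  unfold cp
  rw [← List.map_rotate, List.zip_map]

theorem alt_of_map {W W' : List En} (h : W.map Sum.isLeft = W'.map Sum.isLeft) (hW : Alt W) :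
    Alt W' := by
  refine ⟨?_, ?_⟩
  · intro h0
    subst h0
    simp only [List.map_nil, List.map_eq_nil_iff] at h
    exact hW.1 h
  · intro p hp
    have h1 : (p.1.isLeft, p.2.isLeft) ∈ cp (W'.map Sum.isLeft) := by
      rw [cp_map]
      exact List.mem_map.2 ⟨p, hp, rfl⟩
    rw [← h, cp_map] at h1
    obtain ⟨q, hq, hq'⟩ := List.mem_map.1 h1
    have h2 := hW.2 q hq
    simp only [Prod.map, Prod.mk.injEq] at hq'
    rw [← hq'.1, ← hq'.2]
    exact h2

theorem fl_cons {α β : Type*} (a : α) (b : β) (L : List (α × β)) :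
    fl ((a, b) :: L) = .inl a :: .inr b :: fl L := by
  simp [fl]

theorem fl_map {α β γ δ : Type*} (f : α → γ) (g : β → δ) (L : List (α × β)) :
    fl (L.map fun p => (f p.1, g p.2)) = (fl L).map (Sum.map f g) := by
  induction L with
  | nil => rfl
  | cons p L ih =>
    obtain ⟨a, b⟩ := p
    rw [List.map_cons, fl_cons, fl_cons, ih]
    rfl

/-- The structure of an alternating list after a row. -/
theorem struct (b₂ : Q) : ∀ (n : ℕ) (B : List En), B.length ≤ n → ∀ b₀ : Q,
    List.IsChain (fun a b : En => a.isLeft = !b.isLeft) (.inr b₀ :: (B ++ [.inr b₂])) →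
    ∃ (L : List (Q × Q)) (c : Q), B ++ [.inr b₂] = fl (L ++ [(c, b₂)]) := by
  intro n
  induction n with
  | zero =>
    intro B hB b₀ h
    have : B = [] := List.length_eq_zero_iff.1 (by omega)
    subst this
    simp at h
  | succ n ih =>
    intro B hB b₀ h
    match B, hB, h with
    | [], _, h => simp at h
    | [x], _, h =>
      rcases x with c | r
      · exact ⟨[], c, by simp [fl]⟩
      · simp at h
    | x :: y :: B', hB, h =>
      rcases x with c | r
      · rcases y with c' | b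
        · simp at h
        · have h' : List.IsChain (fun a b : En => a.isLeft = !b.isLeft)
              (.inr b :: (B' ++ [.inr b₂])) := by
            simp only [List.cons_append, List.isChain_cons_cons] at h
            exact h.2.2
          obtain ⟨L, c₂, hL⟩ := ih B' (by simp at hB; omega) b h'
          refine ⟨(c, b) :: L, c₂, ?_⟩
          rw [List.cons_append, List.cons_append, List.cons_append, fl_cons, hL]
      · simp at h

/-- Points of a dense order close to `c₀` from below. -/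
theorem near_lt {c₁ c₀ : Q} (h : c₁ < c₀) (l : List Q) :
    ∃ a, c₁ < a ∧ a < c₀ ∧ ∀ d ∈ l, d < c₀ → d < a := by
  induction l with
  | nil =>
    obtain ⟨a, h1, h2⟩ := exists_between h
    exact ⟨a, h1, h2, by simp⟩
  | cons x l ih =>
    obtain ⟨a, h1, h2, h3⟩ := ih
    by_cases hx : x < c₀
    · obtain ⟨a', h4, h5⟩ := exists_between (max_lt h2 hx)
      refine ⟨a', lt_trans h1 (lt_of_le_of_lt (le_max_left _ _) h4), h5, ?_⟩
      intro d hd hd'
      rcases List.mem_cons.1 hd with rfl | hd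
      · exact lt_of_le_of_lt (le_max_right _ _) h4
      · exact lt_trans (h3 d hd hd') (lt_of_le_of_lt (le_max_left _ _) h4)
    · refine ⟨a, h1, h2, ?_⟩
      intro d hd hd'
      rcases List.mem_cons.1 hd with rfl | hd
      · exact absurd hd' hx
      · exact h3 d hd hd'

/-- Points of a dense order close to `c₀` from above. -/
theorem near_gt {c₁ c₀ : Q} (h : c₀ < c₁) (l : List Q) :
    ∃ a, a < c₁ ∧ c₀ < a ∧ ∀ d ∈ l, c₀ < d → a < d := by
  induction l with
  | nil =>
    obtain ⟨a, h1, h2⟩ := exists_between h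
    exact ⟨a, h2, h1, by simp⟩
  | cons x l ih =>
    obtain ⟨a, h1, h2, h3⟩ := ih
    by_cases hx : c₀ < x
    · obtain ⟨a', h4, h5⟩ := exists_between (lt_min h2 hx)
      refine ⟨a', lt_trans (lt_of_lt_of_le h5 (min_le_left _ _)) h1, h4, ?_⟩
      intro d hd hd'
      rcases List.mem_cons.1 hd with rfl | hd
      · exact lt_of_lt_of_le h5 (min_le_right _ _)
      · exact lt_trans (lt_of_lt_of_le h5 (min_le_left _ _)) (h3 d hd hd')
    · refine ⟨a, h1, h2, ?_⟩
      intro d hd hd'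
      rcases List.mem_cons.1 hd with rfl | hd
      · exact absurd hd' hx
      · exact h3 d hd hd'

/-- The columns of a list of entries. -/
def cols (W : List En) : List Q := W.filterMap fun x => x.elim some (fun _ => none)

theorem mem_cols {W : List En} {d : Q} (h : Sum.inl d ∈ W) : d ∈ cols W :=
  List.mem_filterMap.2 ⟨_, h, rfl⟩

/-- Columns and rows of a list of pairs. -/
theorem mem_fl {α β : Type*} {L : List (α × β)} {p : α × β} (h : p ∈ L) :
    Sum.inl p.1 ∈ fl L ∧ Sum.inr p.2 ∈ fl L := by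
  unfold fl
  constructor
  · exact List.mem_flatMap.2 ⟨p, h, by simp⟩
  · exact List.mem_flatMap.2 ⟨p, h, by simp⟩

/-- Columns and rows of the represented list are different. -/
theorem nd_of {L : List (Q × Q)} {f g : Q → ℝ} (hn : (fl L).Nodup)
    (hf : ∀ a b, Sum.inl a ∈ fl L → Sum.inl b ∈ fl L → a < b → f b < f a)
    (hg : ∀ a b, Sum.inr a ∈ fl L → Sum.inr b ∈ fl L → a < b → g a < g b) :
    Nd (L.map fun p => (f p.1, g p.2)) := by
  induction L with
  | nil => exact ⟨by simp, by simp⟩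
  | cons p L ih =>
    obtain ⟨a, b⟩ := p
    have hsub : ∀ x ∈ fl L, x ∈ fl ((a, b) :: L) := by
      intro x hx
      rw [fl_cons]
      exact List.mem_cons_of_mem _ (List.mem_cons_of_mem _ hx)
    rw [fl_cons] at hn
    have hn1 := List.nodup_cons.1 hn
    have hn2 := List.nodup_cons.1 hn1.2
    have ih' := ih hn2.2 (fun a b ha hb => hf a b (hsub _ ha) (hsub _ hb))
      (fun a b ha hb => hg a b (hsub _ ha) (hsub _ hb))
    have ha : Sum.inl a ∈ fl ((a, b) :: L) := by rw [fl_cons]; simp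
    have hb : Sum.inr b ∈ fl ((a, b) :: L) := by rw [fl_cons]; simp
    unfold Nd at ih' ⊢
    simp only [List.map_cons, List.map_map, List.nodup_cons] at ih' ⊢
    refine ⟨⟨?_, ih'.1⟩, ?_, ih'.2⟩
    · intro h
      obtain ⟨q, hq, hq'⟩ := List.mem_map.1 h
      simp only [Function.comp] at hq'
      have hq1 := (mem_fl hq).1
      have hne : q.1 ≠ a := by
        intro h0
        apply hn1.1
        rw [← h0]
        exact List.mem_cons_of_mem _ hq1
      rcases lt_or_gt_of_ne hne with h1 | h1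
      · have := hf _ _ (hsub _ hq1) ha h1
        rw [hq'] at this
        exact lt_irrefl _ this
      · have := hf _ _ ha (hsub _ hq1) h1
        rw [hq'] at this
        exact lt_irrefl _ this
    · intro h
      obtain ⟨q, hq, hq'⟩ := List.mem_map.1 h
      simp only [Function.comp] at hq'
      have hq1 := (mem_fl hq).2
      have hne : q.2 ≠ b := by
        intro h0
        apply hn2.1
        rw [← h0]
        exact hq1
      rcases lt_or_gt_of_ne hne with h1 | h1
      · have := hg _ _ (hsub _ hq1) hb h1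
        rw [hq'] at this
        exact lt_irrefl _ this
      · have := hg _ _ hb (hsub _ hq1) h1
        rw [hq'] at this
        exact lt_irrefl _ this

theorem cyc_map {g : Q → ℝ} {W : List En}
    (hg : ∀ a b, Sum.inr a ∈ W → Sum.inr b ∈ W → a < b → g a < g b) {a b c : Q}
    (ha : Sum.inr a ∈ W) (hb : Sum.inr b ∈ W) (hc : Sum.inr c ∈ W) (h : cyc a b c) :
    cyc (g a) (g b) (g c) := by
  unfold cyc at *
  rcases h with h | h | h
  · exact Or.inl ⟨hg _ _ ha hb h.1, hg _ _ hb hc h.2⟩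
  · exact Or.inr (Or.inl ⟨hg _ _ hb hc h.1, hg _ _ hc ha h.2⟩)
  · exact Or.inr (Or.inr ⟨hg _ _ hc ha h.1, hg _ _ ha hb h.2⟩)

/-- The short row between two adjacent columns is removed. -/
theorem main (hRPE : Stmt_RPE) (a b₁ c₀ b₀ b₂ : Q) (B : List En)
    (hA : Alt (.inl a :: .inr b₁ :: .inl c₀ :: .inr b₀ :: (B ++ [.inr b₂])))
    (hN : (Sum.inl a :: .inr b₁ :: .inl c₀ :: .inr b₀ :: (B ++ [.inr b₂])).Nodup)
    (h : ((a < c₀ ∧ ∀ d, Sum.inl d ∈ (Sum.inl a :: Sum.inr b₁ :: Sum.inl c₀ :: Sum.inr b₀ ::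
            (B ++ [Sum.inr b₂]) : List En) → ¬ (a < d ∧ d < c₀)) ∧ cyc b₁ b₂ b₀) ∨
      ((c₀ < a ∧ ∀ d, Sum.inl d ∈ (Sum.inl a :: Sum.inr b₁ :: Sum.inl c₀ :: Sum.inr b₀ ::
            (B ++ [Sum.inr b₂]) : List En) → ¬ (c₀ < d ∧ d < a)) ∧ cyc b₁ b₀ b₂)) :
    WE (.inl a :: .inr b₁ :: .inl c₀ :: .inr b₀ :: (B ++ [.inr b₂]))
      (.inl c₀ :: .inr b₀ :: (B ++ [.inr b₂])) := by
  obtain ⟨M, _, f, g, hf, hg, _⟩ := hRPE _ hA hN
  have hch : List.IsChain (fun a b : En => a.isLeft = !b.isLeft)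
      (.inr b₀ :: (B ++ [.inr b₂])) := by
    have h1 := hA.2
    unfold cp at h1
    have h2 := cp_chain (R := fun a b : En => a.isLeft = !b.isLeft)
      (Sum.inr b₁ :: Sum.inl c₀ :: Sum.inr b₀ :: (B ++ [Sum.inr b₂])) (Sum.inl a) (Sum.inl a)
      (by simpa using h1)
    simp only [List.cons_append, List.isChain_cons_cons] at h2
    have h3 := h2.2.2.2
    rw [← List.cons_append] at h3
    exact h3.left_of_append
  obtain ⟨L, c, hL⟩ := struct b₂ _ B le_rfl b₀ hch
  have hW : (Sum.inl a :: .inr b₁ :: .inl c₀ :: .inr b₀ :: (B ++ [.inr b₂]) : List En) =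
      fl ((a, b₁) :: (c₀, b₀) :: (L ++ [(c, b₂)])) := by
    rw [fl_cons, fl_cons, hL]
  have hW' : (Sum.inl c₀ :: .inr b₀ :: (B ++ [.inr b₂]) : List En) =
      fl ((c₀, b₀) :: (L ++ [(c, b₂)])) := by
    rw [fl_cons, hL]
  have ha : Sum.inl a ∈ fl ((a, b₁) :: (c₀, b₀) :: (L ++ [(c, b₂)])) := by simp [fl]
  have hb1 : Sum.inr b₁ ∈ fl ((a, b₁) :: (c₀, b₀) :: (L ++ [(c, b₂)])) := by simp [fl]
  have hc0 : Sum.inl c₀ ∈ fl ((a, b₁) :: (c₀, b₀) :: (L ++ [(c, b₂)])) := by simp [fl]
  have hb0 : Sum.inr b₀ ∈ fl ((a, b₁) :: (c₀, b₀) :: (L ++ [(c, b₂)])) := by simp [fl]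
  have hb2 : Sum.inr b₂ ∈ fl ((a, b₁) :: (c₀, b₀) :: (L ++ [(c, b₂)])) := by simp [fl]
  rw [hW] at hf hg hN h
  rw [hW, hW']
  have hnd := nd_of hN hf hg
  have hmem : ∀ x ∈ fl ((c₀, b₀) :: (L ++ [(c, b₂)])),
      x ∈ fl ((a, b₁) :: (c₀, b₀) :: (L ++ [(c, b₂)])) := by
    intro x hx
    rw [fl_cons (a := a)]
    exact List.mem_cons_of_mem _ (List.mem_cons_of_mem _ hx)
  refine ⟨((a, b₁) :: (c₀, b₀) :: (L ++ [(c, b₂)])).map (fun p => (f p.1, g p.2)),
    ((c₀, b₀) :: (L ++ [(c, b₂)])).map (fun p => (f p.1, g p.2)),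
    ⟨hN, f, g, hf, hg, ?_⟩, ⟨?_, f, g, ?_, ?_, ?_⟩, ?_⟩
  · rw [fl_map]
  · rw [fl_cons (a := a)] at hN
    exact (List.nodup_cons.1 (List.nodup_cons.1 hN).2).2
  · exact fun a b ha hb => hf a b (hmem _ ha) (hmem _ hb)
  · exact fun a b ha hb => hg a b (hmem _ ha) (hmem _ hb)
  · rw [fl_map]
  · apply Relation.EqvGen.rel
    simp only [List.map_cons, List.map_append, List.map_nil] at hnd ⊢
    apply Mv.srow _ _ _ _ _ _ hnd
    have key : ∀ d ∈ ((f a, g b₁) :: (f c₀, g b₀) ::
        (L.map (fun p => (f p.1, g p.2)) ++ [(f c, g b₂)])).map Prod.fst,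
        ∃ x, Sum.inl x ∈ fl ((a, b₁) :: (c₀, b₀) :: (L ++ [(c, b₂)])) ∧ d = f x := by
      intro d hd
      have hd' : d ∈ (((a, b₁) :: (c₀, b₀) :: (L ++ [(c, b₂)])).map
          (fun p => (f p.1, g p.2))).map Prod.fst := by
        simpa using hd
      rw [List.map_map] at hd'
      obtain ⟨q, hq, hq'⟩ := List.mem_map.1 hd'
      exact ⟨q.1, (mem_fl hq).1, hq'.symm⟩
    rcases h with ⟨⟨h1, h2⟩, h3⟩ | ⟨⟨h1, h2⟩, h3⟩
    · right
      refine ⟨?_, ?_⟩
      · intro d hd hcy
        obtain ⟨x, hx, rfl⟩ := key d hd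
        have h4 := hf _ _ ha hc0 h1
        have h5 := h2 x hx
        have h6 : f c₀ < f x ∧ f x < f a := by
          unfold cyc at hcy
          rcases hcy with hcy | hcy | hcy
          · exact hcy
          · exact absurd (lt_trans h4 hcy.2) (lt_irrefl _)
          · exact absurd (lt_trans h4 hcy.1) (lt_irrefl _)
        apply h5
        constructor
        · by_contra h7
          rcases eq_or_lt_of_le (not_lt.1 h7) with h8 | h8
          · rw [h8] at h6
            exact lt_irrefl _ h6.2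
          · exact absurd (lt_trans (hf _ _ hx ha h8) h6.2) (lt_irrefl _)
        · by_contra h7
          rcases eq_or_lt_of_le (not_lt.1 h7) with h8 | h8
          · rw [h8] at h6
            exact lt_irrefl _ h6.1
          · exact absurd (lt_trans (hf _ _ hc0 hx h8) h6.1) (lt_irrefl _)
      · exact cyc_map hg hb2 hb0 hb1 (cyc_rot.1 h3)
    · left
      refine ⟨?_, ?_⟩
      · intro d hd hcy
        obtain ⟨x, hx, rfl⟩ := key d hd
        have h4 := hf _ _ hc0 ha h1
        have h5 := h2 x hx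
        have h6 : f a < f x ∧ f x < f c₀ := by
          unfold cyc at hcy
          rcases hcy with hcy | hcy | hcy
          · exact hcy
          · exact absurd (lt_trans h4 hcy.2) (lt_irrefl _)
          · exact absurd (lt_trans h4 hcy.1) (lt_irrefl _)
        apply h5
        constructor
        · by_contra h7
          rcases eq_or_lt_of_le (not_lt.1 h7) with h8 | h8
          · rw [h8] at h6
            exact lt_irrefl _ h6.2
          · exact absurd (lt_trans (hf _ _ hx hc0 h8) h6.2) (lt_irrefl _)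
        · by_contra h7
          rcases eq_or_lt_of_le (not_lt.1 h7) with h8 | h8
          · rw [h8] at h6
            exact lt_irrefl _ h6.1
          · exact absurd (lt_trans (hf _ _ ha hx h8) h6.1) (lt_irrefl _)
      · exact cyc_map hg hb1 hb0 hb2 h3

end DR2

theorem t_DR2 : Stmt_DR2 := by
  intro hWEB hRPE hCM b₁ c₁ b₂ b₀ c₀ B hA hN hM h
  -- the new position of the column
  obtain ⟨a, haM, hane, hanot, hadj⟩ : ∃ a : Q,
      (∀ c, Btw c₁ a c → Btw c₁ c₀ c) ∧ a ≠ c₁ ∧
      Sum.inl a ∉ (Sum.inl c₁ :: Sum.inr b₁ :: Sum.inl c₀ :: Sum.inr b₀ ::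
        (B ++ [Sum.inr b₂]) : List En) ∧
      (((a < c₀ ∧ ∀ d, Sum.inl d ∈ (Sum.inl a :: Sum.inr b₁ :: Sum.inl c₀ :: Sum.inr b₀ ::
            (B ++ [Sum.inr b₂]) : List En) → ¬ (a < d ∧ d < c₀)) ∧ cyc b₁ b₂ b₀) ∨
      ((c₀ < a ∧ ∀ d, Sum.inl d ∈ (Sum.inl a :: Sum.inr b₁ :: Sum.inl c₀ :: Sum.inr b₀ ::
            (B ++ [Sum.inr b₂]) : List En) → ¬ (c₀ < d ∧ d < a)) ∧ cyc b₁ b₀ b₂)) := by
    rcases h with ⟨h1, h2⟩ | ⟨h1, h2⟩
    · obtain ⟨a, ha1, ha2, ha3⟩ := DR2.near_lt h1 (DR2.cols (Sum.inl c₁ :: Sum.inr b₁ ::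
        Sum.inl c₀ :: Sum.inr b₀ :: (B ++ [Sum.inr b₂])))
      refine ⟨a, ?_, ha1.ne', ?_, Or.inl ⟨⟨ha2, ?_⟩, h2⟩⟩
      · intro c hc
        rcases hc with hc | hc
        · exact Or.inl ⟨hc.1, lt_trans hc.2 ha2⟩
        · exact absurd (lt_trans ha1 (lt_trans hc.1 hc.2)) (lt_irrefl _)
      · intro hmem
        exact lt_irrefl _ (ha3 a (DR2.mem_cols hmem) ha2)
      · intro d hd hlt
        rcases List.mem_cons.1 hd with hd | hd
        · have : d = a := Sum.inl_injective hd
          rw [this] at hlt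
          exact lt_irrefl _ hlt.1
        · exact absurd (lt_trans hlt.1 (ha3 d (DR2.mem_cols (List.mem_cons_of_mem _ hd)) hlt.2))
            (lt_irrefl _)
    · obtain ⟨a, ha1, ha2, ha3⟩ := DR2.near_gt h1 (DR2.cols (Sum.inl c₁ :: Sum.inr b₁ ::
        Sum.inl c₀ :: Sum.inr b₀ :: (B ++ [Sum.inr b₂])))
      refine ⟨a, ?_, ha1.ne, ?_, Or.inr ⟨⟨ha2, ?_⟩, h2⟩⟩
      · intro c hc
        rcases hc with hc | hc
        · exact absurd (lt_trans ha1 (lt_trans hc.1 hc.2)) (lt_irrefl _)
        · exact Or.inr ⟨lt_trans ha2 hc.1, hc.2⟩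
      · intro hmem
        exact lt_irrefl _ (ha3 a (DR2.mem_cols hmem) ha2)
      · intro d hd hlt
        rcases List.mem_cons.1 hd with hd | hd
        · have : d = a := Sum.inl_injective hd
          rw [this] at hlt
          exact lt_irrefl _ hlt.2
        · exact absurd (lt_trans (ha3 d (DR2.mem_cols (List.mem_cons_of_mem _ hd)) hlt.1) hlt.2)
            (lt_irrefl _)
  have hN' : (Sum.inl a :: .inr b₁ :: .inl c₀ :: .inr b₀ :: (B ++ [.inr b₂]) : List En).Nodup := by
    refine List.nodup_cons.2 ⟨fun hmem => hanot (List.mem_cons_of_mem _ hmem), ?_⟩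
    exact (List.nodup_cons.1 hN).2
  have hA' : Alt (.inl a :: .inr b₁ :: .inl c₀ :: .inr b₀ :: (B ++ [.inr b₂])) :=
    DR2.alt_of_map (by simp) hA
  have hcm := hCM c₁ a b₂ b₁ (.inl c₀ :: .inr b₀ :: B) hA hN
    (fun hmem => hanot (by
      simp only [List.mem_cons, List.mem_append] at hmem ⊢
      tauto)) hane
    (fun c r hcr hbt => by
      rw [Set.uIcc_comm]
      exact hM c r hcr (haM c hbt))
  exact hWEB.trans _ _ _ hcm (DR2.main hRPE a b₁ c₀ b₀ b₂ B hA' hN' hadj)

end LH
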