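import Pool.Agent.LH.Stmts2

/-!
# Part C: good sets of lines
-/

namespace LH

open Set LG

theorem t_EGX : Stmt_EGX := by
  intro hEV hFG N P hN hE F hF
  classical
  have hfin := hEV P hN
  have hx : ∀ i, P.x i ∈ Ev P := fun i => Or.inl ⟨i, rfl⟩
  have hg : ∀ s t : ℝ, ∃ g : ℝ, s < t → s < g ∧ g < t ∧ g ∉ Ev P := by
    intro s t
    by_cases h : s < t
    · obtain ⟨g, hg1, hg2⟩ := ((Ioo_infinite h).sdiff hfin).nonempty
      exact ⟨g, fun _ => ⟨hg1.1, hg1.2, hg2⟩⟩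
    · exact ⟨0, fun h' => absurd h' h⟩
  choose g hg using hg
  have hne : hfin.toFinset.Nonempty := ⟨P.x 0, hfin.mem_toFinset.2 (hx 0)⟩
  obtain ⟨E, hEdef⟩ : ∃ E, E = hfin.toFinset := ⟨_, rfl⟩
  rw [← hEdef] at hne
  have hmE : ∀ t, t ∈ E ↔ t ∈ Ev P := fun t => by rw [hEdef, hfin.mem_toFinset]
  obtain ⟨a, ha⟩ : ∃ a, a = E.min' hne - 1 := ⟨_, rfl⟩
  obtain ⟨b, hb⟩ : ∃ b, b = E.max' hne + 1 := ⟨_, rfl⟩
  have ha' : ∀ t ∈ Ev P, a < t := fun t ht => by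
    have := E.min'_le t ((hmE t).2 ht)
    linarith
  have hb' : ∀ t ∈ Ev P, t < b := fun t ht => by
    have := E.le_max' t ((hmE t).2 ht)
    linarith
  obtain ⟨G, hG⟩ : ∃ G, G = ((E ×ˢ E).filter fun p => p.1 < p.2).image fun p => g p.1 p.2 :=
    ⟨_, rfl⟩
  have hmG : ∀ s ∈ Ev P, ∀ t ∈ Ev P, s < t → g s t ∈ G := by
    intro s hs t ht hst
    rw [hG, Finset.mem_image]
    exact ⟨(s, t), Finset.mem_filter.2 ⟨Finset.mem_product.2 ⟨(hmE s).2 hs, (hmE t).2 ht⟩, hst⟩,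
      rfl⟩
  obtain ⟨X, hX⟩ : ∃ X, X = F ∪ insert a (insert b G) := ⟨_, rfl⟩
  have hFX : F ⊆ X := by
    rw [hX]
    exact Finset.subset_union_left
  have haX : a ∈ X := by
    rw [hX]
    exact Finset.mem_union_right _ (Finset.mem_insert_self _ _)
  have hbX : b ∈ X := by
    rw [hX]
    exact Finset.mem_union_right _ (Finset.mem_insert_of_mem (Finset.mem_insert_self _ _))
  have hGX : ∀ s ∈ G, s ∈ X := by
    intro s hs
    rw [hX]
    exact Finset.mem_union_right _ (Finset.mem_insert_of_mem (Finset.mem_insert_of_mem hs))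
  have hXE : ∀ s ∈ X, s ∉ Ev P := by
    intro s hs
    rw [hX, Finset.mem_union, Finset.mem_insert, Finset.mem_insert] at hs
    rcases hs with hs | rfl | rfl | hs
    · exact hF s hs
    · exact fun h => lt_irrefl _ (ha' _ h)
    · exact fun h => lt_irrefl _ (hb' _ h)
    · rw [hG, Finset.mem_image] at hs
      obtain ⟨p, hp, rfl⟩ := hs
      exact (hg p.1 p.2 (Finset.mem_filter.1 hp).2).2.2
  refine ⟨X, hFX, ⟨⟨a, haX, fun i => ha' _ (hx i)⟩, ⟨b, hbX, fun i => hb' _ (hx i)⟩, ?_⟩, hXE, ?_⟩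
  · rintro s t ⟨hs, ht, hst, hn⟩
    refine hFG P s t hN hE hst (hXE s hs) (hXE t ht) ?_
    intro u v hu hv h1 h2 h3 h4
    rcases lt_trichotomy u v with h | h | h
    · have h5 := hg u v h
      exact absurd ⟨h1.trans h5.1, h5.2.1.trans h4⟩ (hn _ (hGX _ (hmG u hu v hv h)))
    · exact h
    · have h5 := hg v u h
      exact absurd ⟨h3.trans h5.1, h5.2.1.trans h2⟩ (hn _ (hGX _ (hmG v hv u hu h)))
  · obtain ⟨i, hi⟩ := hE.nc
    rcases lt_or_gt_of_ne hi with h | h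
    · have h5 := hg _ _ h
      exact ⟨_, hGX _ (hmG _ (hx i) _ (hx 0) h), i, 0, h5.1, h5.2.1⟩
    · have h5 := hg _ _ h
      exact ⟨_, hGX _ (hmG _ (hx 0) _ (hx i) h), 0, i, h5.1, h5.2.1⟩

end LH
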