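import Pool.Agent.LH.Stmts2

/-!
# The set of events of a polygon is finite
-/

namespace LH

open Set LG

namespace EVF

theorem red (h : P_PGB) {N : ℕ} (P : Pg N) (hN : 0 < N) (i : ℤ) :
    ∃ i0 ∈ Ico (0 : ℤ) N, P.x i = P.x i0 ∧ P.y i = P.y i0 ∧ ∀ t, P.l i t = P.l i0 t := by
  have hN' : (0 : ℤ) < N := by exact_mod_cast hN
  obtain ⟨h1, h2, _, h4⟩ := h.sh P (i % N) (i / N)
  have e : i % N + i / N * N = i := by
    rw [mul_comm]; exact Int.emod_add_mul_ediv i N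
  rw [e] at h1 h2 h4
  exact ⟨i % N, ⟨Int.emod_nonneg i hN'.ne', Int.emod_lt_of_pos i hN'⟩, h1, h2, h4⟩

/-- The meeting points of two lines. -/
def M2 {N : ℕ} (P : Pg N) (i j : ℤ) : Set ℝ := {t | P.y i ≠ P.y j ∧ P.l i t = P.l j t}

theorem sub {N : ℕ} (P : Pg N) (i j : ℤ) : (M2 P i j).Subsingleton := by
  rintro s ⟨hy, hs⟩ t ⟨-, ht⟩
  unfold Pg.l at hs ht
  have h1 : (P.y i - P.y j) * (s - t) = 0 := by linarith
  rcases mul_eq_zero.1 h1 with h2 | h2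
  · exact absurd (sub_eq_zero.1 h2) hy
  · exact sub_eq_zero.1 h2

end EVF

theorem t_EVF : Stmt_EVF := by
  intro h N P hN
  have hfin : (Ico (0 : ℤ) N).Finite := finite_Ico _ _
  have h1 : (P.x '' Ico (0 : ℤ) N).Finite := hfin.image _
  have h2 : (⋃ i ∈ Ico (0 : ℤ) N, ⋃ j ∈ Ico (0 : ℤ) N, EVF.M2 P i j).Finite :=
    hfin.biUnion fun i _ => hfin.biUnion fun j _ => (EVF.sub P i j).finite
  refine (h1.union h2).subset ?_
  rintro t (⟨i, hi⟩ | ⟨i, j, hy, hl⟩)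
  · obtain ⟨i0, hi0, hx, -, -⟩ := EVF.red h P hN i
    exact Or.inl ⟨i0, hi0, by rw [← hx, hi]⟩
  · obtain ⟨i0, hi0, -, hyi, hli⟩ := EVF.red h P hN i
    obtain ⟨j0, hj0, -, hyj, hlj⟩ := EVF.red h P hN j
    refine Or.inr (mem_iUnion₂.2 ⟨i0, hi0, mem_iUnion₂.2 ⟨j0, hj0, ?_, ?_⟩⟩)
    · rw [← hyi, ← hyj]; exact hy
    · rw [← hli, ← hlj]; exact hl

end LH
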