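import Pool.Agent.LH.Stmts2

/-!
# EWP: the walk without the line `s` is a walk with the lines `Y.erase s`
-/

namespace LH

namespace EWP

open Set LG

variable {N : ℕ}

theorem adj_left {Y : Finset ℝ} {a s x : ℝ} (h : AdjX Y a s) (h' : AdjX Y x s) : x = a := by
  obtain ⟨h1, _, h3, h4⟩ := h
  obtain ⟨k1, _, k3, k4⟩ := h'
  rcases lt_trichotomy x a with hx | hx | hx
  · exact absurd ⟨hx, h3⟩ (k4 a h1)
  · exact hx
  · exact absurd ⟨hx, k3⟩ (h4 x k1)

theorem adj_right {Y : Finset ℝ} {s d x : ℝ} (h : AdjX Y s d) (h' : AdjX Y s x) : x = d := by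
  obtain ⟨_, h2, h3, h4⟩ := h
  obtain ⟨_, k2, k3, k4⟩ := h'
  rcases lt_trichotomy x d with hx | hx | hx
  · exact absurd ⟨k3, hx⟩ (h4 x k2)
  · exact hx
  · exact absurd ⟨h3, hx⟩ (k4 d h2)

theorem adj_new {Y : Finset ℝ} {a s d : ℝ} (h : AdjX Y a s) (h' : AdjX Y s d) :
    AdjX (Y.erase s) a d := by
  obtain ⟨h1, h2, h3, h4⟩ := h
  obtain ⟨k1, k2, k3, k4⟩ := h'
  refine ⟨Finset.mem_erase.2 ⟨h3.ne, h1⟩, Finset.mem_erase.2 ⟨k3.ne', k2⟩, h3.trans k3, ?_⟩
  intro t ht hh
  obtain ⟨ht1, ht2⟩ := Finset.mem_erase.1 ht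
  rcases lt_or_gt_of_ne ht1 with hx | hx
  · exact h4 t ht2 ⟨hh.1, hx⟩
  · exact k4 t ht2 ⟨hx, hh.2⟩

theorem adj_erase {Y : Finset ℝ} {s x y : ℝ} (h : AdjX Y x y) (hx : x ≠ s) (hy : y ≠ s) :
    AdjX (Y.erase s) x y := by
  obtain ⟨h1, h2, h3, h4⟩ := h
  exact ⟨Finset.mem_erase.2 ⟨hx, h1⟩, Finset.mem_erase.2 ⟨hy, h2⟩, h3,
    fun t ht => h4 t (Finset.mem_of_mem_erase ht)⟩

theorem ri1_ne {a s d : ℝ} {i : It} (h : i.t ≠ s) : ri1 a s d i = some i := by
  simp [ri1, h]

/-- The three possibilities for `ri1`. -/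
theorem ri1_cases (a s d : ℝ) (i : It) :
    (i.t ≠ s ∧ ri1 a s d i = some i) ∨
      (i.t = s ∧ i.k = .R ∧ ri1 a s d i = some ⟨.R, d, i.e⟩) ∨
      (i.t = s ∧ i.k = .L ∧ ri1 a s d i = some ⟨.L, a, i.e⟩) ∨
      (i.t = s ∧ (i.k = .rt ∨ i.k = .lt) ∧ ri1 a s d i = none) := by
  by_cases h : i.t = s
  · obtain ⟨k, t, e⟩ := i
    cases k <;> simp_all [ri1]
  · left; exact ⟨h, ri1_ne h⟩

/-- Direction of a link ending at the line `s`. -/
theorem link_to {P : Pg N} {Y : Finset ℝ} {a s d : ℝ} (hl : AdjX Y a s) (hr : AdjX Y s d)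
    {i j : It} (h : Lnk P Y i j) (hj : j.t = s) :
    (i.t = a ∧ i.k.fw ∧ j.k.ar) ∨ (i.t = d ∧ ¬ i.k.fw ∧ ¬ j.k.ar) := by
  have hadj := h.adj
  rw [hj] at hadj
  rcases h.dir with ⟨h1, h2, h3⟩ | ⟨h1, h2, h3⟩
  · rw [hj] at h3
    rcases hadj with ha | ha
    · exact Or.inl ⟨adj_left hl ha, h1, h2⟩
    · exact absurd ha.2.2.1 (not_lt.2 h3.le)
  · rw [hj] at h3
    rcases hadj with ha | ha
    · exact absurd ha.2.2.1 (not_lt.2 h3.le)
    · exact Or.inr ⟨adj_right hr ha, h1, h2⟩

/-- Direction of a link starting at the line `s`. -/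
theorem link_from {P : Pg N} {Y : Finset ℝ} {a s d : ℝ} (hl : AdjX Y a s) (hr : AdjX Y s d)
    {i j : It} (h : Lnk P Y i j) (hi : i.t = s) :
    (j.t = d ∧ i.k.fw ∧ j.k.ar) ∨ (j.t = a ∧ ¬ i.k.fw ∧ ¬ j.k.ar) := by
  have hadj := h.adj
  rw [hi] at hadj
  rcases h.dir with ⟨h1, h2, h3⟩ | ⟨h1, h2, h3⟩
  · rw [hi] at h3
    rcases hadj with ha | ha
    · exact Or.inl ⟨adj_right hr ha, h1, h2⟩
    · exact absurd ha.2.2.1 (not_lt.2 h3.le)
  · rw [hi] at h3
    rcases hadj with ha | ha
    · exact absurd ha.2.2.1 (not_lt.2 h3.le)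
    · exact Or.inr ⟨adj_left hl ha, h1, h2⟩

theorem btw_symm {x y z : ℝ} (h : Btw x y z) : Btw y x z := Or.symm h

theorem btw_as {a s d x : ℝ} (hl : a < s) (hr : s < d) (h : Btw a s x) : Btw a d x := by
  unfold Btw at *
  rcases h with ⟨h1, h2⟩ | ⟨h1, h2⟩
  · exact Or.inl ⟨h1, h2.trans hr⟩
  · exact absurd (h1.trans h2) (not_lt.2 hl.le)

theorem btw_sd {a s d x : ℝ} (hl : a < s) (hr : s < d) (h : Btw s d x) : Btw a d x := by
  unfold Btw at *
  rcases h with ⟨h1, h2⟩ | ⟨h1, h2⟩
  · exact Or.inl ⟨hl.trans h1, h2⟩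
  · exact absurd (h1.trans h2) (not_lt.2 hr.le)

theorem L1 {P : Pg N} {Y : Finset ℝ} {a s d : ℝ} (hl : AdjX Y a s) (hr : AdjX Y s d)
    {i j i' j' : It} (h : Lnk P Y i j) (hi : ri1 a s d i = some i') (hj : ri1 a s d j = some j') :
    Lnk P (Y.erase s) i' j' := by
  have has := hl.2.2.1
  have hsd := hr.2.2.1
  have hn := adj_new hl hr
  rcases ri1_cases a s d i with ⟨h1, h2⟩ | ⟨h1, h1k, h2⟩ | ⟨h1, h1k, h2⟩ | ⟨h1, h1k, h2⟩
  · rw [h2, Option.some_inj] at hi
    subst hi
    rcases ri1_cases a s d j with ⟨k1, k2⟩ | ⟨k1, k1k, k2⟩ | ⟨k1, k1k, k2⟩ | ⟨k1, k1k, k2⟩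
    · rw [k2, Option.some_inj] at hj
      subst hj
      exact ⟨h.le, h.tl, h.adj.imp (fun x => adj_erase x h1 k1) (fun x => adj_erase x k1 h1),
        h.ins, h.dir⟩
    · rw [k2, Option.some_inj] at hj
      subst hj
      rcases link_to hl hr h k1 with ⟨e1, e2, e3⟩ | ⟨e1, e2, e3⟩
      · refine ⟨h.le, h.tl, Or.inl ?_, ?_, Or.inl ⟨e2, trivial, ?_⟩⟩
        · simp only [e1]; exact hn
        · intro m hm1 hm2
          have := h.ins m hm1 hm2
          rw [e1, k1] at this
          simp only [e1]
          exact btw_as has hsd this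
        · simp only [e1]; exact has.trans hsd
      · rw [k1k] at e3
        exact absurd trivial e3
    · rw [k2, Option.some_inj] at hj
      subst hj
      rcases link_to hl hr h k1 with ⟨e1, e2, e3⟩ | ⟨e1, e2, e3⟩
      · rw [k1k] at e3
        exact e3.elim
      · refine ⟨h.le, h.tl, Or.inr ?_, ?_, Or.inr ⟨e2, fun x => x, ?_⟩⟩
        · simp only [e1]; exact hn
        · intro m hm1 hm2
          have := h.ins m hm1 hm2
          rw [e1, k1] at this
          simp only [e1]
          exact btw_symm (btw_sd has hsd (btw_symm this))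
        · simp only [e1]; exact has.trans hsd
    · rw [k2] at hj
      exact absurd hj (by simp)
  · rw [h2, Option.some_inj] at hi
    subst hi
    rcases link_from hl hr h h1 with ⟨e1, e2, e3⟩ | ⟨e1, e2, e3⟩
    · rw [h1k] at e2
      exact e2.elim
    · have hjs : j.t ≠ s := by rw [e1]; exact has.ne
      rw [ri1_ne hjs, Option.some_inj] at hj
      subst hj
      refine ⟨h.le, fun _ => h.tl (Or.inl h1k), Or.inr ?_, ?_, Or.inr ⟨fun x => x, e3, ?_⟩⟩
      · simp only [e1]; exact hn
      · intro m hm1 hm2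
        have := h.ins m hm1 hm2
        rw [e1, h1] at this
        simp only [e1]
        exact btw_symm (btw_as has hsd (btw_symm this))
      · simp only [e1]; exact has.trans hsd
  · rw [h2, Option.some_inj] at hi
    subst hi
    rcases link_from hl hr h h1 with ⟨e1, e2, e3⟩ | ⟨e1, e2, e3⟩
    · have hjs : j.t ≠ s := by rw [e1]; exact hsd.ne'
      rw [ri1_ne hjs, Option.some_inj] at hj
      subst hj
      refine ⟨h.le, fun _ => h.tl (Or.inr h1k), Or.inl ?_, ?_, Or.inl ⟨trivial, e3, ?_⟩⟩
      · simp only [e1]; exact hn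
      · intro m hm1 hm2
        have := h.ins m hm1 hm2
        rw [e1, h1] at this
        simp only [e1]
        exact btw_sd has hsd this
      · simp only [e1]; exact has.trans hsd
    · rw [h1k] at e2
      exact absurd trivial e2
  · rw [h2] at hi
    exact absurd hi (by simp)

theorem L2 {P : Pg N} {Y : Finset ℝ} {a s d : ℝ} (hl : AdjX Y a s) (hr : AdjX Y s d)
    {i u j : It} (h : Lnk P Y i u) (h' : Lnk P Y u j) (hu : ri1 a s d u = none) :
    ri1 a s d i = some i ∧ ri1 a s d j = some j ∧ Lnk P (Y.erase s) i j := by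
  have has := hl.2.2.1
  have hsd := hr.2.2.1
  have hn := adj_new hl hr
  rcases ri1_cases a s d u with ⟨k1, k2⟩ | ⟨k1, k1k, k2⟩ | ⟨k1, k1k, k2⟩ | ⟨k1, k1k, k2⟩
  · rw [k2] at hu; exact absurd hu (by simp)
  · rw [k2] at hu; exact absurd hu (by simp)
  · rw [k2] at hu; exact absurd hu (by simp)
  · rcases link_to hl hr h k1 with ⟨e1, e2, e3⟩ | ⟨e1, e2, e3⟩
    · rcases link_from hl hr h' k1 with ⟨f1, f2, f3⟩ | ⟨f1, f2, f3⟩
      · have his : i.t ≠ s := by rw [e1]; exact has.ne
        have hjs : j.t ≠ s := by rw [f1]; exact hsd.ne'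
        refine ⟨ri1_ne his, ri1_ne hjs, h.le.trans h'.le, fun x => (h.tl x).trans_le h'.le,
          Or.inl ?_, ?_, Or.inl ⟨e2, f3, ?_⟩⟩
        · rw [e1, f1]; exact hn
        · intro m hm1 hm2
          rw [e1, f1]
          rcases le_or_gt m u.e with hm | hm
          · have := h.ins m hm1 hm
            rw [e1, k1] at this
            exact btw_as has hsd this
          · have := h'.ins m hm hm2
            rw [f1, k1] at this
            exact btw_sd has hsd this
        · rw [e1, f1]; exact has.trans hsd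
      · exfalso
        rcases k1k with hk | hk
        · rw [hk] at f2; exact f2 trivial
        · rw [hk] at e3; exact e3
    · rcases link_from hl hr h' k1 with ⟨f1, f2, f3⟩ | ⟨f1, f2, f3⟩
      · exfalso
        rcases k1k with hk | hk
        · rw [hk] at e3; exact e3 trivial
        · rw [hk] at f2; exact f2
      · have his : i.t ≠ s := by rw [e1]; exact hsd.ne'
        have hjs : j.t ≠ s := by rw [f1]; exact has.ne
        refine ⟨ri1_ne his, ri1_ne hjs, h.le.trans h'.le, fun x => (h.tl x).trans_le h'.le,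
          Or.inr ?_, ?_, Or.inr ⟨e2, f3, ?_⟩⟩
        · rw [e1, f1]; exact hn
        · intro m hm1 hm2
          rw [e1, f1]
          rcases le_or_gt m u.e with hm | hm
          · have := h.ins m hm1 hm
            rw [e1, k1] at this
            exact btw_symm (btw_sd has hsd (btw_symm this))
          · have := h'.ins m hm hm2
            rw [f1, k1] at this
            exact btw_symm (btw_as has hsd (btw_symm this))
        · rw [e1, f1]; exact has.trans hsd

theorem chain {P : Pg N} {Y : Finset ℝ} {a s d : ℝ} (hl : AdjX Y a s) (hr : AdjX Y s d) :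
    ∀ (n : ℕ) (l : List It), l.length ≤ n → ∀ i i' : It, List.IsChain (Lnk P Y) (i :: l) →
      ri1 a s d i = some i' → ri1 a s d ((i :: l).getLast (by simp)) ≠ none →
      List.IsChain (Lnk P (Y.erase s)) ((i :: l).filterMap (ri1 a s d))
  | n, [], _, i, i', _, hi, _ => by
      rw [List.filterMap_cons_some hi]
      simp
  | 0, _ :: _, hn, _, _, _, _, _ => by simp at hn
  | n + 1, j :: l, hn, i, i', hc, hi, hlast => by
      obtain ⟨h1, h2⟩ := List.isChain_cons_cons.1 hc
      have hlast' : ri1 a s d ((j :: l).getLast (by simp)) ≠ none := by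
        simpa using hlast
      cases hj : ri1 a s d j with
      | some j' =>
          have ih := chain hl hr n l (by simp at hn; omega) j j' h2 hj hlast'
          rw [List.filterMap_cons_some hi]
          rw [List.filterMap_cons_some hj] at ih ⊢
          exact List.isChain_cons_cons.2 ⟨L1 hl hr h1 hi hj, ih⟩
      | none =>
          cases l with
          | nil => exact absurd hj (by simpa using hlast')
          | cons k l =>
              obtain ⟨h3, h4⟩ := List.isChain_cons_cons.1 h2
              obtain ⟨g1, g2, g3⟩ := L2 hl hr h1 h3 hj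
              have hlast'' : ri1 a s d ((k :: l).getLast (by simp)) ≠ none := by
                simpa using hlast'
              have ih := chain hl hr n l (by simp at hn; omega) k k h4 g2 hlast''
              rw [List.filterMap_cons_some hi, List.filterMap_cons_none hj]
              rw [List.filterMap_cons_some g2] at ih ⊢
              rw [g1, Option.some_inj] at hi
              subst hi
              exact List.isChain_cons_cons.2 ⟨g3, ih⟩

theorem ri1_sh (a s d : ℝ) (i : It) : ri1 a s d (i.sh N) = (ri1 a s d i).map (It.sh N) := by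
  obtain ⟨k, t, e⟩ := i
  by_cases h : t = s
  · cases k <;> simp [ri1, h, It.sh]
  · simp [ri1, h, It.sh]

theorem lnk_sh {P : Pg N} {Y : Finset ℝ} {i j : It} (h : Lnk P Y i j) :
    Lnk P Y (i.sh N) (j.sh N) := by
  refine ⟨?_, ?_, h.adj, ?_, h.dir⟩
  · have := h.le
    simp only [It.sh]; omega
  · intro hk
    have := h.tl hk
    simp only [It.sh]; omega
  · intro m hm1 hm2
    simp only [It.sh] at hm1 hm2 ⊢
    have := h.ins (m - N) (by omega) (by omega)
    rw [← P.px (m - N), sub_add_cancel] at this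
    exact this

theorem ok_ri {P : Pg N} {a s d : ℝ} {i i' : It} (h : ItOK P i) (hi : ri1 a s d i = some i') :
    ItOK P i' := by
  rcases ri1_cases a s d i with ⟨h1, h2⟩ | ⟨h1, h1k, h2⟩ | ⟨h1, h1k, h2⟩ | ⟨h1, h1k, h2⟩
  · rw [h2, Option.some_inj] at hi; subst hi; exact h
  · rw [h2, Option.some_inj] at hi; subst hi
    exact ⟨fun x => by simp at x, fun x => by simp at x⟩
  · rw [h2, Option.some_inj] at hi; subst hi
    exact ⟨fun x => by simp at x, fun x => by simp at x⟩
  · rw [h2] at hi; exact absurd hi (by simp)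

end EWP

open EWP in
theorem t_EWP : Stmt_EWP := by
  intro hSEQ N P a b s d Y w W hS _
  obtain ⟨i, w', rfl, hok, hch⟩ := hSEQ.ew P Y w W hS.sq
  have hl := hS.l
  have hr := hS.r
  have hok' : ∀ j ∈ riv a s d (i :: w'), ItOK P j := by
    intro j hj
    obtain ⟨k, hk, hkj⟩ := List.mem_filterMap.1 hj
    exact ok_ri (hok k hk) hkj
  cases hi : ri1 a s d i with
  | some i' =>
      have hsh : ri1 a s d (i.sh N) = some (i'.sh N) := by rw [ri1_sh, hi]; rfl
      have hc := chain hl hr _ (w' ++ [i.sh N]) le_rfl i i' (by simpa using hch) hi (by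
        have : (i :: (w' ++ [i.sh N])).getLast (by simp) = i.sh N := by simp
        rw [this, hsh]; simp)
      refine ⟨i', riv a s d w', ?_, hok', ?_⟩
      · unfold riv; rw [List.filterMap_cons_some hi]
      · have e : (i :: (w' ++ [i.sh N])).filterMap (ri1 a s d) =
            riv a s d (i :: w') ++ [i'.sh N] := by
          unfold riv
          rw [← List.cons_append, List.filterMap_append, List.filterMap_cons_some hsh]
          simp
        rw [e] at hc
        exact hc
  | none =>
      cases w' with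
      | nil =>
          exfalso
          have h : Lnk P Y i (i.sh N) := by simpa using hch
          rcases h.dir with ⟨_, _, h3⟩ | ⟨_, _, h3⟩
          · exact absurd h3 (lt_irrefl _)
          · exact absurd h3 (lt_irrefl _)
      | cons j w' =>
          have hch' : List.IsChain (Lnk P Y) (i :: j :: (w' ++ [i.sh N])) := by simpa using hch
          obtain ⟨h1, h2⟩ := List.isChain_cons_cons.1 hch'
          have hsi : ri1 a s d (i.sh N) = none := by rw [ri1_sh, hi]; rfl
          -- the item `j` survives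
          have hits : i.t = s := by
            rcases ri1_cases a s d i with ⟨_, h2⟩ | ⟨h1, _, _⟩ | ⟨h1, _, _⟩ | ⟨h1, _, _⟩
            · rw [h2] at hi; exact absurd hi (by simp)
            · exact h1
            · exact h1
            · exact h1
          have hjs : j.t ≠ s := by
            intro hj
            rcases h1.dir with ⟨_, _, h3⟩ | ⟨_, _, h3⟩
            · rw [hj, hits] at h3; exact absurd h3 (lt_irrefl _)
            · rw [hj, hits] at h3; exact absurd h3 (lt_irrefl _)
          have hj : ri1 a s d j = some j := ri1_ne hjs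
          have hsj : ri1 a s d (j.sh N) = some (j.sh N) := by rw [ri1_sh, hj]; rfl
          have hlong : List.IsChain (Lnk P Y) (j :: (w' ++ [i.sh N, j.sh N])) := by
            have e : j :: (w' ++ [i.sh N, j.sh N]) = (j :: (w' ++ [i.sh N])) ++ [j.sh N] := by
              simp
            rw [e]
            rw [List.isChain_append]
            refine ⟨h2, by simp, ?_⟩
            intro x hx y hy
            have hx' : x = i.sh N := by
              have : (j :: (w' ++ [i.sh N])).getLast? = some (i.sh N) := by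
                rw [← List.cons_append, List.getLast?_append]
                simp
              rw [this] at hx
              exact (Option.mem_some.1 hx).symm
            have hy' : y = j.sh N := by simpa using hy.symm
            rw [hx', hy']
            exact lnk_sh h1
          have hc := chain hl hr _ (w' ++ [i.sh N, j.sh N]) le_rfl j j hlong hj (by
            have : (j :: (w' ++ [i.sh N, j.sh N])).getLast (by simp) = j.sh N := by simp
            rw [this, hsj]; simp)
          refine ⟨j, riv a s d w', ?_, hok', ?_⟩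
          · unfold riv
            rw [List.filterMap_cons_none hi, List.filterMap_cons_some hj]
          · have e : (j :: (w' ++ [i.sh N, j.sh N])).filterMap (ri1 a s d) =
                riv a s d (i :: j :: w') ++ [j.sh N] := by
              unfold riv
              rw [List.filterMap_cons_none hi, ← List.cons_append, List.filterMap_append,
                List.filterMap_cons_none hsi, List.filterMap_cons_some hsj]
              simp
            rw [e] at hc
            exact hc

end LH
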