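import Pool.Agent.LH.Stmts2

/-!
# EXW: walks exist
-/

namespace LH

open Set LG

namespace EXW

variable {N : ℕ} {P : Pg N} {Y : Finset ℝ}

/-- Linked items with the conditions of a walk. -/
def RR (P : Pg N) (Y : Finset ℝ) (u v : It) : Prop :=
  ItOK P u ∧ Lnk P Y u v ∧ ¬ ((u.k = .R ∨ u.k = .L) ∧ (v.k = .R ∨ v.k = .L))

/-- A crossing. -/
def Cr (P : Pg N) (Y : Finset ℝ) (u : It) : Prop :=
  u.t ∈ Y ∧ (u.k = .rt ∧ P.x u.e < u.t ∧ u.t < P.x (u.e + 1) ∨
    u.k = .lt ∧ P.x (u.e + 1) < u.t ∧ u.t < P.x u.e)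

/-- The order of the crossings. -/
noncomputable def key (u : It) : ℤ ×ₗ ℝ := toLex (u.e, if u.k = .rt then u.t else -u.t)

theorem klt {u v : It} : key u < key v ↔ u.e < v.e ∨ u.e = v.e ∧
    (if u.k = .rt then u.t else -u.t) < (if v.k = .rt then v.t else -v.t) :=
  Prod.Lex.toLex_lt_toLex

theorem nxt_up (t : ℝ) (h : ∃ b ∈ Y, t < b) :
    ∃ b ∈ Y, t < b ∧ ∀ y ∈ Y, ¬ (t < y ∧ y < b) := by
  classical
  obtain ⟨b₀, hb₀, hb₀'⟩ := h
  obtain ⟨b, hb, hm⟩ := Finset.exists_min_image (Y.filter (fun y => t < y)) id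
    ⟨b₀, Finset.mem_filter.mpr ⟨hb₀, hb₀'⟩⟩
  rw [Finset.mem_filter] at hb
  refine ⟨b, hb.1, hb.2, ?_⟩
  rintro y hy ⟨h1, h2⟩
  exact absurd (hm y (Finset.mem_filter.mpr ⟨hy, h1⟩)) (not_le.mpr h2)

theorem nxt_dn (t : ℝ) (h : ∃ b ∈ Y, b < t) :
    ∃ b ∈ Y, b < t ∧ ∀ y ∈ Y, ¬ (b < y ∧ y < t) := by
  classical
  obtain ⟨b₀, hb₀, hb₀'⟩ := h
  obtain ⟨b, hb, hm⟩ := Finset.exists_max_image (Y.filter (fun y => y < t)) id
    ⟨b₀, Finset.mem_filter.mpr ⟨hb₀, hb₀'⟩⟩
  rw [Finset.mem_filter] at hb
  refine ⟨b, hb.1, hb.2, ?_⟩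
  rintro y hy ⟨h1, h2⟩
  exact absurd (hm y (Finset.mem_filter.mpr ⟨hy, h2⟩)) (not_le.mpr h1)

theorem step_rt (hY : ∀ s ∈ Y, ∀ i, P.x i ≠ s) (hhi : ∃ b ∈ Y, ∀ i, P.x i < b) {i j : It}
    (hiY : i.t ∈ Y) (hk : i.k = .rt) (h1 : P.x i.e < i.t) (h2 : i.t < P.x (i.e + 1))
    (hj : Cr P Y j) (hlt : key i < key j)
    (hno : ∀ u, Cr P Y u → key i < key u → key u < key j → False) :
    Relation.TransGen (RR P Y) i j := by
  obtain ⟨b, hbY, hb⟩ := hhi
  obtain ⟨t', ht', h3, h4⟩ := nxt_up (Y := Y) i.t ⟨b, hbY, h2.trans (hb _)⟩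
  have hv : ∀ m, i.e + 1 ≤ m → m ≤ j.e → i.t < P.x m ∧ P.x m < t' := by
    intro m hm
    induction m, hm using Int.le_induction with
    | base =>
      intro hmj
      refine ⟨h2, ?_⟩
      by_contra hc
      have hc' : t' < P.x (i.e + 1) := lt_of_le_of_ne (not_lt.mp hc) (hY _ ht' _).symm
      refine hno ⟨.rt, t', i.e⟩ ⟨ht', Or.inl ⟨rfl, h1.trans h3, hc'⟩⟩ ?_ ?_
      · rw [klt]
        right
        simp [hk, h3]
      · rw [klt]
        left
        change i.e < j.e
        omega
    | succ m hm ih =>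
      intro hmj
      obtain ⟨a1, a2⟩ := ih (by omega)
      constructor
      · by_contra hc
        have hc' : P.x (m + 1) < i.t := lt_of_le_of_ne (not_lt.mp hc) (hY _ hiY _)
        refine hno ⟨.lt, i.t, m⟩ ⟨hiY, Or.inr ⟨rfl, hc', a1⟩⟩ ?_ ?_
        · rw [klt]
          left
          change i.e < m
          omega
        · rw [klt]
          left
          change m < j.e
          omega
      · by_contra hc
        have hc' : t' < P.x (m + 1) := lt_of_le_of_ne (not_lt.mp hc) (hY _ ht' _).symm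
        refine hno ⟨.rt, t', m⟩ ⟨ht', Or.inl ⟨rfl, a2, hc'⟩⟩ ?_ ?_
        · rw [klt]
          left
          change i.e < m
          omega
        · rw [klt]
          left
          change m < j.e
          omega
  have hij : i.e ≤ j.e := by
    rcases klt.mp hlt with h | h
    · exact h.le
    · exact h.1.le
  have hadj : AdjX Y i.t t' := ⟨hiY, ht', h3, h4⟩
  rcases hj with ⟨hjY, ⟨hjk, g1, g2⟩ | ⟨hjk, g1, g2⟩⟩
  · -- the next crossing goes to the right
    have e1 : i.t < j.t := by
      rcases klt.mp hlt with h | h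
      · exact (hv j.e (by omega) (le_refl _)).1.trans g1
      · have := h.2
        rwa [if_pos hk, if_pos hjk] at this
    have e2 : t' ≤ j.t := by
      by_contra hc
      exact h4 j.t hjY ⟨e1, not_le.mp hc⟩
    have e3 : P.x j.e < t' := by
      rcases hij.lt_or_eq with h | h
      · exact (hv j.e (by omega) (le_refl _)).2
      · rw [← h]
        exact h1.trans h3
    have e4 : j.t = t' := by
      by_contra hc
      have hc' : t' < j.t := lt_of_le_of_ne e2 (Ne.symm hc)
      refine hno ⟨.rt, t', j.e⟩ ⟨ht', Or.inl ⟨rfl, e3, hc'.trans g2⟩⟩ ?_ ?_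
      · rw [klt]
        rcases hij.lt_or_eq with h | h
        · left
          exact h
        · right
          refine ⟨h, ?_⟩
          simp [hk, h3]
      · rw [klt]
        right
        simp [hjk, hc']
    apply Relation.TransGen.single
    refine ⟨⟨fun _ => ⟨h1, h2⟩, fun h => absurd (hk.symm.trans h) (by decide)⟩, ?_, ?_⟩
    · refine ⟨hij, ?_, ?_, ?_, ?_⟩
      · rintro (h | h)
        · exact absurd (hk.symm.trans h) (by decide)
        · exact absurd (hk.symm.trans h) (by decide)
      · rw [e4]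
        exact Or.inl hadj
      · intro m hm hm'
        rw [e4]
        exact Or.inl (hv m (by omega) hm')
      · left
        rw [hk, hjk, e4]
        exact ⟨trivial, trivial, h3⟩
    · rintro ⟨h | h, _⟩
      · exact absurd (hk.symm.trans h) (by decide)
      · exact absurd (hk.symm.trans h) (by decide)
  · -- the next crossing goes to the left
    have hne : i.e < j.e := by
      rcases hij.lt_or_eq with h | h
      · exact h
      · rw [← h] at g1 g2
        exact absurd (h1.trans h2) (not_lt.mpr (g1.trans g2).le)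
    have hvj := hv j.e (by omega) (le_refl _)
    have e1 : j.t ≤ i.t := by
      by_contra hc
      exact h4 j.t hjY ⟨not_le.mp hc, g2.trans hvj.2⟩
    have e4 : j.t = i.t := by
      by_contra hc
      have hc' : j.t < i.t := lt_of_le_of_ne e1 hc
      refine hno ⟨.lt, i.t, j.e⟩ ⟨hiY, Or.inr ⟨rfl, g1.trans hc', hvj.1⟩⟩ ?_ ?_
      · rw [klt]
        left
        exact hne
      · rw [klt]
        right
        simp [hjk, hc']
    refine Relation.TransGen.head (b := ⟨.R, t', i.e⟩) ?_ (Relation.TransGen.single ?_)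
    · refine ⟨⟨fun _ => ⟨h1, h2⟩, fun h => absurd (hk.symm.trans h) (by decide)⟩, ?_, ?_⟩
      · refine ⟨le_refl _, ?_, Or.inl hadj, ?_, ?_⟩
        · rintro (h | h)
          · exact absurd (hk.symm.trans h) (by decide)
          · exact absurd (hk.symm.trans h) (by decide)
        · intro m hm hm'
          exact absurd (lt_of_lt_of_le hm hm') (lt_irrefl _)
        · left
          rw [hk]
          exact ⟨trivial, trivial, h3⟩
      · rintro ⟨h | h, _⟩
        · exact absurd (hk.symm.trans h) (by decide)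
        · exact absurd (hk.symm.trans h) (by decide)
    · refine ⟨⟨fun h => absurd h (by simp), fun h => absurd h (by simp)⟩, ?_, ?_⟩
      · refine ⟨hij, fun _ => hne, ?_, ?_, ?_⟩
        · right
          rw [e4]
          exact hadj
        · intro m hm hm'
          right
          rw [e4]
          exact hv m (Int.add_one_le_of_lt hm) hm'
        · right
          rw [hjk, e4]
          exact ⟨fun h => h, fun h => h, h3⟩
      · rintro ⟨_, h | h⟩
        · exact absurd (hjk.symm.trans h) (by decide)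
        · exact absurd (hjk.symm.trans h) (by decide)

theorem step_lt (hY : ∀ s ∈ Y, ∀ i, P.x i ≠ s) (hlo : ∃ b ∈ Y, ∀ i, b < P.x i) {i j : It}
    (hiY : i.t ∈ Y) (hk : i.k = .lt) (h1 : i.t < P.x i.e) (h2 : P.x (i.e + 1) < i.t)
    (hj : Cr P Y j) (hlt : key i < key j)
    (hno : ∀ u, Cr P Y u → key i < key u → key u < key j → False) :
    Relation.TransGen (RR P Y) i j := by
  obtain ⟨b, hbY, hb⟩ := hlo
  obtain ⟨t', ht', h3, h4⟩ := nxt_dn (Y := Y) i.t ⟨b, hbY, (hb _).trans h2⟩
  have hv : ∀ m, i.e + 1 ≤ m → m ≤ j.e → t' < P.x m ∧ P.x m < i.t := by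
    intro m hm
    induction m, hm using Int.le_induction with
    | base =>
      intro hmj
      refine ⟨?_, h2⟩
      by_contra hc
      have hc' : P.x (i.e + 1) < t' := lt_of_le_of_ne (not_lt.mp hc) (hY _ ht' _)
      refine hno ⟨.lt, t', i.e⟩ ⟨ht', Or.inr ⟨rfl, hc', h3.trans h1⟩⟩ ?_ ?_
      · rw [klt]
        right
        simp [hk, h3]
      · rw [klt]
        left
        change i.e < j.e
        omega
    | succ m hm ih =>
      intro hmj
      obtain ⟨a1, a2⟩ := ih (by omega)
      constructor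
      · by_contra hc
        have hc' : P.x (m + 1) < t' := lt_of_le_of_ne (not_lt.mp hc) (hY _ ht' _)
        refine hno ⟨.lt, t', m⟩ ⟨ht', Or.inr ⟨rfl, hc', a1⟩⟩ ?_ ?_
        · rw [klt]
          left
          change i.e < m
          omega
        · rw [klt]
          left
          change m < j.e
          omega
      · by_contra hc
        have hc' : i.t < P.x (m + 1) := lt_of_le_of_ne (not_lt.mp hc) (hY _ hiY _).symm
        refine hno ⟨.rt, i.t, m⟩ ⟨hiY, Or.inl ⟨rfl, a2, hc'⟩⟩ ?_ ?_
        · rw [klt]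
          left
          change i.e < m
          omega
        · rw [klt]
          left
          change m < j.e
          omega
  have hij : i.e ≤ j.e := by
    rcases klt.mp hlt with h | h
    · exact h.le
    · exact h.1.le
  have hkn : ¬ i.k = .rt := by rw [hk]; decide
  have hadj : AdjX Y t' i.t := ⟨ht', hiY, h3, h4⟩
  rcases hj with ⟨hjY, ⟨hjk, g1, g2⟩ | ⟨hjk, g1, g2⟩⟩
  · -- the next crossing goes to the right
    have hne : i.e < j.e := by
      rcases hij.lt_or_eq with h | h
      · exact h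
      · rw [← h] at g1 g2
        exact absurd (g1.trans g2) (not_lt.mpr (h2.trans h1).le)
    have hvj := hv j.e (by omega) (le_refl _)
    have e1 : i.t ≤ j.t := by
      by_contra hc
      exact h4 j.t hjY ⟨hvj.1.trans g1, not_le.mp hc⟩
    have e4 : j.t = i.t := by
      by_contra hc
      have hc' : i.t < j.t := lt_of_le_of_ne e1 (Ne.symm hc)
      refine hno ⟨.rt, i.t, j.e⟩ ⟨hiY, Or.inl ⟨rfl, hvj.2, hc'.trans g2⟩⟩ ?_ ?_
      · rw [klt]
        left
        exact hne
      · rw [klt]
        right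
        simp [hjk, hc']
    refine Relation.TransGen.head (b := ⟨.L, t', i.e⟩) ?_ (Relation.TransGen.single ?_)
    · refine ⟨⟨fun h => absurd h hkn, fun _ => ⟨h2, h1⟩⟩, ?_, ?_⟩
      · refine ⟨le_refl _, ?_, Or.inr hadj, ?_, ?_⟩
        · rintro (h | h)
          · exact absurd (hk.symm.trans h) (by decide)
          · exact absurd (hk.symm.trans h) (by decide)
        · intro m hm hm'
          exact absurd (lt_of_lt_of_le hm hm') (lt_irrefl _)
        · right
          rw [hk]
          exact ⟨fun h => h, fun h => h, h3⟩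
      · rintro ⟨h | h, _⟩
        · exact absurd (hk.symm.trans h) (by decide)
        · exact absurd (hk.symm.trans h) (by decide)
    · refine ⟨⟨fun h => absurd h (by simp), fun h => absurd h (by simp)⟩, ?_, ?_⟩
      · refine ⟨hij, fun _ => hne, ?_, ?_, ?_⟩
        · left
          rw [e4]
          exact hadj
        · intro m hm hm'
          left
          rw [e4]
          exact hv m (Int.add_one_le_of_lt hm) hm'
        · left
          rw [hjk, e4]
          exact ⟨trivial, trivial, h3⟩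
      · rintro ⟨_, h | h⟩
        · exact absurd (hjk.symm.trans h) (by decide)
        · exact absurd (hjk.symm.trans h) (by decide)
  · -- the next crossing goes to the left
    have hjn : ¬ j.k = .rt := by rw [hjk]; decide
    have e1 : j.t < i.t := by
      rcases klt.mp hlt with h | h
      · exact g2.trans (hv j.e (by omega) (le_refl _)).2
      · have := h.2
        rw [if_neg hkn, if_neg hjn] at this
        linarith
    have e2 : j.t ≤ t' := by
      by_contra hc
      exact h4 j.t hjY ⟨not_le.mp hc, e1⟩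
    have e3 : t' < P.x j.e := by
      rcases hij.lt_or_eq with h | h
      · exact (hv j.e (by omega) (le_refl _)).1
      · rw [← h]
        exact h3.trans h1
    have e4 : j.t = t' := by
      by_contra hc
      have hc' : j.t < t' := lt_of_le_of_ne e2 hc
      refine hno ⟨.lt, t', j.e⟩ ⟨ht', Or.inr ⟨rfl, g1.trans hc', e3⟩⟩ ?_ ?_
      · rw [klt]
        rcases hij.lt_or_eq with h | h
        · left
          exact h
        · right
          refine ⟨h, ?_⟩
          simp [hk, h3]
      · rw [klt]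
        right
        simp [hjk, hc']
    apply Relation.TransGen.single
    refine ⟨⟨fun h => absurd h hkn, fun _ => ⟨h2, h1⟩⟩, ?_, ?_⟩
    · refine ⟨hij, ?_, ?_, ?_, ?_⟩
      · rintro (h | h)
        · exact absurd (hk.symm.trans h) (by decide)
        · exact absurd (hk.symm.trans h) (by decide)
      · rw [e4]
        exact Or.inr hadj
      · intro m hm hm'
        rw [e4]
        exact Or.inr (hv m (by omega) hm')
      · right
        rw [hk, hjk, e4]
        exact ⟨fun h => h, fun h => h, h3⟩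
    · rintro ⟨h | h, _⟩
      · exact absurd (hk.symm.trans h) (by decide)
      · exact absurd (hk.symm.trans h) (by decide)

theorem fin (i j : It) : {u | Cr P Y u ∧ key i < key u ∧ key u < key j}.Finite := by
  classical
  have h : ({u | Cr P Y u ∧ key i < key u ∧ key u < key j} : Set It) ⊆
      (fun q : Kd × ℝ × ℤ => (⟨q.1, q.2.1, q.2.2⟩ : It)) ''
        (((({Kd.rt, Kd.lt} : Finset Kd) ×ˢ (Y ×ˢ Finset.Icc i.e j.e)) :
          Finset (Kd × ℝ × ℤ)) : Set (Kd × ℝ × ℤ)) := by
    rintro u ⟨hc, h1, h2⟩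
    refine ⟨(u.k, u.t, u.e), ?_, rfl⟩
    rw [Finset.mem_coe, Finset.mem_product, Finset.mem_product, Finset.mem_Icc]
    refine ⟨?_, hc.1, ?_, ?_⟩
    · rcases hc.2 with h | h
      · simp [h.1]
      · simp [h.1]
    · rcases klt.mp h1 with h | h
      · exact h.le
      · exact h.1.le
    · rcases klt.mp h2 with h | h
      · exact h.le
      · exact h.1.le
  exact (Set.Finite.image _ (Finset.finite_toSet _)).subset h

theorem reach (hY : ∀ s ∈ Y, ∀ i, P.x i ≠ s) (hlo : ∃ a ∈ Y, ∀ i, a < P.x i)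
    (hhi : ∃ b ∈ Y, ∀ i, P.x i < b) (n : ℕ) : ∀ i j : It, Cr P Y i → Cr P Y j → key i < key j →
    {u | Cr P Y u ∧ key i < key u ∧ key u < key j}.ncard = n →
    Relation.TransGen (RR P Y) i j := by
  induction n using Nat.strong_induction_on with
  | _ n ih =>
    intro i j hi hj hlt hn
    by_cases hex : ∃ u, Cr P Y u ∧ key i < key u ∧ key u < key j
    · obtain ⟨u, hu, hu1, hu2⟩ := hex
      have s1 : {v | Cr P Y v ∧ key i < key v ∧ key v < key u}.ncard < n := by
        rw [← hn]
        apply Set.ncard_lt_ncard _ (fin i j)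
        refine ⟨fun v hv => ⟨hv.1, hv.2.1, hv.2.2.trans hu2⟩, fun h => ?_⟩
        exact absurd (h ⟨hu, hu1, hu2⟩).2.2 (lt_irrefl _)
      have s2 : {v | Cr P Y v ∧ key u < key v ∧ key v < key j}.ncard < n := by
        rw [← hn]
        apply Set.ncard_lt_ncard _ (fin i j)
        refine ⟨fun v hv => ⟨hv.1, hu1.trans hv.2.1, hv.2.2⟩, fun h => ?_⟩
        exact absurd (h ⟨hu, hu1, hu2⟩).2.1 (lt_irrefl _)
      exact (ih _ s1 i u hi hu hu1 rfl).trans (ih _ s2 u j hu hj hu2 rfl)
    · have hno : ∀ u, Cr P Y u → key i < key u → key u < key j → False :=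
        fun u h1 h2 h3 => hex ⟨u, h1, h2, h3⟩
      rcases hi with ⟨hiY, ⟨hk, h1, h2⟩ | ⟨hk, h1, h2⟩⟩
      · exact step_rt hY hhi hiY hk h1 h2 hj hlt hno
      · exact step_lt hY hlo hiY hk h2 h1 hj hlt hno

theorem to_list {a b : It} (h : Relation.TransGen (RR P Y) a b) :
    ∃ w', List.IsChain (RR P Y) (a :: w' ++ [b]) := by
  induction h using Relation.TransGen.head_induction_on with
  | single h => exact ⟨[], by simpa using h⟩
  | @head a c h _ ih =>
    obtain ⟨w', hw⟩ := ih
    refine ⟨c :: w', ?_⟩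
    exact List.IsChain.cons_cons h hw

theorem ok_of (l : List It) (b : It) (h : List.IsChain (RR P Y) (l ++ [b])) :
    ∀ u ∈ l, ItOK P u := by
  induction l with
  | nil => simp
  | cons u l ih =>
    intro v hv
    have h' : List.IsChain (RR P Y) (u :: (l ++ [b])) := h
    rcases List.mem_cons.mp hv with rfl | hv
    · cases l with
      | nil =>
        rw [List.nil_append, List.isChain_cons_cons] at h'
        exact h'.1.1
      | cons c l =>
        rw [List.cons_append, List.isChain_cons_cons] at h'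
        exact h'.1.1
    · exact ih h'.tail v hv

theorem zip_of (a : It) (ha : ¬ (a.k = .R ∨ a.k = .L)) (l : List It) (c b : It)
    (h : List.IsChain (RR P Y) (c :: l ++ [b])) :
    ∀ x ∈ (c :: l).zip (l ++ [a]), ¬ ((x.1.k = .R ∨ x.1.k = .L) ∧ (x.2.k = .R ∨ x.2.k = .L)) := by
  induction l generalizing c with
  | nil =>
    intro x hx
    rw [List.nil_append, List.zip_cons_cons, List.zip_nil_left, List.mem_singleton] at hx
    rw [hx]
    exact fun h => ha h.2
  | cons d l ih =>
    intro x hx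
    have h' : List.IsChain (RR P Y) (c :: d :: (l ++ [b])) := h
    rw [List.isChain_cons_cons] at h'
    rw [List.cons_append, List.zip_cons_cons, List.mem_cons] at hx
    rcases hx with rfl | hx
    · exact h'.1.2.2
    · exact ih d h'.2 x hx

theorem exists_start (hN : 0 < N) {s : ℝ} (hs : ∀ i, P.x i ≠ s) {i j : ℤ} (hi : P.x i < s)
    (hj : s < P.x j) : ∃ m, P.x m < s ∧ s < P.x (m + 1) := by
  by_contra hc
  push Not at hc
  have h1 : ∀ m, i ≤ m → P.x m < s := by
    intro m hm
    induction m, hm using Int.le_induction with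
    | base => exact hi
    | succ m _ ih => exact lt_of_le_of_ne (hc m ih) (hs _)
  have h2 : ∀ k : ℕ, P.x (j + k * N) = P.x j := by
    intro k
    induction k with
    | zero => simp
    | succ k ih =>
      have := P.px (j + k * N)
      rw [← ih, ← this]
      congr 1
      push_cast
      ring
  have h3 := h1 (j + (i - j).natAbs * N) (by
    have h4 : ((i - j).natAbs : ℤ) ≤ ((i - j).natAbs : ℤ) * (N : ℤ) := by
      have : (1 : ℤ) ≤ N := by exact_mod_cast hN
      nlinarith [Int.natCast_nonneg (i - j).natAbs]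
    have h5 : i - j ≤ ((i - j).natAbs : ℤ) := Int.le_natAbs
    omega)
  rw [h2] at h3
  exact absurd h3 (not_lt.mpr hj.le)

end EXW

open EXW in
/-- EXW -/
theorem t_EXW : Stmt_EXW := by
  intro N P Y hN hY hlo hhi hmid
  obtain ⟨s, hsY, i, j, hi, hj⟩ := hmid
  obtain ⟨m, hm1, hm2⟩ := exists_start hN (hY s hsY) hi hj
  have c1 : Cr P Y ⟨.rt, s, m⟩ := ⟨hsY, Or.inl ⟨rfl, hm1, hm2⟩⟩
  have c2 : Cr P Y (It.sh N ⟨.rt, s, m⟩) := by
    refine ⟨hsY, Or.inl ⟨rfl, ?_, ?_⟩⟩
    · change P.x (m + N) < s
      rw [P.px]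
      exact hm1
    · change s < P.x (m + N + 1)
      have : m + (N : ℤ) + 1 = (m + 1) + N := by ring
      rw [this, P.px]
      exact hm2
  have c3 : key ⟨.rt, s, m⟩ < key (It.sh N ⟨.rt, s, m⟩) := by
    rw [klt]
    left
    change m < m + (N : ℤ)
    omega
  obtain ⟨w', hw⟩ := to_list (reach hY hlo hhi _ _ _ c1 c2 c3 rfl)
  refine ⟨⟨.rt, s, m⟩ :: w', ⟨_, w', rfl, ok_of _ _ hw, hw.imp fun _ _ h => h.2.1⟩, ?_⟩
  have e : cp ((⟨.rt, s, m⟩ : It) :: w') = ((⟨.rt, s, m⟩ : It) :: w').zip (w' ++ [⟨.rt, s, m⟩]) := by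
    rw [cp, List.rotate_cons_succ, List.rotate_zero]
  rw [e]
  exact zip_of _ (by simp) w' _ _ hw

end LH
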