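import Pool.Agent.LH.Stmts2

/-!
# FGC: cells with at most one event are good
-/

namespace LH

open Set LG

namespace FGC

variable {N : ℕ} {P : Pg N} {a b e : ℝ}

/-- a component of the cell is a component over the event -/
theorem compE (he : a < e ∧ e < b) (hu : ∀ s, s ∈ Ev P → a < s → s < b → s = e) {p q : ℤ}
    (h : Comp P a b p q) : CompE P e p q := by
  refine ⟨h.le, ?_, ?_, ?_, ?_⟩
  · intro i h1 h2
    obtain ⟨h3, h4⟩ := h.ins i h1 h2
    exact hu _ (Or.inl ⟨i, rfl⟩) h3 h4
  · rcases h.fst with h1 | h1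
    · exact ne_of_lt (by linarith [he.1])
    · exact ne_of_gt (by linarith [he.2])
  · rcases h.lst with h1 | h1
    · exact ne_of_lt (by linarith [he.1])
    · exact ne_of_gt (by linarith [he.2])
  · intro hpq
    rcases h.one hpq with ⟨h1, h2⟩ | ⟨h1, h2⟩
    · exact Or.inl ⟨by linarith [he.1], by linarith [he.2]⟩
    · exact Or.inr ⟨by linarith [he.1], by linarith [he.2]⟩

/-- all lines of a component pass through the same point over the event -/
theorem line_e (hB : P_PGB) {p q : ℤ} (h : CompE P e p q) : ∀ i ∈ Icc p q, P.l i e = P.l p e := by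
  intro i hi
  obtain ⟨h1, h2⟩ := hi
  revert h2
  induction i, h1 using Int.le_induction with
  | base => intro _; rfl
  | succ n hn ih =>
    intro h2
    have h3 := hB.ls P n e
    have h4 : P.x (n + 1) = e := h.ins (n + 1) (by omega) h2
    rw [h4, sub_self, mul_zero] at h3
    have h5 := ih (by omega)
    linarith

/-- lines with different heights over the event are ordered at the ends -/
theorem ord (hB : P_PGB) (he : a < e ∧ e < b) (hu : ∀ s, s ∈ Ev P → a < s → s < b → s = e)
    (ha : a ∉ Ev P) (hb : b ∉ Ev P) {i j : ℤ} (h : P.l i e < P.l j e) :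
    P.l i a < P.l j a ∧ P.l i b < P.l j b := by
  have key : ∀ t : ℝ, P.l j t - P.l i t = (P.l j e - P.l i e) + (P.y j - P.y i) * (t - e) := by
    intro t
    have h1 := hB.dt P i e t
    have h2 := hB.dt P j e t
    linarith
  have hD : 0 < P.l j e - P.l i e := by linarith
  constructor
  · by_contra hcon
    have h1 := key a
    have h2 : (P.l j e - P.l i e) + (P.y j - P.y i) * (a - e) ≤ 0 := by linarith
    have h3 : 0 < P.y j - P.y i := by
      by_contra h4
      have : 0 ≤ (P.y j - P.y i) * (a - e) :=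
        mul_nonneg_of_nonpos_of_nonpos (by linarith) (by linarith [he.1])
      linarith
    have ht : P.l i (e - (P.l j e - P.l i e) / (P.y j - P.y i)) =
        P.l j (e - (P.l j e - P.l i e) / (P.y j - P.y i)) := by
      have h5 := key (e - (P.l j e - P.l i e) / (P.y j - P.y i))
      have h6 : (P.y j - P.y i) * (e - (P.l j e - P.l i e) / (P.y j - P.y i) - e) =
          -(P.l j e - P.l i e) := by
        field_simp
        ring
      linarith
    have hEv : e - (P.l j e - P.l i e) / (P.y j - P.y i) ∈ Ev P :=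
      Or.inr ⟨i, j, by intro h7; rw [h7] at h3; simp at h3, ht⟩
    have h8 : 0 < (P.l j e - P.l i e) / (P.y j - P.y i) := div_pos hD h3
    have h9 : (P.l j e - P.l i e) / (P.y j - P.y i) ≤ e - a := by
      rw [div_le_iff₀ h3]; nlinarith
    rcases (le_sub_comm.mp h9).lt_or_eq with h10 | h10
    · have := hu _ hEv h10 (by linarith [he.2])
      linarith
    · exact ha (h10 ▸ hEv)
  · by_contra hcon
    have h1 := key b
    have h2 : (P.l j e - P.l i e) + (P.y j - P.y i) * (b - e) ≤ 0 := by linarith
    have h3 : 0 < P.y i - P.y j := by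
      by_contra h4
      have : 0 ≤ (P.y j - P.y i) * (b - e) := mul_nonneg (by linarith) (by linarith [he.2])
      linarith
    have ht : P.l i (e + (P.l j e - P.l i e) / (P.y i - P.y j)) =
        P.l j (e + (P.l j e - P.l i e) / (P.y i - P.y j)) := by
      have h5 := key (e + (P.l j e - P.l i e) / (P.y i - P.y j))
      have h6 : (P.y j - P.y i) * (e + (P.l j e - P.l i e) / (P.y i - P.y j) - e) =
          -(P.l j e - P.l i e) := by
        field_simp
        ring
      linarith
    have hEv : e + (P.l j e - P.l i e) / (P.y i - P.y j) ∈ Ev P :=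
      Or.inr ⟨i, j, by intro h7; rw [h7] at h3; simp at h3, ht⟩
    have h8 : 0 < (P.l j e - P.l i e) / (P.y i - P.y j) := div_pos hD h3
    have h9 : (P.l j e - P.l i e) / (P.y i - P.y j) ≤ b - e := by
      rw [div_le_iff₀ h3]; nlinarith
    have h11 : e + (P.l j e - P.l i e) / (P.y i - P.y j) ≤ b := by linarith
    rcases h11.lt_or_eq with h10 | h10
    · have := hu _ hEv (by linarith [he.1]) h10
      linarith
    · exact hb (h10 ▸ hEv)

end FGC

theorem t_FGC : Stmt_FGC := by
  intro hB N P a b hN hE hab ha hb huni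
  -- the event
  obtain ⟨e, he, hu⟩ : ∃ e, (a < e ∧ e < b) ∧ ∀ s, s ∈ Ev P → a < s → s < b → s = e := by
    by_cases h : ∃ s, s ∈ Ev P ∧ a < s ∧ s < b
    · obtain ⟨e, h1, h2, h3⟩ := h
      exact ⟨e, ⟨h2, h3⟩, fun s hs h4 h5 => huni s e hs h1 h4 h5 h2 h3⟩
    · refine ⟨(a + b) / 2, ⟨by linarith, by linarith⟩, fun s hs h4 h5 => ?_⟩
      exact absurd ⟨s, hs, h4, h5⟩ h
  have hav : ∀ i, P.x i ≠ a ∧ P.x i ≠ b := fun i =>
    ⟨fun h => ha (Or.inl ⟨i, h⟩), fun h => hb (Or.inl ⟨i, h⟩)⟩
  refine ⟨hab, hav, ?_, ?_, ?_⟩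
  · by_contra hcon
    push Not at hcon
    have hx : ∀ i, P.x i = e := by
      intro i
      obtain ⟨h1, h2⟩ := hcon i
      exact hu _ (Or.inl ⟨i, rfl⟩) (lt_of_le_of_ne h1 (Ne.symm (hav i).1))
        (lt_of_le_of_ne h2 (hav i).2)
    obtain ⟨i, hi⟩ := hE.nc
    exact hi (by rw [hx i, hx 0])
  · intro p q hC
    exact hE.ty e p q (FGC.compE he hu hC)
  · intro p q p' q' hC hC' h1 h2
    have hCE := FGC.compE he hu hC
    have hCE' := FGC.compE he hu hC'
    rcases lt_trichotomy (P.l p e) (P.l p' e) with h | h | h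
    · have hall : ∀ i ∈ Icc p q, ∀ j ∈ Icc p' q', P.l i a < P.l j a ∧ P.l i b < P.l j b := by
        intro i hi j hj
        apply FGC.ord hB he hu ha hb
        rw [FGC.line_e hB hCE i hi, FGC.line_e hB hCE' j hj]
        exact h
      exact ⟨Or.inl fun i hi j hj => (hall i hi j hj).1, Or.inl fun i hi j hj => (hall i hi j hj).2⟩
    · have hl : ∀ i ∈ Icc p q, ∀ j ∈ Icc p' q', ∀ t, P.l j t - P.l i t =
          (P.y j - P.y i) * (t - e) := by
        intro i hi j hj t
        have h3 := hB.dt P i e t
        have h4 := hB.dt P j e t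
        rw [FGC.line_e hB hCE i hi] at h3
        rw [FGC.line_e hB hCE' j hj] at h4
        linarith
      rcases hE.sep e p q p' q' hCE hCE' h1 h2 h with hs | hs
      · refine ⟨Or.inr fun i hi j hj => ?_, Or.inl fun i hi j hj => ?_⟩
        · have h3 := hl i hi j hj a
          have h4 : (P.y j - P.y i) * (a - e) < 0 :=
            mul_neg_of_pos_of_neg (by linarith [hs i hi j hj]) (by linarith [he.1])
          linarith
        · have h3 := hl i hi j hj b
          have h4 : 0 < (P.y j - P.y i) * (b - e) :=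
            mul_pos (by linarith [hs i hi j hj]) (by linarith [he.2])
          linarith
      · refine ⟨Or.inl fun i hi j hj => ?_, Or.inr fun i hi j hj => ?_⟩
        · have h3 := hl i hi j hj a
          have h4 : 0 < (P.y j - P.y i) * (a - e) :=
            mul_pos_of_neg_of_neg (by linarith [hs i hi j hj]) (by linarith [he.1])
          linarith
        · have h3 := hl i hi j hj b
          have h4 : (P.y j - P.y i) * (b - e) < 0 :=
            mul_neg_of_neg_of_pos (by linarith [hs i hi j hj]) (by linarith [he.2])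
          linarith
    · have hall : ∀ i ∈ Icc p q, ∀ j ∈ Icc p' q', P.l j a < P.l i a ∧ P.l j b < P.l i b := by
        intro i hi j hj
        apply FGC.ord hB he hu ha hb
        rw [FGC.line_e hB hCE i hi, FGC.line_e hB hCE' j hj]
        exact h
      exact ⟨Or.inr fun i hi j hj => (hall i hi j hj).1, Or.inr fun i hi j hj => (hall i hi j hj).2⟩

end LH
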