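import Pool.Agent.LH.Stmts1

/-!
# FRM: a right turn moves
-/

namespace LH

open Set LG

namespace FRM

theorem cp_head {α : Type*} (u q : α) (T : List α) (hn : (u :: T).Nodup) (hT : T ≠ [])
    (h : (u, q) ∈ cp (u :: T)) : ∃ T', T = q :: T' := by
  obtain ⟨a, T', rfl⟩ := List.exists_cons_of_ne_nil hT
  unfold cp at h
  have hr : (u :: a :: T').rotate 1 = a :: (T' ++ [u]) := by simp
  rw [hr, List.zip_cons_cons, List.mem_cons] at h
  rcases h with h | h
  · simp only [Prod.mk.injEq, true_and] at h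
    exact ⟨T', by rw [h]⟩
  · exact absurd (List.of_mem_zip h).1 (List.nodup_cons.1 hn).1

theorem cp_last {α : Type*} (u p : α) (T : List α) (hn : (u :: T).Nodup) (hT : T ≠ [])
    (h : (p, u) ∈ cp (u :: T)) : ∃ T', T = T' ++ [p] := by
  obtain ⟨T', a, rfl⟩ : ∃ T' a, T = T' ++ [a] :=
    ⟨T.dropLast, T.getLast hT, (List.dropLast_append_getLast hT).symm⟩
  unfold cp at h
  have hr : (u :: (T' ++ [a])).rotate 1 = (T' ++ [a]) ++ [u] := by simp
  have h2 : u :: (T' ++ [a]) = (u :: T') ++ [a] := by simp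
  rw [hr, h2, List.zip_append (by simp), List.mem_append] at h
  rcases h with h | h
  · exact absurd (List.of_mem_zip h).2 (List.nodup_cons.1 hn).1
  · simp only [List.zip_cons_cons, List.zip_nil_right, List.mem_cons, Prod.mk.injEq, and_true,
      List.not_mem_nil, or_false] at h
    exact ⟨T', by rw [h]⟩

theorem ent_first (q : Pt) (h : ¬ q.k.ar) : ∃ E, ent q = .inr q.r :: E := by
  unfold ent
  cases hk : q.k <;> simp [hk, Kd.ar] at h ⊢

theorem ent_last (p : Pt) (h : p.k.fw) : ∃ E, ent p = E ++ [.inr p.r] := by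
  unfold ent
  cases hk : p.k <;> simp [hk, Kd.fw] at h ⊢
  exact ⟨[.inl p.c], rfl⟩

end FRM

open FRM

theorem t_FRM : Stmt_FRM := by
  intro hW hC hM hK u u' T p q h1 h2 hu hu' hp hq hm1 hm2
  have e1 : ∀ v : Pt, v.k = .R → ents (v :: T) = .inl v.c :: ents T := by
    intro v hv
    simp [ents, ent, hv]
  have hnd := hC.nd _ h1
  have hl := h1.len
  rw [e1 u hu, List.length_cons] at hl
  have hT : T ≠ [] := by
    rintro rfl
    simp [ents] at hl
  have s1 := h1.st _ hp
  have s2 := h1.st _ hq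
  simp only [Stp, hu, Kd.ar, Kd.fw, not_true_eq_false, false_and, and_false, or_false, true_and,
    false_or, not_false_eq_true] at s1 s2
  obtain ⟨Tq, rfl⟩ := cp_head u q T hnd hT hq
  obtain ⟨T', hT'⟩ := cp_last u p (q :: Tq) hnd hT hp
  have hlen : T' ≠ [] := by
    rintro rfl
    simp only [List.nil_append, List.cons.injEq] at hT'
    obtain ⟨rfl, rfl⟩ := hT'
    have : (ents [q]).length ≤ 2 := by
      simp only [ents, List.flatMap_cons, List.flatMap_nil, List.append_nil]
      unfold ent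
      cases q.k <;> simp
    omega
  obtain ⟨a, T'', rfl⟩ := List.exists_cons_of_ne_nil hlen
  rw [List.cons_append, List.cons.injEq] at hT'
  obtain ⟨rfl, rfl⟩ := hT'
  obtain ⟨Eq, hEq⟩ := ent_first q s2.1
  obtain ⟨Ep, hEp⟩ := ent_last p s1.1
  have e2 : ents (q :: (T'' ++ [p])) = .inr q.r :: ((Eq ++ ents T'' ++ Ep) ++ [.inr p.r]) := by
    simp [ents, hEq, hEp]
  have ew : ∀ v : Pt, v.k = .R → ents (v :: q :: (T'' ++ [p])) =
      .inl v.c :: .inr q.r :: ((Eq ++ ents T'' ++ Ep) ++ [.inr p.r]) := by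
    intro v hv
    rw [e1 v hv, e2]
  have hA := hC.alt _ h1
  have hN := h1.nd
  have hN' := h2.nd
  by_cases hc : u'.c = u.c
  · have : ents (u' :: q :: (T'' ++ [p])) = ents (u :: q :: (T'' ++ [p])) := by
      rw [ew u hu, ew u' hu', hc]
    rw [this]
    exact hW.refl _ hA hN
  · have hmk := hK (u :: q :: (T'' ++ [p])) (by simp) h1.st
    rw [ew u hu] at hA hN hmk ⊢
    rw [ew u' hu'] at hN' ⊢
    refine hM u.c u'.c p.r q.r _ hA hN ?_ hc ?_
    · intro hin
      have := (List.nodup_cons.1 hN').1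
      exact this (List.mem_cons_of_mem _ (List.mem_append_left _ hin))
    · intro c r hcr hb
      rcases (hmk c r).1 hcr with ⟨x, y, hxy, rfl, rfl⟩ | ⟨x, hx, hk, rfl, rfl⟩
      · exact hm1 x y hxy hb
      · rcases List.mem_cons.1 hx with rfl | hx
        · rw [hu] at hk
          rcases hk with hk | hk <;> cases hk
        · exact hm2 x hx hk hb

end LH
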