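import Pool.Agent.LH.Stmts2

/-!
# Turns of walks without zigzags are in components monotone in `y`
-/

namespace LH

open Set LG

namespace GYF

theorem cp_map {α β : Type*} (f : α → β) (w : List α) :
    cp (w.map f) = (cp w).map (Prod.map f f) := by
  unfold cp
  rw [← List.map_rotate, List.zip_map]

theorem noz {N : ℕ} {P : Pg N} {Y : Finset ℝ} {w : List It} {W : ℤ → It} (hS : P_SEQ)
    (hg : GW P Y w) (hW : Sq P Y w W) (n : ℤ) :
    ¬ (((W n).k = .R ∨ (W n).k = .L) ∧ ((W (n + 1)).k = .R ∨ (W (n + 1)).k = .L)) := by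
  have h1 : (pt P (W n), pt P (W (n + 1))) ∈ cp (w.map (pt P)) :=
    (hS.cp P Y w W hW _).mpr ⟨n, rfl⟩
  rw [cp_map] at h1
  obtain ⟨x, hx, hx'⟩ := List.mem_map.mp h1
  have h2 : pt P x.1 = pt P (W n) := congrArg Prod.fst hx'
  have h3 : pt P x.2 = pt P (W (n + 1)) := congrArg Prod.snd hx'
  have h4 : x.1.k = (W n).k := congrArg Pt.k h2
  have h5 : x.2.k = (W (n + 1)).k := congrArg Pt.k h3
  rw [← h4, ← h5]
  exact hg.2 x hx

/-- Adjacent lines of `Y` and adjacent lines of the subset `X`. -/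
theorem adj_sub {X Y : Finset ℝ} (hXY : X ⊆ Y) {a b s t x : ℝ} (hab : AdjX X a b)
    (hst : AdjX Y s t) (h1 : s < x) (h2 : x < t) (h3 : a < x) (h4 : x < b) : a ≤ s ∧ t ≤ b := by
  obtain ⟨ha, hb, _, _⟩ := hab
  obtain ⟨_, _, _, hn⟩ := hst
  constructor
  · by_contra h
    exact hn a (hXY ha) ⟨not_le.mp h, by linarith⟩
  · by_contra h
    exact hn b (hXY hb) ⟨by linarith, not_le.mp h⟩

theorem adj_right {Y : Finset ℝ} {s s' t : ℝ} (h : AdjX Y s t) (h' : AdjX Y s' t) : s = s' := by
  obtain ⟨hs, _, hst, hn⟩ := h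
  obtain ⟨hs', _, hst', hn'⟩ := h'
  rcases lt_trichotomy s s' with h1 | h1 | h1
  · exact absurd ⟨h1, hst'⟩ (hn s' hs')
  · exact h1
  · exact absurd ⟨h1, hst⟩ (hn' s hs)

theorem adj_left {Y : Finset ℝ} {s t t' : ℝ} (h : AdjX Y s t) (h' : AdjX Y s t') : t = t' := by
  obtain ⟨_, ht, hst, hn⟩ := h
  obtain ⟨_, ht', hst', hn'⟩ := h'
  rcases lt_trichotomy t t' with h1 | h1 | h1
  · exact absurd ⟨hst, h1⟩ (hn' t ht)
  · exact h1
  · exact absurd ⟨hst', h1⟩ (hn t' ht')

theorem main {N : ℕ} {P : Pg N} {X Y : Finset ℝ} {w : List It} {W : ℤ → It} (hC : P_CMP)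
    (hN : 0 < N) (hX : GoodX P X) (hXY : X ⊆ Y) (hW : Sq P Y w W) (n : ℤ)
    (hz : ¬ ((W n).k = .R ∨ (W n).k = .L) ∨ ¬ ((W (n + 1)).k = .R ∨ (W (n + 1)).k = .L))
    (hz' : ¬ ((W (n + 1)).k = .R ∨ (W (n + 1)).k = .L) ∨
      ¬ ((W (n + 1 + 1)).k = .R ∨ (W (n + 1 + 1)).k = .L)) {a b : ℝ}
    (hab : AdjX X a b) (hk : (W (n + 1)).k = .R ∨ (W (n + 1)).k = .L)
    (ha : a < P.x ((W (n + 1)).e + 1)) (hb : P.x ((W (n + 1)).e + 1) < b) :
    ∃ p q, Comp P a b p q ∧ p ≤ (W (n + 1)).e ∧ (W (n + 1)).e ≤ q ∧ YM P p q := by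
  have hgd := hX.gd a b hab
  have l1 := hW.lnk n
  have l2 := hW.lnk (n + 1)
  have o1 := hW.ok n
  have o2 := hW.ok (n + 1 + 1)
  have z1 : ¬ ((W n).k = .R ∨ (W n).k = .L) := hz.resolve_right (fun h => h hk)
  have z2 : ¬ ((W (n + 1 + 1)).k = .R ∨ (W (n + 1 + 1)).k = .L) :=
    hz'.resolve_left (fun h => h hk)
  have e12 : (W (n + 1)).e < (W (n + 1 + 1)).e := l2.tl hk
  have hv := l2.ins ((W (n + 1)).e + 1) (by omega) (by omega)
  obtain ⟨p, q, hpq, hp, hq⟩ := hC.ex P a b hN hgd (W (n + 1)).e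
    ⟨fun h => by linarith [h.2], fun h => by linarith [h.2]⟩
  refine ⟨p, q, hpq, hp, hq, ?_⟩
  -- the vertices near the turn are inside
  have key : (∀ m, (W n).e < m → m ≤ (W (n + 1)).e → a < P.x m ∧ P.x m < b) ∧
      (∀ m, (W (n + 1)).e < m → m ≤ (W (n + 1 + 1)).e → a < P.x m ∧ P.x m < b) ∧
      (((P.x (W n).e < P.x ((W n).e + 1)) ∧
          P.x ((W (n + 1 + 1)).e + 1) < P.x (W (n + 1 + 1)).e) ∨
        (P.x ((W n).e + 1) < P.x (W n).e ∧
          P.x (W (n + 1 + 1)).e < P.x ((W (n + 1 + 1)).e + 1))) := by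
    rcases hk with hk | hk
    · -- a right turn
      have d1 : (W n).k.fw ∧ (W n).t < (W (n + 1)).t := by
        rcases l1.dir with h | h
        · exact ⟨h.1, h.2.2⟩
        · exact absurd (by rw [hk]; trivial) h.2.1
      have d2 : ¬ (W (n + 1 + 1)).k.ar ∧ (W (n + 1 + 1)).t < (W (n + 1)).t := by
        rcases l2.dir with h | h
        · exact absurd h.1 (by rw [hk]; exact fun h => h)
        · exact ⟨h.2.1, h.2.2⟩
      have k1 : (W n).k = .rt := by
        have := d1.1
        cases hh : (W n).k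
        · rfl
        · rw [hh] at this; exact this.elim
        · exact absurd (Or.inl hh) z1
        · exact absurd (Or.inr hh) z1
      have k2 : (W (n + 1 + 1)).k = .lt := by
        have := d2.1
        cases hh : (W (n + 1 + 1)).k
        · rw [hh] at this; exact absurd trivial this
        · rfl
        · exact absurd (Or.inl hh) z2
        · exact absurd (Or.inr hh) z2
      have a1 : AdjX Y (W n).t (W (n + 1)).t := by
        rcases l1.adj with h | h
        · exact h
        · exact absurd h.2.2.1 (by linarith [d1.2])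
      have a2 : AdjX Y (W (n + 1 + 1)).t (W (n + 1)).t := by
        rcases l2.adj with h | h
        · exact absurd h.2.2.1 (by linarith [d2.2])
        · exact h
      have a3 := adj_right a1 a2
      have hv' : (W n).t < P.x ((W (n + 1)).e + 1) ∧ P.x ((W (n + 1)).e + 1) < (W (n + 1)).t := by
        rcases hv with h | h
        · exact absurd (h.1.trans h.2) (by linarith [d2.2])
        · rw [a3]; exact h
      obtain ⟨b1, b2⟩ := adj_sub hXY hab a1 hv'.1 hv'.2 ha hb
      refine ⟨?_, ?_, Or.inl ⟨?_, ?_⟩⟩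
      · intro m hm hm'
        rcases l1.ins m hm hm' with h | h
        · exact ⟨by linarith [h.1], by linarith [h.2]⟩
        · exact absurd (h.1.trans h.2) (by linarith [d1.2])
      · intro m hm hm'
        rcases l2.ins m hm hm' with h | h
        · exact absurd (h.1.trans h.2) (by linarith [d2.2])
        · rw [← a3] at h
          exact ⟨by linarith [h.1], by linarith [h.2]⟩
      · have := o1.1 k1
        linarith [this.1, this.2]
      · have := o2.2 k2
        linarith [this.1, this.2]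
    · -- a left turn
      have d1 : ¬ (W n).k.fw ∧ (W (n + 1)).t < (W n).t := by
        rcases l1.dir with h | h
        · exact absurd h.2.1 (by rw [hk]; exact fun h => h)
        · exact ⟨h.1, h.2.2⟩
      have d2 : (W (n + 1 + 1)).k.ar ∧ (W (n + 1)).t < (W (n + 1 + 1)).t := by
        rcases l2.dir with h | h
        · exact ⟨h.2.1, h.2.2⟩
        · exact absurd (by rw [hk]; trivial) h.1
      have k1 : (W n).k = .lt := by
        have := d1.1
        cases hh : (W n).k
        · rw [hh] at this; exact absurd trivial this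
        · rfl
        · exact absurd (Or.inl hh) z1
        · exact absurd (Or.inr hh) z1
      have k2 : (W (n + 1 + 1)).k = .rt := by
        have := d2.1
        cases hh : (W (n + 1 + 1)).k
        · rfl
        · rw [hh] at this; exact this.elim
        · exact absurd (Or.inl hh) z2
        · exact absurd (Or.inr hh) z2
      have a1 : AdjX Y (W (n + 1)).t (W n).t := by
        rcases l1.adj with h | h
        · exact absurd h.2.2.1 (by linarith [d1.2])
        · exact h
      have a2 : AdjX Y (W (n + 1)).t (W (n + 1 + 1)).t := by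
        rcases l2.adj with h | h
        · exact h
        · exact absurd h.2.2.1 (by linarith [d2.2])
      have a3 := adj_left a1 a2
      have hv' : (W (n + 1)).t < P.x ((W (n + 1)).e + 1) ∧ P.x ((W (n + 1)).e + 1) < (W n).t := by
        rcases hv with h | h
        · rw [a3]; exact h
        · exact absurd (h.1.trans h.2) (by linarith [d2.2])
      obtain ⟨b1, b2⟩ := adj_sub hXY hab a1 hv'.1 hv'.2 ha hb
      refine ⟨?_, ?_, Or.inr ⟨?_, ?_⟩⟩
      · intro m hm hm'
        rcases l1.ins m hm hm' with h | h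
        · exact absurd (h.1.trans h.2) (by linarith [d1.2])
        · exact ⟨by linarith [h.1], by linarith [h.2]⟩
      · intro m hm hm'
        rcases l2.ins m hm hm' with h | h
        · rw [← a3] at h
          exact ⟨by linarith [h.1], by linarith [h.2]⟩
        · exact absurd (h.1.trans h.2) (by linarith [d2.2])
      · have := o1.2 k1
        linarith [this.1, this.2]
      · have := o2.1 k2
        linarith [this.1, this.2]
  obtain ⟨c1, c2, c3⟩ := key
  have hp' : p ≤ (W n).e := by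
    by_contra h
    have h1 := c1 p (not_le.mp h) hp
    rcases hpq.fst with h2 | h2
    · linarith [h1.1]
    · linarith [h1.2]
  have hq' : (W (n + 1 + 1)).e ≤ q := by
    by_contra h
    have h1 := c2 (q + 1) (by omega) (by omega)
    rcases hpq.lst with h2 | h2
    · linarith [h1.1]
    · linarith [h1.2]
  have e01 : (W n).e ≤ (W (n + 1)).e := l1.le
  have m1 : (W n).e ∈ Icc p (q + 1) := ⟨hp', by omega⟩
  have m2 : (W n).e + 1 ∈ Icc p (q + 1) := ⟨by omega, by omega⟩
  have m3 : (W (n + 1 + 1)).e ∈ Icc p (q + 1) := ⟨by omega, by omega⟩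
  have m4 : (W (n + 1 + 1)).e + 1 ∈ Icc p (q + 1) := ⟨by omega, by omega⟩
  rcases hgd.ty p q hpq with (h | h) | h
  · have f1 := h m1 m2 (by omega)
    have f2 := h m3 m4 (by omega)
    rcases c3 with c3 | c3
    · linarith [c3.2]
    · linarith [c3.1]
  · have f1 := h m1 m2 (by omega)
    have f2 := h m3 m4 (by omega)
    rcases c3 with c3 | c3
    · linarith [c3.1]
    · linarith [c3.2]
  · exact h

end GYF

theorem t_GYF : Stmt_GYF := by
  intro _ hC hS N P X Y w hX hXY _ hg a b hab i hi hk ha hb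
  obtain ⟨W, hW⟩ := hS.ex P Y w hg.1
  have hN := hS.pos P Y w hg.1
  obtain ⟨k, hk', hik⟩ := List.getElem_of_mem hi
  have h1 : i = W ((k : ℤ) - 1 + 1) := by
    rw [← hik, hW.get k hk', sub_add_cancel]
  rw [h1] at hk ha hb ⊢
  refine GYF.main hC hN hX hXY hW ((k : ℤ) - 1) ?_ ?_ hab hk ha hb
  · exact not_and_or.mp (GYF.noz hS hg hW ((k : ℤ) - 1))
  · exact not_and_or.mp (GYF.noz hS hg hW ((k : ℤ) - 1 + 1))

end LH
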