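import Pool.Agent.LH.Stmts2

/-!
# Part C: independence of the lines
-/

namespace LH

open Set LG

namespace IN1

/-- Some line separates two vertices. -/
theorem exists_line {N : ℕ} {P : Pg N} {X : Finset ℝ} (hX : GoodX P X)
    (hav : ∀ s ∈ X, ∀ i, P.x i ≠ s) : ∃ s ∈ X, ∃ i j, P.x i < s ∧ s < P.x j := by
  classical
  obtain ⟨l, hl, hl'⟩ := hX.lo
  obtain ⟨r, hr, hr'⟩ := hX.hi
  have h1 : (X.filter fun s => s < P.x 0).Nonempty := ⟨l, Finset.mem_filter.2 ⟨hl, hl' 0⟩⟩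
  have h2 : (X.filter fun s => P.x 0 < s).Nonempty := ⟨r, Finset.mem_filter.2 ⟨hr, hr' 0⟩⟩
  set a := (X.filter fun s => s < P.x 0).max' h1 with ha
  set b := (X.filter fun s => P.x 0 < s).min' h2 with hb
  have ha' := Finset.mem_filter.1 (Finset.max'_mem _ h1)
  have hb' := Finset.mem_filter.1 (Finset.min'_mem _ h2)
  rw [← ha] at ha'
  rw [← hb] at hb'
  have hadj : AdjX X a b := by
    refine ⟨ha'.1, hb'.1, ha'.2.trans hb'.2, fun t ht h => ?_⟩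
    rcases lt_trichotomy t (P.x 0) with h3 | h3 | h3
    · exact absurd (Finset.le_max' _ t (Finset.mem_filter.2 ⟨ht, h3⟩)) (not_le.2 h.1)
    · exact hav t ht 0 h3.symm
    · exact absurd (Finset.min'_le _ t (Finset.mem_filter.2 ⟨ht, h3⟩)) (not_le.2 h.2)
  obtain ⟨i, hi⟩ := (hX.gd a b hadj).out
  rcases hi with hi | hi
  · exact ⟨a, ha'.1, i, 0, hi, ha'.2⟩
  · exact ⟨b, hb'.1, 0, i, hb'.2, hi⟩

/-- The walk of a finer set of lines. -/
theorem refine (hCWP : P_CWP) (hGYF : P_GYF) (hRED : P_RED) (hZAL : P_ZAL) (hUNI : P_UNI)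
    (hWEB : P_WEB) {N : ℕ} {P : Pg N} {X Y : Finset ℝ} {v w : List It} (hX : GoodX P X)
    (hXY : X ⊆ Y) (hY : Gen P Y) (hv : GW P Y v) (hw : GW P X w) : WE (lst P v) (lst P w) := by
  have h1 : YX P X v := hGYF P X Y v hX hXY (fun s hs i => (hY s hs).1 i) hv
  have h2 : CW (v.map (pt P)) := hCWP P X Y v hX hXY hY hv.1 h1
  obtain ⟨v', hv', hy', hc', he'⟩ := hRED P X Y v hX hXY hY hv.1 h1 h2
  obtain ⟨v'', hv'', he''⟩ := hZAL P X v' hX hv' hy' hc'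
  exact hWEB.trans _ _ _ he' (hWEB.trans _ _ _ he'' (hUNI P X v'' w hX hv'' hw))

end IN1

theorem t_IN1 : Stmt_IN1 := by
  intro hSEQ hWEB hCWA hEXW hCWP hGYF hRED hZAL hUNI hPER N P X X' w w' hX hw hX' hw'
  classical
  obtain ⟨X₁, w₁, hX₁, hG₁, hw₁, he₁⟩ := hPER P X w hX hw
  obtain ⟨X₂, w₂, hX₂, hG₂, hw₂, he₂⟩ := hPER P X' w' hX' hw'
  have hN : 0 < N := hSEQ.pos P X w hw.1
  have hG : Gen P (X₁ ∪ X₂) := by
    intro s hs
    rcases Finset.mem_union.1 hs with h | h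
    · exact hG₁ s h
    · exact hG₂ s h
  obtain ⟨l, hl, hl'⟩ := hX₁.lo
  obtain ⟨r, hr, hr'⟩ := hX₁.hi
  obtain ⟨s, hs, i, j, hij⟩ := IN1.exists_line hX₁ fun s hs i => (hG₁ s hs).1 i
  obtain ⟨v, hv⟩ := hEXW P (X₁ ∪ X₂) hN (fun s hs i => (hG s hs).1 i)
    ⟨l, Finset.mem_union_left _ hl, hl'⟩ ⟨r, Finset.mem_union_left _ hr, hr'⟩
    ⟨s, Finset.mem_union_left _ hs, i, j, hij⟩
  have h1 : WE (lst P v) (lst P w₁) := IN1.refine hCWP hGYF hRED hZAL hUNI hWEB hX₁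
    Finset.subset_union_left hG hv hw₁
  have h2 : WE (lst P v) (lst P w₂) := IN1.refine hCWP hGYF hRED hZAL hUNI hWEB hX₂
    Finset.subset_union_right hG hv hw₂
  exact hWEB.trans _ _ _ he₁ (hWEB.trans _ _ _ (hWEB.symm _ _ h1)
    (hWEB.trans _ _ _ h2 (hWEB.symm _ _ he₂)))

end LH
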