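import Pool.Agent.LH.Stmts2

/-!
# INC: increments of the height between two lines
-/

namespace LH

open Set LG

namespace INC

/-- Walking to the right, `x` increasing. -/
lemma xr (hB : P_PGB) {N : ℕ} (P : Pg N) (i : ℤ) (s m M : ℝ) (j : ℤ) (hij : i ≤ j) :
    ∀ t : ℝ, s < t → (∀ k, i < k → k ≤ j → s < P.x k ∧ P.x k < t) →
      (∀ k, i ≤ k → k ≤ j → m ≤ P.y k ∧ P.y k ≤ M) → StrictMonoOn P.x (Icc i (j + 1)) →
      m * (t - s) ≤ P.l j t - P.l i s ∧ P.l j t - P.l i s ≤ M * (t - s) := by
  induction j, hij using Int.leInduction with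
  | base =>
    intro t hst _ hy _
    have h1 := hy i le_rfl le_rfl
    have h2 := hB.dt P i s t
    have h3 : 0 < t - s := sub_pos.2 hst
    rw [h2]
    exact ⟨mul_le_mul_of_nonneg_right h1.1 h3.le, mul_le_mul_of_nonneg_right h1.2 h3.le⟩
  | succ j hj ih =>
    intro t hst hx hy hmo
    have h1 := hx (j + 1) (by omega) le_rfl
    have h2 := ih (P.x (j + 1)) h1.1
      (fun k hk1 hk2 => ⟨(hx k hk1 (by omega)).1,
        hmo ⟨by omega, by omega⟩ ⟨by omega, by omega⟩ (by omega)⟩)
      (fun k hk1 hk2 => hy k hk1 (by omega))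
      (hmo.mono (Icc_subset_Icc le_rfl (by omega)))
    have h3 := hB.dt P (j + 1) (P.x (j + 1)) t
    have h4 := (hB.lz P j).2
    have h5 := (hB.lz P (j + 1)).1
    have h6 := hy (j + 1) (by omega) le_rfl
    have h7 : 0 < t - P.x (j + 1) := sub_pos.2 h1.2
    have h8 := mul_le_mul_of_nonneg_right h6.1 h7.le
    have h9 := mul_le_mul_of_nonneg_right h6.2 h7.le
    rw [h4] at h2
    rw [h5] at h3
    constructor
    · linarith [h2.1]
    · linarith [h2.2]

/-- Walking to the left, `x` decreasing. -/
lemma xl (hB : P_PGB) {N : ℕ} (P : Pg N) (i : ℤ) (t m M : ℝ) (j : ℤ) (hij : i ≤ j) :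
    ∀ s : ℝ, s < t → (∀ k, i < k → k ≤ j → s < P.x k ∧ P.x k < t) →
      (∀ k, i ≤ k → k ≤ j → m ≤ P.y k ∧ P.y k ≤ M) → StrictAntiOn P.x (Icc i (j + 1)) →
      m * (t - s) ≤ P.l i t - P.l j s ∧ P.l i t - P.l j s ≤ M * (t - s) := by
  induction j, hij using Int.leInduction with
  | base =>
    intro s hst _ hy _
    have h1 := hy i le_rfl le_rfl
    have h2 := hB.dt P i s t
    have h3 : 0 < t - s := sub_pos.2 hst
    rw [h2]
    exact ⟨mul_le_mul_of_nonneg_right h1.1 h3.le, mul_le_mul_of_nonneg_right h1.2 h3.le⟩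
  | succ j hj ih =>
    intro s hst hx hy hmo
    have h1 := hx (j + 1) (by omega) le_rfl
    have h2 := ih (P.x (j + 1)) h1.2
      (fun k hk1 hk2 => ⟨hmo ⟨by omega, by omega⟩ ⟨by omega, by omega⟩ (by omega),
        (hx k hk1 (by omega)).2⟩)
      (fun k hk1 hk2 => hy k hk1 (by omega))
      (hmo.mono (Icc_subset_Icc le_rfl (by omega)))
    have h3 := hB.dt P (j + 1) s (P.x (j + 1))
    have h4 := (hB.lz P j).2
    have h5 := (hB.lz P (j + 1)).1
    have h6 := hy (j + 1) (by omega) le_rfl
    have h7 : 0 < P.x (j + 1) - s := sub_pos.2 h1.1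
    have h8 := mul_le_mul_of_nonneg_right h6.1 h7.le
    have h9 := mul_le_mul_of_nonneg_right h6.2 h7.le
    rw [h4] at h2
    rw [h5] at h3
    constructor
    · linarith [h2.1]
    · linarith [h2.2]

end INC

open INC

theorem t_INC : Stmt_INC := by
  intro hB
  refine ⟨?_, ?_⟩
  · intro N P i j s t m M hij hst hx hy h
    rcases h with h | h
    · have hts : 0 < t - s := sub_pos.2 hst
      have hi := hy i le_rfl hij
      have hj := hy j hij le_rfl
      have di := hB.dt P i s t
      have dj := hB.dt P j s t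
      have a1 := mul_le_mul_of_nonneg_right hi.1 hts.le
      have a2 := mul_le_mul_of_nonneg_right hi.2 hts.le
      have a3 := mul_le_mul_of_nonneg_right hj.1 hts.le
      have a4 := mul_le_mul_of_nonneg_right hj.2 hts.le
      rcases eq_or_lt_of_le hij with e | e
      · subst e
        constructor <;> linarith
      · rcases h with h | h
        · have b1 := hB.m1 P i j t e h (fun k h1 h2 => (hx k h1 h2).2)
          have b2 := hB.m2 P i j s e h (fun k h1 h2 => (hx k h1 h2).1)
          constructor <;> linarith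
        · have b1 := hB.m3 P i j t e h (fun k h1 h2 => (hx k h1 h2).2)
          have b2 := hB.m4 P i j s e h (fun k h1 h2 => (hx k h1 h2).1)
          constructor <;> linarith
    · exact xr hB P i s m M j hij t hst hx hy h
  · intro N P i j s t m M hij hst hx hy h
    rcases h with h | h
    · have hts : 0 < t - s := sub_pos.2 hst
      have hi := hy i le_rfl hij
      have hj := hy j hij le_rfl
      have di := hB.dt P i s t
      have dj := hB.dt P j s t
      have a1 := mul_le_mul_of_nonneg_right hi.1 hts.le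
      have a2 := mul_le_mul_of_nonneg_right hi.2 hts.le
      have a3 := mul_le_mul_of_nonneg_right hj.1 hts.le
      have a4 := mul_le_mul_of_nonneg_right hj.2 hts.le
      rcases eq_or_lt_of_le hij with e | e
      · subst e
        constructor <;> linarith
      · rcases h with h | h
        · have b1 := hB.m1 P i j t e h (fun k h1 h2 => (hx k h1 h2).2)
          have b2 := hB.m2 P i j s e h (fun k h1 h2 => (hx k h1 h2).1)
          constructor <;> linarith
        · have b1 := hB.m3 P i j t e h (fun k h1 h2 => (hx k h1 h2).2)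
          have b2 := hB.m4 P i j s e h (fun k h1 h2 => (hx k h1 h2).1)
          constructor <;> linarith
    · exact xl hB P i t m M j hij s hst hx hy h

end LH
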