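import Pool.Agent.LH.Stmts2

/-!
# Module INV: the main theorem of part C, connectedness argument
-/

namespace LH

open Set LG

namespace INV

/-- All good walks of the polygon `P'` are equivalent to the list `L`. -/
def Pr {N : ℕ} (L : List En) (P' : Pg N) : Prop :=
  ∀ (X' : Finset ℝ) (w' : List It), GoodX P' X' → GW P' X' w' → WE L (lst P' w')

/-- One good walk is enough. -/
lemma Pr_of {N : ℕ} (hWEB : P_WEB) (hIN1 : P_IN1) {L : List En} {P' : Pg N} {X₁ : Finset ℝ}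
    {w₁ : List It} (hg : GoodX P' X₁) (hw : GW P' X₁ w₁) (h : WE L (lst P' w₁)) : Pr L P' :=
  fun X' w' hg' hw' => hWEB.trans _ _ _ h (hIN1 P' X₁ X' w₁ w' hg hw hg' hw')

/-- `Pr` is locally constant along a path. -/
lemma local_const {N : ℕ} (hN : 0 < N) (hWEB : P_WEB) (hEXW : P_EXW) (hEGX : P_EGX)
    (hIN1 : P_IN1) (hOPG : P_OPG) (hOPW : P_OPW) (hLOC : P_LOC) (hCWG : P_CWG)
    (F : ℝ → Pg N) (L : List En) (t₀ : ℝ) (he : Emb (F t₀)) (hc : CtA F t₀) :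
    ∀ᶠ t in nhdsWithin t₀ (Icc 0 1), (Pr L (F t₀) ↔ Pr L (F t)) := by
  obtain ⟨X₁, -, hg, hev, hs⟩ := hEGX (F t₀) hN he ∅ (by simp)
  obtain ⟨w₁, hw⟩ := hEXW (F t₀) X₁ hN (fun s hs i h => hev s hs (Or.inl ⟨i, h⟩)) hg.lo hg.hi hs
  have hcw := hCWG (F t₀) X₁ w₁ hg hw
  filter_upwards [hOPG F t₀ X₁ hN hc hg, hOPW F t₀ X₁ w₁ hN hc hw, hLOC F t₀ w₁ hN hc hcw]
    with t h1 h2 h3
  constructor
  · intro h
    exact Pr_of hWEB hIN1 h1 h2 (hWEB.trans _ _ _ (h X₁ w₁ hg hw) h3)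
  · intro h
    exact Pr_of hWEB hIN1 hg hw (hWEB.trans _ _ _ (h X₁ w₁ h1 h2) (hWEB.symm _ _ h3))

end INV

theorem t_INV : Stmt_INV := by
  intro hSEQ hWEB _ hEXW hEGX hIN1 hOPG hOPW hLOC hZSH hCWG N P P' hp X X' w w' hX hw hX' hw'
  obtain ⟨F, hE, hcx, hcy, hcz, h0x, h0y, h1x, h1y⟩ := hp
  have hN : 0 < N := hSEQ.pos P X w hw.1
  have key : INV.Pr (lst P w) (F 0) ↔ INV.Pr (lst P w) (F 1) :=
    isPreconnected_Icc.induction₂ (fun s t => INV.Pr (lst P w) (F s) ↔ INV.Pr (lst P w) (F t))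
      (fun t₀ ht₀ => INV.local_const hN hWEB hEXW hEGX hIN1 hOPG hOPW hLOC hCWG F (lst P w) t₀
        (hE t₀ ht₀) (fun i => ⟨hcx i t₀ ht₀, hcy i t₀ ht₀, hcz i t₀ ht₀⟩))
      (fun _ _ _ _ _ _ h1 h2 => h1.trans h2) (fun _ _ _ _ h => h.symm)
      (left_mem_Icc.mpr zero_le_one) (right_mem_Icc.mpr zero_le_one)
  obtain ⟨a1, -, a3, a4, -⟩ := hZSH P (F 0) w h0x.symm h0y.symm (hCWG P X w hX hw)
  obtain ⟨b1, -, b3, b4, -⟩ := hZSH P' (F 1) w' h1x.symm h1y.symm (hCWG P' X' w' hX' hw')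
  have hPr1 := key.mp (INV.Pr_of hWEB hIN1 (a3 X hX) (a4 X hw) a1)
  exact hWEB.trans _ _ _ (hPr1 X' w' (b3 X' hX') (b4 X' hw')) (hWEB.symm _ _ b1)

end LH
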