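import Pool.Agent.LH.Stmts2

/-!
# Part C of MP_093788_gt: edges near an item
-/

namespace LH

open Set LG

namespace ITM

theorem adj {Y : Finset ℝ} {a s d t : ℝ} (h1 : AdjX Y a s) (h2 : AdjX Y s d)
    (h : AdjX Y s t ∨ AdjX Y t s) : t = a ∨ t = d := by
  obtain ⟨ha, hs, has, h1⟩ := h1
  obtain ⟨-, hd, hsd, h2⟩ := h2
  rcases h with ⟨-, ht, hst, h⟩ | ⟨ht, -, hts, h⟩
  · right
    rcases lt_trichotomy t d with h3 | h3 | h3
    · exact absurd ⟨hst, h3⟩ (h2 t ht)
    · exact h3
    · exact absurd ⟨hsd, h3⟩ (h d hd)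
  · left
    rcases lt_trichotomy t a with h3 | h3 | h3
    · exact absurd ⟨h3, has⟩ (h a ha)
    · exact h3
    · exact absurd ⟨h3, hts⟩ (h1 t ht)

theorem btw_in {a b s d t x : ℝ} (hd : d ≤ b) (ha : a < s) (hs : s < d) (ht : t = a ∨ t = d)
    (h : Btw s t x) : a < x ∧ x < b := by
  unfold Btw at h
  rcases ht with rfl | rfl
  · rcases h with h | h <;> constructor <;> linarith
  · rcases h with h | h <;> constructor <;> linarith

/-- The next edge is in the same component. -/
theorem up {N : ℕ} {P : Pg N} {a b : ℝ} {p q e e' : ℤ} (hC : Comp P a b p q) (he : e ≤ q)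
    (h : ∀ m, e < m → m ≤ e' → a < P.x m ∧ P.x m < b) : e' ≤ q := by
  by_contra hq
  push Not at hq
  have h1 := h (q + 1) (by omega) (by omega)
  rcases hC.lst with h2 | h2 <;> linarith [h1.1, h1.2]

theorem dn {N : ℕ} {P : Pg N} {a b : ℝ} {p q e e' : ℤ} (hC : Comp P a b p q) (he : p ≤ e)
    (h : ∀ m, e' < m → m ≤ e → a < P.x m ∧ P.x m < b) : p ≤ e' := by
  by_contra hq
  push Not at hq
  have h1 := h p (by omega) (by omega)
  rcases hC.fst with h2 | h2 <;> linarith [h1.1, h1.2]

theorem YM_sub {N : ℕ} {P : Pg N} {p q p' q' : ℤ} (h : YM P p q) (h1 : p ≤ p') (h2 : q' ≤ q) :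
    YM P p' q' := by
  rcases h with h | h
  · exact Or.inl (h.mono (Icc_subset_Icc h1 h2))
  · exact Or.inr (h.mono (Icc_subset_Icc h1 h2))

theorem YM_sh (hP : P_PGB) {N : ℕ} {P : Pg N} {p q : ℤ} (k : ℤ) (h : YM P p q) :
    YM P (p + k * N) (q + k * N) := by
  have key : ∀ i, P.y (i - k * N) = P.y i := by
    intro i
    have := (hP.sh P (i - k * N) k).2.1
    rw [sub_add_cancel] at this
    exact this.symm
  rcases h with h | h
  · refine Or.inl fun i hi j hj hij => ?_
    rw [← key i, ← key j]
    exact h ⟨by linarith [hi.1], by linarith [hi.2]⟩ ⟨by linarith [hj.1], by linarith [hj.2]⟩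
      (by linarith)
  · refine Or.inr fun i hi j hj hij => ?_
    rw [← key i, ← key j]
    exact h ⟨by linarith [hi.1], by linarith [hi.2]⟩ ⟨by linarith [hj.1], by linarith [hj.2]⟩
      (by linarith)

/-- The component of a turn is monotone in `y`. -/
theorem turn (hP : P_PGB) (hC : P_CMP) (hS : P_SEQ) {N : ℕ} {P : Pg N} {a b s d : ℝ}
    {Y : Finset ℝ} {w : List It} {W : ℤ → It} (h : Sit P a b s d Y w W) {n : ℤ}
    (hk : (W n).k = .R ∨ (W n).k = .L) (hx : a < P.x ((W n).e + 1) ∧ P.x ((W n).e + 1) < b)
    {p q : ℤ} (hpq : Comp P a b p q) (h1 : p ≤ (W n).e) (h2 : (W n).e ≤ q) : YM P p q := by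
  obtain ⟨i, hi, k, hik, -, hie⟩ := hS.mem P Y w W h.sq n
  have hxi : P.x ((W n).e + 1) = P.x (i.e + 1) := by
    have := (hP.sh P (i.e + 1) k).1
    rw [← this, hie]
    congr 1
    ring
  rw [hxi] at hx
  rw [hik] at hk
  obtain ⟨p1, q1, hpq1, h3, h4, hy⟩ := h.yf i hi hk hx.1 hx.2
  have h5 := hC.sh P a b p1 q1 k hpq1
  obtain ⟨rfl, rfl⟩ := hC.un P a b p q (p1 + k * N) (q1 + k * N) (W n).e hpq h5 h1 h2
    (by rw [hie]; linarith) (by rw [hie]; linarith)
  exact YM_sh hP k hy

end ITM

open ITM in
theorem t_ITM : Stmt_ITM := by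
  intro hP hI hC hS N P a b s d Y w W h n hn
  have hN : 0 < N := hS.pos P Y w (hS.ew P Y w W h.sq)
  have has : a < s := h.l.2.2.1
  have hsd : s < d := h.r.2.2.1
  have hdb := h.db
  -- the neighbours
  have L1 : Lnk P Y (W n) (W (n + 1)) := h.sq.lnk n
  have L0 : Lnk P Y (W (n - 1)) (W n) := by
    have := h.sq.lnk (n - 1)
    rwa [sub_add_cancel] at this
  have T1 : (W (n + 1)).t = a ∨ (W (n + 1)).t = d := by
    have := L1.adj
    rw [hn] at this
    exact adj h.l h.r this
  have T0 : (W (n - 1)).t = a ∨ (W (n - 1)).t = d := by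
    have := L0.adj
    rw [hn] at this
    exact adj h.l h.r this.symm
  have I1 : ∀ m, (W n).e < m → m ≤ (W (n + 1)).e → a < P.x m ∧ P.x m < b := by
    intro m h1 h2
    have := L1.ins m h1 h2
    rw [hn] at this
    exact btw_in hdb has hsd T1 this
  have I0 : ∀ m, (W (n - 1)).e < m → m ≤ (W n).e → a < P.x m ∧ P.x m < b := by
    intro m h1 h2
    have := L0.ins m h1 h2
    rw [hn] at this
    exact btw_in hdb has hsd T0 (Or.symm this)
  have hturn : (W n).k = .R ∨ (W n).k = .L → a < P.x ((W n).e + 1) ∧ P.x ((W n).e + 1) < b := by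
    intro hk
    have := L1.tl hk
    exact I1 _ (by omega) (by omega)
  have hok := h.sq.ok n
  have hM : Mts P a b (W n).e := by
    rcases hk : (W n).k with _ | _ | _ | _
    · have := hok.1 hk
      rw [hn] at this
      exact ⟨fun h1 => by linarith [h1.2], fun h1 => by linarith [h1.1]⟩
    · have := hok.2 hk
      rw [hn] at this
      exact ⟨fun h1 => by linarith [h1.1], fun h1 => by linarith [h1.2]⟩
    · have := hturn (Or.inl hk)
      exact ⟨fun h1 => by linarith [h1.2], fun h1 => by linarith [h1.2]⟩
    · have := hturn (Or.inr hk)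
      exact ⟨fun h1 => by linarith [h1.2], fun h1 => by linarith [h1.2]⟩
  obtain ⟨p, q, hpq, hp, hq⟩ := hC.ex P a b hN h.gd (W n).e hM
  have U1 : (W (n + 1)).e ≤ q := up hpq hq I1
  have D0 : p ≤ (W (n - 1)).e := dn hpq hp I0
  have E1 := L1.le
  have E0 := L0.le
  refine ⟨p, q, hpq, hp, hq, ?_, ?_, ?_⟩
  · rintro x (⟨j, hj, hjt, rfl⟩ | ⟨-, rfl⟩)
    · rcases hj with rfl | rfl
      · rcases T0 with h1 | h1
        · exact ⟨_, D0, by omega, by rw [h1]⟩
        · rw [h1, hn] at hjt
          linarith
      · rcases T1 with h1 | h1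
        · exact ⟨_, by omega, U1, by rw [h1]⟩
        · rw [h1, hn] at hjt
          linarith
    · exact ⟨_, hp, hq, rfl⟩
  · rintro x (⟨j, hj, hjt, rfl⟩ | ⟨-, rfl⟩)
    · rcases hj with rfl | rfl
      · rcases T0 with h1 | h1
        · rw [h1, hn] at hjt
          linarith
        · exact ⟨_, D0, by omega, by rw [h1]⟩
      · rcases T1 with h1 | h1
        · rw [h1, hn] at hjt
          linarith
        · exact ⟨_, by omega, U1, by rw [h1]⟩
    · exact ⟨_, hp, hq, rfl⟩
  · rintro x hx m M hb
    rcases hx with ⟨j, hj, hjt, rfl⟩ | ⟨-, rfl⟩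
    · rcases hj with rfl | rfl
      · -- the previous item
        have h1 : (W (n - 1)).t = d := by
          rcases T0 with h1 | h1
          · rw [h1, hn] at hjt
            linarith
          · exact h1
        rw [h1]
        refine hI.l P (W (n - 1)).e (W n).e s d m M E0 hsd ?_
          (fun k h2 h3 => hb k (by omega) (by omega)) ?_
        · intro k h2 h3
          have := L0.ins k h2 h3
          rw [hn, h1] at this
          rcases this with h4 | h4
          · linarith [h4.1, h4.2]
          · exact h4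
        · have hdir := L0.dir
          rw [hn, h1] at hdir
          have h2 : ¬ (W n).k.ar := by
            rcases hdir with ⟨-, -, h3⟩ | ⟨-, h3, -⟩
            · linarith
            · exact h3
          rcases hk : (W n).k with _ | _ | _ | _
          · rw [hk] at h2
            exact absurd trivial h2
          · have h3 := hok.2 hk
            rcases h.gd.ty p q hpq with (h4 | h4) | h4
            · have h5 := h4 (show (W n).e ∈ Icc p (q + 1) from ⟨hp, by omega⟩)
                (show (W n).e + 1 ∈ Icc p (q + 1) from ⟨by omega, by omega⟩) (by omega)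
              linarith [h3.1, h3.2]
            · exact Or.inr (h4.mono (Icc_subset_Icc D0 (by omega)))
            · exact Or.inl (YM_sub h4 D0 hq)
          · rw [hk] at h2
            exact absurd trivial h2
          · exact Or.inl (YM_sub (turn hP hC hS h (Or.inr hk) (hturn (Or.inr hk)) hpq hp hq) D0 hq)
      · -- the next item
        have h1 : (W (n + 1)).t = d := by
          rcases T1 with h1 | h1
          · rw [h1, hn] at hjt
            linarith
          · exact h1
        rw [h1]
        refine hI.r P (W n).e (W (n + 1)).e s d m M E1 hsd ?_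
          (fun k h2 h3 => hb k (by omega) (by omega)) ?_
        · intro k h2 h3
          have := L1.ins k h2 h3
          rw [hn, h1] at this
          rcases this with h4 | h4
          · exact h4
          · linarith [h4.1, h4.2]
        · have hdir := L1.dir
          rw [hn, h1] at hdir
          have h2 : (W n).k.fw := by
            rcases hdir with ⟨h3, -, -⟩ | ⟨-, -, h3⟩
            · exact h3
            · linarith
          rcases hk : (W n).k with _ | _ | _ | _
          · have h3 := hok.1 hk
            rcases h.gd.ty p q hpq with (h4 | h4) | h4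
            · exact Or.inr (h4.mono (Icc_subset_Icc hp (by omega)))
            · have h5 := h4 (show (W n).e ∈ Icc p (q + 1) from ⟨hp, by omega⟩)
                (show (W n).e + 1 ∈ Icc p (q + 1) from ⟨by omega, by omega⟩) (by omega)
              linarith [h3.1, h3.2]
            · exact Or.inl (YM_sub h4 hp U1)
          · rw [hk] at h2
            exact absurd h2 id
          · rw [hk] at h2
            exact absurd h2 id
          · exact Or.inl (YM_sub (turn hP hC hS h (Or.inr hk) (hturn (Or.inr hk)) hpq hp hq) hp U1)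
    · have h1 := hP.dt P (W n).e s d
      rw [h1]
      have h2 := hb _ hp hq
      constructor
      · exact mul_le_mul_of_nonneg_right h2.1 (by linarith)
      · exact mul_le_mul_of_nonneg_right h2.2 (by linarith)

end LH
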