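import Pool.Agent.LH.Stmts2

/-!
# A walk has at least four entries
-/

namespace LH

open Set LG

namespace LEN

/-- The number of the entries of a walk. -/
theorem len_ents {N : ℕ} (P : Pg N) (w : List It) :
    (ents (w.map (pt P))).length = w.countP (fun i => decide (i.k = .R)) +
      w.countP (fun i => decide (i.k = .L)) +
      2 * w.countP (fun i => decide (i.k = .rt ∨ i.k = .lt)) := by
  induction w with
  | nil => rfl
  | cons i w ih =>
    have h1 : ents ((i :: w).map (pt P)) = ent (pt P i) ++ ents (w.map (pt P)) := by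
      unfold ents
      rw [List.map_cons, List.flatMap_cons]
    rw [h1, List.length_append, ih, List.countP_cons, List.countP_cons, List.countP_cons]
    obtain ⟨k, t, e⟩ := i
    cases k <;> simp [ent, pt] <;> omega

theorem adj_pred {Y : Finset ℝ} {a a' t : ℝ} (h : AdjX Y a t) (h' : AdjX Y a' t) : a = a' := by
  obtain ⟨ha, ht, hlt, hn⟩ := h
  obtain ⟨ha', ht', hlt', hn'⟩ := h'
  rcases lt_trichotomy a a' with h1 | h1 | h1
  · exact absurd ⟨h1, hlt'⟩ (hn a' ha')
  · exact h1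
  · exact absurd ⟨h1, hlt⟩ (hn' a ha)

theorem adj_succ {Y : Finset ℝ} {a t t' : ℝ} (h : AdjX Y a t) (h' : AdjX Y a t') : t = t' := by
  obtain ⟨ha, ht, hlt, hn⟩ := h
  obtain ⟨ha', ht', hlt', hn'⟩ := h'
  rcases lt_trichotomy t t' with h1 | h1 | h1
  · exact absurd ⟨hlt, h1⟩ (hn' t ht)
  · exact h1
  · exact absurd ⟨hlt', h1⟩ (hn t' ht')

/-- The kinds and the lines of an item that is followed by another one. -/
theorem link_R {N : ℕ} {P : Pg N} {Y : Finset ℝ} {i j : It} (h : Lnk P Y i j) (hi : i.k = .R) :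
    (j.k = .lt ∨ j.k = .L) ∧ AdjX Y j.t i.t := by
  obtain ⟨hle, htl, hadj, hins, hdir⟩ := h
  rcases hdir with ⟨h1, h2, h3⟩ | ⟨h1, h2, h3⟩
  · rw [hi] at h1; exact absurd h1 id
  · refine ⟨?_, ?_⟩
    · cases hk : j.k with
      | rt => rw [hk] at h2; exact absurd trivial h2
      | lt => exact Or.inl rfl
      | R => rw [hk] at h2; exact absurd trivial h2
      | L => exact Or.inr rfl
    · rcases hadj with h4 | h4
      · exact absurd h4.2.2.1 (not_lt.mpr h3.le)
      · exact h4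

theorem link_L {N : ℕ} {P : Pg N} {Y : Finset ℝ} {i j : It} (h : Lnk P Y i j) (hi : i.k = .L) :
    (j.k = .rt ∨ j.k = .R) ∧ AdjX Y i.t j.t := by
  obtain ⟨hle, htl, hadj, hins, hdir⟩ := h
  rcases hdir with ⟨h1, h2, h3⟩ | ⟨h1, h2, h3⟩
  · refine ⟨?_, ?_⟩
    · cases hk : j.k with
      | rt => exact Or.inl rfl
      | lt => rw [hk] at h2; exact absurd h2 id
      | R => exact Or.inr rfl
      | L => rw [hk] at h2; exact absurd h2 id
    · rcases hadj with h4 | h4
      · exact h4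
      · exact absurd h4.2.2.1 (not_lt.mpr h3.le)
  · rw [hi] at h1; exact absurd trivial h1

theorem link_R' {N : ℕ} {P : Pg N} {Y : Finset ℝ} {i j : It} (h : Lnk P Y i j) (hj : j.k = .R) :
    (i.k = .rt ∨ i.k = .L) ∧ AdjX Y i.t j.t := by
  obtain ⟨hle, htl, hadj, hins, hdir⟩ := h
  rcases hdir with ⟨h1, h2, h3⟩ | ⟨h1, h2, h3⟩
  · refine ⟨?_, ?_⟩
    · cases hk : i.k with
      | rt => exact Or.inl rfl
      | lt => rw [hk] at h1; exact absurd h1 id
      | R => rw [hk] at h1; exact absurd h1 id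
      | L => exact Or.inr rfl
    · rcases hadj with h4 | h4
      · exact h4
      · exact absurd h4.2.2.1 (not_lt.mpr h3.le)
  · rw [hj] at h2; exact absurd trivial h2

theorem link_L' {N : ℕ} {P : Pg N} {Y : Finset ℝ} {i j : It} (h : Lnk P Y i j) (hj : j.k = .L) :
    (i.k = .lt ∨ i.k = .R) ∧ AdjX Y j.t i.t := by
  obtain ⟨hle, htl, hadj, hins, hdir⟩ := h
  rcases hdir with ⟨h1, h2, h3⟩ | ⟨h1, h2, h3⟩
  · rw [hj] at h2; exact absurd h2 id
  · refine ⟨?_, ?_⟩
    · cases hk : i.k with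
      | rt => rw [hk] at h1; exact absurd trivial h1
      | lt => exact Or.inl rfl
      | R => exact Or.inr rfl
      | L => rw [hk] at h1; exact absurd trivial h1
    · rcases hadj with h4 | h4
      · exact absurd h4.2.2.1 (not_lt.mpr h3.le)
      · exact h4

/-- A walk has a right turn. -/
theorem ex_R {N : ℕ} {P : Pg N} {Y : Finset ℝ} {w : List It} {W : ℤ → It} (hS : P_SEQ)
    (h : Sq P Y w W) : ∃ n, (W n).k = .R := by
  obtain ⟨k, hk, hmax⟩ := (Finset.range w.length).exists_max_image (fun k : ℕ => (W k).t)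
    ⟨0, Finset.mem_range.mpr h.ne⟩
  have hm : ∀ n, (W n).t ≤ (W k).t := by
    intro n
    obtain ⟨i, hi, -, -, ht, -⟩ := hS.mem P Y w W h n
    obtain ⟨l, hl, rfl⟩ := List.getElem_of_mem hi
    rw [ht, h.get l hl]
    exact hmax l (Finset.mem_range.mpr hl)
  refine ⟨k, ?_⟩
  have h1 := (h.lnk k).dir
  have h2 := (h.lnk ((k : ℤ) - 1)).dir
  rw [sub_add_cancel] at h2
  cases hk' : (W k).k with
  | rt =>
    rcases h1 with ⟨-, -, h3⟩ | ⟨h3, -, -⟩
    · exact absurd h3 (not_lt.mpr (hm _))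
    · rw [hk'] at h3; exact absurd trivial h3
  | lt =>
    rcases h2 with ⟨-, h3, -⟩ | ⟨-, -, h3⟩
    · rw [hk'] at h3; exact absurd h3 id
    · exact absurd h3 (not_lt.mpr (hm _))
  | R => rfl
  | L =>
    rcases h1 with ⟨-, -, h3⟩ | ⟨h3, -, -⟩
    · exact absurd h3 (not_lt.mpr (hm _))
    · rw [hk'] at h3; exact absurd trivial h3

/-- A walk has a left turn. -/
theorem ex_L {N : ℕ} {P : Pg N} {Y : Finset ℝ} {w : List It} {W : ℤ → It} (hS : P_SEQ)
    (h : Sq P Y w W) : ∃ n, (W n).k = .L := by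
  obtain ⟨k, hk, hmin⟩ := (Finset.range w.length).exists_min_image (fun k : ℕ => (W k).t)
    ⟨0, Finset.mem_range.mpr h.ne⟩
  have hm : ∀ n, (W k).t ≤ (W n).t := by
    intro n
    obtain ⟨i, hi, -, -, ht, -⟩ := hS.mem P Y w W h n
    obtain ⟨l, hl, rfl⟩ := List.getElem_of_mem hi
    rw [ht, h.get l hl]
    exact hmin l (Finset.mem_range.mpr hl)
  refine ⟨k, ?_⟩
  have h1 := (h.lnk k).dir
  have h2 := (h.lnk ((k : ℤ) - 1)).dir
  rw [sub_add_cancel] at h2
  cases hk' : (W k).k with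
  | rt =>
    rcases h2 with ⟨-, -, h3⟩ | ⟨-, h3, -⟩
    · exact absurd h3 (not_lt.mpr (hm _))
    · rw [hk'] at h3; exact absurd trivial h3
  | lt =>
    rcases h1 with ⟨h3, -, -⟩ | ⟨-, -, h3⟩
    · rw [hk'] at h3; exact absurd h3 id
    · exact absurd h3 (not_lt.mpr (hm _))
  | R =>
    rcases h1 with ⟨h3, -, -⟩ | ⟨-, -, h3⟩
    · rw [hk'] at h3; exact absurd h3 id
    · exact absurd h3 (not_lt.mpr (hm _))
  | L => rfl

/-- A strictly increasing sequence of integers passes every integer. -/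
theorem ex_step {e : ℤ → ℤ} (he : ∀ n, e n < e (n + 1)) (m : ℤ) :
    ∃ n, e n < m ∧ m ≤ e (n + 1) := by
  have h1 : ∀ j : ℕ, e 0 + j ≤ e j ∧ e (-j) ≤ e 0 - j := by
    intro j
    induction j with
    | zero => simp
    | succ j ih =>
      have h2 := he j
      have h3 := he (-(j : ℤ) - 1)
      rw [sub_add_cancel] at h3
      have h4 : (-((j + 1 : ℕ) : ℤ)) = -(j : ℤ) - 1 := by push_cast; ring
      rw [h4]
      push_cast
      constructor
      · linarith [ih.1]
      · linarith [ih.2]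
  have hb : ∃ b : ℤ, ∀ z, e z < m → z ≤ b := by
    refine ⟨max (m - e 0) 0, fun z hz => ?_⟩
    rcases le_or_gt z 0 with h | h
    · exact h.trans (le_max_right _ _)
    · have h5 := (h1 z.toNat).1
      rw [Int.toNat_of_nonneg h.le] at h5
      exact le_trans (by linarith) (le_max_left _ _)
  have hi : ∃ z, e z < m := by
    refine ⟨-((e 0 - m).toNat + 1 : ℕ), ?_⟩
    have h5 := (h1 ((e 0 - m).toNat + 1)).2
    have h6 := Int.self_le_toNat (e 0 - m)
    refine lt_of_le_of_lt h5 ?_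
    push_cast
    linarith
  obtain ⟨n, hn, hn'⟩ := Int.exists_greatest_of_bdd hb hi
  refine ⟨n, hn, ?_⟩
  by_contra h
  have := hn' (n + 1) (not_le.mp h)
  linarith

/-- A walk has a passing item. -/
theorem ex_pass {N : ℕ} {P : Pg N} {X Y : Finset ℝ} {w : List It} {W : ℤ → It} (hS : P_SEQ)
    (hX : GoodX P X) (hXY : X ⊆ Y) (h : Sq P Y w W) : ∃ n, (W n).k = .rt ∨ (W n).k = .lt := by
  by_contra hno
  have hRL : ∀ n, (W n).k = .R ∨ (W n).k = .L := by
    intro n
    cases hk : (W n).k with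
    | rt => exact absurd ⟨n, Or.inl hk⟩ hno
    | lt => exact absurd ⟨n, Or.inr hk⟩ hno
    | R => exact Or.inl rfl
    | L => exact Or.inr rfl
  obtain ⟨n0, hn0⟩ := ex_R hS h
  have hR : ∀ n, (W n).k = .R → (W (n + 1)).k = .L ∧ AdjX Y (W (n + 1)).t (W n).t := by
    intro n hn
    have h1 := link_R (h.lnk n) hn
    refine ⟨?_, h1.2⟩
    rcases hRL (n + 1) with h2 | h2
    · rcases h1.1 with h3 | h3 <;> rw [h3] at h2 <;> cases h2
    · exact h2
  have hL : ∀ n, (W n).k = .L → (W (n + 1)).k = .R ∧ AdjX Y (W n).t (W (n + 1)).t := by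
    intro n hn
    have h1 := link_L (h.lnk n) hn
    refine ⟨?_, h1.2⟩
    rcases hRL (n + 1) with h2 | h2
    · exact h2
    · rcases h1.1 with h3 | h3 <;> rw [h3] at h2 <;> cases h2
  have hR' : ∀ n, (W n).k = .R → (W (n - 1)).k = .L ∧ AdjX Y (W (n - 1)).t (W n).t := by
    intro n hn
    have h0 := h.lnk (n - 1)
    rw [sub_add_cancel] at h0
    have h1 := link_R' h0 hn
    refine ⟨?_, h1.2⟩
    rcases hRL (n - 1) with h2 | h2
    · rcases h1.1 with h3 | h3 <;> rw [h3] at h2 <;> cases h2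
    · exact h2
  have hL' : ∀ n, (W n).k = .L → (W (n - 1)).k = .R ∧ AdjX Y (W n).t (W (n - 1)).t := by
    intro n hn
    have h0 := h.lnk (n - 1)
    rw [sub_add_cancel] at h0
    have h1 := link_L' h0 hn
    refine ⟨?_, h1.2⟩
    rcases hRL (n - 1) with h2 | h2
    · exact h2
    · rcases h1.1 with h3 | h3 <;> rw [h3] at h2 <;> cases h2
  have hadj : AdjX Y (W (n0 + 1)).t (W n0).t := (hR n0 hn0).2
  -- the two lines
  have key : ∀ j : ℕ, (((W (n0 + j)).k = .R ∧ (W (n0 + j)).t = (W n0).t) ∨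
      ((W (n0 + j)).k = .L ∧ (W (n0 + j)).t = (W (n0 + 1)).t)) ∧
      (((W (n0 - j)).k = .R ∧ (W (n0 - j)).t = (W n0).t) ∨
      ((W (n0 - j)).k = .L ∧ (W (n0 - j)).t = (W (n0 + 1)).t)) := by
    intro j
    induction j with
    | zero =>
      rw [Nat.cast_zero, add_zero, sub_zero]
      exact ⟨Or.inl ⟨hn0, rfl⟩, Or.inl ⟨hn0, rfl⟩⟩
    | succ j ih =>
      have e1 : n0 + ((j + 1 : ℕ) : ℤ) = n0 + j + 1 := by push_cast; ring
      have e2 : n0 - ((j + 1 : ℕ) : ℤ) = n0 - j - 1 := by push_cast; ring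
      rw [e1, e2]
      constructor
      · rcases ih.1 with ⟨h1, h2⟩ | ⟨h1, h2⟩
        · obtain ⟨h3, h4⟩ := hR _ h1
          rw [h2] at h4
          exact Or.inr ⟨h3, adj_pred h4 hadj⟩
        · obtain ⟨h3, h4⟩ := hL _ h1
          rw [h2] at h4
          exact Or.inl ⟨h3, adj_succ h4 hadj⟩
      · rcases ih.2 with ⟨h1, h2⟩ | ⟨h1, h2⟩
        · obtain ⟨h3, h4⟩ := hR' _ h1
          rw [h2] at h4
          exact Or.inr ⟨h3, adj_pred h4 hadj⟩
        · obtain ⟨h3, h4⟩ := hL' _ h1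
          rw [h2] at h4
          exact Or.inl ⟨h3, adj_succ h4 hadj⟩
  have hall : ∀ n, ((W n).k = .R ∧ (W n).t = (W n0).t) ∨
      ((W n).k = .L ∧ (W n).t = (W (n0 + 1)).t) := by
    intro n
    rcases le_total n0 n with hn | hn
    · have h1 := (key (n - n0).toNat).1
      rw [Int.toNat_of_nonneg (by linarith)] at h1
      have e1 : n0 + (n - n0) = n := by ring
      rwa [e1] at h1
    · have h1 := (key (n0 - n).toNat).2
      rw [Int.toNat_of_nonneg (by linarith)] at h1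
      have e1 : n0 - (n0 - n) = n := by ring
      rwa [e1] at h1
  have hin : ∀ m, (W (n0 + 1)).t < P.x m ∧ P.x m < (W n0).t := by
    intro m
    obtain ⟨n, hn1, hn2⟩ := ex_step (e := fun n => (W n).e)
      (fun n => (h.lnk n).tl (hRL n)) m
    have h1 := (h.lnk n).ins m hn1 hn2
    rcases hall n with ⟨h2, h3⟩ | ⟨h2, h3⟩
    · have h4 := (hR n h2).1
      rcases hall (n + 1) with ⟨h5, h6⟩ | ⟨h5, h6⟩
      · rw [h5] at h4; cases h4
      · rw [h3, h6] at h1
        rcases h1 with ⟨h7, h8⟩ | ⟨h7, h8⟩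
        · exact absurd (h7.trans h8) (not_lt.mpr hadj.2.2.1.le)
        · exact ⟨h7, h8⟩
    · have h4 := (hL n h2).1
      rcases hall (n + 1) with ⟨h5, h6⟩ | ⟨h5, h6⟩
      · rw [h3, h6] at h1
        rcases h1 with ⟨h7, h8⟩ | ⟨h7, h8⟩
        · exact ⟨h7, h8⟩
        · exact absurd (h7.trans h8) (not_lt.mpr hadj.2.2.1.le)
      · rw [h5] at h4; cases h4
  -- the cell of `X`
  obtain ⟨a0, ha0, ha0'⟩ := hX.lo
  obtain ⟨b0, hb0, hb0'⟩ := hX.hi
  have hno2 : ∀ t ∈ X, t ≤ (W (n0 + 1)).t ∨ (W n0).t ≤ t := by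
    intro t ht
    by_contra hc
    rw [not_or, not_le, not_le] at hc
    exact hadj.2.2.2 t (hXY ht) hc
  have hA : (X.filter fun t => t ≤ (W (n0 + 1)).t).Nonempty := by
    refine ⟨a0, Finset.mem_filter.mpr ⟨ha0, ?_⟩⟩
    rcases hno2 a0 ha0 with h1 | h1
    · exact h1
    · exact absurd (ha0' 0) (not_lt.mpr ((hin 0).2.le.trans h1))
  have hB : (X.filter fun t => (W n0).t ≤ t).Nonempty := by
    refine ⟨b0, Finset.mem_filter.mpr ⟨hb0, ?_⟩⟩
    rcases hno2 b0 hb0 with h1 | h1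
    · exact absurd (hb0' 0) (not_lt.mpr (h1.trans (hin 0).1.le))
    · exact h1
  obtain ⟨a, haM, ha⟩ := Finset.exists_max_image _ id hA
  obtain ⟨b, hbM, hb⟩ := Finset.exists_min_image _ id hB
  rw [Finset.mem_filter] at haM hbM
  have hab : AdjX X a b := by
    refine ⟨haM.1, hbM.1, lt_of_le_of_lt haM.2 (lt_of_lt_of_le hadj.2.2.1 hbM.2), ?_⟩
    rintro t ht ⟨h1, h2⟩
    rcases hno2 t ht with h3 | h3
    · exact absurd h1 (not_lt.mpr (ha t (Finset.mem_filter.mpr ⟨ht, h3⟩)))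
    · exact absurd h2 (not_lt.mpr (hb t (Finset.mem_filter.mpr ⟨ht, h3⟩)))
  obtain ⟨i, hi⟩ := (hX.gd a b hab).out
  rcases hi with h1 | h1
  · exact absurd h1 (not_lt.mpr (haM.2.trans (hin i).1.le))
  · exact absurd h1 (not_lt.mpr ((hin i).2.le.trans hbM.2))

end LEN

open LEN in
theorem t_LEN : Stmt_LEN := by
  intro hS N P X Y w hX hXY hw
  obtain ⟨W, hW⟩ := hS.ex P Y w hw
  have hc : ∀ p : Kd → Prop, ∀ _ : DecidablePred p, (∃ n, p (W n).k) →
      0 < w.countP (fun i => decide (p i.k)) := by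
    rintro p hp ⟨n, hn⟩
    obtain ⟨i, hi, -, hk, -, -⟩ := hS.mem P Y w W hW n
    rw [List.countP_pos_iff]
    refine ⟨i, hi, ?_⟩
    rw [hk] at hn
    exact decide_eq_true hn
  have h1 := hc (fun k => k = .R) (fun _ => inferInstance) (ex_R hS hW)
  have h2 := hc (fun k => k = .L) (fun _ => inferInstance) (ex_L hS hW)
  have h3 := hc (fun k => k = .rt ∨ k = .lt) (fun _ => inferInstance) (ex_pass hS hX hXY hW)
  rw [len_ents]
  omega

end LH
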