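import Pool.Agent.LH.Stmts2

/-!
# LOC: the cyclic list does not change locally
-/

namespace LH

open Set LG

namespace LOC

variable {N : ℕ}

theorem ent_c {p : Pt} (h : p.k ≠ .L) : (Sum.inl p.c : En) ∈ ent p := by
  unfold ent
  cases hk : p.k
  · simp
  · simp
  · simp
  · exact absurd hk h

theorem ent_r {p : Pt} (h : p.k ≠ .R) : (Sum.inr p.r : En) ∈ ent p := by
  unfold ent
  cases hk : p.k
  · simp
  · simp
  · exact absurd hk h
  · simp

theorem inl_ent {c : Q} {p : Pt} (h : Sum.inl c ∈ ent p) : p.k ≠ .L ∧ p.c = c := by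
  unfold ent at h
  cases hk : p.k <;> simp [hk] at h <;> simp [h]

theorem inr_ent {r : Q} {p : Pt} (h : Sum.inr r ∈ ent p) : p.k ≠ .R ∧ p.r = r := by
  unfold ent at h
  cases hk : p.k <;> simp [hk] at h <;> simp [h]

theorem lst_eq (P : Pg N) (w : List It) : lst P w = w.flatMap fun i => ent (pt P i) := by
  unfold lst ents
  rw [List.flatMap_map]

theorem inl_lst {P : Pg N} {w : List It} {c : Q} (h : Sum.inl c ∈ lst P w) :
    ∃ i ∈ w, i.k ≠ .L ∧ (pt P i).c = c := by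
  rw [lst_eq] at h
  obtain ⟨i, hi, hi'⟩ := List.mem_flatMap.1 h
  exact ⟨i, hi, inl_ent hi'⟩

theorem inr_lst {P : Pg N} {w : List It} {r : Q} (h : Sum.inr r ∈ lst P w) :
    ∃ i ∈ w, i.k ≠ .R ∧ (pt P i).r = r := by
  rw [lst_eq] at h
  obtain ⟨i, hi, hi'⟩ := List.mem_flatMap.1 h
  exact ⟨i, hi, inr_ent hi'⟩

theorem disj {P : Pg N} {w : List It} (h : (lst P w).Nodup) {i j : It} (hi : i ∈ w) (hj : j ∈ w)
    {x : En} (h1 : x ∈ ent (pt P i)) (h2 : x ∈ ent (pt P j)) : i = j := by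
  rw [lst_eq, List.nodup_flatMap] at h
  by_contra hne
  have : Std.Symm (Function.onFun List.Disjoint fun i => ent (pt P i)) :=
    ⟨fun a b hab => List.Disjoint.symm hab⟩
  have := h.2.forall hi hj hne
  exact this h1 h2

theorem uniq_c {P : Pg N} {w : List It} (h : (lst P w).Nodup) {i j : It} (hi : i ∈ w) (hj : j ∈ w)
    (ki : i.k ≠ .L) (kj : j.k ≠ .L) (he : (pt P i).c = (pt P j).c) : i = j := by
  refine disj h hi hj (x := Sum.inl (pt P i).c) (ent_c ki) ?_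
  rw [he]
  exact ent_c kj

theorem uniq_r {P : Pg N} {w : List It} (h : (lst P w).Nodup) {i j : It} (hi : i ∈ w) (hj : j ∈ w)
    (ki : i.k ≠ .R) (kj : j.k ≠ .R) (he : (pt P i).r = (pt P j).r) : i = j := by
  refine disj h hi hj (x := Sum.inr (pt P i).r) (ent_r ki) ?_
  rw [he]
  exact ent_r kj

/-- The induced map on columns. -/
theorem exC (P P' : Pg N) (w : List It) (h : (lst P w).Nodup) :
    ∃ φ : Q → Q, ∀ i ∈ w, i.k ≠ .L → φ (pt P i).c = (pt P' i).c := by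
  classical
  refine ⟨fun c => if hc : ∃ i ∈ w, i.k ≠ .L ∧ (pt P i).c = c then (pt P' hc.choose).c else c, ?_⟩
  intro i hi ki
  have hc : ∃ j ∈ w, j.k ≠ .L ∧ (pt P j).c = (pt P i).c := ⟨i, hi, ki, rfl⟩
  simp only [hc, dite_true]
  have hs := hc.choose_spec
  rw [uniq_c h hs.1 hi hs.2.1 ki hs.2.2]

/-- The induced map on rows. -/
theorem exR (P P' : Pg N) (w : List It) (h : (lst P w).Nodup) :
    ∃ ψ : Q → Q, ∀ i ∈ w, i.k ≠ .R → ψ (pt P i).r = (pt P' i).r := by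
  classical
  refine ⟨fun c => if hc : ∃ i ∈ w, i.k ≠ .R ∧ (pt P i).r = c then (pt P' hc.choose).r else c, ?_⟩
  intro i hi ki
  have hc : ∃ j ∈ w, j.k ≠ .R ∧ (pt P j).r = (pt P i).r := ⟨i, hi, ki, rfl⟩
  simp only [hc, dite_true]
  have hs := hc.choose_spec
  rw [uniq_r h hs.1 hi hs.2.1 ki hs.2.2]

theorem c_lt (P : Pg N) (i j : It) : (pt P i).c < (pt P j).c ↔
    i.t < j.t ∨ i.t = j.t ∧ P.l i.e i.t < P.l j.e j.t := by
  unfold Pt.c
  rw [Prod.Lex.lt_iff]
  rfl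

theorem r_lt (P : Pg N) (i j : It) : (pt P i).r < (pt P j).r ↔
    j.t < i.t ∨ i.t = j.t ∧ P.l i.e i.t < P.l j.e j.t := by
  unfold Pt.r
  rw [Prod.Lex.lt_iff]
  constructor
  · rintro (h | ⟨h1, h2⟩)
    · exact Or.inl (neg_lt_neg_iff.1 h)
    · exact Or.inr ⟨neg_inj.1 h1, h2⟩
  · rintro (h | ⟨h1, h2⟩)
    · exact Or.inl (neg_lt_neg_iff.2 h)
    · exact Or.inr ⟨neg_inj.2 h1, h2⟩

theorem iso_main (web : P_WEB) (w : List It) (P P' : Pg N) (hA : Alt (lst P w))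
    (hN : (lst P w).Nodup)
    (hO : ∀ i ∈ w, ∀ j ∈ w, i.t = j.t → P.l i.e i.t < P.l j.e j.t → P'.l i.e i.t < P'.l j.e j.t) :
    WE (lst P w) (lst P' w) := by
  obtain ⟨φ, hφ⟩ := exC P P' w hN
  obtain ⟨ψ, hψ⟩ := exR P P' w hN
  have h := web.iso (lst P w) φ ψ hA hN
    (by
      intro a b ha hb hab
      obtain ⟨i, hi, ki, rfl⟩ := inl_lst ha
      obtain ⟨j, hj, kj, rfl⟩ := inl_lst hb
      rw [hφ i hi ki, hφ j hj kj, c_lt]
      rcases (c_lt P i j).1 hab with h | ⟨h1, h2⟩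
      · exact Or.inl h
      · exact Or.inr ⟨h1, hO i hi j hj h1 h2⟩)
    (by
      intro a b ha hb hab
      obtain ⟨i, hi, ki, rfl⟩ := inr_lst ha
      obtain ⟨j, hj, kj, rfl⟩ := inr_lst hb
      rw [hψ i hi ki, hψ j hj kj, r_lt]
      rcases (r_lt P i j).1 hab with h | ⟨h1, h2⟩
      · exact Or.inl h
      · exact Or.inr ⟨h1, hO i hi j hj h1 h2⟩)
  have he : (lst P w).map (Sum.map φ ψ) = lst P' w := by
    rw [lst_eq, lst_eq, List.map_flatMap]
    apply List.flatMap_congr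
    intro i hi
    have e1 := hφ i hi
    have e2 := hψ i hi
    unfold ent
    have k1 : (pt P i).k = i.k := rfl
    have k2 : (pt P' i).k = i.k := rfl
    rw [k1, k2]
    cases hk : i.k
    · simp [e1 (by rw [hk]; decide), e2 (by rw [hk]; decide)]
    · simp [e1 (by rw [hk]; decide), e2 (by rw [hk]; decide)]
    · simp [e1 (by rw [hk]; decide)]
    · simp [e2 (by rw [hk]; decide)]
  rw [he] at h
  exact h

theorem cont_l (F : ℝ → Pg N) (t₀ : ℝ) (h : CtA F t₀) (e : ℤ) (s : ℝ) :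
    ContinuousWithinAt (fun t => (F t).l e s) (Icc 0 1) t₀ := by
  unfold Pg.l
  exact (h e).2.2.add ((h e).2.1.mul (continuousWithinAt_const.sub (h e).1))

theorem order (F : ℝ → Pg N) (t₀ : ℝ) (h : CtA F t₀) (w : List It) :
    ∀ᶠ t in nhdsWithin t₀ (Icc 0 1), ∀ i ∈ w, ∀ j ∈ w, i.t = j.t →
      (F t₀).l i.e i.t < (F t₀).l j.e j.t → (F t).l i.e i.t < (F t).l j.e j.t := by
  have h1 := Filter.eventually_all_finite (List.finite_toSet w)
    (l := nhdsWithin t₀ (Icc 0 1)) (p := fun i t => ∀ j ∈ w, i.t = j.t →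
      (F t₀).l i.e i.t < (F t₀).l j.e j.t → (F t).l i.e i.t < (F t).l j.e j.t)
  refine h1.2 ?_
  intro i _
  have h2 := Filter.eventually_all_finite (List.finite_toSet w)
    (l := nhdsWithin t₀ (Icc 0 1)) (p := fun j t => i.t = j.t →
      (F t₀).l i.e i.t < (F t₀).l j.e j.t → (F t).l i.e i.t < (F t).l j.e j.t)
  refine h2.2 ?_
  intro j _
  by_cases hlt : (F t₀).l i.e i.t < (F t₀).l j.e j.t
  · have := (cont_l F t₀ h i.e i.t).eventually_lt (cont_l F t₀ h j.e j.t) hlt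
    filter_upwards [this] with t ht _ _
    exact ht
  · exact Filter.Eventually.of_forall fun t _ h' => absurd h' hlt

end LOC

theorem t_LOC : Stmt_LOC := by
  intro web cwa N F t₀ w _ hF hw
  have hA := cwa.alt _ hw
  have hN := hw.nd
  filter_upwards [LOC.order F t₀ hF w] with t ht
  exact LOC.iso_main web w (F t₀) (F t) hA hN ht

end LH
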