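import Pool.Agent.LH.Stmts1

/-!
# LWP: a short row of the wrong type for `λ⁺`
-/

namespace LH

open Set LG

theorem LWP.cyc_neg {a b c : ℝ} : cyc (-a) (-b) (-c) ↔ cyc c b a := by
  unfold cyc
  simp only [neg_lt_neg_iff]
  tauto

theorem t_LWP : Stmt_LWP := by
  intro hW c₁ r₁ c₂ r₂ B z hN hc hr
  have h1 : neg ((c₁, r₁) :: (c₂, r₂) :: (B ++ [z])) =
      (-c₁, -r₁) :: (-c₂, -r₂) :: (neg B ++ [(-z.1, -z.2)]) := by
    simp [neg]
  have hinj : Function.Injective (fun x : ℝ => -x) := neg_injective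
  have h2 : (neg ((c₁, r₁) :: (c₂, r₂) :: (B ++ [z]))).map Prod.fst =
      (((c₁, r₁) :: (c₂, r₂) :: (B ++ [z])).map Prod.fst).map (fun x : ℝ => -x) := by
    rw [neg, List.map_map, List.map_map]
    rfl
  have h3 : (neg ((c₁, r₁) :: (c₂, r₂) :: (B ++ [z]))).map Prod.snd =
      (((c₁, r₁) :: (c₂, r₂) :: (B ++ [z])).map Prod.snd).map (fun x : ℝ => -x) := by
    rw [neg, List.map_map, List.map_map]
    rfl
  have h4 := hW (-c₁) (-r₁) (-c₂) (-r₂) (neg B) (-z.1, -z.2)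
  rw [← h1] at h4
  unfold VP
  refine h4 ⟨?_, ?_⟩ ?_ ?_
  · rw [h2]
    exact hN.1.map hinj
  · rw [h3]
    exact hN.2.map hinj
  · intro d hd
    rw [h2, List.mem_map] at hd
    obtain ⟨e, he, rfl⟩ := hd
    rw [LWP.cyc_neg]
    exact hc e he
  · show cyc (-r₁) (-z.2) (-r₂)
    rw [LWP.cyc_neg, cyc_rot, cyc_rot]
    exact hr

end LH
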