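import Pool.Agent.LH.Stmts1

/-!
# Marks of a walk (MK)
-/

namespace LH

open Set LG

namespace MK

/-- The first element of `l` followed by `z`. -/
def nx {α : Type*} : List α → α → α
  | [], z => z
  | a :: _, _ => a

/-- The consecutive pairs of `l` followed by `z`. -/
def lpm {α : Type*} : List α → α → List (α × α)
  | [], _ => []
  | a :: l, z => (a, nx l z) :: lpm l z

theorem lpm_cons {α : Type*} (a : α) (l : List α) (z : α) :
    lpm (a :: l) z = (a, nx l z) :: lpm l z := rfl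

theorem nx_cons {α : Type*} (a : α) (l : List α) (z : α) : nx (a :: l) z = a := rfl

theorem lpm_eq {α : Type*} (l : List α) (z : α) : lpm l z = l.zip (l.tail ++ [z]) := by
  induction l with
  | nil => rfl
  | cons a l ih =>
    cases l with
    | nil => rfl
    | cons b l =>
      rw [lpm, ih]
      simp [nx]

theorem cp_eq {α : Type*} (a : α) (l : List α) : cp (a :: l) = lpm (a :: l) a := by
  rw [lpm_eq, cp]
  simp

/-- The first entry of a point. -/
def hd (p : Pt) : En :=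
  match p.k with
  | .rt => Sum.inl p.c
  | .lt => Sum.inr p.r
  | .R => Sum.inl p.c
  | .L => Sum.inr p.r

/-- The last entry of a point. -/
def ls (p : Pt) : En :=
  match p.k with
  | .rt => Sum.inr p.r
  | .lt => Sum.inl p.c
  | .R => Sum.inl p.c
  | .L => Sum.inr p.r

theorem nx_ents (w : List Pt) (z : Pt) : nx (ents w) (hd z) = hd (nx w z) := by
  cases w with
  | nil => rfl
  | cons p w =>
    rcases p with ⟨k, t, h⟩
    cases k <;> rfl

theorem flat (w : List Pt) (z : Pt) (x y : En) : (x, y) ∈ lpm (ents w) (hd z) ↔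
    (∃ p ∈ w, (p.k = .rt ∧ x = Sum.inl p.c ∧ y = Sum.inr p.r) ∨
      (p.k = .lt ∧ x = Sum.inr p.r ∧ y = Sum.inl p.c)) ∨
    ∃ p q, (p, q) ∈ lpm w z ∧ x = ls p ∧ y = hd q := by
  induction w with
  | nil => simp [ents, lpm]
  | cons p w ih =>
    have h1 := nx_ents w z
    have key : (x, y) ∈ lpm (ents (p :: w)) (hd z) ↔
        ((p.k = .rt ∧ x = Sum.inl p.c ∧ y = Sum.inr p.r) ∨
          (p.k = .lt ∧ x = Sum.inr p.r ∧ y = Sum.inl p.c)) ∨
        (x = ls p ∧ y = hd (nx w z)) ∨ (x, y) ∈ lpm (ents w) (hd z) := by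
      have e : ents (p :: w) = ent p ++ ents w := rfl
      rw [e]
      rcases p with ⟨k, t, h⟩
      cases k
      · have e2 : ent ⟨.rt, t, h⟩ = [Sum.inl (Pt.c ⟨.rt, t, h⟩), Sum.inr (Pt.r ⟨.rt, t, h⟩)] := rfl
        rw [e2]
        simp only [List.cons_append, List.nil_append, lpm_cons, nx_cons, List.mem_cons, Prod.mk.injEq,
          h1, ls]
        simp
      · have e2 : ent ⟨.lt, t, h⟩ = [Sum.inr (Pt.r ⟨.lt, t, h⟩), Sum.inl (Pt.c ⟨.lt, t, h⟩)] := rfl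
        rw [e2]
        simp only [List.cons_append, List.nil_append, lpm_cons, nx_cons, List.mem_cons, Prod.mk.injEq,
          h1, ls]
        simp
      · have e2 : ent ⟨.R, t, h⟩ = [Sum.inl (Pt.c ⟨.R, t, h⟩)] := rfl
        rw [e2]
        simp only [List.cons_append, List.nil_append, lpm_cons, nx_cons, List.mem_cons, Prod.mk.injEq,
          h1, ls]
        simp
      · have e2 : ent ⟨.L, t, h⟩ = [Sum.inr (Pt.r ⟨.L, t, h⟩)] := rfl
        rw [e2]
        simp only [List.cons_append, List.nil_append, lpm_cons, nx_cons, List.mem_cons, Prod.mk.injEq,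
          h1, ls]
        simp
    rw [key, ih]
    constructor
    · rintro (h | ⟨ha, hb⟩ | ⟨q, hq, h⟩ | ⟨a, b, hab, ha, hb⟩)
      · exact Or.inl ⟨p, List.mem_cons_self, h⟩
      · exact Or.inr ⟨p, nx w z, List.mem_cons_self, ha, hb⟩
      · exact Or.inl ⟨q, List.mem_cons_of_mem _ hq, h⟩
      · exact Or.inr ⟨a, b, List.mem_cons_of_mem _ hab, ha, hb⟩
    · rintro (⟨q, hq, h⟩ | ⟨a, b, hab, ha, hb⟩)
      · rcases List.mem_cons.mp hq with hq | hq
        · subst hq; exact Or.inl h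
        · exact Or.inr (Or.inr (Or.inl ⟨q, hq, h⟩))
      · rcases List.mem_cons.mp hab with hq | hq
        · obtain ⟨rfl, rfl⟩ := Prod.mk.inj hq
          exact Or.inr (Or.inl ⟨ha, hb⟩)
        · exact Or.inr (Or.inr (Or.inr ⟨a, b, hq, ha, hb⟩))

theorem ents_cons (a : Pt) (l : List Pt) : ∃ L, ents (a :: l) = hd a :: L := by
  have e : ents (a :: l) = ent a ++ ents l := rfl
  rw [e]
  rcases a with ⟨k, t, h⟩
  cases k
  · exact ⟨_, rfl⟩
  · exact ⟨_, rfl⟩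
  · exact ⟨_, rfl⟩
  · exact ⟨_, rfl⟩

theorem cp_ents (w : List Pt) (hw : w ≠ []) (x y : En) : (x, y) ∈ cp (ents w) ↔
    (∃ p ∈ w, (p.k = .rt ∧ x = Sum.inl p.c ∧ y = Sum.inr p.r) ∨
      (p.k = .lt ∧ x = Sum.inr p.r ∧ y = Sum.inl p.c)) ∨
    ∃ p q, (p, q) ∈ cp w ∧ x = ls p ∧ y = hd q := by
  cases w with
  | nil => exact absurd rfl hw
  | cons a l =>
    obtain ⟨L, hL⟩ := ents_cons a l
    have h1 := flat (a :: l) a x y
    rw [cp_eq, ← h1, hL, cp_eq]

theorem ls_fw (p : Pt) (h : p.k.fw) : ls p = Sum.inr p.r := by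
  rcases p with ⟨k, t, h'⟩
  cases k
  · rfl
  · exact absurd h (by simp [Kd.fw])
  · exact absurd h (by simp [Kd.fw])
  · rfl

theorem ls_nfw (p : Pt) (h : ¬ p.k.fw) : ls p = Sum.inl p.c := by
  rcases p with ⟨k, t, h'⟩
  cases k
  · exact absurd trivial h
  · rfl
  · rfl
  · exact absurd trivial h

theorem hd_ar (p : Pt) (h : p.k.ar) : hd p = Sum.inl p.c := by
  rcases p with ⟨k, t, h'⟩
  cases k
  · rfl
  · exact absurd h (by simp [Kd.ar])
  · rfl
  · exact absurd h (by simp [Kd.ar])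

theorem hd_nar (p : Pt) (h : ¬ p.k.ar) : hd p = Sum.inr p.r := by
  rcases p with ⟨k, t, h'⟩
  cases k
  · exact absurd trivial h
  · rfl
  · exact absurd trivial h
  · rfl

end MK

theorem t_MK : Stmt_MK := by
  intro w hw hst c r
  unfold Mk
  rw [MK.cp_ents w hw, MK.cp_ents w hw]
  constructor
  · rintro ((⟨p, hp, ⟨hk, h1, h2⟩ | ⟨hk, h1, h2⟩⟩ | ⟨p, q, hpq, h1, h2⟩) |
      (⟨p, hp, ⟨hk, h1, h2⟩ | ⟨hk, h1, h2⟩⟩ | ⟨p, q, hpq, h1, h2⟩))
    · exact Or.inr ⟨p, hp, Or.inl hk, Sum.inl.inj h1, Sum.inr.inj h2⟩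
    · exact absurd h1 (by simp)
    · rcases hst (p, q) hpq with ⟨a, b, d⟩ | ⟨a, b, d⟩
      · rw [MK.ls_fw p a] at h1
        exact absurd h1 (by simp)
      · rw [MK.ls_nfw p a] at h1
        rw [MK.hd_nar q b] at h2
        exact Or.inl ⟨q, p, ⟨d, Or.inr hpq⟩, Sum.inl.inj h1, Sum.inr.inj h2⟩
    · exact absurd h1 (by simp)
    · exact Or.inr ⟨p, hp, Or.inr hk, Sum.inl.inj h2, Sum.inr.inj h1⟩
    · rcases hst (p, q) hpq with ⟨a, b, d⟩ | ⟨a, b, d⟩
      · rw [MK.ls_fw p a] at h1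
        rw [MK.hd_ar q b] at h2
        exact Or.inl ⟨p, q, ⟨d, Or.inl hpq⟩, Sum.inl.inj h2, Sum.inr.inj h1⟩
      · rw [MK.ls_nfw p a] at h1
        exact absurd h1 (by simp)
  · rintro (⟨p, q, ⟨hlt, hpq | hqp⟩, rfl, rfl⟩ | ⟨p, hp, hk | hk, rfl, rfl⟩)
    · rcases hst (p, q) hpq with ⟨a, b, d⟩ | ⟨a, b, d⟩
      · exact Or.inr (Or.inr ⟨p, q, hpq, (MK.ls_fw p a).symm, (MK.hd_ar q b).symm⟩)
      · exact absurd hlt (not_lt.mpr d.le)
    · rcases hst (q, p) hqp with ⟨a, b, d⟩ | ⟨a, b, d⟩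
      · exact absurd hlt (not_lt.mpr d.le)
      · exact Or.inl (Or.inr ⟨q, p, hqp, (MK.ls_nfw q a).symm, (MK.hd_nar p b).symm⟩)
    · exact Or.inl (Or.inl ⟨p, hp, Or.inl ⟨hk, rfl, rfl⟩⟩)
    · exact Or.inr (Or.inl ⟨p, hp, Or.inr ⟨hk, rfl, rfl⟩⟩)

end LH
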