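import Pool.Agent.LH.Stmts2

/-!
# NXT: two walks without zigzags have the same items up to the edges of the turns
-/

namespace LH

open Set LG

namespace NXT

/-- Turns. -/
def Tn (i : It) : Prop := i.k = .R ∨ i.k = .L

theorem pass {i : It} (h : ¬ Tn i) : i.k = .rt ∨ i.k = .lt := by
  unfold Tn at h
  cases hk : i.k <;> simp_all

theorem nozz (hS : P_SEQ) {N : ℕ} {P : Pg N} {X : Finset ℝ} {w : List It} {W : ℤ → It}
    (hg : GW P X w) (hq : Sq P X w W) (n : ℤ) : Tn (W n) → ¬ Tn (W (n + 1)) := by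
  intro hn hn1
  have h1 := (hS.cp P X w W hq (pt P (W n), pt P (W (n + 1)))).2 ⟨n, rfl⟩
  have h2 : cp (w.map (pt P)) = (cp w).map (Prod.map (pt P) (pt P)) := by
    unfold cp
    rw [← List.map_rotate, List.zip_map]
  rw [h2, List.mem_map] at h1
  obtain ⟨x, hx, hxe⟩ := h1
  have e1 : x.1.k = (W n).k := congrArg (fun q : Pt × Pt => q.1.k) hxe
  have e2 : x.2.k = (W (n + 1)).k := congrArg (fun q : Pt × Pt => q.2.k) hxe
  apply hg.2 x hx
  rw [e1, e2]
  exact ⟨hn, hn1⟩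

/-- The slab of a link. -/
theorem slab {N : ℕ} {P : Pg N} {X : Finset ℝ} {i j : It} (h : Lnk P X i j) :
    ∃ a b, AdjX X a b ∧
      (i.k.fw ∧ j.k.ar ∧ i.t = a ∧ j.t = b ∨ ¬ i.k.fw ∧ ¬ j.k.ar ∧ i.t = b ∧ j.t = a) ∧
      ∀ m, i.e < m → m ≤ j.e → a < P.x m ∧ P.x m < b := by
  rcases h.dir with ⟨h1, h2, h3⟩ | ⟨h1, h2, h3⟩
  · refine ⟨i.t, j.t, ?_, Or.inl ⟨h1, h2, rfl, rfl⟩, ?_⟩
    · rcases h.adj with h4 | h4
      · exact h4
      · exact absurd h4.2.2.1 (not_lt.mpr h3.le)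
    · intro m hm hm'
      rcases h.ins m hm hm' with h4 | h4
      · exact h4
      · linarith [h4.1, h4.2]
  · refine ⟨j.t, i.t, ?_, Or.inr ⟨h1, h2, rfl, rfl⟩, ?_⟩
    · rcases h.adj with h4 | h4
      · exact absurd h4.2.2.1 (not_lt.mpr h3.le)
      · exact h4
    · intro m hm hm'
      rcases h.ins m hm hm' with h4 | h4
      · linarith [h4.1, h4.2]
      · exact h4

theorem adj_r {X : Finset ℝ} {a b b' : ℝ} (h : AdjX X a b) (h' : AdjX X a b') : b = b' := by
  rcases lt_trichotomy b b' with h1 | h1 | h1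
  · exact absurd ⟨h.2.2.1, h1⟩ (h'.2.2.2 b h.2.1)
  · exact h1
  · exact absurd ⟨h'.2.2.1, h1⟩ (h.2.2.2 b' h'.2.1)

theorem adj_l {X : Finset ℝ} {a a' b : ℝ} (h : AdjX X a b) (h' : AdjX X a' b) : a = a' := by
  rcases lt_trichotomy a a' with h1 | h1 | h1
  · exact absurd ⟨h1, h'.2.2.1⟩ (h.2.2.2 a' h'.1)
  · exact h1
  · exact absurd ⟨h1, h.2.2.1⟩ (h'.2.2.2 a h.1)

/-- The next passing item. -/
structure Nx {N : ℕ} (P : Pg N) (X : Finset ℝ) (i j : It) (a b : ℝ) : Prop where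
  ad : AdjX X a b
  ex : i.k = .rt ∧ i.t = a ∨ i.k = .lt ∧ i.t = b
  le : i.e ≤ j.e
  ins : ∀ m, i.e < m → m ≤ j.e → a < P.x m ∧ P.x m < b
  en : j.k = .rt ∧ j.t = b ∨ j.k = .lt ∧ j.t = a
  ok : ItOK P j

theorem Nx.out {N : ℕ} {P : Pg N} {X : Finset ℝ} {i j : It} {a b : ℝ} (h : Nx P X i j a b) :
    j.k = .rt ∧ b < P.x (j.e + 1) ∨ j.k = .lt ∧ P.x (j.e + 1) < a := by
  rcases h.en with ⟨h1, h2⟩ | ⟨h1, h2⟩
  · left
    refine ⟨h1, ?_⟩
    rw [← h2]
    exact (h.ok.1 h1).2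
  · right
    refine ⟨h1, ?_⟩
    rw [← h2]
    exact (h.ok.2 h1).1

theorem Nx.slab_eq {N : ℕ} {P : Pg N} {X : Finset ℝ} {i j j' : It} {a b a' b' : ℝ}
    (h : Nx P X i j a b) (h' : Nx P X i j' a' b') : a = a' ∧ b = b' := by
  rcases h.ex with ⟨h1, h2⟩ | ⟨h1, h2⟩ <;> rcases h'.ex with ⟨h3, h4⟩ | ⟨h3, h4⟩
  · have h5 : a = a' := h2.symm.trans h4
    subst h5
    exact ⟨rfl, adj_r h.ad h'.ad⟩
  · rw [h1] at h3
    cases h3
  · rw [h1] at h3
    cases h3
  · have h5 : b = b' := h2.symm.trans h4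
    subst h5
    exact ⟨adj_l h.ad h'.ad, rfl⟩

theorem Nx.le_e {N : ℕ} {P : Pg N} {X : Finset ℝ} {i j j' : It} {a b : ℝ}
    (h : Nx P X i j a b) (h' : Nx P X i j' a b) : j'.e ≤ j.e := by
  by_contra hc
  push Not at hc
  have h1 := h'.ins (j.e + 1) (by have := h.le; omega) (by omega)
  have h2 := h.ad.2.2.1
  rcases h.out with ⟨-, h3⟩ | ⟨-, h3⟩ <;> linarith [h1.1, h1.2]

theorem Nx.uniq {N : ℕ} {P : Pg N} {X : Finset ℝ} {i j j' : It} {a b a' b' : ℝ}
    (h : Nx P X i j a b) (h' : Nx P X i j' a' b') : j = j' := by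
  obtain ⟨rfl, rfl⟩ := h.slab_eq h'
  have he : j.e = j'.e := le_antisymm (h'.le_e h) (h.le_e h')
  have h2 := h.ad.2.2.1
  have hk : j.k = j'.k ∧ j.t = j'.t := by
    rcases h.en with ⟨h3, h4⟩ | ⟨h3, h4⟩ <;> rcases h'.en with ⟨h5, h6⟩ | ⟨h5, h6⟩
    · exact ⟨h3.trans h5.symm, h4.trans h6.symm⟩
    · have h7 := (h.ok.1 h3).2
      have h8 := (h'.ok.2 h5).1
      rw [he] at h7
      linarith
    · have h7 := (h.ok.2 h3).1
      have h8 := (h'.ok.1 h5).2
      rw [he] at h7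
      linarith
    · exact ⟨h3.trans h5.symm, h4.trans h6.symm⟩
  cases j
  cases j'
  simp only [It.mk.injEq]
  exact ⟨hk.1, hk.2, he⟩

/-- The two possibilities after a passing item. -/
theorem step (hS : P_SEQ) {N : ℕ} {P : Pg N} {X : Finset ℝ} {w : List It} {W : ℤ → It}
    (hg : GW P X w) (hq : Sq P X w W) (n : ℤ) (hn : ¬ Tn (W n)) :
    ∃ a b, (¬ Tn (W (n + 1)) ∧ (W (n + 1)).k = (W n).k ∧ Nx P X (W n) (W (n + 1)) a b) ∨
      (Tn (W (n + 1)) ∧ ((W n).k = .rt ∧ (W (n + 1)).k = .R ∧ (W (n + 1)).t = b ∨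
          (W n).k = .lt ∧ (W (n + 1)).k = .L ∧ (W (n + 1)).t = a) ∧
        (W (n + 1 + 1)).k ≠ (W n).k ∧ Nx P X (W n) (W (n + 1 + 1)) a b) := by
  obtain ⟨a, b, had, hd, hin⟩ := slab (hq.lnk n)
  refine ⟨a, b, ?_⟩
  by_cases ht : Tn (W (n + 1))
  · right
    have hn2 := nozz hS hg hq (n + 1) ht
    obtain ⟨a', b', had', hd', hin'⟩ := slab (hq.lnk (n + 1))
    rcases pass hn with hk | hk
    · -- moving to the right
      rcases hd with ⟨h1, h2, h3, h4⟩ | ⟨h1, h2, h3, h4⟩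
      swap
      · rw [hk] at h1
        exact absurd trivial h1
      have hk1 : (W (n + 1)).k = .R := by
        rcases ht with h | h
        · exact h
        · rw [h] at h2
          exact absurd h2 id
      rcases hd' with ⟨h1', h2', h3', h4'⟩ | ⟨h1', h2', h3', h4'⟩
      · rw [hk1] at h1'
        exact absurd h1' id
      have hk2 : (W (n + 1 + 1)).k = .lt := by
        rcases pass hn2 with h | h
        · rw [h] at h2'
          exact absurd trivial h2'
        · exact h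
      have hb : b = b' := h4.symm.trans h3'
      subst hb
      have ha : a = a' := adj_l had had'
      subst ha
      refine ⟨ht, Or.inl ⟨hk, hk1, h4⟩, ?_, ?_⟩
      · rw [hk2, hk]
        decide
      · refine ⟨had, Or.inl ⟨hk, h3⟩, (hq.lnk n).le.trans (hq.lnk (n + 1)).le, ?_,
          Or.inr ⟨hk2, h4'⟩, hq.ok _⟩
        intro m hm hm'
        by_cases hc : m ≤ (W (n + 1)).e
        · exact hin m hm hc
        · exact hin' m (not_le.mp hc) hm'
    · rcases hd with ⟨h1, h2, h3, h4⟩ | ⟨h1, h2, h3, h4⟩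
      · rw [hk] at h1
        exact absurd h1 id
      have hk1 : (W (n + 1)).k = .L := by
        rcases ht with h | h
        · rw [h] at h2
          exact absurd trivial h2
        · exact h
      rcases hd' with ⟨h1', h2', h3', h4'⟩ | ⟨h1', h2', h3', h4'⟩
      swap
      · rw [hk1] at h1'
        exact absurd trivial h1'
      have hk2 : (W (n + 1 + 1)).k = .rt := by
        rcases pass hn2 with h | h
        · exact h
        · rw [h] at h2'
          exact absurd h2' id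
      have ha : a = a' := h4.symm.trans h3'
      subst ha
      have hb : b = b' := adj_r had had'
      subst hb
      refine ⟨ht, Or.inr ⟨hk, hk1, h4⟩, ?_, ?_⟩
      · rw [hk2, hk]
        decide
      · refine ⟨had, Or.inr ⟨hk, h3⟩, (hq.lnk n).le.trans (hq.lnk (n + 1)).le, ?_,
          Or.inl ⟨hk2, h4'⟩, hq.ok _⟩
        intro m hm hm'
        by_cases hc : m ≤ (W (n + 1)).e
        · exact hin m hm hc
        · exact hin' m (not_le.mp hc) hm'
  · left
    rcases pass hn with hk | hk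
    · rcases hd with ⟨h1, h2, h3, h4⟩ | ⟨h1, h2, h3, h4⟩
      swap
      · rw [hk] at h1
        exact absurd trivial h1
      have hk1 : (W (n + 1)).k = .rt := by
        rcases pass ht with h | h
        · exact h
        · rw [h] at h2
          exact absurd h2 id
      exact ⟨ht, hk1.trans hk.symm, had, Or.inl ⟨hk, h3⟩, (hq.lnk n).le, hin,
        Or.inl ⟨hk1, h4⟩, hq.ok _⟩
    · rcases hd with ⟨h1, h2, h3, h4⟩ | ⟨h1, h2, h3, h4⟩
      · rw [hk] at h1
        exact absurd h1 id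
      have hk1 : (W (n + 1)).k = .lt := by
        rcases pass ht with h | h
        · rw [h] at h2
          exact absurd trivial h2
        · exact h
      exact ⟨ht, hk1.trans hk.symm, had, Or.inr ⟨hk, h3⟩, (hq.lnk n).le, hin,
        Or.inr ⟨hk1, h4⟩, hq.ok _⟩

theorem smI_refl (i : It) : SmI i i := ⟨rfl, rfl, fun _ => rfl⟩

theorem smI_eq {i j : It} (h : SmI i j) (hi : ¬ Tn i) : i = j := by
  obtain ⟨h1, h2, h3⟩ := h
  have h4 := h3 (pass hi)
  cases i
  cases j
  simp only [It.mk.injEq]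
  exact ⟨h1, h2, h4⟩

/-- Equal passing items have the same successors. -/
theorem succ (hS : P_SEQ) {N : ℕ} {P : Pg N} {X : Finset ℝ} {w w' : List It} {W W' : ℤ → It}
    (hg : GW P X w) (hq : Sq P X w W) (hg' : GW P X w') (hq' : Sq P X w' W') (n n' : ℤ)
    (hn : ¬ Tn (W n)) (he : W n = W' n') :
    SmI (W (n + 1)) (W' (n' + 1)) ∧
      (Tn (W (n + 1)) → SmI (W (n + 1 + 1)) (W' (n' + 1 + 1))) := by
  have hn' : ¬ Tn (W' n') := by rw [← he]; exact hn
  obtain ⟨a, b, h⟩ := step hS hg hq n hn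
  obtain ⟨a', b', h'⟩ := step hS hg' hq' n' hn'
  rw [← he] at h'
  rcases h with ⟨h1, h2, h3⟩ | ⟨h1, h2, h3, h4⟩ <;>
    rcases h' with ⟨h1', h2', h3'⟩ | ⟨h1', h2', h3', h4'⟩
  · have h5 := h3.uniq h3'
    rw [← h5]
    exact ⟨smI_refl _, fun h => absurd h h1⟩
  · have h5 := h3.uniq h4'
    rw [← h5] at h3'
    exact absurd h2 h3'
  · have h5 := h4.uniq h3'
    rw [← h5] at h2'
    exact absurd h2' h3
  · have h5 := h4.uniq h4'
    obtain ⟨rfl, rfl⟩ := h4.slab_eq h4'
    refine ⟨?_, fun _ => ?_⟩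
    · rcases h2 with ⟨h6, h7, h8⟩ | ⟨h6, h7, h8⟩ <;> rcases h2' with ⟨h6', h7', h8'⟩ | ⟨h6', h7', h8'⟩
      · refine ⟨h7.trans h7'.symm, h8.trans h8'.symm, ?_⟩
        intro h9
        rw [h7] at h9
        rcases h9 with h9 | h9 <;> cases h9
      · rw [h6] at h6'
        cases h6'
      · rw [h6] at h6'
        cases h6'
      · refine ⟨h7.trans h7'.symm, h8.trans h8'.symm, ?_⟩
        intro h9
        rw [h7] at h9
        rcases h9 with h9 | h9 <;> cases h9
    · rw [← h5]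
      exact smI_refl _

/-- Forward agreement. -/
theorem fwd (hS : P_SEQ) {N : ℕ} {P : Pg N} {X : Finset ℝ} {w w' : List It} {W W' : ℤ → It}
    (hg : GW P X w) (hq : Sq P X w W) (hg' : GW P X w') (hq' : Sq P X w' W') (n n' : ℤ)
    (hn : ¬ Tn (W n)) (he : W n = W' n') (k : ℕ) :
    SmI (W (n + k)) (W' (n' + k)) ∧
      (Tn (W (n + k)) → SmI (W (n + k + 1)) (W' (n' + k + 1))) := by
  induction k with
  | zero =>
    simp only [Nat.cast_zero, add_zero]
    rw [← he]
    exact ⟨smI_refl _, fun h => absurd h hn⟩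
  | succ k ih =>
    have e1 : n + ((k + 1 : ℕ) : ℤ) = n + k + 1 := by push_cast; ring
    have e2 : n' + ((k + 1 : ℕ) : ℤ) = n' + k + 1 := by push_cast; ring
    rw [e1, e2]
    by_cases ht : Tn (W (n + k))
    · exact ⟨ih.2 ht, fun h => absurd h (nozz hS hg hq _ ht)⟩
    · exact succ hS hg hq hg' hq' _ _ ht (smI_eq ih.1 ht)

theorem per_mul {N : ℕ} {P : Pg N} {X : Finset ℝ} {w : List It} {W : ℤ → It}
    (hq : Sq P X w W) (n : ℤ) (k : ℕ) :
    (W (n + k * w.length)).k = (W n).k ∧ (W (n + k * w.length)).t = (W n).t ∧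
      (W (n + k * w.length)).e = (W n).e + k * N := by
  induction k with
  | zero => simp
  | succ k ih =>
    have e1 : n + ((k + 1 : ℕ) : ℤ) * w.length = n + k * w.length + w.length := by
      push_cast
      ring
    rw [e1, hq.per]
    refine ⟨ih.1, ih.2.1, ?_⟩
    change (W (n + k * w.length)).e + N = _
    rw [ih.2.2]
    push_cast
    ring

theorem common (hS : P_SEQ) {N : ℕ} {P : Pg N} {X : Finset ℝ} {w w' : List It} {W W' : ℤ → It}
    (hg : GW P X w) (hq : Sq P X w W) (hq' : Sq P X w' W') :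
    ∃ n n', ¬ Tn (W n) ∧ W n = W' n' := by
  obtain ⟨n, hn⟩ : ∃ n, ¬ Tn (W n) := by
    by_cases h0 : Tn (W 0)
    · exact ⟨0 + 1, nozz hS hg hq 0 h0⟩
    · exact ⟨0, h0⟩
  have hX : (W n).t ∈ X := by
    rcases (hq.lnk n).adj with h | h
    · exact h.1
    · exact h.2.1
  have hc := hS.cov P X w' W' hq' (W n).t hX (W n).e
  rcases pass hn with hk | hk
  · obtain ⟨n', hn'⟩ := hc.1 ((hq.ok n).1 hk).1 ((hq.ok n).1 hk).2
    refine ⟨n, n', hn, ?_⟩
    rw [hn', ← hk]
  · obtain ⟨n', hn'⟩ := hc.2 ((hq.ok n).2 hk).1 ((hq.ok n).2 hk).2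
    refine ⟨n, n', hn, ?_⟩
    rw [hn', ← hk]

end NXT

open NXT in
theorem t_NXT : Stmt_NXT := by
  intro hS _ N P X w w' _ hg hg'
  obtain ⟨W, hq⟩ := hS.ex P X w hg.1
  obtain ⟨W', hq'⟩ := hS.ex P X w' hg'.1
  obtain ⟨n, n', hn, he⟩ := common hS hg hq hq'
  have hf := fwd hS hg hq hg' hq' n n' hn he
  have hn' : ¬ Tn (W' n') := by rw [← he]; exact hn
  have hf' := fwd hS hg' hq' hg hq n' n hn' he.symm
  have hlen : w.length = w'.length := by
    have key : ∀ {w w' : List It} {W W' : ℤ → It}, Sq P X w W → Sq P X w' W' → ∀ n n' : ℤ,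
        ¬ Tn (W n) → W n = W' n' →
        (∀ k : ℕ, SmI (W (n + k)) (W' (n' + k))) → w'.length ≤ w.length := by
      intro w w' W W' hq hq' n n' hn he hf
      by_contra hc
      push Not at hc
      have h1 : W (n + w.length) = W' (n' + w.length) := by
        apply smI_eq (hf w.length)
        rw [hq.per]
        exact hn
      have h2 : W' (n' + w.length) = W' (n' + w'.length) := by
        rw [← h1, hq.per, hq'.per, he]
      have h3 := hS.lt P X w' W' hq' (n' + w.length) (n' + w'.length)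
        (by have : (w.length : ℤ) < w'.length := by exact_mod_cast hc
            omega) (by rw [h2])
      rw [h2] at h3
      exact lt_irrefl _ h3
    exact le_antisymm (key hq' hq n' n hn' he.symm fun k => (hf' k).1)
      (key hq hq' n n' hn he fun k => (hf k).1)
  refine ⟨W, W', n' - n, hq, hq', hlen, ?_⟩
  intro m
  obtain ⟨k, j, hkj⟩ : ∃ k j : ℕ, m + k * w.length = n + j := by
    refine ⟨(n - m).toNat, (m - n + (n - m).toNat * w.length).toNat, ?_⟩
    have h1 : (1 : ℤ) ≤ w.length := by exact_mod_cast hq.ne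
    have h2 : 0 ≤ m - n + (n - m).toNat * w.length := by
      rcases le_total n m with h | h
      · have : (0 : ℤ) ≤ (n - m).toNat * w.length := by positivity
        linarith
      · rw [Int.toNat_of_nonneg (by linarith)]
        nlinarith
    rw [Int.toNat_of_nonneg h2]
    ring
  have h1 := per_mul hq m k
  have h2 := per_mul hq' (m + (n' - n)) k
  have h3 := (hf j).1
  have e2 : m + (n' - n) + k * w'.length = n' + j := by
    rw [← hlen]
    linarith
  rw [hkj] at h1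
  rw [e2] at h2
  obtain ⟨g1, g2, g3⟩ := h3
  refine ⟨?_, ?_, ?_⟩
  · rw [← h1.1, ← h2.1]
    exact g1
  · rw [← h1.2.1, ← h2.2.1]
    exact g2
  · intro h
    rw [← h1.1] at h
    have h4 := g3 h
    have h5 := h1.2.2
    have h6 := h2.2.2
    linarith

end LH
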