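import Pool.Agent.LH.Stmts2

/-!
# OPG: goodness is an open condition
-/

namespace LH

open Set LG

namespace OPG

open Filter

variable {N : ℕ}

/-- Periodic conditions hold eventually for all indices. -/
theorem ev_all {l : Filter ℝ} (hN : 0 < N) (A : ℝ → ℤ → Prop)
    (hA : ∀ t i k, A t i → A t (i + k * N)) (h : ∀ i, ∀ᶠ t in l, A t i) :
    ∀ᶠ t in l, ∀ i, A t i := by
  have h1 : ∀ᶠ t in l, ∀ i ∈ Finset.Ico (0 : ℤ) N, A t i :=
    (Filter.eventually_all_finset _).2 fun i _ => h i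
  filter_upwards [h1] with t ht i
  have h2 := ht (i % N) (Finset.mem_Ico.2
    ⟨Int.emod_nonneg _ (by omega), Int.emod_lt_of_pos _ (by omega)⟩)
  have h3 := hA t _ (i / N) h2
  have h4 : i % N + i / N * N = i := by
    have := Int.emod_add_mul_ediv i N
    rw [mul_comm] at this
    exact this
  rwa [h4] at h3

/-- Same signs. -/
def Sg (P P' : Pg N) (a : ℝ) : Prop :=
  ∀ i, (P.x i < a ↔ P'.x i < a) ∧ (a < P.x i ↔ a < P'.x i)

theorem Sg.symm {P P' : Pg N} {a : ℝ} (h : Sg P P' a) : Sg P' P a := fun i =>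
  ⟨(h i).1.symm, (h i).2.symm⟩

theorem sg_ev (G : P_PGB) (F : ℝ → Pg N) (t₀ : ℝ) (hN : 0 < N) (hF : CtA F t₀) (a : ℝ)
    (ha : ∀ i, (F t₀).x i ≠ a) : ∀ᶠ t in nhdsWithin t₀ (Icc 0 1), Sg (F t) (F t₀) a := by
  refine ev_all hN (fun t i => ((F t).x i < a ↔ (F t₀).x i < a) ∧
    (a < (F t).x i ↔ a < (F t₀).x i)) ?_ ?_
  · intro t i k h
    rw [(G.sh (F t) i k).1, (G.sh (F t₀) i k).1]
    exact h
  · intro i
    rcases lt_or_gt_of_ne (ha i) with h | h
    · filter_upwards [(hF i).1.eventually_lt (tendsto_const_nhds (x := a)) h] with t ht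
      exact ⟨⟨fun _ => h, fun _ => ht⟩, ⟨fun h2 => absurd h2 ht.not_gt,
        fun h2 => absurd h2 h.not_gt⟩⟩
    · filter_upwards [(tendsto_const_nhds (x := a)).eventually_lt (hF i).1 h] with t ht
      exact ⟨⟨fun h2 => absurd h2 ht.not_gt, fun h2 => absurd h2 h.not_gt⟩,
        ⟨fun _ => h, fun _ => ht⟩⟩

theorem comp_of {P P' : Pg N} {a b : ℝ} (ha : Sg P P' a) (hb : Sg P P' b) {p q : ℤ}
    (h : Comp P a b p q) : Comp P' a b p q where
  le := h.le
  ins i h1 h2 := ⟨(ha i).2.1 (h.ins i h1 h2).1, (hb i).1.1 (h.ins i h1 h2).2⟩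
  fst := h.fst.imp (ha _).1.1 (hb _).2.1
  lst := h.lst.imp (ha _).1.1 (hb _).2.1
  one e := (h.one e).imp (fun h => ⟨(ha _).1.1 h.1, (hb _).2.1 h.2⟩)
    (fun h => ⟨(ha _).1.1 h.1, (hb _).2.1 h.2⟩)

/-! ### shifts -/

theorem mono_sh {f : ℤ → ℝ} {c : ℤ} (hf : ∀ i, f (i + c) = f i) {p q : ℤ}
    (h : StrictMonoOn f (Icc p q)) : StrictMonoOn f (Icc (p + c) (q + c)) := by
  intro i hi j hj hij
  have e1 := hf (i - c)
  have e2 := hf (j - c)
  rw [sub_add_cancel] at e1 e2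
  rw [e1, e2]
  exact h ⟨by linarith [hi.1], by linarith [hi.2]⟩ ⟨by linarith [hj.1], by linarith [hj.2]⟩
    (by linarith)

theorem anti_sh {f : ℤ → ℝ} {c : ℤ} (hf : ∀ i, f (i + c) = f i) {p q : ℤ}
    (h : StrictAntiOn f (Icc p q)) : StrictAntiOn f (Icc (p + c) (q + c)) := by
  intro i hi j hj hij
  have e1 := hf (i - c)
  have e2 := hf (j - c)
  rw [sub_add_cancel] at e1 e2
  rw [e1, e2]
  exact h ⟨by linarith [hi.1], by linarith [hi.2]⟩ ⟨by linarith [hj.1], by linarith [hj.2]⟩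
    (by linarith)

theorem ty_sh (G : P_PGB) {P : Pg N} {p q : ℤ} (k : ℤ) (h : Ty P p q) :
    Ty P (p + k * N) (q + k * N) := by
  have e1 : ∀ i, P.x (i + k * N) = P.x i := fun i => (G.sh P i k).1
  have e2 : ∀ i, P.y (i + k * N) = P.y i := fun i => (G.sh P i k).2.1
  have e3 : q + k * N + 1 = q + 1 + k * N := by ring
  unfold Ty
  rw [e3]
  exact h.imp (Or.imp (mono_sh e1) (anti_sh e1)) (Or.imp (mono_sh e2) (anti_sh e2))

theorem sep_sh (G : P_PGB) {P : Pg N} {p q p' q' : ℤ} {s : ℝ} (k : ℤ) (h : Sep P p q p' q' s) :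
    Sep P (p + k * N) (q + k * N) (p' + k * N) (q' + k * N) s := by
  have e1 : ∀ i, P.l i s = P.l (i - k * N) s := by
    intro i
    have := (G.sh P (i - k * N) k).2.2.2 s
    rw [sub_add_cancel] at this
    exact this
  have m : ∀ {p q i : ℤ}, i ∈ Icc (p + k * N) (q + k * N) → i - k * N ∈ Icc p q := by
    intro p q i hi
    exact ⟨by linarith [hi.1], by linarith [hi.2]⟩
  refine h.imp ?_ ?_
  · intro h i hi j hj
    rw [e1 i, e1 j]
    exact h _ (m hi) _ (m hj)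
  · intro h i hi j hj
    rw [e1 i, e1 j]
    exact h _ (m hi) _ (m hj)

/-! ### openness -/

theorem mono_ev {l : Filter ℝ} (f : ℝ → ℤ → ℝ) (g : ℤ → ℝ)
    (h : ∀ i, Tendsto (fun t => f t i) l (nhds (g i))) (p q : ℤ) (hm : StrictMonoOn g (Icc p q)) :
    ∀ᶠ t in l, StrictMonoOn (f t) (Icc p q) := by
  have h1 : ∀ᶠ t in l, ∀ i ∈ Icc p q, ∀ j ∈ Icc p q, i < j → f t i < f t j := by
    refine (Filter.eventually_all_finite (finite_Icc p q)).2 fun i hi => ?_
    refine (Filter.eventually_all_finite (finite_Icc p q)).2 fun j hj => ?_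
    by_cases hij : i < j
    · filter_upwards [(h i).eventually_lt (h j) (hm hi hj hij)] with t ht _
      exact ht
    · exact Filter.Eventually.of_forall fun t h2 => absurd h2 hij
  filter_upwards [h1] with t ht i hi j hj hij
  exact ht i hi j hj hij

theorem anti_ev {l : Filter ℝ} (f : ℝ → ℤ → ℝ) (g : ℤ → ℝ)
    (h : ∀ i, Tendsto (fun t => f t i) l (nhds (g i))) (p q : ℤ) (hm : StrictAntiOn g (Icc p q)) :
    ∀ᶠ t in l, StrictAntiOn (f t) (Icc p q) := by
  have h1 : ∀ᶠ t in l, ∀ i ∈ Icc p q, ∀ j ∈ Icc p q, i < j → f t j < f t i := by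
    refine (Filter.eventually_all_finite (finite_Icc p q)).2 fun i hi => ?_
    refine (Filter.eventually_all_finite (finite_Icc p q)).2 fun j hj => ?_
    by_cases hij : i < j
    · filter_upwards [(h j).eventually_lt (h i) (hm hi hj hij)] with t ht _
      exact ht
    · exact Filter.Eventually.of_forall fun t h2 => absurd h2 hij
  filter_upwards [h1] with t ht i hi j hj hij
  exact ht i hi j hj hij

theorem ty_ev (F : ℝ → Pg N) (t₀ : ℝ) (hF : CtA F t₀) (p q : ℤ) (h : Ty (F t₀) p q) :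
    ∀ᶠ t in nhdsWithin t₀ (Icc 0 1), Ty (F t) p q := by
  rcases h with (h | h) | (h | h)
  · exact (mono_ev (fun t => (F t).x) (F t₀).x (fun i => (hF i).1) _ _ h).mono
      fun t ht => Or.inl (Or.inl ht)
  · exact (anti_ev (fun t => (F t).x) (F t₀).x (fun i => (hF i).1) _ _ h).mono
      fun t ht => Or.inl (Or.inr ht)
  · exact (mono_ev (fun t => (F t).y) (F t₀).y (fun i => (hF i).2.1) _ _ h).mono
      fun t ht => Or.inr (Or.inl ht)
  · exact (anti_ev (fun t => (F t).y) (F t₀).y (fun i => (hF i).2.1) _ _ h).mono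
      fun t ht => Or.inr (Or.inr ht)

theorem l_tendsto (F : ℝ → Pg N) (t₀ : ℝ) (hF : CtA F t₀) (i : ℤ) (s : ℝ) :
    Tendsto (fun t => (F t).l i s) (nhdsWithin t₀ (Icc 0 1)) (nhds ((F t₀).l i s)) := by
  obtain ⟨h1, h2, h3⟩ := hF i
  exact h3.add (h2.mul (continuousWithinAt_const.sub h1))

theorem sep_ev (F : ℝ → Pg N) (t₀ : ℝ) (hF : CtA F t₀) (p q p' q' : ℤ) (s : ℝ)
    (h : Sep (F t₀) p q p' q' s) :
    ∀ᶠ t in nhdsWithin t₀ (Icc 0 1), Sep (F t) p q p' q' s := by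
  rcases h with h | h
  · have h1 : ∀ᶠ t in nhdsWithin t₀ (Icc 0 1), ∀ i ∈ Icc p q, ∀ j ∈ Icc p' q',
        (F t).l i s < (F t).l j s := by
      refine (Filter.eventually_all_finite (finite_Icc p q)).2 fun i hi => ?_
      refine (Filter.eventually_all_finite (finite_Icc p' q')).2 fun j hj => ?_
      exact (l_tendsto F t₀ hF i s).eventually_lt (l_tendsto F t₀ hF j s) (h i hi j hj)
    exact h1.mono fun t ht => Or.inl ht
  · have h1 : ∀ᶠ t in nhdsWithin t₀ (Icc 0 1), ∀ i ∈ Icc p q, ∀ j ∈ Icc p' q',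
        (F t).l j s < (F t).l i s := by
      refine (Filter.eventually_all_finite (finite_Icc p q)).2 fun i hi => ?_
      refine (Filter.eventually_all_finite (finite_Icc p' q')).2 fun j hj => ?_
      exact (l_tendsto F t₀ hF j s).eventually_lt (l_tendsto F t₀ hF i s) (h i hi j hj)
    exact h1.mono fun t ht => Or.inr ht

theorem ev_imp {l : Filter ℝ} {A : Prop} {B : ℝ → Prop} (h : A → ∀ᶠ t in l, B t) :
    ∀ᶠ t in l, A → B t := by
  by_cases hA : A
  · exact (h hA).mono fun t ht _ => ht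
  · exact Filter.Eventually.of_forall fun t h2 => absurd h2 hA

theorem good_ev (G : P_PGB) (C : P_CMP) (F : ℝ → Pg N) (t₀ : ℝ) (hN : 0 < N) (hF : CtA F t₀)
    (a b : ℝ) (hg : Good (F t₀) a b) :
    ∀ᶠ t in nhdsWithin t₀ (Icc 0 1), Good (F t) a b := by
  have s1 := sg_ev G F t₀ hN hF a fun i => (hg.av i).1
  have s2 := sg_ev G F t₀ hN hF b fun i => (hg.av i).2
  have s3 : ∀ᶠ t in nhdsWithin t₀ (Icc 0 1), ∀ p ∈ Finset.Ico (0 : ℤ) N,
      ∀ q ∈ Finset.Ico (0 : ℤ) (2 * N), Comp (F t₀) a b p q → Ty (F t) p q := by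
    refine (Filter.eventually_all_finset _).2 fun p _ => ?_
    refine (Filter.eventually_all_finset _).2 fun q _ => ?_
    exact ev_imp fun h => ty_ev F t₀ hF p q (hg.ty p q h)
  have s4 : ∀ᶠ t in nhdsWithin t₀ (Icc 0 1), ∀ p ∈ Finset.Ico (0 : ℤ) N,
      ∀ q ∈ Finset.Ico (0 : ℤ) (2 * N), ∀ p' ∈ Finset.Ico (0 : ℤ) (2 * N),
      ∀ q' ∈ Finset.Ico (0 : ℤ) (2 * N), Comp (F t₀) a b p q ∧ Comp (F t₀) a b p' q' ∧ q < p' ∧
        q' < p + N → Sep (F t) p q p' q' a ∧ Sep (F t) p q p' q' b := by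
    refine (Filter.eventually_all_finset _).2 fun p _ => ?_
    refine (Filter.eventually_all_finset _).2 fun q _ => ?_
    refine (Filter.eventually_all_finset _).2 fun p' _ => ?_
    refine (Filter.eventually_all_finset _).2 fun q' _ => ?_
    refine ev_imp fun h => ?_
    have h2 := hg.sep p q p' q' h.1 h.2.1 h.2.2.1 h.2.2.2
    exact (sep_ev F t₀ hF p q p' q' a h2.1).and (sep_ev F t₀ hF p q p' q' b h2.2)
  filter_upwards [s1, s2, s3, s4] with t h1 h2 h3 h4
  -- reduction of an index modulo the period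
  have red : ∀ p : ℤ, 0 ≤ p + -(p / N) * N ∧ p + -(p / N) * N < N := by
    intro p
    have e : p + -(p / N) * N = p % N := by
      have := Int.emod_add_mul_ediv p N
      linarith
    rw [e]
    exact ⟨Int.emod_nonneg _ (by omega), Int.emod_lt_of_pos _ (by omega)⟩
  refine ⟨hg.lt, ?_, ?_, ?_, ?_⟩
  · intro i
    obtain ⟨e1, e2⟩ := hg.av i
    constructor
    · rcases lt_or_gt_of_ne e1 with h | h
      · exact ((h1 i).1.2 h).ne
      · exact ((h1 i).2.2 h).ne'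
    · rcases lt_or_gt_of_ne e2 with h | h
      · exact ((h2 i).1.2 h).ne
      · exact ((h2 i).2.2 h).ne'
  · obtain ⟨i, hi⟩ := hg.out
    exact ⟨i, hi.imp (h1 i).1.2 (h2 i).2.2⟩
  · intro p q hc
    have hc0 : Comp (F t₀) a b p q := comp_of h1 h2 hc
    obtain ⟨r1, r2⟩ := red p
    have hc1 := C.sh (F t₀) a b p q (-(p / N)) hc0
    have hln := C.ln (F t₀) a b _ _ hN hg hc1
    have hle := hc1.le
    have h5 := h3 _ (Finset.mem_Ico.2 ⟨r1, r2⟩) (q + -(p / N) * N)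
      (Finset.mem_Ico.2 ⟨by linarith, by linarith⟩) hc1
    have h6 := ty_sh G (p / N) h5
    have e1 : p + -(p / N) * N + p / N * N = p := by ring
    have e2 : q + -(p / N) * N + p / N * N = q := by ring
    rwa [e1, e2] at h6
  · intro p q p' q' hc hc' hq hq'
    have hc0 : Comp (F t₀) a b p q := comp_of h1 h2 hc
    have hc0' : Comp (F t₀) a b p' q' := comp_of h1 h2 hc'
    obtain ⟨r1, r2⟩ := red p
    have hc1 := C.sh (F t₀) a b p q (-(p / N)) hc0
    have hc1' := C.sh (F t₀) a b p' q' (-(p / N)) hc0'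
    have hle := hc1.le
    have hle' := hc1'.le
    have h5 := h4 _ (Finset.mem_Ico.2 ⟨r1, r2⟩) (q + -(p / N) * N)
      (Finset.mem_Ico.2 ⟨by linarith, by linarith⟩) (p' + -(p / N) * N)
      (Finset.mem_Ico.2 ⟨by linarith, by linarith⟩) (q' + -(p / N) * N)
      (Finset.mem_Ico.2 ⟨by linarith, by linarith⟩)
      ⟨hc1, hc1', by linarith, by linarith⟩
    have e : ∀ r : ℤ, r + -(p / N) * N + p / N * N = r := fun r => by ring
    have h6 := sep_sh G (p / N) h5.1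
    have h7 := sep_sh G (p / N) h5.2
    rw [e, e, e, e] at h6 h7
    exact ⟨h6, h7⟩

end OPG

theorem t_OPG : Stmt_OPG := by
  intro G C N F t₀ X hN hF hX
  obtain ⟨a, ha, hlo⟩ := hX.lo
  obtain ⟨b, hb, hhi⟩ := hX.hi
  have s1 := OPG.sg_ev G F t₀ hN hF a fun i => (hlo i).ne'
  have s2 := OPG.sg_ev G F t₀ hN hF b fun i => (hhi i).ne
  have s3 : ∀ᶠ t in nhdsWithin t₀ (Icc 0 1), ∀ a ∈ X, ∀ b ∈ X, AdjX X a b → Good (F t) a b := by
    refine (Filter.eventually_all_finset _).2 fun a _ => ?_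
    refine (Filter.eventually_all_finset _).2 fun b _ => ?_
    exact OPG.ev_imp fun h => OPG.good_ev G C F t₀ hN hF a b (hX.gd a b h)
  filter_upwards [s1, s2, s3] with t h1 h2 h3
  exact ⟨⟨a, ha, fun i => (h1 i).2.2 (hlo i)⟩, ⟨b, hb, fun i => (h2 i).1.2 (hhi i)⟩,
    fun a b h => h3 a h.1 b h.2.1 h⟩

end LH
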