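import Pool.Agent.LH.Stmts2

/-!
# The same items are a walk of the nearby polygons
-/

namespace LH

open Set LG

namespace OPW

open Filter

variable {N : ℕ} {F : ℝ → Pg N} {t₀ : ℝ}

theorem ev_lt (h : CtA F t₀) {i : ℤ} {c : ℝ} (hc : (F t₀).x i < c) :
    ∀ᶠ t in nhdsWithin t₀ (Icc 0 1), (F t).x i < c :=
  (h i).1.eventually (gt_mem_nhds hc)

theorem ev_gt (h : CtA F t₀) {i : ℤ} {c : ℝ} (hc : c < (F t₀).x i) :
    ∀ᶠ t in nhdsWithin t₀ (Icc 0 1), c < (F t).x i :=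
  (h i).1.eventually (lt_mem_nhds hc)

theorem ev_btw (h : CtA F t₀) {i : ℤ} {a b : ℝ} (hc : Btw a b ((F t₀).x i)) :
    ∀ᶠ t in nhdsWithin t₀ (Icc 0 1), Btw a b ((F t).x i) := by
  rcases hc with ⟨h1, h2⟩ | ⟨h1, h2⟩
  · filter_upwards [ev_gt h h1, ev_lt h h2] with t h3 h4
    exact Or.inl ⟨h3, h4⟩
  · filter_upwards [ev_gt h h1, ev_lt h h2] with t h3 h4
    exact Or.inr ⟨h3, h4⟩

theorem ev_ok (h : CtA F t₀) {j : It} (hj : ItOK (F t₀) j) :
    ∀ᶠ t in nhdsWithin t₀ (Icc 0 1), ItOK (F t) j := by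
  have h1 : ∀ᶠ t in nhdsWithin t₀ (Icc 0 1),
      (j.k = .rt → (F t).x j.e < j.t ∧ j.t < (F t).x (j.e + 1)) := by
    by_cases hk : j.k = .rt
    · obtain ⟨h2, h3⟩ := hj.1 hk
      filter_upwards [ev_lt h h2, ev_gt h h3] with t h4 h5 _
      exact ⟨h4, h5⟩
    · exact Eventually.of_forall fun t hk' => absurd hk' hk
  have h2 : ∀ᶠ t in nhdsWithin t₀ (Icc 0 1),
      (j.k = .lt → (F t).x (j.e + 1) < j.t ∧ j.t < (F t).x j.e) := by
    by_cases hk : j.k = .lt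
    · obtain ⟨h2, h3⟩ := hj.2 hk
      filter_upwards [ev_lt h h2, ev_gt h h3] with t h4 h5 _
      exact ⟨h4, h5⟩
    · exact Eventually.of_forall fun t hk' => absurd hk' hk
  filter_upwards [h1, h2] with t h3 h4
  exact ⟨h3, h4⟩

theorem ev_lnk (h : CtA F t₀) {X : Finset ℝ} {i j : It} (hl : Lnk (F t₀) X i j) :
    ∀ᶠ t in nhdsWithin t₀ (Icc 0 1), Lnk (F t) X i j := by
  have h1 : ∀ᶠ t in nhdsWithin t₀ (Icc 0 1), ∀ m ∈ Finset.Ioc i.e j.e,
      Btw i.t j.t ((F t).x m) := by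
    rw [Filter.eventually_all_finset]
    intro m hm
    rw [Finset.mem_Ioc] at hm
    exact ev_btw h (hl.ins m hm.1 hm.2)
  filter_upwards [h1] with t ht
  exact ⟨hl.le, hl.tl, hl.adj, fun m h2 h3 => ht m (Finset.mem_Ioc.2 ⟨h2, h3⟩), hl.dir⟩

theorem ev_all (h : CtA F t₀) : ∀ w : List It, (∀ j ∈ w, ItOK (F t₀) j) →
    ∀ᶠ t in nhdsWithin t₀ (Icc 0 1), ∀ j ∈ w, ItOK (F t) j
  | [], _ => Eventually.of_forall fun t j hj => by simp at hj
  | a :: w, hw => by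
    have h1 := ev_ok h (hw a List.mem_cons_self)
    have h2 := ev_all h w fun j hj => hw j (List.mem_cons_of_mem a hj)
    filter_upwards [h1, h2] with t h3 h4 j hj
    rcases List.mem_cons.1 hj with rfl | hj
    · exact h3
    · exact h4 j hj

theorem ev_chain (h : CtA F t₀) {X : Finset ℝ} : ∀ l : List It,
    List.IsChain (Lnk (F t₀) X) l →
    ∀ᶠ t in nhdsWithin t₀ (Icc 0 1), List.IsChain (Lnk (F t) X) l
  | [], _ => Eventually.of_forall fun t => List.IsChain.nil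
  | [a], _ => Eventually.of_forall fun t => List.IsChain.singleton a
  | a :: b :: l, hl => by
    rw [List.isChain_cons_cons] at hl
    filter_upwards [ev_lnk h hl.1, ev_chain h (b :: l) hl.2] with t h3 h4
    rw [List.isChain_cons_cons]
    exact ⟨h3, h4⟩

end OPW

/-- OPW: the same items are a walk of the nearby polygons. -/
theorem t_OPW : Stmt_OPW := by
  intro _ N F t₀ X w _ h hw
  obtain ⟨⟨i, w', rfl, h1, h2⟩, h3⟩ := hw
  filter_upwards [OPW.ev_all h _ h1, OPW.ev_chain h _ h2] with t h4 h5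
  exact ⟨⟨i, w', rfl, h4, h5⟩, h3⟩

end LH
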