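import Pool.Agent.LH.Stmts2

/-!
# Moving the lines a little
-/

namespace LH

open Set LG

namespace PEA

variable {N : ℕ}

/-- The line `s` is near the line `t`: all strict inequalities at `t` remain true at `s`. -/
structure Nr (P : Pg N) (t s : ℝ) : Prop where
  lo : ∀ i, P.x i < t → P.x i < s
  hi : ∀ i, t < P.x i → s < P.x i
  ln : ∀ i j, P.l i t < P.l j t → P.l i s < P.l j s

theorem red (hB : P_PGB) (P : Pg N) (i : ℤ) :
    P.x (i % N) = P.x i ∧ ∀ t, P.l (i % N) t = P.l i t := by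
  have h := hB.sh P (i % N) (i / N)
  have e : i % N + i / N * N = i := Int.emod_add_ediv_mul i N
  rw [e] at h
  exact ⟨h.1.symm, fun t => (h.2.2.2 t).symm⟩

theorem cont_l (P : Pg N) (i : ℤ) : Continuous (P.l i) := by
  unfold Pg.l
  fun_prop

theorem nr_ev (hB : P_PGB) (hN : 0 < N) (P : Pg N) (t : ℝ) :
    ∀ᶠ s in nhds t, Nr P t s := by
  have hN' : (0 : ℤ) < N := by exact_mod_cast hN
  have hm : ∀ i : ℤ, i % N ∈ Finset.Ico (0 : ℤ) N := fun i =>
    Finset.mem_Ico.mpr ⟨Int.emod_nonneg i hN'.ne', Int.emod_lt_of_pos i hN'⟩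
  have h1 : ∀ᶠ s in nhds t, ∀ i ∈ Finset.Ico (0 : ℤ) N, P.x i < t → P.x i < s := by
    rw [Filter.eventually_all_finset]
    intro i _
    by_cases h : P.x i < t
    · filter_upwards [lt_mem_nhds h] with s hs _ using hs
    · exact Filter.Eventually.of_forall fun s h' => absurd h' h
  have h2 : ∀ᶠ s in nhds t, ∀ i ∈ Finset.Ico (0 : ℤ) N, t < P.x i → s < P.x i := by
    rw [Filter.eventually_all_finset]
    intro i _
    by_cases h : t < P.x i
    · filter_upwards [gt_mem_nhds h] with s hs _ using hs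
    · exact Filter.Eventually.of_forall fun s h' => absurd h' h
  have h3 : ∀ᶠ s in nhds t, ∀ i ∈ Finset.Ico (0 : ℤ) N, ∀ j ∈ Finset.Ico (0 : ℤ) N,
      P.l i t < P.l j t → P.l i s < P.l j s := by
    rw [Filter.eventually_all_finset]
    intro i _
    rw [Filter.eventually_all_finset]
    intro j _
    by_cases h : P.l i t < P.l j t
    · have := ((cont_l P i).tendsto t).eventually_lt ((cont_l P j).tendsto t) h
      filter_upwards [this] with s hs _ using hs
    · exact Filter.Eventually.of_forall fun s h' => absurd h' h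
  filter_upwards [h1, h2, h3] with s g1 g2 g3
  refine ⟨fun i hi => ?_, fun i hi => ?_, fun i j hij => ?_⟩
  · have := g1 _ (hm i)
    rw [(red hB P i).1] at this
    exact this hi
  · have := g2 _ (hm i)
    rw [(red hB P i).1] at this
    exact this hi
  · have := g3 _ (hm i) _ (hm j)
    rw [(red hB P i).2, (red hB P i).2, (red hB P j).2, (red hB P j).2] at this
    exact this hij

theorem ex_eps (hB : P_PGB) (hN : 0 < N) (P : Pg N) (X : Finset ℝ) :
    ∃ ε > 0, (∀ t ∈ X, ∀ s, |s - t| < ε → Nr P t s) ∧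
      ∀ s ∈ X, ∀ t ∈ X, s < t → 2 * ε < t - s := by
  have h1 : ∀ᶠ ε in nhdsWithin (0 : ℝ) (Ioi 0), ∀ t ∈ X, ∀ s, |s - t| < ε → Nr P t s := by
    rw [Filter.eventually_all_finset]
    intro t _
    obtain ⟨δ, hδ, h⟩ := Metric.eventually_nhds_iff.mp (nr_ev hB hN P t)
    filter_upwards [Ioo_mem_nhdsGT hδ] with ε hε s hs
    apply h
    rw [Real.dist_eq]
    exact hs.trans hε.2
  have h2 : ∀ᶠ ε in nhdsWithin (0 : ℝ) (Ioi 0), ∀ s ∈ X, ∀ t ∈ X, s < t → 2 * ε < t - s := by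
    rw [Filter.eventually_all_finset]
    intro s _
    rw [Filter.eventually_all_finset]
    intro t _
    by_cases h : s < t
    · have h' : 0 < (t - s) / 2 := by linarith
      filter_upwards [Ioo_mem_nhdsGT h'] with ε hε _
      linarith [hε.2]
    · exact Filter.Eventually.of_forall fun ε h' => absurd h' h
  obtain ⟨ε, ⟨g1, g2⟩, g3⟩ := ((h1.and h2).and self_mem_nhdsWithin).exists
  exact ⟨ε, g3, g1, g2⟩

section Move

variable {P : Pg N} {X : Finset ℝ} {σ : ℝ → ℝ}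

/-- The assumptions on the new lines. -/
structure Mv (P : Pg N) (X : Finset ℝ) (σ : ℝ → ℝ) : Prop where
  nr : ∀ t ∈ X, Nr P t (σ t)
  mono : ∀ s ∈ X, ∀ t ∈ X, s < t → σ s < σ t
  av : ∀ t ∈ X, ∀ i, P.x i ≠ t

theorem Mv.lo_iff (h : Mv P X σ) {t : ℝ} (ht : t ∈ X) (i : ℤ) : P.x i < σ t ↔ P.x i < t := by
  constructor
  · intro h1
    rcases lt_trichotomy (P.x i) t with h2 | h2 | h2
    · exact h2
    · exact absurd h2 (h.av t ht i)
    · exact absurd h1 (not_lt.mpr ((h.nr t ht).hi i h2).le)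
  · exact (h.nr t ht).lo i

theorem Mv.hi_iff (h : Mv P X σ) {t : ℝ} (ht : t ∈ X) (i : ℤ) : σ t < P.x i ↔ t < P.x i := by
  constructor
  · intro h1
    rcases lt_trichotomy (P.x i) t with h2 | h2 | h2
    · exact absurd h1 (not_lt.mpr ((h.nr t ht).lo i h2).le)
    · exact absurd h2 (h.av t ht i)
    · exact h2
  · exact (h.nr t ht).hi i

theorem Mv.lt_iff (h : Mv P X σ) {s t : ℝ} (hs : s ∈ X) (ht : t ∈ X) : σ s < σ t ↔ s < t := by
  constructor
  · intro h1
    rcases lt_trichotomy s t with h2 | h2 | h2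
    · exact h2
    · rw [h2] at h1
      exact absurd h1 (lt_irrefl _)
    · exact absurd (h.mono t ht s hs h2) (not_lt.mpr h1.le)
  · exact h.mono s hs t ht

theorem Mv.comp_iff (h : Mv P X σ) {a b : ℝ} (ha : a ∈ X) (hb : b ∈ X) (p q : ℤ) :
    Comp P (σ a) (σ b) p q ↔ Comp P a b p q := by
  constructor
  · intro c
    refine ⟨c.le, fun i h1 h2 => ?_, ?_, ?_, fun he => ?_⟩
    · have := c.ins i h1 h2
      rwa [h.hi_iff ha, h.lo_iff hb] at this
    · have := c.fst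
      rwa [h.lo_iff ha, h.hi_iff hb] at this
    · have := c.lst
      rwa [h.lo_iff ha, h.hi_iff hb] at this
    · have := c.one he
      rwa [h.lo_iff ha, h.hi_iff hb, h.lo_iff ha, h.hi_iff hb] at this
  · intro c
    refine ⟨c.le, fun i h1 h2 => ?_, ?_, ?_, fun he => ?_⟩
    · have := c.ins i h1 h2
      rwa [h.hi_iff ha, h.lo_iff hb]
    · have := c.fst
      rwa [h.lo_iff ha, h.hi_iff hb]
    · have := c.lst
      rwa [h.lo_iff ha, h.hi_iff hb]
    · have := c.one he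
      rwa [h.lo_iff ha, h.hi_iff hb, h.lo_iff ha, h.hi_iff hb]

theorem Mv.sep (h : Mv P X σ) {a : ℝ} (ha : a ∈ X) {p q p' q' : ℤ} (hs : Sep P p q p' q' a) :
    Sep P p q p' q' (σ a) := by
  rcases hs with hs | hs
  · exact Or.inl fun i hi j hj => (h.nr a ha).ln i j (hs i hi j hj)
  · exact Or.inr fun i hi j hj => (h.nr a ha).ln j i (hs i hi j hj)

theorem Mv.good (h : Mv P X σ) {a b : ℝ} (ha : a ∈ X) (hb : b ∈ X) (hg : Good P a b) :
    Good P (σ a) (σ b) := by
  refine ⟨h.mono a ha b hb hg.lt, fun i => ?_, ?_, fun p q hc => ?_, fun p q p' q' h1 h2 h3 h4 => ?_⟩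
  · constructor
    · intro he
      rcases lt_or_gt_of_ne (hg.av i).1 with h1 | h1
      · exact absurd ((h.nr a ha).lo i h1) (he ▸ lt_irrefl _)
      · exact absurd ((h.nr a ha).hi i h1) (he ▸ lt_irrefl _)
    · intro he
      rcases lt_or_gt_of_ne (hg.av i).2 with h1 | h1
      · exact absurd ((h.nr b hb).lo i h1) (he ▸ lt_irrefl _)
      · exact absurd ((h.nr b hb).hi i h1) (he ▸ lt_irrefl _)
  · obtain ⟨i, hi⟩ := hg.out
    refine ⟨i, ?_⟩
    rwa [h.lo_iff ha, h.hi_iff hb]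
  · exact hg.ty p q ((h.comp_iff ha hb p q).mp hc)
  · have := hg.sep p q p' q' ((h.comp_iff ha hb p q).mp h1) ((h.comp_iff ha hb p' q').mp h2) h3 h4
    exact ⟨h.sep ha this.1, h.sep hb this.2⟩

theorem Mv.adj (h : Mv P X σ) {a b : ℝ} (hab : AdjX X a b) : AdjX (X.image σ) (σ a) (σ b) := by
  obtain ⟨ha, hb, hlt, hn⟩ := hab
  refine ⟨Finset.mem_image_of_mem _ ha, Finset.mem_image_of_mem _ hb, h.mono a ha b hb hlt, ?_⟩
  intro t ht
  obtain ⟨u, hu, rfl⟩ := Finset.mem_image.mp ht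
  rw [h.lt_iff ha hu, h.lt_iff hu hb]
  exact hn u hu

theorem Mv.adj' (h : Mv P X σ) {a' b' : ℝ} (hab : AdjX (X.image σ) a' b') :
    ∃ a b, AdjX X a b ∧ a' = σ a ∧ b' = σ b := by
  obtain ⟨ha', hb', hlt, hn⟩ := hab
  obtain ⟨a, ha, rfl⟩ := Finset.mem_image.mp ha'
  obtain ⟨b, hb, rfl⟩ := Finset.mem_image.mp hb'
  refine ⟨a, b, ⟨ha, hb, (h.lt_iff ha hb).mp hlt, fun t ht => ?_⟩, rfl, rfl⟩
  have := hn (σ t) (Finset.mem_image_of_mem _ ht)
  rwa [h.lt_iff ha ht, h.lt_iff ht hb] at this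

theorem Mv.goodX (h : Mv P X σ) (hg : GoodX P X) : GoodX P (X.image σ) := by
  refine ⟨?_, ?_, ?_⟩
  · obtain ⟨a, ha, h1⟩ := hg.lo
    exact ⟨σ a, Finset.mem_image_of_mem _ ha, fun i => (h.nr a ha).hi i (h1 i)⟩
  · obtain ⟨b, hb, h1⟩ := hg.hi
    exact ⟨σ b, Finset.mem_image_of_mem _ hb, fun i => (h.nr b hb).lo i (h1 i)⟩
  · intro a' b' hab
    obtain ⟨a, b, hab', rfl, rfl⟩ := h.adj' hab
    exact h.good hab'.1 hab'.2.1 (hg.gd a b hab')

/-- The item on the new line. -/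
def mi (σ : ℝ → ℝ) (i : It) : It := ⟨i.k, σ i.t, i.e⟩

theorem Mv.btw (h : Mv P X σ) {s t : ℝ} (hs : s ∈ X) (ht : t ∈ X) {m : ℤ}
    (hb : Btw s t (P.x m)) : Btw (σ s) (σ t) (P.x m) := by
  unfold Btw at hb ⊢
  rwa [h.hi_iff hs, h.lo_iff ht, h.hi_iff ht, h.lo_iff hs]

theorem lnk_mem {i j : It} (hl : Lnk P X i j) : i.t ∈ X ∧ j.t ∈ X := by
  rcases hl.adj with h | h
  · exact ⟨h.1, h.2.1⟩
  · exact ⟨h.2.1, h.1⟩

theorem Mv.lnk (h : Mv P X σ) {i j : It} (hl : Lnk P X i j) :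
    Lnk P (X.image σ) (mi σ i) (mi σ j) := by
  obtain ⟨hi, hj⟩ := lnk_mem hl
  refine ⟨hl.le, hl.tl, ?_, fun m h1 h2 => h.btw hi hj (hl.ins m h1 h2), ?_⟩
  · rcases hl.adj with h1 | h1
    · exact Or.inl (h.adj h1)
    · exact Or.inr (h.adj h1)
  · rcases hl.dir with ⟨h1, h2, h3⟩ | ⟨h1, h2, h3⟩
    · exact Or.inl ⟨h1, h2, h.mono _ hi _ hj h3⟩
    · exact Or.inr ⟨h1, h2, h.mono _ hj _ hi h3⟩

theorem Mv.itOK (h : Mv P X σ) {i : It} (hi : i.t ∈ X) (hok : ItOK P i) : ItOK P (mi σ i) := by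
  refine ⟨fun hk => ?_, fun hk => ?_⟩
  · obtain ⟨h1, h2⟩ := hok.1 hk
    exact ⟨(h.nr _ hi).lo _ h1, (h.nr _ hi).hi _ h2⟩
  · obtain ⟨h1, h2⟩ := hok.2 hk
    exact ⟨(h.nr _ hi).lo _ h1, (h.nr _ hi).hi _ h2⟩

theorem chain_mem {l : List It} {R : It → It → Prop} (S : It → Prop)
    (hR : ∀ a b, R a b → S a) {z : It} (h : List.IsChain R (l ++ [z])) : ∀ a ∈ l, S a := by
  induction l with
  | nil => intro a ha; simp at ha
  | cons b l ih =>
    intro a ha
    rcases l with _ | ⟨c, l⟩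
    · have : a = b := by simpa using ha
      subst this
      have h' : R a z := by
        simpa using h
      exact hR _ _ h'
    · have h' : List.IsChain R (b :: c :: (l ++ [z])) := h
      rw [List.isChain_cons_cons] at h'
      rcases List.mem_cons.mp ha with rfl | ha
      · exact hR _ _ h'.1
      · exact ih h'.2 a ha

theorem ew_mem {w : List It} (hw : EW P X w) : ∀ i ∈ w, i.t ∈ X := by
  obtain ⟨i, w', hw', hok, hch⟩ := hw
  exact chain_mem (fun i => i.t ∈ X) (fun a b hab => (lnk_mem hab).1) hch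

theorem Mv.ew (h : Mv P X σ) {w : List It} (hw : EW P X w) : EW P (X.image σ) (w.map (mi σ)) := by
  have hm := ew_mem hw
  obtain ⟨i, w', hw', hok, hch⟩ := hw
  refine ⟨mi σ i, w'.map (mi σ), by rw [hw']; rfl, ?_, ?_⟩
  · intro j hj
    obtain ⟨j', hj', rfl⟩ := List.mem_map.mp hj
    exact h.itOK (hm j' hj') (hok j' hj')
  · have e : w.map (mi σ) ++ [(mi σ i).sh N] = (w ++ [i.sh N]).map (mi σ) := by
      rw [List.map_append]
      rfl
    rw [e, List.isChain_map]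
    exact hch.imp fun a b hab => h.lnk hab

theorem cp_map {α β : Type*} (f : α → β) (w : List α) : cp (w.map f) = (cp w).map (Prod.map f f) := by
  unfold cp
  rw [← List.map_rotate, List.zip_map]

theorem Mv.gw (h : Mv P X σ) {w : List It} (hw : GW P X w) : GW P (X.image σ) (w.map (mi σ)) := by
  refine ⟨h.ew hw.1, ?_⟩
  intro x hx
  rw [cp_map] at hx
  obtain ⟨y, hy, rfl⟩ := List.mem_map.mp hx
  exact hw.2 y hy

/-! ### the entries -/

/-- The columns. -/
theorem inl_mem {w : List It} {a : Q} (h : Sum.inl a ∈ ents (w.map (pt P))) :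
    ∃ i ∈ w, i.k ≠ .L ∧ a = (pt P i).c := by
  unfold ents at h
  rw [List.flatMap_map, List.mem_flatMap] at h
  obtain ⟨i, hi, h⟩ := h
  refine ⟨i, hi, ?_⟩
  unfold ent at h
  have hk : (pt P i).k = i.k := rfl
  rw [hk] at h
  rcases hik : i.k with _ | _ | _ | _ <;> rw [hik] at h <;> simp at h <;> simp [h]

theorem inr_mem {w : List It} {a : Q} (h : Sum.inr a ∈ ents (w.map (pt P))) :
    ∃ i ∈ w, i.k ≠ .R ∧ a = (pt P i).r := by
  unfold ents at h
  rw [List.flatMap_map, List.mem_flatMap] at h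
  obtain ⟨i, hi, h⟩ := h
  refine ⟨i, hi, ?_⟩
  unfold ent at h
  have hk : (pt P i).k = i.k := rfl
  rw [hk] at h
  rcases hik : i.k with _ | _ | _ | _ <;> rw [hik] at h <;> simp at h <;> simp [h]

theorem inl_ent {i : It} (h : i.k ≠ .L) : Sum.inl (pt P i).c ∈ ent (pt P i) := by
  unfold ent
  have hk : (pt P i).k = i.k := rfl
  rw [hk]
  rcases hik : i.k with _ | _ | _ | _ <;> simp [hik] at h ⊢

theorem inr_ent {i : It} (h : i.k ≠ .R) : Sum.inr (pt P i).r ∈ ent (pt P i) := by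
  unfold ent
  have hk : (pt P i).k = i.k := rfl
  rw [hk]
  rcases hik : i.k with _ | _ | _ | _ <;> simp [hik] at h ⊢

theorem nd_disj {w : List It} (hnd : (ents (w.map (pt P))).Nodup) {i j : It} (hi : i ∈ w)
    (hj : j ∈ w) (hij : i ≠ j) : List.Disjoint (ent (pt P i)) (ent (pt P j)) := by
  unfold ents at hnd
  rw [List.flatMap_map, List.nodup_flatMap] at hnd
  have h2 := hnd.2
  have hs : Std.Symm (Function.onFun List.Disjoint fun a : It => ent (pt P a)) :=
    ⟨fun a b hab => List.disjoint_comm.mp hab⟩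
  exact h2.forall hi hj hij

open Classical in
/-- The new column. -/
noncomputable def fc (P : Pg N) (σ : ℝ → ℝ) (w : List It) (a : Q) : Q :=
  if h : ∃ i ∈ w, i.k ≠ .L ∧ a = (pt P i).c then (pt P (mi σ h.choose)).c else a

open Classical in
/-- The new row. -/
noncomputable def fr (P : Pg N) (σ : ℝ → ℝ) (w : List It) (a : Q) : Q :=
  if h : ∃ i ∈ w, i.k ≠ .R ∧ a = (pt P i).r then (pt P (mi σ h.choose)).r else a

theorem fc_eq {w : List It} (hnd : (ents (w.map (pt P))).Nodup) {i : It} (hi : i ∈ w)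
    (hk : i.k ≠ .L) : fc P σ w (pt P i).c = (pt P (mi σ i)).c := by
  have h : ∃ j ∈ w, j.k ≠ .L ∧ (pt P i).c = (pt P j).c := ⟨i, hi, hk, rfl⟩
  unfold fc
  rw [dif_pos h]
  obtain ⟨h1, h2, h3⟩ := h.choose_spec
  have : h.choose = i := by
    by_contra hne
    have hd := nd_disj hnd h1 hi hne
    apply hd (inl_ent h2)
    rw [← h3]
    exact inl_ent hk
  rw [this]

theorem fr_eq {w : List It} (hnd : (ents (w.map (pt P))).Nodup) {i : It} (hi : i ∈ w)
    (hk : i.k ≠ .R) : fr P σ w (pt P i).r = (pt P (mi σ i)).r := by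
  have h : ∃ j ∈ w, j.k ≠ .R ∧ (pt P i).r = (pt P j).r := ⟨i, hi, hk, rfl⟩
  unfold fr
  rw [dif_pos h]
  obtain ⟨h1, h2, h3⟩ := h.choose_spec
  have : h.choose = i := by
    by_contra hne
    have hd := nd_disj hnd h1 hi hne
    apply hd (inr_ent h2)
    rw [← h3]
    exact inr_ent hk
  rw [this]

theorem ents_eq {w : List It} (hnd : (ents (w.map (pt P))).Nodup) :
    (lst P w).map (Sum.map (fc P σ w) (fr P σ w)) = lst P (w.map (mi σ)) := by
  unfold lst ents
  rw [List.map_flatMap, List.map_map, List.flatMap_map, List.flatMap_map]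
  apply List.flatMap_congr
  intro i hi
  have hc := fc_eq (σ := σ) hnd hi
  have hr := fr_eq (σ := σ) hnd hi
  have hk : (pt P i).k = i.k := rfl
  have hk' : (pt P (mi σ i)).k = i.k := rfl
  change (ent (pt P i)).map _ = ent (pt P (mi σ i))
  unfold ent
  rw [hk, hk']
  rcases hik : i.k with _ | _ | _ | _
  · simp [hc (by rw [hik]; decide), hr (by rw [hik]; decide)]
  · simp [hc (by rw [hik]; decide), hr (by rw [hik]; decide)]
  · simp [hc (by rw [hik]; decide)]
  · simp [hr (by rw [hik]; decide)]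

theorem Mv.we (hW : P_WEB) (hA : P_CWA) (h : Mv P X σ) {w : List It} (hw : EW P X w)
    (hcw : CW (w.map (pt P))) : WE (lst P w) (lst P (w.map (mi σ))) := by
  have hm := ew_mem hw
  have hnd : (ents (w.map (pt P))).Nodup := hcw.nd
  rw [← ents_eq hnd]
  apply hW.iso _ _ _ (hA.alt _ hcw) hnd
  · intro a b ha hb hab
    obtain ⟨i, hi, hki, rfl⟩ := inl_mem ha
    obtain ⟨j, hj, hkj, rfl⟩ := inl_mem hb
    rw [fc_eq hnd hi hki, fc_eq hnd hj hkj]
    unfold Pt.c at hab ⊢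
    rw [Prod.Lex.toLex_lt_toLex] at hab ⊢
    rcases hab with h1 | ⟨h1, h2⟩
    · exact Or.inl (h.mono _ (hm i hi) _ (hm j hj) h1)
    · refine Or.inr ⟨congrArg σ h1, ?_⟩
      have h3 : i.t = j.t := h1
      have h4 : P.l i.e i.t < P.l j.e j.t := h2
      change P.l i.e (σ i.t) < P.l j.e (σ j.t)
      rw [← h3] at h4 ⊢
      exact (h.nr _ (hm i hi)).ln _ _ h4
  · intro a b ha hb hab
    obtain ⟨i, hi, hki, rfl⟩ := inr_mem ha
    obtain ⟨j, hj, hkj, rfl⟩ := inr_mem hb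
    rw [fr_eq hnd hi hki, fr_eq hnd hj hkj]
    unfold Pt.r at hab ⊢
    rw [Prod.Lex.toLex_lt_toLex] at hab ⊢
    rcases hab with h1 | ⟨h1, h2⟩
    · left
      have h3 : -i.t < -j.t := h1
      have h4 := h.mono _ (hm j hj) _ (hm i hi) (neg_lt_neg_iff.mp h3)
      change -(σ i.t) < -(σ j.t)
      linarith
    · right
      have h3 : -i.t = -j.t := h1
      have h3' : i.t = j.t := neg_inj.mp h3
      have h4 : P.l i.e i.t < P.l j.e j.t := h2
      change -(σ i.t) = -(σ j.t) ∧ P.l i.e (σ i.t) < P.l j.e (σ j.t)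
      rw [← h3'] at h4 ⊢
      exact ⟨rfl, (h.nr _ (hm i hi)).ln _ _ h4⟩

end Move

/-- Every line of a good set has a neighbour. -/
theorem av {P : Pg N} {X : Finset ℝ} (hg : GoodX P X) : ∀ t ∈ X, ∀ i, P.x i ≠ t := by
  intro t ht i
  obtain ⟨a, ha, h1⟩ := hg.lo
  obtain ⟨b, hb, h2⟩ := hg.hi
  rcases lt_or_ge t b with h | h
  · -- the next line
    have hne : (X.filter (fun s => t < s)).Nonempty := ⟨b, Finset.mem_filter.mpr ⟨hb, h⟩⟩
    set c := (X.filter (fun s => t < s)).min' hne with hc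
    have hcm := Finset.min'_mem _ hne
    rw [← hc, Finset.mem_filter] at hcm
    have hadj : AdjX X t c := by
      refine ⟨ht, hcm.1, hcm.2, fun s hs hs' => ?_⟩
      have := Finset.min'_le (X.filter (fun s => t < s)) s (Finset.mem_filter.mpr ⟨hs, hs'.1⟩)
      rw [← hc] at this
      exact absurd hs'.2 (not_lt.mpr this)
    exact ((hg.gd t c hadj).av i).1
  · have := h2 i
    exact (this.trans_le h).ne

end PEA

/-- Moving the lines a little. -/
theorem t_PEA : Stmt_PEA := by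
  intro hB hC hS hW hA hG N P X w hN hg hw
  obtain ⟨ε, hε, h1, h2⟩ := PEA.ex_eps hB hN P X
  refine ⟨ε, hε, fun σ hσ => ?_⟩
  have hmono : ∀ s ∈ X, ∀ t ∈ X, s < t → σ s < σ t := by
    intro s hs t ht hst
    have e1 := abs_lt.mp (hσ s hs)
    have e2 := abs_lt.mp (hσ t ht)
    have e3 := h2 s hs t ht hst
    linarith [e1.2, e2.1]
  have hM : PEA.Mv P X σ := ⟨fun t ht => h1 t ht (σ t) (hσ t ht), hmono, PEA.av hg⟩
  exact ⟨hmono, hM.goodX hg, hM.gw hw, hM.we hW hA hw.1 (hG P X w hg hw)⟩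

end LH
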