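import Pool.Agent.LH.Stmts2

/-!
# PER: the lines can be made generic
-/

namespace LH

open Set LG

namespace PER

theorem near (E : Set ℝ) (hE : E.Finite) (ε : ℝ) (hε : 0 < ε) (t : ℝ) :
    ∃ s, |s - t| < ε ∧ s ∉ E := by
  have h1 : (Ioo (t - ε) (t + ε)).Infinite := Ioo_infinite (by linarith)
  obtain ⟨s, hs, hsE⟩ := h1.exists_notMem_finite hE
  refine ⟨s, ?_, hsE⟩
  rw [abs_lt]
  constructor
  · linarith [hs.1]
  · linarith [hs.2]

end PER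

theorem t_PER : Stmt_PER := by
  intro seq evf pea N P X w hX hw
  have hN : 0 < N := seq.pos P X w hw.1
  obtain ⟨ε, hε, hσ⟩ := pea P X w hN hX hw
  choose σ h1 h2 using PER.near (Ev P) (evf P hN) ε hε
  obtain ⟨-, hg, hgw, hwe⟩ := hσ σ (fun t _ => h1 t)
  refine ⟨X.image σ, w.map fun i => ⟨i.k, σ i.t, i.e⟩, hg, ?_, hgw, hwe⟩
  intro s hs
  obtain ⟨t, -, rfl⟩ := Finset.mem_image.1 hs
  refine ⟨fun i hi => h2 t (Or.inl ⟨i, hi⟩), fun i j hij hl => h2 t (Or.inr ⟨i, j, hij, hl⟩)⟩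

end LH
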