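import Pool.Agent.LH.Stmts2

/-!
# PGB: lines of a polygon
-/

namespace LH

open Set LG

namespace PGB

theorem step (f : ℤ → ℝ) (i j : ℤ) (hij : i < j)
    (h : ∀ k, i ≤ k → k < j → f k < f (k + 1)) : f i < f j := by
  have key : ∀ n : ℕ, i + 1 + n ≤ j → f i < f (i + 1 + n) := by
    intro n
    induction n with
    | zero =>
      intro hn
      have h1 := h i le_rfl (by push_cast at hn; omega)
      simpa using h1
    | succ n ih =>
      intro hn
      push_cast at hn
      have h1 := ih (by omega)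
      have h2 := h (i + 1 + n) (by omega) (by omega)
      have h3 : i + 1 + ((n + 1 : ℕ) : ℤ) = i + 1 + n + 1 := by push_cast; ring
      rw [h3]
      exact lt_trans h1 h2
  obtain ⟨n, hn⟩ := Int.eq_ofNat_of_zero_le (show 0 ≤ j - (i + 1) by omega)
  have h4 : j = i + 1 + n := by omega
  rw [h4]
  exact key n (by omega)

theorem ls {N : ℕ} (P : Pg N) (i : ℤ) (t : ℝ) :
    P.l (i + 1) t - P.l i t = (P.y (i + 1) - P.y i) * (t - P.x (i + 1)) := by
  unfold Pg.l
  rw [P.cl i]
  ring

theorem m1 {N : ℕ} (P : Pg N) (i j : ℤ) (t : ℝ) (hij : i < j) (hm : StrictMonoOn P.y (Icc i j))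
    (h : ∀ m, i < m → m ≤ j → P.x m < t) : P.l i t < P.l j t := by
  refine step (fun k => P.l k t) i j hij (fun k hk hkj => ?_)
  have h1 := ls P k t
  have h2 : P.y k < P.y (k + 1) :=
    hm ⟨hk, hkj.le⟩ ⟨by omega, by omega⟩ (by omega)
  have h3 := h (k + 1) (by omega) (by omega)
  have h4 : 0 < (P.y (k + 1) - P.y k) * (t - P.x (k + 1)) :=
    mul_pos (by linarith) (by linarith)
  change P.l k t < P.l (k + 1) t
  linarith

theorem m2 {N : ℕ} (P : Pg N) (i j : ℤ) (t : ℝ) (hij : i < j) (hm : StrictMonoOn P.y (Icc i j))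
    (h : ∀ m, i < m → m ≤ j → t < P.x m) : P.l j t < P.l i t := by
  have h0 := step (fun k => - P.l k t) i j hij (fun k hk hkj => by
    have h1 := ls P k t
    have h2 : P.y k < P.y (k + 1) :=
      hm ⟨hk, hkj.le⟩ ⟨by omega, by omega⟩ (by omega)
    have h3 := h (k + 1) (by omega) (by omega)
    have h4 : 0 < (P.y (k + 1) - P.y k) * (P.x (k + 1) - t) :=
      mul_pos (by linarith) (by linarith)
    change - P.l k t < - P.l (k + 1) t
    nlinarith)
  have h5 : - P.l i t < - P.l j t := h0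
  linarith

theorem m3 {N : ℕ} (P : Pg N) (i j : ℤ) (t : ℝ) (hij : i < j) (hm : StrictAntiOn P.y (Icc i j))
    (h : ∀ m, i < m → m ≤ j → P.x m < t) : P.l j t < P.l i t := by
  have h0 := step (fun k => - P.l k t) i j hij (fun k hk hkj => by
    have h1 := ls P k t
    have h2 : P.y (k + 1) < P.y k :=
      hm ⟨hk, hkj.le⟩ ⟨by omega, by omega⟩ (by omega)
    have h3 := h (k + 1) (by omega) (by omega)
    have h4 : 0 < (P.y k - P.y (k + 1)) * (t - P.x (k + 1)) :=
      mul_pos (by linarith) (by linarith)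
    change - P.l k t < - P.l (k + 1) t
    nlinarith)
  have h5 : - P.l i t < - P.l j t := h0
  linarith

theorem m4 {N : ℕ} (P : Pg N) (i j : ℤ) (t : ℝ) (hij : i < j) (hm : StrictAntiOn P.y (Icc i j))
    (h : ∀ m, i < m → m ≤ j → t < P.x m) : P.l i t < P.l j t := by
  refine step (fun k => P.l k t) i j hij (fun k hk hkj => ?_)
  have h1 := ls P k t
  have h2 : P.y (k + 1) < P.y k :=
    hm ⟨hk, hkj.le⟩ ⟨by omega, by omega⟩ (by omega)
  have h3 := h (k + 1) (by omega) (by omega)
  have h4 : 0 < (P.y k - P.y (k + 1)) * (P.x (k + 1) - t) :=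
    mul_pos (by linarith) (by linarith)
  change P.l k t < P.l (k + 1) t
  nlinarith

theorem sh {N : ℕ} (P : Pg N) (i k : ℤ) : P.x (i + k * N) = P.x i ∧ P.y (i + k * N) = P.y i ∧
    P.z (i + k * N) = P.z i ∧ ∀ t, P.l (i + k * N) t = P.l i t := by
  have hx : P.x (i + k * N) = P.x i := by
    simpa using (show Function.Periodic P.x (N : ℤ) from P.px).int_mul k i
  have hy : P.y (i + k * N) = P.y i := by
    simpa using (show Function.Periodic P.y (N : ℤ) from P.py).int_mul k i
  have hz : P.z (i + k * N) = P.z i := by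
    simpa using (show Function.Periodic P.z (N : ℤ) from P.pz).int_mul k i
  refine ⟨hx, hy, hz, fun t => ?_⟩
  unfold Pg.l
  rw [hx, hy, hz]

end PGB

theorem t_PGB : Stmt_PGB where
  ls := PGB.ls
  lz := fun P i => by
    constructor
    · unfold Pg.l
      ring
    · unfold Pg.l
      rw [P.cl i]
  sh := PGB.sh
  dt := fun P i s t => by
    unfold Pg.l
    ring
  m1 := PGB.m1
  m2 := PGB.m2
  m3 := PGB.m3
  m4 := PGB.m4

end LH
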