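import Pool.Agent.LH.Stmts2

/-!
# PH1: removal of one line
-/

namespace LH

open Set LG

namespace PH1

theorem ri1_turn {a s d : ℝ} {i j : It} (h : ri1 a s d j = some i) : j.k = i.k ∧ j.e = i.e := by
  obtain ⟨k, t, e⟩ := j
  unfold ri1 at h
  by_cases hs : t = s
  · rw [if_pos hs] at h
    cases k
    · simp at h
    · simp at h
    · simp only [Option.some.injEq] at h
      rw [← h]
      exact ⟨rfl, rfl⟩
    · simp only [Option.some.injEq] at h
      rw [← h]
      exact ⟨rfl, rfl⟩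
  · rw [if_neg hs] at h
    simp only [Option.some.injEq] at h
    rw [← h]
    exact ⟨rfl, rfl⟩

theorem yx_riv {N : ℕ} (P : Pg N) (a s d : ℝ) (X : Finset ℝ) (w : List It) (h : YX P X w) :
    YX P X (riv a s d w) := by
  intro a' b' hab i hi hk h1 h2
  unfold riv at hi
  rw [List.mem_filterMap] at hi
  obtain ⟨j, hj, hji⟩ := hi
  obtain ⟨hk', he'⟩ := ri1_turn hji
  have := h a' b' hab j hj (by rw [hk']; exact hk) (by rw [he']; exact h1) (by rw [he']; exact h2)
  rw [he'] at this
  exact this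

end PH1

theorem t_PH1 : Stmt_PH1 := by
  intro _ hT hR hE hL N P a b s d X Y w W hS hG hX hXY hs hYX hCW
  have hsY : s ∈ Y := hS.l.2.1
  have hEW : EW P (Y.erase s) (riv a s d w) := hE P a b s d Y w W hS (hG s hsY).1
  have hXE : X ⊆ Y.erase s := by
    intro t ht
    rw [Finset.mem_erase]
    refine ⟨?_, hXY ht⟩
    intro h
    rw [h] at ht
    exact hs ht
  have hlen := hL P X (Y.erase s) (riv a s d w) hX hXE hEW
  obtain ⟨el, er, hrem, heq⟩ := hR P a b s d Y w W hS hG hCW hlen
  obtain ⟨h1, h2⟩ := hT (w.map (pt P)) a s d el er hrem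
  rw [heq] at h1 h2
  exact ⟨riv a s d w, hEW, PH1.yx_riv P a s d X w hYX, h2, h1⟩

end LH
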