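import Pool.Agent.LH.Stmts2

/-!
# Module RFL: reflection of a situation
-/

namespace LH

open Set LG

namespace RFL

variable {N : ℕ}

theorem rf_l (P : Pg N) (i : ℤ) (t : ℝ) : P.rf.l i t = -P.l i t := by
  simp only [Pg.l, Pg.rf]
  ring

theorem comp_iff (P : Pg N) (a b : ℝ) (p q : ℤ) : Comp P.rf a b p q ↔ Comp P a b p q :=
  ⟨fun h => ⟨h.le, h.ins, h.fst, h.lst, h.one⟩, fun h => ⟨h.le, h.ins, h.fst, h.lst, h.one⟩⟩

theorem mono_rf (P : Pg N) (A : Set ℤ) (h : StrictMonoOn P.y A) : StrictAntiOn P.rf.y A := by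
  intro i hi j hj hij
  have h1 := h hi hj hij
  show -P.y j < -P.y i
  linarith

theorem anti_rf (P : Pg N) (A : Set ℤ) (h : StrictAntiOn P.y A) : StrictMonoOn P.rf.y A := by
  intro i hi j hj hij
  have h1 := h hi hj hij
  show -P.y i < -P.y j
  linarith

theorem ty_rf (P : Pg N) (p q : ℤ) (h : Ty P p q) : Ty P.rf p q := by
  rcases h with (h | h) | h | h
  · exact Or.inl (Or.inl h)
  · exact Or.inl (Or.inr h)
  · exact Or.inr (Or.inr (mono_rf P _ h))
  · exact Or.inr (Or.inl (anti_rf P _ h))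

theorem ym_rf (P : Pg N) (p q : ℤ) (h : YM P p q) : YM P.rf p q := by
  rcases h with h | h
  · exact Or.inr (mono_rf P _ h)
  · exact Or.inl (anti_rf P _ h)

theorem sep_rf (P : Pg N) (p q p' q' : ℤ) (t : ℝ) (h : Sep P p q p' q' t) :
    Sep P.rf p q p' q' t := by
  rcases h with h | h
  · right
    intro i hi j hj
    have h1 := h i hi j hj
    rw [rf_l, rf_l]
    linarith
  · left
    intro i hi j hj
    have h1 := h i hi j hj
    rw [rf_l, rf_l]
    linarith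

theorem good_rf (P : Pg N) (a b : ℝ) (h : Good P a b) : Good P.rf a b where
  lt := h.lt
  av := h.av
  out := h.out
  ty p q hC := ty_rf P p q (h.ty p q ((comp_iff P a b p q).1 hC))
  sep p q p' q' hC hC' h1 h2 := by
    have h3 := h.sep p q p' q' ((comp_iff P a b p q).1 hC) ((comp_iff P a b p' q').1 hC') h1 h2
    exact ⟨sep_rf P p q p' q' a h3.1, sep_rf P p q p' q' b h3.2⟩

theorem lnk_rf (P : Pg N) (X : Finset ℝ) (i j : It) (h : Lnk P X i j) : Lnk P.rf X i j :=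
  ⟨h.le, h.tl, h.adj, h.ins, h.dir⟩

theorem sq_rf (P : Pg N) (X : Finset ℝ) (w : List It) (W : ℤ → It) (h : Sq P X w W) :
    Sq P.rf X w W where
  ne := h.ne
  per := h.per
  lnk n := lnk_rf P X _ _ (h.lnk n)
  ok := h.ok
  get := h.get

theorem yf_rf (P : Pg N) (a b : ℝ) (w : List It) (h : YF P a b w) : YF P.rf a b w := by
  intro i hi hk h1 h2
  obtain ⟨p, q, hC, h3, h4, h5⟩ := h i hi hk h1 h2
  exact ⟨p, q, (comp_iff P a b p q).2 hC, h3, h4, ym_rf P p q h5⟩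

theorem ki_rf (P : Pg N) (W : ℤ → It) (a : ℝ) (n : ℤ) (h : ℝ) (hh : h ∈ KI P W a n) :
    -h ∈ KI P.rf W a n := by
  rcases hh with ⟨j, hj, h1, h2⟩ | ⟨h1, h2⟩
  · left
    exact ⟨j, hj, h1, by rw [rf_l, h2]⟩
  · right
    exact ⟨h1, by rw [rf_l, h2]⟩

theorem ri_rf (P : Pg N) (W : ℤ → It) (d : ℝ) (n : ℤ) (h : ℝ) (hh : h ∈ RI P W d n) :
    -h ∈ RI P.rf W d n := by
  rcases hh with ⟨j, hj, h1, h2⟩ | ⟨h1, h2⟩
  · left
    exact ⟨j, hj, h1, by rw [rf_l, h2]⟩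
  · right
    exact ⟨h1, by rw [rf_l, h2]⟩

end RFL

open RFL in
/-- RFL -/
theorem t_RFL : Stmt_RFL := by
  intro N P a b s d Y w W
  refine ⟨fun h => ⟨good_rf P a b h.gd, h.l, h.r, h.db, sq_rf P Y w W h.sq, yf_rf P a b w h.yf⟩, ?_⟩
  intro n n' hD hl
  have h1 : P.rf.l (W n').e s ≤ P.rf.l (W n).e s := by
    rw [rf_l, rf_l]
    linarith
  rcases hD h1 with h2 | h2
  · left
    intro x hx y hy
    have h3 := h2 _ (ki_rf P W a n y hy) _ (ki_rf P W a n' x hx)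
    linarith
  · right
    intro x hx y hy
    have h3 := h2 _ (ri_rf P W d n y hy) _ (ri_rf P W d n' x hx)
    linarith

end LH
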