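import Pool.Agent.LH.Stmts1

/-!
# Row move
-/

namespace LH

open Set LG

namespace RM

theorem emb (S : Finset Q) : ∃ g : Q → ℝ, ∀ a ∈ S, ∀ b ∈ S, a < b → g a < g b := by
  classical
  refine ⟨fun b => ((S.filter (fun x => x < b)).card : ℝ), ?_⟩
  intro a ha b hb hab
  simp only [Nat.cast_lt]
  apply Finset.card_lt_card
  rw [Finset.ssubset_iff_of_subset]
  · exact ⟨a, by simp [ha, hab], by simp⟩
  · intro x hx
    simp only [Finset.mem_filter] at hx ⊢
    exact ⟨hx.1, hx.2.trans hab⟩

theorem zip_chain {α : Type*} (R : α → α → Prop) (l : List α) : ∀ (a x : α),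
    (∀ p ∈ (a :: l).zip (l ++ [x]), R p.1 p.2) → List.IsChain R (a :: (l ++ [x])) := by
  induction l with
  | nil => intro a x h; simpa using h
  | cons b l ih =>
    intro a x h
    simp only [List.cons_append, List.zip_cons_cons, List.mem_cons, forall_eq_or_imp] at h
    rw [List.cons_append, List.isChain_cons_cons]
    exact ⟨h.1, ih b x h.2⟩

theorem mem_zip {α : Type*} {p q x : α} {l₂ : List α} (l₁ : List α) : ∀ (a : α) (l : List α),
    a :: (l ++ [x]) = l₁ ++ p :: q :: l₂ → (p, q) ∈ (a :: l).zip (l ++ [x]) := by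
  induction l₁ with
  | nil =>
    intro a l h
    simp only [List.nil_append, List.cons.injEq] at h
    obtain ⟨rfl, h⟩ := h
    rw [h]
    simp
  | cons c l₁ ih =>
    intro a l h
    simp only [List.cons_append, List.cons.injEq] at h
    obtain ⟨rfl, h⟩ := h
    cases l with
    | nil =>
      have := congrArg List.length h
      simp at this
      omega
    | cons b l =>
      rw [List.cons_append, List.zip_cons_cons]
      exact List.mem_cons_of_mem _ (ih b l h)

theorem mem_cp {α : Type*} {p q x : α} {l l₁ l₂ : List α}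
    (h : x :: (l ++ [x]) = l₁ ++ p :: q :: l₂) : (p, q) ∈ cp (x :: l) := by
  have := mem_zip l₁ x l h
  simpa [cp] using this

theorem cp_mem {α : Type*} {p q : α} {w : List α} (h : (p, q) ∈ cp w) : p ∈ w ∧ q ∈ w := by
  have := List.of_mem_zip h
  simpa using this

theorem fl_cons {α β : Type*} (p : α × β) (M : List (α × β)) :
    fl (p :: M) = Sum.inl p.1 :: Sum.inr p.2 :: fl M := by
  simp [fl]

theorem fl_append {α β : Type*} (M M' : List (α × β)) : fl (M ++ M') = fl M ++ fl M' := by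
  simp [fl]

theorem fl_map {α β γ δ : Type*} (f : α → γ) (g : β → δ) (M : List (α × β)) :
    fl (M.map (Prod.map f g)) = (fl M).map (Sum.map f g) := by
  induction M with
  | nil => rfl
  | cons p M ih => simp [fl_cons, ih]

theorem mem_fl {α β : Type*} {M : List (α × β)} {p : α × β} (h : p ∈ M) :
    Sum.inl p.1 ∈ fl M ∧ Sum.inr p.2 ∈ fl M := by
  simp only [fl, List.mem_flatMap]
  exact ⟨⟨p, h, by simp⟩, ⟨p, h, by simp⟩⟩

theorem nodup_fst {α β : Type*} {M : List (α × β)} (h : (fl M).Nodup) :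
    (M.map Prod.fst).Nodup := by
  induction M with
  | nil => simp
  | cons p M ih =>
    rw [fl_cons] at h
    simp only [List.nodup_cons, List.mem_cons, not_or] at h
    rw [List.map_cons, List.nodup_cons]
    refine ⟨?_, ih h.2.2⟩
    intro h'
    obtain ⟨q, hq, hq'⟩ := List.mem_map.1 h'
    apply h.1.2
    rw [← hq']
    exact (mem_fl hq).1

theorem nodup_snd {α β : Type*} {M : List (α × β)} (h : (fl M).Nodup) :
    (M.map Prod.snd).Nodup := by
  induction M with
  | nil => simp
  | cons p M ih =>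
    rw [fl_cons] at h
    simp only [List.nodup_cons, List.mem_cons, not_or] at h
    rw [List.map_cons, List.nodup_cons]
    refine ⟨?_, ih h.2.2⟩
    intro h'
    obtain ⟨q, hq, hq'⟩ := List.mem_map.1 h'
    apply h.2.1
    rw [← hq']
    exact (mem_fl hq).2

theorem ex_fl {α β : Type*} (c : α) : ∀ l : List (α ⊕ β),
    List.IsChain (fun a b => a.isLeft = !b.isLeft) (l ++ [Sum.inl c]) →
    (∀ a l', l = a :: l' → a.isLeft = true) → ∃ L : List (α × β), l = fl L
  | [], _, _ => ⟨[], rfl⟩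
  | [x], h, h' => by
    have h₁ := h' x [] rfl
    simp [h₁] at h
  | x :: y :: l, h, h' => by
    have h₁ := h' x _ rfl
    simp only [List.cons_append, List.isChain_cons_cons] at h
    obtain ⟨h₂, h₃⟩ := h
    cases x with
    | inr x => simp at h₁
    | inl x =>
      cases y with
      | inl y => simp at h₂
      | inr y =>
        have h₄ : List.IsChain (fun a b : α ⊕ β => a.isLeft = !b.isLeft) (l ++ [Sum.inl c]) :=
          (List.isChain_cons.1 h₃).2
        obtain ⟨L, hL⟩ := ex_fl c l h₄ (by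
          intro a l' hl
          subst hl
          simp only [List.cons_append, List.isChain_cons_cons] at h₃
          have := h₃.1
          simpa using this)
        exact ⟨(x, y) :: L, by rw [fl_cons, hL]⟩

theorem out {c₁ c₂ x : Q} (h : x ∉ uIcc c₁ c₂) : x < c₁ ∧ x < c₂ ∨ c₁ < x ∧ c₂ < x := by
  rw [Set.mem_uIcc] at h
  rcases lt_trichotomy x c₁ with h₁ | h₁ | h₁ <;> rcases lt_trichotomy x c₂ with h₂ | h₂ | h₂ <;>
    grind

theorem unl {a b x y : ℝ} (hx : x < a ∧ x < b ∨ a < x ∧ b < x) (hy : y < a ∧ y < b ∨ a < y ∧ b < y) :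
    Unl a b x y := by
  unfold Unl cyc
  grind

end RM

open RM in
/-- RM: a row moves over a rectangle without marks. -/
theorem t_RM : Stmt_RM := by
  intro _ _ b b' c₁ c₂ B hA hN hb' hne hM
  classical
  -- alternation
  have hch : List.IsChain (fun a b : En => a.isLeft = !b.isLeft)
      (Sum.inr b :: .inl c₂ :: (B ++ [.inl c₁])) := by
    have h₁ := hA.2
    have h₂ := zip_chain (fun a b : En => a.isLeft = !b.isLeft) (.inl c₂ :: (B ++ [.inl c₁]))
      (Sum.inr b) (Sum.inr b) (by simpa [cp] using h₁)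
    rw [← List.cons_append] at h₂
    exact h₂.left_of_append
  obtain ⟨L, hL⟩ := ex_fl c₁ (Sum.inl c₂ :: B) (List.isChain_cons.1 hch).2
    (by intro a l' h; simp only [List.cons.injEq] at h; rw [← h.1]; rfl)
  cases L with
  | nil => simp [fl] at hL
  | cons p L =>
  obtain ⟨d, r₂⟩ := p
  rw [fl_cons] at hL
  simp only [List.cons.injEq, Sum.inl.injEq] at hL
  obtain ⟨rfl, rfl⟩ := hL
  -- the maps
  set W : List En := Sum.inr b :: .inl c₂ :: (.inr r₂ :: fl L ++ [.inl c₁]) with hW
  obtain ⟨g, hg⟩ := emb ((W.map (Sum.elim id id)).toFinset ∪ {b'})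
  have hgl : ∀ a, Sum.inl a ∈ W → a ∈ (W.map (Sum.elim id id)).toFinset ∪ {b'} := by
    intro a ha
    rw [Finset.mem_union, List.mem_toFinset, List.mem_map]
    exact Or.inl ⟨_, ha, rfl⟩
  have hgr : ∀ a, Sum.inr a ∈ W → a ∈ (W.map (Sum.elim id id)).toFinset ∪ {b'} := by
    intro a ha
    rw [Finset.mem_union, List.mem_toFinset, List.mem_map]
    exact Or.inl ⟨_, ha, rfl⟩
  have hgb : b' ∈ (W.map (Sum.elim id id)).toFinset ∪ {b'} := by simp
  set S := (W.map (Sum.elim id id)).toFinset ∪ {b'} with hS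
  have hgi : ∀ x ∈ S, ∀ y ∈ S, g x < g y → x < y := by
    intro x hx y hy h
    by_contra h'
    rcases eq_or_lt_of_le (not_lt.1 h') with h'' | h''
    · rw [h''] at h
      exact lt_irrefl _ h
    · exact lt_asymm h (hg y hy x hx h'')
  have hgj : ∀ x ∈ S, ∀ y ∈ S, g x = g y → x = y := by
    intro x hx y hy h
    rcases lt_trichotomy x y with h' | h' | h'
    · have := hg x hx y hy h'
      rw [h] at this
      exact absurd this (lt_irrefl _)
    · exact h'
    · have := hg y hy x hx h'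
      rw [h] at this
      exact absurd this (lt_irrefl _)
  -- the lists
  have hW1 : (fl ((c₁, b) :: (c₂, r₂) :: L)).IsRotated W := by
    refine ⟨1, ?_⟩
    simp [fl_cons, hW]
  have hN1 : (fl ((c₁, b) :: (c₂, r₂) :: L)).Nodup := hW1.nodup_iff.2 hN
  have hmem : ∀ p ∈ (c₁, b) :: (c₂, r₂) :: L, p.1 ∈ S ∧ p.2 ∈ S := by
    intro p hp
    have := mem_fl hp
    exact ⟨hgl _ (hW1.mem_iff.1 this.1), hgr _ (hW1.mem_iff.1 this.2)⟩
  have hbW : Sum.inr b' ∉ W := by
    rw [hW]
    intro h
    simp only [List.cons_append, List.mem_cons, List.mem_append, List.not_mem_nil, or_false,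
      reduceCtorEq, false_or, Sum.inr.injEq] at h hb'
    tauto
  have hrw : ∀ p ∈ (c₁, b) :: (c₂, r₂) :: L, p.2 ≠ b' := by
    intro p hp h
    apply hbW
    rw [← h]
    exact hW1.mem_iff.1 (mem_fl hp).2
  set F : Q × Q → ℝ × ℝ := Prod.map (fun x => - g x) g with hF
  have hmv : Mv ((-g c₁, g b) :: (-g c₂, g r₂) :: L.map F) ((-g c₁, g b') :: (-g c₂, g r₂) :: L.map F) := by
    have hmap : (-g c₁, g b) :: (-g c₂, g r₂) :: L.map F = ((c₁, b) :: (c₂, r₂) :: L).map F := by
      simp [hF]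
    refine Mv.row _ _ _ _ _ ?_ ?_ ?_
    · rw [hmap]
      constructor
      · have h₁ := nodup_fst hN1
        have h₂ : (((c₁, b) :: (c₂, r₂) :: L).map F).map Prod.fst
            = (((c₁, b) :: (c₂, r₂) :: L).map Prod.fst).map (fun x => - g x) := by
          simp [hF, Function.comp_def]
        rw [h₂]
        refine List.Nodup.map_on ?_ h₁
        intro x hx y hy hxy
        obtain ⟨p, hp, rfl⟩ := List.mem_map.1 hx
        obtain ⟨q, hq, rfl⟩ := List.mem_map.1 hy
        exact hgj _ (hmem p hp).1 _ (hmem q hq).1 (neg_injective hxy)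
      · have h₁ := nodup_snd hN1
        have h₂ : (((c₁, b) :: (c₂, r₂) :: L).map F).map Prod.snd
            = (((c₁, b) :: (c₂, r₂) :: L).map Prod.snd).map g := by
          simp [hF, Function.comp_def]
        rw [h₂]
        refine List.Nodup.map_on ?_ h₁
        intro x hx y hy hxy
        obtain ⟨p, hp, rfl⟩ := List.mem_map.1 hx
        obtain ⟨q, hq, rfl⟩ := List.mem_map.1 hy
        exact hgj _ (hmem p hp).2 _ (hmem q hq).2 hxy
    · rw [hmap]
      intro h
      obtain ⟨x, hx, hxb⟩ := List.mem_map.1 h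
      obtain ⟨p, hp, rfl⟩ := List.mem_map.1 hx
      exact hrw p hp (hgj _ (hmem p hp).2 _ hgb hxb)
    · intro B₁ B₂ x y h hb
      have h₁ : ((c₁, b) :: (c₂, r₂) :: L ++ [(c₁, b)]).map F = B₁ ++ x :: y :: B₂ := by
        rw [← h]
        simp [hF]
      obtain ⟨A₁, A₂, hA1, rfl, hA2⟩ := List.map_eq_append_iff.1 h₁
      obtain ⟨p, A₃, rfl, rfl, hA3⟩ := List.map_eq_cons_iff.1 hA2
      obtain ⟨q, A₄, rfl, rfl, rfl⟩ := List.map_eq_cons_iff.1 hA3
      have hpb : p.2 ≠ b := by
        rintro hp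
        simp only [hF, Prod.map_snd, hp] at hb
        rcases hb with h' | h'
        · exact lt_irrefl _ h'.1
        · exact lt_irrefl _ h'.2
      cases A₁ with
      | nil =>
        simp only [List.nil_append, List.cons_append, List.cons.injEq] at hA1
        exact absurd (by rw [← hA1.1]) hpb
      | cons a A₁ =>
        simp only [List.cons_append, List.cons.injEq] at hA1
        obtain ⟨rfl, hA1⟩ := hA1
        have h₂ : Sum.inr b :: ((Sum.inl c₂ :: (Sum.inr r₂ :: fl L ++ [Sum.inl c₁])) ++ [Sum.inr b])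
            = (Sum.inr b :: fl A₁) ++ Sum.inl p.1 :: Sum.inr p.2 :: Sum.inl q.1 ::
              Sum.inr q.2 :: fl A₄ := by
          have := congrArg fl hA1
          simp only [fl_cons, fl_append] at this
          simp only [List.cons_append, List.append_assoc, List.cons.injEq, true_and]
          rw [← this]
          simp [fl]
        have h₃ : (Sum.inl p.1, Sum.inr p.2) ∈ cp W := mem_cp h₂
        have h₄ : (Sum.inr p.2, Sum.inl q.1) ∈ cp W :=
          mem_cp (l₁ := (Sum.inr b :: fl A₁) ++ [Sum.inl p.1]) (l₂ := Sum.inr q.2 :: fl A₄)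
            (by rw [h₂]; simp)
        have h₅ : Btw b b' p.2 := by
          have hp2 : p.2 ∈ S := hgr _ (cp_mem h₃).2
          have hb2 : b ∈ S := (hmem (c₁, b) (by simp)).2
          simp only [hF, Prod.map_snd] at hb
          rcases hb with h' | h'
          · exact Or.inl ⟨hgi _ hb2 _ hp2 h'.1, hgi _ hp2 _ hgb h'.2⟩
          · exact Or.inr ⟨hgi _ hgb _ hp2 h'.1, hgi _ hp2 _ hb2 h'.2⟩
        have h₆ := out (hM p.1 p.2 (Or.inl h₃) h₅)
        have h₇ := out (hM q.1 p.2 (Or.inr h₄) h₅)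
        have hp1 : p.1 ∈ S := hgl _ (cp_mem h₃).1
        have hq1 : q.1 ∈ S := hgl _ (cp_mem h₄).2
        have hc1 : c₁ ∈ S := (hmem (c₁, b) (by simp)).1
        have hc2 : c₂ ∈ S := (hmem (c₂, r₂) (by simp)).1
        have key : ∀ z ∈ S, (z < c₁ ∧ z < c₂ ∨ c₁ < z ∧ c₂ < z) →
            (-g z < -g c₁ ∧ -g z < -g c₂ ∨ -g c₁ < -g z ∧ -g c₂ < -g z) := by
          intro z hz hz'
          simp only [neg_lt_neg_iff]
          rcases hz' with h' | h'
          · exact Or.inr ⟨hg _ hz _ hc1 h'.1, hg _ hz _ hc2 h'.2⟩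
          · exact Or.inl ⟨hg _ hc1 _ hz h'.1, hg _ hc2 _ hz h'.2⟩
        exact unl (key _ hp1 h₆) (key _ hq1 h₇)
  refine ⟨_, _, ⟨hN, fun x => - g x, g, ?_, ?_, ?_⟩, ⟨?_, fun x => - g x, g, ?_, ?_, ?_⟩,
    Relation.EqvGen.rel _ _ hmv⟩
  · intro x y hx hy hxy
    exact neg_lt_neg (hg _ (hgl _ hx) _ (hgl _ hy) hxy)
  · intro x y hx hy hxy
    exact hg _ (hgr _ hx) _ (hgr _ hy) hxy
  · have := hW1.map (Sum.map (fun x => - g x) g)
    rw [← fl_map] at this
    exact this
  · have h₁ : Sum.inr b' ∉ Sum.inl c₂ :: (Sum.inr r₂ :: fl L ++ [Sum.inl c₁]) := by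
      intro h
      exact hbW (List.mem_cons_of_mem _ h)
    exact List.nodup_cons.2 ⟨h₁, (List.nodup_cons.1 hN).2⟩
  · intro x y hx hy hxy
    have h₁ : ∀ z, Sum.inl z ∈ Sum.inr b' :: Sum.inl c₂ :: (Sum.inr r₂ :: fl L ++ [Sum.inl c₁]) →
        Sum.inl z ∈ W := by
      intro z hz
      rcases List.mem_cons.1 hz with h | h
      · simp at h
      · exact List.mem_cons_of_mem _ h
    exact neg_lt_neg (hg _ (hgl _ (h₁ x hx)) _ (hgl _ (h₁ y hy)) hxy)
  · intro x y hx hy hxy
    have h₁ : ∀ z, Sum.inr z ∈ Sum.inr b' :: Sum.inl c₂ :: (Sum.inr r₂ :: fl L ++ [Sum.inl c₁]) →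
        z ∈ S := by
      intro z hz
      rcases List.mem_cons.1 hz with h | h
      · simp only [Sum.inr.injEq] at h
        rw [h]
        exact hgb
      · exact hgr _ (List.mem_cons_of_mem _ h)
    exact hg _ (h₁ x hx) _ (h₁ y hy) hxy
  · have h₁ : (fl ((c₁, b') :: (c₂, r₂) :: L)).IsRotated
        (Sum.inr b' :: Sum.inl c₂ :: (Sum.inr r₂ :: fl L ++ [Sum.inl c₁])) := by
      refine ⟨1, ?_⟩
      simp [fl_cons]
    have := h₁.map (Sum.map (fun x => - g x) g)
    rw [← fl_map] at this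
    exact this

end LH
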