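import Pool.Agent.LH.Stmts2

/-!
# RMP: the conditions for the removal of the line
-/

namespace LH

open Set LG

namespace RMP

variable {N : ℕ} {P : Pg N} {Y : Finset ℝ} {w : List It} {W : ℤ → It}

/-! ### adjacent lines -/

theorem adj_left {a a' s : ℝ} (h : AdjX Y a s) (h' : AdjX Y a' s) : a' = a := by
  obtain ⟨h1, _, h3, h4⟩ := h
  obtain ⟨h1', _, h3', h4'⟩ := h'
  rcases lt_trichotomy a a' with h5 | h5 | h5
  · exact absurd ⟨h5, h3'⟩ (h4 a' h1')
  · exact h5.symm
  · exact absurd ⟨h5, h3⟩ (h4' a h1)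

theorem adj_right {s d d' : ℝ} (h : AdjX Y s d) (h' : AdjX Y s d') : d' = d := by
  obtain ⟨_, h2, h3, h4⟩ := h
  obtain ⟨_, h2', h3', h4'⟩ := h'
  rcases lt_trichotomy d d' with h5 | h5 | h5
  · exact absurd ⟨h3, h5⟩ (h4' d h2)
  · exact h5.symm
  · exact absurd ⟨h3', h5⟩ (h4 d' h2')

/-! ### indices of the points -/

theorem pt_sh (hP : P_PGB) (i : It) : pt P (i.sh N) = pt P i := by
  have h := (hP.sh P i.e 1).2.2.2 i.t
  rw [one_mul] at h
  change (⟨i.k, i.t, P.l (i.e + N) i.t⟩ : Pt) = ⟨i.k, i.t, P.l i.e i.t⟩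
  rw [h]

theorem pt_per (hP : P_PGB) (hsq : Sq P Y w W) (n k : ℤ) :
    pt P (W (n + k * w.length)) = pt P (W n) := by
  have h : Function.Periodic (fun n => pt P (W n)) (w.length : ℤ) := by
    intro n
    change pt P (W (n + w.length)) = pt P (W n)
    rw [hsq.per, pt_sh hP]
  exact (h.int_mul k) n

theorem pt_get (hsq : Sq P Y w W) (n : ℤ) (h0 : 0 ≤ n) (h1 : n.toNat < w.length) :
    (w.map (pt P))[n.toNat]'(by rw [List.length_map]; exact h1) = pt P (W n) := by
  rw [List.getElem_map, hsq.get, Int.toNat_of_nonneg h0]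

theorem inj (hP : P_PGB) (hsq : Sq P Y w W) (hnd : (w.map (pt P)).Nodup) (m m' : ℤ)
    (h : pt P (W m) = pt P (W m')) : ∃ k : ℤ, m' = m + k * w.length := by
  have hL : (0 : ℤ) < w.length := by exact_mod_cast hsq.ne
  have h0 := Int.emod_nonneg m hL.ne'
  have h0' := Int.emod_nonneg m' hL.ne'
  have h1 := Int.emod_lt_of_pos m hL
  have h1' := Int.emod_lt_of_pos m' hL
  have e1 : pt P (W m) = pt P (W (m % w.length)) := by
    rw [← pt_per hP hsq (m % w.length) (m / w.length)]
    congr 2
    rw [mul_comm]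
    exact (Int.emod_add_mul_ediv m w.length).symm
  have e1' : pt P (W m') = pt P (W (m' % w.length)) := by
    rw [← pt_per hP hsq (m' % w.length) (m' / w.length)]
    congr 2
    rw [mul_comm]
    exact (Int.emod_add_mul_ediv m' w.length).symm
  have h2 : (m % w.length).toNat < w.length := by omega
  have h2' : (m' % w.length).toNat < w.length := by omega
  have h3 : (m % w.length).toNat = (m' % w.length).toNat := by
    rw [← hnd.getElem_inj_iff (hi := by rw [List.length_map]; exact h2)
      (hj := by rw [List.length_map]; exact h2'), pt_get hsq _ h0 h2, pt_get hsq _ h0' h2',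
      ← e1, ← e1']
    exact h
  refine ⟨m' / w.length - m / w.length, ?_⟩
  have h4 : m % w.length = m' % w.length := by omega
  have h5 := Int.emod_add_mul_ediv m w.length
  have h5' := Int.emod_add_mul_ediv m' w.length
  rw [sub_mul]
  rw [mul_comm (m' / (w.length : ℤ)), mul_comm (m / (w.length : ℤ))]
  linarith

theorem ex_idx (hsq : Sq P Y w W) {i : It} (hi : i ∈ w) : ∃ n : ℤ, W n = i := by
  obtain ⟨k, hk, rfl⟩ := List.mem_iff_getElem.mp hi
  exact ⟨k, (hsq.get k hk).symm⟩

/-! ### turns -/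

theorem turnR (hS : P_SEQ) (hsq : Sq P Y w W) (n : ℤ) (hk : (W n).k = .R) {t' : ℝ}
    (ha : AdjX Y t' (W n).t) : t' < P.x ((W n).e + 1) ∧ P.x ((W n).e + 1) < (W n).t ∧
      P.x (W n).e < (W n).t := by
  have hl := hsq.lnk n
  have hl' := hsq.lnk (n - 1)
  rw [sub_add_cancel] at hl'
  have hd : (W (n + 1)).t < (W n).t := by
    rcases hl.dir with h | h
    · rw [hk] at h
      exact absurd h.1 (by simp [Kd.fw])
    · exact h.2.2
  have ha1 : AdjX Y (W (n + 1)).t (W n).t := by
    rcases hl.adj with h | h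
    · exact absurd h.2.2.1 (not_lt.mpr hd.le)
    · exact h
  have e1 := adj_left ha ha1
  have hlt := hl.tl (Or.inl hk)
  have hb := hl.ins ((W n).e + 1) (by omega) (by omega)
  rw [e1] at hb
  have hb' : t' < P.x ((W n).e + 1) ∧ P.x ((W n).e + 1) < (W n).t := by
    rcases hb with h | h
    · exfalso
      have := ha.2.2.1
      linarith [h.1, h.2]
    · exact h
  refine ⟨hb'.1, hb'.2, ?_⟩
  have hd' : (W (n - 1)).t < (W n).t := by
    rcases hl'.dir with h | h
    · exact h.2.2
    · rw [hk] at h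
      exact absurd trivial h.2.1
  rcases lt_or_eq_of_le hl'.le with h | h
  · have hb := hl'.ins (W n).e h le_rfl
    rcases hb with h | h
    · exact h.2
    · linarith [h.1, h.2]
  · have h2 := hS.eq P Y w W hsq (n - 1) n (by omega) h
    rcases h2 with h2 | h2
    · have h3 := h2 (n - 1) le_rfl (by omega)
      have h4 := (hsq.ok (n - 1)).1 h3.1
      rw [h] at h4
      linarith [h4.1]
    · have h3 := h2 (n - 1) le_rfl (by omega)
      rw [sub_add_cancel] at h3
      linarith [h3.2]

theorem turnL (hS : P_SEQ) (hsq : Sq P Y w W) (n : ℤ) (hk : (W n).k = .L) {t' : ℝ}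
    (ha : AdjX Y (W n).t t') : (W n).t < P.x ((W n).e + 1) ∧ P.x ((W n).e + 1) < t' ∧
      (W n).t < P.x (W n).e := by
  have hl := hsq.lnk n
  have hl' := hsq.lnk (n - 1)
  rw [sub_add_cancel] at hl'
  have hd : (W n).t < (W (n + 1)).t := by
    rcases hl.dir with h | h
    · exact h.2.2
    · rw [hk] at h
      exact absurd trivial h.1
  have ha1 : AdjX Y (W n).t (W (n + 1)).t := by
    rcases hl.adj with h | h
    · exact h
    · exact absurd h.2.2.1 (not_lt.mpr hd.le)
  have e1 := adj_right ha ha1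
  have hlt := hl.tl (Or.inr hk)
  have hb := hl.ins ((W n).e + 1) (by omega) (by omega)
  rw [e1] at hb
  have hb' : (W n).t < P.x ((W n).e + 1) ∧ P.x ((W n).e + 1) < t' := by
    rcases hb with h | h
    · exact h
    · exfalso
      have := ha.2.2.1
      linarith [h.1, h.2]
  refine ⟨hb'.1, hb'.2, ?_⟩
  have hd' : (W n).t < (W (n - 1)).t := by
    rcases hl'.dir with h | h
    · rw [hk] at h
      exact absurd h.2.1 (by simp [Kd.ar])
    · exact h.2.2
  rcases lt_or_eq_of_le hl'.le with h | h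
  · have hb := hl'.ins (W n).e h le_rfl
    rcases hb with h | h
    · linarith [h.1, h.2]
    · exact h.1
  · have h2 := hS.eq P Y w W hsq (n - 1) n (by omega) h
    rcases h2 with h2 | h2
    · have h3 := h2 (n - 1) le_rfl (by omega)
      rw [sub_add_cancel] at h3
      linarith [h3.2]
    · have h3 := h2 (n - 1) le_rfl (by omega)
      have h4 := (hsq.ok (n - 1)).2 h3.1
      rw [h] at h4
      linarith [h4.2]

/-! ### coinciding lines -/

theorem ln_eq (hP : P_PGB) {e e' : ℤ} {t : ℝ} (hy : P.y e = P.y e') (hl : P.l e t = P.l e' t)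
    (r : ℝ) : P.l e r = P.l e' r := by
  have h1 := hP.dt P e t r
  have h2 := hP.dt P e' t r
  rw [hy] at h1
  linarith

theorem y_eq (hG : Gen P Y) {t : ℝ} (ht : t ∈ Y) {e e' : ℤ} (hl : P.l e t = P.l e' t) :
    P.y e = P.y e' := by
  by_contra hne
  exact (hG t ht).2 e e' hne hl

theorem key (hP : P_PGB) (hC : P_CMP) (hN : 0 < N) {a b : ℝ} (hg : Good P a b) {p q e e' : ℤ}
    (hc : Comp P a b p q) (h1 : p ≤ e) (h2 : e ≤ q) (hym : YM P p q) (hm : Mts P a b e')
    (hy : P.y e = P.y e') (hl : P.l e a = P.l e' a) : ∃ k : ℤ, e' = e + k * N := by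
  obtain ⟨p', q', hc', h1', h2'⟩ := hC.ex P a b hN hg e' hm
  rcases hC.sep P a b p q p' q' hN hg hc hc' with ⟨k, hk, hk'⟩ | hsep
  · refine ⟨k, ?_⟩
    have h3 := (hP.sh P (e' - k * N) k).2.1
    rw [sub_add_cancel] at h3
    have h4 : e' - k * N ∈ Icc p q := ⟨by linarith, by linarith⟩
    have h5 : P.y e = P.y (e' - k * N) := hy.trans h3
    have h6 : e = e' - k * N := by
      rcases hym with h | h
      · exact h.injOn ⟨h1, h2⟩ h4 h5
      · exact h.injOn ⟨h1, h2⟩ h4 h5
    linarith
  · rcases hsep.1 with h | h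
    · exact absurd hl (h e ⟨h1, h2⟩ e' ⟨h1', h2'⟩).ne
    · exact absurd hl (h e ⟨h1, h2⟩ e' ⟨h1', h2'⟩).ne'

/-! ### heights -/

theorem KS_sub (hP : P_PGB) (hS : P_SEQ) (hsq : Sq P Y w W) (hnd : (w.map (pt P)).Nodup)
    (el : Pt → ℝ) (a : ℝ) (n : ℤ) (hel : el (pt P (W n)) = P.l (W n).e a) :
    KS (w.map (pt P)) el (pt P (W n)) ⊆ KI P W a n := by
  rintro h (⟨p, ⟨hlt, hcp⟩, rfl⟩ | ⟨hk, rfl⟩)
  · left
    rcases hcp with hcp | hcp
    · obtain ⟨m, hm⟩ := (hS.cp P Y w W hsq _).1 hcp
      have hm1 : p = pt P (W m) := congrArg Prod.fst hm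
      have hm2 : pt P (W n) = pt P (W (m + 1)) := congrArg Prod.snd hm
      obtain ⟨k, hk⟩ := inj hP hsq hnd _ _ hm2
      have e1 : p = pt P (W (n - 1)) := by
        rw [hm1, ← pt_per hP hsq (n - 1) k]
        congr 2
        linarith
      refine ⟨n - 1, Or.inl rfl, ?_, ?_⟩
      · rw [e1] at hlt
        exact hlt
      · rw [e1]
        rfl
    · obtain ⟨m, hm⟩ := (hS.cp P Y w W hsq _).1 hcp
      have hm1 : pt P (W n) = pt P (W m) := congrArg Prod.fst hm
      have hm2 : p = pt P (W (m + 1)) := congrArg Prod.snd hm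
      obtain ⟨k, hk⟩ := inj hP hsq hnd _ _ hm1
      have e1 : p = pt P (W (n + 1)) := by
        rw [hm2, ← pt_per hP hsq (n + 1) k]
        congr 2
        linarith
      refine ⟨n + 1, Or.inr rfl, ?_, ?_⟩
      · rw [e1] at hlt
        exact hlt
      · rw [e1]
        rfl
  · right
    exact ⟨hk, hel⟩

theorem RS_sub (hP : P_PGB) (hS : P_SEQ) (hsq : Sq P Y w W) (hnd : (w.map (pt P)).Nodup)
    (er : Pt → ℝ) (d : ℝ) (n : ℤ) (her : er (pt P (W n)) = P.l (W n).e d) :
    RS (w.map (pt P)) er (pt P (W n)) ⊆ RI P W d n := by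
  rintro h (⟨p, ⟨hlt, hcp⟩, rfl⟩ | ⟨hk, rfl⟩)
  · left
    rcases hcp with hcp | hcp
    · obtain ⟨m, hm⟩ := (hS.cp P Y w W hsq _).1 hcp
      have hm1 : pt P (W n) = pt P (W m) := congrArg Prod.fst hm
      have hm2 : p = pt P (W (m + 1)) := congrArg Prod.snd hm
      obtain ⟨k, hk⟩ := inj hP hsq hnd _ _ hm1
      have e1 : p = pt P (W (n + 1)) := by
        rw [hm2, ← pt_per hP hsq (n + 1) k]
        congr 2
        linarith
      refine ⟨n + 1, Or.inr rfl, ?_, ?_⟩
      · rw [e1] at hlt
        exact hlt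
      · rw [e1]
        rfl
    · obtain ⟨m, hm⟩ := (hS.cp P Y w W hsq _).1 hcp
      have hm1 : p = pt P (W m) := congrArg Prod.fst hm
      have hm2 : pt P (W n) = pt P (W (m + 1)) := congrArg Prod.snd hm
      obtain ⟨k, hk⟩ := inj hP hsq hnd _ _ hm2
      have e1 : p = pt P (W (n - 1)) := by
        rw [hm1, ← pt_per hP hsq (n - 1) k]
        congr 2
        linarith
      refine ⟨n - 1, Or.inl rfl, ?_, ?_⟩
      · rw [e1] at hlt
        exact hlt
      · rw [e1]
        rfl
  · right
    exact ⟨hk, her⟩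

/-! ### links -/

theorem link (hS : P_SEQ) (hsq : Sq P Y w W) {p q : Pt} (h : Lk (w.map (pt P)) p q) :
    AdjX Y p.t q.t := by
  obtain ⟨hlt, hcp⟩ := h
  rcases hcp with hcp | hcp
  · obtain ⟨m, hm⟩ := (hS.cp P Y w W hsq _).1 hcp
    have hm1 : p = pt P (W m) := congrArg Prod.fst hm
    have hm2 : q = pt P (W (m + 1)) := congrArg Prod.snd hm
    subst hm1 hm2
    change (W m).t < (W (m + 1)).t at hlt
    change AdjX Y (W m).t (W (m + 1)).t
    rcases (hsq.lnk m).adj with h | h
    · exact h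
    · exact absurd h.2.2.1 (not_lt.mpr hlt.le)
  · obtain ⟨m, hm⟩ := (hS.cp P Y w W hsq _).1 hcp
    have hm1 : q = pt P (W m) := congrArg Prod.fst hm
    have hm2 : p = pt P (W (m + 1)) := congrArg Prod.snd hm
    subst hm1 hm2
    change (W (m + 1)).t < (W m).t at hlt
    change AdjX Y (W (m + 1)).t (W m).t
    rcases (hsq.lnk m).adj with h | h
    · exact absurd h.2.2.1 (not_lt.mpr hlt.le)
    · exact h

theorem mem_Y (hsq : Sq P Y w W) (n : ℤ) : (W n).t ∈ Y := by
  rcases (hsq.lnk n).adj with h | h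
  · exact h.1
  · exact h.2.1

end RMP

open RMP

/-- RMP. -/
theorem t_RMP : Stmt_RMP := by
  classical
  intro hP hC hS hA hST N P a b s d Y w W hsit hG hcw hlen
  have hsq := hsit.sq
  have hnd : (w.map (pt P)).Nodup := hA.nd _ hcw
  have hN : 0 < N := hS.pos P Y w (hS.ew P Y w W hsq)
  have hinj := List.inj_on_of_nodup_map hnd
  have hex : ∀ r : ℝ, ∃ f : Pt → ℝ, ∀ i ∈ w, f (pt P i) = P.l i.e r := by
    intro r
    refine ⟨fun p => if h : ∃ i ∈ w, pt P i = p then P.l h.choose.e r else 0, ?_⟩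
    intro i hi
    have h : ∃ i' ∈ w, pt P i' = pt P i := ⟨i, hi, rfl⟩
    change (if h : ∃ i' ∈ w, pt P i' = pt P i then P.l h.choose.e r else 0) = _
    rw [dif_pos h, hinj h.choose_spec.1 hi h.choose_spec.2]
  obtain ⟨el, hel⟩ := hex a
  obtain ⟨er, her⟩ := hex d
  have heq : rmv a s d el er (w.map (pt P)) = (riv a s d w).map (pt P) := by
    rw [rmv, riv, List.filterMap_map, List.map_filterMap]
    apply List.filterMap_congr
    intro i hi
    change rm1 a s d el er (pt P i) = Option.map (pt P) (ri1 a s d i)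
    rw [rm1, ri1]
    by_cases ht : i.t = s
    · rw [if_pos ht, if_pos (show (pt P i).t = s from ht)]
      have hkk : (pt P i).k = i.k := rfl
      rw [hkk]
      cases hk : i.k with
      | rt => rfl
      | lt => rfl
      | R =>
        change some (⟨.R, d, er (pt P i)⟩ : Pt) = some (pt P ⟨.R, d, i.e⟩)
        rw [her i hi]
        rfl
      | L =>
        change some (⟨.L, a, el (pt P i)⟩ : Pt) = some (pt P ⟨.L, a, i.e⟩)
        rw [hel i hi]
        rfl
    · rw [if_neg ht, if_neg (show ¬ (pt P i).t = s from ht)]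
      rfl
  have hmem : ∀ u ∈ w.map (pt P), ∃ n, u = pt P (W n) ∧ W n ∈ w := by
    intro u hu
    obtain ⟨i, hi, rfl⟩ := List.mem_map.mp hu
    obtain ⟨n, hn⟩ := ex_idx hsq hi
    exact ⟨n, by rw [hn], by rw [hn]; exact hi⟩
  have has : a < s := hsit.l.2.2.1
  have hsd : s < d := hsit.r.2.2.1
  have haY : a ∈ Y := hsit.l.1
  have hsY : s ∈ Y := hsit.l.2.1
  have hdY : d ∈ Y := hsit.r.2.1
  refine ⟨el, er, ?_, heq⟩
  refine ⟨hcw, has, hsd, ?_, ?_, ?_, ?_, ?_, ?_, ?_⟩
  · intro p hp
    obtain ⟨n, rfl, hn⟩ := hmem p hp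
    change (W n).t ≤ a ∨ (W n).t = s ∨ d ≤ (W n).t
    have h1 := hsit.l.2.2.2 (W n).t (mem_Y hsq n)
    have h2 := hsit.r.2.2.2 (W n).t (mem_Y hsq n)
    rcases lt_trichotomy (W n).t s with h | h | h
    · left
      by_contra hcon
      exact h1 ⟨not_le.mp hcon, h⟩
    · right; left; exact h
    · right; right
      by_contra hcon
      exact h2 ⟨h, not_le.mp hcon⟩
  · intro p q hpq
    have hadj := link hS hsq hpq
    refine ⟨?_, ?_, ?_⟩
    · intro h
      rw [h] at hadj
      exact adj_right hsit.r hadj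
    · intro h
      rw [h] at hadj
      exact adj_left hsit.l hadj
    · intro h1 h2
      exact absurd ⟨h1, h2⟩ (hadj.2.2.2 s hsY)
  · intro u hu huk hut v hv
    obtain ⟨n, rfl, hn⟩ := hmem u hu
    obtain ⟨m, rfl, hm⟩ := hmem v hv
    change (W n).k = .R at huk
    change (W n).t = s at hut
    rw [her _ hn, her _ hm]
    have hR := turnR hS hsq n huk (t' := a) (by rw [hut]; exact hsit.l)
    rw [hut] at hR
    refine ⟨?_, ?_⟩
    · intro hvk hvt heq1
      change (W m).k ≠ .L at hvk
      change (W m).t = d at hvt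
      have hl0 : P.l (W m).e (W m).t = P.l (W n).e d := heq1
      rw [hvt] at hl0
      have hy := y_eq hG hdY hl0.symm
      obtain ⟨p, q, hc, hp, hq, hym⟩ := hsit.yf (W n) hn (Or.inl huk) hR.1
        (by linarith [hR.2.1, hsit.db])
      have hmt : Mts P a b (W m).e := by
        have hdb := hsit.db
        have hab := hsit.gd.lt
        cases hk : (W m).k with
        | rt =>
          have h := (hsq.ok m).1 hk
          rw [hvt] at h
          refine ⟨?_, ?_⟩
          · rintro ⟨_, h2⟩; linarith [h.2]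
          · rintro ⟨h1, _⟩; linarith [h.1]
        | lt =>
          have h := (hsq.ok m).2 hk
          rw [hvt] at h
          refine ⟨?_, ?_⟩
          · rintro ⟨h1, _⟩; linarith [h.2]
          · rintro ⟨_, h2⟩; linarith [h.1]
        | R =>
          have h := turnR hS hsq m hk (t' := s) (by rw [hvt]; exact hsit.r)
          rw [hvt] at h
          refine ⟨?_, ?_⟩
          · rintro ⟨_, h2⟩; linarith [h.1]
          · rintro ⟨_, h2⟩; linarith [h.2.1]
        | L => exact absurd hk hvk
      obtain ⟨k, hk⟩ := key hP hC hN hsit.gd hc hp hq hym hmt hy (ln_eq hP hy hl0.symm a)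
      have hx0 : P.x (W m).e = P.x (W n).e := by
        rw [hk]; exact (hP.sh P _ k).1
      have hx1 : P.x ((W m).e + 1) = P.x ((W n).e + 1) := by
        rw [hk, add_right_comm]; exact (hP.sh P _ k).1
      cases hk : (W m).k with
      | rt =>
        have h := (hsq.ok m).1 hk
        rw [hvt, hx1] at h
        linarith [h.2, hR.2.1]
      | lt =>
        have h := (hsq.ok m).2 hk
        rw [hvt, hx0] at h
        linarith [h.2, hR.2.2]
      | R =>
        have h := turnR hS hsq m hk (t' := s) (by rw [hvt]; exact hsit.r)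
        rw [hvt, hx1] at h
        linarith [h.1, hR.2.1]
      | L => exact hvk hk
    · intro hvk hvt heq1
      change (W m).k = .R at hvk
      change (W m).t = s at hvt
      have hy := y_eq hG hdY heq1
      have h2 := ln_eq hP hy heq1 s
      change (⟨(W m).k, (W m).t, P.l (W m).e (W m).t⟩ : Pt) =
        ⟨(W n).k, (W n).t, P.l (W n).e (W n).t⟩
      rw [hvk, hvt, huk, hut, h2]
  · intro u hu huk hut v hv
    obtain ⟨n, rfl, hn⟩ := hmem u hu
    obtain ⟨m, rfl, hm⟩ := hmem v hv
    change (W n).k = .L at huk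
    change (W n).t = s at hut
    rw [hel _ hn, hel _ hm]
    have hR := turnL hS hsq n huk (t' := d) (by rw [hut]; exact hsit.r)
    rw [hut] at hR
    refine ⟨?_, ?_⟩
    · intro hvk hvt heq1
      change (W m).k ≠ .R at hvk
      change (W m).t = a at hvt
      have hl0 : P.l (W m).e (W m).t = P.l (W n).e a := heq1
      rw [hvt] at hl0
      have hy := y_eq hG haY hl0.symm
      obtain ⟨p, q, hc, hp, hq, hym⟩ := hsit.yf (W n) hn (Or.inr huk) (by linarith [hR.1])
        (by linarith [hR.2.1, hsit.db])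
      have hmt : Mts P a b (W m).e := by
        have hdb := hsit.db
        have hab := hsit.gd.lt
        cases hk : (W m).k with
        | rt =>
          have h := (hsq.ok m).1 hk
          rw [hvt] at h
          refine ⟨?_, ?_⟩
          · rintro ⟨_, h2⟩; linarith [h.2]
          · rintro ⟨h1, _⟩; linarith [h.1]
        | lt =>
          have h := (hsq.ok m).2 hk
          rw [hvt] at h
          refine ⟨?_, ?_⟩
          · rintro ⟨h1, _⟩; linarith [h.2]
          · rintro ⟨_, h2⟩; linarith [h.1]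
        | L =>
          have h := turnL hS hsq m hk (t' := s) (by rw [hvt]; exact hsit.l)
          rw [hvt] at h
          refine ⟨?_, ?_⟩
          · rintro ⟨_, h2⟩; linarith [h.1]
          · rintro ⟨_, h2⟩; linarith [h.2.1]
        | R => exact absurd hk hvk
      obtain ⟨k, hk⟩ := key hP hC hN hsit.gd hc hp hq hym hmt hy (ln_eq hP hy hl0.symm a)
      have hx0 : P.x (W m).e = P.x (W n).e := by
        rw [hk]; exact (hP.sh P _ k).1
      have hx1 : P.x ((W m).e + 1) = P.x ((W n).e + 1) := by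
        rw [hk, add_right_comm]; exact (hP.sh P _ k).1
      cases hk : (W m).k with
      | rt =>
        have h := (hsq.ok m).1 hk
        rw [hvt, hx0] at h
        linarith [h.1, hR.2.2]
      | lt =>
        have h := (hsq.ok m).2 hk
        rw [hvt, hx1] at h
        linarith [h.1, hR.1]
      | L =>
        have h := turnL hS hsq m hk (t' := s) (by rw [hvt]; exact hsit.l)
        rw [hvt, hx1] at h
        linarith [h.2.1, hR.1]
      | R => exact hvk hk
    · intro hvk hvt heq1
      change (W m).k = .L at hvk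
      change (W m).t = s at hvt
      have hy := y_eq hG haY heq1
      have h2 := ln_eq hP hy heq1 s
      change (⟨(W m).k, (W m).t, P.l (W m).e (W m).t⟩ : Pt) =
        ⟨(W n).k, (W n).t, P.l (W n).e (W n).t⟩
      rw [hvk, hvt, huk, hut, h2]
  · intro u hu v hv hut hvt hne hle
    obtain ⟨n, rfl, hn⟩ := hmem u hu
    obtain ⟨m, rfl, hm⟩ := hmem v hv
    change (W n).t = s at hut
    change (W m).t = s at hvt
    have hno : ¬ ∃ k : ℤ, m = n + k * w.length := by
      rintro ⟨k, hk⟩
      apply hne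
      rw [hk, pt_per hP hsq]
    have hD := hST P a b s d Y w W hsit n m hut hvt hno
    have hle' : P.l (W n).e (W n).t ≤ P.l (W m).e (W m).t := hle
    rw [hut, hvt] at hle'
    have hKn := KS_sub hP hS hsq hnd el a n (hel _ hn)
    have hKm := KS_sub hP hS hsq hnd el a m (hel _ hm)
    have hRn := RS_sub hP hS hsq hnd er d n (her _ hn)
    have hRm := RS_sub hP hS hsq hnd er d m (her _ hm)
    rcases hD hle' with h | h
    · left
      intro x hx y hy
      exact h x (hKm hx) y (hKn hy)
    · right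
      intro x hx y hy
      exact h x (hRm hx) y (hRn hy)
  · intro p q hpq hpa hqd
    have hadj := link hS hsq hpq
    rw [hpa, hqd] at hadj
    exact absurd ⟨has, hsd⟩ (hadj.2.2.2 s hsY)
  · rw [heq]
    exact hlen

end LH
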