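import Pool.Agent.LH.Stmts1

/-!
# RPE: representations exist
-/

namespace LH

open Set LG

namespace RPE

/-- Two entries of different kinds. -/
def R {α β : Type*} (p q : α ⊕ β) : Prop := p.isLeft = !q.isLeft

theorem chain_of_zip {α : Type*} (S : α → α → Prop) (y : α) :
    ∀ (t : List α) (x : α), (∀ p ∈ (x :: t).zip (t ++ [y]), S p.1 p.2) →
      List.IsChain S (x :: (t ++ [y])) := by
  intro t
  induction t with
  | nil =>
      intro x h
      have := h (x, y) (by simp)
      simpa using this
  | cons z t ih =>
      intro x h
      have h1 : S x z := h (x, z) (by simp)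
      have h2 : List.IsChain S (z :: (t ++ [y])) :=
        ih z (fun p hp => h p (by
          simp only [List.cons_append, List.zip_cons_cons, List.mem_cons]
          exact Or.inr hp))
      simpa [List.isChain_cons_cons] using And.intro h1 h2

theorem exists_fl {α β : Type*} : ∀ (n : ℕ) (W : List (α ⊕ β)), W.length ≤ n →
    List.IsChain R W →
    (∀ x ∈ W.head?, x.isLeft = true) → (∀ x ∈ W.getLast?, x.isLeft = false) →
    ∃ L : List (α × β), W = fl L := by
  intro n
  induction n with
  | zero =>
      intro W hW _ _ _
      have : W = [] := List.length_eq_zero_iff.mp (by omega)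
      exact ⟨[], by simp [this, fl]⟩
  | succ n ih =>
      intro W hW hc hh hl
      rcases W with _ | ⟨x, _ | ⟨y, t⟩⟩
      · exact ⟨[], by simp [fl]⟩
      · have h1 := hh x (by simp)
        have h2 := hl x (by simp)
        rw [h1] at h2
        cases h2
      · have hx := hh x (by simp)
        rw [List.isChain_cons_cons] at hc
        obtain ⟨hxy, hc⟩ := hc
        have hy : y.isLeft = false := by
          unfold R at hxy
          rw [hx] at hxy
          cases h : y.isLeft with
          | true => rw [h] at hxy; cases hxy
          | false => rfl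
        rcases x with a | a
        swap
        · cases hx
        rcases y with b | b
        · cases hy
        rcases t with _ | ⟨z, t⟩
        · exact ⟨[(a, b)], by simp [fl]⟩
        · rw [List.isChain_cons_cons] at hc
          obtain ⟨hyz, hc⟩ := hc
          have hz : z.isLeft = true := by
            unfold R at hyz
            cases h : z.isLeft with
            | true => rfl
            | false => rw [h] at hyz; cases hyz
          obtain ⟨L, hL⟩ := ih (z :: t) (by simp only [List.length_cons] at hW ⊢; omega) hc
            (by intro u hu; simp only [List.head?_cons, Option.mem_def, Option.some.injEq] at hu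
                rw [← hu]; exact hz)
            (by intro u hu
                apply hl u
                simpa [List.getLast?_cons_cons] using hu)
          exact ⟨(a, b) :: L, by rw [hL]; simp [fl]⟩

theorem exists_rot {α β : Type*} (W : List (α ⊕ β)) (h0 : W ≠ [])
    (hW : ∀ p ∈ cp W, p.1.isLeft = !p.2.isLeft) :
    ∃ L : List (α × β), (fl L).IsRotated W := by
  rcases W with _ | ⟨x, t⟩
  · exact absurd rfl h0
  have hz : ∀ p ∈ (x :: t).zip (t ++ [x]), R p.1 p.2 := by
    intro p hp
    apply hW p
    unfold cp
    simpa [List.rotate_cons_succ] using hp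
  have hc := chain_of_zip R x t x hz
  by_cases hx : x.isLeft = true
  · have hc1 : List.IsChain R (x :: t) := by
      have : List.IsChain R ((x :: t) ++ [x]) := by simpa using hc
      exact this.left_of_append
    have hlast : ∀ y ∈ (x :: t).getLast?, y.isLeft = false := by
      intro y hy
      have h3 : List.IsChain R ((x :: t) ++ [x]) := by simpa using hc
      rw [List.isChain_append] at h3
      have h4 := h3.2.2 y hy x (by simp)
      unfold R at h4
      rw [hx] at h4
      simpa using h4
    obtain ⟨L, hL⟩ := exists_fl _ (x :: t) le_rfl hc1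
      (by intro u hu; simp only [List.head?_cons, Option.mem_def, Option.some.injEq] at hu
          rw [← hu]; exact hx) hlast
    exact ⟨L, by rw [← hL]⟩
  · have hx' : x.isLeft = false := by simpa using hx
    rcases t with _ | ⟨z, t⟩
    · have := hz (x, x) (by simp)
      unfold R at this
      simp [hx'] at this
    · have hc' : List.IsChain R (x :: z :: (t ++ [x])) := by simpa using hc
      rw [List.isChain_cons_cons] at hc'
      obtain ⟨hxz, hc2⟩ := hc'
      have hzl : z.isLeft = true := by
        unfold R at hxz
        rw [hx'] at hxz
        cases h : z.isLeft with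
        | true => rfl
        | false => rw [h] at hxz; cases hxz
      obtain ⟨L, hL⟩ := exists_fl _ (z :: (t ++ [x])) le_rfl hc2
        (by intro u hu; simp only [List.head?_cons, Option.mem_def, Option.some.injEq] at hu
            rw [← hu]; exact hzl)
        (by
          intro u hu
          have : (z :: (t ++ [x])).getLast? = some x := by
            rw [← List.cons_append]
            exact List.getLast?_concat
          rw [this] at hu
          simp only [Option.mem_def, Option.some.injEq] at hu
          rw [← hu]; exact hx')
      refine ⟨L, ?_⟩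
      rw [← hL]
      have h5 : (z :: (t ++ [x])) = (x :: z :: t).rotate 1 := by
        simp [List.rotate_cons_succ]
      rw [h5]
      exact (List.IsRotated.forall _ _)

theorem fl_map {α β γ δ : Type*} (f : α → γ) (g : β → δ) (L : List (α × β)) :
    fl (L.map fun p => (f p.1, g p.2)) = (fl L).map (Sum.map f g) := by
  induction L with
  | nil => simp [fl]
  | cons p L ih =>
      have h1 : fl (p :: L) = Sum.inl p.1 :: Sum.inr p.2 :: fl L := by simp [fl]
      have h2 : fl ((f p.1, g p.2) :: L.map fun p => (f p.1, g p.2)) =
          Sum.inl (f p.1) :: Sum.inr (g p.2) :: fl (L.map fun p => (f p.1, g p.2)) := by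
        simp [fl]
      rw [List.map_cons, h2, h1, ih]
      simp

open Classical in
/-- The number of entries of `W` that are images of points below `a`. -/
noncomputable def cnt (i : Q → En) (W : List En) (a : Q) : ℕ :=
  (W.toFinset.filter fun e => ∃ c, e = i c ∧ c < a).card

theorem cnt_lt (i : Q → En) (hi : Function.Injective i) (W : List En) (a b : Q) (ha : i a ∈ W)
    (hab : a < b) : cnt i W a < cnt i W b := by
  classical
  unfold cnt
  apply Finset.card_lt_card
  rw [Finset.ssubset_iff_of_subset]
  · refine ⟨i a, ?_, ?_⟩
    · simp only [Finset.mem_filter, List.mem_toFinset]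
      exact ⟨ha, a, rfl, hab⟩
    · simp only [Finset.mem_filter, List.mem_toFinset]
      rintro ⟨_, c, hc, hca⟩
      rw [← hi hc] at hca
      exact lt_irrefl _ hca
  · intro e he
    simp only [Finset.mem_filter, List.mem_toFinset] at he ⊢
    obtain ⟨h1, c, hc, hca⟩ := he
    exact ⟨h1, c, hc, hca.trans hab⟩

end RPE

theorem t_RPE : Stmt_RPE := by
  intro W hW hnd
  obtain ⟨L, hL⟩ := RPE.exists_rot W hW.1 hW.2
  refine ⟨L.map fun p => ((-(RPE.cnt Sum.inl W p.1 : ℝ)), ((RPE.cnt Sum.inr W p.2 : ℕ) : ℝ)),
    hnd, fun a => -(RPE.cnt Sum.inl W a : ℝ), fun b => ((RPE.cnt Sum.inr W b : ℕ) : ℝ),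
    ?_, ?_, ?_⟩
  · intro a b ha _ hab
    have := RPE.cnt_lt Sum.inl Sum.inl_injective W a b ha hab
    have h2 : (RPE.cnt Sum.inl W a : ℝ) < (RPE.cnt Sum.inl W b : ℝ) := by exact_mod_cast this
    simpa using h2
  · intro a b ha _ hab
    have := RPE.cnt_lt Sum.inr Sum.inr_injective W a b ha hab
    have h2 : (RPE.cnt Sum.inr W a : ℝ) < (RPE.cnt Sum.inr W b : ℝ) := by exact_mod_cast this
    exact h2
  · have := RPE.fl_map (fun a => -(RPE.cnt Sum.inl W a : ℝ))
      (fun b => ((RPE.cnt Sum.inr W b : ℕ) : ℝ)) L
    rw [this]
    exact hL.map _

end LH
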