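import Pool.Agent.LH.Stmts1

/-!
# Module RPU: representations are unique up to Legendrian equivalence
-/

namespace LH

open Set LG

namespace RPU

theorem fl_cons {α β : Type*} (p : α × β) (L : List (α × β)) :
    fl (p :: L) = Sum.inl p.1 :: Sum.inr p.2 :: fl L := by
  simp [fl]

theorem fl_nil {α β : Type*} : fl ([] : List (α × β)) = [] := rfl

theorem fl_append {α β : Type*} (L L' : List (α × β)) : fl (L ++ L') = fl L ++ fl L' := by
  simp [fl]

theorem fl_inj {α β : Type*} : ∀ L L' : List (α × β), fl L = fl L' → L = L'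
  | [], [], _ => rfl
  | [], p :: L', h => by rw [fl_cons, fl_nil] at h; simp at h
  | p :: L, [], h => by rw [fl_cons, fl_nil] at h; simp at h
  | p :: L, q :: L', h => by
      rw [fl_cons, fl_cons] at h
      simp only [List.cons.injEq, Sum.inl.injEq, Sum.inr.injEq] at h
      rw [fl_inj L L' h.2.2, Prod.ext h.1 h.2.1]

theorem fl_split (f g : Q → ℝ) : ∀ (M : List (ℝ × ℝ)) (W : List En),
    fl M = W.map (Sum.map f g) → ∃ L : List (Q × Q), W = fl L ∧ M = L.map (Prod.map f g)
  | [], W, h => by
      rw [fl_nil] at h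
      have : W = [] := by simpa using h.symm
      exact ⟨[], by simp [this, fl_nil], rfl⟩
  | p :: M, W, h => by
      rw [fl_cons] at h
      match W, h with
      | [], h => simp at h
      | [x], h => simp at h
      | x :: y :: W, h =>
        simp only [List.map_cons, List.cons.injEq] at h
        obtain ⟨h1, h2, h3⟩ := h
        obtain ⟨L, hL, hM⟩ := fl_split f g M W h3
        match x, y, h1, h2 with
        | Sum.inl a, Sum.inr b, h1, h2 =>
          refine ⟨(a, b) :: L, by rw [fl_cons, hL], ?_⟩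
          simp only [Sum.map_inl, Sum.inl.injEq] at h1
          simp only [Sum.map_inr, Sum.inr.injEq] at h2
          rw [List.map_cons, ← hM]
          rw [Prod.map_apply, ← h1, ← h2]
        | Sum.inr a, _, h1, _ => simp at h1
        | Sum.inl a, Sum.inl b, _, h2 => simp at h2

theorem rot_even {α β : Type*} : ∀ (k : ℕ) (L L' : List (α × β)), fl L' = (fl L).rotate k →
    ∃ j, L' = L.rotate j
  | 0, L, L', h => ⟨0, by rw [List.rotate_zero] at h ⊢; exact fl_inj _ _ h⟩
  | 1, L, L', h => by
      match L, L', h with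
      | [], L', h =>
        refine ⟨0, ?_⟩
        rw [fl_nil, List.rotate_nil] at h
        rw [List.rotate_zero]
        exact fl_inj _ _ h
      | p :: L, [], h =>
        have := congrArg List.length h
        simp [fl_cons, fl_nil] at this
      | p :: L, q :: L', h =>
        rw [fl_cons, fl_cons, List.rotate_cons_succ, List.rotate_zero] at h
        simp at h
  | k + 2, L, L', h => by
      have h2 : (fl L).rotate 2 = fl (L.rotate 1) := by
        match L with
        | [] => rfl
        | p :: L =>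
          rw [fl_cons, List.rotate_cons_succ, List.cons_append, List.rotate_cons_succ,
            List.rotate_zero, List.rotate_cons_succ, List.rotate_zero, fl_append, fl_cons]
          simp [fl_nil]
      rw [show k + 2 = 2 + k by omega, ← List.rotate_rotate, h2] at h
      obtain ⟨j, hj⟩ := rot_even k _ _ h
      exact ⟨1 + j, by rw [hj, List.rotate_rotate]⟩

theorem mem_fl_fst {α β : Type*} {L : List (α × β)} {p : α × β} (h : p ∈ L) :
    Sum.inl p.1 ∈ fl L := by
  unfold fl
  rw [List.mem_flatMap]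
  exact ⟨p, h, by simp⟩

theorem mem_fl_snd {α β : Type*} {L : List (α × β)} {p : α × β} (h : p ∈ L) :
    Sum.inr p.2 ∈ fl L := by
  unfold fl
  rw [List.mem_flatMap]
  exact ⟨p, h, by simp⟩

theorem fl_nodup {α β : Type*} : ∀ {L : List (α × β)}, (fl L).Nodup →
    (L.map Prod.fst).Nodup ∧ (L.map Prod.snd).Nodup
  | [], _ => by simp
  | p :: L, h => by
      rw [fl_cons, List.nodup_cons, List.nodup_cons] at h
      obtain ⟨h1, h2, h3⟩ := h
      obtain ⟨i1, i2⟩ := fl_nodup h3
      rw [List.map_cons, List.map_cons, List.nodup_cons, List.nodup_cons]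
      refine ⟨⟨fun hm => h1 ?_, i1⟩, ⟨fun hm => h2 ?_, i2⟩⟩
      · obtain ⟨q, hq, he⟩ := List.mem_map.1 hm
        rw [← he]
        exact List.mem_cons_of_mem _ (mem_fl_fst hq)
      · obtain ⟨q, hq, he⟩ := List.mem_map.1 hm
        rw [← he]
        exact mem_fl_snd hq

theorem rot_LEq (L : List (ℝ × ℝ)) (j : ℕ) : LEq L (L.rotate j) := by
  rcases Nat.eq_zero_or_pos L.length with h | h
  · have hL : L = [] := List.length_eq_zero_iff.1 h
    subst hL
    rw [List.rotate_nil]
    exact Relation.EqvGen.refl _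
  · rw [← List.rotate_mod]
    have hj : j % L.length ≤ L.length := (Nat.mod_lt _ h).le
    rw [List.rotate_eq_drop_append_take hj]
    have := Mv.rot (L.take (j % L.length)) (L.drop (j % L.length))
    rw [List.take_append_drop] at this
    exact Relation.EqvGen.rel _ _ this

/-- Change of the representing functions. -/
theorem iso_LEq (L : List (Q × Q)) (hN : (fl L).Nodup) (f g f' g' : Q → ℝ)
    (hf : ∀ a b, Sum.inl a ∈ fl L → Sum.inl b ∈ fl L → a < b → f b < f a)
    (hg : ∀ a b, Sum.inr a ∈ fl L → Sum.inr b ∈ fl L → a < b → g a < g b)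
    (hf' : ∀ a b, Sum.inl a ∈ fl L → Sum.inl b ∈ fl L → a < b → f' b < f' a)
    (hg' : ∀ a b, Sum.inr a ∈ fl L → Sum.inr b ∈ fl L → a < b → g' a < g' b) :
    LEq (L.map (Prod.map f g)) (L.map (Prod.map f' g')) := by
  classical
  obtain ⟨hn1, hn2⟩ := fl_nodup hN
  have hfi : Set.InjOn f {a | Sum.inl a ∈ fl L} := by
    intro a ha b hb hab
    rcases lt_trichotomy a b with h | h | h
    · exact absurd hab (hf a b ha hb h).ne'
    · exact h
    · exact absurd hab (hf b a hb ha h).ne
  have hgi : Set.InjOn g {a | Sum.inr a ∈ fl L} := by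
    intro a ha b hb hab
    rcases lt_trichotomy a b with h | h | h
    · exact absurd hab (hg a b ha hb h).ne
    · exact h
    · exact absurd hab (hg b a hb ha h).ne'
  set F : ℝ → ℝ := fun x => f' (Function.invFunOn f {a | Sum.inl a ∈ fl L} x) with hF
  set G : ℝ → ℝ := fun x => g' (Function.invFunOn g {a | Sum.inr a ∈ fl L} x) with hG
  have hFf : ∀ a, Sum.inl a ∈ fl L → F (f a) = f' a := by
    intro a ha
    simp only [hF]
    rw [hfi.leftInvOn_invFunOn ha]
  have hGg : ∀ a, Sum.inr a ∈ fl L → G (g a) = g' a := by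
    intro a ha
    simp only [hG]
    rw [hgi.leftInvOn_invFunOn ha]
  have hmap : L.map (Prod.map f' g') =
      (L.map (Prod.map f g)).map (fun p => (F p.1, G p.2)) := by
    rw [List.map_map]
    apply List.map_congr_left
    intro p hp
    simp only [Function.comp_apply, Prod.map_fst, Prod.map_snd]
    rw [hFf _ (mem_fl_fst hp), hGg _ (mem_fl_snd hp)]
    rfl
  have hNd : Nd (L.map (Prod.map f g)) := by
    unfold Nd
    rw [List.map_map, List.map_map]
    constructor
    · have : Prod.fst ∘ Prod.map f g = f ∘ (Prod.fst : Q × Q → Q) := rfl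
      rw [this, ← List.map_map]
      apply List.Nodup.map_on _ hn1
      intro x hx y hy hxy
      obtain ⟨p, hp, rfl⟩ := List.mem_map.1 hx
      obtain ⟨q, hq, rfl⟩ := List.mem_map.1 hy
      exact hfi (mem_fl_fst hp) (mem_fl_fst hq) hxy
    · have : Prod.snd ∘ Prod.map f g = g ∘ (Prod.snd : Q × Q → Q) := rfl
      rw [this, ← List.map_map]
      apply List.Nodup.map_on _ hn2
      intro x hx y hy hxy
      obtain ⟨p, hp, rfl⟩ := List.mem_map.1 hx
      obtain ⟨q, hq, rfl⟩ := List.mem_map.1 hy
      exact hgi (mem_fl_snd hp) (mem_fl_snd hq) hxy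
  rw [hmap]
  apply Relation.EqvGen.rel
  apply Mv.iso _ F G hNd
  · intro x hx y hy hxy
    obtain ⟨p, hp, rfl⟩ := List.mem_map.1 hx
    obtain ⟨q, hq, rfl⟩ := List.mem_map.1 hy
    simp only [Prod.map_fst] at hxy ⊢
    rw [hFf _ (mem_fl_fst hp), hFf _ (mem_fl_fst hq)]
    rcases lt_trichotomy p.1 q.1 with h | h | h
    · exact absurd hxy (hf _ _ (mem_fl_fst hp) (mem_fl_fst hq) h).not_gt
    · rw [h] at hxy; exact absurd hxy (lt_irrefl _)
    · exact hf' _ _ (mem_fl_fst hq) (mem_fl_fst hp) h
  · intro x hx y hy hxy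
    obtain ⟨p, hp, rfl⟩ := List.mem_map.1 hx
    obtain ⟨q, hq, rfl⟩ := List.mem_map.1 hy
    simp only [Prod.map_snd] at hxy ⊢
    rw [hGg _ (mem_fl_snd hp), hGg _ (mem_fl_snd hq)]
    rcases lt_trichotomy p.2 q.2 with h | h | h
    · exact hg' _ _ (mem_fl_snd hp) (mem_fl_snd hq) h
    · rw [h] at hxy; exact absurd hxy (lt_irrefl _)
    · exact absurd hxy (hg _ _ (mem_fl_snd hq) (mem_fl_snd hp) h).not_gt

end RPU

open RPU in
theorem t_RPU : Stmt_RPU := by
  intro W M M' ⟨hN, f, g, hf, hg, hr⟩ ⟨_, f', g', hf', hg', hr'⟩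
  obtain ⟨n, hn⟩ := hr.symm
  obtain ⟨n', hn'⟩ := hr'.symm
  rw [← List.map_rotate] at hn hn'
  obtain ⟨L, hL, hM⟩ := fl_split f g M _ hn.symm
  obtain ⟨L', hL', hM'⟩ := fl_split f' g' M' _ hn'.symm
  have hrot : (W.rotate n).IsRotated (W.rotate n') :=
    (List.IsRotated.forall W n).trans (List.IsRotated.forall W n').symm
  rw [hL, hL'] at hrot
  obtain ⟨k, hk⟩ := hrot
  obtain ⟨j, hj⟩ := rot_even k L L' hk.symm
  have hmem : ∀ x, x ∈ fl L → x ∈ W := by
    intro x hx
    rw [← hL] at hx
    exact List.mem_rotate.1 hx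
  have hNL : (fl L).Nodup := by
    rw [← hL]
    exact List.nodup_rotate.2 hN
  have h1 := iso_LEq L hNL f g f' g'
    (fun a b ha hb => hf a b (hmem _ ha) (hmem _ hb))
    (fun a b ha hb => hg a b (hmem _ ha) (hmem _ hb))
    (fun a b ha hb => hf' a b (hmem _ ha) (hmem _ hb))
    (fun a b ha hb => hg' a b (hmem _ ha) (hmem _ hb))
  have h2 := rot_LEq (L.map (Prod.map f' g')) j
  rw [← List.map_rotate, ← hj, ← hM'] at h2
  rw [← hM] at h1
  exact Relation.EqvGen.trans _ _ _ h1 h2

end LH
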