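import Pool.Agent.LH.Stmts1

/-!
# RTL: retraction of a finger to the left
-/

namespace LH

open Set LG

namespace RTL

/-! ### lists -/

theorem cp_cons {α : Type*} (a : α) (l : List α) : cp (a :: l) = (a :: l).zip (l ++ [a]) := by
  unfold cp
  rw [show (1 : ℕ) = 0 + 1 from rfl, List.rotate_cons_succ, List.rotate_zero]

theorem zip_chain {α : Type*} (R : α → α → Prop) (l : List α) : ∀ a b : α,
    (∀ p ∈ (a :: l).zip (l ++ [b]), R p.1 p.2) ↔ List.IsChain R (a :: (l ++ [b])) := by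
  induction l with
  | nil => intro a b; simp
  | cons x l ih =>
    intro a b
    have h := ih x b
    rw [List.cons_append, List.zip_cons_cons, List.isChain_cons_cons, ← h]
    simp only [List.mem_cons, forall_eq_or_imp]

/-- The relation between consecutive entries. -/
def AR (a b : En) : Prop := a.isLeft = !b.isLeft

theorem alt_cons (a : En) (l : List En) : Alt (a :: l) ↔ List.IsChain AR (a :: (l ++ [a])) := by
  unfold Alt
  rw [cp_cons, ← zip_chain]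
  constructor
  · intro h p hp
    exact h.2 p hp
  · intro h
    exact ⟨by simp, fun p hp => h p hp⟩

theorem cp_mem {α : Type*} {l : List α} {a b : α} (h : (a, b) ∈ cp l) : a ∈ l ∧ b ∈ l := by
  unfold cp at h
  have := List.of_mem_zip h
  exact ⟨this.1, List.mem_rotate.1 this.2⟩

theorem mk_mem {W : List En} {c r : Q} (h : Mk W c r) : Sum.inl c ∈ W ∧ Sum.inr r ∈ W := by
  rcases h with h | h
  · exact cp_mem h
  · exact (cp_mem h).symm

theorem inl_ent {c : Q} {p : Pt} (h : Sum.inl c ∈ ent p) : p.k ≠ .L ∧ p.c = c := by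
  unfold ent at h
  cases hk : p.k <;> simp [hk] at h <;> simp [h]

theorem inr_ent {r : Q} {p : Pt} (h : Sum.inr r ∈ ent p) : p.k ≠ .R ∧ p.r = r := by
  unfold ent at h
  cases hk : p.k <;> simp [hk] at h <;> simp [h]

theorem inl_ents {c : Q} {w : List Pt} (h : Sum.inl c ∈ ents w) :
    ∃ x ∈ w, x.k ≠ .L ∧ x.c = c := by
  unfold ents at h
  obtain ⟨x, hx, hx'⟩ := List.mem_flatMap.1 h
  exact ⟨x, hx, inl_ent hx'⟩

theorem inr_ents {r : Q} {w : List Pt} (h : Sum.inr r ∈ ents w) :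
    ∃ x ∈ w, x.k ≠ .R ∧ x.r = r := by
  unfold ents at h
  obtain ⟨x, hx, hx'⟩ := List.mem_flatMap.1 h
  exact ⟨x, hx, inr_ent hx'⟩

theorem btw_symm {α : Type*} [LT α] {a b x : α} (h : Btw a b x) : Btw b a x := by
  unfold Btw at *
  tauto

theorem c_lt_of_t {p q : Pt} (h : p.t < q.t) : p.c < q.c := by
  unfold Pt.c
  rw [Prod.Lex.lt_iff]
  exact Or.inl h

theorem r_lt_of_t {p q : Pt} (h : p.t < q.t) : q.r < p.r := by
  unfold Pt.r
  rw [Prod.Lex.lt_iff]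
  exact Or.inl (neg_lt_neg h)

theorem c_lt_of_h {p q : Pt} (ht : p.t = q.t) (h : p.h < q.h) : p.c < q.c := by
  unfold Pt.c
  rw [Prod.Lex.lt_iff]
  exact Or.inr ⟨ht, h⟩

theorem r_lt_of_h {p q : Pt} (ht : p.t = q.t) (h : p.h < q.h) : p.r < q.r := by
  unfold Pt.r
  rw [Prod.Lex.lt_iff]
  exact Or.inr ⟨by simp [ht], h⟩

theorem main (web : P_WEB) (cwa : P_CWA) (dc1 : P_DC1) (dr1 : P_DR1) (s₂ u s₃ q p : Pt)
    (B : List Pt) (hw : CW (s₂ :: u :: s₃ :: q :: (B ++ [p])))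
    (hw' : CW (⟨.L, s₂.t, s₂.h⟩ :: q :: (B ++ [p]))) (k₂ : s₂.k = .lt) (ku : u.k = .L)
    (k₃ : s₃.k = .rt) (ht : s₂.t = s₃.t)
    (hc : ∀ x ∈ s₂ :: u :: s₃ :: q :: (B ++ [p]), x.k ≠ .L → ¬ Btw s₂.c s₃.c x.c)
    (hr : ∀ x ∈ s₂ :: u :: s₃ :: q :: (B ++ [p]), x.k ≠ .R → ¬ Btw s₂.r s₃.r x.r)
    (hh : s₃.h < s₂.h ∧ q.c < p.c ∨ s₂.h < s₃.h ∧ p.c < q.c) :
    WE (ents (s₂ :: u :: s₃ :: q :: (B ++ [p]))) (ents (⟨.L, s₂.t, s₂.h⟩ :: q :: (B ++ [p]))) := by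
  -- the steps
  have hst := hw.st
  have st1 : Stp s₂ u := hst (s₂, u) (by rw [cp_cons]; simp)
  have st3 : Stp s₃ q := hst (s₃, q) (by rw [cp_cons]; simp)
  have st4 : Stp p s₂ := by
    apply hst (p, s₂)
    rw [cp_cons]
    have : s₂ :: u :: s₃ :: q :: (B ++ [p]) = (s₂ :: u :: s₃ :: q :: B) ++ [p] := by simp
    rw [this]
    have e2 : (u :: s₃ :: q :: (B ++ [p])) ++ [s₂] = (u :: s₃ :: q :: (B ++ [p])) ++ [s₂] := rfl
    rw [List.zip_append (by simp)]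
    simp
  have hu : u.t < s₂.t := by
    unfold Stp at st1
    simp only [k₂, ku, Kd.fw, Kd.ar] at st1
    tauto
  have hq : q.k.ar ∧ s₃.t < q.t := by
    unfold Stp at st3
    simp only [k₃, Kd.fw] at st3
    tauto
  have hp : ¬ p.k.fw ∧ s₂.t < p.t := by
    unfold Stp at st4
    simp only [k₂, Kd.ar] at st4
    tauto
  obtain ⟨Tq, hTq⟩ : ∃ Tq, ent q = .inl q.c :: Tq := by
    unfold ent
    cases hk : q.k
    · exact ⟨_, rfl⟩
    · exact absurd hq.1 (by rw [hk]; simp [Kd.ar])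
    · exact ⟨_, rfl⟩
    · exact absurd hq.1 (by rw [hk]; simp [Kd.ar])
  obtain ⟨Ip, hIp⟩ : ∃ Ip, ent p = Ip ++ [.inl p.c] := by
    unfold ent
    cases hk : p.k
    · exact absurd hp.1 (by rw [hk]; simp [Kd.fw])
    · exact ⟨[.inr p.r], rfl⟩
    · exact ⟨[], rfl⟩
    · exact absurd hp.1 (by rw [hk]; simp [Kd.fw])
  have e2 : ent s₂ = [.inr s₂.r, .inl s₂.c] := by unfold ent; rw [k₂]
  have eu : ent u = [.inr u.r] := by unfold ent; rw [ku]
  have e3 : ent s₃ = [.inl s₃.c, .inr s₃.r] := by unfold ent; rw [k₃]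
  have eL : ent ⟨.L, s₂.t, s₂.h⟩ = [.inr s₂.r] := rfl
  obtain ⟨M, hM⟩ : ∃ M : List En, M = Tq ++ (ents B ++ Ip) := ⟨_, rfl⟩
  have hqp : ents (q :: (B ++ [p])) = .inl q.c :: (M ++ [.inl p.c]) := by
    unfold ents at *
    simp [hTq, hIp, hM]
  have hE : ents (s₂ :: u :: s₃ :: q :: (B ++ [p])) =
      .inr s₂.r :: .inl s₂.c :: .inr u.r :: .inl s₃.c :: .inr s₃.r :: .inl q.c ::
        (M ++ [.inl p.c]) := by
    have : ents (s₂ :: u :: s₃ :: q :: (B ++ [p])) =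
        ent s₂ ++ (ent u ++ (ent s₃ ++ ents (q :: (B ++ [p])))) := by
      unfold ents; simp
    rw [this, hqp, e2, eu, e3]
    rfl
  have hE' : ents (⟨.L, s₂.t, s₂.h⟩ :: q :: (B ++ [p])) =
      .inr s₂.r :: .inl q.c :: (M ++ [.inl p.c]) := by
    have : ents (⟨.L, s₂.t, s₂.h⟩ :: q :: (B ++ [p])) =
        ent ⟨.L, s₂.t, s₂.h⟩ ++ ents (q :: (B ++ [p])) := by
      unfold ents; simp
    rw [this, hqp, eL]
    rfl
  -- rotation of the first walk
  have hR := cwa.rot [s₂] (u :: s₃ :: q :: (B ++ [p])) hw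
  have hER : ents (u :: s₃ :: q :: (B ++ [p]) ++ [s₂]) =
      .inr u.r :: .inl s₃.c :: .inr s₃.r ::
        ((.inl q.c :: (M ++ [.inl p.c])) ++ [.inr s₂.r, .inl s₂.c]) := by
    have : ents (u :: s₃ :: q :: (B ++ [p]) ++ [s₂]) =
        ent u ++ (ent s₃ ++ (ents (q :: (B ++ [p])) ++ ent s₂)) := by
      unfold ents; simp
    rw [this, hqp, e2, eu, e3]
    simp
  have hA0 := cwa.alt _ hR.1
  have hN0 := hR.1.nd
  rw [hER] at hA0 hN0
  have hW0 := hR.2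
  rw [hER] at hW0
  -- all entries
  have hmem : ∀ x : En, x ∈ (.inr u.r :: .inl s₃.c :: .inr s₃.r ::
        ((.inl q.c :: (M ++ [.inl p.c])) ++ [.inr s₂.r, .inl s₂.c]) : List En) →
      x ∈ ents (s₂ :: u :: s₃ :: q :: (B ++ [p])) := by
    intro x hx
    rw [hE]
    simp only [List.mem_cons, List.mem_append, List.not_mem_nil, or_false] at hx ⊢
    tauto
  have hcol : ∀ c : Q, Sum.inl c ∈ ents (s₂ :: u :: s₃ :: q :: (B ++ [p])) →
      ¬ Btw s₂.c s₃.c c := by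
    intro c h
    obtain ⟨x, hx, hk, rfl⟩ := inl_ents h
    exact hc x hx hk
  have hrow : ∀ r : Q, Sum.inr r ∈ ents (s₂ :: u :: s₃ :: q :: (B ++ [p])) →
      ¬ Btw s₂.r s₃.r r := by
    intro c h
    obtain ⟨x, hx, hk, rfl⟩ := inr_ents h
    exact hr x hx hk
  have r2u : s₂.r < u.r := r_lt_of_t hu
  have r3u : s₃.r < u.r := r_lt_of_t (by rw [← ht]; exact hu)
  have c2q : s₂.c < q.c := c_lt_of_t (by rw [ht]; exact hq.2)
  have c2p : s₂.c < p.c := c_lt_of_t hp.2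
  -- removal of the row of `u`
  have hD1 := dr1 u.r s₃.c s₃.r s₂.r s₂.c (.inl q.c :: (M ++ [.inl p.c])) hA0 hN0
    (by
      intro c r h hb
      exact absurd (btw_symm hb) (hcol c (hmem _ (mk_mem h).1)))
    (by
      rcases hh with ⟨h1, -⟩ | ⟨h1, -⟩
      · exact Or.inl ⟨c_lt_of_h ht.symm h1, Or.inr (Or.inl ⟨r_lt_of_h ht.symm h1, r2u⟩)⟩
      · exact Or.inr ⟨c_lt_of_h ht h1, Or.inr (Or.inl ⟨r_lt_of_h ht h1, r3u⟩)⟩)
  -- the intermediate list
  have hA' := cwa.alt _ hw'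
  rw [hE', alt_cons] at hA'
  have hA2 : Alt (.inl s₂.c :: .inr s₃.r :: .inl q.c :: (M ++ [.inl p.c, .inr s₂.r])) := by
    rw [alt_cons]
    have h1 : List.IsChain AR ((Sum.inl q.c :: (M ++ [.inl p.c, .inr s₂.r]) : List En)) := by
      have h2 := (List.isChain_cons_cons.1 hA').2
      simpa using h2
    refine List.isChain_cons_cons.2 ⟨rfl, ?_⟩
    have e : ((Sum.inr s₃.r :: .inl q.c :: (M ++ [.inl p.c, .inr s₂.r]) : List En)) ++
        [.inl s₂.c] = .inr s₃.r :: .inl q.c :: ((M ++ [.inl p.c, .inr s₂.r]) ++ [.inl s₂.c]) := by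
      simp
    have e' : ((Sum.inl q.c :: ((M ++ [.inl p.c, .inr s₂.r]) ++ [.inl s₂.c]) : List En)) =
        (Sum.inl q.c :: (M ++ [.inl p.c, .inr s₂.r])) ++ [.inl s₂.c] := by simp
    refine List.isChain_cons_cons.2 ⟨rfl, ?_⟩
    show List.IsChain AR ((Sum.inl q.c :: (M ++ [.inl p.c, .inr s₂.r])) ++ [.inl s₂.c])
    rw [List.isChain_append]
    refine ⟨h1, List.isChain_singleton _, ?_⟩
    intro x hx y hy
    have e3 : (Sum.inl q.c :: (M ++ [.inl p.c, .inr s₂.r]) : List En) =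
        (Sum.inl q.c :: (M ++ [.inl p.c])) ++ [.inr s₂.r] := by simp
    rw [e3, List.getLast?_append] at hx
    simp at hx hy
    subst hx
    subst hy
    rfl
  have hN1 : (Sum.inr s₃.r :: ((Sum.inl q.c :: (M ++ [.inl p.c])) ++ [.inr s₂.r, .inl s₂.c]) :
      List En).Nodup := (List.nodup_cons.1 (List.nodup_cons.1 hN0).2).2
  have hEq : (Sum.inr s₃.r :: ((Sum.inl q.c :: (M ++ [.inl p.c])) ++ [.inr s₂.r, .inl s₂.c]) :
      List En) = (.inr s₃.r :: .inl q.c :: (M ++ [.inl p.c, .inr s₂.r])) ++ [.inl s₂.c] := by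
    simp
  have hN2 : ((.inl s₂.c :: .inr s₃.r :: .inl q.c :: (M ++ [.inl p.c, .inr s₂.r])) :
      List En).Nodup := by
    rw [hEq] at hN1
    have := List.nodup_append_comm.1 hN1
    simpa using this
  have hW1 : WE (.inr s₃.r :: ((.inl q.c :: (M ++ [.inl p.c])) ++ [.inr s₂.r, .inl s₂.c]))
      (.inl s₂.c :: .inr s₃.r :: .inl q.c :: (M ++ [.inl p.c, .inr s₂.r])) := by
    rw [hEq]
    apply web.symm
    have h := web.rot [.inl s₂.c]
      ((Sum.inr s₃.r :: Sum.inl q.c :: (M ++ [Sum.inl p.c, Sum.inr s₂.r])) : List En)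
      (by rw [List.singleton_append]; exact hA2) (by rw [List.singleton_append]; exact hN2)
    rw [List.singleton_append] at h
    exact h
  -- removal of the column of `s₂`
  have hmem2 : ∀ x : En, x ∈ ((.inl s₂.c :: .inr s₃.r :: .inl q.c ::
        (M ++ [.inl p.c, .inr s₂.r])) : List En) →
      x ∈ ents (s₂ :: u :: s₃ :: q :: (B ++ [p])) := by
    intro x hx
    rw [hE]
    simp only [List.mem_cons, List.mem_append, List.not_mem_nil, or_false] at hx ⊢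
    tauto
  have hD2 := dc1 s₂.c s₃.r q.c p.c s₂.r M hA2 hN2
    (by
      intro c r h hb
      exact absurd (btw_symm hb) (hrow r (hmem2 _ (mk_mem h).2)))
    (by
      rcases hh with ⟨h1, h2⟩ | ⟨h1, h2⟩
      · exact Or.inl ⟨r_lt_of_h ht.symm h1, Or.inr (Or.inr ⟨c2q, h2⟩)⟩
      · exact Or.inr ⟨r_lt_of_h ht h1, Or.inr (Or.inr ⟨c2p, h2⟩)⟩)
  -- rotation of the second walk
  have hR' := (cwa.rot [⟨.L, s₂.t, s₂.h⟩] (q :: (B ++ [p])) hw').2
  have hER' : ents (q :: (B ++ [p]) ++ [⟨.L, s₂.t, s₂.h⟩]) =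
      .inl q.c :: (M ++ [.inl p.c, .inr s₂.r]) := by
    have : ents (q :: (B ++ [p]) ++ [⟨.L, s₂.t, s₂.h⟩]) =
        ents (q :: (B ++ [p])) ++ ent ⟨.L, s₂.t, s₂.h⟩ := by
      unfold ents; simp
    rw [this, hqp, eL]
    simp
  rw [hER'] at hR'
  exact web.trans _ _ _ hW0 (web.trans _ _ _ hD1 (web.trans _ _ _ hW1
    (web.trans _ _ _ hD2 (web.symm _ _ hR'))))

end RTL

theorem t_RTL : Stmt_RTL := by
  intro web cwa dc1 dr1 _ s₂ u s₃ q p B hw hw' k₂ ku k₃ ht hc hr hh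
  exact RTL.main web cwa dc1 dr1 s₂ u s₃ q p B hw hw' k₂ ku k₃ ht hc hr hh

end LH
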