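import Pool.Agent.LH.Stmts2

/-!
# Walks of polygons as periodic sequences
-/

namespace LH

open Set LG

namespace SEQ

theorem mem_cp_iff {α : Type*} (w : List α) (p q : α) :
    (p, q) ∈ cp w ↔ ∃ (i : ℕ) (h : i < w.length), w[i] = p ∧
      w[(i + 1) % w.length]'(Nat.mod_lt _ (Nat.lt_of_le_of_lt (Nat.zero_le _) h)) = q := by
  unfold cp
  constructor
  · intro h
    obtain ⟨i, hi, he⟩ := List.mem_iff_getElem.1 h
    have hi' : i < w.length := by
      simp only [List.length_zip, List.length_rotate] at hi
      omega
    refine ⟨i, hi', ?_⟩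
    rw [List.getElem_zip, List.getElem_rotate] at he
    exact Prod.mk.inj he
  · rintro ⟨i, hi, h1, h2⟩
    refine List.mem_iff_getElem.2 ⟨i, by simp [List.length_zip, hi], ?_⟩
    rw [List.getElem_zip, List.getElem_rotate, h1, h2]

variable {N : ℕ}

/-- The same item `c` periods later. -/
def shz (N : ℕ) (c : ℤ) (i : It) : It := { i with e := i.e + c * N }

theorem shz_zero (i : It) : shz N 0 i = i := by
  simp [shz]

theorem sh_eq (i : It) : i.sh N = shz N 1 i := by
  simp [shz, It.sh]

theorem sh_shz (c : ℤ) (i : It) : (shz N c i).sh N = shz N (c + 1) i := by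
  simp only [shz, It.sh, It.mk.injEq, true_and]
  ring

theorem shz_shz (c d : ℤ) (i : It) : shz N c (shz N d i) = shz N (d + c) i := by
  simp only [shz, It.mk.injEq, true_and]
  ring

variable {P : Pg N} {X : Finset ℝ}

theorem px_shift (hP : P_PGB) (i c : ℤ) : P.x (i + c * N) = P.x i := (hP.sh P i c).1

theorem ok_shz (hP : P_PGB) {i : It} (h : ItOK P i) (c : ℤ) : ItOK P (shz N c i) := by
  have h1 : P.x (i.e + c * N) = P.x i.e := px_shift hP _ _
  have h2 : P.x (i.e + c * N + 1) = P.x (i.e + 1) := by
    rw [show i.e + c * N + 1 = i.e + 1 + c * N by ring]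
    exact px_shift hP _ _
  constructor
  · intro hk
    change P.x (i.e + c * N) < i.t ∧ i.t < P.x (i.e + c * N + 1)
    rw [h1, h2]
    exact h.1 hk
  · intro hk
    change P.x (i.e + c * N + 1) < i.t ∧ i.t < P.x (i.e + c * N)
    rw [h1, h2]
    exact h.2 hk

theorem lnk_shz (hP : P_PGB) {i j : It} (h : Lnk P X i j) (c : ℤ) :
    Lnk P X (shz N c i) (shz N c j) where
  le := by
    change i.e + c * N ≤ j.e + c * N
    linarith [h.le]
  tl := by
    intro hk
    change i.e + c * N < j.e + c * N
    linarith [h.tl hk]
  adj := h.adj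
  ins := by
    intro m h1 h2
    change i.e + c * N < m at h1
    change m ≤ j.e + c * N at h2
    have h3 := h.ins (m - c * N) (by linarith) (by linarith)
    have h4 : P.x (m - c * N) = P.x m := by
      rw [← px_shift hP (m - c * N) c]
      congr 1
      ring
    rw [h4] at h3
    exact h3
  dir := h.dir

/-- Shifting by periods. -/
theorem per_z {w : List It} {W : ℤ → It} (h : Sq P X w W) (n c : ℤ) :
    W (n + c * w.length) = shz N c (W n) := by
  induction c using Int.induction_on with
  | zero => rw [zero_mul, add_zero, shz_zero]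
  | succ c ih =>
    rw [show n + ((c : ℤ) + 1) * w.length = n + c * w.length + w.length by ring, h.per, ih, sh_shz]
  | pred c ih =>
    have h1 := h.per (n + (-(c : ℤ) - 1) * w.length)
    rw [show n + (-(c : ℤ) - 1) * w.length + w.length = n + -(c : ℤ) * w.length by ring, ih] at h1
    have h2 := congrArg (shz N (-1)) h1
    rw [sh_eq, shz_shz, shz_shz] at h2
    rw [show (1 : ℤ) + -1 = 0 by ring, shz_zero] at h2
    rw [← h2]
    congr 1

theorem mod_div {w : List It} {W : ℤ → It} (h : Sq P X w W) (n : ℤ) :
    ∃ k : ℕ, ∃ hk : k < w.length, (k : ℤ) = n % w.length ∧ W n = shz N (n / w.length) w[k] := by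
  have hm : (0 : ℤ) < w.length := by exact_mod_cast h.ne
  have h1 : 0 ≤ n % w.length := Int.emod_nonneg _ hm.ne'
  have h2 : n % w.length < w.length := Int.emod_lt_of_pos _ hm
  refine ⟨(n % w.length).toNat, by omega, Int.toNat_of_nonneg h1, ?_⟩
  rw [h.get, Int.toNat_of_nonneg h1, ← per_z h]
  congr 1
  have h3 := Int.emod_add_mul_ediv n w.length
  linarith

theorem pt_shz (hP : P_PGB) (c : ℤ) (i : It) : pt P (shz N c i) = pt P i := by
  change (⟨i.k, i.t, P.l (i.e + c * N) i.t⟩ : Pt) = ⟨i.k, i.t, P.l i.e i.t⟩
  rw [(hP.sh P i.e c).2.2.2 i.t]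

theorem ex (hP : P_PGB) (w : List It) (h : EW P X w) : ∃ W, Sq P X w W := by
  obtain ⟨i, w', hw, hok, hc⟩ := h
  have hne : 0 < w.length := by rw [hw]; simp
  have hm : (0 : ℤ) < w.length := by exact_mod_cast hne
  have hget : ∀ (k : ℕ) (hk : k < w.length), w.getD k i = w[k] := fun k hk =>
    List.getD_eq_getElem w i hk
  have h0 : w[0] = i := by simp [hw]
  have hch := List.isChain_iff_getElem.1 hc
  -- the steps of the chain
  have hstep : ∀ (k : ℕ) (hk : k + 1 < w.length), Lnk P X (w[k]'(by omega)) w[k + 1] := by
    intro k hk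
    have h1 := hch k (by rw [List.length_append]; simp; omega)
    rw [List.getElem_append_left (by omega), List.getElem_append_left hk] at h1
    exact h1
  have hlast : ∀ (k : ℕ) (hk : k + 1 = w.length), Lnk P X (w[k]'(by omega)) (i.sh N) := by
    intro k hk
    have h1 := hch k (by rw [List.length_append]; simp; omega)
    rw [List.getElem_append_left (by omega), List.getElem_append_right (by omega)] at h1
    simpa using h1
  refine ⟨fun n => shz N (n / w.length) (w.getD (n % w.length).toNat i), hne, ?_, ?_, ?_, ?_⟩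
  · intro n
    have e1 : (n + (w.length : ℤ)) / w.length = n / w.length + 1 := by
      have := Int.add_mul_ediv_right n 1 hm.ne'
      rwa [one_mul] at this
    rw [Int.add_emod_right, e1, sh_shz]
  · intro n
    obtain ⟨k, hk⟩ : ∃ k : ℕ, (k : ℤ) = n % w.length :=
      ⟨(n % w.length).toNat, Int.toNat_of_nonneg (Int.emod_nonneg _ hm.ne')⟩
    have hk1 : k < w.length := by
      have := Int.emod_lt_of_pos n hm
      omega
    have hn : n = k + n / w.length * w.length := by
      have := Int.emod_add_mul_ediv n w.length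
      rw [← hk] at this
      linarith
    have e1 : (n % w.length).toNat = k := by omega
    rw [e1, hget k hk1]
    rcases Nat.lt_or_ge (k + 1) w.length with h1 | h1
    · have e2 : (n + 1) % w.length = ((k + 1 : ℕ) : ℤ) := by
        have e3 : n + 1 = ((k + 1 : ℕ) : ℤ) + n / w.length * w.length := by
          push_cast
          linarith
        rw [e3, Int.add_mul_emod_self_right]
        exact Int.emod_eq_of_lt (by omega) (by omega)
      have e4 : (n + 1) / w.length = n / w.length := by
        have e3 : n + 1 = ((k + 1 : ℕ) : ℤ) + n / w.length * w.length := by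
          push_cast
          linarith
        rw [e3, Int.add_mul_ediv_right _ _ hm.ne', Int.ediv_eq_zero_of_lt (by omega) (by omega),
          zero_add]
      rw [e2, e4, Int.toNat_natCast, hget _ h1]
      exact lnk_shz hP (hstep k h1) _
    · have h2 : k + 1 = w.length := by omega
      have e3 : n + 1 = (n / w.length + 1) * w.length := by
        have : (k : ℤ) + 1 = w.length := by exact_mod_cast h2
        linarith
      have e2 : (n + 1) % w.length = 0 := by
        rw [e3, Int.mul_emod_left]
      have e4 : (n + 1) / w.length = n / w.length + 1 := by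
        rw [e3, Int.mul_ediv_cancel _ hm.ne']
      rw [e2, e4, Int.toNat_zero, hget 0 hne, h0]
      have h3 := lnk_shz hP (hlast k h2) (n / w.length)
      rw [sh_eq, shz_shz, add_comm] at h3
      exact h3
  · intro n
    refine ok_shz hP (hok _ ?_) _
    have h1 := Int.emod_nonneg n hm.ne'
    have h2 := Int.emod_lt_of_pos n hm
    rw [hget _ (by omega : (n % w.length).toNat < w.length)]
    exact List.getElem_mem _
  · intro k hk
    rw [Int.ediv_eq_zero_of_lt (by omega) (by omega), shz_zero,
      Int.emod_eq_of_lt (by omega) (by omega), Int.toNat_natCast, hget k hk]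

theorem ew (w : List It) (W : ℤ → It) (h : Sq P X w W) : EW P X w := by
  obtain ⟨i, w', hw⟩ := List.exists_cons_of_length_pos h.ne
  have h0 : i = W 0 := by
    have h1 := h.get 0 h.ne
    rw [← Nat.cast_zero, ← h1]
    simp [hw]
  refine ⟨i, w', hw, ?_, ?_⟩
  · intro j hj
    obtain ⟨k, hk, rfl⟩ := List.mem_iff_getElem.1 hj
    rw [h.get k hk]
    exact h.ok k
  · refine List.isChain_iff_getElem.2 fun k hk => ?_
    rw [List.length_append, List.length_singleton] at hk
    have hk1 : k < w.length := by omega
    rw [List.getElem_append_left hk1, h.get k hk1]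
    rcases Nat.lt_or_ge (k + 1) w.length with h1 | h1
    · rw [List.getElem_append_left h1, h.get _ h1]
      push_cast
      exact h.lnk k
    · rw [List.getElem_append_right h1]
      have h2 : k + 1 = w.length := by omega
      have h3 : (W 0).sh N = W (k + 1) := by
        rw [← h.per, zero_add, ← h2]
        push_cast
        rfl
      simp only [List.getElem_singleton]
      rw [h0, h3]
      exact h.lnk k

theorem rot (hP : P_PGB) (i : It) (w : List It) (h : EW P X (i :: w)) :
    EW P X (w ++ [i.sh N]) := by
  obtain ⟨W, hW⟩ := ex hP _ h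
  have hlen : (w ++ [i.sh N]).length = (i :: w).length := by simp
  refine ew _ (fun n => W (n + 1)) ⟨by rw [hlen]; exact hW.ne, ?_, ?_, ?_, ?_⟩
  · intro n
    rw [hlen]
    rw [← hW.per (n + 1)]
    congr 1
    ring
  · intro n
    exact hW.lnk (n + 1)
  · intro n
    exact hW.ok (n + 1)
  · intro k hk
    rw [hlen, List.length_cons] at hk
    rcases Nat.lt_or_ge k w.length with h1 | h1
    · rw [List.getElem_append_left h1]
      have h2 := hW.get (k + 1) (by simp; omega)
      rw [List.getElem_cons_succ] at h2
      rw [h2]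
      push_cast
      rfl
    · have h2 : k = w.length := by omega
      rw [List.getElem_append_right h1]
      simp only [List.getElem_singleton]
      have h3 := hW.get 0 hW.ne
      rw [List.getElem_cons_zero, Nat.cast_zero] at h3
      rw [h3, ← hW.per, zero_add, List.length_cons, h2]
      push_cast
      rfl

theorem pt_mod (hP : P_PGB) {w : List It} {W : ℤ → It} (h : Sq P X w W) (n c : ℤ) :
    pt P (W (n + c * w.length)) = pt P (W n) := by
  rw [per_z h, pt_shz hP]

theorem cp_iff (hP : P_PGB) (w : List It) (W : ℤ → It) (h : Sq P X w W) (x : Pt × Pt) :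
    x ∈ cp (w.map (pt P)) ↔ ∃ n, x = (pt P (W n), pt P (W (n + 1))) := by
  have hm : (0 : ℤ) < w.length := by exact_mod_cast h.ne
  -- the pair at the place `k`
  have hpair : ∀ (k : ℕ) (hk : k < w.length),
      (w.map (pt P))[k]'(by simpa using hk) = pt P (W k) ∧
      (w.map (pt P))[(k + 1) % (w.map (pt P)).length]'(by
        rw [List.length_map]; exact Nat.mod_lt _ h.ne) = pt P (W ((k : ℤ) + 1)) := by
    intro k hk
    constructor
    · rw [List.getElem_map, h.get k hk]
    · rw [List.getElem_map, h.get _ (by rw [List.length_map]; exact Nat.mod_lt _ h.ne),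
        List.length_map]
      have h1 : ((k : ℤ) + 1) = (((k + 1) % w.length : ℕ) : ℤ) +
          ((k + 1) / w.length : ℤ) * w.length := by
        push_cast
        have := Int.emod_add_mul_ediv ((k : ℤ) + 1) w.length
        linarith
      conv_rhs => rw [h1]
      rw [pt_mod hP h]
  obtain ⟨a, b⟩ := x
  rw [mem_cp_iff]
  constructor
  · rintro ⟨k, hk, h1, h2⟩
    have hk' : k < w.length := by simpa using hk
    obtain ⟨h3, h4⟩ := hpair k hk'
    exact ⟨k, by rw [← h1, ← h2, h3, h4]⟩
  · rintro ⟨n, hn⟩
    obtain ⟨k, hk, hkn, -⟩ := mod_div h n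
    obtain ⟨h3, h4⟩ := hpair k hk
    have hn1 : n = (k : ℤ) + n / w.length * w.length := by
      have := Int.emod_add_mul_ediv n w.length
      rw [← hkn] at this
      linarith
    have h5 : pt P (W n) = pt P (W k) := by
      rw [hn1, pt_mod hP h]
    have h6 : pt P (W (n + 1)) = pt P (W ((k : ℤ) + 1)) := by
      rw [show n + 1 = ((k : ℤ) + 1) + n / w.length * w.length by linarith, pt_mod hP h]
    rw [h5, h6] at hn
    obtain ⟨rfl, rfl⟩ := Prod.mk.inj hn
    exact ⟨k, by simpa using hk, h3, h4⟩

end SEQ

/-- SEQ: existence, conversely, rotation, `cp`, `mem`. -/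
theorem t_SEQ : Stmt_SEQ := by
  intro hP
  refine ⟨fun P X w h => SEQ.ex hP w h, fun P X w W h => SEQ.ew w W h,
    fun P X i w h => SEQ.rot hP i w h, fun P X w W h x => SEQ.cp_iff hP w W h x, ?_⟩
  intro N P X w W h n
  obtain ⟨k, hk, -, h1⟩ := SEQ.mod_div h n
  exact ⟨w[k], List.getElem_mem hk, n / w.length, by rw [h1]; rfl, by rw [h1]; rfl,
    by rw [h1]; rfl⟩

end LH
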