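import Pool.Agent.LH.Stmts2

/-!
# SQO: order of the edges
-/

namespace LH

open Set LG

namespace SQO

variable {N : ℕ} {P : Pg N} {X : Finset ℝ} {w : List It} {W : ℤ → It}

theorem mo (h : Sq P X w W) (n n' : ℤ) (hn : n ≤ n') : (W n).e ≤ (W n').e := by
  induction n', hn using Int.le_induction with
  | base => exact le_refl _
  | succ m _ ih => exact ih.trans (h.lnk m).le

theorem notturn (h : Sq P X w W) {n n' : ℤ} (he : (W n).e = (W n').e) (m : ℤ) (h1 : n ≤ m)
    (h2 : m < n') : (W m).k = .rt ∨ (W m).k = .lt := by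
  have a1 := mo h n m h1
  have a2 := mo h (m + 1) n' (by omega)
  have a3 : ¬ ((W m).k = .R ∨ (W m).k = .L) := by
    intro hk
    have := (h.lnk m).tl hk
    omega
  revert a3
  cases (W m).k <;> simp

theorem step_rt (h : Sq P X w W) {m : ℤ} (hk : (W m).k = .rt) :
    (W (m + 1)).k.ar ∧ (W m).t < (W (m + 1)).t := by
  rcases (h.lnk m).dir with ⟨_, h2, h3⟩ | ⟨h1, _, _⟩
  · exact ⟨h2, h3⟩
  · rw [hk] at h1
    exact absurd trivial h1

theorem step_lt (h : Sq P X w W) {m : ℤ} (hk : (W m).k = .lt) :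
    ¬ (W (m + 1)).k.ar ∧ (W (m + 1)).t < (W m).t := by
  rcases (h.lnk m).dir with ⟨h1, _, _⟩ | ⟨_, h2, h3⟩
  · rw [hk] at h1
    exact h1.elim
  · exact ⟨h2, h3⟩

theorem all_rt (h : Sq P X w W) {n n' : ℤ} (he : (W n).e = (W n').e)
    (hk : (W n).k = .rt) (m : ℤ) (h1 : n ≤ m) (h2 : m < n') : (W m).k = .rt := by
  induction m, h1 using Int.le_induction with
  | base => exact hk
  | succ m hm ih =>
    have a1 := ih (by omega)
    have a2 := (step_rt h a1).1
    rcases notturn h he (m + 1) (by omega) h2 with a3 | a3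
    · exact a3
    · rw [a3] at a2
      exact a2.elim

theorem all_lt (h : Sq P X w W) {n n' : ℤ} (he : (W n).e = (W n').e)
    (hk : (W n).k = .lt) (m : ℤ) (h1 : n ≤ m) (h2 : m < n') : (W m).k = .lt := by
  induction m, h1 using Int.le_induction with
  | base => exact hk
  | succ m hm ih =>
    have a1 := ih (by omega)
    have a2 := (step_lt h a1).1
    rcases notturn h he (m + 1) (by omega) h2 with a3 | a3
    · rw [a3] at a2
      exact absurd trivial a2
    · exact a3

theorem eq (h : Sq P X w W) (n n' : ℤ) (hn : n < n') (he : (W n).e = (W n').e) :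
    (∀ m, n ≤ m → m < n' → (W m).k = .rt ∧ (W m).t < (W (m + 1)).t) ∨
      ∀ m, n ≤ m → m < n' → (W m).k = .lt ∧ (W (m + 1)).t < (W m).t := by
  rcases notturn h he n (le_refl _) hn with hk | hk
  · left
    intro m h1 h2
    have := all_rt h he hk m h1 h2
    exact ⟨this, (step_rt h this).2⟩
  · right
    intro m h1 h2
    have := all_lt h he hk m h1 h2
    exact ⟨this, (step_lt h this).2⟩

theorem mono_up {n n' : ℤ} (hn : n < n') (hs : ∀ m, n ≤ m → m < n' → (W m).t < (W (m + 1)).t) :
    (W n).t < (W n').t := by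
  have key : ∀ m, n + 1 ≤ m → m ≤ n' → (W n).t < (W m).t := by
    intro m hm
    induction m, hm using Int.le_induction with
    | base => intro h2; exact hs n (le_refl _) (by omega)
    | succ m hm ih =>
      intro h2
      exact (ih (by omega)).trans (hs m (by omega) (by omega))
  exact key n' (by omega) (le_refl _)

theorem mono_dn {n n' : ℤ} (hn : n < n') (hs : ∀ m, n ≤ m → m < n' → (W (m + 1)).t < (W m).t) :
    (W n').t < (W n).t := by
  have key : ∀ m, n + 1 ≤ m → m ≤ n' → (W m).t < (W n).t := by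
    intro m hm
    induction m, hm using Int.le_induction with
    | base => intro h2; exact hs n (le_refl _) (by omega)
    | succ m hm ih =>
      intro h2
      exact (hs m (by omega) (by omega)).trans (ih (by omega))
  exact key n' (by omega) (le_refl _)

theorem lt (h : Sq P X w W) (n n' : ℤ) (hn : n < n') (ht : (W n).t = (W n').t) :
    (W n).e < (W n').e := by
  rcases (mo h n n' hn.le).lt_or_eq with h1 | h1
  · exact h1
  · exfalso
    rcases eq h n n' hn h1 with h2 | h2
    · exact absurd ht (mono_up hn (fun m a b => (h2 m a b).2)).ne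
    · exact absurd ht (mono_dn hn (fun m a b => (h2 m a b).2)).ne'

theorem pos (h : Sq P X w W) : 0 < N := by
  have h1 := h.per 0
  have h2 := lt h 0 (0 + w.length) (by have := h.ne; omega) (by rw [h1]; rfl)
  rw [h1] at h2
  have h3 : ((W 0).sh N).e = (W 0).e + N := rfl
  rw [h3] at h2
  omega

end SQO

/-- SQO -/
theorem t_SQO : Stmt_SQO :=
  ⟨fun _ _ _ _ h => SQO.lt h, fun _ _ _ _ h => SQO.mo h, fun _ _ _ _ h => SQO.eq h,
    fun _ _ _ ⟨_, h⟩ => SQO.pos h⟩

end LH
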