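import Pool.Agent.LH.Stmts2

/-!
# STA: the dichotomy, assembly
-/

namespace LH

open Set LG

namespace STA

variable {N : ℕ}

lemma Wnat {P : Pg N} {X : Finset ℝ} {w : List It} {W : ℤ → It} (h : Sq P X w W) (n : ℤ) (k : ℕ) :
    W (n + k * w.length) = { W n with e := (W n).e + k * N } := by
  induction k with
  | zero => simp
  | succ k ih =>
    have h1 : n + ((k + 1 : ℕ) : ℤ) * w.length = (n + k * w.length) + w.length := by
      push_cast; ring
    rw [h1, h.per, ih]
    simp only [It.sh]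
    congr 1
    push_cast; ring

lemma Wint {P : Pg N} {X : Finset ℝ} {w : List It} {W : ℤ → It} (h : Sq P X w W) (n k : ℤ) :
    W (n + k * w.length) = { W n with e := (W n).e + k * N } := by
  rcases Int.eq_nat_or_neg k with ⟨m, rfl | rfl⟩
  · exact Wnat h n m
  · have h1 := Wnat h (n + (-(m : ℤ)) * w.length) m
    have h2 : n + (-(m : ℤ)) * w.length + m * w.length = n := by ring
    rw [h2] at h1
    have hk : (W n).k = (W (n + (-(m : ℤ)) * w.length)).k := by rw [h1]
    have ht : (W n).t = (W (n + (-(m : ℤ)) * w.length)).t := by rw [h1]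
    have he : (W n).e = (W (n + (-(m : ℤ)) * w.length)).e + m * N := by rw [h1]
    rcases hW : W (n + (-(m : ℤ)) * w.length) with ⟨k1, t1, e1⟩
    rw [hW] at hk ht he
    simp only at hk ht he
    show (⟨k1, t1, e1⟩ : It) = ⟨(W n).k, (W n).t, (W n).e + -(m : ℤ) * N⟩
    rw [hk, ht, he]
    congr 1
    ring

lemma Wk {P : Pg N} {X : Finset ℝ} {w : List It} {W : ℤ → It} (h : Sq P X w W) (n k : ℤ) :
    (W (n + k * w.length)).k = (W n).k := by rw [Wint h]

lemma Wt {P : Pg N} {X : Finset ℝ} {w : List It} {W : ℤ → It} (h : Sq P X w W) (n k : ℤ) :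
    (W (n + k * w.length)).t = (W n).t := by rw [Wint h]

lemma We {P : Pg N} {X : Finset ℝ} {w : List It} {W : ℤ → It} (h : Sq P X w W) (n k : ℤ) :
    (W (n + k * w.length)).e = (W n).e + k * N := by rw [Wint h]

/-- the lines are periodic along the walk -/
lemma Wl {P : Pg N} {X : Finset ℝ} {w : List It} {W : ℤ → It} (hb : P_PGB) (h : Sq P X w W)
    (n k : ℤ) (t : ℝ) : P.l (W (n + k * w.length)).e t = P.l (W n).e t := by
  rw [We h]
  exact (hb.sh P _ _).2.2.2 t

lemma KIsub {P : Pg N} {X : Finset ℝ} {w : List It} {W : ℤ → It} (hb : P_PGB) (h : Sq P X w W)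
    (a : ℝ) (n k : ℤ) : KI P W a n ⊆ KI P W a (n + k * w.length) := by
  rintro x (⟨j, hj, hlt, rfl⟩ | ⟨hk, rfl⟩)
  · refine Or.inl ⟨j + k * w.length, ?_, ?_, ?_⟩
    · rcases hj with rfl | rfl
      · left; ring
      · right; ring
    · rw [Wt h, Wt h]; exact hlt
    · rw [Wl hb h, Wt h]
  · refine Or.inr ⟨?_, ?_⟩
    · rw [Wk h]; exact hk
    · rw [Wl hb h]

lemma RIsub {P : Pg N} {X : Finset ℝ} {w : List It} {W : ℤ → It} (hb : P_PGB) (h : Sq P X w W)
    (d : ℝ) (n k : ℤ) : RI P W d n ⊆ RI P W d (n + k * w.length) := by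
  rintro x (⟨j, hj, hlt, rfl⟩ | ⟨hk, rfl⟩)
  · refine Or.inl ⟨j + k * w.length, ?_, ?_, ?_⟩
    · rcases hj with rfl | rfl
      · left; ring
      · right; ring
    · rw [Wt h, Wt h]; exact hlt
    · rw [Wl hb h, Wt h]
  · refine Or.inr ⟨?_, ?_⟩
    · rw [Wk h]; exact hk
    · rw [Wl hb h]

lemma Dsh {P : Pg N} {X : Finset ℝ} {w : List It} {W : ℤ → It} (hb : P_PGB) (h : Sq P X w W)
    (a s d : ℝ) (n n' k : ℤ) (hD : Dich P W a s d n (n' + k * w.length)) :
    Dich P W a s d n n' := by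
  intro hle
  rw [← Wl hb h n' k s] at hle
  rcases hD hle with h1 | h1
  · left
    intro x hx y hy
    exact h1 x (KIsub hb h a n' k hx) y hy
  · right
    intro x hx y hy
    exact h1 x (RIsub hb h d n' k hx) y hy

/-- a turn on the line `s` has its vertex in the cell -/
lemma turn {P : Pg N} {a b s d : ℝ} {Y : Finset ℝ} {w : List It} {W : ℤ → It}
    (hS : Sit P a b s d Y w W) (n : ℤ) (ht : (W n).t = s) (hk : (W n).k = .R ∨ (W n).k = .L) :
    a < P.x ((W n).e + 1) ∧ P.x ((W n).e + 1) < b := by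
  have hl := hS.sq.lnk n
  have he := hl.tl hk
  have hb := hl.ins ((W n).e + 1) (by omega) (by omega)
  obtain ⟨haY, hsY, has, hA⟩ := hS.l
  obtain ⟨_, hdY, hsd, hD⟩ := hS.r
  have hdb := hS.db
  have htn : (W (n + 1)).t = d ∨ (W (n + 1)).t = a := by
    rcases hl.adj with h1 | h1
    · left
      rw [ht] at h1
      obtain ⟨_, h2, h3, h4⟩ := h1
      by_contra hne
      rcases lt_or_gt_of_ne hne with h5 | h5
      · exact hD _ h2 ⟨h3, h5⟩
      · exact h4 _ hdY ⟨hsd, h5⟩
    · right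
      rw [ht] at h1
      obtain ⟨h2, _, h3, h4⟩ := h1
      by_contra hne
      rcases lt_or_gt_of_ne hne with h5 | h5
      · exact h4 _ haY ⟨h5, has⟩
      · exact hA _ h2 ⟨h5, h3⟩
  unfold Btw at hb
  rw [ht] at hb
  rcases htn with h1 | h1 <;> rw [h1] at hb <;> rcases hb with h2 | h2 <;>
    constructor <;> linarith [h2.1, h2.2]

/-- a turn on the line `s` is in a component monotone in `y` -/
lemma turnYM {P : Pg N} {a b s d : ℝ} {Y : Finset ℝ} {w : List It} {W : ℤ → It}
    (hb : P_PGB) (hc : P_CMP) (hq : P_SEQ) (hS : Sit P a b s d Y w W) (n : ℤ)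
    (ht : (W n).t = s) (hk : (W n).k = .R ∨ (W n).k = .L) (p q : ℤ) (hC : Comp P a b p q)
    (hp : p ≤ (W n).e) (hqe : (W n).e ≤ q) : YM P p q := by
  obtain ⟨i, hi, k, h1, h2, h3⟩ := hq.mem P Y w W hS.sq n
  obtain ⟨hx1, hx2⟩ := turn hS n ht hk
  have hx : P.x (i.e + 1) = P.x ((W n).e + 1) := by
    have := (hb.sh P (i.e + 1) k).1
    rw [← this, h3]
    congr 1
    ring
  rw [h1] at hk
  obtain ⟨p0, q0, hC0, h4, h5, h6⟩ := hS.yf i hi hk (by rw [hx]; exact hx1) (by rw [hx]; exact hx2)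
  have hC1 := hc.sh P a b p0 q0 k hC0
  obtain ⟨h7, h8⟩ := hc.un P a b p q (p0 + k * N) (q0 + k * N) (W n).e hC hC1 hp hqe
    (by rw [h3]; linarith) (by rw [h3]; linarith)
  subst h7 h8
  rcases h6 with h6 | h6
  · left
    intro u hu v hv huv
    have e1 := (hb.sh P (u - k * N) k).2.1
    have e2 := (hb.sh P (v - k * N) k).2.1
    rw [sub_add_cancel] at e1 e2
    rw [e1, e2]
    exact h6 ⟨by linarith [hu.1], by linarith [hu.2]⟩ ⟨by linarith [hv.1], by linarith [hv.2]⟩
      (by linarith)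
  · right
    intro u hu v hv huv
    have e1 := (hb.sh P (u - k * N) k).2.1
    have e2 := (hb.sh P (v - k * N) k).2.1
    rw [sub_add_cancel] at e1 e2
    rw [e1, e2]
    exact h6 ⟨by linarith [hu.1], by linarith [hu.2]⟩ ⟨by linarith [hv.1], by linarith [hv.2]⟩
      (by linarith)

/-- the same component -/
lemma same {P : Pg N} {a b s d : ℝ} {Y : Finset ℝ} {w : List It} {W : ℤ → It}
    (hb : P_PGB) (hc : P_CMP) (hq : P_SEQ) (hI : P_STI) (hR : P_RFL) (hS : Sit P a b s d Y w W)
    (n n' p q : ℤ) (hne : n ≠ n') (ht : (W n).t = s) (ht' : (W n').t = s) (hC : Comp P a b p q)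
    (h1 : p ≤ (W n).e) (h2 : (W n).e ≤ q) (h1' : p ≤ (W n').e) (h2' : (W n').e ≤ q) :
    Dich P W a s d n n' := by
  have hY : YM P p q → Dich P W a s d n n' := by
    rintro (hy | hy)
    · exact hI P a b s d Y w W hS n n' p q hne ht ht' hC h1 h2 h1' h2' hy
    · have hS' := (hR P a b s d Y w W).1 hS
      have hC' : Comp P.rf a b p q := ⟨hC.le, hC.ins, hC.fst, hC.lst, hC.one⟩
      have hy' : StrictMonoOn P.rf.y (Icc p q) := by
        intro u hu v hv huv
        have := hy hu hv huv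
        show -P.y u < -P.y v
        linarith
      have := hI P.rf a b s d Y w W hS' n' n p q hne.symm ht' ht hC' h1' h2' h1 h2 hy'
      exact (hR P a b s d Y w W).2 n n' this
  have hle := hC.le
  have key : ∀ m m' : ℤ, m < m' → (W m).t = s → (W m').t = s → p ≤ (W m).e → (W m').e ≤ q →
      (StrictMonoOn P.x (Icc p (q + 1)) ∨ StrictAntiOn P.x (Icc p (q + 1))) →
      ((W m).k = .rt ∨ (W m).k = .lt) → ((W m').k = .rt ∨ (W m').k = .lt) → False := by
    intro m m' hmm hm hm' hpe heq hx hk hk'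
    have hlt := hq.lt P Y w W hS.sq m m' hmm (by rw [hm, hm'])
    have o1 := hS.sq.ok m
    have o2 := hS.sq.ok m'
    unfold ItOK at o1 o2
    rw [hm] at o1
    rw [hm'] at o2
    rcases hx with hx | hx
    · have a1 : P.x (W m).e < P.x ((W m).e + 1) :=
        hx ⟨hpe, by omega⟩ ⟨by omega, by omega⟩ (by omega)
      have a2 : P.x (W m').e < P.x ((W m').e + 1) :=
        hx ⟨by omega, by omega⟩ ⟨by omega, by omega⟩ (by omega)
      have a3 : P.x ((W m).e + 1) ≤ P.x (W m').e :=
        hx.monotoneOn ⟨by omega, by omega⟩ ⟨by omega, by omega⟩ (by omega)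
      have b1 : s < P.x ((W m).e + 1) := by
        rcases hk with h | h
        · exact (o1.1 h).2
        · have := o1.2 h; linarith [this.1, this.2]
      have b2 : P.x (W m').e < s := by
        rcases hk' with h | h
        · exact (o2.1 h).1
        · have := o2.2 h; linarith [this.1, this.2]
      linarith
    · have a1 : P.x ((W m).e + 1) < P.x (W m).e :=
        hx ⟨hpe, by omega⟩ ⟨by omega, by omega⟩ (by omega)
      have a2 : P.x ((W m').e + 1) < P.x (W m').e :=
        hx ⟨by omega, by omega⟩ ⟨by omega, by omega⟩ (by omega)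
      have a3 : P.x (W m').e ≤ P.x ((W m).e + 1) :=
        hx.antitoneOn ⟨by omega, by omega⟩ ⟨by omega, by omega⟩ (by omega)
      have b1 : P.x ((W m).e + 1) < s := by
        rcases hk with h | h
        · have := o1.1 h; linarith [this.1, this.2]
        · exact (o1.2 h).1
      have b2 : s < P.x (W m').e := by
        rcases hk' with h | h
        · have := o2.1 h; linarith [this.1, this.2]
        · exact (o2.2 h).2
      linarith
  by_cases hkn : (W n).k = .R ∨ (W n).k = .L
  · exact hY (turnYM hb hc hq hS n ht hkn p q hC h1 h2)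
  by_cases hkn' : (W n').k = .R ∨ (W n').k = .L
  · exact hY (turnYM hb hc hq hS n' ht' hkn' p q hC h1' h2')
  have hk1 : (W n).k = .rt ∨ (W n).k = .lt := by
    rcases h : (W n).k with _ | _ | _ | _ <;> simp [h] at hkn ⊢
  have hk2 : (W n').k = .rt ∨ (W n').k = .lt := by
    rcases h : (W n').k with _ | _ | _ | _ <;> simp [h] at hkn' ⊢
  rcases hS.gd.ty p q hC with hx | hy
  · exfalso
    rcases lt_or_gt_of_ne hne with h | h
    · exact key n n' h ht ht' h1 h2' hx hk1 hk2
    · exact key n' n h ht' ht h1' h2 hx hk2 hk1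
  · exact hY hy

end STA

theorem t_STA : Stmt_STA := by
  intro hb hc hq hM hD hI hR N P a b s d Y w W hS n n' ht ht' hne
  obtain ⟨p, q, hC, h1, h2, _⟩ := hM P a b s d Y w W hS n ht
  obtain ⟨p', q', hC', h1', h2', _⟩ := hM P a b s d Y w W hS n' ht'
  by_cases hk : ∃ k : ℤ, p' = p + k * N
  · obtain ⟨k, hk⟩ := hk
    have hC2 := hc.sh P a b p q k hC
    have hq' : q' = q + k * N := by
      have l1 := hC'.le
      have l2 := hC2.le
      exact (hc.un P a b p' q' (p + k * N) (q + k * N) p' hC' hC2 le_rfl l1 (by rw [hk])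
        (by rw [hk]; exact l2)).2
    apply STA.Dsh hb hS.sq a s d n n' (-k)
    refine STA.same hb hc hq hI hR hS n (n' + (-k) * w.length) p q ?_ ht ?_ hC h1 h2 ?_ ?_
    · intro h
      exact hne ⟨k, by rw [h]; ring⟩
    · rw [STA.Wt hS.sq]; exact ht'
    · rw [STA.We hS.sq]; rw [hk] at h1'; linarith
    · rw [STA.We hS.sq]; rw [hq'] at h2'; linarith
  · exact hD P a b s d Y w W hS n n' p q p' q' ht ht' hC h1 h2 hC' h1' h2' hk

end LH
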