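import Pool.Agent.LH.Stmts2

/-!
# STD: the dichotomy for items of different components
-/

namespace LH

open Set LG

namespace STD

/-- Minimum and maximum of the slopes of a component. -/
theorem bnd {N : ℕ} (P : Pg N) (p q : ℤ) (hpq : p ≤ q) :
    ∃ i ∈ Icc p q, ∃ j ∈ Icc p q, ∀ k, p ≤ k → k ≤ q → P.y i ≤ P.y k ∧ P.y k ≤ P.y j := by
  have hne : (Finset.Icc p q).Nonempty := ⟨p, Finset.mem_Icc.mpr ⟨le_refl p, hpq⟩⟩
  obtain ⟨i, hi, hi'⟩ := Finset.exists_min_image (Finset.Icc p q) P.y hne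
  obtain ⟨j, hj, hj'⟩ := Finset.exists_max_image (Finset.Icc p q) P.y hne
  exact ⟨i, Finset.mem_Icc.mp hi, j, Finset.mem_Icc.mp hj, fun k h1 h2 =>
    ⟨hi' k (Finset.mem_Icc.mpr ⟨h1, h2⟩), hj' k (Finset.mem_Icc.mpr ⟨h1, h2⟩)⟩⟩

end STD

open STD in
theorem t_STD : Stmt_STD := by
  intro hG hC hS hI N P a b s d Y w W hsit n n' p q p' q' hn hn' hc hp hq hc' hp' hq' hne hle
  have hN : 0 < N := hS.pos P Y w (hS.ew P Y w W hsit.sq)
  obtain ⟨p1, q1, hc1, hp1, hq1, hK, hR, hB⟩ := hI P a b s d Y w W hsit n hn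
  obtain ⟨rfl, rfl⟩ := hC.un P a b p1 q1 p q (W n).e hc1 hc hp1 hq1 hp hq
  obtain ⟨p2, q2, hc2, hp2, hq2, hK', hR', hB'⟩ := hI P a b s d Y w W hsit n' hn'
  obtain ⟨rfl, rfl⟩ := hC.un P a b p2 q2 p' q' (W n').e hc2 hc' hp2 hq2 hp' hq'
  have has : a < s := hsit.l.2.2.1
  have hsd : s < d := hsit.r.2.2.1
  have hdb : d ≤ b := hsit.db
  rcases hC.sep P a b p1 q1 p2 q2 hN hsit.gd hc hc' with ⟨k, hk, _⟩ | ⟨hA, hB2⟩
  · exact absurd ⟨k, hk⟩ hne
  rcases hA with hA | hA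
  · left
    intro x hx y hy
    obtain ⟨e', he1, he2, rfl⟩ := hK' x hx
    obtain ⟨e, he3, he4, rfl⟩ := hK y hy
    exact hA e ⟨he3, he4⟩ e' ⟨he1, he2⟩
  rcases hB2 with hB2 | hB2
  · right
    intro x hx y hy
    obtain ⟨i0, _, i, hi, hiM⟩ := bnd P p1 q1 hc.le
    obtain ⟨j, hj, j0, _, hjm⟩ := bnd P p2 q2 hc'.le
    have h1 := (hB y hy (P.y i0) (P.y i) hiM).2
    have h2 := (hB' x hx (P.y j) (P.y j0) hjm).1
    have h3 := hA i hi j hj
    have h4 := hB2 i hi j hj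
    have h5 := hG.dt P i a b
    have h6 := hG.dt P j a b
    have h7 : 0 < (P.y j - P.y i) * (b - a) := by
      have h8 : (P.y j - P.y i) * (b - a) = P.y j * (b - a) - P.y i * (b - a) := by ring
      rw [h8, ← h5, ← h6]
      linarith
    have h9 : 0 < b - a := by linarith
    have h10 : 0 < P.y j - P.y i := by
      by_contra h11
      have h12 : P.y j - P.y i ≤ 0 := not_lt.mp h11
      have h13 := mul_nonpos_of_nonpos_of_nonneg h12 h9.le
      linarith
    have h14 : 0 < (P.y j - P.y i) * (d - s) := mul_pos h10 (by linarith)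
    have h15 : (P.y j - P.y i) * (d - s) = P.y j * (d - s) - P.y i * (d - s) := by ring
    rw [h15] at h14
    linarith
  · exfalso
    have h3 := hA (W n).e ⟨hp, hq⟩ (W n').e ⟨hp', hq'⟩
    have h4 := hB2 (W n).e ⟨hp, hq⟩ (W n').e ⟨hp', hq'⟩
    have h5 := hG.dt P (W n).e a s
    have h6 := hG.dt P (W n').e a s
    have h7 := hG.dt P (W n).e s b
    have h8 := hG.dt P (W n').e s b
    have h9 : 0 < s - a := by linarith
    have h10 : 0 < b - s := by linarith
    rcases le_total (P.y (W n').e) (P.y (W n).e) with h11 | h11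
    · have h12 : P.y (W n').e * (s - a) ≤ P.y (W n).e * (s - a) :=
        mul_le_mul_of_nonneg_right h11 h9.le
      linarith
    · have h12 : P.y (W n).e * (b - s) ≤ P.y (W n').e * (b - s) :=
        mul_le_mul_of_nonneg_right h11 h10.le
      linarith

end LH
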