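import Pool.Agent.LH.Stmts2

/-!
# STI: the dichotomy for two items of the same component, increasing in `y`
-/

set_option autoImplicit false

namespace LH

open Set LG

namespace STI

theorem adj_right {Y : Finset ℝ} {s d t : ℝ} (h : AdjX Y s d) (h' : AdjX Y s t) : t = d := by
  obtain ⟨_, hd, hsd, h1⟩ := h
  obtain ⟨_, ht, hst, h2⟩ := h'
  rcases lt_trichotomy t d with h3 | h3 | h3
  · exact absurd ⟨hst, h3⟩ (h1 t ht)
  · exact h3
  · exact absurd ⟨hsd, h3⟩ (h2 d hd)

theorem adj_left {Y : Finset ℝ} {a s t : ℝ} (h : AdjX Y a s) (h' : AdjX Y t s) : t = a := by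
  obtain ⟨ha, _, hsd, h1⟩ := h
  obtain ⟨ht, _, hst, h2⟩ := h'
  rcases lt_trichotomy t a with h3 | h3 | h3
  · exact absurd ⟨h3, hsd⟩ (h2 a ha)
  · exact h3
  · exact absurd ⟨h3, hst⟩ (h1 t ht)

theorem chain_lt (f : ℤ → ℝ) (i j : ℤ) (hij : i < j) (h : ∀ m, i ≤ m → m < j → f m < f (m + 1)) :
    f i < f j := by
  have key : ∀ k : ℤ, i + 1 ≤ k → k ≤ j → f i < f k := by
    intro k hk
    induction k, hk using Int.leInduction with
    | base => intro _; exact h i le_rfl hij
    | succ k hk ih =>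
      intro hkj
      exact (ih (by omega)).trans (h k (by omega) (by omega))
  exact key j (by omega) le_rfl

theorem chain_gt (f : ℤ → ℝ) (i j : ℤ) (hij : i < j) (h : ∀ m, i ≤ m → m < j → f (m + 1) < f m) :
    f j < f i := by
  have := chain_lt (fun k => - f k) i j hij (fun m h1 h2 => by
    have := h m h1 h2
    linarith)
  linarith

variable {N : ℕ} {P : Pg N} {a b s d : ℝ} {Y : Finset ℝ} {w : List It} {W : ℤ → It}

theorem lnk' (S : Sit P a b s d Y w W) (n : ℤ) : Lnk P Y (W (n - 1)) (W n) := by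
  have h := S.sq.lnk (n - 1)
  rwa [sub_add_cancel] at h

theorem las (S : Sit P a b s d Y w W) : a < s := S.l.2.2.1
theorem sd (S : Sit P a b s d Y w W) : s < d := S.r.2.2.1

/-- the next item -/
theorem nx (S : Sit P a b s d Y w W) (n : ℤ) (hn : (W n).t = s) :
    (W (n + 1)).t = d ∧ (W n).k.fw ∧ (W (n + 1)).k.ar ∧
        (∀ m, (W n).e < m → m ≤ (W (n + 1)).e → s < P.x m ∧ P.x m < d) ∨
      (W (n + 1)).t = a ∧ ¬ (W n).k.fw ∧ ¬ (W (n + 1)).k.ar ∧
        ∀ m, (W n).e < m → m ≤ (W (n + 1)).e → a < P.x m ∧ P.x m < s := by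
  have h := S.sq.lnk n
  have h1 := las S
  have h2 := sd S
  rcases h.dir with ⟨h3, h4, h5⟩ | ⟨h3, h4, h5⟩
  · left
    have h6 : (W (n + 1)).t = d := by
      rcases h.adj with h6 | h6
      · rw [hn] at h6; exact adj_right S.r h6
      · exact absurd h6.2.2.1 (not_lt.mpr h5.le)
    refine ⟨h6, h3, h4, fun m hm1 hm2 => ?_⟩
    rcases h.ins m hm1 hm2 with h7 | h7
    · rw [hn, h6] at h7; exact h7
    · rw [hn, h6] at h7; exfalso; linarith [h7.1, h7.2]
  · right
    have h6 : (W (n + 1)).t = a := by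
      rcases h.adj with h6 | h6
      · exact absurd h6.2.2.1 (not_lt.mpr h5.le)
      · rw [hn] at h6; exact adj_left S.l h6
    refine ⟨h6, h3, h4, fun m hm1 hm2 => ?_⟩
    rcases h.ins m hm1 hm2 with h7 | h7
    · rw [hn, h6] at h7; exfalso; linarith [h7.1, h7.2]
    · rw [hn, h6] at h7; exact h7

/-- the previous item -/
theorem pv (S : Sit P a b s d Y w W) (n : ℤ) (hn : (W n).t = s) :
    (W (n - 1)).t = d ∧ ¬ (W n).k.ar ∧
        (∀ m, (W (n - 1)).e < m → m ≤ (W n).e → s < P.x m ∧ P.x m < d) ∨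
      (W (n - 1)).t = a ∧ (W n).k.ar ∧
        ∀ m, (W (n - 1)).e < m → m ≤ (W n).e → a < P.x m ∧ P.x m < s := by
  have h := lnk' S n
  have h1 := las S
  have h2 := sd S
  rcases h.dir with ⟨h3, h4, h5⟩ | ⟨h3, h4, h5⟩
  · right
    have h6 : (W (n - 1)).t = a := by
      rcases h.adj with h6 | h6
      · rw [hn] at h6; exact adj_left S.l h6
      · exact absurd h6.2.2.1 (not_lt.mpr h5.le)
    refine ⟨h6, h4, fun m hm1 hm2 => ?_⟩
    rcases h.ins m hm1 hm2 with h7 | h7
    · rw [hn, h6] at h7; exact h7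
    · rw [hn, h6] at h7; exfalso; linarith [h7.1, h7.2]
  · left
    have h6 : (W (n - 1)).t = d := by
      rcases h.adj with h6 | h6
      · exact absurd h6.2.2.1 (not_lt.mpr h5.le)
      · rw [hn] at h6; exact adj_right S.r h6
    refine ⟨h6, h4, fun m hm1 hm2 => ?_⟩
    rcases h.ins m hm1 hm2 with h7 | h7
    · rw [hn, h6] at h7; exfalso; linarith [h7.1, h7.2]
    · rw [hn, h6] at h7; exact h7

theorem nx_in (S : Sit P a b s d Y w W) (n p q : ℤ) (hn : (W n).t = s) (hC : Comp P a b p q)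
    (h2 : (W n).e ≤ q) : (W (n + 1)).e ≤ q := by
  by_contra hcon
  push Not at hcon
  have h3 := las S
  have h4 := sd S
  have h5 := S.db
  have h6 : a < P.x (q + 1) ∧ P.x (q + 1) < b := by
    rcases nx S n hn with ⟨_, _, _, h⟩ | ⟨_, _, _, h⟩
    · obtain ⟨h7, h8⟩ := h (q + 1) (by omega) (by omega)
      exact ⟨by linarith, by linarith⟩
    · obtain ⟨h7, h8⟩ := h (q + 1) (by omega) (by omega)
      exact ⟨by linarith, by linarith⟩
  rcases hC.lst with h | h
  · linarith [h6.1]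
  · linarith [h6.2]

theorem pv_in (S : Sit P a b s d Y w W) (n p q : ℤ) (hn : (W n).t = s) (hC : Comp P a b p q)
    (h1 : p ≤ (W n).e) : p ≤ (W (n - 1)).e := by
  by_contra hcon
  push Not at hcon
  have h3 := las S
  have h4 := sd S
  have h5 := S.db
  have h6 : a < P.x p ∧ P.x p < b := by
    rcases pv S n hn with ⟨_, _, h⟩ | ⟨_, _, h⟩
    · obtain ⟨h7, h8⟩ := h p (by omega) (by omega)
      exact ⟨by linarith, by linarith⟩
    · obtain ⟨h7, h8⟩ := h p (by omega) (by omega)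
      exact ⟨by linarith, by linarith⟩
  rcases hC.fst with h | h
  · linarith [h6.1]
  · linarith [h6.2]

theorem mle (hseq : P_SEQ) (S : Sit P a b s d Y w W) (n n' : ℤ) (h : n ≤ n') :
    (W n).e ≤ (W n').e := hseq.mo P Y w W S.sq n n' h

/-- bounds for the heights on the right side -/
theorem ri_bd (hpgb : P_PGB) (hinc : P_INC) (hseq : P_SEQ) (S : Sit P a b s d Y w W) (n p q : ℤ)
    (hn : (W n).t = s) (hC : Comp P a b p q) (h1 : p ≤ (W n).e) (h2 : (W n).e ≤ q)
    (hy : StrictMonoOn P.y (Icc p q)) (h : ℝ) (hh : h ∈ RI P W d n) :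
    ∃ j, (j = n - 1 ∧ (W j).t = d ∨ j = n ∧ (W n).k = .R ∨ j = n + 1 ∧ (W j).t = d) ∧
      h - P.l (W n).e s ≤ P.y (W (max j n)).e * (d - s) ∧
      P.y (W (min j n)).e * (d - s) ≤ h - P.l (W n).e s := by
  have has := las S
  have hsd := sd S
  rcases hh with ⟨j, hj | hj, hj2, hj3⟩ | ⟨hk, hh⟩
  · subst hj
    rcases pv S n hn with ⟨h6, h7, h8⟩ | ⟨h6, h7, h8⟩
    · refine ⟨n - 1, Or.inl ⟨rfl, h6⟩, ?_⟩
      rw [max_eq_right (by omega), min_eq_left (by omega)]
      have h9 := pv_in S n p q hn hC h1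
      have h10 := mle hseq S (n - 1) n (by omega)
      have h11 := hinc.l P (W (n - 1)).e (W n).e s d (P.y (W (n - 1)).e) (P.y (W n).e) h10 hsd
        h8 (fun k hk1 hk2 => ⟨hy.monotoneOn ⟨h9, by omega⟩ ⟨by omega, by omega⟩ hk1,
          hy.monotoneOn ⟨by omega, by omega⟩ ⟨h1, h2⟩ hk2⟩)
        (Or.inl (Or.inl (hy.mono (Icc_subset_Icc h9 h2))))
      rw [hj3, h6]
      exact ⟨h11.2, h11.1⟩
    · exfalso; rw [hn, h6] at hj2; linarith
  · subst hj
    rcases nx S n hn with ⟨h6, h7, h7', h8⟩ | ⟨h6, h7, h7', h8⟩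
    · refine ⟨n + 1, Or.inr (Or.inr ⟨rfl, h6⟩), ?_⟩
      rw [max_eq_left (by omega), min_eq_right (by omega)]
      have h9 := nx_in S n p q hn hC h2
      have h10 := mle hseq S n (n + 1) (by omega)
      have h11 := hinc.r P (W n).e (W (n + 1)).e s d (P.y (W n).e) (P.y (W (n + 1)).e) h10 hsd
        h8 (fun k hk1 hk2 => ⟨hy.monotoneOn ⟨h1, h2⟩ ⟨by omega, by omega⟩ hk1,
          hy.monotoneOn ⟨by omega, by omega⟩ ⟨by omega, h9⟩ hk2⟩)
        (Or.inl (Or.inl (hy.mono (Icc_subset_Icc h1 h9))))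
      rw [hj3, h6]
      exact ⟨h11.2, h11.1⟩
    · exfalso; rw [hn, h6] at hj2; linarith
  · refine ⟨n, Or.inr (Or.inl ⟨rfl, hk⟩), ?_⟩
    rw [max_self, min_self, hh, hpgb.dt]
    exact ⟨le_rfl, le_rfl⟩

/-- membership in the component -/
theorem mem_comp (hseq : P_SEQ) (S : Sit P a b s d Y w W) (n p q : ℤ)
    (hn : (W n).t = s) (hC : Comp P a b p q) (h1 : p ≤ (W n).e) (h2 : (W n).e ≤ q) (j : ℤ)
    (hj : j = n - 1 ∨ j = n ∨ j = n + 1) : p ≤ (W j).e ∧ (W j).e ≤ q := by
  rcases hj with rfl | rfl | rfl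
  · exact ⟨pv_in S n p q hn hC h1, (mle hseq S (n - 1) n (by omega)).trans h2⟩
  · exact ⟨h1, h2⟩
  · exact ⟨h1.trans (mle hseq S n (n + 1) (by omega)), nx_in S n p q hn hC h2⟩

theorem not_adj (S : Sit P a b s d Y w W) (n n' : ℤ) (hn : (W n).t = s) (hn' : (W n').t = s)
    (h : n < n') : n + 2 ≤ n' := by
  by_contra hcon
  have h1 : n' = n + 1 := by omega
  subst h1
  have has := las S
  have hsd := sd S
  rcases nx S n hn with ⟨h2, _⟩ | ⟨h2, _⟩
  · rw [hn'] at h2; linarith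
  · rw [hn'] at h2; linarith

theorem partA (hpgb : P_PGB) (hinc : P_INC) (hseq : P_SEQ) (S : Sit P a b s d Y w W)
    (n n' p q : ℤ) (hnn : n < n') (hn : (W n).t = s) (hn' : (W n').t = s) (hC : Comp P a b p q)
    (h1 : p ≤ (W n).e) (h2 : (W n).e ≤ q) (h1' : p ≤ (W n').e) (h2' : (W n').e ≤ q)
    (hy : StrictMonoOn P.y (Icc p q)) (hl : P.l (W n).e s ≤ P.l (W n').e s) :
    ∀ x ∈ RI P W d n', ∀ y ∈ RI P W d n, y < x := by
  intro x hx y hy'
  have has := las S
  have hsd := sd S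
  have h22 := not_adj S n n' hn hn' hnn
  obtain ⟨j, hj, hj1, _⟩ := ri_bd hpgb hinc hseq S n p q hn hC h1 h2 hy y hy'
  obtain ⟨j', hj', _, hj1'⟩ := ri_bd hpgb hinc hseq S n' p q hn' hC h1' h2' hy x hx
  have hα : p ≤ (W (max j n)).e ∧ (W (max j n)).e ≤ q :=
    mem_comp hseq S n p q hn hC h1 h2 _ (by
      rcases hj with ⟨h, _⟩ | ⟨h, _⟩ | ⟨h, _⟩
      · right; left; rw [h]; exact max_eq_right (by omega)
      · right; left; rw [h]; exact max_self _
      · right; right; rw [h]; exact max_eq_left (by omega))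
  have hβ : p ≤ (W (min j' n')).e ∧ (W (min j' n')).e ≤ q :=
    mem_comp hseq S n' p q hn' hC h1' h2' _ (by
      rcases hj' with ⟨h, _⟩ | ⟨h, _⟩ | ⟨h, _⟩
      · left; rw [h]; exact min_eq_left (by omega)
      · right; left; rw [h]; exact min_self _
      · right; left; rw [h]; exact min_eq_right (by omega))
  have key : (W (max j n)).e < (W (min j' n')).e := by
    -- the positions of `alpha` and `beta`
    have hA : (max j n = n + 1 ∧ (W (n + 1)).t = d) ∨
        (max j n = n ∧ ((W n).k = .R ∨ (W (n - 1)).t = d)) := by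
      rcases hj with ⟨h, h'⟩ | ⟨h, h'⟩ | ⟨h, h'⟩
      · right; rw [h] at h' ⊢; exact ⟨max_eq_right (by omega), Or.inr h'⟩
      · right; rw [h]; exact ⟨max_self _, Or.inl h'⟩
      · left; rw [h] at h' ⊢; exact ⟨max_eq_left (by omega), h'⟩
    have hB : (min j' n' = n' - 1 ∧ (W (n' - 1)).t = d) ∨ min j' n' = n' := by
      rcases hj' with ⟨h, h'⟩ | ⟨h, h'⟩ | ⟨h, h'⟩
      · left; rw [h] at h' ⊢; exact ⟨min_eq_left (by omega), h'⟩
      · right; rw [h]; exact min_self _
      · right; rw [h]; exact min_eq_right (by omega)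
    set α := max j n with hαd
    set β := min j' n' with hβd
    have hBt : (W β).t = d ∨ (W β).t = s := by
      rcases hB with ⟨h, h'⟩ | h
      · left; rw [h]; exact h'
      · right; rw [h]; exact hn'
    have hαβ : α ≤ β := by
      rcases hA with ⟨h, _⟩ | ⟨h, _⟩ <;> rcases hB with ⟨h', _⟩ | h' <;> rw [h, h'] <;> omega
    rcases eq_or_lt_of_le hαβ with heq | hlt
    · -- a common right neighbour
      exfalso
      have h3 : α = n + 1 ∧ (W (n + 1)).t = d ∧ n' = n + 2 := by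
        rcases hA with ⟨h, h'⟩ | ⟨h, _⟩ <;> rcases hB with ⟨h'', _⟩ | h''
        · exact ⟨h, h', by omega⟩
        · omega
        · omega
        · omega
      obtain ⟨_, h4, h5⟩ := h3
      have h6 : ∀ m, (W n).e < m → m ≤ (W n').e → s < P.x m := by
        intro m hm1 hm2
        by_cases hm : m ≤ (W (n + 1)).e
        · rcases nx S n hn with ⟨_, _, _, h⟩ | ⟨h, _⟩
          · exact (h m hm1 hm).1
          · rw [h4] at h; linarith
        · push Not at hm
          have h7 : n' - 1 = n + 1 := by omega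
          rcases pv S n' hn' with ⟨_, _, h⟩ | ⟨h, _⟩
          · exact (h m (by rw [h7]; exact hm) hm2).1
          · rw [h7, h4] at h; linarith
      have h7 := hseq.lt P Y w W S.sq n n' hnn (by rw [hn, hn'])
      have h8 := hpgb.m2 P (W n).e (W n').e s h7 (hy.mono (Icc_subset_Icc h1 h2')) h6
      linarith
    · rcases lt_or_eq_of_le (mle hseq S α β hαβ) with h3 | h3
      · exact h3
      exfalso
      rcases hseq.eq P Y w W S.sq α β hlt h3 with h4 | h4
      · have h5 := chain_lt (fun m => (W m).t) α β hlt (fun m hm1 hm2 => (h4 m hm1 hm2).2)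
        rcases hA with ⟨h, h'⟩ | ⟨h, h'⟩
        · rw [h, h'] at h5
          rcases hBt with h6 | h6 <;> rw [h6] at h5 <;> linarith
        · have h6 := (h4 α le_rfl hlt).1
          rw [h] at h6
          rcases h' with h' | h'
          · rw [h'] at h6; exact Kd.noConfusion h6
          · rcases pv S n hn with ⟨_, h7, _⟩ | ⟨h7, _⟩
            · rw [h6] at h7; exact h7 trivial
            · rw [h7] at h'; linarith
      · have h5 := chain_gt (fun m => (W m).t) α β hlt (fun m hm1 hm2 => (h4 m hm1 hm2).2)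
        have h6 := (h4 α le_rfl hlt).1
        rcases hA with ⟨h, h'⟩ | ⟨h, h'⟩
        · rw [h] at h6
          rcases nx S n hn with ⟨_, _, h7, _⟩ | ⟨h7, _⟩
          · rw [h6] at h7; exact h7
          · rw [h7] at h'; linarith
        · rw [h, hn] at h5
          rcases hBt with h7 | h7 <;> rw [h7] at h5 <;> linarith
  have h10 : P.y (W (max j n)).e < P.y (W (min j' n')).e := hy hα hβ key
  have h11 : P.y (W (max j n)).e * (d - s) < P.y (W (min j' n')).e * (d - s) :=
    mul_lt_mul_of_pos_right h10 (by linarith)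
  linarith

/-- the heights on the left side -/
theorem ki_bd (S : Sit P a b s d Y w W) (n : ℤ)
    (hn : (W n).t = s) (h : ℝ) (hh : h ∈ KI P W a n) :
    ∃ j, (j = n - 1 ∧ (W j).t = a ∨ j = n ∧ (W n).k = .L ∨ j = n + 1 ∧ (W j).t = a) ∧
      h = P.l (W j).e a := by
  have has := las S
  have hsd := sd S
  rcases hh with ⟨j, hj | hj, hj2, hj3⟩ | ⟨hk, hh⟩
  · subst hj
    rcases pv S n hn with ⟨h6, _⟩ | ⟨h6, _⟩
    · exfalso; rw [hn, h6] at hj2; linarith
    · exact ⟨n - 1, Or.inl ⟨rfl, h6⟩, by rw [hj3, h6]⟩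
  · subst hj
    rcases nx S n hn with ⟨h6, _⟩ | ⟨h6, _⟩
    · exfalso; rw [hn, h6] at hj2; linarith
    · exact ⟨n + 1, Or.inr (Or.inr ⟨rfl, h6⟩), by rw [hj3, h6]⟩
  · exact ⟨n, Or.inr (Or.inl ⟨rfl, hk⟩), hh⟩

theorem partB (hpgb : P_PGB) (hseq : P_SEQ) (S : Sit P a b s d Y w W)
    (n n' p q : ℤ) (hnn : n < n') (hn : (W n).t = s) (hn' : (W n').t = s) (hC : Comp P a b p q)
    (h1 : p ≤ (W n).e) (h2 : (W n).e ≤ q) (h1' : p ≤ (W n').e) (h2' : (W n').e ≤ q)
    (hy : StrictMonoOn P.y (Icc p q)) (hl : P.l (W n').e s ≤ P.l (W n).e s) :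
    ∀ x ∈ KI P W a n, ∀ y ∈ KI P W a n', y < x := by
  intro x hx y hy'
  have has := las S
  have hsd := sd S
  have h22 := not_adj S n n' hn hn' hnn
  obtain ⟨α, hj, hj1⟩ := ki_bd S n hn x hx
  obtain ⟨β, hj', hj1'⟩ := ki_bd S n' hn' y hy'
  have hα : p ≤ (W α).e ∧ (W α).e ≤ q :=
    mem_comp hseq S n p q hn hC h1 h2 _ (by
      rcases hj with ⟨h, _⟩ | ⟨h, _⟩ | ⟨h, _⟩
      · left; exact h
      · right; left; exact h
      · right; right; exact h)
  have hβ : p ≤ (W β).e ∧ (W β).e ≤ q :=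
    mem_comp hseq S n' p q hn' hC h1' h2' _ (by
      rcases hj' with ⟨h, _⟩ | ⟨h, _⟩ | ⟨h, _⟩
      · left; exact h
      · right; left; exact h
      · right; right; exact h)
  have hαβ : α ≤ β := by
    rcases hj with ⟨h, _⟩ | ⟨h, _⟩ | ⟨h, _⟩ <;> rcases hj' with ⟨h', _⟩ | ⟨h', _⟩ | ⟨h', _⟩ <;> omega
  have key : (W α).e < (W β).e := by
    rcases eq_or_lt_of_le hαβ with heq | hlt
    · -- a common left neighbour
      exfalso
      have h3 : α = n + 1 ∧ (W (n + 1)).t = a ∧ n' = n + 2 := by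
        rcases hj with ⟨h, _⟩ | ⟨h, _⟩ | ⟨h, hh⟩ <;>
          rcases hj' with ⟨h', _⟩ | ⟨h', _⟩ | ⟨h', _⟩
        · omega
        · omega
        · omega
        · omega
        · omega
        · omega
        · rw [h] at hh; exact ⟨h, hh, by omega⟩
        · omega
        · omega
      obtain ⟨_, h4, h5⟩ := h3
      have h6 : ∀ m, (W n).e < m → m ≤ (W n').e → P.x m < s := by
        intro m hm1 hm2
        by_cases hm : m ≤ (W (n + 1)).e
        · rcases nx S n hn with ⟨h, _⟩ | ⟨_, _, _, h⟩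
          · rw [h4] at h; linarith
          · exact (h m hm1 hm).2
        · push Not at hm
          have h7 : n' - 1 = n + 1 := by omega
          rcases pv S n' hn' with ⟨h, _⟩ | ⟨_, _, h⟩
          · rw [h7, h4] at h; linarith
          · exact (h m (by rw [h7]; exact hm) hm2).2
      have h7 := hseq.lt P Y w W S.sq n n' hnn (by rw [hn, hn'])
      have h8 := hpgb.m1 P (W n).e (W n').e s h7 (hy.mono (Icc_subset_Icc h1 h2')) h6
      linarith
    · rcases lt_or_eq_of_le (mle hseq S α β hαβ) with h3 | h3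
      · exact h3
      exfalso
      -- `alpha` is on the line `a`
      have hαa : (W α).t = a := by
        rcases hj with ⟨h, h'⟩ | ⟨h, h'⟩ | ⟨h, h'⟩
        · exact h'
        · exfalso
          rcases hseq.eq P Y w W S.sq α β hlt h3 with h4 | h4
          · have h6 := (h4 α le_rfl hlt).1
            rw [h, h'] at h6; exact Kd.noConfusion h6
          · have h6 := (h4 α le_rfl hlt).1
            rw [h, h'] at h6; exact Kd.noConfusion h6
        · exact h'
      have hβ' : β = n' ∧ (W n').k = .L := by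
        rcases hj' with ⟨h, h'⟩ | ⟨h, h'⟩ | ⟨h, h'⟩
        · exact absurd (hseq.lt P Y w W S.sq α β hlt (by rw [hαa, h'])) (by omega)
        · exact ⟨h, h'⟩
        · exact absurd (hseq.lt P Y w W S.sq α β hlt (by rw [hαa, h'])) (by omega)
      obtain ⟨h4, h5⟩ := hβ'
      rcases hseq.eq P Y w W S.sq α β hlt h3 with h6 | h6
      · have h7 := (h6 (n' - 1) (by omega) (by omega)).2
        rw [sub_add_cancel, hn'] at h7
        rcases pv S n' hn' with ⟨h8, _⟩ | ⟨_, h8, _⟩
        · rw [h8] at h7; linarith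
        · rw [h5] at h8; exact h8
      · have h7 := chain_gt (fun m => (W m).t) α β hlt (fun m hm1 hm2 => (h6 m hm1 hm2).2)
        rw [hαa, h4, hn'] at h7
        linarith
  have h10 := hpgb.m2 P (W α).e (W β).e a key (hy.mono (Icc_subset_Icc hα.1 hβ.2))
    (fun m hm1 hm2 => (hC.ins m (by omega) (by omega)).1)
  rw [hj1, hj1']
  exact h10

end STI

theorem t_STI : Stmt_STI := by
  intro hpgb hinc _ hseq N P a b s d Y w W S n n' p q hne hn hn' hC h1 h2 h1' h2' hy hl
  rcases lt_or_gt_of_ne hne with h | h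
  · right
    exact STI.partA hpgb hinc hseq S n n' p q h hn hn' hC h1 h2 h1' h2' hy hl
  · left
    exact STI.partB hpgb hseq S n' n p q h hn' hn hC h1' h2' h1 h2 hy hl

end LH
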