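import Pool.Agent.LH.Stmts2

/-! Module LH_TEX: good sets of lines with small mesh. -/

open Set LG

namespace LH

theorem TEX.pick (E : Set ℝ) (hE : E.Finite) (a b : ℝ) (hab : a < b) :
    ∃ s, a < s ∧ s < b ∧ s ∉ E := by
  obtain ⟨s, hs, hsE⟩ := (Set.Ioo_infinite hab).exists_notMem_finite hE
  exact ⟨s, hs.1, hs.2, hsE⟩

theorem TEX.mesh (E : Set ℝ) (hE : E.Finite) (δ : ℝ) (hδ : 0 < δ) :
    ∃ f : ℤ → ℝ, StrictMono f ∧ (∀ k, f k ∉ E) ∧ ∀ k : ℤ, k * δ < f k ∧ f k < (k + 1) * δ := by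
  have h1 : ∀ k : ℤ, ∃ s, (k : ℝ) * δ < s ∧ s < ((k : ℝ) + 1) * δ ∧ s ∉ E := fun k =>
    TEX.pick E hE _ _ (by nlinarith)
  choose f hf1 hf2 hf3 using h1
  refine ⟨f, ?_, hf3, fun k => ⟨hf1 k, hf2 k⟩⟩
  intro j k hjk
  have h2 : (j : ℝ) + 1 ≤ k := by exact_mod_cast hjk
  have h3 : ((j : ℝ) + 1) * δ ≤ k * δ := mul_le_mul_of_nonneg_right h2 hδ.le
  linarith [hf2 j, hf1 k]

theorem t_TEX : Stmt_TEX := by
  intro hEVF hEGX hEXW N P hN hP ε hε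
  have hfin := hEVF P hN
  obtain ⟨f, hfm, hfE, hfb⟩ := TEX.mesh (Ev P) hfin (ε / 2) (by linarith)
  obtain ⟨A, hA⟩ := hfin.bddBelow
  obtain ⟨B, hB⟩ := hfin.bddAbove
  have hxE : ∀ i, P.x i ∈ Ev P := fun i => Or.inl ⟨i, rfl⟩
  obtain ⟨K1, hK1⟩ := exists_int_lt (A / (ε / 2) - 1)
  obtain ⟨K2, hK2⟩ := exists_int_gt (B / (ε / 2))
  have he2 : 0 < ε / 2 := by linarith
  have hf1 : f K1 < A := by
    have h1 := (hfb K1).2
    have h2 : ((K1 : ℝ) + 1) < A / (ε / 2) := by linarith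
    have h3 : ((K1 : ℝ) + 1) * (ε / 2) < A := by
      rwa [lt_div_iff₀ he2] at h2
    linarith
  have hf2 : B < f K2 := by
    have h1 := (hfb K2).1
    have h3 : B < (K2 : ℝ) * (ε / 2) := by
      rwa [div_lt_iff₀ he2] at hK2
    linarith
  have hA' : ∀ i, f K1 < P.x i := fun i => lt_of_lt_of_le hf1 (hA (hxE i))
  have hB' : ∀ i, P.x i < f K2 := fun i => lt_of_le_of_lt (hB (hxE i)) hf2
  obtain ⟨X, hFX, hGX, hXE, s, hsX, i0, j0, hs1, hs2⟩ :=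
    hEGX P hN hP ((Finset.Icc K1 K2).image f) (by
      intro s hs
      obtain ⟨k, _, rfl⟩ := Finset.mem_image.1 hs
      exact hfE k)
  have hK : f K1 ≤ f K2 := ((hA' 0).trans (hB' 0)).le
  have hK12 : K1 ≤ K2 := hfm.le_iff_le.1 hK
  have hmem : ∀ k, K1 ≤ k → k ≤ K2 →
      f k ∈ X.filter (fun t => f K1 ≤ t ∧ t ≤ f K2) := by
    intro k h1 h2
    rw [Finset.mem_filter]
    exact ⟨hFX (Finset.mem_image.2 ⟨k, Finset.mem_Icc.2 ⟨h1, h2⟩, rfl⟩),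
      hfm.monotone h1, hfm.monotone h2⟩
  have hlo : ∃ a ∈ X.filter (fun t => f K1 ≤ t ∧ t ≤ f K2), ∀ i, a < P.x i :=
    ⟨f K1, hmem K1 le_rfl hK12, hA'⟩
  have hhi : ∃ b ∈ X.filter (fun t => f K1 ≤ t ∧ t ≤ f K2), ∀ i, P.x i < b :=
    ⟨f K2, hmem K2 hK12 le_rfl, hB'⟩
  have hG : GoodX P (X.filter (fun t => f K1 ≤ t ∧ t ≤ f K2)) := by
    refine ⟨hlo, hhi, ?_⟩
    intro a b hab
    refine hGX.gd a b ⟨(Finset.mem_filter.1 hab.1).1, (Finset.mem_filter.1 hab.2.1).1,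
      hab.2.2.1, ?_⟩
    intro t ht htab
    refine hab.2.2.2 t ?_ htab
    rw [Finset.mem_filter]
    exact ⟨ht, (Finset.mem_filter.1 hab.1).2.1.trans htab.1.le,
      htab.2.le.trans (Finset.mem_filter.1 hab.2.1).2.2⟩
  obtain ⟨w, hw⟩ := hEXW P (X.filter (fun t => f K1 ≤ t ∧ t ≤ f K2)) hN
    (by
      intro t ht i hti
      exact hXE t (Finset.mem_filter.1 ht).1 (Or.inl ⟨i, hti⟩))
    hlo hhi
    ⟨s, Finset.mem_filter.2 ⟨hsX, (hA' i0).le.trans hs1.le, hs2.le.trans (hB' j0).le⟩,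
      i0, j0, hs1, hs2⟩
  refine ⟨_, w, hG, hw, ?_⟩
  intro a b hab
  by_contra hcon
  have hcon' : ε ≤ b - a := not_lt.1 hcon
  have ha := (Finset.mem_filter.1 hab.1).2
  have hb := (Finset.mem_filter.1 hab.2.1).2
  have hk1 : a / (ε / 2) < ((⌊a / (ε / 2)⌋ + 1 : ℤ) : ℝ) := by
    push_cast
    exact Int.lt_floor_add_one _
  have hk2 : ((⌊a / (ε / 2)⌋ + 1 : ℤ) : ℝ) ≤ a / (ε / 2) + 1 := by
    push_cast
    linarith [Int.floor_le (a / (ε / 2))]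
  generalize (⌊a / (ε / 2)⌋ + 1 : ℤ) = k at hk1 hk2
  have h1 : a < k * (ε / 2) := by
    rwa [div_lt_iff₀ he2] at hk1
  have h2 : ((k : ℝ) + 1) * (ε / 2) ≤ a + ε := by
    have h3 : ((k : ℝ) - 1) ≤ a / (ε / 2) := by linarith
    rw [le_div_iff₀ he2] at h3
    linarith
  have h3 := hfb k
  have h4 : a < f k := by linarith
  have h5 : f k < b := by linarith
  have h6 : K1 ≤ k := (hfm.lt_iff_lt.1 (lt_of_le_of_lt ha.1 h4)).le
  have h7 : k ≤ K2 := (hfm.lt_iff_lt.1 (lt_of_lt_of_le h5 hb.2)).le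
  exact hab.2.2.2 (f k) (hmem k h6 h7) ⟨h4, h5⟩

end LH
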