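import Pool.Agent.LH.Stmts1

/-!
# TRA: removal of the highest point of a line
-/

namespace LH

open Set LG

namespace TRA

lemma c_lt {p q : Pt} : p.c < q.c ↔ p.t < q.t ∨ p.t = q.t ∧ p.h < q.h := by
  unfold Pt.c
  exact Prod.Lex.toLex_lt_toLex

lemma r_lt {p q : Pt} : p.r < q.r ↔ q.t < p.t ∨ p.t = q.t ∧ p.h < q.h := by
  unfold Pt.r
  rw [Prod.Lex.toLex_lt_toLex]
  simp only [neg_lt_neg_iff, neg_inj]

lemma nu1 {x a b : Q} (h1 : x < a) (h2 : x < b) : x ∉ uIcc a b := by
  intro h
  rw [uIcc, mem_Icc] at h
  exact absurd h.1 (not_le.2 (lt_min h1 h2))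

lemma nu2 {x a b : Q} (h1 : a < x) (h2 : b < x) : x ∉ uIcc a b := by
  intro h
  rw [uIcc, mem_Icc] at h
  exact absurd h.2 (not_le.2 (max_lt h1 h2))

lemma cp_mem {α : Type*} {w : List α} {x : α × α} (h : x ∈ cp w) : x.1 ∈ w ∧ x.2 ∈ w := by
  unfold cp at h
  have h' : (x.1, x.2) ∈ w.zip (w.rotate 1) := h
  have := List.of_mem_zip h'
  exact ⟨this.1, List.mem_rotate.1 this.2⟩

lemma lk_mem {w : List Pt} {p q : Pt} (h : Lk w p q) : p ∈ w ∧ q ∈ w := by
  rcases h.2 with h | h
  · exact cp_mem h
  · exact (cp_mem h).symm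

/-- The first element of a list has a successor. -/
lemma ex_suc {α : Type*} (u : α) (T : List α) : ∃ q, (u, q) ∈ cp (u :: T) := by
  cases T with
  | nil => exact ⟨u, by simp [cp]⟩
  | cons q T => exact ⟨q, by simp [cp]⟩

/-- The first element of a list has a predecessor. -/
lemma ex_pre {α : Type*} (u : α) (T : List α) : ∃ p, (p, u) ∈ cp (u :: T) := by
  rcases List.eq_nil_or_concat T with h | ⟨T', p, h⟩
  · exact ⟨u, by simp [cp, h]⟩
  · refine ⟨p, ?_⟩
    rw [h, List.concat_eq_append]
    have h1 : cp (u :: (T' ++ [p])) = (u :: T').zip (T' ++ [p]) ++ [(p, u)] := by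
      unfold cp
      have h2 : (u :: (T' ++ [p])).rotate 1 = (T' ++ [p]) ++ [u] := by simp
      rw [h2, ← List.cons_append, List.zip_append (by simp)]
      rfl
    rw [h1]
    simp

/-- Two points with equal columns are equal. -/
lemma col_ne {u y : Pt} {T : List Pt} (hnd : (ents (u :: T)).Nodup) (hu : u.k ≠ .L)
    (hy : y ∈ T) (hyk : y.k ≠ .L) : y.c ≠ u.c := by
  intro he
  have h1 : Sum.inl u.c ∈ ent u := by
    unfold ent
    cases h : u.k <;> simp_all
  have h2 : Sum.inl y.c ∈ ent y := by
    unfold ent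
    cases h : y.k <;> simp_all
  have h3 : Sum.inl y.c ∈ ents T := by
    unfold ents
    exact List.mem_flatMap.2 ⟨y, hy, h2⟩
  have h4 : ents (u :: T) = ent u ++ ents T := by
    unfold ents
    simp
  rw [h4, List.nodup_append] at hnd
  exact hnd.2.2 _ h1 _ h3 (by rw [he])

end TRA

open TRA

theorem t_TRA : Stmt_TRA := by
  intro hWEB hCWA hDEL hFRM hFLM u T a s d el er hR hut hmax hCW
  have hw := hR.cw
  have uw : u ∈ u :: T := List.mem_cons_self
  obtain ⟨p, hp⟩ := ex_pre u T
  obtain ⟨q, hq⟩ := ex_suc u T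
  have hSp := hw.st _ hp
  have hSq := hw.st _ hq
  simp only [Stp] at hSp hSq
  -- points above `u` on the line `s` do not exist
  have habove : ∀ x ∈ u :: T, x.t = s → x.h ≤ u.h := by
    intro x hx hxs
    rcases List.mem_cons.1 hx with h | h
    · rw [h]
    · exact hmax x h hxs
  -- rows between `u.r` and a row of the line `a`
  have hrow : ∀ (m : ℝ) (R : Q), R = toLex (-a, m) → ∀ x ∈ u :: T, Btw u.r R x.r →
      x.t = a ∧ x.h < m := by
    intro m R hRm x hx hb
    have e1 : u.r < R := by
      rw [hRm]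
      unfold Pt.r
      rw [Prod.Lex.toLex_lt_toLex]
      left
      simp only [hut]
      linarith [hR.lt₁]
    rcases hb with ⟨h1, h2⟩ | ⟨h1, h2⟩
    · rw [r_lt] at h1
      rw [hRm] at h2
      unfold Pt.r at h2
      rw [Prod.Lex.toLex_lt_toLex] at h2
      simp only [neg_lt_neg_iff, neg_inj] at h2
      rcases hR.ln x hx with h | h | h
      · rcases h2 with h2 | h2
        · exact absurd h2 (not_lt.2 h)
        · exact h2
      · have h3 := habove x hx h
        rcases h1 with h1 | h1
        · rw [hut, h] at h1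
          exact absurd h1 (lt_irrefl _)
        · exact absurd h1.2 (not_lt.2 h3)
      · rcases h1 with h1 | h1
        · linarith [hR.lt₂]
        · linarith [hR.lt₂]
    · exact absurd (h1.trans h2) (not_lt.2 e1.le)
  -- columns between `u.c` and a column of the line `d`
  have hcol : ∀ (m : ℝ) (C : Q), C = toLex (d, m) → ∀ x ∈ u :: T, Btw u.c C x.c →
      x.t = d ∧ x.h < m := by
    intro m C hCm x hx hb
    have e1 : u.c < C := by
      rw [hCm]
      unfold Pt.c
      rw [Prod.Lex.toLex_lt_toLex]
      left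
      simp only [hut]
      exact hR.lt₂
    rcases hb with ⟨h1, h2⟩ | ⟨h1, h2⟩
    · rw [c_lt] at h1
      rw [hCm] at h2
      unfold Pt.c at h2
      rw [Prod.Lex.toLex_lt_toLex] at h2
      simp only at h2
      rcases hR.ln x hx with h | h | h
      · rcases h1 with h1 | h1
        · linarith [hR.lt₁]
        · linarith [hR.lt₁]
      · have h3 := habove x hx h
        rcases h1 with h1 | h1
        · rw [hut, h] at h1
          exact absurd h1 (lt_irrefl _)
        · exact absurd h1.2 (not_lt.2 h3)
      · rcases h2 with h2 | h2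
        · exact absurd h2 (not_lt.2 h)
        · exact h2
    · exact absurd (h1.trans h2) (not_lt.2 e1.le)
  have has : a < s := hR.lt₁
  have hsd : s < d := hR.lt₂
  -- the passing case
  have main : ∀ l g : Pt, (u.k = .rt ∨ u.k = .lt) → Lk (u :: T) l u → Lk (u :: T) u g →
      WE (ents (u :: T)) (ents T) := by
    intro l g hk hl hg
    have hrm : rm1 a s d el er u = none := by
      unfold rm1
      rw [if_pos hut]
      rcases hk with hk | hk <;> rw [hk]
    rw [hrm] at hCW
    have hCT : CW T := hCW
    have hukL : u.k ≠ .L := by rcases hk with hk | hk <;> rw [hk] <;> simp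
    have hukR : u.k ≠ .R := by rcases hk with hk | hk <;> rw [hk] <;> simp
    have hla : l.t = a := (hR.lk _ _ hl).2.1 hut
    have hgd : g.t = d := (hR.lk _ _ hg).1 hut
    have hlr : l.r = toLex (-a, l.h) := by unfold Pt.r; rw [hla]
    have hlK : l.h ∈ KS (u :: T) el u := Or.inl ⟨l, hl, rfl⟩
    have hgK : g.h ∈ RS (u :: T) er u := Or.inl ⟨g, hg, rfl⟩
    -- points with a column on the line `s`
    have hcs : ∀ y ∈ u :: T, y ≠ u → y.k ≠ .L → y.t = s → y.c < u.c := by
      intro y hy hyu hyk hys
      have hyT : y ∈ T := by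
        rcases List.mem_cons.1 hy with h | h
        · exact absurd h hyu
        · exact h
      have h1 := col_ne hw.nd hukL hyT hyk
      have h2 := habove y hy hys
      rw [c_lt]
      right
      refine ⟨by rw [hys, hut], lt_of_le_of_ne h2 ?_⟩
      intro h3
      apply h1
      unfold Pt.c
      rw [h3, hys, hut]
    refine hDEL u T l g hw hCT hk hl hg ?_ ?_ ?_
    · intro x y hxy hb
      have hx := (lk_mem hxy).1
      have hy := (lk_mem hxy).2
      obtain ⟨hxa, hxh⟩ := hrow l.h l.r hlr x hx hb
      have hlt := hxy.1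
      rcases hR.ln y hy with h | h | h
      · linarith
      · left
        refine hcs y hy ?_ (hCWA.kl _ hw _ _ hxy).2 h
        intro hyu
        rw [hyu] at hxy
        have := hCWA.lft _ hw _ _ _ hxy hl hukR
        rw [this] at hxh
        exact lt_irrefl _ hxh
      · right
        have hyd := ((hR.lk _ _ hxy).2.2 (by linarith) (by linarith)).2
        rw [c_lt]
        right
        refine ⟨by rw [hgd, hyd], ?_⟩
        rcases hR.lg _ _ hxy hxa hyd u uw hut with h4 | h4
        · exact absurd (h4 _ hlK) (not_lt.2 hxh.le)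
        · exact h4 _ hgK
    · intro x hx _ hb
      left
      obtain ⟨hxa, _⟩ := hrow l.h l.r hlr x (List.mem_cons_of_mem _ hx) hb
      rw [c_lt]
      left
      rw [hxa, hut]
      exact has
    · intro _ o ho hou
      have hoM := (lk_mem ho).2
      have hlt := ho.1
      rcases hR.ln o hoM with h | h | h
      · linarith
      · left
        exact hcs o hoM hou (hCWA.kl _ hw _ _ ho).2 h
      · right
        have hyd := ((hR.lk _ _ ho).2.2 (by linarith) (by linarith)).2
        rw [c_lt]
        right
        refine ⟨by rw [hgd, hyd], ?_⟩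
        rcases hR.lg _ _ ho hla hyd u uw hut with h4 | h4
        · exact absurd (h4 _ hlK) (lt_irrefl _)
        · exact h4 _ hgK
  cases hk : u.k with
  | rt =>
    have hrm : rm1 a s d el er u = none := by
      unfold rm1
      rw [if_pos hut, hk]
    rw [hk] at hSp hSq
    simp only [Kd.fw, Kd.ar, not_true_eq_false, false_and, and_false, or_false,
      true_and] at hSp hSq
    rw [hrm]
    exact main p q (Or.inl hk) ⟨hSp.2, Or.inl hp⟩ ⟨hSq.2, Or.inl hq⟩
  | lt =>
    have hrm : rm1 a s d el er u = none := by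
      unfold rm1
      rw [if_pos hut, hk]
    rw [hk] at hSp hSq
    simp only [Kd.fw, Kd.ar, not_false_eq_true, false_and, and_false, false_or, true_and] at hSp hSq
    rw [hrm]
    exact main q p (Or.inr hk) ⟨hSq.2, Or.inr hq⟩ ⟨hSp.2, Or.inr hp⟩
  | R =>
    have hrm : rm1 a s d el er u = some ⟨.R, d, er u⟩ := by
      unfold rm1
      rw [if_pos hut, hk]
    rw [hk] at hSp hSq
    simp only [Kd.fw, Kd.ar, not_true_eq_false, not_false_eq_true, false_and, and_false, or_false,
      false_or, true_and] at hSp hSq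
    rw [hrm] at hCW ⊢
    have hLp : Lk (u :: T) p u := ⟨hSp.2, Or.inl hp⟩
    have hLq : Lk (u :: T) q u := ⟨hSq.2, Or.inr hq⟩
    have hpa : p.t = a := (hR.lk _ _ hLp).2.1 hut
    have hqa : q.t = a := (hR.lk _ _ hLq).2.1 hut
    have huc : (⟨.R, d, er u⟩ : Pt).c = toLex (d, er u) := rfl
    have heK : er u ∈ RS (u :: T) er u := Or.inr ⟨hk, rfl⟩
    refine hFRM u ⟨.R, d, er u⟩ T p q hw hCW hk rfl hp hq ?_ ?_
    · intro x y hxy hb
      have hx := (lk_mem hxy).1
      have hy := (lk_mem hxy).2
      obtain ⟨hyd, hyh⟩ := hcol (er u) _ huc y hy hb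
      have hlt := hxy.1
      rcases hR.ln x hx with h | h | h
      · have hxa := ((hR.lk _ _ hxy).2.2 (by linarith) (by linarith)).1
        rcases hR.lg _ _ hxy hxa hyd u uw hut with h4 | h4
        · apply nu2
          · rw [r_lt]
            right
            exact ⟨by rw [hpa, hxa], h4 _ (Or.inl ⟨p, hLp, rfl⟩)⟩
          · rw [r_lt]
            right
            exact ⟨by rw [hqa, hxa], h4 _ (Or.inl ⟨q, hLq, rfl⟩)⟩
        · exact absurd (h4 _ heK) (not_lt.2 hyh.le)
      · apply nu1
        · rw [r_lt]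
          left
          rw [hpa, h]
          exact has
        · rw [r_lt]
          left
          rw [hqa, h]
          exact has
      · linarith
    · intro x hx _ hb
      obtain ⟨hxd, _⟩ := hcol (er u) _ huc x (List.mem_cons_of_mem _ hx) hb
      apply nu1
      · rw [r_lt]
        left
        rw [hpa, hxd]
        linarith
      · rw [r_lt]
        left
        rw [hqa, hxd]
        linarith
  | L =>
    have hrm : rm1 a s d el er u = some ⟨.L, a, el u⟩ := by
      unfold rm1
      rw [if_pos hut, hk]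
    rw [hk] at hSp hSq
    simp only [Kd.fw, Kd.ar, not_true_eq_false, not_false_eq_true, false_and, and_false, or_false,
      false_or, true_and] at hSp hSq
    rw [hrm] at hCW ⊢
    have hLp : Lk (u :: T) u p := ⟨hSp.2, Or.inr hp⟩
    have hLq : Lk (u :: T) u q := ⟨hSq.2, Or.inl hq⟩
    have hpd : p.t = d := (hR.lk _ _ hLp).1 hut
    have hqd : q.t = d := (hR.lk _ _ hLq).1 hut
    have hur : (⟨.L, a, el u⟩ : Pt).r = toLex (-a, el u) := rfl
    have heK : el u ∈ KS (u :: T) el u := Or.inr ⟨hk, rfl⟩
    refine hFLM u ⟨.L, a, el u⟩ T p q hw hCW hk rfl hp hq ?_ ?_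
    · intro x y hxy hb
      have hx := (lk_mem hxy).1
      have hy := (lk_mem hxy).2
      obtain ⟨hxa, hxh⟩ := hrow (el u) _ hur x hx hb
      have hlt := hxy.1
      rcases hR.ln y hy with h | h | h
      · linarith
      · apply nu1
        · rw [c_lt]
          left
          rw [hpd, h]
          exact hsd
        · rw [c_lt]
          left
          rw [hqd, h]
          exact hsd
      · have hyd := ((hR.lk _ _ hxy).2.2 (by linarith) (by linarith)).2
        rcases hR.lg _ _ hxy hxa hyd u uw hut with h4 | h4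
        · exact absurd (h4 _ heK) (not_lt.2 hxh.le)
        · apply nu2
          · rw [c_lt]
            right
            exact ⟨by rw [hpd, hyd], h4 _ (Or.inl ⟨p, hLp, rfl⟩)⟩
          · rw [c_lt]
            right
            exact ⟨by rw [hqd, hyd], h4 _ (Or.inl ⟨q, hLq, rfl⟩)⟩
    · intro x hx _ hb
      obtain ⟨hxa, _⟩ := hrow (el u) _ hur x (List.mem_cons_of_mem _ hx) hb
      apply nu1
      · rw [c_lt]
        left
        rw [hpd, hxa]
        linarith
      · rw [c_lt]
        left
        rw [hqd, hxa]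
        linarith

end LH
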