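import Pool.Agent.LH.Stmts1

/-!
# Part C: removal of a line, the conditions remain true
-/

namespace LH

open Set LG

namespace TRB

theorem zip_tail_append {α : Type*} (T : List α) (h : T ≠ []) (v : α) :
    T.zip (T.tail ++ [v]) = T.zip T.tail ++ [(T.getLast h, v)] := by
  rcases List.eq_nil_or_concat T with rfl | ⟨B, p, rfl⟩
  · exact absurd rfl h
  · simp only [List.concat_eq_append] at h ⊢
    have hR : B.length = (B ++ [p]).tail.length := by simp
    generalize (B ++ [p]).tail = R at hR ⊢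
    rw [List.zip_append hR]
    have : (B ++ [p]).zip R = (B ++ [p]).zip (R ++ []) := by rw [List.append_nil]
    rw [this, List.zip_append hR]
    simp

theorem mem_cp_cons (u : Pt) (T : List Pt) (h : T ≠ []) (z : Pt × Pt) :
    z ∈ cp (u :: T) ↔ z = (u, T.head h) ∨ z ∈ T.zip T.tail ∨ z = (T.getLast h, u) := by
  have e : cp (u :: T) = (u, T.head h) :: (T.zip (T.tail ++ [u])) := by
    cases T with
    | nil => exact absurd rfl h
    | cons q T₂ => simp [cp]
  rw [e, zip_tail_append T h u]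
  simp

theorem mem_cp (T : List Pt) (h : T ≠ []) (z : Pt × Pt) :
    z ∈ cp T ↔ z ∈ T.zip T.tail ∨ z = (T.getLast h, T.head h) := by
  have e : cp T = T.zip (T.tail ++ [T.head h]) := by
    cases T with
    | nil => exact absurd rfl h
    | cons q T₂ => simp [cp]
  rw [e, zip_tail_append T h]
  simp

theorem core (hC : P_CWA) (u : Pt) (T N : List Pt) (a s d : ℝ) (el er : Pt → ℝ)
    (hw : Rem (u :: T) a s d el er) (hu : u.t = s) (ht : ∀ v ∈ T, v.t = s → v.h ≤ u.h)
    (hcw : CW N) (hm : ∀ x ∈ N, x ∈ T ∨ x.t = a ∨ x.t = d)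
    (hl : ∀ x y, Lk N x y → Lk (u :: T) x y ∨
      x.t = a ∧ y.t = d ∧ x.h ∈ KS (u :: T) el u ∧ y.h ∈ RS (u :: T) er u)
    (hdr : ∀ u ∈ N, u.k = .R → u.t = s → ∀ v ∈ N, (v.k ≠ .L → v.t = d → v.h ≠ er u) ∧
      (v.k = .R → v.t = s → er v = er u → v = u))
    (hdl : ∀ u ∈ N, u.k = .L → u.t = s → ∀ v ∈ N, (v.k ≠ .R → v.t = a → v.h ≠ el u) ∧
      (v.k = .L → v.t = s → el v = el u → v = u))
    (hlen : rmv a s d el er N = rmv a s d el er (u :: T)) : Rem N a s d el er := by
  have h1 := hw.lt₁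
  have h2 := hw.lt₂
  have huT : u ∉ T := by
    have := hC.nd _ hw.cw
    exact (List.nodup_cons.mp this).1
  have hmT : ∀ x ∈ N, x.t = s → x ∈ T := by
    intro x hx hs
    rcases hm x hx with h | h | h
    · exact h
    · exact absurd (hs.symm.trans h) h1.ne'
    · exact absurd (hs.symm.trans h) h2.ne
  have hK : ∀ v : Pt, v.t = s → KS N el v ⊆ KS (u :: T) el v := by
    intro v hv h hh
    rcases hh with ⟨p, hp, e⟩ | hh
    · rcases hl p v hp with h3 | ⟨_, h3, _⟩
      · exact Or.inl ⟨p, h3, e⟩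
      · exact absurd (hv.symm.trans h3) h2.ne
    · exact Or.inr hh
  have hR : ∀ v : Pt, v.t = s → RS N er v ⊆ RS (u :: T) er v := by
    intro v hv h hh
    rcases hh with ⟨p, hp, e⟩ | hh
    · rcases hl v p hp with h3 | ⟨h3, _⟩
      · exact Or.inl ⟨p, h3, e⟩
      · exact absurd (hv.symm.trans h3) h1.ne'
    · exact Or.inr hh
  refine ⟨hcw, h1, h2, ?_, ?_, hdr, hdl, ?_, ?_, ?_⟩
  · intro p hp
    rcases hm p hp with h | h | h
    · exact hw.ln p (List.mem_cons_of_mem _ h)
    · exact Or.inl h.le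
    · exact Or.inr (Or.inr h.ge)
  · intro p q hpq
    rcases hl p q hpq with h | ⟨h3, h4, _⟩
    · exact hw.lk p q h
    · exact ⟨fun _ => h4, fun _ => h3, fun _ _ => ⟨h3, h4⟩⟩
  · intro v hv v' hv' hs hs' hne hle
    rcases hw.st v (List.mem_cons_of_mem _ (hmT v hv hs)) v'
      (List.mem_cons_of_mem _ (hmT v' hv' hs')) hs hs' hne hle with h | h
    · exact Or.inl fun x hx y hy => h x (hK v' hs' hx) y (hK v hs hy)
    · exact Or.inr fun x hx y hy => h x (hR v' hs' hx) y (hR v hs hy)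
  · intro p q hpq hp hq v hv hs
    have hvT := hmT v hv hs
    have hvu : v ≠ u := fun e => huT (e ▸ hvT)
    rcases hl p q hpq with h | ⟨_, _, h5, h6⟩
    · rcases hw.lg p q h hp hq v (List.mem_cons_of_mem _ hvT) hs with h | h
      · exact Or.inl fun y hy => h y (hK v hs hy)
      · exact Or.inr fun y hy => h y (hR v hs hy)
    · rcases hw.st v (List.mem_cons_of_mem _ hvT) u List.mem_cons_self hs hu hvu
        (ht v hvT hs) with h | h
      · exact Or.inl fun y hy => h _ h5 y (hK v hs hy)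
      · exact Or.inr fun y hy => h _ h6 y (hR v hs hy)
  · rw [hlen]; exact hw.len

theorem rmv_cons (a s d : ℝ) (el er : Pt → ℝ) (p : Pt) (T : List Pt) :
    rmv a s d el er (p :: T) = (rm1 a s d el er p).toList ++ rmv a s d el er T := by
  unfold rmv
  rw [List.filterMap_cons]
  cases rm1 a s d el er p <;> simp

theorem len_rm1 (a s d : ℝ) (el er : Pt → ℝ) (p : Pt) :
    (ents (rm1 a s d el er p).toList).length ≤ (ent p).length := by
  by_cases h : p.t = s
  · cases hk : p.k <;> simp [rm1, h, hk, ents, ent]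
  · simp [rm1, h, ents]

theorem len_rmv (a s d : ℝ) (el er : Pt → ℝ) (T : List Pt) :
    (ents (rmv a s d el er T)).length ≤ (ents T).length := by
  induction T with
  | nil => simp [rmv, ents]
  | cons p T ih =>
    rw [rmv_cons]
    have h1 := len_rm1 a s d el er p
    unfold ents at *
    rw [List.flatMap_append, List.flatMap_cons, List.length_append, List.length_append]
    omega

theorem len_ent (p : Pt) : (ent p).length ≤ 2 := by
  unfold ent
  cases p.k <;> simp

theorem main : Stmt_TRB := by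
  intro hC u T a s d el er hw hu ht
  have h1 := hw.lt₁
  have h2 := hw.lt₂
  have had : a < d := h1.trans h2
  have huT : u ∉ T := by
    have := hC.nd _ hw.cw
    exact (List.nodup_cons.mp this).1
  have hlen := hw.len
  have hT : T ≠ [] := by
    rintro rfl
    have h3 := len_rmv a s d el er [u]
    have h4 := len_ent u
    simp only [ents, List.flatMap_cons, List.flatMap_nil, List.append_nil] at h3 hlen
    omega
  -- the neighbours
  have hq : (u, T.head hT) ∈ cp (u :: T) := (mem_cp_cons u T hT _).mpr (Or.inl rfl)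
  have hp : (T.getLast hT, u) ∈ cp (u :: T) := (mem_cp_cons u T hT _).mpr (Or.inr (Or.inr rfl))
  have hadj : ∀ z ∈ T.zip T.tail, z ∈ cp (u :: T) := fun z hz =>
    (mem_cp_cons u T hT z).mpr (Or.inr (Or.inl hz))
  have sq := hw.cw.st _ hq
  have sp := hw.cw.st _ hp
  simp only at sq sp
  have hnd := hw.cw.nd
  have hndT : (ents T).Nodup := by
    have : ents (u :: T) = ent u ++ ents T := by simp [ents]
    rw [this] at hnd
    exact hnd.of_append_right
  generalize hqq : T.head hT = q at *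
  generalize hpp : T.getLast hT = p at *
  have huw : u ∈ u :: T := List.mem_cons_self
  have hTw : ∀ v ∈ T, v ∈ u :: T := fun v hv => List.mem_cons_of_mem _ hv
  -- the passing case
  have hpass : rm1 a s d el er u = none → p.t = a ∧ q.t = d ∧ p.k.fw ∧ q.k.ar ∨
      q.t = a ∧ p.t = d ∧ ¬ p.k.fw ∧ ¬ q.k.ar →
      Rem ((rm1 a s d el er u).toList ++ T) a s d el er := by
    intro hn hpq
    have hr : rmv a s d el er T = rmv a s d el er (u :: T) := by
      rw [rmv_cons, hn]; simp
    rw [hn]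
    simp only [Option.toList_none, List.nil_append]
    have hcw : CW T := by
      refine ⟨hndT, ?_, ?_⟩
      · intro z hz
        rcases (mem_cp T hT z).mp hz with h | h
        · exact hw.cw.st z (hadj z h)
        · rw [h, hqq, hpp]
          rcases hpq with ⟨e1, e2, e3, e4⟩ | ⟨e1, e2, e3, e4⟩
          · exact Or.inl ⟨e3, e4, by rw [e1, e2]; exact had⟩
          · exact Or.inr ⟨e3, e4, by rw [e1, e2]; exact had⟩
      · have h3 := len_rmv a s d el er T
        rw [hr] at h3
        omega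
    refine core hC u T T a s d el er hw hu ht hcw (fun x hx => Or.inl hx) ?_ ?_ ?_ hr
    · rintro x y ⟨hlt, hxy⟩
      have key : ∀ x y : Pt, x.t < y.t → (x, y) ∈ cp T ∨ (y, x) ∈ cp T →
          Lk (u :: T) x y ∨ (x = p ∧ y = q ∨ x = q ∧ y = p) := by
        intro x y hlt hxy
        rcases hxy with h | h
        · rcases (mem_cp T hT _).mp h with h | h
          · exact Or.inl ⟨hlt, Or.inl (hadj _ h)⟩
          · rw [hqq, hpp, Prod.mk.injEq] at h
            exact Or.inr (Or.inl h)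
        · rcases (mem_cp T hT _).mp h with h | h
          · exact Or.inl ⟨hlt, Or.inr (hadj _ h)⟩
          · rw [hqq, hpp, Prod.mk.injEq] at h
            exact Or.inr (Or.inr ⟨h.2, h.1⟩)
      rcases key x y hlt hxy with h | h
      · exact Or.inl h
      · right
        rcases hpq with ⟨e1, e2, e3, e4⟩ | ⟨e1, e2, e3, e4⟩
        · rcases h with ⟨rfl, rfl⟩ | ⟨rfl, rfl⟩
          · refine ⟨e1, e2, Or.inl ⟨x, ⟨?_, Or.inl hp⟩, rfl⟩, Or.inl ⟨y, ⟨?_, Or.inl hq⟩, rfl⟩⟩
            · rw [e1, hu]; exact h1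
            · rw [e2, hu]; exact h2
          · rw [e1, e2] at hlt
            exact absurd hlt had.not_gt
        · rcases h with ⟨rfl, rfl⟩ | ⟨rfl, rfl⟩
          · rw [e1, e2] at hlt
            exact absurd hlt had.not_gt
          · refine ⟨e1, e2, Or.inl ⟨x, ⟨?_, Or.inr hq⟩, rfl⟩, Or.inl ⟨y, ⟨?_, Or.inr hp⟩, rfl⟩⟩
            · rw [e1, hu]; exact h1
            · rw [e2, hu]; exact h2
    · exact fun u₁ h₁ hk₁ ht₁ v hv => hw.dr u₁ (hTw _ h₁) hk₁ ht₁ v (hTw _ hv)
    · exact fun u₁ h₁ hk₁ ht₁ v hv => hw.dl u₁ (hTw _ h₁) hk₁ ht₁ v (hTw _ hv)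
  -- the turns
  have hturn : ∀ u' : Pt, rm1 a s d el er u = some u' →
      (u'.t = d ∧ p.t = a ∧ q.t = a ∧ u'.h ∈ RS (u :: T) er u ∨
        u'.t = a ∧ p.t = d ∧ q.t = d ∧ u'.h ∈ KS (u :: T) el u) →
      Stp p u' → Stp u' q → (ent u').length = (ent u).length →
      (∀ e ∈ ent u', e ∉ ents T) → (ent u').Nodup →
      (∀ u₁ ∈ T, u₁.k = .R → u₁.t = s → (u'.k ≠ .L → u'.t = d → u'.h ≠ er u₁)) →
      (∀ u₁ ∈ T, u₁.k = .L → u₁.t = s → (u'.k ≠ .R → u'.t = a → u'.h ≠ el u₁)) →
      Rem ((rm1 a s d el er u).toList ++ T) a s d el er := by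
    intro u' hn hpq st1 st2 hle hdis hndu hR hL
    have hr' : rm1 a s d el er u' = some u' := by
      have : u'.t ≠ s := by
        rcases hpq with h | h
        · rw [h.1]; exact h2.ne'
        · rw [h.1]; exact h1.ne
      simp [rm1, this]
    have hus : u'.t ≠ s := by
      rcases hpq with h | h
      · rw [h.1]; exact h2.ne'
      · rw [h.1]; exact h1.ne
    have hr : rmv a s d el er (u' :: T) = rmv a s d el er (u :: T) := by
      rw [rmv_cons, rmv_cons, hn, hr']
    rw [hn]
    simp only [Option.toList_some, List.singleton_append]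
    have hcw : CW (u' :: T) := by
      refine ⟨?_, ?_, ?_⟩
      · have : ents (u' :: T) = ent u' ++ ents T := by simp [ents]
        rw [this, List.nodup_append]
        refine ⟨hndu, hndT, ?_⟩
        intro x hx y hy e
        exact hdis x hx (e ▸ hy)
      · intro z hz
        rcases (mem_cp_cons u' T hT z).mp hz with h | h | h
        · rw [h, hqq]; exact st2
        · exact hw.cw.st z (hadj z h)
        · rw [h, hpp]; exact st1
      · have h3 := hw.cw.len
        simp only [ents, List.flatMap_cons, List.length_append] at h3 ⊢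
        omega
    refine core hC u T (u' :: T) a s d el er hw hu ht hcw ?_ ?_ ?_ ?_ hr
    · intro x hx
      rcases List.mem_cons.mp hx with rfl | hx
      · rcases hpq with h | h
        · exact Or.inr (Or.inr h.1)
        · exact Or.inr (Or.inl h.1)
      · exact Or.inl hx
    · rintro x y ⟨hlt, hxy⟩
      have key : Lk (u :: T) x y ∨ (x = u' ∧ (y = p ∨ y = q)) ∨ (y = u' ∧ (x = p ∨ x = q)) := by
        rcases hxy with h | h
        · rcases (mem_cp_cons u' T hT _).mp h with h | h | h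
          · rw [hqq, Prod.mk.injEq] at h
            exact Or.inr (Or.inl ⟨h.1, Or.inr h.2⟩)
          · exact Or.inl ⟨hlt, Or.inl (hadj _ h)⟩
          · rw [hpp, Prod.mk.injEq] at h
            exact Or.inr (Or.inr ⟨h.2, Or.inl h.1⟩)
        · rcases (mem_cp_cons u' T hT _).mp h with h | h | h
          · rw [hqq, Prod.mk.injEq] at h
            exact Or.inr (Or.inr ⟨h.1, Or.inr h.2⟩)
          · exact Or.inl ⟨hlt, Or.inr (hadj _ h)⟩
          · rw [hpp, Prod.mk.injEq] at h
            exact Or.inr (Or.inl ⟨h.2, Or.inl h.1⟩)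
      rcases key with h | h
      · exact Or.inl h
      right
      rcases hpq with ⟨e1, e2, e3, e4⟩ | ⟨e1, e2, e3, e4⟩
      · rcases h with ⟨hx, hy⟩ | ⟨hy, hx⟩
        · exfalso
          rw [hx, e1] at hlt
          rcases hy with rfl | rfl
          · rw [e2] at hlt; exact absurd hlt had.not_gt
          · rw [e3] at hlt; exact absurd hlt had.not_gt
        · rcases hx with rfl | rfl
          · refine ⟨e2, hy ▸ e1, Or.inl ⟨x, ⟨?_, Or.inl hp⟩, rfl⟩, hy ▸ e4⟩
            rw [e2, hu]; exact h1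
          · refine ⟨e3, hy ▸ e1, Or.inl ⟨x, ⟨?_, Or.inr hq⟩, rfl⟩, hy ▸ e4⟩
            rw [e3, hu]; exact h1
      · rcases h with ⟨hx, hy⟩ | ⟨hy, hx⟩
        · rcases hy with rfl | rfl
          · refine ⟨hx ▸ e1, e2, hx ▸ e4, Or.inl ⟨y, ⟨?_, Or.inr hp⟩, rfl⟩⟩
            rw [e2, hu]; exact h2
          · refine ⟨hx ▸ e1, e3, hx ▸ e4, Or.inl ⟨y, ⟨?_, Or.inl hq⟩, rfl⟩⟩
            rw [e3, hu]; exact h2
        · exfalso
          rw [hy, e1] at hlt
          rcases hx with rfl | rfl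
          · rw [e2] at hlt; exact absurd hlt had.not_gt
          · rw [e3] at hlt; exact absurd hlt had.not_gt
    · intro u₁ h₁ hk₁ ht₁ v hv
      rcases List.mem_cons.mp h₁ with rfl | h₁
      · exact absurd ht₁ hus
      rcases List.mem_cons.mp hv with e | hv
      · subst e
        exact ⟨hR u₁ (by assumption) hk₁ ht₁, fun _ h => absurd h hus⟩
      · exact hw.dr u₁ (hTw _ h₁) hk₁ ht₁ v (hTw _ hv)
    · intro u₁ h₁ hk₁ ht₁ v hv
      rcases List.mem_cons.mp h₁ with rfl | h₁
      · exact absurd ht₁ hus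
      rcases List.mem_cons.mp hv with e | hv
      · subst e
        exact ⟨hL u₁ (by assumption) hk₁ ht₁, fun _ h => absurd h hus⟩
      · exact hw.dl u₁ (hTw _ h₁) hk₁ ht₁ v (hTw _ hv)
  cases hk : u.k
  · -- passing to the right
    have e1 : p.k.fw ∧ p.t < u.t := by
      rcases sp with h | h
      · exact ⟨h.1, h.2.2⟩
      · rw [hk] at h; exact absurd trivial h.2.1
    have e2 : q.k.ar ∧ u.t < q.t := by
      rcases sq with h | h
      · exact ⟨h.2.1, h.2.2⟩
      · rw [hk] at h; exact absurd trivial h.1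
    have e3 := (hw.lk p u ⟨e1.2, Or.inl hp⟩).2.1 hu
    have e4 := (hw.lk u q ⟨e2.2, Or.inl hq⟩).1 hu
    exact hpass (by simp [rm1, hu, hk]) (Or.inl ⟨e3, e4, e1.1, e2.1⟩)
  · -- passing to the left
    have e1 : ¬ p.k.fw ∧ u.t < p.t := by
      rcases sp with h | h
      · rw [hk] at h; exact absurd h.2.1 (fun h => h)
      · exact ⟨h.1, h.2.2⟩
    have e2 : ¬ q.k.ar ∧ q.t < u.t := by
      rcases sq with h | h
      · rw [hk] at h; exact absurd h.1 (fun h => h)
      · exact ⟨h.2.1, h.2.2⟩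
    have e3 := (hw.lk u p ⟨e1.2, Or.inr hp⟩).1 hu
    have e4 := (hw.lk q u ⟨e2.2, Or.inr hq⟩).2.1 hu
    exact hpass (by simp [rm1, hu, hk]) (Or.inr ⟨e4, e3, e1.1, e2.1⟩)
  · -- right turn
    have e1 : p.k.fw ∧ p.t < u.t := by
      rcases sp with h | h
      · exact ⟨h.1, h.2.2⟩
      · rw [hk] at h; exact absurd trivial h.2.1
    have e2 : ¬ q.k.ar ∧ q.t < u.t := by
      rcases sq with h | h
      · rw [hk] at h; exact absurd h.1 (fun h => h)
      · exact ⟨h.2.1, h.2.2⟩
    have e3 := (hw.lk p u ⟨e1.2, Or.inl hp⟩).2.1 hu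
    have e4 := (hw.lk q u ⟨e2.2, Or.inr hq⟩).2.1 hu
    have hdr := hw.dr u huw hk hu
    refine hturn ⟨.R, d, er u⟩ (by simp [rm1, hu, hk]) (Or.inl ⟨rfl, e3, e4, Or.inr ⟨hk, rfl⟩⟩)
      (Or.inl ⟨e1.1, trivial, by rw [e3]; exact had⟩)
      (Or.inr ⟨fun h => h, e2.1, by rw [e4]; exact had⟩) (by simp [ent, hk]) ?_ (by simp [ent]) ?_ ?_
    · intro e he hh
      simp only [ent, List.mem_singleton] at he
      rw [he] at hh
      obtain ⟨v, hv, hve⟩ := List.mem_flatMap.mp hh
      have h5 := (hdr v (hTw _ hv)).1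
      have h6 : v.k ≠ .L ∧ v.c = toLex (d, er u) := by
        unfold ent at hve
        cases hkv : v.k <;> simp [hkv, Pt.c] at hve ⊢ <;> exact ⟨hve.1.symm, hve.2.symm⟩
      have h7 : (v.t, v.h) = (d, er u) := toLex.injective h6.2
      rw [Prod.mk.injEq] at h7
      exact h5 h6.1 h7.1 h7.2
    · intro u₁ h₁ hk₁ ht₁ _ _ h8
      have h9 := (hw.dr u₁ (hTw _ h₁) hk₁ ht₁ u huw).2 hk hu h8
      exact huT (h9 ▸ h₁)
    · intro u₁ _ _ _ h8
      exact absurd rfl h8
  · -- left turn
    have e1 : ¬ p.k.fw ∧ u.t < p.t := by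
      rcases sp with h | h
      · rw [hk] at h; exact absurd h.2.1 (fun h => h)
      · exact ⟨h.1, h.2.2⟩
    have e2 : q.k.ar ∧ u.t < q.t := by
      rcases sq with h | h
      · exact ⟨h.2.1, h.2.2⟩
      · rw [hk] at h; exact absurd trivial h.1
    have e3 := (hw.lk u p ⟨e1.2, Or.inr hp⟩).1 hu
    have e4 := (hw.lk u q ⟨e2.2, Or.inl hq⟩).1 hu
    have hdl := hw.dl u huw hk hu
    refine hturn ⟨.L, a, el u⟩ (by simp [rm1, hu, hk]) (Or.inr ⟨rfl, e3, e4, Or.inr ⟨hk, rfl⟩⟩)
      (Or.inr ⟨e1.1, fun h => h, by rw [e3]; exact had⟩)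
      (Or.inl ⟨trivial, e2.1, by rw [e4]; exact had⟩) (by simp [ent, hk]) ?_ (by simp [ent]) ?_ ?_
    · intro e he hh
      simp only [ent, List.mem_singleton] at he
      rw [he] at hh
      obtain ⟨v, hv, hve⟩ := List.mem_flatMap.mp hh
      have h5 := (hdl v (hTw _ hv)).1
      have h6 : v.k ≠ .R ∧ v.r = toLex (-a, el u) := by
        unfold ent at hve
        cases hkv : v.k <;> simp [hkv, Pt.r] at hve ⊢ <;> exact ⟨hve.1.symm, hve.2.symm⟩
      have h7 : (-v.t, v.h) = (-a, el u) := toLex.injective h6.2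
      rw [Prod.mk.injEq] at h7
      exact h5 h6.1 (neg_injective h7.1) h7.2
    · intro u₁ _ _ _ h8
      exact absurd rfl h8
    · intro u₁ h₁ hk₁ ht₁ _ _ h8
      have h9 := (hw.dl u₁ (hTw _ h₁) hk₁ ht₁ u huw).2 hk hu h8
      exact huT (h9 ▸ h₁)

end TRB

theorem t_TRB : Stmt_TRB := TRB.main

end LH
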