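import Pool.Agent.LH.Stmts1

/-!
# TRC: rotation of the conditions for the removal of a line
-/

namespace LH

open Set LG

namespace TRC

/-- Membership in a rotated list. -/
theorem mem_swap {A B : List Pt} {p : Pt} : p ∈ B ++ A ↔ p ∈ A ++ B := by
  rw [List.mem_append, List.mem_append, or_comm]

/-- Length of the entries of the rotated list. -/
theorem len_swap (a s d : ℝ) (el er : Pt → ℝ) (A B : List Pt) :
    (ents (rmv a s d el er (B ++ A))).length = (ents (rmv a s d el er (A ++ B))).length := by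
  unfold rmv ents
  rw [List.filterMap_append, List.filterMap_append, List.flatMap_append, List.flatMap_append,
    List.length_append, List.length_append, Nat.add_comm]

end TRC

/-- TRC -/
theorem t_TRC : Stmt_TRC := by
  intro hC A B a s d el er h
  have hlk : ∀ p q, Lk (B ++ A) p q ↔ Lk (A ++ B) p q := fun p q => (hC.lk A B p q).symm
  have hmem : ∀ p, p ∈ B ++ A ↔ p ∈ A ++ B := fun p => TRC.mem_swap
  have hKS : ∀ (u : Pt), KS (B ++ A) el u = KS (A ++ B) el u := by
    intro u
    ext x
    simp only [KS, Set.mem_ofPred_eq, hlk]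
  have hRS : ∀ (u : Pt), RS (B ++ A) er u = RS (A ++ B) er u := by
    intro u
    ext x
    simp only [RS, Set.mem_ofPred_eq, hlk]
  refine ⟨(hC.rot A B h.cw).1, h.lt₁, h.lt₂, ?_, ?_, ?_, ?_, ?_, ?_, ?_⟩
  · intro p hp
    exact h.ln p ((hmem p).1 hp)
  · intro p q hpq
    exact h.lk p q ((hlk p q).1 hpq)
  · intro u hu hk ht v hv
    exact h.dr u ((hmem u).1 hu) hk ht v ((hmem v).1 hv)
  · intro u hu hk ht v hv
    exact h.dl u ((hmem u).1 hu) hk ht v ((hmem v).1 hv)
  · intro u hu v hv hus hvs huv hh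
    rw [hKS v, hKS u, hRS v, hRS u]
    exact h.st u ((hmem u).1 hu) v ((hmem v).1 hv) hus hvs huv hh
  · intro p q hpq hpa hqd u hu hus
    rw [hKS u, hRS u]
    exact h.lg p q ((hlk p q).1 hpq) hpa hqd u ((hmem u).1 hu) hus
  · rw [TRC.len_swap a s d el er A B]
    exact h.len

end LH
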