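import Pool.Agent.LH.Stmts1

/-!
# Part C: TRL, removal of a line
-/

namespace LH

open Set LG

namespace TRL

open Classical in
/-- The number of the points of the line `s`. -/
noncomputable def cnt (s : ℝ) (w : List Pt) : ℕ := w.countP fun p => decide (p.t = s)

theorem rm1_ne {a s d : ℝ} {el er : Pt → ℝ} {p : Pt} (h : p.t ≠ s) : rm1 a s d el er p = some p := by
  unfold rm1
  rw [if_neg h]

theorem rmv_append (a s d : ℝ) (el er : Pt → ℝ) (A B : List Pt) :
    rmv a s d el er (A ++ B) = rmv a s d el er A ++ rmv a s d el er B := by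
  unfold rmv
  exact List.filterMap_append

theorem rmv_cons (a s d : ℝ) (el er : Pt → ℝ) (u : Pt) (B : List Pt) :
    rmv a s d el er (u :: B) = (rm1 a s d el er u).toList ++ rmv a s d el er B := by
  unfold rmv
  rw [List.filterMap_cons]
  cases rm1 a s d el er u <;> rfl

theorem rm1_t {a s d : ℝ} (h₁ : a < s) (h₂ : s < d) {el er : Pt → ℝ} {u v : Pt} (h : u.t = s)
    (hv : v ∈ (rm1 a s d el er u).toList) : v.t ≠ s := by
  unfold rm1 at hv
  rw [if_pos h] at hv
  rcases u with ⟨k, t, ht⟩
  cases k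
  · simp at hv
  · simp at hv
  · simp at hv
    subst hv
    exact h₂.ne'
  · simp at hv
    subst hv
    exact h₁.ne

theorem rmv_id (a s d : ℝ) (el er : Pt → ℝ) (L : List Pt) (h : ∀ v ∈ L, v.t ≠ s) :
    rmv a s d el er L = L := by
  induction L with
  | nil => rfl
  | cons u L ih =>
    rw [rmv_cons, rm1_ne (h u (by simp)), ih fun v hv => h v (by simp [hv])]
    rfl

theorem cnt_append (s : ℝ) (A B : List Pt) : cnt s (A ++ B) = cnt s A + cnt s B := by
  unfold cnt
  exact List.countP_append

theorem cnt_zero (s : ℝ) (A : List Pt) (h : ∀ v ∈ A, v.t ≠ s) : cnt s A = 0 := by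
  unfold cnt
  rw [List.countP_eq_zero]
  intro v hv
  simpa using h v hv

theorem cnt_cons (s : ℝ) (u : Pt) (A : List Pt) (h : u.t = s) : cnt s (u :: A) = cnt s A + 1 := by
  unfold cnt
  rw [List.countP_cons]
  simp [h]

theorem main (hWEB : P_WEB) (hCWA : P_CWA) (hA : P_TRA) (hB : P_TRB) (hC : P_TRC) (N : ℕ) :
    ∀ (w : List Pt) (a s d : ℝ) (el er : Pt → ℝ), Rem w a s d el er → cnt s w = N →
    WE (ents w) (ents (rmv a s d el er w)) ∧ CW (rmv a s d el er w) := by
  induction N with
  | zero =>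
    intro w a s d el er hR hN
    have h0 : ∀ v ∈ w, v.t ≠ s := by
      intro v hv
      have := hN
      unfold cnt at this
      rw [List.countP_eq_zero] at this
      simpa using this v hv
    rw [rmv_id a s d el er w h0]
    exact ⟨hWEB.refl _ (hCWA.alt w hR.cw) hR.cw.nd, hR.cw⟩
  | succ N ih =>
    intro w a s d el er hR hN
    have hex : {p | p ∈ w ∧ p.t = s}.Nonempty := by
      by_contra hne
      have h0 : cnt s w = 0 := cnt_zero s w fun v hv hvs => hne ⟨v, hv, hvs⟩
      omega
    obtain ⟨u, ⟨huw, hus⟩, hmax⟩ := Set.exists_max_image {p | p ∈ w ∧ p.t = s} (fun p => p.h)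
      (w.finite_toSet.subset fun p hp => hp.1) hex
    obtain ⟨A, B, rfl⟩ := List.append_of_mem huw
    have hR' : Rem (u :: (B ++ A)) a s d el er := by
      have := hC A (u :: B) a s d el er hR
      simpa using this
    have hrot : WE (ents (A ++ u :: B)) (ents (u :: (B ++ A))) := by
      have := (hCWA.rot A (u :: B) hR.cw).2
      simpa using this
    have hm : ∀ v ∈ B ++ A, v.t = s → v.h ≤ u.h := by
      intro v hv hvs
      refine hmax v ⟨?_, hvs⟩
      simp only [List.mem_append, List.mem_cons] at hv ⊢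
      tauto
    have hRn := hB u (B ++ A) a s d el er hR' hus hm
    have hWn := hA u (B ++ A) a s d el er hR' hus hm hRn.cw
    have hto : ∀ v ∈ (rm1 a s d el er u).toList, v.t ≠ s := fun v hv =>
      rm1_t hR.lt₁ hR.lt₂ hus hv
    have hcn : cnt s ((rm1 a s d el er u).toList ++ (B ++ A)) = N := by
      rw [cnt_append, cnt_append, cnt_zero s _ hto]
      rw [cnt_append, cnt_cons s u B hus] at hN
      omega
    obtain ⟨h1, h2⟩ := ih _ a s d el er hRn hcn
    have hrm : rmv a s d el er ((rm1 a s d el er u).toList ++ (B ++ A)) =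
        rmv a s d el er (u :: B) ++ rmv a s d el er A := by
      rw [rmv_append, rmv_id a s d el er _ hto, rmv_append, rmv_cons, List.append_assoc]
    rw [hrm] at h1 h2
    obtain ⟨h3, h4⟩ := hCWA.rot _ _ h2
    rw [rmv_append]
    exact ⟨hWEB.trans _ _ _ (hWEB.trans _ _ _ (hWEB.trans _ _ _ hrot hWn) h1) h4, h3⟩

end TRL

theorem t_TRL : Stmt_TRL := by
  intro hWEB hCWA hA hB hC w a s d el er hR
  exact TRL.main hWEB hCWA hA hB hC _ w a s d el er hR rfl

end LH
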