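import Pool.Agent.LH.Stmts1

/-!
# WEB: elementary properties of `WE`
-/

namespace LH

open Set LG

namespace WEB

theorem inv_exists {α : Type} [LinearOrder α] (P : α → Prop) (φ : α → α) (f : α → ℝ)
    (hφ : ∀ a b, P a → P b → a < b → φ a < φ b) :
    ∃ f' : α → ℝ, ∀ a, P a → f' (φ a) = f a := by
  classical
  refine ⟨fun x => if h : ∃ a, P a ∧ φ a = x then f h.choose else 0, fun a ha => ?_⟩
  have h : ∃ b, P b ∧ φ b = φ a := ⟨a, ha, rfl⟩
  have h1 := h.choose_spec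
  have h2 : h.choose = a := by
    rcases lt_trichotomy h.choose a with h3 | h3 | h3
    · exact absurd (hφ _ _ h1.1 ha h3) (by rw [h1.2]; exact lt_irrefl _)
    · exact h3
    · exact absurd (hφ _ _ ha h1.1 h3) (by rw [h1.2]; exact lt_irrefl _)
  have h3 : (if h : ∃ b, P b ∧ φ b = φ a then f h.choose else 0) = f a := by
    rw [dif_pos h, h2]
  exact h3

theorem inj_on {α : Type} [LinearOrder α] (P : α → Prop) (φ : α → α)
    (hφ : ∀ a b, P a → P b → a < b → φ a < φ b) (a b : α) (ha : P a) (hb : P b)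
    (h : φ a = φ b) : a = b := by
  rcases lt_trichotomy a b with h3 | h3 | h3
  · exact absurd (hφ _ _ ha hb h3) (by rw [h]; exact lt_irrefl _)
  · exact h3
  · exact absurd (hφ _ _ hb ha h3) (by rw [h]; exact lt_irrefl _)

theorem lt_of_image {α : Type} [LinearOrder α] (P : α → Prop) (φ : α → α)
    (hφ : ∀ a b, P a → P b → a < b → φ a < φ b) (a b : α) (ha : P a) (hb : P b)
    (h : φ a < φ b) : a < b := by
  rcases lt_trichotomy a b with h3 | h3 | h3
  · exact h3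
  · rw [h3] at h
    exact absurd h (lt_irrefl _)
  · exact absurd h (not_lt.2 (hφ _ _ hb ha h3).le)

theorem rp_iso (W : List En) (φ ψ : Q → Q)
    (hφ : ∀ a b, Sum.inl a ∈ W → Sum.inl b ∈ W → a < b → φ a < φ b)
    (hψ : ∀ a b, Sum.inr a ∈ W → Sum.inr b ∈ W → a < b → ψ a < ψ b) (M : List (ℝ × ℝ))
    (h : Rp W M) : Rp (W.map (Sum.map φ ψ)) M := by
  obtain ⟨hn, f, g, hf, hg, hr⟩ := h
  obtain ⟨f', hf'⟩ := inv_exists (fun a => (Sum.inl a : En) ∈ W) φ f hφ
  obtain ⟨g', hg'⟩ := inv_exists (fun a => (Sum.inr a : En) ∈ W) ψ g hψ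
  have hl : ∀ x, (Sum.inl x : En) ∈ W.map (Sum.map φ ψ) → ∃ a, (Sum.inl a : En) ∈ W ∧ φ a = x := by
    intro x hx
    obtain ⟨e, he, hex⟩ := List.mem_map.1 hx
    rcases e with a | b
    · exact ⟨a, he, by simpa using hex⟩
    · simp at hex
  have hrr : ∀ x, (Sum.inr x : En) ∈ W.map (Sum.map φ ψ) → ∃ a, (Sum.inr a : En) ∈ W ∧ ψ a = x := by
    intro x hx
    obtain ⟨e, he, hex⟩ := List.mem_map.1 hx
    rcases e with a | b
    · simp at hex
    · exact ⟨b, he, by simpa using hex⟩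
  refine ⟨?_, f', g', ?_, ?_, ?_⟩
  · refine List.Nodup.map_on ?_ hn
    intro x hx y hy hxy
    rcases x with a | b <;> rcases y with c | d
    · have h1 : φ a = φ c := by simpa using hxy
      rw [inj_on (fun a => (Sum.inl a : En) ∈ W) φ hφ a c hx hy h1]
    · simp at hxy
    · simp at hxy
    · have h1 : ψ b = ψ d := by simpa using hxy
      rw [inj_on (fun a => (Sum.inr a : En) ∈ W) ψ hψ b d hx hy h1]
  · intro x y hx hy hxy
    obtain ⟨a, ha, rfl⟩ := hl x hx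
    obtain ⟨b, hb, rfl⟩ := hl y hy
    rw [hf' a ha, hf' b hb]
    exact hf a b ha hb (lt_of_image (fun a => (Sum.inl a : En) ∈ W) φ hφ a b ha hb hxy)
  · intro x y hx hy hxy
    obtain ⟨a, ha, rfl⟩ := hrr x hx
    obtain ⟨b, hb, rfl⟩ := hrr y hy
    rw [hg' a ha, hg' b hb]
    exact hg a b ha hb (lt_of_image (fun a => (Sum.inr a : En) ∈ W) ψ hψ a b ha hb hxy)
  · have h1 : (W.map (Sum.map φ ψ)).map (Sum.map f' g') = W.map (Sum.map f g) := by
      rw [List.map_map]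
      refine List.map_congr_left fun e he => ?_
      rcases e with a | b
      · simp [hf' a he]
      · simp [hg' b he]
    rw [h1]
    exact hr

theorem rp_rot (A B : List En) (M : List (ℝ × ℝ)) (h : Rp (A ++ B) M) : Rp (B ++ A) M := by
  obtain ⟨hn, f, g, hf, hg, hr⟩ := h
  have hm : ∀ e, e ∈ B ++ A → e ∈ A ++ B := fun e he =>
    List.mem_append.2 (List.mem_append.1 he).symm
  refine ⟨(List.perm_append_comm.nodup_iff).1 hn, f, g,
    fun a b ha hb => hf a b (hm _ ha) (hm _ hb), fun a b ha hb => hg a b (hm _ ha) (hm _ hb), ?_⟩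
  refine hr.trans ?_
  rw [List.map_append, List.map_append]
  exact List.isRotated_append

end WEB

theorem t_WEB : Stmt_WEB := by
  intro hE hU
  refine ⟨?_, ?_, ?_, ?_, ?_, ?_⟩
  · intro W hA hn
    obtain ⟨M, hM⟩ := hE W hA hn
    exact ⟨M, M, hM, hM, Relation.EqvGen.refl _⟩
  · rintro W W' ⟨M, M', h1, h2, h3⟩
    exact ⟨M', M, h2, h1, Relation.EqvGen.symm _ _ h3⟩
  · rintro W W' W'' ⟨M, M', h1, h2, h3⟩ ⟨N, N', k1, k2, k3⟩
    exact ⟨M, N', h1, k2, Relation.EqvGen.trans _ _ _ h3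
      (Relation.EqvGen.trans _ _ _ (hU W' M' N h2 k1) k3)⟩
  · intro A B hA hn
    obtain ⟨M, hM⟩ := hE (A ++ B) hA hn
    exact ⟨M, M, hM, WEB.rp_rot A B M hM, Relation.EqvGen.refl _⟩
  · intro W φ ψ hA hn hφ hψ
    obtain ⟨M, hM⟩ := hE W hA hn
    exact ⟨M, M, hM, WEB.rp_iso W φ ψ hφ hψ M hM, Relation.EqvGen.refl _⟩
  · rintro W W' M M' ⟨N, N', k1, k2, k3⟩ h1 h2
    exact Relation.EqvGen.trans _ _ _ (hU W M N h1 k1)
      (Relation.EqvGen.trans _ _ _ k3 (hU W' N' M' k2 h2))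

end LH
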