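import Pool.Agent.LH.Stmts2

/-!
# WON: every crossing is an item of the list, up to periods
-/

namespace LH

open Set LG

namespace WON

theorem aux {N : ℕ} {w : List It} {k : Kd} {t : ℝ} {e : ℤ} {I : It} (h : I = ⟨k, t, e⟩)
    (hm : ∃ i ∈ w, ∃ k : ℤ, I.k = i.k ∧ I.t = i.t ∧ I.e = i.e + k * N) :
    ∃ j : ℤ, (⟨k, t, e + j * N⟩ : It) ∈ w := by
  obtain ⟨i, hi, m, h1, h2, h3⟩ := hm
  rw [h] at h1 h2 h3
  refine ⟨-m, ?_⟩
  have : (⟨k, t, e + -m * N⟩ : It) = i := by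
    cases i
    simp only at h1 h2 h3
    subst h1
    subst h2
    rw [h3]
    ring_nf
  rw [this]
  exact hi

end WON

theorem t_WON : Stmt_WON := by
  intro sq N P X w hw t ht e
  obtain ⟨W, hW⟩ := sq.ex P X w hw
  have hc := sq.cov P X w W hW t ht e
  have hm := sq.mem P X w W hW
  constructor
  · intro h1 h2
    obtain ⟨n, hn⟩ := hc.1 h1 h2
    exact WON.aux hn (hm n)
  · intro h1 h2
    obtain ⟨n, hn⟩ := hc.2 h1 h2
    exact WON.aux hn (hm n)

end LH
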