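import Pool.Agent.LH.Stmts1

/-!
# WZL: wrong zigzags to the left
-/

namespace LH

open Set LG

namespace WZL

/-- Alternation of two entries. -/
def A (x y : En) : Prop := x.isLeft = !y.isLeft

theorem zip_iff (W : List En) : ∀ x y : En,
    (∀ p ∈ (x :: W).zip (W ++ [y]), p.1.isLeft = !p.2.isLeft) ↔
      List.IsChain A (x :: (W ++ [y])) := by
  induction W with
  | nil => intro x y; simp [A]
  | cons z W ih =>
    intro x y
    have h := ih z y
    simp only [List.cons_append, List.zip_cons_cons, List.mem_cons, forall_eq_or_imp,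
      List.isChain_cons_cons] at h ⊢
    rw [← h]
    rfl

theorem alt_iff (x : En) (W : List En) : Alt (x :: W) ↔ List.IsChain A (x :: (W ++ [x])) := by
  unfold Alt cp
  rw [← zip_iff]
  simp

theorem mk_mem {W : List En} {c r : Q} (h : Mk W c r) : Sum.inl c ∈ W ∧ Sum.inr r ∈ W := by
  unfold Mk cp at h
  rcases h with h | h
  · have := List.of_mem_zip h
    exact ⟨this.1, List.mem_rotate.1 this.2⟩
  · have := List.of_mem_zip h
    exact ⟨List.mem_rotate.1 this.2, this.1⟩

theorem col_mem {w : List Pt} {c : Q} (h : Sum.inl c ∈ ents w) : ∃ x ∈ w, x.k ≠ .L ∧ c = x.c := by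
  unfold ents at h
  rw [List.mem_flatMap] at h
  obtain ⟨x, hx, hc⟩ := h
  refine ⟨x, hx, ?_⟩
  unfold ent at hc
  rcases hk : x.k with _ | _ | _ | _ <;> rw [hk] at hc <;> simp at hc ⊢ <;> exact hc

theorem row_mem {w : List Pt} {r : Q} (h : Sum.inr r ∈ ents w) : ∃ x ∈ w, x.k ≠ .R ∧ r = x.r := by
  unfold ents at h
  rw [List.mem_flatMap] at h
  obtain ⟨x, hx, hc⟩ := h
  refine ⟨x, hx, ?_⟩
  unfold ent at hc
  rcases hk : x.k with _ | _ | _ | _ <;> rw [hk] at hc <;> simp at hc ⊢ <;> exact hc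

theorem fl_cons {α β : Type*} (p : α × β) (L : List (α × β)) :
    fl (p :: L) = Sum.inl p.1 :: Sum.inr p.2 :: fl L := by
  simp [fl]

theorem fl_append {α β : Type*} (L L' : List (α × β)) : fl (L ++ L') = fl L ++ fl L' := by
  simp [fl]

theorem chain_fl (n : ℕ) : ∀ (W : List En) (a b : Q), W.length ≤ n →
    List.IsChain A (Sum.inl a :: (W ++ [Sum.inl b])) → ∃ L, fl L = Sum.inl a :: W := by
  induction n using Nat.strong_induction_on with
  | _ n ih =>
    intro W a b hn h
    rcases W with _ | ⟨y, W⟩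
    · simp [A] at h
    · rcases y with y | y
      · simp [A, List.isChain_cons_cons] at h
      · rcases W with _ | ⟨z, W⟩
        · exact ⟨[(a, y)], by simp [fl]⟩
        · rcases z with z | z
          · have h2 : List.IsChain A (Sum.inl z :: (W ++ [Sum.inl b])) := by
              simp only [List.cons_append, List.isChain_cons_cons] at h
              exact h.2.2
            have hl : W.length < n := by
              simp only [List.length_cons] at hn
              omega
            obtain ⟨L, hL⟩ := ih W.length hl W z b le_rfl h2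
            exact ⟨(a, y) :: L, by rw [fl_cons, hL]⟩
          · simp [A, List.isChain_cons_cons] at h

theorem mem_fl {α β : Type*} (L : List (α × β)) (a : α) : Sum.inl a ∈ fl L ↔ a ∈ L.map Prod.fst := by
  induction L with
  | nil => simp [fl]
  | cons p L ih => rw [fl_cons]; simp only [List.mem_cons, List.map_cons, ih]; simp

theorem mem_fr {α β : Type*} (L : List (α × β)) (b : β) : Sum.inr b ∈ fl L ↔ b ∈ L.map Prod.snd := by
  induction L with
  | nil => simp [fl]
  | cons p L ih => rw [fl_cons]; simp only [List.mem_cons, List.map_cons, ih]; simp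

theorem nodup_fl {α β : Type*} (L : List (α × β)) (h : (fl L).Nodup) :
    (L.map Prod.fst).Nodup ∧ (L.map Prod.snd).Nodup := by
  induction L with
  | nil => simp
  | cons p L ih =>
    rw [fl_cons] at h
    rw [List.nodup_cons, List.nodup_cons] at h
    obtain ⟨h1, h2, h3⟩ := h
    have h4 := ih h3
    rw [List.mem_cons] at h1
    rw [mem_fr] at h2
    have h5 : p.1 ∉ L.map Prod.fst := by
      rw [← mem_fl]
      intro h
      exact h1 (Or.inr h)
    simp only [List.map_cons]
    exact ⟨List.nodup_cons.2 ⟨h5, h4.1⟩, List.nodup_cons.2 ⟨h2, h4.2⟩⟩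

theorem fl_map (f g : Q → ℝ) (L : List (Q × Q)) :
    fl (L.map fun p => (f p.1, g p.2)) = (fl L).map (Sum.map f g) := by
  induction L with
  | nil => simp [fl]
  | cons p L ih => rw [List.map_cons, fl_cons, fl_cons, ih]; simp

/-- The representation of an explicit list. -/
theorem rep (W : List En) (M : List (ℝ × ℝ)) (h : Rp W M) (L : List (Q × Q)) (hL : fl L = W) :
    ∃ f g : Q → ℝ,
      (∀ a b, Sum.inl a ∈ W → Sum.inl b ∈ W → a < b → f b < f a) ∧
      (∀ a b, Sum.inr a ∈ W → Sum.inr b ∈ W → a < b → g a < g b) ∧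
      Rp W (L.map fun p => (f p.1, g p.2)) ∧ Nd (L.map fun p => (f p.1, g p.2)) := by
  obtain ⟨hn, f, g, hf, hg, -⟩ := h
  refine ⟨f, g, hf, hg, ⟨hn, f, g, hf, hg, ?_⟩, ?_⟩
  · rw [fl_map, hL]
  · have hn' := hn
    rw [← hL] at hn'
    have h2 := nodup_fl L hn'
    constructor
    · have h3 : (L.map fun p => (f p.1, g p.2)).map Prod.fst = (L.map Prod.fst).map f := by
        simp [Function.comp_def]
      rw [h3]
      refine List.Nodup.map_on ?_ h2.1
      intro x hx y hy hxy
      rw [← mem_fl, hL] at hx hy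
      rcases lt_trichotomy x y with h | h | h
      · have := hf x y hx hy h
        rw [hxy] at this
        exact absurd this (lt_irrefl _)
      · exact h
      · have := hf y x hy hx h
        rw [hxy] at this
        exact absurd this (lt_irrefl _)
    · have h3 : (L.map fun p => (f p.1, g p.2)).map Prod.snd = (L.map Prod.snd).map g := by
        simp [Function.comp_def]
      rw [h3]
      refine List.Nodup.map_on ?_ h2.2
      intro x hx y hy hxy
      rw [← mem_fr, hL] at hx hy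
      rcases lt_trichotomy x y with h | h | h
      · have := hg x y hx hy h
        rw [hxy] at this
        exact absurd this (lt_irrefl _)
      · exact h
      · have := hg y x hy hx h
        rw [hxy] at this
        exact absurd this (lt_irrefl _)

theorem c_lt {p q : Pt} (ht : p.t = q.t) (hh : p.h < q.h) : p.c < q.c := by
  unfold Pt.c
  rw [Prod.Lex.toLex_lt_toLex]
  exact Or.inr ⟨ht, hh⟩

theorem r_lt {p q : Pt} (ht : p.t = q.t) (hh : p.h < q.h) : p.r < q.r := by
  unfold Pt.r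
  rw [Prod.Lex.toLex_lt_toLex]
  exact Or.inr ⟨by rw [ht], hh⟩

theorem c_lt' {p q : Pt} (ht : p.t < q.t) : p.c < q.c := by
  unfold Pt.c
  rw [Prod.Lex.toLex_lt_toLex]
  exact Or.inl ht

theorem r_lt' {p q : Pt} (ht : q.t < p.t) : p.r < q.r := by
  unfold Pt.r
  rw [Prod.Lex.toLex_lt_toLex]
  exact Or.inl (neg_lt_neg ht)

/-- The list after the two removals. -/
theorem red (hW : P_WEB) (hC : P_CWA) (hD : P_DC2) (hR : P_DR2) (s₁ u s₂ v s₃ q : Pt) (T : List Pt)
    (E : List En) (z : ZgL s₁ u s₂ v s₃ (q :: T)) (hE : ents (q :: T) = Sum.inr q.r :: E)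
    (hu : u.t < s₂.t) (hv : s₂.t < v.t)
    (hh : s₃.h < s₂.h ∧ s₂.h < s₁.h ∨ s₁.h < s₂.h ∧ s₂.h < s₃.h) :
    WE (ents (s₁ :: u :: s₂ :: v :: s₃ :: q :: T))
      (.inl s₂.c :: .inr s₃.r :: .inl s₃.c :: .inr q.r :: (E ++ [.inr s₁.r])) ∧
    ∃ L : List (Q × Q), fl L =
      (.inl s₂.c :: .inr s₃.r :: .inl s₃.c :: .inr q.r :: (E ++ [.inr s₁.r])) := by
  have hent : ents (s₁ :: u :: s₂ :: v :: s₃ :: q :: T) =
      .inr s₁.r :: .inl s₁.c :: .inr u.r :: .inl s₂.c :: .inr s₂.r :: .inl v.c :: .inr s₃.r ::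
        .inl s₃.c :: .inr q.r :: E := by
    have h1 : ∀ (p : Pt) (l : List Pt), ents (p :: l) = ent p ++ ents l := by
      intro p l
      simp [ents]
    rw [h1, h1, h1, h1, h1, hE]
    simp [ent, z.k₁, z.ku, z.k₂, z.kv, z.k₃]
  have halt := hC.alt _ z.cw
  have hnd := z.cw.nd
  have hcol := fun c (h : Sum.inl c ∈ ents (s₁ :: u :: s₂ :: v :: s₃ :: q :: T)) => col_mem h
  have hrow := fun r (h : Sum.inr r ∈ ents (s₁ :: u :: s₂ :: v :: s₃ :: q :: T)) => row_mem h
  have htc := z.tri.col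
  have htr := z.tri.row
  rw [hent] at halt hnd hcol hrow ⊢
  have hch := (alt_iff _ _).1 halt
  have hK : List.IsChain A (Sum.inl s₃.c :: Sum.inr q.r :: (E ++ [Sum.inr s₁.r])) := by
    simp only [List.cons_append, List.isChain_cons_cons] at hch ⊢
    tauto
  have t12 := z.tri.t₂
  have t13 := z.tri.t₃
  -- chains with more entries at the end
  have hK2 : ∀ X : List En, List.IsChain A (Sum.inr s₁.r :: X) →
      List.IsChain A (Sum.inl s₃.c :: Sum.inr q.r :: (E ++ (Sum.inr s₁.r :: X))) := by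
    intro X hX
    have := List.isChain_split (R := A) (c := Sum.inr s₁.r)
      (l₁ := Sum.inl s₃.c :: Sum.inr q.r :: E) (l₂ := X)
    simp only [List.cons_append] at this
    rw [this]
    exact ⟨by simpa using hK, hX⟩
  -- no columns and no rows in between
  have hnc : ∀ c, Sum.inl c ∈ (.inr s₁.r :: .inl s₁.c :: .inr u.r :: .inl s₂.c :: .inr s₂.r ::
      .inl v.c :: .inr s₃.r :: .inl s₃.c :: .inr q.r :: E : List En) → Btw s₁.c s₃.c c →
      c = s₂.c := by
    intro c hc hb
    obtain ⟨x, hx, hk, rfl⟩ := hcol c hc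
    rw [htc x hx hk hb]
  have hnr : ∀ r, Sum.inr r ∈ (.inr s₁.r :: .inl s₁.c :: .inr u.r :: .inl s₂.c :: .inr s₂.r ::
      .inl v.c :: .inr s₃.r :: .inl s₃.c :: .inr q.r :: E : List En) → Btw s₁.r s₃.r r →
      r = s₂.r := by
    intro c hc hb
    obtain ⟨x, hx, hk, rfl⟩ := hrow c hc
    rw [htr x hx hk hb]
  have ru : ∀ p : Pt, p.t = s₂.t → p.r < u.r := fun p hp => r_lt' (by rw [hp]; exact hu)
  have cv : ∀ p : Pt, p.t = s₂.t → p.c < v.c := fun p hp => c_lt' (by rw [hp]; exact hv)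
  -- first step
  have e1 : WE (.inr s₁.r :: .inl s₁.c :: .inr u.r :: .inl s₂.c :: .inr s₂.r :: .inl v.c ::
      .inr s₃.r :: .inl s₃.c :: .inr q.r :: E)
      (.inl s₁.c :: .inr u.r :: .inl s₂.c :: .inr s₂.r :: ((.inl v.c ::
      .inr s₃.r :: .inl s₃.c :: .inr q.r :: E) ++ [.inr s₁.r])) := by
    have := hW.rot [.inr s₁.r] (.inl s₁.c :: .inr u.r :: .inl s₂.c :: .inr s₂.r :: .inl v.c ::
      .inr s₃.r :: .inl s₃.c :: .inr q.r :: E) (by simpa using halt) (by simpa using hnd)
    simpa using this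
  have p1 : (.inl s₁.c :: .inr u.r :: .inl s₂.c :: .inr s₂.r :: ((.inl v.c ::
      .inr s₃.r :: .inl s₃.c :: .inr q.r :: E) ++ [.inr s₁.r]) : List En).Perm
      (.inr s₁.r :: .inl s₁.c :: .inr u.r :: .inl s₂.c :: .inr s₂.r :: .inl v.c ::
      .inr s₃.r :: .inl s₃.c :: .inr q.r :: E) := by
    have := List.perm_append_comm (l₁ := (.inl s₁.c :: .inr u.r :: .inl s₂.c :: .inr s₂.r :: .inl v.c ::
      .inr s₃.r :: .inl s₃.c :: .inr q.r :: E : List En)) (l₂ := [.inr s₁.r])
    simpa using this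
  have e2 : WE (.inl s₁.c :: .inr u.r :: .inl s₂.c :: .inr s₂.r :: ((.inl v.c ::
      .inr s₃.r :: .inl s₃.c :: .inr q.r :: E) ++ [.inr s₁.r]))
      (.inl s₂.c :: .inr s₂.r :: ((.inl v.c ::
      .inr s₃.r :: .inl s₃.c :: .inr q.r :: E) ++ [.inr s₁.r])) := by
    refine hR u.r s₁.c s₁.r s₂.r s₂.c (.inl v.c :: .inr s₃.r :: .inl s₃.c :: .inr q.r :: E)
      ?_ ?_ ?_ ?_
    · rw [alt_iff]
      have := hK2 [Sum.inl s₁.c] (by simp [A])
      simp only [List.cons_append, List.isChain_cons_cons, List.append_assoc, List.nil_append] at this ⊢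
      simp only [A, Sum.isLeft_inl, Sum.isLeft_inr, Bool.not_true, Bool.not_false, true_and] at this ⊢
      exact this
    · exact (List.Perm.nodup_iff p1).2 hnd
    · intro c r hm hb
      have hm2 := (mk_mem hm).1
      have hm3 := (List.Perm.mem_iff p1).1 hm2
      exfalso
      have hlt : Btw s₁.c s₃.c c := by
        rcases hh with ⟨h1, h2⟩ | ⟨h1, h2⟩
        · have a1 : s₃.c < s₂.c := c_lt (by rw [← t12, ← t13]) h1
          have a2 : s₂.c < s₁.c := c_lt t12.symm h2
          rcases hb with ⟨b1, b2⟩ | ⟨b1, b2⟩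
          · exact absurd (b1.trans b2) (not_lt.2 a2.le)
          · exact Or.inr ⟨a1.trans b1, b2⟩
        · have a1 : s₁.c < s₂.c := c_lt t12 h1
          have a2 : s₂.c < s₃.c := c_lt (by rw [← t12, ← t13]) h2
          rcases hb with ⟨b1, b2⟩ | ⟨b1, b2⟩
          · exact Or.inl ⟨b1, b2.trans a2⟩
          · exact absurd (b1.trans b2) (not_lt.2 a1.le)
      have h3 := hnc c hm3 hlt
      rw [h3] at hb
      rcases hb with ⟨b1, b2⟩ | ⟨b1, b2⟩
      · exact lt_irrefl _ b2
      · exact lt_irrefl _ b1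
    · rcases hh with ⟨h1, h2⟩ | ⟨h1, h2⟩
      · right
        exact ⟨c_lt t12.symm h2, Or.inr (Or.inl ⟨r_lt t12.symm h2, ru s₁ t12⟩)⟩
      · left
        exact ⟨c_lt t12 h1, Or.inr (Or.inl ⟨r_lt t12 h1, ru s₂ rfl⟩)⟩
  -- second step
  have hsub : ∀ x : En, x ∈ (.inr s₂.r :: .inl v.c :: .inr s₃.r :: .inl s₃.c ::
      ((.inr q.r :: E) ++ [.inr s₁.r, .inl s₂.c]) : List En) →
      x ∈ (.inr s₁.r :: .inl s₁.c :: .inr u.r :: .inl s₂.c :: .inr s₂.r ::
      .inl v.c :: .inr s₃.r :: .inl s₃.c :: .inr q.r :: E : List En) := by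
    intro x hx
    simp only [List.cons_append, List.mem_cons, List.mem_append, List.not_mem_nil, or_false] at hx ⊢
    tauto
  have p2 : (.inl s₂.c :: .inr s₂.r :: ((.inl v.c ::
      .inr s₃.r :: .inl s₃.c :: .inr q.r :: E) ++ [.inr s₁.r]) : List En).Nodup := by
    have h1 := (List.Perm.nodup_iff p1).2 hnd
    rw [List.nodup_cons, List.nodup_cons] at h1
    exact h1.2.2
  have a2 : Alt (.inl s₂.c :: .inr s₂.r :: ((.inl v.c ::
      .inr s₃.r :: .inl s₃.c :: .inr q.r :: E) ++ [.inr s₁.r])) := by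
    rw [alt_iff]
    have := hK2 [Sum.inl s₂.c] (by simp [A])
    simp only [List.cons_append, List.isChain_cons_cons, List.append_assoc, List.nil_append] at this ⊢
    simp only [A, Sum.isLeft_inl, Sum.isLeft_inr, Bool.not_true, Bool.not_false, true_and] at this ⊢
    exact this
  have e3 : WE (.inl s₂.c :: .inr s₂.r :: ((.inl v.c ::
      .inr s₃.r :: .inl s₃.c :: .inr q.r :: E) ++ [.inr s₁.r]))
      (.inr s₂.r :: .inl v.c :: .inr s₃.r :: .inl s₃.c ::
      ((.inr q.r :: E ++ [.inr s₁.r]) ++ [.inl s₂.c])) := by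
    have := hW.rot [.inl s₂.c] (.inr s₂.r :: ((.inl v.c ::
      .inr s₃.r :: .inl s₃.c :: .inr q.r :: E) ++ [.inr s₁.r])) (by simpa using a2) (by simpa using p2)
    simpa using this
  have p3 : (.inr s₂.r :: .inl v.c :: .inr s₃.r :: .inl s₃.c ::
      ((.inr q.r :: E ++ [.inr s₁.r]) ++ [.inl s₂.c]) : List En).Nodup := by
    have hp := List.perm_append_comm (l₁ := (.inr s₂.r :: .inl v.c :: .inr s₃.r :: .inl s₃.c ::
      (.inr q.r :: E ++ [.inr s₁.r]) : List En)) (l₂ := [.inl s₂.c])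
    have h1 := (List.Perm.nodup_iff hp).2 (by simpa using p2)
    simpa using h1
  have e4 : WE (.inr s₂.r :: .inl v.c :: .inr s₃.r :: .inl s₃.c ::
      ((.inr q.r :: E ++ [.inr s₁.r]) ++ [.inl s₂.c]))
      (.inr s₃.r :: .inl s₃.c :: ((.inr q.r :: E ++ [.inr s₁.r]) ++ [.inl s₂.c])) := by
    refine hD v.c s₂.r s₂.c s₃.c s₃.r (.inr q.r :: E ++ [.inr s₁.r]) ?_ p3 ?_ ?_
    · rw [alt_iff]
      have := hK2 [Sum.inl s₂.c, Sum.inr s₂.r] (by simp [A, List.isChain_cons_cons])
      simp only [List.cons_append, List.isChain_cons_cons, List.append_assoc, List.nil_append] at this ⊢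
      simp only [A, Sum.isLeft_inl, Sum.isLeft_inr, Bool.not_true, Bool.not_false, true_and] at this ⊢
      exact this
    · intro c r hm hb
      have hm2 := (mk_mem hm).2
      have hm3 := hsub (Sum.inr r) (by simpa using hm2)
      exfalso
      have hlt : Btw s₁.r s₃.r r := by
        rcases hh with ⟨h1, h2⟩ | ⟨h1, h2⟩
        · have a1 : s₃.r < s₂.r := r_lt (by rw [← t12, ← t13]) h1
          have a2 : s₂.r < s₁.r := r_lt t12.symm h2
          rcases hb with ⟨b1, b2⟩ | ⟨b1, b2⟩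
          · exact absurd (b1.trans b2) (not_lt.2 a1.le)
          · exact Or.inr ⟨b1, b2.trans a2⟩
        · have a1 : s₁.r < s₂.r := r_lt t12 h1
          have a2 : s₂.r < s₃.r := r_lt (by rw [← t12, ← t13]) h2
          rcases hb with ⟨b1, b2⟩ | ⟨b1, b2⟩
          · exact Or.inl ⟨a1.trans b1, b2⟩
          · exact absurd (b1.trans b2) (not_lt.2 a2.le)
      have h3 := hnr r hm3 hlt
      rw [h3] at hb
      rcases hb with ⟨b1, b2⟩ | ⟨b1, b2⟩
      · exact lt_irrefl _ b1
      · exact lt_irrefl _ b2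
    · rcases hh with ⟨h1, h2⟩ | ⟨h1, h2⟩
      · right
        exact ⟨r_lt (by rw [← t12, ← t13]) h1, Or.inl ⟨c_lt (by rw [← t12, ← t13]) h1, cv s₂ rfl⟩⟩
      · left
        exact ⟨r_lt (by rw [← t12, ← t13]) h2, Or.inl ⟨c_lt (by rw [← t12, ← t13]) h2,
          cv s₃ (by rw [← t12, ← t13])⟩⟩
  -- rotation to the final form
  have a4 : Alt (.inr s₃.r :: .inl s₃.c :: ((.inr q.r :: E ++ [.inr s₁.r]) ++ [.inl s₂.c])) := by
    rw [alt_iff]
    have := hK2 [Sum.inl s₂.c, Sum.inr s₃.r] (by simp [A, List.isChain_cons_cons])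
    simp only [List.cons_append, List.isChain_cons_cons, List.append_assoc, List.nil_append] at this ⊢
    simp only [A, Sum.isLeft_inl, Sum.isLeft_inr, Bool.not_true, Bool.not_false, true_and] at this ⊢
    exact this
  have p4 : (.inr s₃.r :: .inl s₃.c :: ((.inr q.r :: E ++ [.inr s₁.r]) ++ [.inl s₂.c]) :
      List En).Nodup := by
    have h1 := p3
    rw [List.nodup_cons, List.nodup_cons] at h1
    exact h1.2.2
  have e5 : WE (.inr s₃.r :: .inl s₃.c :: ((.inr q.r :: E ++ [.inr s₁.r]) ++ [.inl s₂.c]))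
      (.inl s₂.c :: .inr s₃.r :: .inl s₃.c :: .inr q.r :: (E ++ [.inr s₁.r])) := by
    have := hW.rot (.inr s₃.r :: .inl s₃.c :: (.inr q.r :: E ++ [.inr s₁.r])) [.inl s₂.c]
      (by simpa using a4) (by simpa using p4)
    simpa using this
  refine ⟨hW.trans _ _ _ e1 (hW.trans _ _ _ e2 (hW.trans _ _ _ e3 (hW.trans _ _ _ e4 e5))), ?_⟩
  refine chain_fl _ (.inr s₃.r :: .inl s₃.c :: .inr q.r :: (E ++ [.inr s₁.r])) s₂.c s₂.c le_rfl ?_
  have := hK2 [Sum.inl s₂.c] (by simp [A])
  simp only [List.cons_append, List.isChain_cons_cons, List.append_assoc, List.nil_append] at this ⊢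
  simp only [A, Sum.isLeft_inl, Sum.isLeft_inr, Bool.not_true, Bool.not_false, true_and] at this ⊢
  exact this

end WZL

open WZL in
theorem t_WZL : Stmt_WZL := by
  intro hQ hwr hwp hW hC hD hR _ s₁ u s₂ v s₃ T z M hM
  have hst := z.cw.st
  have hu : u.t < s₂.t := by
    have := hst (u, s₂) (by simp [cp])
    rcases this with h | h
    · exact h.2.2
    · exact absurd (by simp [z.ku, Kd.fw] : u.k.fw) h.1
  have hv : s₂.t < v.t := by
    have := hst (s₂, v) (by simp [cp])
    rcases this with h | h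
    · exact h.2.2
    · exact absurd (by simp [z.k₂, Kd.fw] : s₂.k.fw) h.1
  have h3 : ¬ s₃.k.fw := by simp [z.k₃, Kd.fw]
  rcases T with _ | ⟨q, T⟩
  · exfalso
    have := hst (s₃, s₁) (by simp [cp])
    rcases this with h | h
    · exact h3 h.1
    · have h2 := h.2.2
      have h4 := z.tri.t₃
      simp only at h2
      linarith
  have hq : ¬ q.k.ar ∧ q.t < s₃.t := by
    have := hst (s₃, q) (by simp [cp])
    rcases this with h | h
    · exact absurd h.1 h3
    · exact h.2
  obtain ⟨E, hE⟩ : ∃ E, ents (q :: T) = Sum.inr q.r :: E := by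
    have h1 : ents (q :: T) = ent q ++ ents T := by simp [ents]
    rw [h1]
    have h2 := hq.1
    unfold ent
    rcases hk : q.k with _ | _ | _ | _
    · rw [hk] at h2
      simp [Kd.ar] at h2
    · exact ⟨Sum.inl q.c :: ents T, by simp⟩
    · rw [hk] at h2
      simp [Kd.ar] at h2
    · exact ⟨ents T, by simp⟩
  have t12 := z.tri.t₂
  have t13 := z.tri.t₃
  have main : ∀ hh : s₃.h < s₂.h ∧ s₂.h < s₁.h ∨ s₁.h < s₂.h ∧ s₂.h < s₃.h,
      (s₃.h < s₂.h ∧ s₂.h < s₁.h → VL M) ∧ (s₁.h < s₂.h ∧ s₂.h < s₃.h → VP M) := by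
    intro hh
    obtain ⟨hWE, L, hL⟩ := red hW hC hD hR s₁ u s₂ v s₃ q T E z hE hu hv hh
    obtain ⟨_, M₂, _, hM2, _⟩ := id hWE
    -- the shape of L
    obtain ⟨B, x, hLB⟩ : ∃ (B : List (Q × Q)) (x : Q),
        L = (s₂.c, s₃.r) :: (s₃.c, q.r) :: (B ++ [(x, s₁.r)]) := by
      rcases L with _ | ⟨⟨a, b⟩, L⟩
      · simp [fl] at hL
      rcases L with _ | ⟨⟨a', b'⟩, L⟩
      · simp [fl] at hL
      rw [fl_cons, fl_cons] at hL
      simp only [List.cons.injEq, Sum.inl.injEq, Sum.inr.injEq] at hL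
      obtain ⟨rfl, rfl, rfl, rfl, hL⟩ := hL
      rcases List.eq_nil_or_concat L with rfl | ⟨B, y, rfl⟩
      · simp [fl] at hL
      · rw [List.concat_eq_append, fl_append] at hL
        have h5 : fl [y] = [Sum.inl y.1] ++ [Sum.inr y.2] := by simp [fl]
        rw [h5, ← List.append_assoc] at hL
        have h6 := List.append_inj_right' hL (by simp)
        simp only [List.cons.injEq, Sum.inr.injEq, and_true] at h6
        refine ⟨B, y.1, ?_⟩
        rw [List.concat_eq_append, ← h6]
    obtain ⟨f, g, hf, hg, hRp, hNd⟩ := rep _ _ hM2 L hL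
    have hLEq := hW.all _ _ _ _ hWE hM hRp
    have hQ' := hQ _ _ hLEq
    -- columns of the list are columns of the walk
    have hcols : ∀ d ∈ (L.map fun p => (f p.1, g p.2)).map Prod.fst, ∃ c, d = f c ∧
        Sum.inl c ∈ (.inl s₂.c :: .inr s₃.r :: .inl s₃.c :: .inr q.r :: (E ++ [.inr s₁.r]) :
          List En) ∧ (Btw s₁.c s₃.c c → c = s₂.c) := by
      intro d hd
      have h4 : (L.map fun p => (f p.1, g p.2)).map Prod.fst = (L.map Prod.fst).map f := by
        simp [Function.comp_def]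
      rw [h4, List.mem_map] at hd
      obtain ⟨c, hc, rfl⟩ := hd
      rw [← mem_fl, hL] at hc
      refine ⟨c, rfl, hc, ?_⟩
      intro hb
      have hc2 : Sum.inl c ∈ ents (s₁ :: u :: s₂ :: v :: s₃ :: q :: T) := by
        have h1 : ∀ (p : Pt) (l : List Pt), ents (p :: l) = ent p ++ ents l := by
          intro p l
          simp [ents]
        rw [h1, h1, h1, h1, h1, hE]
        simp only [ent, z.k₁, z.ku, z.k₂, z.kv, z.k₃]
        simp only [List.mem_cons, List.mem_append, List.cons_append, List.nil_append,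
          List.not_mem_nil, or_false] at hc ⊢
        tauto
      obtain ⟨y, hy, hk, rfl⟩ := col_mem hc2
      rw [z.tri.col y hy hk hb]
    have m1 : Sum.inl s₂.c ∈ (.inl s₂.c :: .inr s₃.r :: .inl s₃.c :: .inr q.r ::
        (E ++ [.inr s₁.r]) : List En) := by simp
    have m2 : Sum.inl s₃.c ∈ (.inl s₂.c :: .inr s₃.r :: .inl s₃.c :: .inr q.r ::
        (E ++ [.inr s₁.r]) : List En) := by simp
    have m3 : Sum.inr s₃.r ∈ (.inl s₂.c :: .inr s₃.r :: .inl s₃.c :: .inr q.r ::
        (E ++ [.inr s₁.r]) : List En) := by simp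
    have m4 : Sum.inr q.r ∈ (.inl s₂.c :: .inr s₃.r :: .inl s₃.c :: .inr q.r ::
        (E ++ [.inr s₁.r]) : List En) := by simp
    have m5 : Sum.inr s₁.r ∈ (.inl s₂.c :: .inr s₃.r :: .inl s₃.c :: .inr q.r ::
        (E ++ [.inr s₁.r]) : List En) := by simp
    rw [hLB] at hcols hNd hQ'
    simp only [List.map_cons, List.map_append, List.map_nil] at hNd hQ' hcols
    have rq3 : s₃.r < q.r := r_lt' hq.2
    have rq1 : s₁.r < q.r := r_lt' (by rw [t13]; exact hq.2)
    constructor
    · rintro ⟨h1, h2⟩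
      rw [hQ'.1]
      have k1 : s₃.c < s₂.c := c_lt (by rw [← t12, ← t13]) h1
      have k2 : s₂.c < s₁.c := c_lt t12.symm h2
      have k3 := hf _ _ m2 m1 k1
      refine hwr (f s₂.c) (g s₃.r) (f s₃.c) (g q.r)
        (B.map fun p => (f p.1, g p.2)) (f x, g s₁.r) hNd ?_ ?_
      · intro d hd
        simp only [List.map_cons, List.map_append, List.map_nil] at hd
        obtain ⟨c, rfl, hc, hb⟩ := hcols d hd
        intro hcy
        have k4 : f s₂.c < f c ∧ f c < f s₃.c := by
          unfold cyc at hcy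
          rcases hcy with h | h | h
          · exact h
          · exact absurd h.2 (not_lt.2 k3.le)
          · exact absurd h.1 (not_lt.2 k3.le)
        have k5 : s₃.c < c := by
          by_contra hcon
          rcases lt_or_eq_of_le (not_lt.1 hcon) with h | h
          · exact absurd (hf _ _ hc m2 h) (not_lt.2 k4.2.le)
          · rw [h] at k4
            exact lt_irrefl _ k4.2
        have k6 : c < s₂.c := by
          by_contra hcon
          rcases lt_or_eq_of_le (not_lt.1 hcon) with h | h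
          · exact absurd (hf _ _ m1 hc h) (not_lt.2 k4.1.le)
          · rw [h] at k4
            exact lt_irrefl _ k4.1
        have k7 := hb (Or.inr ⟨k5, k6.trans k2⟩)
        exact absurd k7 (ne_of_lt k6)
      · exact Or.inl ⟨hg _ _ m3 m5 (r_lt t13.symm (h1.trans h2)), hg _ _ m5 m4 rq1⟩
    · rintro ⟨h1, h2⟩
      rw [hQ'.2]
      have k1 : s₂.c < s₃.c := c_lt (by rw [← t12, ← t13]) h2
      have k2 : s₁.c < s₂.c := c_lt t12 h1
      have k3 := hf _ _ m1 m2 k1
      refine hwp (f s₂.c) (g s₃.r) (f s₃.c) (g q.r)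
        (B.map fun p => (f p.1, g p.2)) (f x, g s₁.r) hNd ?_ ?_
      · intro d hd
        simp only [List.map_cons, List.map_append, List.map_nil] at hd
        obtain ⟨c, rfl, hc, hb⟩ := hcols d hd
        intro hcy
        have k4 : f s₃.c < f c ∧ f c < f s₂.c := by
          unfold cyc at hcy
          rcases hcy with h | h | h
          · exact h
          · exact absurd h.2 (not_lt.2 k3.le)
          · exact absurd h.1 (not_lt.2 k3.le)
        have k5 : c < s₃.c := by
          by_contra hcon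
          rcases lt_or_eq_of_le (not_lt.1 hcon) with h | h
          · exact absurd (hf _ _ m2 hc h) (not_lt.2 k4.1.le)
          · rw [h] at k4
            exact lt_irrefl _ k4.1
        have k6 : s₂.c < c := by
          by_contra hcon
          rcases lt_or_eq_of_le (not_lt.1 hcon) with h | h
          · exact absurd (hf _ _ hc m1 h) (not_lt.2 k4.2.le)
          · rw [h] at k4
            exact lt_irrefl _ k4.2
        have k7 := hb (Or.inl ⟨k2.trans k6, k5⟩)
        exact absurd k7 (ne_of_gt k6)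
      · exact Or.inr (Or.inr ⟨hg _ _ m5 m3 (r_lt t13 (h1.trans h2)), hg _ _ m3 m4 rq3⟩)
  exact ⟨fun h1 h2 => (main (Or.inl ⟨h1, h2⟩)).1 ⟨h1, h2⟩,
    fun h1 h2 => (main (Or.inr ⟨h1, h2⟩)).2 ⟨h1, h2⟩⟩

end LH
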