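import Pool.Agent.LH.Stmts1

/-!
# Part C: zigzags to the right of the wrong type
-/

namespace LH

open Set LG

namespace WZR

theorem c_lt {p q : Pt} : p.c < q.c ↔ p.t < q.t ∨ p.t = q.t ∧ p.h < q.h :=
  Prod.Lex.toLex_lt_toLex

theorem r_lt {p q : Pt} : p.r < q.r ↔ q.t < p.t ∨ p.t = q.t ∧ p.h < q.h := by
  unfold Pt.r
  rw [Prod.Lex.toLex_lt_toLex]
  simp only [neg_lt_neg_iff, neg_inj]

/-- Alternation of two entries. -/
def RR (x y : En) : Prop := x.isLeft = !y.isLeft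

theorem zip_chain (R : En → En → Prop) (L : List En) : ∀ a b : En,
    (∀ p ∈ (a :: L).zip (L ++ [b]), R p.1 p.2) ↔ List.IsChain R (a :: (L ++ [b])) := by
  induction L with
  | nil => intro a b; simp
  | cons c L ih =>
    intro a b
    simp only [List.cons_append, List.zip_cons_cons, List.forall_mem_cons,
      List.isChain_cons_cons]
    rw [ih c b]

theorem alt_iff (a : En) (L : List En) : Alt (a :: L) ↔ List.IsChain RR (a :: (L ++ [a])) := by
  unfold Alt cp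
  have e : (a :: L).rotate 1 = L ++ [a] := by simp
  rw [e, ← zip_chain]
  simp only [ne_eq, reduceCtorEq, not_false_eq_true, true_and, RR]

theorem inl_mem_ents {w : List Pt} {c : Q} (h : Sum.inl c ∈ ents w) :
    ∃ x ∈ w, x.k ≠ .L ∧ x.c = c := by
  unfold ents at h
  obtain ⟨x, hx, h⟩ := List.mem_flatMap.1 h
  refine ⟨x, hx, ?_⟩
  obtain ⟨k, t, h'⟩ := x
  cases k <;> simp [ent] at h ⊢ <;> exact h.symm

theorem inr_mem_ents {w : List Pt} {r : Q} (h : Sum.inr r ∈ ents w) :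
    ∃ x ∈ w, x.k ≠ .R ∧ x.r = r := by
  unfold ents at h
  obtain ⟨x, hx, h⟩ := List.mem_flatMap.1 h
  refine ⟨x, hx, ?_⟩
  obtain ⟨k, t, h'⟩ := x
  cases k <;> simp [ent] at h ⊢ <;> exact h.symm

theorem Mk_mem {W : List En} {c r : Q} (h : Mk W c r) : Sum.inl c ∈ W ∧ Sum.inr r ∈ W := by
  unfold Mk cp at h
  rcases h with h | h
  · have h' := List.of_mem_zip h
    exact ⟨h'.1, List.mem_rotate.1 h'.2⟩
  · have h' := List.of_mem_zip h
    exact ⟨List.mem_rotate.1 h'.2, h'.1⟩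

theorem last_cp (a z : Pt) (B : List Pt) : (z, a) ∈ cp (a :: (B ++ [z])) := by
  unfold cp
  have e : (a :: (B ++ [z])).rotate 1 = (B ++ [z]) ++ [a] := by simp
  have e' : a :: (B ++ [z]) = (a :: B) ++ [z] := rfl
  rw [e, e', List.zip_append (by simp)]
  exact List.mem_append_right _ (by simp)

/-- The two removals. -/
theorem step (hW : P_WEB) (hD : P_DC1) (hR : P_DR2) (C1 R1 Cu R2 C2 Rv C3 R3 : Q) (X : List En)
    (hA : Alt (.inl C1 :: .inr R1 :: .inl Cu :: .inr R2 :: .inl C2 :: .inr Rv :: .inl C3 ::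
      .inr R3 :: X))
    (hN : (Sum.inl C1 :: .inr R1 :: .inl Cu :: .inr R2 :: .inl C2 :: .inr Rv :: .inl C3 ::
      .inr R3 :: X : List En).Nodup)
    (hc : ∀ c, Sum.inl c ∈ (Sum.inl C1 :: .inr R1 :: .inl Cu :: .inr R2 :: .inl C2 :: .inr Rv ::
      .inl C3 :: .inr R3 :: X : List En) → ¬ Btw C2 C3 c)
    (hr : ∀ r, Sum.inr r ∈ (Sum.inl C1 :: .inr R1 :: .inl Cu :: .inr R2 :: .inl C2 :: .inr Rv ::
      .inl C3 :: .inr R3 :: X : List En) → ¬ Btw R2 R1 r)
    (h1 : C2 < C3 ∧ cyc Rv R2 R3 ∨ C3 < C2 ∧ cyc Rv R3 R2)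
    (h2 : R2 < R1 ∧ cyc C3 C1 Cu ∨ R1 < R2 ∧ cyc C1 C3 Cu) :
    WE (.inl C1 :: .inr R1 :: .inl Cu :: .inr R2 :: .inl C2 :: .inr Rv :: .inl C3 ::
      .inr R3 :: X) (.inl C1 :: .inr R1 :: .inl C3 :: .inr R3 :: X) := by
  have hX : List.IsChain RR (.inr R3 :: (X ++ [.inl C1])) := by
    have h := (alt_iff _ _).1 hA
    simp only [List.cons_append, List.isChain_cons_cons] at h
    exact h.2.2.2.2.2.2.2
  have r1 : ∀ a b : Q, RR (.inl a) (.inr b) := fun _ _ => rfl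
  have r2 : ∀ a b : Q, RR (.inr a) (.inl b) := fun _ _ => rfl
  -- the first rotation
  have e1 : WE (.inl C1 :: .inr R1 :: .inl Cu :: .inr R2 :: .inl C2 :: .inr Rv :: .inl C3 ::
      .inr R3 :: X) (.inl C2 :: .inr Rv :: .inl C3 :: .inr R3 ::
        ((X ++ [.inl C1, .inr R1, .inl Cu]) ++ [.inr R2])) := by
    have h := hW.rot [.inl C1, .inr R1, .inl Cu, .inr R2]
      (.inl C2 :: .inr Rv :: .inl C3 :: .inr R3 :: X) hA hN
    rw [List.append_assoc]
    exact h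
  have A1 : Alt (.inl C2 :: .inr Rv :: .inl C3 :: .inr R3 ::
        ((X ++ [.inl C1, .inr R1, .inl Cu]) ++ [.inr R2])) := by
    rw [alt_iff]
    simp only [List.cons_append, List.append_assoc, List.nil_append, List.isChain_cons_cons]
    refine ⟨r1 _ _, r2 _ _, r1 _ _, ?_⟩
    have h : List.IsChain RR ((.inr R3 :: X) ++ .inl C1 ::
        [.inr R1, .inl Cu, .inr R2, .inl C2]) := by
      rw [List.isChain_split]
      refine ⟨hX, ?_⟩
      simp [r1, r2]
    exact h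
  have N1 : (Sum.inl C2 :: .inr Rv :: .inl C3 :: .inr R3 ::
        ((X ++ [.inl C1, .inr R1, .inl Cu]) ++ [.inr R2]) : List En).Nodup := by
    have h := List.nodup_append_comm.1 (show ([.inl C1, .inr R1, .inl Cu, .inr R2] ++
      (.inl C2 :: .inr Rv :: .inl C3 :: .inr R3 :: X) : List En).Nodup from hN)
    rw [List.append_assoc]
    exact h
  have m1 : ∀ y : En, y ∈ (Sum.inl C2 :: .inr Rv :: .inl C3 :: .inr R3 ::
        ((X ++ [.inl C1, .inr R1, .inl Cu]) ++ [.inr R2]) : List En) →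
      y ∈ (Sum.inl C1 :: .inr R1 :: .inl Cu :: .inr R2 :: .inl C2 :: .inr Rv ::
      .inl C3 :: .inr R3 :: X : List En) := by
    intro y hy
    rw [List.append_assoc] at hy
    exact List.perm_append_comm.mem_iff.1 (show y ∈ ((.inl C2 :: .inr Rv :: .inl C3 ::
      .inr R3 :: X) ++ [.inl C1, .inr R1, .inl Cu, .inr R2] : List En) from hy)
  have e2 := hR Rv C2 R2 R3 C3 (X ++ [.inl C1, .inr R1, .inl Cu]) A1 N1
    (fun c r hm hb => absurd hb (hc c (m1 _ (Mk_mem hm).1))) h1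
  -- the second rotation
  have A2 : Alt (.inl C3 :: .inr R3 :: ((X ++ [.inl C1, .inr R1, .inl Cu]) ++ [.inr R2])) := by
    rw [alt_iff]
    simp only [List.cons_append, List.append_assoc, List.nil_append, List.isChain_cons_cons]
    refine ⟨r1 _ _, ?_⟩
    have h : List.IsChain RR ((.inr R3 :: X) ++ .inl C1 ::
        [.inr R1, .inl Cu, .inr R2, .inl C3]) := by
      rw [List.isChain_split]
      refine ⟨hX, ?_⟩
      simp [r1, r2]
    exact h
  have N2 : (Sum.inl C3 :: .inr R3 ::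
        ((X ++ [.inl C1, .inr R1, .inl Cu]) ++ [.inr R2]) : List En).Nodup :=
    (List.nodup_cons.1 (List.nodup_cons.1 N1).2).2
  have q2 : (Sum.inl C3 :: .inr R3 ::
        ((X ++ [.inl C1, .inr R1, .inl Cu]) ++ [.inr R2]) : List En) =
      (.inl C3 :: .inr R3 :: (X ++ [.inl C1, .inr R1])) ++ [.inl Cu, .inr R2] := by simp
  have e3 : WE (.inl C3 :: .inr R3 :: ((X ++ [.inl C1, .inr R1, .inl Cu]) ++ [.inr R2]))
      (.inl Cu :: .inr R2 :: .inl C3 :: ((.inr R3 :: X) ++ [.inl C1, .inr R1])) := by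
    rw [q2] at A2 N2 ⊢
    exact hW.rot _ _ A2 N2
  have A3 : Alt (.inl Cu :: .inr R2 :: .inl C3 :: ((.inr R3 :: X) ++ [.inl C1, .inr R1])) := by
    rw [alt_iff]
    simp only [List.cons_append, List.append_assoc, List.nil_append, List.isChain_cons_cons]
    refine ⟨r1 _ _, r2 _ _, r1 _ _, ?_⟩
    have h : List.IsChain RR ((.inr R3 :: X) ++ .inl C1 :: [.inr R1, .inl Cu]) := by
      rw [List.isChain_split]
      refine ⟨hX, ?_⟩
      simp [r1, r2]
    exact h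
  have N3 : (Sum.inl Cu :: .inr R2 :: .inl C3 :: ((.inr R3 :: X) ++ [.inl C1, .inr R1]) :
      List En).Nodup := by
    rw [q2] at N2
    exact List.nodup_append_comm.1 N2
  have m3 : ∀ y : En, y ∈ (Sum.inl Cu :: .inr R2 :: .inl C3 ::
        ((.inr R3 :: X) ++ [.inl C1, .inr R1]) : List En) →
      y ∈ (Sum.inl C1 :: .inr R1 :: .inl Cu :: .inr R2 :: .inl C2 :: .inr Rv ::
      .inl C3 :: .inr R3 :: X : List En) := by
    intro y hy
    have h := List.perm_append_comm.mem_iff.1 (show y ∈ ([.inl Cu, .inr R2] ++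
      (.inl C3 :: .inr R3 :: (X ++ [.inl C1, .inr R1])) : List En) from hy)
    rw [← q2] at h
    exact m1 y (List.mem_cons_of_mem _ (List.mem_cons_of_mem _ h))
  have e4 := hD Cu R2 C3 C1 R1 (.inr R3 :: X) A3 N3
    (fun c r hm hb => absurd hb (hr r (m3 _ (Mk_mem hm).2))) h2
  -- the last rotation
  have A4 : Alt ((.inl C3 :: .inr R3 :: X) ++ [.inl C1, .inr R1]) := by
    rw [List.cons_append, alt_iff]
    simp only [List.cons_append, List.append_assoc, List.nil_append, List.isChain_cons_cons]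
    refine ⟨r1 _ _, ?_⟩
    have h : List.IsChain RR ((.inr R3 :: X) ++ .inl C1 :: [.inr R1, .inl C3]) := by
      rw [List.isChain_split]
      refine ⟨hX, ?_⟩
      simp [r1, r2]
    exact h
  have N4 : ((.inl C3 :: .inr R3 :: X) ++ [.inl C1, .inr R1] : List En).Nodup :=
    (List.nodup_cons.1 (List.nodup_cons.1 N3).2).2
  have e5 := hW.rot _ _ A4 N4
  exact hW.trans _ _ _ e1 (hW.trans _ _ _ e2 (hW.trans _ _ _ e3 (hW.trans _ _ _ e4 e5)))

theorem fl_cons {α β : Type*} (a : α) (b : β) (L : List (α × β)) :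
    fl ((a, b) :: L) = Sum.inl a :: Sum.inr b :: fl L := rfl

theorem ex_fl : ∀ (n : ℕ) (X : List En), X.length ≤ n → ∀ r c : Q,
    List.IsChain RR (.inr r :: (X ++ [.inl c])) → ∃ L : List (Q × Q), X = fl L := by
  intro n
  induction n with
  | zero =>
    intro X hX r c _
    exact ⟨[], List.length_eq_zero_iff.1 (Nat.le_zero.1 hX)⟩
  | succ n ih =>
    intro X hX r c h
    cases X with
    | nil => exact ⟨[], rfl⟩
    | cons x X =>
      rw [List.cons_append, List.isChain_cons_cons] at h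
      cases x with
      | inr b => exact absurd h.1 (by simp [RR])
      | inl a =>
        cases X with
        | nil =>
          have h' := h.2
          rw [List.nil_append, List.isChain_cons_cons] at h'
          exact absurd h'.1 (by simp [RR])
        | cons y X =>
          have h' := h.2
          rw [List.cons_append, List.isChain_cons_cons] at h'
          cases y with
          | inl b => exact absurd h'.1 (by simp [RR])
          | inr b =>
            obtain ⟨L, hL⟩ := ih X (by simp only [List.length_cons] at hX; omega) b c h'.2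
            exact ⟨(a, b) :: L, by rw [fl_cons, hL]⟩

theorem fl_map {α β γ δ : Type*} (f : α → γ) (g : β → δ) (L : List (α × β)) :
    fl (L.map fun p => (f p.1, g p.2)) = (fl L).map (Sum.map f g) := by
  induction L with
  | nil => rfl
  | cons p L ih =>
    obtain ⟨a, b⟩ := p
    rw [List.map_cons, fl_cons, fl_cons, ih]
    rfl

theorem inl_fl {α β : Type*} {L : List (α × β)} {a : α} :
    Sum.inl a ∈ fl L ↔ a ∈ L.map Prod.fst := by
  induction L with
  | nil => simp [fl]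
  | cons p L ih =>
    obtain ⟨x, y⟩ := p
    rw [fl_cons]
    simp [ih]

theorem inr_fl {α β : Type*} {L : List (α × β)} {b : β} :
    Sum.inr b ∈ fl L ↔ b ∈ L.map Prod.snd := by
  induction L with
  | nil => simp [fl]
  | cons p L ih =>
    obtain ⟨x, y⟩ := p
    rw [fl_cons]
    simp [ih]

theorem fl_nodup {α β : Type*} {L : List (α × β)} (h : (fl L).Nodup) :
    (L.map Prod.fst).Nodup ∧ (L.map Prod.snd).Nodup := by
  induction L with
  | nil => simp
  | cons p L ih =>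
    obtain ⟨x, y⟩ := p
    rw [fl_cons, List.nodup_cons, List.nodup_cons] at h
    obtain ⟨h1, h2, h3⟩ := h
    have h4 := ih h3
    rw [List.map_cons, List.map_cons, List.nodup_cons, List.nodup_cons]
    refine ⟨⟨fun h => h1 (List.mem_cons_of_mem _ (inl_fl.2 h)), h4.1⟩,
      ⟨fun h => h2 (inr_fl.2 h), h4.2⟩⟩

theorem fl_append {α β : Type*} (L L' : List (α × β)) : fl (L ++ L') = fl L ++ fl L' := by
  unfold fl
  exact List.flatMap_append

theorem cons_cons_sub (C1 C3 : Q) (R1 R3 : Q) {Cu R2 C2 Rv : Q} {X : List En} {y : En}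
    (h : y ∈ (Sum.inl C1 :: .inr R1 :: .inl C3 :: .inr R3 :: X : List En)) :
    y ∈ (Sum.inl C1 :: .inr R1 :: .inl Cu :: .inr R2 :: .inl C2 :: .inr Rv :: .inl C3 ::
      .inr R3 :: X : List En) := by
  rcases List.mem_cons.1 h with h | h
  · exact List.mem_cons.2 (Or.inl h)
  rcases List.mem_cons.1 h with h | h
  · exact List.mem_cons_of_mem _ (List.mem_cons.2 (Or.inl h))
  exact List.mem_cons_of_mem _ (List.mem_cons_of_mem _ (List.mem_cons_of_mem _
    (List.mem_cons_of_mem _ (List.mem_cons_of_mem _ (List.mem_cons_of_mem _ h)))))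

theorem two_notMem (C1 R1 C2 C3 R3 : Q) (X : List En) {Cu R2 Rv : Q}
    (h : (Sum.inl C1 :: .inr R1 :: .inl Cu :: .inr R2 :: .inl C2 :: .inr Rv :: .inl C3 ::
      .inr R3 :: X : List En).Nodup)
    (hc : Sum.inl C2 ∈ (Sum.inl C1 :: .inr R1 :: .inl C3 :: .inr R3 :: X : List En)) : False := by
  rw [List.nodup_cons, List.nodup_cons, List.nodup_cons, List.nodup_cons, List.nodup_cons] at h
  rcases List.mem_cons.1 hc with hc | hc
  · refine h.1 ?_
    rw [← hc]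
    simp
  rcases List.mem_cons.1 hc with hc | hc
  · exact absurd hc (by simp)
  exact h.2.2.2.2.1 (List.mem_cons_of_mem _ hc)

theorem rep (L : List (Q × Q)) (M₀ : List (ℝ × ℝ)) (h : Rp (fl L) M₀) : ∃ f g : Q → ℝ,
    (∀ a b, Sum.inl a ∈ fl L → Sum.inl b ∈ fl L → a < b → f b < f a) ∧
    (∀ a b, Sum.inr a ∈ fl L → Sum.inr b ∈ fl L → a < b → g a < g b) ∧
    Rp (fl L) (L.map fun p => (f p.1, g p.2)) ∧ Nd (L.map fun p => (f p.1, g p.2)) := by
  obtain ⟨hN, f, g, hf, hg, -⟩ := h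
  refine ⟨f, g, hf, hg, ⟨hN, f, g, hf, hg, by rw [fl_map]⟩, ?_⟩
  have hnd := fl_nodup hN
  have hfi : ∀ a ∈ L.map Prod.fst, ∀ b ∈ L.map Prod.fst, f a = f b → a = b := by
    intro a ha b hb h
    rcases lt_trichotomy a b with h1 | h1 | h1
    · exact absurd h (hf a b (inl_fl.2 ha) (inl_fl.2 hb) h1).ne'
    · exact h1
    · exact absurd h (hf b a (inl_fl.2 hb) (inl_fl.2 ha) h1).ne
  have hgi : ∀ a ∈ L.map Prod.snd, ∀ b ∈ L.map Prod.snd, g a = g b → a = b := by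
    intro a ha b hb h
    rcases lt_trichotomy a b with h1 | h1 | h1
    · exact absurd h (hg a b (inr_fl.2 ha) (inr_fl.2 hb) h1).ne
    · exact h1
    · exact absurd h (hg b a (inr_fl.2 hb) (inr_fl.2 ha) h1).ne'
  have n1 := List.Nodup.map_on hfi hnd.1
  have n2 := List.Nodup.map_on hgi hnd.2
  rw [List.map_map] at n1 n2
  refine ⟨?_, ?_⟩
  · rw [List.map_map]
    exact n1
  · rw [List.map_map]
    exact n2

theorem adj (L : List (Q × Q)) (f : Q → ℝ)
    (hf : ∀ a b, Sum.inl a ∈ fl L → Sum.inl b ∈ fl L → a < b → f b < f a) (g : Q → ℝ) (a b : Q)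
    (ha : Sum.inl a ∈ fl L) (hb : Sum.inl b ∈ fl L) (hab : a < b)
    (hn : ∀ c, Sum.inl c ∈ fl L → ¬ (a < c ∧ c < b)) :
    ∀ d ∈ (L.map fun p => (f p.1, g p.2)).map Prod.fst, ¬ cyc (f b) d (f a) := by
  intro d hd hcy
  rw [List.map_map] at hd
  obtain ⟨q, hq, rfl⟩ := List.mem_map.1 hd
  have hc : Sum.inl q.1 ∈ fl L := inl_fl.2 (List.mem_map.2 ⟨q, hq, rfl⟩)
  have hlt := hf a b ha hb hab
  simp only [Function.comp_apply] at hcy
  have h5 : f b < f q.1 ∧ f q.1 < f a := by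
    rcases hcy with h | h | h
    · exact h
    · exact absurd (h.2.trans hlt) (lt_irrefl _)
    · exact absurd (h.1.trans hlt) (lt_irrefl _)
  refine hn q.1 hc ⟨?_, ?_⟩
  · by_contra hh
    rcases (not_lt.1 hh).lt_or_eq with h6 | h6
    · exact absurd (hf _ _ hc ha h6) (not_lt.2 h5.2.le)
    · rw [h6] at h5
      exact lt_irrefl _ h5.2
  · by_contra hh
    rcases (not_lt.1 hh).lt_or_eq with h6 | h6
    · exact absurd (hf _ _ hb hc h6) (not_lt.2 h5.1.le)
    · rw [← h6] at h5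
      exact lt_irrefl _ h5.1

end WZR

open WZR in
theorem t_WZR : Stmt_WZR := by
  intro hLEQ hLWR hLWP hWEB hCWA hDC1 hDR2 _ s₁ u s₂ v s₃ T hZ M hM
  obtain ⟨cw, k₁, ku, k₂, kv, k₃, tri⟩ := hZ
  have hE : ents (s₁ :: u :: s₂ :: v :: s₃ :: T) = .inl s₁.c :: .inr s₁.r :: .inl u.c ::
      .inr s₂.r :: .inl s₂.c :: .inr v.r :: .inl s₃.c :: .inr s₃.r :: ents T := by
    simp [ents, ent, k₁, ku, k₂, kv, k₃]
  have hA := hCWA.alt _ cw
  have hN := cw.nd
  -- the steps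
  have st1 : s₁.t < u.t := by
    have h := cw.st (s₁, u) (by unfold cp; simp)
    unfold Stp at h
    rw [k₁, ku] at h
    simp only [Kd.fw, Kd.ar] at h
    tauto
  have st2 : v.t < s₃.t := by
    have h := cw.st (v, s₃) (by unfold cp; simp)
    unfold Stp at h
    rw [kv, k₃] at h
    simp only [Kd.fw, Kd.ar] at h
    tauto
  have hT : T ≠ [] := by
    rintro rfl
    have h := cw.st (s₃, s₁) (last_cp s₁ s₃ [u, s₂, v])
    unfold Stp at h
    rw [k₁, k₃] at h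
    simp only [Kd.fw, Kd.ar] at h
    have := tri.t₃
    rcases h with h | h
    · linarith [h.2.2]
    · tauto
  obtain ⟨T', p, rfl⟩ : ∃ T' p, T = T' ++ [p] := ⟨T.dropLast, T.getLast hT,
    (List.dropLast_append_getLast hT).symm⟩
  have st3 : Stp p s₁ := cw.st (p, s₁) (last_cp s₁ p (u :: s₂ :: v :: s₃ :: T'))
  have hp : p.k.fw ∧ p.t < s₁.t := by
    unfold Stp at st3
    rw [k₁] at st3
    simp only [Kd.ar] at st3
    tauto
  obtain ⟨E', hE'⟩ : ∃ E', ents (T' ++ [p]) = E' ++ [.inr p.r] := by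
    have hpk : p.k = .rt ∨ p.k = .L := by
      have := hp.1
      cases h : p.k <;> rw [h] at this <;> simp [Kd.fw] at this ⊢
    have e : ents (T' ++ [p]) = ents T' ++ ent p := by
      simp [ents, List.flatMap_append]
    rcases hpk with h | h
    · exact ⟨ents T' ++ [.inl p.c], by rw [e]; simp [ent, h]⟩
    · exact ⟨ents T', by rw [e]; simp [ent, h]⟩
  -- the order of the entries
  have t2 := tri.t₂
  have t3 := tri.t₃
  have c1u : s₁.c < u.c := c_lt.2 (Or.inl st1)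
  have c3u : s₃.c < u.c := c_lt.2 (Or.inl (by rw [← t3]; exact st1))
  have r2v : s₂.r < v.r := r_lt.2 (Or.inl (by rw [← t2, t3]; exact st2))
  have r3v : s₃.r < v.r := r_lt.2 (Or.inl st2)
  have r1p : s₁.r < p.r := r_lt.2 (Or.inl hp.2)
  have r3p : s₃.r < p.r := r_lt.2 (Or.inl (by rw [← t3]; exact hp.2))
  -- the common part
  have key : (s₃.h < s₂.h ∧ s₂.h < s₁.h ∨ s₁.h < s₂.h ∧ s₂.h < s₃.h) →
      ∃ (c₁ r₁ c₂ r₂ : ℝ) (B : List (ℝ × ℝ)) (z : ℝ × ℝ),
        Nd ((c₁, r₁) :: (c₂, r₂) :: (B ++ [z])) ∧ LEq M ((c₁, r₁) :: (c₂, r₂) :: (B ++ [z])) ∧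
        (s₃.h < s₂.h ∧ s₂.h < s₁.h →
          (∀ d ∈ ((c₁, r₁) :: (c₂, r₂) :: (B ++ [z])).map Prod.fst, ¬ cyc c₁ d c₂) ∧
            cyc r₁ z.2 r₂) ∧
        (s₁.h < s₂.h ∧ s₂.h < s₃.h →
          (∀ d ∈ ((c₁, r₁) :: (c₂, r₂) :: (B ++ [z])).map Prod.fst, ¬ cyc c₂ d c₁) ∧
            cyc r₁ r₂ z.2) := by
    intro ho
    have hA' := hA
    have hN' := hN
    rw [hE] at hA' hN'
    have ord : (s₃.c < s₂.c ∧ s₂.c < s₁.c ∧ s₃.r < s₂.r ∧ s₂.r < s₁.r) ∨
        (s₁.c < s₂.c ∧ s₂.c < s₃.c ∧ s₁.r < s₂.r ∧ s₂.r < s₃.r) := by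
      rcases ho with ⟨a, b⟩ | ⟨a, b⟩
      · exact Or.inl ⟨c_lt.2 (Or.inr ⟨by rw [← t2, t3], a⟩), c_lt.2 (Or.inr ⟨t2.symm, b⟩),
          r_lt.2 (Or.inr ⟨by rw [← t2, t3], a⟩), r_lt.2 (Or.inr ⟨t2.symm, b⟩)⟩
      · exact Or.inr ⟨c_lt.2 (Or.inr ⟨t2, a⟩), c_lt.2 (Or.inr ⟨by rw [← t2, t3], b⟩),
          r_lt.2 (Or.inr ⟨t2, a⟩), r_lt.2 (Or.inr ⟨by rw [← t2, t3], b⟩)⟩
    have hcol : ∀ c, Sum.inl c ∈ ents (s₁ :: u :: s₂ :: v :: s₃ :: (T' ++ [p])) →
        Btw s₁.c s₃.c c → c = s₂.c := by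
      intro c hc hb
      obtain ⟨x, hx, hk, rfl⟩ := inl_mem_ents hc
      rw [tri.col x hx hk hb]
    have hrow : ∀ r, Sum.inr r ∈ ents (s₁ :: u :: s₂ :: v :: s₃ :: (T' ++ [p])) →
        Btw s₁.r s₃.r r → r = s₂.r := by
      intro r hr hb
      obtain ⟨x, hx, hk, rfl⟩ := inr_mem_ents hr
      rw [tri.row x hx hk hb]
    have hWE := step hWEB hDC1 hDR2 s₁.c s₁.r u.c s₂.r s₂.c v.r s₃.c s₃.r (ents (T' ++ [p]))
      hA' hN'
      (by
        intro c hc hb
        rw [← hE] at hc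
        have h1 := hcol c hc
        unfold Btw at h1 hb
        rcases ord with ⟨o1, o2, -, -⟩ | ⟨o1, o2, -, -⟩
        · rcases hb with hb | hb
          · exact absurd (hb.1.trans hb.2) (not_lt.2 o1.le)
          · have h2 := h1 (Or.inr ⟨hb.1, hb.2.trans o2⟩)
            rw [h2] at hb
            exact lt_irrefl _ hb.2
        · rcases hb with hb | hb
          · have h2 := h1 (Or.inl ⟨o1.trans hb.1, hb.2⟩)
            rw [h2] at hb
            exact lt_irrefl _ hb.1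
          · exact absurd (hb.1.trans hb.2) (not_lt.2 o2.le))
      (by
        intro r hr hb
        rw [← hE] at hr
        have h1 := hrow r hr
        unfold Btw at h1 hb
        rcases ord with ⟨-, -, o1, o2⟩ | ⟨-, -, o1, o2⟩
        · rcases hb with hb | hb
          · have h2 := h1 (Or.inr ⟨o1.trans hb.1, hb.2⟩)
            rw [h2] at hb
            exact lt_irrefl _ hb.1
          · exact absurd (hb.1.trans hb.2) (not_lt.2 o2.le)
        · rcases hb with hb | hb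
          · exact absurd (hb.1.trans hb.2) (not_lt.2 o1.le)
          · have h2 := h1 (Or.inl ⟨hb.1, hb.2.trans o2⟩)
            rw [h2] at hb
            exact lt_irrefl _ hb.2)
      (by
        rcases ord with ⟨o1, o2, o3, o4⟩ | ⟨o1, o2, o3, o4⟩
        · exact Or.inr ⟨o1, Or.inr (Or.inl ⟨o3, r2v⟩)⟩
        · exact Or.inl ⟨o2, Or.inr (Or.inl ⟨o4, r3v⟩)⟩)
      (by
        rcases ord with ⟨o1, o2, o3, o4⟩ | ⟨o1, o2, o3, o4⟩
        · exact Or.inl ⟨o4, Or.inl ⟨o1.trans o2, c1u⟩⟩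
        · exact Or.inr ⟨o3, Or.inl ⟨o1.trans o2, c3u⟩⟩)
    rw [← hE] at hWE
    -- the alternating list
    have hch : List.IsChain RR (.inr s₃.r :: (ents (T' ++ [p]) ++ [.inl s₁.c])) := by
      have h := (alt_iff _ _).1 hA'
      simp only [List.cons_append, List.isChain_cons_cons] at h
      exact h.2.2.2.2.2.2.2
    obtain ⟨L', hL'⟩ := ex_fl _ _ le_rfl _ _ hch
    have hL0 : L' ≠ [] := by
      rintro rfl
      rw [hE'] at hL'
      exact absurd hL' (by simp [fl])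
    obtain ⟨B', z', rfl⟩ : ∃ B' z', L' = B' ++ [z'] := ⟨L'.dropLast, L'.getLast hL0,
      (List.dropLast_append_getLast hL0).symm⟩
    have hz' : z'.2 = p.r := by
      obtain ⟨a, b⟩ := z'
      rw [hE', fl_append] at hL'
      have e : fl [(a, b)] = ([Sum.inl a, Sum.inr b] : List En) := rfl
      rw [e] at hL'
      have e2 : fl B' ++ ([Sum.inl a, Sum.inr b] : List En) =
          (fl B' ++ [Sum.inl a]) ++ [Sum.inr b] := by simp
      rw [e2] at hL'
      have h := List.append_inj_right' hL' rfl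
      simp only [List.cons.injEq, Sum.inr.injEq, and_true] at h
      exact h.symm
    have hW5 : (Sum.inl s₁.c :: .inr s₁.r :: .inl s₃.c :: .inr s₃.r :: ents (T' ++ [p]) :
        List En) = fl ((s₁.c, s₁.r) :: (s₃.c, s₃.r) :: (B' ++ [z'])) := by
      rw [fl_cons, fl_cons, hL']
    rw [hW5] at hWE
    have hWE2 := hWE
    obtain ⟨M1, M2, -, hM2, -⟩ := hWE2
    obtain ⟨f, g, hf, hg, hRp, hNd⟩ := rep _ _ hM2
    have hLE := hWEB.all _ _ _ _ hWE hM hRp
    have i1 : Sum.inl s₁.c ∈ fl ((s₁.c, s₁.r) :: (s₃.c, s₃.r) :: (B' ++ [z'])) :=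
      inl_fl.2 (by simp)
    have i3 : Sum.inl s₃.c ∈ fl ((s₁.c, s₁.r) :: (s₃.c, s₃.r) :: (B' ++ [z'])) :=
      inl_fl.2 (by simp)
    have j1 : Sum.inr s₁.r ∈ fl ((s₁.c, s₁.r) :: (s₃.c, s₃.r) :: (B' ++ [z'])) :=
      inr_fl.2 (by simp)
    have j3 : Sum.inr s₃.r ∈ fl ((s₁.c, s₁.r) :: (s₃.c, s₃.r) :: (B' ++ [z'])) :=
      inr_fl.2 (by simp)
    have jz : Sum.inr p.r ∈ fl ((s₁.c, s₁.r) :: (s₃.c, s₃.r) :: (B' ++ [z'])) :=
      inr_fl.2 (by rw [← hz']; simp)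
    -- no columns between
    have sub : ∀ c, Sum.inl c ∈ fl ((s₁.c, s₁.r) :: (s₃.c, s₃.r) :: (B' ++ [z'])) →
        ¬ Btw s₁.c s₃.c c := by
      intro c hc hb
      rw [← hW5] at hc
      have hc' : Sum.inl c ∈ ents (s₁ :: u :: s₂ :: v :: s₃ :: (T' ++ [p])) := by
        rw [hE]
        exact (cons_cons_sub _ _ _ _ hc)
      have h2 := hcol c hc' hb
      rw [h2] at hc
      exact two_notMem _ _ _ _ _ _ hN' hc
    have last : ∀ (x : ℝ × ℝ), ((s₁.c, s₁.r) :: (s₃.c, s₃.r) :: (B' ++ [z'])).map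
        (fun p => (f p.1, g p.2)) = (f s₁.c, g s₁.r) :: (f s₃.c, g s₃.r) ::
          ((B'.map fun p => (f p.1, g p.2)) ++ [(f z'.1, g z'.2)]) := by
      intro _
      rw [List.map_cons, List.map_cons, List.map_append]
      rfl
    rw [last (0, 0)] at hNd hLE
    refine ⟨f s₁.c, g s₁.r, f s₃.c, g s₃.r, B'.map fun p => (f p.1, g p.2), (f z'.1, g z'.2),
      hNd, hLE, ?_, ?_⟩
    · intro ho'
      have o1 : s₃.c < s₁.c := c_lt.2 (Or.inr ⟨t3.symm, ho'.1.trans ho'.2⟩)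
      have o3 : s₃.r < s₁.r := r_lt.2 (Or.inr ⟨t3.symm, ho'.1.trans ho'.2⟩)
      refine ⟨?_, ?_⟩
      · rw [← last (0, 0)]
        exact adj _ f hf g _ _ i3 i1 o1 fun c hc hcc => sub c hc (Or.inr hcc)
      · show cyc (g s₁.r) (g z'.2) (g s₃.r)
        rw [hz']
        exact Or.inr (Or.inr ⟨hg _ _ j3 j1 o3, hg _ _ j1 jz r1p⟩)
    · intro ho'
      have o1 : s₁.c < s₃.c := c_lt.2 (Or.inr ⟨t3, ho'.1.trans ho'.2⟩)
      have o3 : s₁.r < s₃.r := r_lt.2 (Or.inr ⟨t3, ho'.1.trans ho'.2⟩)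
      refine ⟨?_, ?_⟩
      · rw [← last (0, 0)]
        exact adj _ f hf g _ _ i1 i3 o1 fun c hc hcc => sub c hc (Or.inl hcc)
      · show cyc (g s₁.r) (g s₃.r) (g z'.2)
        rw [hz']
        exact Or.inl ⟨hg _ _ j1 j3 o3, hg _ _ j3 jz r3p⟩
  refine ⟨fun a b => ?_, fun a b => ?_⟩
  · obtain ⟨c₁, r₁, c₂, r₂, B, z, hNd, hLE, h1, -⟩ := key (Or.inl ⟨a, b⟩)
    exact ((hLEQ _ _ hLE).1).2 (hLWR c₁ r₁ c₂ r₂ B z hNd (h1 ⟨a, b⟩).1 (h1 ⟨a, b⟩).2)
  · obtain ⟨c₁, r₁, c₂, r₂, B, z, hNd, hLE, -, h1⟩ := key (Or.inr ⟨a, b⟩)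
    exact ((hLEQ _ _ hLE).2).2 (hLWP c₁ r₁ c₂ r₂ B z hNd (h1 ⟨a, b⟩).1 (h1 ⟨a, b⟩).2)

end LH
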