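import Pool.Agent.LH.Stmts2

/-!
# Removal of all zigzags
-/

namespace LH

open Set LG

namespace ZAL

theorem aux (hW : P_WEB) (hC : P_CWA) (hZ : P_ZRM) {N : ℕ} (P : Pg N) (X : Finset ℝ)
    (hX : GoodX P X) (n : ℕ) : ∀ w : List It, w.length ≤ n → EW P X w → YX P X w →
    CW (w.map (pt P)) → ∃ w', GW P X w' ∧ WE (lst P w) (lst P w') := by
  induction n with
  | zero =>
    intro w hn he _ _
    obtain ⟨i, w', rfl, _⟩ := he
    simp at hn
  | succ n ih =>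
    intro w hn he hy hc
    by_cases hg : GW P X w
    · exact ⟨w, hg, hW.refl _ (hC.alt _ hc) hc.nd⟩
    · obtain ⟨w₁, hl, he₁, hy₁, hc₁, hw₁⟩ := hZ P X w hX he hy hc hg
      obtain ⟨w₂, hg₂, hw₂⟩ := ih w₁ (by omega) he₁ hy₁ hc₁
      exact ⟨w₂, hg₂, hW.trans _ _ _ hw₁ hw₂⟩

end ZAL

theorem t_ZAL : Stmt_ZAL := by
  intro hW hC hZ N P X w hX he hy hc
  exact ZAL.aux hW hC hZ P X hX w.length w le_rfl he hy hc

end LH
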