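import Pool.Agent.LH.Stmts1

/-!
# ZR1: removal of a zigzag, walking to the right
-/

namespace LH

open Set LG

namespace ZR1

theorem ents_cons (u : Pt) (T : List Pt) : ents (u :: T) = ent u ++ ents T := by
  simp [ents]

theorem ents_append (A B : List Pt) : ents (A ++ B) = ents A ++ ents B := by
  simp [ents]

theorem cp_split {α : Type*} (a : α) (T : List α) (q : α) :
    cp (a :: (T ++ [q])) = ((a :: T).zip (T ++ [q])) ++ [(q, a)] := by
  rw [cp, List.rotate_cons_succ, List.rotate_zero, ← List.cons_append, List.zip_append]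
  · rfl
  · simp

theorem cp_last {α : Type*} (a : α) (T : List α) (q : α) : (q, a) ∈ cp (a :: (T ++ [q])) := by
  rw [cp_split]
  simp

theorem cp_prev {α : Type*} (a : α) (T : List α) (o q : α) :
    (o, q) ∈ cp (a :: ((T ++ [o]) ++ [q])) := by
  have e : (a :: (T ++ [o])).zip ((T ++ [o]) ++ [q]) =
      (a :: T).zip (T ++ [o]) ++ [(o, q)] := by
    rw [← List.cons_append, List.zip_append]
    · rfl
    · simp
  rw [cp_split, e]
  simp

theorem btw_symm {a b x : Q} (h : Btw a b x) : Btw b a x := by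
  rcases h with h | h
  · exact Or.inr h
  · exact Or.inl h

end ZR1

open ZR1 in
/-- ZR1 -/
theorem t_ZR1 : Stmt_ZR1 := by
  intro hW hC hD hM u v q p B hw hw' hku hkv hb hc
  have hvq : (v, q) ∈ cp (u :: v :: q :: (B ++ [p])) := by
    simp [cp]
  have hpu : (p, u) ∈ cp (u :: v :: q :: (B ++ [p])) := cp_last u (v :: q :: B) p
  have svq : Stp v q := hw.st (v, q) hvq
  have spu : Stp p u := hw.st (p, u) hpu
  have hqk : q.k = .rt ∨ q.k = .R := by
    rcases svq with ⟨_, h, _⟩ | ⟨h, _, _⟩
    · revert h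
      cases q.k <;> simp [Kd.ar]
    · rw [hkv] at h
      exact absurd trivial h
  have hpk : p.k = .rt ∨ p.k = .L := by
    rcases spu with ⟨h, _, _⟩ | ⟨_, h, _⟩
    · revert h
      cases p.k <;> simp [Kd.fw]
    · rw [hku] at h
      exact absurd trivial h
  -- the beginning of the list
  obtain ⟨B₂, g₂⟩ : ∃ B₂, ent q = Sum.inl q.c :: B₂ := by
    rcases hqk with h | h
    · exact ⟨[Sum.inr q.r], by simp [ent, h]⟩
    · exact ⟨[], by simp [ent, h]⟩
  have hl := hw'.len
  -- the end of the list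
  have key : ∃ c₀ B', ents (q :: (B ++ [p])) = Sum.inl q.c :: (B' ++ [Sum.inl c₀, Sum.inr p.r]) ∧
      (v.r < p.r ∧ cyc q.c c₀ u.c ∨ p.r < v.r ∧ cyc c₀ q.c u.c) := by
    rcases hpk with h | h
    · refine ⟨p.c, B₂ ++ ents B, ?_, hc p.c (Or.inl ⟨h, rfl⟩)⟩
      rw [ents_cons, ents_append, g₂]
      simp [ents, ent, h]
    · rcases List.eq_nil_or_concat B with rfl | ⟨B₁, o, rfl⟩
      · exfalso
        have hqp : (q, p) ∈ cp (q :: ([] ++ [p])) := by simp [cp]
        have h2 : Stp q p := hw'.st (q, p) hqp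
        have hqR : q.k = .R := by
          rcases hqk with h' | h'
          · rcases h2 with ⟨_, h3, _⟩ | ⟨h3, _, _⟩
            · rw [h] at h3
              exact absurd h3 (by simp [Kd.ar])
            · rw [h'] at h3
              exact absurd trivial h3
          · exact h'
        simp [ents, ent, h, hqR] at hl
      · rw [List.concat_eq_append] at *
        have hop : (o, p) ∈ cp (u :: v :: q :: (B₁ ++ [o] ++ [p])) :=
          cp_prev u (v :: q :: B₁) o p
        have sop : Stp o p := hw.st (o, p) hop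
        have hok : o.k = .lt ∨ o.k = .R := by
          rcases sop with ⟨_, h', _⟩ | ⟨h', _, _⟩
          · rw [h] at h'
            exact absurd h' (by simp [Kd.ar])
          · revert h'
            cases o.k <;> simp [Kd.fw]
        obtain ⟨B₃, g₃⟩ : ∃ B₃, ent o = B₃ ++ [Sum.inl o.c] := by
          rcases hok with h' | h'
          · exact ⟨[Sum.inr o.r], by simp [ent, h']⟩
          · exact ⟨[], by simp [ent, h']⟩
        refine ⟨o.c, B₂ ++ (ents B₁ ++ B₃), ?_, hc o.c (Or.inr ⟨h, o, hop, rfl⟩)⟩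
        rw [ents_cons, ents_append, ents_append, g₂]
        have e1 : ents [o] = B₃ ++ [Sum.inl o.c] := by rw [← g₃]; simp [ents]
        have e2 : ents [p] = [Sum.inr p.r] := by simp [ents, ent, h]
        rw [e1, e2]
        simp
  obtain ⟨c₀, B', e, hcyc⟩ := key
  have e' : ents (u :: v :: q :: (B ++ [p])) =
      Sum.inl u.c :: Sum.inr v.r :: Sum.inl q.c :: (B' ++ [Sum.inl c₀, Sum.inr p.r]) := by
    rw [ents_cons, ents_cons, e]
    simp [ent, hku, hkv]
  have ha := hC.alt _ hw
  have hn := hw.nd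
  have hm := hM (u :: v :: q :: (B ++ [p])) (by simp) hw.st
  rw [e'] at ha hn
  rw [e, e']
  refine hD u.c v.r q.c c₀ p.r B' ha hn ?_ hcyc
  intro c r hmk hbt
  exfalso
  rw [← e', hm] at hmk
  rcases hmk with ⟨x, y, hl, rfl, rfl⟩ | ⟨x, hx, hxk, rfl, rfl⟩
  · refine hb x ?_ (hC.kl _ hw x y hl).1 (btw_symm hbt)
    rcases hl.2 with h | h
    · exact (List.of_mem_zip h).1
    · exact List.mem_rotate.1 (List.of_mem_zip h).2
  · refine hb x hx ?_ (btw_symm hbt)
    rcases hxk with h | h <;> rw [h] <;> decide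

end LH
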