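import Pool.Agent.LH.Stmts1

/-!
# ZR2: removal of a zigzag, walking to the left
-/

namespace LH

open Set LG

namespace ZR2

theorem ents_cons (u : Pt) (T : List Pt) : ents (u :: T) = ent u ++ ents T := by
  simp [ents]

theorem ents_append (A B : List Pt) : ents (A ++ B) = ents A ++ ents B := by
  simp [ents]

theorem cp_last {α : Type*} (a : α) (T : List α) (q : α) : (q, a) ∈ cp (a :: (T ++ [q])) := by
  have e : cp (a :: (T ++ [q])) = ((a :: T).zip (T ++ [q])) ++ [(q, a)] := by
    rw [cp, List.rotate_cons_succ, List.rotate_zero, ← List.cons_append, List.zip_append]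
    · rfl
    · simp
  rw [e]
  simp

theorem btw_symm {a b x : Q} (h : Btw a b x) : Btw b a x := by
  rcases h with h | h
  · exact Or.inr h
  · exact Or.inl h

end ZR2

open ZR2 in
/-- ZR2 -/
theorem t_ZR2 : Stmt_ZR2 := by
  intro hW hC hD hM u v q p B hw hw' hku hkv hb hc
  have hup : (u, p) ∈ cp (v :: u :: p :: (B ++ [q])) := by
    simp [cp]
  have hqv : (q, v) ∈ cp (v :: u :: p :: (B ++ [q])) := cp_last v (u :: p :: B) q
  have sup : Stp u p := hw.st (u, p) hup
  have sqv : Stp q v := hw.st (q, v) hqv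
  have hpk : p.k = .lt ∨ p.k = .L := by
    rcases sup with ⟨h, _, _⟩ | ⟨_, h, _⟩
    · rw [hku] at h
      exact absurd h (by simp [Kd.fw])
    · revert h
      cases p.k <;> simp [Kd.ar]
  have hqk : q.k = .lt ∨ q.k = .R := by
    rcases sqv with ⟨_, h, _⟩ | ⟨h, _, _⟩
    · rw [hkv] at h
      exact absurd h (by simp [Kd.ar])
    · revert h
      cases q.k <;> simp [Kd.fw]
  -- the end of the list
  obtain ⟨B₂, g₂⟩ : ∃ B₂, ent q = B₂ ++ [Sum.inl q.c] := by
    rcases hqk with h | h
    · exact ⟨[Sum.inr q.r], by simp [ent, h]⟩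
    · exact ⟨[], by simp [ent, h]⟩
  have eB : ents (B ++ [q]) = ents B ++ (B₂ ++ [Sum.inl q.c]) := by
    rw [ents_append, ← g₂]
    simp [ents]
  have hl := hw'.len
  -- the beginning of the list
  have key : ∃ c₀ B', ents (p :: (B ++ [q])) = Sum.inr p.r :: Sum.inl c₀ :: (B' ++ [Sum.inl q.c]) ∧
      (v.r < p.r ∧ cyc q.c c₀ u.c ∨ p.r < v.r ∧ cyc c₀ q.c u.c) := by
    rcases hpk with h | h
    · refine ⟨p.c, ents B ++ B₂, ?_, hc p.c (Or.inl ⟨h, rfl⟩)⟩
      rw [ents_cons, eB]
      simp [ent, h]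
    · cases B with
      | nil =>
        exfalso
        have hlast : (q, p) ∈ cp (p :: ([] ++ [q])) := cp_last p [] q
        have h1 : Stp q p := hw'.st (q, p) hlast
        have hpq : (p, q) ∈ cp (p :: ([] ++ [q])) := by simp [cp]
        have h2 : Stp p q := hw'.st (p, q) hpq
        have hqR : q.k = .R := by
          rcases hqk with h' | h'
          · rcases h2 with ⟨_, h3, _⟩ | ⟨h3, _, _⟩
            · rw [h'] at h3
              exact absurd h3 (by simp [Kd.ar])
            · rw [h] at h3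
              exact absurd trivial h3
          · exact h'
        simp [ents, ent, h, hqR] at hl
      | cons o B₁ =>
        have hpo : (p, o) ∈ cp (v :: u :: p :: (o :: B₁ ++ [q])) := by simp [cp]
        have spo : Stp p o := hw.st (p, o) hpo
        have hok : o.k = .rt ∨ o.k = .R := by
          rcases spo with ⟨_, h', _⟩ | ⟨h', _, _⟩
          · revert h'
            cases o.k <;> simp [Kd.ar]
          · rw [h] at h'
            exact absurd trivial h'
        obtain ⟨B₃, g₃⟩ : ∃ B₃, ent o = Sum.inl o.c :: B₃ := by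
          rcases hok with h' | h'
          · exact ⟨[Sum.inr o.r], by simp [ent, h']⟩
          · exact ⟨[], by simp [ent, h']⟩
        refine ⟨o.c, B₃ ++ (ents B₁ ++ B₂), ?_, hc o.c (Or.inr ⟨h, o, hpo, rfl⟩)⟩
        rw [ents_cons, eB, ents_cons, g₃]
        simp [ent, h]
  obtain ⟨c₀, B', e, hcyc⟩ := key
  have e' : ents (v :: u :: p :: (B ++ [q])) =
      Sum.inr v.r :: Sum.inl u.c :: Sum.inr p.r :: Sum.inl c₀ :: (B' ++ [Sum.inl q.c]) := by
    rw [ents_cons, ents_cons, e]
    simp [ent, hku, hkv]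
  have ha := hC.alt _ hw
  have hn := hw.nd
  have hm := hM (v :: u :: p :: (B ++ [q])) (by simp) hw.st
  rw [e'] at ha hn
  rw [e, e']
  refine hD u.c v.r q.c c₀ p.r B' ha hn ?_ hcyc
  intro c r hmk hbt
  exfalso
  rw [← e', hm] at hmk
  rcases hmk with ⟨x, y, hl, rfl, rfl⟩ | ⟨x, hx, hxk, rfl, rfl⟩
  · refine hb x ?_ (hC.kl _ hw x y hl).1 (btw_symm hbt)
    rcases hl.2 with h | h
    · exact (List.of_mem_zip h).1
    · exact List.mem_rotate.1 (List.of_mem_zip h).2
  · refine hb x hx ?_ (btw_symm hbt)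
    rcases hxk with h | h <;> rw [h] <;> decide

end LH
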