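import Pool.Agent.LH.Stmts2

/-!
# ZRM: removal of one zigzag
-/

namespace LH

open Set LG

namespace ZRM

/-! ### cyclic pairs -/

theorem cp_rotate {α : Type*} (w : List α) (n : ℕ) : cp (w.rotate n) = (cp w).rotate n := by
  have h := List.zipWith_rotate_distrib (Prod.mk : α → α → α × α) w (w.rotate 1) n (by simp)
  change List.zipWith Prod.mk (w.rotate n) ((w.rotate n).rotate 1) =
    (List.zipWith Prod.mk w (w.rotate 1)).rotate n
  rw [h, List.rotate_rotate, List.rotate_rotate, Nat.add_comm]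

theorem cp_rot {α : Type*} (A B : List α) (x : α × α) : x ∈ cp (A ++ B) ↔ x ∈ cp (B ++ A) := by
  rw [← List.rotate_append_length_eq A B, cp_rotate, List.mem_rotate]

theorem zip_split {α : Type*} (z x y : α) : ∀ (w : List α) (i : α),
    (x, y) ∈ (i :: w).zip (w ++ [z]) →
    (∃ A B, i :: w = A ++ x :: y :: B) ∨ (∃ A, i :: w = A ++ [x] ∧ y = z) := by
  intro w
  induction w with
  | nil =>
    intro i h
    simp only [List.nil_append, List.zip_cons_cons, List.zip_nil_right, List.mem_singleton,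
      Prod.mk.injEq] at h
    exact Or.inr ⟨[], by simp [h.1], h.2⟩
  | cons j w ih =>
    intro i h
    rw [List.cons_append, List.zip_cons_cons, List.mem_cons] at h
    rcases h with h | h
    · rw [Prod.mk.injEq] at h
      exact Or.inl ⟨[], w, by simp [h.1, h.2]⟩
    · rcases ih j h with ⟨A, B, h⟩ | ⟨A, h, h'⟩
      · exact Or.inl ⟨i :: A, B, by rw [h]; rfl⟩
      · exact Or.inr ⟨i :: A, by rw [h]; rfl, h'⟩

theorem cp_split {α : Type*} (w : List α) (x y : α) (h : (x, y) ∈ cp w) :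
    (∃ A B, w = A ++ x :: y :: B) ∨ (∃ A, w = y :: (A ++ [x])) ∨ (w = [x] ∧ x = y) := by
  cases w with
  | nil => simp [cp] at h
  | cons i w =>
    unfold cp at h
    rw [show (i :: w).rotate 1 = w ++ [i] by simp] at h
    rcases zip_split i x y w i h with h | ⟨A, h, h'⟩
    · exact Or.inl h
    · subst h'
      cases A with
      | nil =>
        simp only [List.nil_append, List.cons.injEq] at h
        exact Or.inr (Or.inr ⟨by rw [h.1, h.2], h.1.symm⟩)
      | cons a A =>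
        simp only [List.cons_append, List.cons.injEq] at h
        exact Or.inr (Or.inl ⟨A, by rw [h.2]⟩)

theorem cp_get {α : Type*} (w : List α) (x y : α) (h : (x, y) ∈ cp w) :
    ∃ (k : ℕ) (hk : k < w.length), w[k] = x ∧ (w.rotate 1)[k]'(by simpa using hk) = y := by
  unfold cp at h
  obtain ⟨k, hk, e⟩ := List.mem_iff_getElem.1 h
  rw [List.getElem_zip, Prod.mk.injEq] at e
  have hk' : k < w.length := by
    rw [List.length_zip] at hk; exact lt_of_lt_of_le hk (min_le_left _ _)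
  exact ⟨k, hk', e.1, e.2⟩

theorem cp_pred {α : Type*} (w : List α) (hn : w.Nodup) {x y z : α} (h : (x, z) ∈ cp w)
    (h' : (y, z) ∈ cp w) : x = y := by
  obtain ⟨k, hk, e1, e2⟩ := cp_get w x z h
  obtain ⟨j, hj, f1, f2⟩ := cp_get w y z h'
  have hr : (w.rotate 1).Nodup := List.nodup_rotate.2 hn
  have : k = j := (hr.getElem_inj_iff).1 (e2.trans f2.symm)
  subst this
  exact e1.symm.trans f1

theorem cp_succ {α : Type*} (w : List α) (hn : w.Nodup) {x y z : α} (h : (z, x) ∈ cp w)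
    (h' : (z, y) ∈ cp w) : x = y := by
  obtain ⟨k, hk, e1, e2⟩ := cp_get w z x h
  obtain ⟨j, hj, f1, f2⟩ := cp_get w z y h'
  have : k = j := (hn.getElem_inj_iff).1 (e1.trans f1.symm)
  subst this
  exact e2.symm.trans f2

/-! ### shifts and rotations -/

variable {N : ℕ}

theorem l_sh (hB : P_PGB) (P : Pg N) (e k : ℤ) (t : ℝ) : P.l (e + k * N) t = P.l e t :=
  (hB.sh P e k).2.2.2 t

theorem pt_sh (hB : P_PGB) (P : Pg N) (i : It) : pt P (i.sh N) = pt P i := by
  have h := l_sh hB P i.e 1 i.t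
  rw [one_mul] at h
  unfold pt It.sh
  rw [Pt.mk.injEq]
  exact ⟨rfl, rfl, h⟩

theorem map_pt_sh (hB : P_PGB) (P : Pg N) (A : List It) :
    (A.map (It.sh N)).map (pt P) = A.map (pt P) := by
  rw [List.map_map]
  exact List.map_congr_left fun i _ => pt_sh hB P i

/-- The three properties. -/
structure Qw (P : Pg N) (X : Finset ℝ) (w : List It) : Prop where
  ew : EW P X w
  yx : YX P X w
  cw : CW (w.map (pt P))

theorem ew_rot (hS : P_SEQ) (P : Pg N) (X : Finset ℝ) : ∀ (A B : List It), EW P X (A ++ B) →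
    EW P X (B ++ A.map (It.sh N)) := by
  intro A
  induction A with
  | nil => intro B h; simpa using h
  | cons i A ih =>
    intro B h
    have h1 := hS.rot P X i (A ++ B) h
    rw [List.append_assoc] at h1
    have h2 := ih (B ++ [i.sh N]) h1
    simpa using h2

theorem ym_sh (hB : P_PGB) (P : Pg N) (p q k : ℤ) (h : YM P p q) :
    YM P (p + k * N) (q + k * N) := by
  have e : ∀ i, P.y (i - k * N) = P.y i := by
    intro i
    have := (hB.sh P (i - k * N) k).2.1
    rw [sub_add_cancel] at this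
    exact this.symm
  have m : ∀ i ∈ Icc (p + k * N) (q + k * N), i - k * N ∈ Icc p q := by
    intro i hi; rw [mem_Icc] at *; constructor <;> linarith [hi.1, hi.2]
  rcases h with h | h
  · left
    intro i hi j hj hij
    have := h (m i hi) (m j hj) (by linarith)
    rwa [e, e] at this
  · right
    intro i hi j hj hij
    have := h (m i hi) (m j hj) (by linarith)
    rwa [e, e] at this

theorem yf_sh (hB : P_PGB) (hC : P_CMP) (P : Pg N) (a b : ℝ) (i : It)
    (h : (i.k = .R ∨ i.k = .L) → a < P.x (i.e + 1) → P.x (i.e + 1) < b →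
      ∃ p q, Comp P a b p q ∧ p ≤ i.e ∧ i.e ≤ q ∧ YM P p q) :
    ((i.sh N).k = .R ∨ (i.sh N).k = .L) → a < P.x ((i.sh N).e + 1) → P.x ((i.sh N).e + 1) < b →
      ∃ p q, Comp P a b p q ∧ p ≤ (i.sh N).e ∧ (i.sh N).e ≤ q ∧ YM P p q := by
  intro h1 h2 h3
  have e : (i.sh N).e + 1 = (i.e + 1) + 1 * N := by
    change i.e + N + 1 = _
    ring
  have e2 : P.x ((i.sh N).e + 1) = P.x (i.e + 1) := by rw [e]; exact (hB.sh P (i.e + 1) 1).1
  rw [e2] at h2 h3
  obtain ⟨p, q, g1, g2, g3, g4⟩ := h h1 h2 h3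
  refine ⟨p + 1 * N, q + 1 * N, hC.sh P a b p q 1 g1, ?_, ?_, ym_sh hB P p q 1 g4⟩
  · change p + 1 * N ≤ i.e + N
    linarith
  · change i.e + N ≤ q + 1 * N
    linarith

theorem yx_rot (hB : P_PGB) (hC : P_CMP) (P : Pg N) (X : Finset ℝ) (A B : List It)
    (h : YX P X (A ++ B)) : YX P X (B ++ A.map (It.sh N)) := by
  intro a b hab i hi
  rw [List.mem_append] at hi
  rcases hi with hi | hi
  · exact h a b hab i (List.mem_append.2 (Or.inr hi))
  · obtain ⟨j, hj, rfl⟩ := List.mem_map.1 hi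
    exact yf_sh hB hC P a b j (h a b hab j (List.mem_append.2 (Or.inl hj)))

theorem qw_rot (hB : P_PGB) (hC : P_CMP) (hS : P_SEQ) (hA : P_CWA) (P : Pg N)
    (X : Finset ℝ) (A B : List It) (h : Qw P X (A ++ B)) :
    Qw P X (B ++ A.map (It.sh N)) ∧ WE (lst P (A ++ B)) (lst P (B ++ A.map (It.sh N))) := by
  have h1 := h.cw
  rw [List.map_append] at h1
  obtain ⟨h2, h3⟩ := hA.rot _ _ h1
  refine ⟨⟨ew_rot hS P X A B h.ew, yx_rot hB hC P X A B h.yx, ?_⟩, ?_⟩
  · rw [List.map_append, map_pt_sh hB]; exact h2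
  · unfold lst
    rw [List.map_append, List.map_append, map_pt_sh hB]; exact h3

theorem zig (hB : P_PGB) (hC : P_CMP) (hS : P_SEQ) (hA : P_CWA) (P : Pg N)
    (X : Finset ℝ) (w : List It) (h : Qw P X w) (hz : ¬ GW P X w) :
    ∃ D u v, Qw P X (D ++ [u, v]) ∧ (D ++ [u, v]).length = w.length ∧
      WE (lst P w) (lst P (D ++ [u, v])) ∧ (u.k = .R ∨ u.k = .L) ∧ (v.k = .R ∨ v.k = .L) := by
  have h1 : ∃ x ∈ cp w, (x.1.k = .R ∨ x.1.k = .L) ∧ (x.2.k = .R ∨ x.2.k = .L) := by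
    by_contra hne
    apply hz
    refine ⟨h.ew, fun x hx hk => hne ⟨x, hx, hk⟩⟩
  obtain ⟨⟨u, v⟩, hx, hu, hv⟩ := h1
  rcases cp_split w u v hx with ⟨A, B, e⟩ | ⟨A, e⟩ | ⟨e, e'⟩
  · subst e
    have e1 : A ++ u :: v :: B = (A ++ [u, v]) ++ B := by simp
    rw [e1] at h
    obtain ⟨h2, h3⟩ := qw_rot hB hC hS hA P X (A ++ [u, v]) B h
    have e2 : B ++ (A ++ [u, v]).map (It.sh N) = (B ++ A.map (It.sh N)) ++ [u.sh N, v.sh N] := by
      simp
    rw [e2] at h2 h3
    refine ⟨B ++ A.map (It.sh N), u.sh N, v.sh N, h2, ?_, ?_, hu, hv⟩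
    · simp; omega
    · rw [e1]; exact h3
  · subst e
    have e1 : v :: (A ++ [u]) = [v] ++ (A ++ [u]) := by simp
    rw [e1] at h
    obtain ⟨h2, h3⟩ := qw_rot hB hC hS hA P X [v] (A ++ [u]) h
    have e2 : (A ++ [u]) ++ [v].map (It.sh N) = A ++ [u, v.sh N] := by simp
    rw [e2] at h2 h3
    exact ⟨A, u, v.sh N, h2, by simp, by rw [e1]; exact h3, hu, hv⟩
  · exfalso
    subst e'
    obtain ⟨i, w', g1, -, g2⟩ := h.ew
    rw [e] at g1 g2
    simp only [List.cons.injEq] at g1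
    rw [← g1.1] at g2
    simp only [List.cons_append, List.nil_append, List.isChain_cons_cons] at g2
    have g3 := g2.1.dir
    have e1 : (u.sh N).k = u.k := rfl
    rw [e1] at g3
    rcases hu with hu | hu <;> rw [hu] at g3 <;> simp [Kd.fw, Kd.ar] at g3

/-! ### geometry -/

theorem adj_r {X : Finset ℝ} {a b b' : ℝ} (h : AdjX X a b) (h' : AdjX X a b') : b' = b := by
  obtain ⟨-, h2, h3, h4⟩ := h
  obtain ⟨-, g2, g3, g4⟩ := h'
  rcases lt_trichotomy b b' with hb | hb | hb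
  · exact absurd ⟨h3, hb⟩ (g4 b h2)
  · exact hb.symm
  · exact absurd ⟨g3, hb⟩ (h4 b' g2)

theorem adj_l {X : Finset ℝ} {a a' b : ℝ} (h : AdjX X a b) (h' : AdjX X a' b) : a' = a := by
  obtain ⟨h1, -, h3, h4⟩ := h
  obtain ⟨g1, -, g3, g4⟩ := h'
  rcases lt_trichotomy a a' with hb | hb | hb
  · exact absurd ⟨hb, g3⟩ (h4 a' g1)
  · exact hb.symm
  · exact absurd ⟨hb, h3⟩ (g4 a h1)

/-- A link to the right. -/
theorem lnk_r {P : Pg N} {X : Finset ℝ} {i j : It} (h : Lnk P X i j) (hk : i.k.fw ∨ j.k.ar) :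
    i.k.fw ∧ j.k.ar ∧ AdjX X i.t j.t := by
  rcases h.dir with ⟨h1, h2, h3⟩ | ⟨h1, h2, h3⟩
  · refine ⟨h1, h2, ?_⟩
    rcases h.adj with h4 | h4
    · exact h4
    · exact absurd h4.2.2.1 (not_lt.2 h3.le)
  · rcases hk with hk | hk
    · exact absurd hk h1
    · exact absurd hk h2

/-- A link to the left. -/
theorem lnk_l {P : Pg N} {X : Finset ℝ} {i j : It} (h : Lnk P X i j) (hk : ¬ i.k.fw ∨ ¬ j.k.ar) :
    ¬ i.k.fw ∧ ¬ j.k.ar ∧ AdjX X j.t i.t := by
  rcases h.dir with ⟨h1, h2, h3⟩ | ⟨h1, h2, h3⟩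
  · rcases hk with hk | hk
    · exact absurd h1 hk
    · exact absurd h2 hk
  · refine ⟨h1, h2, ?_⟩
    rcases h.adj with h4 | h4
    · exact absurd h4.2.2.1 (not_lt.2 h3.le)
    · exact h4

theorem lnk_ins {P : Pg N} {X : Finset ℝ} {i j : It} (h : Lnk P X i j) {a b : ℝ} (hab : a < b)
    (ht : i.t = a ∧ j.t = b ∨ i.t = b ∧ j.t = a) :
    ∀ m, i.e < m → m ≤ j.e → a < P.x m ∧ P.x m < b := by
  intro m h1 h2
  have h3 := h.ins m h1 h2
  rcases ht with ⟨e1, e2⟩ | ⟨e1, e2⟩ <;> rw [e1, e2] at h3 <;> rcases h3 with h3 | h3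
  · exact h3
  · exact absurd (h3.1.trans h3.2) (not_lt.2 hab.le)
  · exact absurd (h3.1.trans h3.2) (not_lt.2 hab.le)
  · exact h3

theorem rng {P : Pg N} {a b : ℝ} {p q i j e : ℤ} (hc : Comp P a b p q) (he : p ≤ e)
    (he' : e ≤ q) (hi : i ≤ e) (hj : e ≤ j)
    (hin : ∀ m, i < m → m ≤ j → a < P.x m ∧ P.x m < b) : p ≤ i ∧ j ≤ q := by
  constructor
  · by_contra h
    have h1 := hin p (not_le.1 h) (he.trans hj)
    rcases hc.fst with h2 | h2
    · exact absurd h1.1 (not_lt.2 h2.le)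
    · exact absurd h1.2 (not_lt.2 h2.le)
  · by_contra h
    have h1 := hin (q + 1) (by omega) (by omega)
    rcases hc.lst with h2 | h2
    · exact absurd h1.1 (not_lt.2 h2.le)
    · exact absurd h1.2 (not_lt.2 h2.le)

/-- The heights at the two lines are strictly monotone in the edge. -/
def Inc (P : Pg N) (a b : ℝ) (p q : ℤ) : Prop :=
  ∀ i j, p ≤ i → i < j → j ≤ q → P.l j a < P.l i a ∧ P.l i b < P.l j b

/-- The same for decreasing slopes. -/
def Dec (P : Pg N) (a b : ℝ) (p q : ℤ) : Prop :=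
  ∀ i j, p ≤ i → i < j → j ≤ q → P.l i a < P.l j a ∧ P.l j b < P.l i b

theorem hts (hB : P_PGB) {P : Pg N} {a b : ℝ} {p q : ℤ} (hc : Comp P a b p q) (hy : YM P p q) :
    Inc P a b p q ∨ Dec P a b p q := by
  rcases hy with hy | hy
  · left
    intro i j h1 h2 h3
    have hs : Icc i j ⊆ Icc p q := Icc_subset_Icc h1 h3
    have hin : ∀ m, i < m → m ≤ j → a < P.x m ∧ P.x m < b := fun m g1 g2 =>
      hc.ins m (by omega) (by omega)
    exact ⟨hB.m2 P i j a h2 (hy.mono hs) fun m g1 g2 => (hin m g1 g2).1,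
      hB.m1 P i j b h2 (hy.mono hs) fun m g1 g2 => (hin m g1 g2).2⟩
  · right
    intro i j h1 h2 h3
    have hs : Icc i j ⊆ Icc p q := Icc_subset_Icc h1 h3
    have hin : ∀ m, i < m → m ≤ j → a < P.x m ∧ P.x m < b := fun m g1 g2 =>
      hc.ins m (by omega) (by omega)
    exact ⟨hB.m4 P i j a h2 (hy.mono hs) fun m g1 g2 => (hin m g1 g2).1,
      hB.m3 P i j b h2 (hy.mono hs) fun m g1 g2 => (hin m g1 g2).2⟩

theorem sq_sh {P : Pg N} {X : Finset ℝ} {w : List It} {W : ℤ → It} (hW : Sq P X w W) (n c : ℤ) :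
    (W (n + c * w.length)).k = (W n).k ∧ (W (n + c * w.length)).t = (W n).t ∧
      (W (n + c * w.length)).e = (W n).e + c * N := by
  have hs : ∀ n, (W (n + w.length)).k = (W n).k ∧ (W (n + w.length)).t = (W n).t ∧
      (W (n + w.length)).e = (W n).e + N := by
    intro n; rw [hW.per n]; exact ⟨rfl, rfl, rfl⟩
  induction c using Int.induction_on generalizing n with
  | zero => simp
  | succ c ih =>
    have e : n + ((c : ℤ) + 1) * w.length = (n + (c : ℤ) * w.length) + w.length := by ring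
    obtain ⟨h1, h2, h3⟩ := hs (n + (c : ℤ) * w.length)
    obtain ⟨g1, g2, g3⟩ := ih n
    rw [e, h1, h2, h3, g1, g2, g3]
    exact ⟨rfl, rfl, by ring⟩
  | pred c ih =>
    obtain ⟨h1, h2, h3⟩ := hs (n + (-(c : ℤ) - 1) * w.length)
    have e : n + (-(c : ℤ) - 1) * w.length + w.length = n + (-(c : ℤ)) * w.length := by ring
    rw [e] at h1 h2 h3
    obtain ⟨g1, g2, g3⟩ := ih n
    rw [g1] at h1
    rw [g2] at h2
    rw [g3] at h3
    exact ⟨h1.symm, h2.symm, by linarith⟩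

theorem mts {P : Pg N} {X : Finset ℝ} {w : List It} {W : ℤ → It} (hW : Sq P X w W) {a b : ℝ}
    (hab : AdjX X a b) (k : ℤ) (ht : (W k).t = a) (hk : (W k).k ≠ .R) : Mts P a b (W k).e := by
  have hlt := hab.2.2.1
  have hok := hW.ok k
  unfold ItOK at hok
  rw [ht] at hok
  have hcases : (W k).k = .rt ∨ (W k).k = .lt ∨ (W k).k = .L := by
    cases hh : (W k).k
    · exact Or.inl rfl
    · exact Or.inr (Or.inl rfl)
    · exact absurd hh hk
    · exact Or.inr (Or.inr rfl)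
  rcases hcases with h | h | h
  · obtain ⟨h1, h2⟩ := hok.1 h
    exact ⟨fun g => absurd g.2 (not_lt.2 h2.le), fun g => by linarith [g.1]⟩
  · obtain ⟨h1, h2⟩ := hok.2 h
    exact ⟨fun g => absurd g.1 (not_lt.2 h2.le), fun g => by linarith [g.2]⟩
  · have hl := hW.lnk k
    have h1 := hl.tl (Or.inr h)
    obtain ⟨-, -, h2⟩ := lnk_r hl (Or.inl (by rw [h]; trivial))
    rw [ht] at h2
    have h3 := adj_r hab h2
    have h4 := lnk_ins hl hlt (Or.inl ⟨ht, h3⟩) ((W k).e + 1) (by omega) (by omega)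
    exact ⟨fun g => absurd g.2 (not_lt.2 h4.1.le), fun g => absurd g.2 (not_lt.2 h4.2.le)⟩

theorem lex_btw {a h1 h2 t h : ℝ} (g1 : -a < -t ∨ -a = -t ∧ h1 < h)
    (g2 : -t < -a ∨ -t = -a ∧ h < h2) : t = a ∧ h1 < h ∧ h < h2 := by
  rcases g1 with g1 | ⟨e1, g1⟩ <;> rcases g2 with g2 | ⟨e2, g2⟩
  · linarith
  · linarith
  · linarith
  · exact ⟨by linarith, g1, g2⟩

theorem btw_r {p q x : Pt} {a : ℝ} (hp : p.t = a) (hq : q.t = a) (h : Btw p.r q.r x.r) :
    x.t = a ∧ (p.h < x.h ∧ x.h < q.h ∨ q.h < x.h ∧ x.h < p.h) := by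
  unfold Btw Pt.r at h
  simp only [Prod.Lex.toLex_lt_toLex, hp, hq] at h
  rcases h with ⟨g1, g2⟩ | ⟨g1, g2⟩
  · obtain ⟨e, g3⟩ := lex_btw g1 g2
    exact ⟨e, Or.inl g3⟩
  · obtain ⟨e, g3⟩ := lex_btw g1 g2
    exact ⟨e, Or.inr g3⟩

/-- No row strictly between the rows of the items `n` and `n + 2` on the line `a`. -/
theorem rows (hB : P_PGB) (hC : P_CMP) (hS : P_SEQ) {P : Pg N} {X : Finset ℝ} {w : List It}
    {W : ℤ → It} (hX : GoodX P X) (hN : 0 < N) (hW : Sq P X w W) {a b : ℝ} {p q : ℤ}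
    (hab : AdjX X a b) (hc : Comp P a b p q) (hy : YM P p q) (n : ℤ) (h1 : (W n).t = a)
    (h2 : (W (n + 1)).t ≠ a) (h3 : (W (n + 2)).t = a) (h4 : p ≤ (W n).e)
    (h5 : (W (n + 2)).e ≤ q) : ∀ x ∈ w.map (pt P), x.k ≠ .R →
      ¬ Btw (pt P (W n)).r (pt P (W (n + 2))).r x.r := by
  intro x hx hk hb
  have hg := hX.gd a b hab
  have hmo := hS.mo P X w W hW
  have hnn := hmo n (n + 2) (by omega)
  obtain ⟨i, hi, rfl⟩ := List.mem_map.1 hx
  obtain ⟨k, hk1, hk2⟩ := List.mem_iff_getElem.1 hi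
  rw [hW.get k hk1] at hk2
  subst hk2
  obtain ⟨ht, hh⟩ := btw_r (a := a) h1 h3 hb
  change (W k).t = a at ht
  change P.l (W n).e (W n).t < P.l (W k).e (W k).t ∧
    P.l (W k).e (W k).t < P.l (W (n + 2)).e (W (n + 2)).t ∨
    P.l (W (n + 2)).e (W (n + 2)).t < P.l (W k).e (W k).t ∧
    P.l (W k).e (W k).t < P.l (W n).e (W n).t at hh
  rw [h1, h3, ht] at hh
  obtain ⟨p', q', g1, g2, g3⟩ := hC.ex P a b hN hg (W k).e (mts hW hab k ht hk)
  rcases hC.sep P a b p q p' q' hN hg hc g1 with ⟨c, e1, e2⟩ | ⟨g4, -⟩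
  · -- the same component
    obtain ⟨s1, s2, s3⟩ := sq_sh hW ((k : ℤ) - c * w.length) c
    rw [sub_add_cancel] at s1 s2 s3
    set m := (k : ℤ) - c * w.length with hm
    have e3 : P.l (W k).e a = P.l (W m).e a := by rw [s3]; exact l_sh hB P _ c a
    rw [e3] at hh
    have g5 : p ≤ (W m).e := by rw [e1, s3] at g2; linarith
    have g6 : (W m).e ≤ q := by rw [e2, s3] at g3; linarith
    have g7 : (W m).t = a := s2.symm.trans ht
    have g8 : (W m).e ≤ (W n).e ∨ (W (n + 2)).e ≤ (W m).e := by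
      rcases lt_trichotomy m (n + 1) with hmn | hmn | hmn
      · exact Or.inl (hmo m n (by omega))
      · exact absurd (hmn ▸ g7) h2
      · exact Or.inr (hmo (n + 2) m (by omega))
    rcases hts hB hc hy with hI | hI
    · have hle : ∀ i j, p ≤ i → i ≤ j → j ≤ q → P.l j a ≤ P.l i a := by
        intro i j r1 r2 r3
        rcases r2.eq_or_lt with r2 | r2
        · rw [r2]
        · exact (hI i j r1 r2 r3).1.le
      have t1 := hle _ _ h4 hnn h5
      rcases g8 with g8 | g8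
      · have t2 := hle _ _ g5 g8 (hnn.trans h5)
        rcases hh with hh | hh <;> linarith [hh.1, hh.2]
      · have t2 := hle _ _ (h4.trans hnn) g8 g6
        rcases hh with hh | hh <;> linarith [hh.1, hh.2]
    · have hle : ∀ i j, p ≤ i → i ≤ j → j ≤ q → P.l i a ≤ P.l j a := by
        intro i j r1 r2 r3
        rcases r2.eq_or_lt with r2 | r2
        · rw [r2]
        · exact (hI i j r1 r2 r3).1.le
      have t1 := hle _ _ h4 hnn h5
      rcases g8 with g8 | g8
      · have t2 := hle _ _ g5 g8 (hnn.trans h5)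
        rcases hh with hh | hh <;> linarith [hh.1, hh.2]
      · have t2 := hle _ _ (h4.trans hnn) g8 g6
        rcases hh with hh | hh <;> linarith [hh.1, hh.2]
  · -- different components
    have m1 : (W n).e ∈ Icc p q := ⟨h4, hnn.trans h5⟩
    have m2 : (W (n + 2)).e ∈ Icc p q := ⟨h4.trans hnn, h5⟩
    have m3 : (W k).e ∈ Icc p' q' := ⟨g2, g3⟩
    rcases g4 with g4 | g4
    · have t1 := g4 _ m1 _ m3
      have t2 := g4 _ m2 _ m3
      rcases hh with hh | hh <;> linarith [hh.1, hh.2]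
    · have t1 := g4 _ m1 _ m3
      have t2 := g4 _ m2 _ m3
      rcases hh with hh | hh <;> linarith [hh.1, hh.2]

/-! ### removal -/

theorem cw_of_ew (hS : P_SEQ) (hLn : P_LEN) {P : Pg N} {X : Finset ℝ} (hX : GoodX P X)
    {w : List It} (h : EW P X w) (hn : (ents (w.map (pt P))).Nodup) : CW (w.map (pt P)) := by
  refine ⟨hn, ?_, hLn P X X w hX (Finset.Subset.refl X) h⟩
  obtain ⟨W, hW⟩ := hS.ex P X w h
  intro x hx
  obtain ⟨n, rfl⟩ := (hS.cp P X w W hW x).1 hx
  exact (hW.lnk n).dir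

theorem qw_del (hS : P_SEQ) (hLn : P_LEN) {P : Pg N} {X : Finset ℝ} (hX : GoodX P X)
    (d : It) (D : List It) (l u v : It) (h : Qw P X ((d :: (D ++ [l])) ++ [u, v]))
    (hl : Lnk P X l (d.sh N)) : Qw P X (d :: (D ++ [l])) := by
  have hsub : ∀ i ∈ d :: (D ++ [l]), i ∈ (d :: (D ++ [l])) ++ [u, v] := fun i hi =>
    List.mem_append.2 (Or.inl hi)
  have hew : EW P X (d :: (D ++ [l])) := by
    obtain ⟨i, w', -, g2, g3⟩ := h.ew
    refine ⟨d, D ++ [l], rfl, fun j hj => g2 j (hsub j hj), ?_⟩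
    have g4 := g3.left_of_append.left_of_append
    rw [List.isChain_append]
    refine ⟨g4, List.isChain_singleton _, ?_⟩
    intro x hx y hy
    have e : d :: (D ++ [l]) = (d :: D) ++ [l] := rfl
    rw [e, List.getLast?_append] at hx
    simp at hx hy
    rw [← hx, ← hy]
    exact hl
  refine ⟨hew, fun a b hab i hi => h.yx a b hab i (hsub i hi), cw_of_ew hS hLn hX hew ?_⟩
  have h1 := h.cw.nd
  rw [List.map_append] at h1
  unfold ents at h1 ⊢
  rw [List.flatMap_append] at h1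
  exact h1.of_append_left

theorem getW {P : Pg N} {X : Finset ℝ} {d l u v : It} {D : List It} {W : ℤ → It}
    (hW : Sq P X ((d :: (D ++ [l])) ++ [u, v]) W) :
    W ((D.length : ℤ) + 1) = l ∧ W ((D.length : ℤ) + 2) = u ∧ W ((D.length : ℤ) + 3) = v ∧
      W ((D.length : ℤ) + 4) = d.sh N := by
  have e : (d :: (D ++ [l])) ++ [u, v] = d :: (D ++ [l, u, v]) := by simp
  have hlen : ((d :: (D ++ [l])) ++ [u, v]).length = D.length + 4 := by simp
  have h0 := hW.get 0 (by omega)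
  have h1 := hW.get (D.length + 1) (by omega)
  have h2 := hW.get (D.length + 2) (by omega)
  have h3 := hW.get (D.length + 3) (by omega)
  have h4 := hW.per 0
  rw [hlen] at h4
  simp at h0 h1 h2 h3 h4
  refine ⟨h1.symm, ?_, ?_, ?_⟩
  · rw [← h2]
  · rw [← h3]
  · rw [h4, h0]

theorem cc_lt {p q : Pt} (h : p.t < q.t ∨ p.t = q.t ∧ p.h < q.h) : p.c < q.c := by
  unfold Pt.c
  rw [Prod.Lex.toLex_lt_toLex]
  exact h

theorem rr_lt {p q : Pt} (h : p.t = q.t) (h' : p.h < q.h) : p.r < q.r := by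
  unfold Pt.r
  rw [Prod.Lex.toLex_lt_toLex]
  exact Or.inr ⟨by simp only [h], h'⟩

theorem btw_symm {α : Type*} [LT α] {a b x : α} (h : Btw a b x) : Btw b a x := Or.symm h

/-- The zigzag `R`, `L`. -/
theorem case1 (hB : P_PGB) (hC : P_CMP) (hS : P_SEQ) (hA : P_CWA) (hW' : P_WEB) (hZ : P_ZR1)
    (hLn : P_LEN) {P : Pg N} {X : Finset ℝ} (hX : GoodX P X) (hN : 0 < N)
    (d : It) (D : List It) (l u v : It) (h : Qw P X ((d :: (D ++ [l])) ++ [u, v]))
    (hu : u.k = .R) (hv : v.k = .L) :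
    Qw P X (d :: (D ++ [l])) ∧
      WE (lst P ((d :: (D ++ [l])) ++ [u, v])) (lst P (d :: (D ++ [l]))) := by
  obtain ⟨W, hW⟩ := hS.ex P X _ h.ew
  obtain ⟨w1, w2, w3, w4⟩ := getW hW
  set n : ℤ := (D.length : ℤ) + 1 with hn
  have w2' : W (n + 1) = u := by rw [← w2]; congr 1
  have w3' : W (n + 2) = v := by rw [← w3]; congr 1
  have w4' : W (n + 3) = d.sh N := by rw [← w4]; congr 1
  have l1 := hW.lnk n
  rw [w1, w2'] at l1
  have l2 := hW.lnk (n + 1)
  rw [show n + 1 + 1 = n + 2 by ring, w2', w3'] at l2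
  have l3 := hW.lnk (n + 2)
  rw [show n + 2 + 1 = n + 3 by ring, w3', w4'] at l3
  obtain ⟨-, -, hab⟩ := lnk_l l2 (Or.inl (by rw [hu]; exact fun h => h))
  obtain ⟨k1, -, b1⟩ := lnk_r l1 (Or.inr (by rw [hu]; trivial))
  obtain ⟨-, k3, b3⟩ := lnk_r l3 (Or.inl (by rw [hv]; trivial))
  have tl := adj_l hab b1
  have td : (d.sh N).t = u.t := adj_r hab b3
  have hlt := hab.2.2.1
  have i1 := lnk_ins l1 hlt (Or.inl ⟨tl, rfl⟩)
  have i2 := lnk_ins l2 hlt (Or.inr ⟨rfl, rfl⟩)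
  have i3 := lnk_ins l3 hlt (Or.inl ⟨rfl, td⟩)
  have e1 := l1.le
  have e2 := l2.tl (Or.inl hu)
  have e3 := l3.tl (Or.inr hv)
  have hins : ∀ m, l.e < m → m ≤ (d.sh N).e → v.t < P.x m ∧ P.x m < u.t := by
    intro m h1 h2
    by_cases c1 : m ≤ u.e
    · exact i1 m h1 c1
    · by_cases c2 : m ≤ v.e
      · exact i2 m (by omega) c2
      · exact i3 m (by omega) h2
  have hl : Lnk P X l (d.sh N) := by
    refine ⟨by omega, fun _ => by omega, Or.inl (by rw [tl, td]; exact hab), ?_,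
      Or.inl ⟨k1, k3, by rw [tl, td]; exact hlt⟩⟩
    intro m h1 h2
    rw [tl, td]
    exact Or.inl (hins m h1 h2)
  have hq := qw_del hS hLn hX d D l u v h hl
  refine ⟨hq, ?_⟩
  have um : u ∈ (d :: (D ++ [l])) ++ [u, v] := by simp
  have i2' := i2 (u.e + 1) (by omega) (by omega)
  obtain ⟨p, q, hc, hp, hq', hy⟩ := h.yx v.t u.t hab u um (Or.inl hu) i2'.1 i2'.2
  obtain ⟨r1, r2⟩ := rng hc hp hq' (i := l.e) (j := (d.sh N).e) e1 (by omega) hins
  have hcw := h.cw
  rw [List.map_append] at hcw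
  obtain ⟨hcw1, hwe1⟩ := hA.rot _ _ hcw
  have eq1 : [u, v].map (pt P) ++ (d :: (D ++ [l])).map (pt P) =
    pt P u :: pt P v :: pt P d :: (D.map (pt P) ++ [pt P l]) := by simp
  have eq2 : (d :: (D ++ [l])).map (pt P) = pt P d :: (D.map (pt P) ++ [pt P l]) := by simp
  rw [eq1] at hcw1 hwe1
  have hcw2 := hq.cw
  rw [eq2] at hcw2
  have pd : pt P d = pt P (d.sh N) := (pt_sh hB P d).symm
  have hmem : ∀ x, x ∈ pt P u :: pt P v :: pt P d :: (D.map (pt P) ++ [pt P l]) →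
      x ∈ ((d :: (D ++ [l])) ++ [u, v]).map (pt P) := by
    intro x hx
    rw [← eq1, List.mem_append] at hx
    rw [List.map_append, List.mem_append]
    exact hx.symm
  have hrows := rows hB hC hS hX hN hW hab hc hy n (by rw [w1]; exact tl)
    (by rw [w2']; exact hlt.ne') (by rw [w3']) (by rw [w1]; exact r1) (by rw [w3']; omega)
  rw [w1, w3'] at hrows
  have hlast : ∀ c₀ : Q, ((pt P l).k = .rt ∧ c₀ = (pt P l).c ∨ (pt P l).k = .L ∧
      ∃ o, (o, pt P l) ∈ cp (pt P u :: pt P v :: pt P d :: (D.map (pt P) ++ [pt P l])) ∧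
        c₀ = o.c) → c₀ = (pt P l).c ∨ ∃ e, p ≤ e ∧ e < u.e ∧ c₀ = (Pt.mk .R u.t (P.l e u.t)).c := by
    intro c₀ h0
    rcases h0 with ⟨-, h0⟩ | ⟨h0, o, h1, h2⟩
    · exact Or.inl h0
    · right
      rw [← eq1, cp_rot, ← List.map_append] at h1
      have h3 := (hS.cp P X _ W hW (pt P (W (n - 1)), pt P (W (n - 1 + 1)))).2 ⟨n - 1, rfl⟩
      rw [sub_add_cancel, w1] at h3
      have h4 := cp_pred _ (hA.nd _ h.cw) h1 h3
      have l0 := hW.lnk (n - 1)
      rw [sub_add_cancel, w1] at l0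
      change l.k = .L at h0
      obtain ⟨-, -, b0⟩ := lnk_l l0 (Or.inr (by rw [h0]; exact fun h => h))
      rw [tl] at b0
      have t0 := adj_r hab b0
      have i0 := lnk_ins l0 hlt (Or.inr ⟨t0, tl⟩)
      have e0 := l0.le
      have e1' := l1.tl (Or.inr h0)
      obtain ⟨r3, -⟩ := rng hc hp hq' (i := (W (n - 1)).e) (j := u.e) (by omega) le_rfl
        (fun m g1 g2 => by
          by_cases c : m ≤ l.e
          · exact i0 m g1 c
          · exact i1 m (by omega) g2)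
      refine ⟨(W (n - 1)).e, r3, by omega, ?_⟩
      rw [h2, h4]
      unfold Pt.c pt
      simp only [t0]
  have key := hZ (pt P u) (pt P v) (pt P d) (pt P l) (D.map (pt P)) hcw1 hcw2 hu hv
    (fun x hx hk => hrows x (hmem x hx) hk) ?_
  · unfold lst
    rw [List.map_append, eq2]
    rw [eq2] at hwe1
    exact hW'.trans _ _ _ hwe1 key
  · intro c₀ h0
    have hc0 := hlast c₀ h0
    rw [pd]
    have htd : (pt P (d.sh N)).t = u.t := td
    have htl : (pt P l).t = v.t := tl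
    rcases hts hB hc hy with hI | hI
    · left
      refine ⟨rr_lt htl.symm ?_, Or.inr (Or.inl ⟨?_, cc_lt (Or.inr ⟨htd.symm, ?_⟩)⟩)⟩
      · change P.l v.e v.t < P.l l.e l.t
        rw [tl]
        exact (hI l.e v.e r1 (by omega) (by omega)).1
      · rcases hc0 with hc0 | ⟨e, g1, g2, g3⟩
        · rw [hc0]; exact cc_lt (Or.inl (by rw [htl]; exact hlt))
        · rw [g3]
          exact cc_lt (Or.inr ⟨rfl, (hI e u.e g1 g2 hq').2⟩)
      · change P.l u.e u.t < P.l (d.sh N).e (d.sh N).t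
        rw [td]
        exact (hI u.e (d.sh N).e hp (by omega) r2).2
    · right
      refine ⟨rr_lt htl ?_, ?_⟩
      · change P.l l.e l.t < P.l v.e v.t
        rw [tl]
        exact (hI l.e v.e r1 (by omega) (by omega)).1
      · have g0 : (pt P (d.sh N)).c < (pt P u).c := by
          refine cc_lt (Or.inr ⟨htd, ?_⟩)
          change P.l (d.sh N).e (d.sh N).t < P.l u.e u.t
          rw [td]
          exact (hI u.e (d.sh N).e hp (by omega) r2).2
        rcases hc0 with hc0 | ⟨e, g1, g2, g3⟩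
        · left
          refine ⟨?_, g0⟩
          rw [hc0]; exact cc_lt (Or.inl (by rw [htl, htd]; exact hlt))
        · right; left
          refine ⟨g0, ?_⟩
          rw [g3]
          exact cc_lt (Or.inr ⟨rfl, (hI e u.e g1 g2 hq').2⟩)

/-- The zigzag `L`, `R`. -/
theorem case2 (hB : P_PGB) (hC : P_CMP) (hS : P_SEQ) (hA : P_CWA) (hW' : P_WEB) (hZ : P_ZR2)
    (hLn : P_LEN) {P : Pg N} {X : Finset ℝ} (hX : GoodX P X) (hN : 0 < N)
    (d : It) (D : List It) (l u v : It) (h : Qw P X ((d :: (D ++ [l])) ++ [u, v]))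
    (hu : u.k = .L) (hv : v.k = .R) :
    Qw P X (d :: (D ++ [l])) ∧
      WE (lst P ((d :: (D ++ [l])) ++ [u, v])) (lst P (d :: (D ++ [l]))) := by
  obtain ⟨W, hW⟩ := hS.ex P X _ h.ew
  obtain ⟨w1, w2, w3, w4⟩ := getW hW
  set n : ℤ := (D.length : ℤ) + 1 with hn
  have w2' : W (n + 1) = u := by rw [← w2]; congr 1
  have w3' : W (n + 2) = v := by rw [← w3]; congr 1
  have w4' : W (n + 3) = d.sh N := by rw [← w4]; congr 1
  have l1 := hW.lnk n
  rw [w1, w2'] at l1
  have l2 := hW.lnk (n + 1)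
  rw [show n + 1 + 1 = n + 2 by ring, w2', w3'] at l2
  have l3 := hW.lnk (n + 2)
  rw [show n + 2 + 1 = n + 3 by ring, w3', w4'] at l3
  obtain ⟨-, -, hab⟩ := lnk_r l2 (Or.inl (by rw [hu]; trivial))
  obtain ⟨k1, -, b1⟩ := lnk_l l1 (Or.inr (by rw [hu]; exact fun h => h))
  obtain ⟨-, k3, b3⟩ := lnk_l l3 (Or.inl (by rw [hv]; exact fun h => h))
  have tl := adj_r hab b1
  have td : (d.sh N).t = u.t := adj_l hab b3
  have hlt := hab.2.2.1
  have i1 := lnk_ins l1 hlt (Or.inr ⟨tl, rfl⟩)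
  have i2 := lnk_ins l2 hlt (Or.inl ⟨rfl, rfl⟩)
  have i3 := lnk_ins l3 hlt (Or.inr ⟨rfl, td⟩)
  have e1 := l1.le
  have e2 := l2.tl (Or.inr hu)
  have e3 := l3.tl (Or.inl hv)
  have hins : ∀ m, l.e < m → m ≤ (d.sh N).e → u.t < P.x m ∧ P.x m < v.t := by
    intro m h1 h2
    by_cases c1 : m ≤ u.e
    · exact i1 m h1 c1
    · by_cases c2 : m ≤ v.e
      · exact i2 m (by omega) c2
      · exact i3 m (by omega) h2
  have hl : Lnk P X l (d.sh N) := by
    refine ⟨by omega, fun _ => by omega, Or.inr (by rw [tl, td]; exact hab), ?_,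
      Or.inr ⟨k1, k3, by rw [tl, td]; exact hlt⟩⟩
    intro m h1 h2
    rw [tl, td]
    exact Or.inr (hins m h1 h2)
  have hq := qw_del hS hLn hX d D l u v h hl
  refine ⟨hq, ?_⟩
  have um : u ∈ (d :: (D ++ [l])) ++ [u, v] := by simp
  have i2' := i2 (u.e + 1) (by omega) (by omega)
  obtain ⟨p, q, hc, hp, hq', hy⟩ := h.yx u.t v.t hab u um (Or.inr hu) i2'.1 i2'.2
  obtain ⟨r1, r2⟩ := rng hc hp hq' (i := l.e) (j := (d.sh N).e) e1 (by omega) hins
  have hcw := h.cw
  rw [List.map_append] at hcw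
  obtain ⟨hcw1, hwe1⟩ := hA.rot _ _ hcw
  have eq1 : [u, v].map (pt P) ++ (d :: (D ++ [l])).map (pt P) =
    pt P u :: pt P v :: pt P d :: (D.map (pt P) ++ [pt P l]) := by simp
  have eq2 : (d :: (D ++ [l])).map (pt P) = pt P d :: (D.map (pt P) ++ [pt P l]) := by simp
  rw [eq1] at hcw1 hwe1
  have hcw2 := hq.cw
  rw [eq2] at hcw2
  have pd : pt P d = pt P (d.sh N) := (pt_sh hB P d).symm
  have hmem : ∀ x, x ∈ pt P u :: pt P v :: pt P d :: (D.map (pt P) ++ [pt P l]) →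
      x ∈ ((d :: (D ++ [l])) ++ [u, v]).map (pt P) := by
    intro x hx
    rw [← eq1, List.mem_append] at hx
    rw [List.map_append, List.mem_append]
    exact hx.symm
  have hrows := rows hB hC hS hX hN hW hab hc hy (n + 1) (by rw [w2'])
    (by rw [show n + 1 + 1 = n + 2 by ring, w3']; exact hlt.ne')
    (by rw [show n + 1 + 2 = n + 3 by ring, w4']; exact td)
    (by rw [w2']; exact hp) (by rw [show n + 1 + 2 = n + 3 by ring, w4']; exact r2)
  rw [show n + 1 + 2 = n + 3 by ring, w2', w4', ← pd] at hrows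
  have hlast : ∀ c₀ : Q, ((pt P d).k = .lt ∧ c₀ = (pt P d).c ∨ (pt P d).k = .L ∧
      ∃ o, (pt P d, o) ∈ cp (pt P u :: pt P v :: pt P d :: (D.map (pt P) ++ [pt P l])) ∧
        c₀ = o.c) → c₀ = (pt P d).c ∨ ∃ e, e ≤ q ∧ v.e < e ∧ c₀ = (Pt.mk .R v.t (P.l e v.t)).c := by
    intro c₀ h0
    rcases h0 with ⟨-, h0⟩ | ⟨h0, o, h1, h2⟩
    · exact Or.inl h0
    · right
      rw [← eq1, cp_rot, ← List.map_append] at h1
      have h3 := (hS.cp P X _ W hW (pt P (W (n + 3)), pt P (W (n + 3 + 1)))).2 ⟨n + 3, rfl⟩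
      rw [w4', ← pd] at h3
      have h4 := cp_succ _ (hA.nd _ h.cw) h1 h3
      have l0 := hW.lnk (n + 3)
      rw [w4'] at l0
      change d.k = .L at h0
      have h0' : (d.sh N).k = .L := h0
      obtain ⟨-, -, b0⟩ := lnk_r l0 (Or.inl (by rw [h0']; trivial))
      rw [td] at b0
      have t0 := adj_r hab b0
      have i0 := lnk_ins l0 hlt (Or.inl ⟨td, t0⟩)
      have e0 := l0.tl (Or.inr h0')
      obtain ⟨-, r3⟩ := rng hc hp hq' (i := l.e) (j := (W (n + 3 + 1)).e) e1 (by omega)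
        (fun m g1 g2 => by
          by_cases c : m ≤ (d.sh N).e
          · exact hins m g1 c
          · exact i0 m (by omega) g2)
      refine ⟨(W (n + 3 + 1)).e, r3, by omega, ?_⟩
      rw [h2, h4]
      unfold Pt.c pt
      simp only [t0]
  have key := hZ (pt P v) (pt P u) (pt P l) (pt P d) (D.map (pt P)) hcw1 hcw2 hv hu
    (fun x hx hk hb => hrows x (hmem x hx) hk (btw_symm hb)) ?_
  · unfold lst
    rw [List.map_append, eq2]
    rw [eq2] at hwe1
    exact hW'.trans _ _ _ hwe1 key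
  · intro c₀ h0
    have hc0 := hlast c₀ h0
    have htd : (pt P d).t = u.t := td
    have htl : (pt P l).t = v.t := tl
    have hld : P.l d.e d.t = P.l (d.sh N).e u.t := by
      have := congrArg Pt.h pd
      rw [← td]
      exact this
    rcases hts hB hc hy with hI | hI
    · right
      have g0 : (pt P l).c < (pt P v).c := by
        refine cc_lt (Or.inr ⟨htl, ?_⟩)
        change P.l l.e l.t < P.l v.e v.t
        rw [tl]
        exact (hI l.e v.e r1 (by omega) (by omega)).2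
      refine ⟨rr_lt htd ?_, ?_⟩
      · change P.l d.e d.t < P.l u.e u.t
        rw [hld]
        exact (hI u.e (d.sh N).e hp (by omega) r2).1
      · rcases hc0 with hc0 | ⟨e, g1, g2, g3⟩
        · left
          refine ⟨?_, g0⟩
          rw [hc0]; exact cc_lt (Or.inl (by rw [htl, htd]; exact hlt))
        · right; left
          refine ⟨g0, ?_⟩
          rw [g3]
          exact cc_lt (Or.inr ⟨rfl, (hI v.e e (by omega) g2 g1).2⟩)
    · left
      have g0 : (pt P v).c < (pt P l).c := by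
        refine cc_lt (Or.inr ⟨htl.symm, ?_⟩)
        change P.l v.e v.t < P.l l.e l.t
        rw [tl]
        exact (hI l.e v.e r1 (by omega) (by omega)).2
      refine ⟨rr_lt htd.symm ?_, Or.inr (Or.inl ⟨?_, g0⟩)⟩
      · change P.l u.e u.t < P.l d.e d.t
        rw [hld]
        exact (hI u.e (d.sh N).e hp (by omega) r2).1
      · rcases hc0 with hc0 | ⟨e, g1, g2, g3⟩
        · rw [hc0]
          refine cc_lt (Or.inl ?_)
          rw [htd]
          exact hlt
        · rw [g3]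
          exact cc_lt (Or.inr ⟨rfl, (hI v.e e (by omega) g2 g1).2⟩)

theorem uv {P : Pg N} {X : Finset ℝ} {D : List It} {u v : It} (h : EW P X (D ++ [u, v])) :
    Lnk P X u v := by
  obtain ⟨i, w', -, -, g⟩ := h
  rw [List.append_assoc] at g
  have g1 := g.right_of_append
  simp only [List.cons_append, List.nil_append, List.isChain_cons_cons] at g1
  exact g1.1

theorem no_rr {P : Pg N} {X : Finset ℝ} {u v : It} (h : Lnk P X u v) (hu : u.k = .R)
    (hv : v.k = .R) : False := by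
  have := (lnk_l h (Or.inl (by rw [hu]; exact fun h => h))).2.1
  rw [hv] at this
  exact this trivial

theorem no_ll {P : Pg N} {X : Finset ℝ} {u v : It} (h : Lnk P X u v) (hu : u.k = .L)
    (hv : v.k = .L) : False := by
  have := (lnk_r h (Or.inl (by rw [hu]; trivial))).2.1
  rw [hv] at this
  exact this

theorem no_one {P : Pg N} {X : Finset ℝ} {d u v : It} (h : EW P X [d, u, v])
    (hu : u.k = .R ∨ u.k = .L) (hv : v.k = .R ∨ v.k = .L) : False := by
  have huv := uv (D := [d]) h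
  obtain ⟨i, w', g0, -, g⟩ := h
  simp only [List.cons.injEq] at g0
  rw [← g0.1] at g
  simp only [List.cons_append, List.nil_append, List.isChain_cons_cons] at g
  obtain ⟨g1, -, g3, -⟩ := g
  rcases hu with hu | hu <;> rcases hv with hv | hv
  · exact no_rr huv hu hv
  · obtain ⟨-, -, hab⟩ := lnk_l huv (Or.inl (by rw [hu]; exact fun h => h))
    obtain ⟨-, -, b1⟩ := lnk_r g1 (Or.inr (by rw [hu]; trivial))
    obtain ⟨-, -, b3⟩ := lnk_r g3 (Or.inl (by rw [hv]; trivial))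
    have t1 := adj_l hab b1
    have t2 : d.t = u.t := adj_r hab b3
    exact hab.2.2.1.ne (t1.symm.trans t2)
  · obtain ⟨-, -, hab⟩ := lnk_r huv (Or.inl (by rw [hu]; trivial))
    obtain ⟨-, -, b1⟩ := lnk_l g1 (Or.inr (by rw [hu]; exact fun h => h))
    obtain ⟨-, -, b3⟩ := lnk_l g3 (Or.inl (by rw [hv]; exact fun h => h))
    have t1 := adj_r hab b1
    have t2 : d.t = u.t := adj_l hab b3
    exact hab.2.2.1.ne (t2.symm.trans t1)
  · exact no_ll huv hu hv

end ZRM

theorem t_ZRM : Stmt_ZRM := by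
  intro hB hC hS hWe hA hZ1 hZ2 hLn N P X w hX hew hyx hcw hng
  have hN := hS.pos P X w hew
  obtain ⟨D, u, v, h1, h2, h3, hu, hv⟩ := ZRM.zig hB hC hS hA P X w ⟨hew, hyx, hcw⟩ hng
  have huv := ZRM.uv h1.ew
  rcases D with _ | ⟨d, D⟩
  · exfalso
    have := h1.cw.len
    rcases hu with hu | hu <;> rcases hv with hv | hv <;>
      simp [ents, ent, pt, hu, hv] at this
  · rcases List.eq_nil_or_concat D with hD | ⟨D', l, hD⟩
    · exfalso
      subst hD
      exact ZRM.no_one h1.ew hu hv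
    · rw [List.concat_eq_append] at hD
      subst hD
      have h4 : ZRM.Qw P X (d :: (D' ++ [l])) ∧
          WE (lst P ((d :: (D' ++ [l])) ++ [u, v])) (lst P (d :: (D' ++ [l]))) := by
        rcases hu with hu | hu <;> rcases hv with hv | hv
        · exact (ZRM.no_rr huv hu hv).elim
        · exact ZRM.case1 hB hC hS hA hWe hZ1 hLn hX hN d D' l u v h1 hu hv
        · exact ZRM.case2 hB hC hS hA hWe hZ2 hLn hX hN d D' l u v h1 hu hv
        · exact (ZRM.no_ll huv hu hv).elim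
      refine ⟨d :: (D' ++ [l]), ?_, h4.1.ew, h4.1.yx, h4.1.cw, hWe.trans _ _ _ h3 h4.2⟩
      rw [← h2]
      simp

end LH
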