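import Pool.Agent.LH.Stmts2

/-!
# ZSH: the heights may be changed by a constant
-/

namespace LH

open Set LG

namespace ZSH

/-- The shift of the heights. -/
noncomputable def sf (c : ℝ) (q : Q) : Q := toLex ((ofLex q).1, (ofLex q).2 + c)

theorem sf_lt (c : ℝ) {a b : Q} (h : a < b) : sf c a < sf c b := by
  unfold sf
  rw [Prod.Lex.toLex_lt_toLex]
  rw [Prod.Lex.lt_iff] at h
  rcases h with h | ⟨h1, h2⟩
  · left
    exact h
  · right
    exact ⟨h1, by simpa using h2⟩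

theorem sf_inj (c : ℝ) : Function.Injective (sf c) := by
  intro a b hab
  rcases lt_trichotomy a b with h | h | h
  · exact absurd hab (sf_lt c h).ne
  · exact h
  · exact absurd hab (sf_lt c h).ne'

theorem zc {N : ℕ} (P P' : Pg N) (hx : P.x = P'.x) (hy : P.y = P'.y) :
    ∃ c : ℝ, ∀ i, P'.z i = P.z i + c := by
  refine ⟨P'.z 0 - P.z 0, ?_⟩
  have hs : ∀ i, P'.z (i + 1) - P.z (i + 1) = P'.z i - P.z i := by
    intro i
    rw [P'.cl i, P.cl i, hx, hy]
    ring
  intro i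
  induction i using Int.induction_on with
  | zero => ring
  | succ i ih =>
    have := hs i
    linarith
  | pred i ih =>
    have := hs (-(i : ℤ) - 1)
    rw [sub_add_cancel] at this
    linarith

theorem lc {N : ℕ} (P P' : Pg N) (hx : P.x = P'.x) (hy : P.y = P'.y) {c : ℝ}
    (hz : ∀ i, P'.z i = P.z i + c) (i : ℤ) (t : ℝ) : P'.l i t = P.l i t + c := by
  unfold Pg.l
  rw [hz, hx, hy]
  ring

theorem ent_map {N : ℕ} (P P' : Pg N) {c : ℝ} (hl : ∀ i t, P'.l i t = P.l i t + c) (i : It) :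
    ent (pt P' i) = (ent (pt P i)).map (Sum.map (sf c) (sf c)) := by
  have h1 : (pt P' i).c = sf c (pt P i).c := by
    unfold pt Pt.c sf
    rw [hl]
    rfl
  have h2 : (pt P' i).r = sf c (pt P i).r := by
    unfold pt Pt.r sf
    rw [hl]
    rfl
  have h3 : (pt P' i).k = (pt P i).k := rfl
  unfold ent
  rw [h3, h1, h2]
  cases (pt P i).k <;> rfl

theorem ents_map {N : ℕ} (P P' : Pg N) {c : ℝ} (hl : ∀ i t, P'.l i t = P.l i t + c)
    (w : List It) :
    ents (w.map (pt P')) = (ents (w.map (pt P))).map (Sum.map (sf c) (sf c)) := by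
  unfold ents
  induction w with
  | nil => rfl
  | cons i w ih =>
    rw [List.map_cons, List.map_cons, List.flatMap_cons, List.flatMap_cons, List.map_append,
      ← ent_map P P' hl, ih]

theorem comp {N : ℕ} (P P' : Pg N) (hx : P.x = P'.x) {a b : ℝ} {p q : ℤ} (h : Comp P' a b p q) :
    Comp P a b p q :=
  ⟨h.le, by rw [hx]; exact h.ins, by rw [hx]; exact h.fst, by rw [hx]; exact h.lst,
    by rw [hx]; exact h.one⟩

theorem compE {N : ℕ} (P P' : Pg N) (hx : P.x = P'.x) {e : ℝ} {p q : ℤ} (h : CompE P' e p q) :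
    CompE P e p q :=
  ⟨h.le, by rw [hx]; exact h.ins, by rw [hx]; exact h.fst, by rw [hx]; exact h.lst,
    by rw [hx]; exact h.one⟩

theorem tyy {N : ℕ} (P P' : Pg N) (hx : P.x = P'.x) (hy : P.y = P'.y) {p q : ℤ} (h : Ty P p q) :
    Ty P' p q := by
  unfold Ty at h ⊢
  rw [hx, hy] at h
  exact h

theorem sep {N : ℕ} (P P' : Pg N) {c : ℝ} (hl : ∀ i t, P'.l i t = P.l i t + c)
    {p q p' q' : ℤ} {t : ℝ} (h : Sep P p q p' q' t) : Sep P' p q p' q' t := by
  unfold Sep at h ⊢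
  simp only [hl, add_lt_add_iff_right]
  exact h

theorem good {N : ℕ} (P P' : Pg N) (hx : P.x = P'.x) (hy : P.y = P'.y) {c : ℝ}
    (hl : ∀ i t, P'.l i t = P.l i t + c) {a b : ℝ} (h : Good P a b) : Good P' a b := by
  refine ⟨h.lt, ?_, ?_, ?_, ?_⟩
  · rw [← hx]
    exact h.av
  · rw [← hx]
    exact h.out
  · intro p q hc
    exact tyy P P' hx hy (h.ty p q (comp P P' hx hc))
  · intro p q p' q' hc hc' h1 h2
    have h3 := h.sep p q p' q' (comp P P' hx hc) (comp P P' hx hc') h1 h2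
    exact ⟨sep P P' hl h3.1, sep P P' hl h3.2⟩

theorem goodX {N : ℕ} (P P' : Pg N) (hx : P.x = P'.x) (hy : P.y = P'.y) {c : ℝ}
    (hl : ∀ i t, P'.l i t = P.l i t + c) {X : Finset ℝ} (h : GoodX P X) : GoodX P' X := by
  refine ⟨?_, ?_, ?_⟩
  · rw [← hx]
    exact h.lo
  · rw [← hx]
    exact h.hi
  · intro a b hab
    exact good P P' hx hy hl (h.gd a b hab)

theorem emb {N : ℕ} (P P' : Pg N) (hx : P.x = P'.x) (hy : P.y = P'.y) {c : ℝ}
    (hl : ∀ i t, P'.l i t = P.l i t + c) (h : Emb P) : Emb P' := by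
  refine ⟨?_, ?_, ?_⟩
  · rw [← hx]
    exact h.nc
  · intro e p q hc
    exact tyy P P' hx hy (h.ty e p q (compE P P' hx hc))
  · intro e p q p' q' hc hc' h1 h2 h3
    rw [← hy]
    apply h.sep e p q p' q' (compE P P' hx hc) (compE P P' hx hc') h1 h2
    rw [hl, hl] at h3
    exact add_right_cancel h3

theorem itOK {N : ℕ} (P P' : Pg N) (hx : P.x = P'.x) {i : It} (h : ItOK P i) : ItOK P' i := by
  unfold ItOK at h ⊢
  rw [← hx]
  exact h

theorem lnk {N : ℕ} (P P' : Pg N) (hx : P.x = P'.x) {X : Finset ℝ} {i j : It}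
    (h : Lnk P X i j) : Lnk P' X i j :=
  ⟨h.le, h.tl, h.adj, by rw [← hx]; exact h.ins, h.dir⟩

theorem gw {N : ℕ} (P P' : Pg N) (hx : P.x = P'.x) {X : Finset ℝ} {w : List It}
    (h : GW P X w) : GW P' X w := by
  obtain ⟨⟨i, w', hw, h1, h2⟩, h3⟩ := h
  exact ⟨⟨i, w', hw, fun j hj => itOK P P' hx (h1 j hj), h2.imp fun a b hab => lnk P P' hx hab⟩,
    h3⟩

theorem cw {N : ℕ} (P P' : Pg N) {c : ℝ} (hl : ∀ i t, P'.l i t = P.l i t + c) {w : List It}
    (h : CW (w.map (pt P))) : CW (w.map (pt P')) := by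
  refine ⟨?_, ?_, ?_⟩
  · rw [ents_map P P' hl]
    exact h.nd.map (Sum.map_injective.mpr ⟨sf_inj c, sf_inj c⟩)
  · have h1 : ∀ R : Pg N, cp (w.map (pt R)) = (cp w).map (Prod.map (pt R) (pt R)) := by
      intro R
      unfold cp
      rw [← List.map_rotate, List.zip_map]
    intro x hx
    rw [h1, List.mem_map] at hx
    obtain ⟨y, hy, rfl⟩ := hx
    have h2 := h.st (Prod.map (pt P) (pt P) y) (by rw [h1]; exact List.mem_map_of_mem hy)
    exact h2
  · rw [ents_map P P' hl, List.length_map]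
    exact h.len

end ZSH

open ZSH in
theorem t_ZSH : Stmt_ZSH := by
  intro _ hW hC N P P' w hx hy hw
  obtain ⟨c, hz⟩ := zc P P' hx hy
  have hl := lc P P' hx hy hz
  refine ⟨?_, cw P P' hl hw, fun X h => goodX P P' hx hy hl h, fun X h => gw P P' hx h,
    fun h => emb P P' hx hy hl h⟩
  unfold lst
  rw [ents_map P P' hl]
  exact hW.iso _ (sf c) (sf c) (hC.alt _ hw) hw.nd (fun a b _ _ h => sf_lt c h)
    (fun a b _ _ h => sf_lt c h)

end LH
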