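import Pool.Agent.LG.All
import Pool.Agent.LH.CM
import Pool.Agent.LH.CMP
import Pool.Agent.LH.COV
import Pool.Agent.LH.CWA
import Pool.Agent.LH.CWG
import Pool.Agent.LH.CWP
import Pool.Agent.LH.DC1
import Pool.Agent.LH.DC2
import Pool.Agent.LH.DEL
import Pool.Agent.LH.DR1
import Pool.Agent.LH.DR2
import Pool.Agent.LH.EGX
import Pool.Agent.LH.EVF
import Pool.Agent.LH.EWP
import Pool.Agent.LH.EXW
import Pool.Agent.LH.FGC
import Pool.Agent.LH.FLM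
import Pool.Agent.LH.FRM
import Pool.Agent.LH.GYF
import Pool.Agent.LH.IN1
import Pool.Agent.LH.INC
import Pool.Agent.LH.INV
import Pool.Agent.LH.ITM
import Pool.Agent.LH.LEN
import Pool.Agent.LH.LOC
import Pool.Agent.LH.LWP
import Pool.Agent.LH.MK
import Pool.Agent.LH.NXT
import Pool.Agent.LH.OPG
import Pool.Agent.LH.OPW
import Pool.Agent.LH.PEA
import Pool.Agent.LH.PER
import Pool.Agent.LH.PGB
import Pool.Agent.LH.PH1
import Pool.Agent.LH.RED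
import Pool.Agent.LH.RFL
import Pool.Agent.LH.RM
import Pool.Agent.LH.RMP
import Pool.Agent.LH.RPE
import Pool.Agent.LH.RPU
import Pool.Agent.LH.RTL
import Pool.Agent.LH.RTR
import Pool.Agent.LH.SEQ
import Pool.Agent.LH.SQO
import Pool.Agent.LH.STA
import Pool.Agent.LH.STD
import Pool.Agent.LH.STI
import Pool.Agent.LH.TEX
import Pool.Agent.LH.TRA
import Pool.Agent.LH.TRB
import Pool.Agent.LH.TRC
import Pool.Agent.LH.TRL
import Pool.Agent.LH.UNI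
import Pool.Agent.LH.WEB
import Pool.Agent.LH.WON
import Pool.Agent.LH.WZL
import Pool.Agent.LH.WZR
import Pool.Agent.LH.ZAL
import Pool.Agent.LH.ZR1
import Pool.Agent.LH.ZR2
import Pool.Agent.LH.ZRM
import Pool.Agent.LH.ZSH

/-!
# Part C: assembly
-/

namespace LH

open LG

theorem p_WEB : P_WEB := t_WEB t_RPE t_RPU

theorem p_RM : P_RM := t_RM p_WEB t_RPE

theorem p_CM : P_CM := t_CM p_WEB t_RPE

theorem p_DC1 : P_DC1 := t_DC1 p_WEB t_RPE p_RM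

theorem p_DC2 : P_DC2 := t_DC2 p_WEB t_RPE p_RM

theorem p_DR1 : P_DR1 := t_DR1 p_WEB t_RPE p_CM

theorem p_DR2 : P_DR2 := t_DR2 p_WEB t_RPE p_CM

theorem p_CWA : P_CWA := t_CWA p_WEB

theorem p_DEL : P_DEL := t_DEL p_WEB p_CWA p_DC1 p_DC2 t_MK

theorem p_FRM : P_FRM := t_FRM p_WEB p_CWA p_CM t_MK

theorem p_FLM : P_FLM := t_FLM p_WEB p_CWA p_RM t_MK

theorem p_ZR1 : P_ZR1 := t_ZR1 p_WEB p_CWA p_DC1 t_MK

theorem p_ZR2 : P_ZR2 := t_ZR2 p_WEB p_CWA p_DC2 t_MK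

theorem p_RTR : P_RTR := t_RTR p_WEB p_CWA p_DC1 p_DR1 t_MK

theorem p_RTL : P_RTL := t_RTL p_WEB p_CWA p_DC1 p_DR1 t_MK

theorem p_LWR : P_LWR := t_LWR p_WR

theorem p_LWP : P_LWP := t_LWP p_LWR

theorem p_WZR : P_WZR := t_WZR p_LEQ p_LWR p_LWP p_WEB p_CWA p_DC1 p_DR2 t_MK

theorem p_WZL : P_WZL := t_WZL p_LEQ p_LWR p_LWP p_WEB p_CWA p_DC2 p_DR2 t_MK

theorem p_TRA : P_TRA := t_TRA p_WEB p_CWA p_DEL p_FRM p_FLM

theorem p_TRB : P_TRB := t_TRB p_CWA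

theorem p_TRC : P_TRC := t_TRC p_CWA

theorem p_TRL : P_TRL := t_TRL p_WEB p_CWA p_TRA p_TRB p_TRC

theorem p_PGB : P_PGB := t_PGB

theorem p_INC : P_INC := t_INC p_PGB

theorem p_CMP : P_CMP := t_CMP p_PGB

theorem p_SEQ : P_SEQ where
  ex := (t_SEQ p_PGB).1
  ew := (t_SEQ p_PGB).2.1
  rot := (t_SEQ p_PGB).2.2.1
  pos := fun P X w h => t_SQO.2.2.2 P X w ((t_SEQ p_PGB).1 P X w h)
  cp := (t_SEQ p_PGB).2.2.2.1
  mem := (t_SEQ p_PGB).2.2.2.2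
  lt := t_SQO.1
  mo := t_SQO.2.1
  eq := t_SQO.2.2.1
  cov := t_COV

theorem p_WON : P_WON := t_WON p_SEQ

theorem p_ITM : P_ITM := t_ITM p_PGB p_INC p_CMP p_SEQ

theorem p_STD : P_STD := t_STD p_PGB p_CMP p_SEQ p_ITM

theorem p_STI : P_STI := t_STI p_PGB p_INC p_CMP p_SEQ

theorem p_STA : P_STA := t_STA p_PGB p_CMP p_SEQ p_ITM p_STD p_STI t_RFL

theorem p_RMP : P_RMP := t_RMP p_PGB p_CMP p_SEQ p_CWA p_STA

theorem p_EWP : P_EWP := t_EWP p_SEQ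

theorem p_LEN : P_LEN := t_LEN p_SEQ

theorem p_PH1 : P_PH1 := t_PH1 p_SEQ p_TRL p_RMP p_EWP p_LEN

theorem p_RED : P_RED := t_RED p_SEQ p_WEB p_CWA p_PH1

theorem p_ZRM : P_ZRM := t_ZRM p_PGB p_CMP p_SEQ p_WEB p_CWA p_ZR1 p_ZR2 p_LEN

theorem p_ZAL : P_ZAL := t_ZAL p_WEB p_CWA p_ZRM

theorem p_GYF : P_GYF := t_GYF p_PGB p_CMP p_SEQ

theorem p_CWG : P_CWG := t_CWG p_PGB p_CMP p_SEQ p_LEN p_GYF

theorem p_CWP : P_CWP := t_CWP p_PGB p_CMP p_SEQ p_LEN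

theorem p_NXT : P_NXT := t_NXT p_SEQ p_LEN

theorem p_UNI : P_UNI := t_UNI p_PGB p_CMP p_SEQ p_WEB p_CWA p_CWG p_GYF p_NXT

theorem p_EXW : P_EXW := t_EXW

theorem p_EVF : P_EVF := t_EVF p_PGB

theorem p_FGC : P_FGC := t_FGC p_PGB

theorem p_EGX : P_EGX := t_EGX p_EVF p_FGC

theorem p_TEX : P_TEX := t_TEX p_EVF p_EGX p_EXW

theorem p_PEA : P_PEA := t_PEA p_PGB p_CMP p_SEQ p_WEB p_CWA p_CWG

theorem p_PER : P_PER := t_PER p_SEQ p_EVF p_PEA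

theorem p_IN1 : P_IN1 :=
  t_IN1 p_SEQ p_WEB p_CWA p_EXW p_CWP p_GYF p_RED p_ZAL p_UNI p_PER

theorem p_OPG : P_OPG := t_OPG p_PGB p_CMP

theorem p_OPW : P_OPW := t_OPW p_PGB

theorem p_LOC : P_LOC := t_LOC p_WEB p_CWA

theorem p_ZSH : P_ZSH := t_ZSH p_PGB p_WEB p_CWA

theorem inv : T_INV :=
  t_INV p_SEQ p_WEB p_CWA p_EXW p_EGX p_IN1 p_OPG p_OPW p_LOC p_ZSH p_CWG

end LH
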