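import Pool.Agent.LG.Base
import Pool.Agent.LC.Defs

/-!
# Sampled walks of front polygons

Definitions for part C of the solution of MP_093788_gt.
-/

namespace LH

open Set LG

/-! ### cyclic lists of columns and rows -/

/-- A position of a column or a row: a line and a height, ordered lexicographically. -/
abbrev Q : Type := ℝ ×ₗ ℝ

/-- An entry of a cyclic list: a column (`inl`) or a row (`inr`). -/
abbrev En : Type := Q ⊕ Q

/-- The cyclically consecutive pairs. -/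
def cp {α : Type*} (w : List α) : List (α × α) := w.zip (w.rotate 1)

/-- Columns and rows alternate. -/
def Alt (W : List En) : Prop := W ≠ [] ∧ ∀ p ∈ cp W, p.1.isLeft = !p.2.isLeft

/-- The alternating list of a list of pairs. -/
def fl {α β : Type*} (M : List (α × β)) : List (α ⊕ β) :=
  M.flatMap fun p => [Sum.inl p.1, Sum.inr p.2]

/-- `M` represents `W`: the same cyclic sequence, the order of the columns is reversed, the order of
the rows is kept. -/
def Rp (W : List En) (M : List (ℝ × ℝ)) : Prop :=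
  W.Nodup ∧ ∃ f g : Q → ℝ,
    (∀ a b, Sum.inl a ∈ W → Sum.inl b ∈ W → a < b → f b < f a) ∧
    (∀ a b, Sum.inr a ∈ W → Sum.inr b ∈ W → a < b → g a < g b) ∧
    (fl M).IsRotated (W.map (Sum.map f g))

/-- Legendrian equivalence. -/
def WE (W W' : List En) : Prop := ∃ M M', Rp W M ∧ Rp W' M' ∧ LEq M M'

/-- The marks: the corners (column, row). -/
def Mk (W : List En) (c r : Q) : Prop :=
  (Sum.inl c, Sum.inr r) ∈ cp W ∨ (Sum.inr r, Sum.inl c) ∈ cp W

/-- `x` is strictly between `a` and `b`. -/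
def Btw {α : Type*} [LT α] (a b x : α) : Prop := a < x ∧ x < b ∨ b < x ∧ x < a

/-! ### walks -/

/-- Kinds of points of a walk: passing to the right, passing to the left, right turn, left turn. -/
inductive Kd | rt | lt | R | L
  deriving DecidableEq

/-- The walk leaves a point of this kind to the right. -/
def Kd.fw : Kd → Prop
  | .rt => True | .lt => False | .R => False | .L => True

/-- The walk arrives at a point of this kind from the left. -/
def Kd.ar : Kd → Prop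
  | .rt => True | .lt => False | .R => True | .L => False

/-- A point of a walk: on the line `t` at the height `h`. -/
structure Pt where
  k : Kd
  t : ℝ
  h : ℝ

/-- The column of a point. -/
def Pt.c (p : Pt) : Q := toLex (p.t, p.h)

/-- The row of a point. -/
def Pt.r (p : Pt) : Q := toLex (-p.t, p.h)

/-- The entries of a point. -/
def ent (p : Pt) : List En :=
  match p.k with
  | .rt => [Sum.inl p.c, Sum.inr p.r]
  | .lt => [Sum.inr p.r, Sum.inl p.c]
  | .R => [Sum.inl p.c]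
  | .L => [Sum.inr p.r]

/-- The cyclic list of a walk. -/
def ents (w : List Pt) : List En := w.flatMap ent

/-- A step of a walk. -/
def Stp (p q : Pt) : Prop :=
  p.k.fw ∧ q.k.ar ∧ p.t < q.t ∨ ¬ p.k.fw ∧ ¬ q.k.ar ∧ q.t < p.t

/-- A closed walk. -/
structure CW (w : List Pt) : Prop where
  nd : (ents w).Nodup
  st : ∀ x ∈ cp w, Stp x.1 x.2
  len : 4 ≤ (ents w).length

/-- `p` and `q` are consecutive, `p` on the left. -/
def Lk (w : List Pt) (p q : Pt) : Prop := p.t < q.t ∧ ((p, q) ∈ cp w ∨ (q, p) ∈ cp w)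

/-! ### polygons -/

/-- A closed front polygon with `N` edges: the vertices `(x i, z i)`, the edge `i` goes from the
vertex `i` to the vertex `i + 1` and has the slope `y i`. -/
structure Pg (N : ℕ) where
  x : ℤ → ℝ
  y : ℤ → ℝ
  z : ℤ → ℝ
  px : ∀ i, x (i + N) = x i
  py : ∀ i, y (i + N) = y i
  pz : ∀ i, z (i + N) = z i
  cl : ∀ i, z (i + 1) = z i + y i * (x (i + 1) - x i)

variable {N : ℕ}

/-- The line of the edge `i`. -/
def Pg.l (P : Pg N) (i : ℤ) (t : ℝ) : ℝ := P.z i + P.y i * (t - P.x i)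

/-- The edges `p, ..., q` form a component of the part of the polygon over `(a, b)`. -/
structure Comp (P : Pg N) (a b : ℝ) (p q : ℤ) : Prop where
  le : p ≤ q
  ins : ∀ i, p < i → i ≤ q → a < P.x i ∧ P.x i < b
  fst : P.x p < a ∨ b < P.x p
  lst : P.x (q + 1) < a ∨ b < P.x (q + 1)
  one : p = q → P.x p < a ∧ b < P.x (q + 1) ∨ P.x (q + 1) < a ∧ b < P.x p

/-- The edges `p, ..., q` form a component of the polygon over the point `e`. -/
structure CompE (P : Pg N) (e : ℝ) (p q : ℤ) : Prop where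
  le : p ≤ q
  ins : ∀ i, p < i → i ≤ q → P.x i = e
  fst : P.x p ≠ e
  lst : P.x (q + 1) ≠ e
  one : p = q → P.x p < e ∧ e < P.x (q + 1) ∨ P.x (q + 1) < e ∧ e < P.x p

/-- The component `p, ..., q` is monotone in `x` or in `y`. -/
def Ty (P : Pg N) (p q : ℤ) : Prop :=
  (StrictMonoOn P.x (Icc p (q + 1)) ∨ StrictAntiOn P.x (Icc p (q + 1))) ∨
    StrictMonoOn P.y (Icc p q) ∨ StrictAntiOn P.y (Icc p q)

/-- Embedded polygons. -/
structure Emb (P : Pg N) : Prop where
  nc : ∃ i, P.x i ≠ P.x 0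
  ty : ∀ e p q, CompE P e p q → Ty P p q
  sep : ∀ e p q p' q', CompE P e p q → CompE P e p' q' → q < p' → q' < p + N →
    P.l p e = P.l p' e →
    (∀ i ∈ Icc p q, ∀ j ∈ Icc p' q', P.y i < P.y j) ∨ ∀ i ∈ Icc p q, ∀ j ∈ Icc p' q', P.y j < P.y i

/-- The lines of the edges of two components are completely ordered at `t`. -/
def Sep (P : Pg N) (p q p' q' : ℤ) (t : ℝ) : Prop :=
  (∀ i ∈ Icc p q, ∀ j ∈ Icc p' q', P.l i t < P.l j t) ∨
    ∀ i ∈ Icc p q, ∀ j ∈ Icc p' q', P.l j t < P.l i t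

/-- A good cell. -/
structure Good (P : Pg N) (a b : ℝ) : Prop where
  lt : a < b
  av : ∀ i, P.x i ≠ a ∧ P.x i ≠ b
  out : ∃ i, P.x i < a ∨ b < P.x i
  ty : ∀ p q, Comp P a b p q → Ty P p q
  sep : ∀ p q p' q', Comp P a b p q → Comp P a b p' q' → q < p' → q' < p + N →
    Sep P p q p' q' a ∧ Sep P p q p' q' b

/-- Adjacent elements of a finite set. -/
def AdjX (X : Finset ℝ) (a b : ℝ) : Prop := a ∈ X ∧ b ∈ X ∧ a < b ∧ ∀ t ∈ X, ¬ (a < t ∧ t < b)

/-- A good set of lines. -/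
structure GoodX (P : Pg N) (X : Finset ℝ) : Prop where
  lo : ∃ a ∈ X, ∀ i, a < P.x i
  hi : ∃ b ∈ X, ∀ i, P.x i < b
  gd : ∀ a b, AdjX X a b → Good P a b

/-! ### walks of polygons -/

/-- An item of a walk of a polygon: kind, line, edge. -/
structure It where
  k : Kd
  t : ℝ
  e : ℤ

/-- The item passes through the line. -/
def ItOK (P : Pg N) (i : It) : Prop :=
  (i.k = .rt → P.x i.e < i.t ∧ i.t < P.x (i.e + 1)) ∧
    (i.k = .lt → P.x (i.e + 1) < i.t ∧ i.t < P.x i.e)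

/-- Consecutive items. -/
structure Lnk (P : Pg N) (X : Finset ℝ) (i j : It) : Prop where
  le : i.e ≤ j.e
  tl : i.k = .R ∨ i.k = .L → i.e < j.e
  adj : AdjX X i.t j.t ∨ AdjX X j.t i.t
  ins : ∀ m, i.e < m → m ≤ j.e → Btw i.t j.t (P.x m)
  dir : i.k.fw ∧ j.k.ar ∧ i.t < j.t ∨ ¬ i.k.fw ∧ ¬ j.k.ar ∧ j.t < i.t

/-- The same item one period later. -/
def It.sh (N : ℕ) (i : It) : It := { i with e := i.e + N }

/-- A walk of the polygon `P` with the lines `X`; zigzags of turns are allowed. -/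
def EW (P : Pg N) (X : Finset ℝ) (w : List It) : Prop :=
  ∃ i w', w = i :: w' ∧ (∀ j ∈ w, ItOK P j) ∧ List.IsChain (Lnk P X) (w ++ [i.sh N])

/-- A walk without zigzags. -/
def GW (P : Pg N) (X : Finset ℝ) (w : List It) : Prop :=
  EW P X w ∧ ∀ x ∈ cp w, ¬ ((x.1.k = .R ∨ x.1.k = .L) ∧ (x.2.k = .R ∨ x.2.k = .L))

/-- The point of an item. -/
def pt (P : Pg N) (i : It) : Pt := ⟨i.k, i.t, P.l i.e i.t⟩

/-- The cyclic list of a walk of a polygon. -/
def lst (P : Pg N) (w : List It) : List En := ents (w.map (pt P))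

/-! ### polygons of Legendrian knots -/

/-- The slopes before the correction. -/
noncomputable def y0 (Λ : LC.LegKnot) (N : ℕ) (i : ℤ) : ℝ := Λ.y ((i + 1 / 2) / N)

/-- The vertices. -/
noncomputable def x0 (Λ : LC.LegKnot) (N : ℕ) (i : ℤ) : ℝ := Λ.x (i / N)

/-- The correction factor. -/
noncomputable def mu (Λ : LC.LegKnot) (N : ℕ) : ℝ :=
  (∑ i ∈ Finset.range N, y0 Λ N i * (x0 Λ N (i + 1) - x0 Λ N i)) /
    ∑ i ∈ Finset.range N, (x0 Λ N (i + 1) - x0 Λ N i) ^ 2

/-- The slopes. -/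
noncomputable def y1 (Λ : LC.LegKnot) (N : ℕ) (i : ℤ) : ℝ :=
  y0 Λ N i - mu Λ N * (x0 Λ N (i + 1) - x0 Λ N i)

/-- `P` is the `N`-gon of the knot `Λ`. -/
def IsPN (Λ : LC.LegKnot) (N : ℕ) (P : Pg N) : Prop :=
  P.x = x0 Λ N ∧ P.y = y1 Λ N ∧ P.z 0 = 0

/-- Two embedded polygons are joined by a continuous path of embedded polygons. -/
def EPath (P P' : Pg N) : Prop :=
  ∃ F : ℝ → Pg N, (∀ t ∈ Icc (0 : ℝ) 1, Emb (F t)) ∧
    (∀ i, ContinuousOn (fun t => (F t).x i) (Icc 0 1)) ∧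
    (∀ i, ContinuousOn (fun t => (F t).y i) (Icc 0 1)) ∧
    (∀ i, ContinuousOn (fun t => (F t).z i) (Icc 0 1)) ∧
    (F 0).x = P.x ∧ (F 0).y = P.y ∧ (F 1).x = P'.x ∧ (F 1).y = P'.y

/-! ### the three main statements -/

/-- The sampled walks of polygons joined by a path are Legendrian equivalent. -/
def T_INV : Prop :=
  ∀ (N : ℕ) (P P' : Pg N), EPath P P' → ∀ (X X' : Finset ℝ) (w w' : List It),
    GoodX P X → GW P X w → GoodX P' X' → GW P' X' w' → WE (lst P w) (lst P' w')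

/-- From smooth isotopies to paths of polygons. -/
def T_SM : Prop :=
  ∀ Λ Λ' Λ'' : LC.LegKnot, LC.Isotopic Λ Λ' → LC.IsStabilization Λ' Λ'' →
    ∃ Λ₁ Λ₂ : LC.LegKnot, LC.IsStabilization Λ₁ Λ₂ ∧ ∃ N₀ : ℕ, ∀ N ≥ N₀,
      ∃ P P₁ : Pg N, IsPN Λ N P ∧ IsPN Λ₁ N P₁ ∧ Relation.TransGen EPath P P₁

/-- The polygons of a stabilised knot. -/
def T_S : Prop :=
  ∀ Λ₁ Λ₂ : LC.LegKnot, LC.IsStabilization Λ₁ Λ₂ → ∃ N₀ : ℕ, ∀ N ≥ N₀, ∀ P : Pg N,
    IsPN Λ₁ N P → Emb P → ∃ X w, GoodX P X ∧ GW P X w ∧ ∃ M, Rp (lst P w) M ∧ (VL M ∨ VP M)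

end LH
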