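import Pool.Agent.LH.Stmts1

/-!
# FLM: a left turn moves
-/

namespace LH

open Set LG

namespace FLM

theorem zip_head {α : Type*} (u q : α) (T : List α) (hn : (u :: T).Nodup)
    (h : (u, q) ∈ cp (u :: T)) (hT : T ≠ []) : ∃ T', T = q :: T' := by
  cases T with
  | nil => exact absurd rfl hT
  | cons a T' =>
    rw [cp, List.rotate_cons_succ, List.rotate_zero, List.cons_append, List.zip_cons_cons] at h
    rcases List.mem_cons.1 h with h | h
    · rw [Prod.mk.injEq] at h
      exact ⟨T', by rw [h.2]⟩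
    · exact absurd (List.of_mem_zip h).1 (List.nodup_cons.1 hn).1

theorem zip_last {α : Type*} (u p : α) (T : List α) (hn : (u :: T).Nodup)
    (h : (p, u) ∈ cp (u :: T)) (hT : T ≠ []) : ∃ T', T = T' ++ [p] := by
  obtain ⟨T', a, rfl⟩ : ∃ T' a, T = T' ++ [a] :=
    ⟨T.dropLast, T.getLast hT, (List.dropLast_append_getLast hT).symm⟩
  refine ⟨T', ?_⟩
  have e : cp (u :: (T' ++ [a])) = ((u :: T').zip (T' ++ [a])) ++ [(a, u)] := by
    rw [cp, List.rotate_cons_succ, List.rotate_zero, ← List.cons_append, List.zip_append]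
    · rfl
    · simp
  rw [e, List.mem_append] at h
  rcases h with h | h
  · exact absurd (List.of_mem_zip h).2 (List.nodup_cons.1 hn).1
  · rw [List.mem_singleton, Prod.mk.injEq] at h
    rw [h.1]

theorem ents_cons (u : Pt) (T : List Pt) : ents (u :: T) = ent u ++ ents T := by
  simp [ents]

theorem ents_append (A B : List Pt) : ents (A ++ B) = ents A ++ ents B := by
  simp [ents]

end FLM

open FLM in
/-- FLM -/
theorem t_FLM : Stmt_FLM := by
  intro hW hC hR hM u u' T p q hw hw' hk hk' hp hq h₁ h₂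
  have hn : (u :: T).Nodup := hC.nd _ hw
  have hT : T ≠ [] := by
    rintro rfl
    have := hw.len
    simp [ents, ent, hk] at this
  have sp : Stp p u := hw.st (p, u) hp
  have sq : Stp u q := hw.st (u, q) hq
  obtain ⟨T₁, e₁⟩ := zip_head u q T hn hq hT
  obtain ⟨T₂, e₂⟩ := zip_last u p T hn hp hT
  -- the first entry
  have f₁ : ∃ B₁, ents T = Sum.inl q.c :: B₁ := by
    rw [e₁, ents_cons]
    have hqk : q.k = .rt ∨ q.k = .R := by
      rcases sq with ⟨_, h, _⟩ | ⟨h, _, _⟩
      · revert h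
        cases q.k <;> simp [Kd.ar]
      · exact absurd (by rw [hk]; trivial) h
    rcases hqk with h | h <;> simp [ent, h]
  have f₂ : ∃ B₂, ents T = B₂ ++ [Sum.inl p.c] := by
    rw [e₂, ents_append]
    have hpk : p.k = .lt ∨ p.k = .R := by
      rcases sp with ⟨_, h, _⟩ | ⟨h, _, _⟩
      · rw [hk] at h
        exact absurd h (by simp [Kd.ar])
      · revert h
        cases p.k <;> simp [Kd.fw]
    rcases hpk with h | h
    · exact ⟨ents T₂ ++ [Sum.inr p.r], by simp [ents, ent, h]⟩
    · exact ⟨ents T₂, by simp [ents, ent, h]⟩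
  obtain ⟨B₁, g₁⟩ := f₁
  obtain ⟨B₂, g₂⟩ := f₂
  have eu : ents (u :: T) = Sum.inr u.r :: ents T := by simp [ents, ent, hk]
  have eu' : ents (u' :: T) = Sum.inr u'.r :: ents T := by simp [ents, ent, hk']
  have hl := hw.len
  obtain ⟨B, hB⟩ : ∃ B, ents T = Sum.inl q.c :: (B ++ [Sum.inl p.c]) := by
    cases B₂ with
    | nil =>
      rw [eu, g₂] at hl
      simp at hl
    | cons a B =>
      rw [g₂, List.cons_append] at g₁
      refine ⟨B, ?_⟩
      rw [g₂, List.cons_append]
      rw [List.cons.injEq] at g₁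
      rw [g₁.1]
  rw [eu, eu', hB]
  by_cases hb : u'.r = u.r
  · rw [hb]
    have := hW.refl _ (hC.alt _ hw) hw.nd
    rw [eu, hB] at this
    exact this
  refine hR u.r u'.r p.c q.c B ?_ ?_ ?_ hb ?_
  · have := hC.alt _ hw
    rwa [eu, hB] at this
  · have := hw.nd
    rwa [eu, hB] at this
  · have := hw'.nd
    rw [eu', hB, List.nodup_cons] at this
    intro h
    exact this.1 (by simp [h])
  · intro c r hm hbt
    rw [← hB, ← eu, hM (u :: T) (by simp) hw.st] at hm
    rcases hm with ⟨x, y, hl, rfl, rfl⟩ | ⟨x, hx, hxk, rfl, rfl⟩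
    · exact h₁ x y hl hbt
    · rcases List.mem_cons.1 hx with rfl | hx
      · rw [hk] at hxk
        rcases hxk with h | h <;> exact absurd h (by decide)
      · exact h₂ x hx hxk hbt

end LH
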