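import Pool.Agent.LH.Stmts2

/-!
# RED: removal of many lines
-/

namespace LH

open Set LG

namespace RED

variable {N : ℕ}

/-- Below all vertices there are no items, provided there is a further line below the vertices. -/
theorem low {P : Pg N} {Y : Finset ℝ} {w : List It} {W : ℤ → It} (h : Sq P Y w W) {a s : ℝ}
    (ha : a ∈ Y) (hx : ∀ i, a < P.x i) (hs : s < a) (n : ℤ) : (W n).t ≠ s := by
  intro ht
  have hok := h.ok n
  rcases hk : (W n).k with _ | _ | _ | _
  · have h1 := hok.1 hk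
    have h2 := hx (W n).e
    rw [ht] at h1
    linarith [h1.1]
  · have h1 := hok.2 hk
    have h2 := hx ((W n).e + 1)
    rw [ht] at h1
    linarith [h1.1]
  · have hl := h.lnk (n - 1)
    rw [sub_add_cancel] at hl
    rcases hl.dir with ⟨h1, _, h3⟩ | ⟨_, h2, _⟩
    · rw [ht] at h3
      rcases hk' : (W (n - 1)).k with _ | _ | _ | _
      · have h4 := (h.ok (n - 1)).1 hk'
        have h5 := hx (W (n - 1)).e
        linarith [h4.1]
      · rw [hk'] at h1
        exact h1
      · rw [hk'] at h1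
        exact h1
      · have h4 := hl.tl (Or.inr hk')
        have h5 := hl.ins (W n).e h4 le_rfl
        have h6 := hx (W n).e
        rw [ht] at h5
        rcases h5 with h5 | h5
        · linarith [h5.2]
        · linarith [h5.1, h5.2]
    · rw [hk] at h2
      exact h2 trivial
  · have hl := h.lnk n
    have h4 := hl.tl (Or.inr hk)
    have h5 := hl.ins (W (n + 1)).e h4 le_rfl
    have h6 := hx (W (n + 1)).e
    rcases hl.dir with ⟨_, _, h3⟩ | ⟨h1, _, _⟩
    · rw [ht] at h3 h5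
      have h7 : (W (n + 1)).t ≤ a := by
        rcases hl.adj with h8 | h8
        · rw [ht] at h8
          by_contra h9
          exact h8.2.2.2 a ha ⟨hs, not_le.mp h9⟩
        · rw [ht] at h8
          exact absurd h8.2.2.1 (not_lt.mpr h3.le)
      rcases h5 with h5 | h5
      · linarith [h5.2]
      · linarith [h5.1, h5.2]
    · rw [hk] at h1
      exact h1 trivial

/-- Above all vertices there are no items, provided there is a further line above the vertices. -/
theorem high {P : Pg N} {Y : Finset ℝ} {w : List It} {W : ℤ → It} (h : Sq P Y w W) {b s : ℝ}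
    (hb : b ∈ Y) (hx : ∀ i, P.x i < b) (hs : b < s) (n : ℤ) : (W n).t ≠ s := by
  intro ht
  have hok := h.ok n
  rcases hk : (W n).k with _ | _ | _ | _
  · have h1 := hok.1 hk
    have h2 := hx ((W n).e + 1)
    rw [ht] at h1
    linarith [h1.2]
  · have h1 := hok.2 hk
    have h2 := hx (W n).e
    rw [ht] at h1
    linarith [h1.2]
  · have hl := h.lnk n
    have h4 := hl.tl (Or.inl hk)
    have h5 := hl.ins (W (n + 1)).e h4 le_rfl
    have h6 := hx (W (n + 1)).e
    rcases hl.dir with ⟨h1, _, _⟩ | ⟨_, _, h3⟩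
    · rw [hk] at h1
      exact h1
    · rw [ht] at h3 h5
      have h7 : b ≤ (W (n + 1)).t := by
        rcases hl.adj with h8 | h8
        · rw [ht] at h8
          exact absurd h8.2.2.1 (not_lt.mpr h3.le)
        · rw [ht] at h8
          by_contra h9
          exact h8.2.2.2 b hb ⟨not_le.mp h9, hs⟩
      rcases h5 with h5 | h5
      · linarith [h5.1, h5.2]
      · linarith [h5.1]
  · have hl := h.lnk (n - 1)
    rw [sub_add_cancel] at hl
    rcases hl.dir with ⟨_, h2, _⟩ | ⟨h1, _, h3⟩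
    · rw [hk] at h2
      exact h2
    · rw [ht] at h3
      rcases hk' : (W (n - 1)).k with _ | _ | _ | _
      · rw [hk'] at h1
        exact h1 trivial
      · have h4 := (h.ok (n - 1)).2 hk'
        have h5 := hx (W (n - 1)).e
        linarith [h4.2]
      · have h4 := hl.tl (Or.inl hk')
        have h5 := hl.ins (W n).e h4 le_rfl
        have h6 := hx (W n).e
        rw [ht] at h5
        rcases h5 with h5 | h5
        · linarith [h5.1, h5.2]
        · linarith [h5.1]
      · rw [hk'] at h1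
        exact h1 trivial

theorem adj_erase {Y : Finset ℝ} {a b s : ℝ} (h : AdjX Y a b) (ha : a ≠ s) (hb : b ≠ s) :
    AdjX (Y.erase s) a b :=
  ⟨Finset.mem_erase.mpr ⟨ha, h.1⟩, Finset.mem_erase.mpr ⟨hb, h.2.1⟩, h.2.2.1,
    fun t ht => h.2.2.2 t (Finset.mem_of_mem_erase ht)⟩

theorem sq_erase {P : Pg N} {Y : Finset ℝ} {w : List It} {W : ℤ → It} (h : Sq P Y w W) {s : ℝ}
    (hs : ∀ n, (W n).t ≠ s) : Sq P (Y.erase s) w W where
  ne := h.ne
  per := h.per
  lnk n :=
    { le := (h.lnk n).le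
      tl := (h.lnk n).tl
      adj := (h.lnk n).adj.imp (fun h1 => adj_erase h1 (hs n) (hs (n + 1)))
        (fun h1 => adj_erase h1 (hs (n + 1)) (hs n))
      ins := (h.lnk n).ins
      dir := (h.lnk n).dir }
  ok := h.ok
  get := h.get

/-- The next element of a finite set above `a`. -/
theorem next {Y : Finset ℝ} {a c : ℝ} (ha : a ∈ Y) (hc : c ∈ Y) (hac : a < c) :
    ∃ s, AdjX Y a s ∧ s ≤ c := by
  have hne : (Y.filter (fun t => a < t)).Nonempty := ⟨c, Finset.mem_filter.mpr ⟨hc, hac⟩⟩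
  refine ⟨(Y.filter (fun t => a < t)).min' hne, ⟨ha, ?_, ?_, ?_⟩, ?_⟩
  · exact (Finset.mem_filter.mp (Finset.min'_mem _ hne)).1
  · exact (Finset.mem_filter.mp (Finset.min'_mem _ hne)).2
  · rintro t ht ⟨h1, h2⟩
    exact absurd (Finset.min'_le _ t (Finset.mem_filter.mpr ⟨ht, h1⟩)) (not_le.mpr h2)
  · exact Finset.min'_le _ c (Finset.mem_filter.mpr ⟨hc, hac⟩)

/-- The cell which contains a point outside the set. -/
theorem cell {X : Finset ℝ} {a₀ b₀ s : ℝ} (ha : a₀ ∈ X) (hb : b₀ ∈ X) (h1 : a₀ < s) (h2 : s < b₀)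
    (hs : s ∉ X) : ∃ a b, AdjX X a b ∧ a < s ∧ s < b := by
  have hA : (X.filter (fun t => t < s)).Nonempty := ⟨a₀, Finset.mem_filter.mpr ⟨ha, h1⟩⟩
  have hB : (X.filter (fun t => s < t)).Nonempty := ⟨b₀, Finset.mem_filter.mpr ⟨hb, h2⟩⟩
  have h3 := Finset.mem_filter.mp (Finset.max'_mem _ hA)
  have h4 := Finset.mem_filter.mp (Finset.min'_mem _ hB)
  refine ⟨(X.filter (fun t => t < s)).max' hA, (X.filter (fun t => s < t)).min' hB,
    ⟨h3.1, h4.1, h3.2.trans h4.2, ?_⟩, h3.2, h4.2⟩
  rintro t ht ⟨h5, h6⟩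
  rcases lt_trichotomy t s with h7 | h7 | h7
  · exact absurd (Finset.le_max' _ t (Finset.mem_filter.mpr ⟨ht, h7⟩)) (not_le.mpr h5)
  · exact hs (h7 ▸ ht)
  · exact absurd (Finset.min'_le _ t (Finset.mem_filter.mpr ⟨ht, h7⟩)) (not_le.mpr h6)

end RED

open RED in
theorem t_RED : Stmt_RED := by
  intro hS hW hC hP N P X Y
  induction Y using Finset.strongInduction with
  | H Y ih =>
    intro w hG hXY hgen hE hyx hcw
    by_cases hsub : Y ⊆ X
    · have hYX : Y = X := Finset.Subset.antisymm hsub hXY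
      rw [hYX] at hE
      exact ⟨w, hE, hyx, hcw, hW.refl _ (hC.alt _ hcw) hcw.nd⟩
    · obtain ⟨s, hsY, hsX⟩ := Finset.not_subset.mp hsub
      obtain ⟨a₀, ha₀, hxa⟩ := hG.lo
      obtain ⟨b₀, hb₀, hxb⟩ := hG.hi
      obtain ⟨W, hsq⟩ := hS.ex P Y w hE
      have hgen' : ∀ r, Gen P (Y.erase r) := fun r t ht => hgen t (Finset.mem_of_mem_erase ht)
      have hXe : ∀ r, r ∉ X → X ⊆ Y.erase r := fun r hr t ht =>
        Finset.mem_erase.mpr ⟨fun h => hr (h ▸ ht), hXY ht⟩
      rcases lt_trichotomy s a₀ with h1 | h1 | h1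
      · exact ih (Y.erase s) (Finset.erase_ssubset hsY) w hG (hXe s hsX) (hgen' s)
          (hS.ew P _ w W (sq_erase hsq (low hsq (hXY ha₀) hxa h1))) hyx hcw
      · exact absurd (h1 ▸ ha₀) hsX
      · rcases lt_trichotomy s b₀ with h2 | h2 | h2
        · obtain ⟨a, b, hab, has, hsb⟩ := cell ha₀ hb₀ h1 h2 hsX
          obtain ⟨s', hs', hs'le⟩ := next (hXY hab.1) hsY has
          have hs'b : s' < b := lt_of_le_of_lt hs'le hsb
          have hs'X : s' ∉ X := fun h => hab.2.2.2 s' h ⟨hs'.2.2.1, hs'b⟩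
          obtain ⟨d, hd, hdb⟩ := next hs'.2.1 (hXY hab.2.1) hs'b
          have hsit : Sit P a b s' d Y w W :=
            { gd := hG.gd a b hab, l := hs', r := hd, db := hdb, sq := hsq, yf := hyx a b hab }
          obtain ⟨w₁, hE₁, hyx₁, hcw₁, hwe₁⟩ :=
            hP P a b s' d X Y w W hsit hgen hG hXY hs'X hyx hcw
          obtain ⟨w', hE', hyx', hcw', hwe'⟩ :=
            ih (Y.erase s') (Finset.erase_ssubset hs'.2.1) w₁ hG (hXe s' hs'X) (hgen' s') hE₁
              hyx₁ hcw₁
          exact ⟨w', hE', hyx', hcw', hW.trans _ _ _ hwe₁ hwe'⟩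
        · exact absurd (h2 ▸ hb₀) hsX
        · exact ih (Y.erase s) (Finset.erase_ssubset hsY) w hG (hXe s hsX) (hgen' s)
            (hS.ew P _ w W (sq_erase hsq (high hsq (hXY hb₀) hxb h2))) hyx hcw

end LH
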