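import Pool.Agent.LH.Base
import Pool.Agent.LG.Stmts

/-!
# Part C, first part: cyclic lists and walks
-/

namespace LH

open Set LG

/-! ### lists of entries -/

/-- RPE: representations exist. -/
def Stmt_RPE : Prop := ∀ W : List En, Alt W → W.Nodup → ∃ M, Rp W M

/-- RPU: representations are unique up to Legendrian equivalence. -/
def Stmt_RPU : Prop := ∀ (W : List En) (M M' : List (ℝ × ℝ)), Rp W M → Rp W M' → LEq M M'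

/-- Elementary properties of `WE`. -/
structure P_WEB : Prop where
  refl : ∀ W : List En, Alt W → W.Nodup → WE W W
  symm : ∀ W W' : List En, WE W W' → WE W' W
  trans : ∀ W W' W'' : List En, WE W W' → WE W' W'' → WE W W''
  rot : ∀ A B : List En, Alt (A ++ B) → (A ++ B).Nodup → WE (A ++ B) (B ++ A)
  iso : ∀ (W : List En) (φ ψ : Q → Q), Alt W → W.Nodup →
    (∀ a b, Sum.inl a ∈ W → Sum.inl b ∈ W → a < b → φ a < φ b) →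
    (∀ a b, Sum.inr a ∈ W → Sum.inr b ∈ W → a < b → ψ a < ψ b) → WE W (W.map (Sum.map φ ψ))
  all : ∀ (W W' : List En) (M M' : List (ℝ × ℝ)), WE W W' → Rp W M → Rp W' M' → LEq M M'

/-- WEB -/
def Stmt_WEB : Prop := Stmt_RPE → Stmt_RPU → P_WEB

/-- RM: a row moves over a rectangle without marks. -/
def P_RM : Prop :=
  ∀ (b b' c₁ c₂ : Q) (B : List En), Alt (.inr b :: .inl c₂ :: (B ++ [.inl c₁])) →
    (Sum.inr b :: .inl c₂ :: (B ++ [.inl c₁])).Nodup → Sum.inr b' ∉ B → b' ≠ b →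
    (∀ c r, Mk (.inr b :: .inl c₂ :: (B ++ [.inl c₁])) c r → Btw b b' r → c ∉ uIcc c₁ c₂) →
    WE (.inr b :: .inl c₂ :: (B ++ [.inl c₁])) (.inr b' :: .inl c₂ :: (B ++ [.inl c₁]))

/-- RM -/
def Stmt_RM : Prop := P_WEB → Stmt_RPE → P_RM

/-- CM: a column moves over a rectangle without marks. -/
def P_CM : Prop :=
  ∀ (a a' r₁ r₂ : Q) (B : List En), Alt (.inl a :: .inr r₂ :: (B ++ [.inr r₁])) →
    (Sum.inl a :: .inr r₂ :: (B ++ [.inr r₁])).Nodup → Sum.inl a' ∉ B → a' ≠ a →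
    (∀ c r, Mk (.inl a :: .inr r₂ :: (B ++ [.inr r₁])) c r → Btw a a' c → r ∉ uIcc r₁ r₂) →
    WE (.inl a :: .inr r₂ :: (B ++ [.inr r₁])) (.inl a' :: .inr r₂ :: (B ++ [.inr r₁]))

/-- CM -/
def Stmt_CM : Prop := P_WEB → Stmt_RPE → P_CM

/-- DC1: the row `b₁` moves next to the row `b₀`, then the short column `c₁` between them is
removed. `c₀`, `c₂` are the other columns of the rows `b₀`, `b₁`. -/
def P_DC1 : Prop :=
  ∀ (c₁ b₁ c₂ c₀ b₀ : Q) (B : List En),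
    Alt (.inl c₁ :: .inr b₁ :: .inl c₂ :: (B ++ [.inl c₀, .inr b₀])) →
    (Sum.inl c₁ :: .inr b₁ :: .inl c₂ :: (B ++ [.inl c₀, .inr b₀])).Nodup →
    (∀ c r, Mk (.inl c₁ :: .inr b₁ :: .inl c₂ :: (B ++ [.inl c₀, .inr b₀])) c r → Btw b₁ b₀ r →
      c ∉ uIcc c₁ c₂) →
    (b₁ < b₀ ∧ cyc c₂ c₀ c₁ ∨ b₀ < b₁ ∧ cyc c₀ c₂ c₁) →
    WE (.inl c₁ :: .inr b₁ :: .inl c₂ :: (B ++ [.inl c₀, .inr b₀]))
      (.inl c₂ :: (B ++ [.inl c₀, .inr b₀]))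

/-- DC1 -/
def Stmt_DC1 : Prop := P_WEB → Stmt_RPE → P_RM → P_DC1

/-- DC2: the same for the other direction of the walk. -/
def P_DC2 : Prop :=
  ∀ (c₁ b₁ c₂ c₀ b₀ : Q) (B : List En),
    Alt (.inr b₁ :: .inl c₁ :: .inr b₀ :: .inl c₀ :: (B ++ [.inl c₂])) →
    (Sum.inr b₁ :: .inl c₁ :: .inr b₀ :: .inl c₀ :: (B ++ [.inl c₂])).Nodup →
    (∀ c r, Mk (.inr b₁ :: .inl c₁ :: .inr b₀ :: .inl c₀ :: (B ++ [.inl c₂])) c r → Btw b₁ b₀ r →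
      c ∉ uIcc c₁ c₂) →
    (b₁ < b₀ ∧ cyc c₂ c₀ c₁ ∨ b₀ < b₁ ∧ cyc c₀ c₂ c₁) →
    WE (.inr b₁ :: .inl c₁ :: .inr b₀ :: .inl c₀ :: (B ++ [.inl c₂]))
      (.inr b₀ :: .inl c₀ :: (B ++ [.inl c₂]))

/-- DC2 -/
def Stmt_DC2 : Prop := P_WEB → Stmt_RPE → P_RM → P_DC2

/-- DR1: the column `c₁` moves next to the column `c₀`, then the short row `b₁` between them is
removed. `b₀`, `b₂` are the other rows of the columns `c₀`, `c₁`. -/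
def P_DR1 : Prop :=
  ∀ (b₁ c₁ b₂ b₀ c₀ : Q) (B : List En),
    Alt (.inr b₁ :: .inl c₁ :: .inr b₂ :: (B ++ [.inr b₀, .inl c₀])) →
    (Sum.inr b₁ :: .inl c₁ :: .inr b₂ :: (B ++ [.inr b₀, .inl c₀])).Nodup →
    (∀ c r, Mk (.inr b₁ :: .inl c₁ :: .inr b₂ :: (B ++ [.inr b₀, .inl c₀])) c r → Btw c₁ c₀ c →
      r ∉ uIcc b₁ b₂) →
    (c₁ < c₀ ∧ cyc b₁ b₂ b₀ ∨ c₀ < c₁ ∧ cyc b₁ b₀ b₂) →
    WE (.inr b₁ :: .inl c₁ :: .inr b₂ :: (B ++ [.inr b₀, .inl c₀]))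
      (.inr b₂ :: (B ++ [.inr b₀, .inl c₀]))

/-- DR1 -/
def Stmt_DR1 : Prop := P_WEB → Stmt_RPE → P_CM → P_DR1

/-- DR2: the same for the other direction of the walk. -/
def P_DR2 : Prop :=
  ∀ (b₁ c₁ b₂ b₀ c₀ : Q) (B : List En),
    Alt (.inl c₁ :: .inr b₁ :: .inl c₀ :: .inr b₀ :: (B ++ [.inr b₂])) →
    (Sum.inl c₁ :: .inr b₁ :: .inl c₀ :: .inr b₀ :: (B ++ [.inr b₂])).Nodup →
    (∀ c r, Mk (.inl c₁ :: .inr b₁ :: .inl c₀ :: .inr b₀ :: (B ++ [.inr b₂])) c r → Btw c₁ c₀ c →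
      r ∉ uIcc b₁ b₂) →
    (c₁ < c₀ ∧ cyc b₁ b₂ b₀ ∨ c₀ < c₁ ∧ cyc b₁ b₀ b₂) →
    WE (.inl c₁ :: .inr b₁ :: .inl c₀ :: .inr b₀ :: (B ++ [.inr b₂]))
      (.inl c₀ :: .inr b₀ :: (B ++ [.inr b₂]))

/-- DR2 -/
def Stmt_DR2 : Prop := P_WEB → Stmt_RPE → P_CM → P_DR2

/-! ### walks -/

/-- MK: the marks of a walk. -/
def Stmt_MK : Prop :=
  ∀ w : List Pt, w ≠ [] → (∀ x ∈ cp w, Stp x.1 x.2) → ∀ c r : Q,
    Mk (ents w) c r ↔ (∃ p q, Lk w p q ∧ c = q.c ∧ r = p.r) ∨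
      ∃ p ∈ w, (p.k = .rt ∨ p.k = .lt) ∧ c = p.c ∧ r = p.r

/-- CWA: elementary properties of closed walks. -/
structure P_CWA : Prop where
  alt : ∀ w, CW w → Alt (ents w)
  rot : ∀ A B : List Pt, CW (A ++ B) → CW (B ++ A) ∧ WE (ents (A ++ B)) (ents (B ++ A))
  lk : ∀ (A B : List Pt) (p q : Pt), Lk (A ++ B) p q ↔ Lk (B ++ A) p q
  nd : ∀ w, CW w → w.Nodup
  lft : ∀ w, CW w → ∀ p p' q, Lk w p q → Lk w p' q → q.k ≠ .R → p = p'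
  rgt : ∀ w, CW w → ∀ p q q', Lk w p q → Lk w p q' → p.k ≠ .L → q = q'
  kl : ∀ w, CW w → ∀ p q, Lk w p q → p.k ≠ .R ∧ q.k ≠ .L

/-- CWA -/
def Stmt_CWA : Prop := P_WEB → P_CWA

/-- DEL: removal of the passing point `u` with the left neighbour `l` and the right neighbour
`g`. -/
def P_DEL : Prop :=
  ∀ (u : Pt) (T : List Pt) (l g : Pt), CW (u :: T) → CW T → (u.k = .rt ∨ u.k = .lt) →
    Lk (u :: T) l u → Lk (u :: T) u g →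
    (∀ x y, Lk (u :: T) x y → Btw u.r l.r x.r → y.c < u.c ∨ g.c < y.c) →
    (∀ x ∈ T, (x.k = .rt ∨ x.k = .lt) → Btw u.r l.r x.r → x.c < u.c ∨ g.c < x.c) →
    (l.k = .L → ∀ o, Lk (u :: T) l o → o ≠ u → o.c < u.c ∨ g.c < o.c) →
    WE (ents (u :: T)) (ents T)

/-- DEL -/
def Stmt_DEL : Prop := P_WEB → P_CWA → P_DC1 → P_DC2 → Stmt_MK → P_DEL

/-- FRM: a right turn moves. -/
def P_FRM : Prop :=
  ∀ (u u' : Pt) (T : List Pt) (p q : Pt), CW (u :: T) → CW (u' :: T) → u.k = .R → u'.k = .R →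
    (p, u) ∈ cp (u :: T) → (u, q) ∈ cp (u :: T) →
    (∀ x y, Lk (u :: T) x y → Btw u.c u'.c y.c → x.r ∉ uIcc p.r q.r) →
    (∀ x ∈ T, (x.k = .rt ∨ x.k = .lt) → Btw u.c u'.c x.c → x.r ∉ uIcc p.r q.r) →
    WE (ents (u :: T)) (ents (u' :: T))

/-- FRM -/
def Stmt_FRM : Prop := P_WEB → P_CWA → P_CM → Stmt_MK → P_FRM

/-- FLM: a left turn moves. -/
def P_FLM : Prop :=
  ∀ (u u' : Pt) (T : List Pt) (p q : Pt), CW (u :: T) → CW (u' :: T) → u.k = .L → u'.k = .L →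
    (p, u) ∈ cp (u :: T) → (u, q) ∈ cp (u :: T) →
    (∀ x y, Lk (u :: T) x y → Btw u.r u'.r x.r → y.c ∉ uIcc p.c q.c) →
    (∀ x ∈ T, (x.k = .rt ∨ x.k = .lt) → Btw u.r u'.r x.r → x.c ∉ uIcc p.c q.c) →
    WE (ents (u :: T)) (ents (u' :: T))

/-- FLM -/
def Stmt_FLM : Prop := P_WEB → P_CWA → P_RM → Stmt_MK → P_FLM

/-- ZR1: removal of a zigzag, walking to the right: `p`, right turn `u`, left turn `v`, `q`. -/
def P_ZR1 : Prop :=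
  ∀ (u v q p : Pt) (B : List Pt), CW (u :: v :: q :: (B ++ [p])) → CW (q :: (B ++ [p])) →
    u.k = .R → v.k = .L →
    (∀ x ∈ u :: v :: q :: (B ++ [p]), x.k ≠ .R → ¬ Btw p.r v.r x.r) →
    (∀ c₀, (p.k = .rt ∧ c₀ = p.c ∨ p.k = .L ∧ ∃ o, (o, p) ∈ cp (u :: v :: q :: (B ++ [p])) ∧
        c₀ = o.c) → v.r < p.r ∧ cyc q.c c₀ u.c ∨ p.r < v.r ∧ cyc c₀ q.c u.c) →
    WE (ents (u :: v :: q :: (B ++ [p]))) (ents (q :: (B ++ [p])))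

/-- ZR1 -/
def Stmt_ZR1 : Prop := P_WEB → P_CWA → P_DC1 → Stmt_MK → P_ZR1

/-- ZR2: removal of a zigzag, walking to the left: `q`, left turn `v`, right turn `u`, `p`. -/
def P_ZR2 : Prop :=
  ∀ (u v q p : Pt) (B : List Pt), CW (v :: u :: p :: (B ++ [q])) → CW (p :: (B ++ [q])) →
    u.k = .R → v.k = .L →
    (∀ x ∈ v :: u :: p :: (B ++ [q]), x.k ≠ .R → ¬ Btw p.r v.r x.r) →
    (∀ c₀, (p.k = .lt ∧ c₀ = p.c ∨ p.k = .L ∧ ∃ o, (p, o) ∈ cp (v :: u :: p :: (B ++ [q])) ∧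
        c₀ = o.c) → v.r < p.r ∧ cyc q.c c₀ u.c ∨ p.r < v.r ∧ cyc c₀ q.c u.c) →
    WE (ents (v :: u :: p :: (B ++ [q]))) (ents (p :: (B ++ [q])))

/-- ZR2 -/
def Stmt_ZR2 : Prop := P_WEB → P_CWA → P_DC2 → Stmt_MK → P_ZR2

/-- RTR: retraction of a finger to the right: `s₁`, right turn `u`, `s₂` with adjacent points
`s₁`, `s₂` on the line `s` become a right turn on the line `s`. -/
def P_RTR : Prop :=
  ∀ (s₁ u s₂ q p : Pt) (B : List Pt), CW (s₁ :: u :: s₂ :: q :: (B ++ [p])) →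
    CW (⟨.R, s₁.t, s₁.h⟩ :: q :: (B ++ [p])) → s₁.k = .rt → u.k = .R → s₂.k = .lt → s₁.t = s₂.t →
    (∀ x ∈ s₁ :: u :: s₂ :: q :: (B ++ [p]), x.k ≠ .L → ¬ Btw s₁.c s₂.c x.c) →
    (∀ x ∈ s₁ :: u :: s₂ :: q :: (B ++ [p]), x.k ≠ .R → ¬ Btw s₁.r s₂.r x.r) →
    (s₂.h < s₁.h ∧ q.r < p.r ∨ s₁.h < s₂.h ∧ p.r < q.r) →
    WE (ents (s₁ :: u :: s₂ :: q :: (B ++ [p]))) (ents (⟨.R, s₁.t, s₁.h⟩ :: q :: (B ++ [p])))

/-- RTR -/
def Stmt_RTR : Prop := P_WEB → P_CWA → P_DC1 → P_DR1 → Stmt_MK → P_RTR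

/-- RTL: retraction of a finger to the left. -/
def P_RTL : Prop :=
  ∀ (s₂ u s₃ q p : Pt) (B : List Pt), CW (s₂ :: u :: s₃ :: q :: (B ++ [p])) →
    CW (⟨.L, s₂.t, s₂.h⟩ :: q :: (B ++ [p])) → s₂.k = .lt → u.k = .L → s₃.k = .rt → s₂.t = s₃.t →
    (∀ x ∈ s₂ :: u :: s₃ :: q :: (B ++ [p]), x.k ≠ .L → ¬ Btw s₂.c s₃.c x.c) →
    (∀ x ∈ s₂ :: u :: s₃ :: q :: (B ++ [p]), x.k ≠ .R → ¬ Btw s₂.r s₃.r x.r) →
    (s₃.h < s₂.h ∧ q.c < p.c ∨ s₂.h < s₃.h ∧ p.c < q.c) →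
    WE (ents (s₂ :: u :: s₃ :: q :: (B ++ [p]))) (ents (⟨.L, s₂.t, s₂.h⟩ :: q :: (B ++ [p])))

/-- RTL -/
def Stmt_RTL : Prop := P_WEB → P_CWA → P_DC1 → P_DR1 → Stmt_MK → P_RTL

/-- The points `s₁`, `s₂`, `s₃` are on the same line and adjacent. -/
structure Tri (w : List Pt) (s₁ s₂ s₃ : Pt) : Prop where
  t₂ : s₁.t = s₂.t
  t₃ : s₁.t = s₃.t
  col : ∀ x ∈ w, x.k ≠ .L → Btw s₁.c s₃.c x.c → x = s₂
  row : ∀ x ∈ w, x.k ≠ .R → Btw s₁.r s₃.r x.r → x = s₂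

/-- A zigzag, walking to the right. -/
structure ZgR (s₁ u s₂ v s₃ : Pt) (T : List Pt) : Prop where
  cw : CW (s₁ :: u :: s₂ :: v :: s₃ :: T)
  k₁ : s₁.k = .rt
  ku : u.k = .R
  k₂ : s₂.k = .lt
  kv : v.k = .L
  k₃ : s₃.k = .rt
  tri : Tri (s₁ :: u :: s₂ :: v :: s₃ :: T) s₁ s₂ s₃

/-- A zigzag, walking to the left. -/
structure ZgL (s₁ u s₂ v s₃ : Pt) (T : List Pt) : Prop where
  cw : CW (s₁ :: u :: s₂ :: v :: s₃ :: T)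
  k₁ : s₁.k = .lt
  ku : u.k = .L
  k₂ : s₂.k = .rt
  kv : v.k = .R
  k₃ : s₃.k = .lt
  tri : Tri (s₁ :: u :: s₂ :: v :: s₃ :: T) s₁ s₂ s₃

/-- The conclusion of `LG.Stmt_LWR`. -/
def P_LWR : Prop :=
  ∀ (c₁ r₁ c₂ r₂ : ℝ) (B : List (ℝ × ℝ)) (z : ℝ × ℝ), Nd ((c₁, r₁) :: (c₂, r₂) :: (B ++ [z])) →
    (∀ d ∈ ((c₁, r₁) :: (c₂, r₂) :: (B ++ [z])).map Prod.fst, ¬ cyc c₁ d c₂) → cyc r₁ z.2 r₂ →
    VL ((c₁, r₁) :: (c₂, r₂) :: (B ++ [z]))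

/-- A list with a short row of the wrong type in the other direction. -/
def P_LWP : Prop :=
  ∀ (c₁ r₁ c₂ r₂ : ℝ) (B : List (ℝ × ℝ)) (z : ℝ × ℝ), Nd ((c₁, r₁) :: (c₂, r₂) :: (B ++ [z])) →
    (∀ d ∈ ((c₁, r₁) :: (c₂, r₂) :: (B ++ [z])).map Prod.fst, ¬ cyc c₂ d c₁) → cyc r₁ r₂ z.2 →
    VP ((c₁, r₁) :: (c₂, r₂) :: (B ++ [z]))

/-- LWP -/
def Stmt_LWP : Prop := P_LWR → P_LWP

/-- WZR: zigzags to the right are of the wrong type for `λ⁻` (descending) or `λ⁺` (ascending). -/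
def P_WZR : Prop :=
  ∀ (s₁ u s₂ v s₃ : Pt) (T : List Pt), ZgR s₁ u s₂ v s₃ T →
    ∀ M, Rp (ents (s₁ :: u :: s₂ :: v :: s₃ :: T)) M →
      (s₃.h < s₂.h → s₂.h < s₁.h → VL M) ∧ (s₁.h < s₂.h → s₂.h < s₃.h → VP M)

/-- WZR -/
def Stmt_WZR : Prop :=
  P_LEQ → P_LWR → P_LWP → P_WEB → P_CWA → P_DC1 → P_DR2 → Stmt_MK → P_WZR

/-- WZL: zigzags to the left are of the wrong type for `λ⁻` (descending) or `λ⁺` (ascending). -/
def P_WZL : Prop :=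
  ∀ (s₁ u s₂ v s₃ : Pt) (T : List Pt), ZgL s₁ u s₂ v s₃ T →
    ∀ M, Rp (ents (s₁ :: u :: s₂ :: v :: s₃ :: T)) M →
      (s₃.h < s₂.h → s₂.h < s₁.h → VL M) ∧ (s₁.h < s₂.h → s₂.h < s₃.h → VP M)

/-- WZL -/
def Stmt_WZL : Prop :=
  P_LEQ → P_LWR → P_LWP → P_WEB → P_CWA → P_DC2 → P_DR2 → Stmt_MK → P_WZL

/-! ### removal of a line -/

/-- The heights on the left side of the point `u` of the line `s`. -/
def KS (w : List Pt) (el : Pt → ℝ) (u : Pt) : Set ℝ :=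
  {h | (∃ p, Lk w p u ∧ h = p.h) ∨ u.k = .L ∧ h = el u}

/-- The heights on the right side of the point `u` of the line `s`. -/
def RS (w : List Pt) (er : Pt → ℝ) (u : Pt) : Set ℝ :=
  {h | (∃ q, Lk w u q ∧ h = q.h) ∨ u.k = .R ∧ h = er u}

open Classical in
/-- Removal of the line `s` between the lines `a` and `d`: the passing points of the line `s`
disappear, the right turns move to the line `d`, the left turns move to the line `a`. -/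
noncomputable def rm1 (a s d : ℝ) (el er : Pt → ℝ) (p : Pt) : Option Pt :=
  if p.t = s then
    match p.k with
    | .rt => none
    | .lt => none
    | .R => some ⟨.R, d, er p⟩
    | .L => some ⟨.L, a, el p⟩
  else some p

/-- The walk without the line `s`. -/
noncomputable def rmv (a s d : ℝ) (el er : Pt → ℝ) (w : List Pt) : List Pt :=
  w.filterMap (rm1 a s d el er)

/-- The conditions for the removal of the line `s`. -/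
structure Rem (w : List Pt) (a s d : ℝ) (el er : Pt → ℝ) : Prop where
  cw : CW w
  lt₁ : a < s
  lt₂ : s < d
  ln : ∀ p ∈ w, p.t ≤ a ∨ p.t = s ∨ d ≤ p.t
  lk : ∀ p q, Lk w p q → (p.t = s → q.t = d) ∧ (q.t = s → p.t = a) ∧
    (p.t < s → s < q.t → p.t = a ∧ q.t = d)
  dr : ∀ u ∈ w, u.k = .R → u.t = s → ∀ v ∈ w, (v.k ≠ .L → v.t = d → v.h ≠ er u) ∧
    (v.k = .R → v.t = s → er v = er u → v = u)
  dl : ∀ u ∈ w, u.k = .L → u.t = s → ∀ v ∈ w, (v.k ≠ .R → v.t = a → v.h ≠ el u) ∧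
    (v.k = .L → v.t = s → el v = el u → v = u)
  st : ∀ u ∈ w, ∀ v ∈ w, u.t = s → v.t = s → u ≠ v → u.h ≤ v.h →
    (∀ x ∈ KS w el v, ∀ y ∈ KS w el u, y < x) ∨ ∀ x ∈ RS w er v, ∀ y ∈ RS w er u, y < x
  lg : ∀ p q, Lk w p q → p.t = a → q.t = d → ∀ u ∈ w, u.t = s →
    (∀ y ∈ KS w el u, y < p.h) ∨ ∀ y ∈ RS w er u, y < q.h
  len : 4 ≤ (ents (rmv a s d el er w)).length

/-- TRA: removal of one point at the top of the line `s`. -/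
def P_TRA : Prop :=
  ∀ (u : Pt) (T : List Pt) (a s d : ℝ) (el er : Pt → ℝ), Rem (u :: T) a s d el er → u.t = s →
    (∀ v ∈ T, v.t = s → v.h ≤ u.h) → CW ((rm1 a s d el er u).toList ++ T) →
    WE (ents (u :: T)) (ents ((rm1 a s d el er u).toList ++ T))

/-- TRA -/
def Stmt_TRA : Prop := P_WEB → P_CWA → P_DEL → P_FRM → P_FLM → P_TRA

/-- TRB: the conditions remain true. -/
def P_TRB : Prop :=
  ∀ (u : Pt) (T : List Pt) (a s d : ℝ) (el er : Pt → ℝ), Rem (u :: T) a s d el er → u.t = s →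
    (∀ v ∈ T, v.t = s → v.h ≤ u.h) → Rem ((rm1 a s d el er u).toList ++ T) a s d el er

/-- TRB -/
def Stmt_TRB : Prop := P_CWA → P_TRB

/-- TRC: rotation. -/
def P_TRC : Prop :=
  ∀ (A B : List Pt) (a s d : ℝ) (el er : Pt → ℝ), Rem (A ++ B) a s d el er →
    Rem (B ++ A) a s d el er

/-- TRC -/
def Stmt_TRC : Prop := P_CWA → P_TRC

/-- Removal of a line. -/
def P_TRL : Prop :=
  ∀ (w : List Pt) (a s d : ℝ) (el er : Pt → ℝ), Rem w a s d el er →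
    WE (ents w) (ents (rmv a s d el er w)) ∧ CW (rmv a s d el er w)

/-- TRL -/
def Stmt_TRL : Prop := P_WEB → P_CWA → P_TRA → P_TRB → P_TRC → P_TRL

end LH
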