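import Pool.Agent.LH.Stmts1

/-!
# Part C, second part: walks of polygons
-/

namespace LH

open Set LG

/-! ### lines of a polygon -/

/-- Elementary properties of the lines of a polygon. -/
structure P_PGB : Prop where
  ls : ∀ {N : ℕ} (P : Pg N) (i : ℤ) (t : ℝ),
    P.l (i + 1) t - P.l i t = (P.y (i + 1) - P.y i) * (t - P.x (i + 1))
  lz : ∀ {N : ℕ} (P : Pg N) (i : ℤ), P.l i (P.x i) = P.z i ∧ P.l i (P.x (i + 1)) = P.z (i + 1)
  sh : ∀ {N : ℕ} (P : Pg N) (i k : ℤ), P.x (i + k * N) = P.x i ∧ P.y (i + k * N) = P.y i ∧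
    P.z (i + k * N) = P.z i ∧ ∀ t, P.l (i + k * N) t = P.l i t
  dt : ∀ {N : ℕ} (P : Pg N) (i : ℤ) (s t : ℝ), P.l i t - P.l i s = P.y i * (t - s)
  m1 : ∀ {N : ℕ} (P : Pg N) (i j : ℤ) (t : ℝ), i < j → StrictMonoOn P.y (Icc i j) →
    (∀ m, i < m → m ≤ j → P.x m < t) → P.l i t < P.l j t
  m2 : ∀ {N : ℕ} (P : Pg N) (i j : ℤ) (t : ℝ), i < j → StrictMonoOn P.y (Icc i j) →
    (∀ m, i < m → m ≤ j → t < P.x m) → P.l j t < P.l i t
  m3 : ∀ {N : ℕ} (P : Pg N) (i j : ℤ) (t : ℝ), i < j → StrictAntiOn P.y (Icc i j) →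
    (∀ m, i < m → m ≤ j → P.x m < t) → P.l j t < P.l i t
  m4 : ∀ {N : ℕ} (P : Pg N) (i j : ℤ) (t : ℝ), i < j → StrictAntiOn P.y (Icc i j) →
    (∀ m, i < m → m ≤ j → t < P.x m) → P.l i t < P.l j t

/-- PGB -/
def Stmt_PGB : Prop := P_PGB

/-- Monotone in `y`. -/
def YM {N : ℕ} (P : Pg N) (p q : ℤ) : Prop := StrictMonoOn P.y (Icc p q) ∨ StrictAntiOn P.y (Icc p q)

/-- Increments of the height between two lines `s < t`; all vertices between the edges `i ≤ j` are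
between the lines. -/
structure P_INC : Prop where
  r : ∀ {N : ℕ} (P : Pg N) (i j : ℤ) (s t m M : ℝ), i ≤ j → s < t →
    (∀ k, i < k → k ≤ j → s < P.x k ∧ P.x k < t) → (∀ k, i ≤ k → k ≤ j → m ≤ P.y k ∧ P.y k ≤ M) →
    (YM P i j ∨ StrictMonoOn P.x (Icc i (j + 1))) →
    m * (t - s) ≤ P.l j t - P.l i s ∧ P.l j t - P.l i s ≤ M * (t - s)
  l : ∀ {N : ℕ} (P : Pg N) (i j : ℤ) (s t m M : ℝ), i ≤ j → s < t →
    (∀ k, i < k → k ≤ j → s < P.x k ∧ P.x k < t) → (∀ k, i ≤ k → k ≤ j → m ≤ P.y k ∧ P.y k ≤ M) →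
    (YM P i j ∨ StrictAntiOn P.x (Icc i (j + 1))) →
    m * (t - s) ≤ P.l i t - P.l j s ∧ P.l i t - P.l j s ≤ M * (t - s)

/-- INC -/
def Stmt_INC : Prop := P_PGB → P_INC

/-! ### components -/

/-- The edge `e` meets the open slab `(a, b)` (used when no vertex is on the lines `a`, `b`). -/
def Mts {N : ℕ} (P : Pg N) (a b : ℝ) (e : ℤ) : Prop :=
  ¬ (P.x e < a ∧ P.x (e + 1) < a) ∧ ¬ (b < P.x e ∧ b < P.x (e + 1))

/-- Properties of components. -/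
structure P_CMP : Prop where
  ex : ∀ {N : ℕ} (P : Pg N) (a b : ℝ), 0 < N → Good P a b → ∀ e, Mts P a b e →
    ∃ p q, Comp P a b p q ∧ p ≤ e ∧ e ≤ q
  un : ∀ {N : ℕ} (P : Pg N) (a b : ℝ) (p q p' q' e : ℤ), Comp P a b p q → Comp P a b p' q' →
    p ≤ e → e ≤ q → p' ≤ e → e ≤ q' → p = p' ∧ q = q'
  ln : ∀ {N : ℕ} (P : Pg N) (a b : ℝ) (p q : ℤ), 0 < N → Good P a b → Comp P a b p q → q < p + N
  sh : ∀ {N : ℕ} (P : Pg N) (a b : ℝ) (p q k : ℤ), Comp P a b p q →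
    Comp P a b (p + k * N) (q + k * N)
  sep : ∀ {N : ℕ} (P : Pg N) (a b : ℝ) (p q p' q' : ℤ), 0 < N → Good P a b → Comp P a b p q →
    Comp P a b p' q' → (∃ k : ℤ, p' = p + k * N ∧ q' = q + k * N) ∨
      Sep P p q p' q' a ∧ Sep P p q p' q' b
  mt : ∀ {N : ℕ} (P : Pg N) (a b : ℝ) (p q e : ℤ), Good P a b → Comp P a b p q → p ≤ e → e ≤ q →
    Mts P a b e

/-- CMP -/
def Stmt_CMP : Prop := P_PGB → P_CMP

/-! ### walks as sequences -/

/-- The periodic sequence of a walk. -/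
structure Sq {N : ℕ} (P : Pg N) (X : Finset ℝ) (w : List It) (W : ℤ → It) : Prop where
  ne : 0 < w.length
  per : ∀ n, W (n + w.length) = (W n).sh N
  lnk : ∀ n, Lnk P X (W n) (W (n + 1))
  ok : ∀ n, ItOK P (W n)
  get : ∀ (k : ℕ) (h : k < w.length), w[k] = W k

/-- Sequences of walks. -/
structure P_SEQ : Prop where
  ex : ∀ {N : ℕ} (P : Pg N) (X : Finset ℝ) (w : List It), EW P X w → ∃ W, Sq P X w W
  ew : ∀ {N : ℕ} (P : Pg N) (X : Finset ℝ) (w : List It) (W : ℤ → It), Sq P X w W → EW P X w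
  rot : ∀ {N : ℕ} (P : Pg N) (X : Finset ℝ) (i : It) (w : List It), EW P X (i :: w) →
    EW P X (w ++ [i.sh N])
  pos : ∀ {N : ℕ} (P : Pg N) (X : Finset ℝ) (w : List It), EW P X w → 0 < N
  cp : ∀ {N : ℕ} (P : Pg N) (X : Finset ℝ) (w : List It) (W : ℤ → It), Sq P X w W →
    ∀ x, x ∈ cp (w.map (pt P)) ↔ ∃ n, x = (pt P (W n), pt P (W (n + 1)))
  mem : ∀ {N : ℕ} (P : Pg N) (X : Finset ℝ) (w : List It) (W : ℤ → It), Sq P X w W →
    ∀ n, ∃ i ∈ w, ∃ k : ℤ, (W n).k = i.k ∧ (W n).t = i.t ∧ (W n).e = i.e + k * N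
  /-- the edges increase between two items of the same line -/
  lt : ∀ {N : ℕ} (P : Pg N) (X : Finset ℝ) (w : List It) (W : ℤ → It), Sq P X w W →
    ∀ n n', n < n' → (W n).t = (W n').t → (W n).e < (W n').e
  mo : ∀ {N : ℕ} (P : Pg N) (X : Finset ℝ) (w : List It) (W : ℤ → It), Sq P X w W →
    ∀ n n', n ≤ n' → (W n).e ≤ (W n').e
  /-- if two items have the same edge, then all items between them run in the same direction -/
  eq : ∀ {N : ℕ} (P : Pg N) (X : Finset ℝ) (w : List It) (W : ℤ → It), Sq P X w W →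
    ∀ n n', n < n' → (W n).e = (W n').e →
      (∀ m, n ≤ m → m < n' → (W m).k = .rt ∧ (W m).t < (W (m + 1)).t) ∨
        ∀ m, n ≤ m → m < n' → (W m).k = .lt ∧ (W (m + 1)).t < (W m).t
  /-- every crossing is an item -/
  cov : ∀ {N : ℕ} (P : Pg N) (X : Finset ℝ) (w : List It) (W : ℤ → It), Sq P X w W →
    ∀ t ∈ X, ∀ e, (P.x e < t → t < P.x (e + 1) → ∃ n, W n = ⟨.rt, t, e⟩) ∧
      (P.x (e + 1) < t → t < P.x e → ∃ n, W n = ⟨.lt, t, e⟩)

/-- SEQ: existence, conversely, rotation, `cp`, `mem`. -/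
def Stmt_SEQ : Prop := P_PGB →
  ((∀ {N : ℕ} (P : Pg N) (X : Finset ℝ) (w : List It), EW P X w → ∃ W, Sq P X w W) ∧
   (∀ {N : ℕ} (P : Pg N) (X : Finset ℝ) (w : List It) (W : ℤ → It), Sq P X w W → EW P X w) ∧
   (∀ {N : ℕ} (P : Pg N) (X : Finset ℝ) (i : It) (w : List It), EW P X (i :: w) →
     EW P X (w ++ [i.sh N])) ∧
   (∀ {N : ℕ} (P : Pg N) (X : Finset ℝ) (w : List It) (W : ℤ → It), Sq P X w W →
     ∀ x, x ∈ cp (w.map (pt P)) ↔ ∃ n, x = (pt P (W n), pt P (W (n + 1)))) ∧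
   ∀ {N : ℕ} (P : Pg N) (X : Finset ℝ) (w : List It) (W : ℤ → It), Sq P X w W →
     ∀ n, ∃ i ∈ w, ∃ k : ℤ, (W n).k = i.k ∧ (W n).t = i.t ∧ (W n).e = i.e + k * N)

/-- SQO: order of the edges in a sequence. -/
def Stmt_SQO : Prop :=
  (∀ {N : ℕ} (P : Pg N) (X : Finset ℝ) (w : List It) (W : ℤ → It), Sq P X w W →
    ∀ n n', n < n' → (W n).t = (W n').t → (W n).e < (W n').e) ∧
  (∀ {N : ℕ} (P : Pg N) (X : Finset ℝ) (w : List It) (W : ℤ → It), Sq P X w W →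
    ∀ n n', n ≤ n' → (W n).e ≤ (W n').e) ∧
  (∀ {N : ℕ} (P : Pg N) (X : Finset ℝ) (w : List It) (W : ℤ → It), Sq P X w W →
    ∀ n n', n < n' → (W n).e = (W n').e →
      (∀ m, n ≤ m → m < n' → (W m).k = .rt ∧ (W m).t < (W (m + 1)).t) ∨
        ∀ m, n ≤ m → m < n' → (W m).k = .lt ∧ (W (m + 1)).t < (W m).t) ∧
  ∀ {N : ℕ} (P : Pg N) (X : Finset ℝ) (w : List It), (∃ W, Sq P X w W) → 0 < N

/-- COV: every crossing is an item. -/
def Stmt_COV : Prop :=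
  ∀ {N : ℕ} (P : Pg N) (X : Finset ℝ) (w : List It) (W : ℤ → It), Sq P X w W →
    ∀ t ∈ X, ∀ e, (P.x e < t → t < P.x (e + 1) → ∃ n, W n = ⟨.rt, t, e⟩) ∧
      (P.x (e + 1) < t → t < P.x e → ∃ n, W n = ⟨.lt, t, e⟩)

/-- WON: every crossing is an item of the list, up to periods. -/
def P_WON : Prop :=
  ∀ {N : ℕ} (P : Pg N) (X : Finset ℝ) (w : List It), EW P X w → ∀ t ∈ X, ∀ e,
    (P.x e < t → t < P.x (e + 1) → ∃ j : ℤ, (⟨.rt, t, e + j * N⟩ : It) ∈ w) ∧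
      (P.x (e + 1) < t → t < P.x e → ∃ j : ℤ, (⟨.lt, t, e + j * N⟩ : It) ∈ w)

/-- WON -/
def Stmt_WON : Prop := P_SEQ → P_WON

/-- The turns in the cell `(a, b)` belong to components which are monotone in `y`. -/
def YF {N : ℕ} (P : Pg N) (a b : ℝ) (w : List It) : Prop :=
  ∀ i ∈ w, (i.k = .R ∨ i.k = .L) → a < P.x (i.e + 1) → P.x (i.e + 1) < b →
    ∃ p q, Comp P a b p q ∧ p ≤ i.e ∧ i.e ≤ q ∧ YM P p q

/-- The same for all cells of `X`. -/
def YX {N : ℕ} (P : Pg N) (X : Finset ℝ) (w : List It) : Prop :=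
  ∀ a b, AdjX X a b → YF P a b w

/-- Generic lines. -/
def Gen {N : ℕ} (P : Pg N) (Y : Finset ℝ) : Prop :=
  ∀ s ∈ Y, (∀ i, P.x i ≠ s) ∧ ∀ i j, P.y i ≠ P.y j → P.l i s ≠ P.l j s

/-- The heights on the left side of the item `n`; `a` is the line to the left. -/
def KI {N : ℕ} (P : Pg N) (W : ℤ → It) (a : ℝ) (n : ℤ) : Set ℝ :=
  {h | (∃ j, (j = n - 1 ∨ j = n + 1) ∧ (W j).t < (W n).t ∧ h = P.l (W j).e (W j).t) ∨
    (W n).k = .L ∧ h = P.l (W n).e a}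

/-- The heights on the right side of the item `n`; `d` is the line to the right. -/
def RI {N : ℕ} (P : Pg N) (W : ℤ → It) (d : ℝ) (n : ℤ) : Set ℝ :=
  {h | (∃ j, (j = n - 1 ∨ j = n + 1) ∧ (W n).t < (W j).t ∧ h = P.l (W j).e (W j).t) ∨
    (W n).k = .R ∧ h = P.l (W n).e d}

/-- The situation of the removal of the line `s` from the walk `w` with the lines `Y` in the good
cell `(a, b)`. -/
structure Sit {N : ℕ} (P : Pg N) (a b s d : ℝ) (Y : Finset ℝ) (w : List It) (W : ℤ → It) :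
    Prop where
  gd : Good P a b
  l : AdjX Y a s
  r : AdjX Y s d
  db : d ≤ b
  sq : Sq P Y w W
  yf : YF P a b w

/-- ITM: the edges near an item of the line `s`. -/
def P_ITM : Prop :=
  ∀ {N : ℕ} (P : Pg N) (a b s d : ℝ) (Y : Finset ℝ) (w : List It) (W : ℤ → It),
    Sit P a b s d Y w W → ∀ n, (W n).t = s → ∃ p q, Comp P a b p q ∧ p ≤ (W n).e ∧ (W n).e ≤ q ∧
      (∀ h ∈ KI P W a n, ∃ e, p ≤ e ∧ e ≤ q ∧ h = P.l e a) ∧
      (∀ h ∈ RI P W d n, ∃ e, p ≤ e ∧ e ≤ q ∧ h = P.l e d) ∧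
      ∀ h ∈ RI P W d n, ∀ m M : ℝ, (∀ k, p ≤ k → k ≤ q → m ≤ P.y k ∧ P.y k ≤ M) →
        m * (d - s) ≤ h - P.l (W n).e s ∧ h - P.l (W n).e s ≤ M * (d - s)

/-- ITM -/
def Stmt_ITM : Prop := P_PGB → P_INC → P_CMP → P_SEQ → P_ITM

/-- The dichotomy for two items of the line `s`. -/
def Dich {N : ℕ} (P : Pg N) (W : ℤ → It) (a s d : ℝ) (n n' : ℤ) : Prop :=
  P.l (W n).e s ≤ P.l (W n').e s →
    (∀ x ∈ KI P W a n', ∀ y ∈ KI P W a n, y < x) ∨ ∀ x ∈ RI P W d n', ∀ y ∈ RI P W d n, y < x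

/-- STD: the dichotomy for items of different components. -/
def P_STD : Prop :=
  ∀ {N : ℕ} (P : Pg N) (a b s d : ℝ) (Y : Finset ℝ) (w : List It) (W : ℤ → It),
    Sit P a b s d Y w W → ∀ n n' p q p' q', (W n).t = s → (W n').t = s → Comp P a b p q →
      p ≤ (W n).e → (W n).e ≤ q → Comp P a b p' q' → p' ≤ (W n').e → (W n').e ≤ q' →
      (¬ ∃ k : ℤ, p' = p + k * N) → Dich P W a s d n n'

/-- STD -/
def Stmt_STD : Prop := P_PGB → P_CMP → P_SEQ → P_ITM → P_STD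

/-- STI: the dichotomy for items of the same component, increasing in `y`. -/
def P_STI : Prop :=
  ∀ {N : ℕ} (P : Pg N) (a b s d : ℝ) (Y : Finset ℝ) (w : List It) (W : ℤ → It),
    Sit P a b s d Y w W → ∀ n n' p q, n ≠ n' → (W n).t = s → (W n').t = s → Comp P a b p q →
      p ≤ (W n).e → (W n).e ≤ q → p ≤ (W n').e → (W n').e ≤ q → StrictMonoOn P.y (Icc p q) →
      Dich P W a s d n n'

/-- STI -/
def Stmt_STI : Prop := P_PGB → P_INC → P_CMP → P_SEQ → P_STI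

/-- The reflected polygon. -/
def Pg.rf {N : ℕ} (P : Pg N) : Pg N where
  x := P.x
  y i := -P.y i
  z i := -P.z i
  px := P.px
  py i := by simp [P.py i]
  pz i := by simp [P.pz i]
  cl i := by have := P.cl i; linarith

/-- RFL: reflection of a situation. -/
def P_RFL : Prop :=
  ∀ {N : ℕ} (P : Pg N) (a b s d : ℝ) (Y : Finset ℝ) (w : List It) (W : ℤ → It),
    (Sit P a b s d Y w W → Sit P.rf a b s d Y w W) ∧
      ∀ n n', Dich P.rf W a s d n' n → P.l (W n).e s ≤ P.l (W n').e s →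
        (∀ x ∈ KI P W a n', ∀ y ∈ KI P W a n, y < x) ∨ ∀ x ∈ RI P W d n', ∀ y ∈ RI P W d n, y < x

/-- RFL -/
def Stmt_RFL : Prop := P_RFL

/-- STA: the dichotomy for all items. -/
def P_STA : Prop :=
  ∀ {N : ℕ} (P : Pg N) (a b s d : ℝ) (Y : Finset ℝ) (w : List It) (W : ℤ → It),
    Sit P a b s d Y w W → ∀ n n', (W n).t = s → (W n').t = s →
      (¬ ∃ k : ℤ, n' = n + k * w.length) → Dich P W a s d n n'

/-- STA -/
def Stmt_STA : Prop := P_PGB → P_CMP → P_SEQ → P_ITM → P_STD → P_STI → P_RFL → P_STA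

/-! ### removal of a line from the walk of a polygon -/

open Classical in
/-- Removal of the line `s` between the lines `a` and `d`. -/
noncomputable def ri1 (a s d : ℝ) (i : It) : Option It :=
  if i.t = s then
    match i.k with
    | .rt => none
    | .lt => none
    | .R => some ⟨.R, d, i.e⟩
    | .L => some ⟨.L, a, i.e⟩
  else some i

/-- The walk without the line `s`. -/
noncomputable def riv (a s d : ℝ) (w : List It) : List It := w.filterMap (ri1 a s d)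

/-- RMP: the conditions for the removal of the line. -/
def P_RMP : Prop :=
  ∀ {N : ℕ} (P : Pg N) (a b s d : ℝ) (Y : Finset ℝ) (w : List It) (W : ℤ → It),
    Sit P a b s d Y w W → Gen P Y → CW (w.map (pt P)) →
    4 ≤ (ents ((riv a s d w).map (pt P))).length →
    ∃ el er : Pt → ℝ, Rem (w.map (pt P)) a s d el er ∧
      rmv a s d el er (w.map (pt P)) = (riv a s d w).map (pt P)

/-- RMP -/
def Stmt_RMP : Prop := P_PGB → P_CMP → P_SEQ → P_CWA → P_STA → P_RMP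

/-- EWP: the walk without the line `s` is a walk with the lines `Y.erase s`. -/
def P_EWP : Prop :=
  ∀ {N : ℕ} (P : Pg N) (a b s d : ℝ) (Y : Finset ℝ) (w : List It) (W : ℤ → It),
    Sit P a b s d Y w W → (∀ i, P.x i ≠ s) → EW P (Y.erase s) (riv a s d w)

/-- EWP -/
def Stmt_EWP : Prop := P_SEQ → P_EWP

/-- LEN: a walk has at least four entries. -/
def P_LEN : Prop :=
  ∀ {N : ℕ} (P : Pg N) (X Y : Finset ℝ) (w : List It), GoodX P X → X ⊆ Y → EW P Y w →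
    4 ≤ (ents (w.map (pt P))).length

/-- LEN -/
def Stmt_LEN : Prop := P_SEQ → P_LEN

/-- Removal of one line. -/
def P_PH1 : Prop :=
  ∀ {N : ℕ} (P : Pg N) (a b s d : ℝ) (X Y : Finset ℝ) (w : List It) (W : ℤ → It),
    Sit P a b s d Y w W → Gen P Y → GoodX P X → X ⊆ Y → s ∉ X → YX P X w → CW (w.map (pt P)) →
    ∃ w', EW P (Y.erase s) w' ∧ YX P X w' ∧ CW (w'.map (pt P)) ∧ WE (lst P w) (lst P w')

/-- PH1 -/
def Stmt_PH1 : Prop := P_SEQ → P_TRL → P_RMP → P_EWP → P_LEN → P_PH1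

/-- RED: removal of many lines. -/
def P_RED : Prop :=
  ∀ {N : ℕ} (P : Pg N) (X Y : Finset ℝ) (w : List It), GoodX P X → X ⊆ Y → Gen P Y → EW P Y w →
    YX P X w → CW (w.map (pt P)) →
    ∃ w', EW P X w' ∧ YX P X w' ∧ CW (w'.map (pt P)) ∧ WE (lst P w) (lst P w')

/-- RED -/
def Stmt_RED : Prop := P_SEQ → P_WEB → P_CWA → P_PH1 → P_RED

/-! ### zigzags -/

/-- ZRM: removal of one zigzag. -/
def P_ZRM : Prop :=
  ∀ {N : ℕ} (P : Pg N) (X : Finset ℝ) (w : List It), GoodX P X → EW P X w → YX P X w →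
    CW (w.map (pt P)) → ¬ GW P X w →
    ∃ w', w'.length < w.length ∧ EW P X w' ∧ YX P X w' ∧ CW (w'.map (pt P)) ∧
      WE (lst P w) (lst P w')

/-- ZRM -/
def Stmt_ZRM : Prop :=
  P_PGB → P_CMP → P_SEQ → P_WEB → P_CWA → P_ZR1 → P_ZR2 → P_LEN → P_ZRM

/-- Removal of all zigzags. -/
def P_ZAL : Prop :=
  ∀ {N : ℕ} (P : Pg N) (X : Finset ℝ) (w : List It), GoodX P X → EW P X w → YX P X w →
    CW (w.map (pt P)) → ∃ w', GW P X w' ∧ WE (lst P w) (lst P w')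

/-- ZAL -/
def Stmt_ZAL : Prop := P_WEB → P_CWA → P_ZRM → P_ZAL

/-! ### comparison of walks with the same lines -/

/-- GYF: in a walk without zigzags all turns are in components monotone in `y`. -/
def P_GYF : Prop :=
  ∀ {N : ℕ} (P : Pg N) (X Y : Finset ℝ) (w : List It), GoodX P X → X ⊆ Y →
    (∀ s ∈ Y, ∀ i, P.x i ≠ s) → GW P Y w → YX P X w

/-- GYF -/
def Stmt_GYF : Prop := P_PGB → P_CMP → P_SEQ → P_GYF

/-- CWG: the walk of points for a good set of lines. -/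
def P_CWG : Prop :=
  ∀ {N : ℕ} (P : Pg N) (X : Finset ℝ) (w : List It), GoodX P X → GW P X w → CW (w.map (pt P))

/-- CWG -/
def Stmt_CWG : Prop := P_PGB → P_CMP → P_SEQ → P_LEN → P_GYF → P_CWG

/-- CWP: the walk of points for generic lines. -/
def P_CWP : Prop :=
  ∀ {N : ℕ} (P : Pg N) (X Y : Finset ℝ) (w : List It), GoodX P X → X ⊆ Y → Gen P Y → EW P Y w →
    YX P X w → CW (w.map (pt P))

/-- CWP -/
def Stmt_CWP : Prop := P_PGB → P_CMP → P_SEQ → P_LEN → P_CWP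

/-- Two walks have the same items up to the edges of the turns. -/
def SmI (i j : It) : Prop := i.k = j.k ∧ i.t = j.t ∧ ((i.k = .rt ∨ i.k = .lt) → i.e = j.e)

/-- NXT: two walks without zigzags have the same items. -/
def P_NXT : Prop :=
  ∀ {N : ℕ} (P : Pg N) (X : Finset ℝ) (w w' : List It), GoodX P X → GW P X w → GW P X w' →
    ∃ W W' : ℤ → It, ∃ c : ℤ, Sq P X w W ∧ Sq P X w' W' ∧ w.length = w'.length ∧
      ∀ n, SmI (W n) (W' (n + c))

/-- NXT -/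
def Stmt_NXT : Prop := P_SEQ → P_LEN → P_NXT

/-- UNI: two walks without zigzags with the same lines are equivalent. -/
def P_UNI : Prop :=
  ∀ {N : ℕ} (P : Pg N) (X : Finset ℝ) (w w' : List It), GoodX P X → GW P X w → GW P X w' →
    WE (lst P w) (lst P w')

/-- UNI -/
def Stmt_UNI : Prop := P_PGB → P_CMP → P_SEQ → P_WEB → P_CWA → P_CWG → P_GYF → P_NXT → P_UNI

/-! ### existence -/

/-- EXW: walks exist. -/
def P_EXW : Prop :=
  ∀ {N : ℕ} (P : Pg N) (Y : Finset ℝ), 0 < N → (∀ s ∈ Y, ∀ i, P.x i ≠ s) →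
    (∃ a ∈ Y, ∀ i, a < P.x i) → (∃ b ∈ Y, ∀ i, P.x i < b) → (∃ s ∈ Y, ∃ i j, P.x i < s ∧ s < P.x j) →
    ∃ w, GW P Y w

/-- EXW -/
def Stmt_EXW : Prop := P_EXW

/-- The events of a polygon. -/
def Ev {N : ℕ} (P : Pg N) : Set ℝ :=
  {t | (∃ i, P.x i = t) ∨ ∃ i j, P.y i ≠ P.y j ∧ P.l i t = P.l j t}

/-- EVF: the set of events is finite. -/
def P_EVF : Prop := ∀ {N : ℕ} (P : Pg N), 0 < N → (Ev P).Finite

/-- EVF -/
def Stmt_EVF : Prop := P_PGB → P_EVF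

/-- FGC: cells with at most one event are good. -/
def P_FGC : Prop :=
  ∀ {N : ℕ} (P : Pg N) (a b : ℝ), 0 < N → Emb P → a < b → a ∉ Ev P → b ∉ Ev P →
    (∀ s t, s ∈ Ev P → t ∈ Ev P → a < s → s < b → a < t → t < b → s = t) → Good P a b

/-- FGC -/
def Stmt_FGC : Prop := P_PGB → P_FGC

/-- EGX: good sets of lines exist, containing a given set of lines without events. -/
def P_EGX : Prop :=
  ∀ {N : ℕ} (P : Pg N), 0 < N → Emb P → ∀ F : Finset ℝ, (∀ s ∈ F, s ∉ Ev P) →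
    ∃ X : Finset ℝ, F ⊆ X ∧ GoodX P X ∧ (∀ s ∈ X, s ∉ Ev P) ∧
      (∃ s ∈ X, ∃ i j, P.x i < s ∧ s < P.x j)

/-- EGX -/
def Stmt_EGX : Prop := P_EVF → P_FGC → P_EGX

/-- T_EX: good sets of lines with small mesh. -/
def P_TEX : Prop :=
  ∀ {N : ℕ} (P : Pg N), 0 < N → Emb P → ∀ ε > 0, ∃ X w, GoodX P X ∧ GW P X w ∧
    ∀ a b, AdjX X a b → b - a < ε

/-- TEX -/
def Stmt_TEX : Prop := P_EVF → P_EGX → P_EXW → P_TEX

/-! ### perturbation of lines -/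

/-- PER: the lines can be made generic. -/
def P_PER : Prop :=
  ∀ {N : ℕ} (P : Pg N) (X : Finset ℝ) (w : List It), GoodX P X → GW P X w →
    ∃ X' w', GoodX P X' ∧ Gen P X' ∧ GW P X' w' ∧ WE (lst P w) (lst P w')

/-- Moving the lines a little. -/
def P_PEA : Prop :=
  ∀ {N : ℕ} (P : Pg N) (X : Finset ℝ) (w : List It), 0 < N → GoodX P X → GW P X w →
    ∃ ε > 0, ∀ σ : ℝ → ℝ, (∀ t ∈ X, |σ t - t| < ε) →
      (∀ s ∈ X, ∀ t ∈ X, s < t → σ s < σ t) ∧ GoodX P (X.image σ) ∧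
        GW P (X.image σ) (w.map fun i => ⟨i.k, σ i.t, i.e⟩) ∧
        WE (lst P w) (lst P (w.map fun i => ⟨i.k, σ i.t, i.e⟩))

/-- PEA -/
def Stmt_PEA : Prop := P_PGB → P_CMP → P_SEQ → P_WEB → P_CWA → P_CWG → P_PEA

/-- PER -/
def Stmt_PER : Prop := P_SEQ → P_EVF → P_PEA → P_PER

/-- IN1: independence of the lines. -/
def P_IN1 : Prop :=
  ∀ {N : ℕ} (P : Pg N) (X X' : Finset ℝ) (w w' : List It), GoodX P X → GW P X w → GoodX P X' →
    GW P X' w' → WE (lst P w) (lst P w')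

/-- IN1 -/
def Stmt_IN1 : Prop :=
  P_SEQ → P_WEB → P_CWA → P_EXW → P_CWP → P_GYF → P_RED → P_ZAL → P_UNI → P_PER → P_IN1

/-! ### paths -/

/-- Continuity of a family of polygons at `t₀` in the interval `[0, 1]`. -/
def CtA {N : ℕ} (F : ℝ → Pg N) (t₀ : ℝ) : Prop :=
  ∀ i, ContinuousWithinAt (fun t => (F t).x i) (Icc 0 1) t₀ ∧
    ContinuousWithinAt (fun t => (F t).y i) (Icc 0 1) t₀ ∧
    ContinuousWithinAt (fun t => (F t).z i) (Icc 0 1) t₀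

/-- OPG: goodness is an open condition. -/
def P_OPG : Prop :=
  ∀ {N : ℕ} (F : ℝ → Pg N) (t₀ : ℝ) (X : Finset ℝ), 0 < N → CtA F t₀ → GoodX (F t₀) X →
    ∀ᶠ t in nhdsWithin t₀ (Icc 0 1), GoodX (F t) X

/-- OPG -/
def Stmt_OPG : Prop := P_PGB → P_CMP → P_OPG

/-- OPW: the same items are a walk of the nearby polygons. -/
def P_OPW : Prop :=
  ∀ {N : ℕ} (F : ℝ → Pg N) (t₀ : ℝ) (X : Finset ℝ) (w : List It), 0 < N → CtA F t₀ →
    GW (F t₀) X w → ∀ᶠ t in nhdsWithin t₀ (Icc 0 1), GW (F t) X w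

/-- OPW -/
def Stmt_OPW : Prop := P_PGB → P_OPW

/-- LOC: the cyclic list does not change locally. -/
def P_LOC : Prop :=
  ∀ {N : ℕ} (F : ℝ → Pg N) (t₀ : ℝ) (w : List It), 0 < N → CtA F t₀ →
    CW (w.map (pt (F t₀))) → ∀ᶠ t in nhdsWithin t₀ (Icc 0 1), WE (lst (F t₀) w) (lst (F t) w)

/-- LOC -/
def Stmt_LOC : Prop := P_WEB → P_CWA → P_LOC

/-- ZSH: the heights may be changed by a constant. -/
def P_ZSH : Prop :=
  ∀ {N : ℕ} (P P' : Pg N) (w : List It), P.x = P'.x → P.y = P'.y → CW (w.map (pt P)) →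
    WE (lst P w) (lst P' w) ∧ CW (w.map (pt P')) ∧ (∀ X, GoodX P X → GoodX P' X) ∧
      (∀ X, GW P X w → GW P' X w) ∧ (Emb P → Emb P')

/-- ZSH -/
def Stmt_ZSH : Prop := P_PGB → P_WEB → P_CWA → P_ZSH

/-- INV: the main theorem of part C. -/
def Stmt_INV : Prop :=
  P_SEQ → P_WEB → P_CWA → P_EXW → P_EGX → P_IN1 → P_OPG → P_OPW → P_LOC → P_ZSH → P_CWG → T_INV

end LH
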