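import Pool.Agent.LH.Stmts2

/-!
# UNI: two walks without zigzags with the same lines are equivalent
-/

namespace LH

open Set LG

namespace UNI

/-! ### cyclic lists -/

theorem cp_map {α β : Type*} (f : α → β) (w : List α) :
    cp (w.map f) = (cp w).map (Prod.map f f) := by
  unfold cp
  rw [← List.map_rotate, List.zip_map]

/-- The kind is a turn. -/
def Tn (k : Kd) : Prop := k = .R ∨ k = .L

section Sq

variable {N : ℕ} {P : Pg N} {X : Finset ℝ} {w w' : List It} {W W' : ℤ → It}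

theorem nozz (hS : P_SEQ) (hg : GW P X w) (hq : Sq P X w W) (n : ℤ) :
    ¬ (Tn (W n).k ∧ Tn (W (n + 1)).k) := by
  intro h
  have h1 : (pt P (W n), pt P (W (n + 1))) ∈ cp (w.map (pt P)) :=
    (hS.cp P X w W hq _).2 ⟨n, rfl⟩
  rw [cp_map, List.mem_map] at h1
  obtain ⟨x, hx, hx'⟩ := h1
  have h2 : pt P x.1 = pt P (W n) := congrArg Prod.fst hx'
  have h3 : pt P x.2 = pt P (W (n + 1)) := congrArg Prod.snd hx'
  have h4 : x.1.k = (W n).k := congrArg Pt.k h2
  have h5 : x.2.k = (W (n + 1)).k := congrArg Pt.k h3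
  refine hg.2 x hx ?_
  rw [h4, h5]
  exact h

theorem adj_left {a a' b : ℝ} (h : AdjX X a b) (h' : AdjX X a' b) : a = a' := by
  rcases lt_trichotomy a a' with h1 | h1 | h1
  · exact absurd ⟨h1, h'.2.2.1⟩ (h.2.2.2 a' h'.1)
  · exact h1
  · exact absurd ⟨h1, h.2.2.1⟩ (h'.2.2.2 a h.1)

theorem adj_right {a b b' : ℝ} (h : AdjX X a b) (h' : AdjX X a b') : b = b' := by
  rcases lt_trichotomy b b' with h1 | h1 | h1
  · exact absurd ⟨h.2.2.1, h1⟩ (h'.2.2.2 b h.2.1)
  · exact h1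
  · exact absurd ⟨h'.2.2.1, h1⟩ (h.2.2.2 b' h'.2.1)

/-- A step to the right. -/
theorem stepR {i j : It} (h : Lnk P X i j) (hk : i.k.fw ∨ j.k.ar) :
    i.k.fw ∧ j.k.ar ∧ AdjX X i.t j.t ∧
      ∀ m, i.e < m → m ≤ j.e → i.t < P.x m ∧ P.x m < j.t := by
  have h1 : i.k.fw ∧ j.k.ar ∧ i.t < j.t := by
    rcases h.dir with h1 | h1
    · exact h1
    · rcases hk with hk | hk
      · exact absurd hk h1.1
      · exact absurd hk h1.2.1
  refine ⟨h1.1, h1.2.1, ?_, ?_⟩
  · rcases h.adj with h2 | h2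
    · exact h2
    · exact absurd h2.2.2.1 (not_lt.2 h1.2.2.le)
  · intro m h2 h3
    rcases h.ins m h2 h3 with h4 | h4
    · exact h4
    · exact absurd (h4.1.trans h4.2) (not_lt.2 h1.2.2.le)

/-- A step to the left. -/
theorem stepL {i j : It} (h : Lnk P X i j) (hk : ¬ i.k.fw ∨ ¬ j.k.ar) :
    ¬ i.k.fw ∧ ¬ j.k.ar ∧ AdjX X j.t i.t ∧
      ∀ m, i.e < m → m ≤ j.e → j.t < P.x m ∧ P.x m < i.t := by
  have h1 : ¬ i.k.fw ∧ ¬ j.k.ar ∧ j.t < i.t := by
    rcases h.dir with h1 | h1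
    · rcases hk with hk | hk
      · exact absurd h1.1 hk
      · exact absurd h1.2.1 hk
    · exact h1
  refine ⟨h1.1, h1.2.1, ?_, ?_⟩
  · rcases h.adj with h2 | h2
    · exact absurd h2.2.2.1 (not_lt.2 h1.2.2.le)
    · exact h2
  · intro m h2 h3
    rcases h.ins m h2 h3 with h4 | h4
    · exact absurd (h4.1.trans h4.2) (not_lt.2 h1.2.2.le)
    · exact h4

theorem lk' (hq : Sq P X w W) (n : ℤ) : Lnk P X (W (n - 1)) (W n) := by
  have h := hq.lnk (n - 1)
  rwa [sub_add_cancel] at h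

/-- Near a right turn. -/
theorem turnR (hq : Sq P X w W) (hz : ∀ n, ¬ (Tn (W n).k ∧ Tn (W (n + 1)).k)) {a b : ℝ}
    (hab : AdjX X a b) (n : ℤ) (hk : (W n).k = .R) (ht : (W n).t = b) :
    (W (n - 1)).k = .rt ∧ (W (n - 1)).t = a ∧ (W (n + 1)).k = .lt ∧ (W (n + 1)).t = a ∧
      (W (n - 1)).e ≤ (W n).e ∧ (W n).e < (W (n + 1)).e ∧
      ∀ m, (W (n - 1)).e < m → m ≤ (W (n + 1)).e → a < P.x m ∧ P.x m < b := by
  have h1 := lk' hq n
  have h2 := hq.lnk n
  obtain ⟨f1, -, j1, i1⟩ := stepR h1 (Or.inr (by simp [hk, Kd.ar]))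
  obtain ⟨-, f2, j2, i2⟩ := stepL h2 (Or.inl (by simp [hk, Kd.fw]))
  have z1 := hz (n - 1)
  rw [sub_add_cancel] at z1
  have z2 := hz n
  have k1 : (W (n - 1)).k = .rt := by
    cases hc : (W (n - 1)).k
    · rfl
    · simp [hc, Kd.fw] at f1
    · simp [hc, Kd.fw] at f1
    · exact absurd ⟨Or.inr hc, Or.inl hk⟩ z1
  have k2 : (W (n + 1)).k = .lt := by
    cases hc : (W (n + 1)).k
    · simp [hc, Kd.ar] at f2
    · rfl
    · simp [hc, Kd.ar] at f2
    · exact absurd ⟨Or.inl hk, Or.inr hc⟩ z2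
  rw [ht] at j1 j2 i1 i2
  have t1 : (W (n - 1)).t = a := adj_left j1 hab
  have t2 : (W (n + 1)).t = a := adj_left j2 hab
  have e2 := h2.tl (Or.inl hk)
  refine ⟨k1, t1, k2, t2, h1.le, e2, ?_⟩
  intro m hm hm'
  rw [t1] at i1
  rw [t2] at i2
  rcases le_or_gt m (W n).e with h | h
  · exact i1 m hm h
  · exact i2 m h hm'

/-- Near a left turn. -/
theorem turnL (hq : Sq P X w W) (hz : ∀ n, ¬ (Tn (W n).k ∧ Tn (W (n + 1)).k)) {a b : ℝ}
    (hab : AdjX X a b) (n : ℤ) (hk : (W n).k = .L) (ht : (W n).t = a) :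
    (W (n - 1)).k = .lt ∧ (W (n - 1)).t = b ∧ (W (n + 1)).k = .rt ∧ (W (n + 1)).t = b ∧
      (W (n - 1)).e ≤ (W n).e ∧ (W n).e < (W (n + 1)).e ∧
      ∀ m, (W (n - 1)).e < m → m ≤ (W (n + 1)).e → a < P.x m ∧ P.x m < b := by
  have h1 := lk' hq n
  have h2 := hq.lnk n
  obtain ⟨f1, -, j1, i1⟩ := stepL h1 (Or.inr (by simp [hk, Kd.ar]))
  obtain ⟨-, f2, j2, i2⟩ := stepR h2 (Or.inl (by simp [hk, Kd.fw]))
  have z1 := hz (n - 1)
  rw [sub_add_cancel] at z1
  have z2 := hz n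
  have k1 : (W (n - 1)).k = .lt := by
    cases hc : (W (n - 1)).k
    · simp [hc, Kd.fw] at f1
    · rfl
    · exact absurd ⟨Or.inl hc, Or.inr hk⟩ z1
    · simp [hc, Kd.fw] at f1
  have k2 : (W (n + 1)).k = .rt := by
    cases hc : (W (n + 1)).k
    · rfl
    · simp [hc, Kd.ar] at f2
    · exact absurd ⟨Or.inr hk, Or.inl hc⟩ z2
    · simp [hc, Kd.ar] at f2
  rw [ht] at j1 j2 i1 i2
  have t1 : (W (n - 1)).t = b := adj_right j1 hab
  have t2 : (W (n + 1)).t = b := adj_right j2 hab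
  have e2 := h2.tl (Or.inr hk)
  refine ⟨k1, t1, k2, t2, h1.le, e2, ?_⟩
  intro m hm hm'
  rw [t1] at i1
  rw [t2] at i2
  rcases le_or_gt m (W n).e with h | h
  · exact i1 m hm h
  · exact i2 m h hm'

/-- Extension of a component to the right. -/
theorem ext_r {a b : ℝ} {p q e e' : ℤ} (hc : Comp P a b p q) (hq : e ≤ q)
    (h : ∀ m, e < m → m ≤ e' → a < P.x m ∧ P.x m < b) : e' ≤ q := by
  by_contra hlt
  push Not at hlt
  have h1 := h (q + 1) (by omega) (by omega)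
  rcases hc.lst with h2 | h2
  · exact absurd h1.1 (not_lt.2 h2.le)
  · exact absurd h1.2 (not_lt.2 h2.le)

/-- Extension of a component to the left. -/
theorem ext_l {a b : ℝ} {p q e e' : ℤ} (hc : Comp P a b p q) (hp : p ≤ e)
    (h : ∀ m, e' < m → m ≤ e → a < P.x m ∧ P.x m < b) : p ≤ e' := by
  by_contra hlt
  push Not at hlt
  have h1 := h p (by omega) hp
  rcases hc.fst with h2 | h2
  · exact absurd h1.1 (not_lt.2 h2.le)
  · exact absurd h1.2 (not_lt.2 h2.le)

theorem mono_t {f : ℤ → ℝ} {n n' : ℤ} (h : ∀ m, n ≤ m → m < n' → f m < f (m + 1))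
    (hn : n < n') : f n < f n' := by
  have key : ∀ k : ℕ, n + k + 1 ≤ n' → f n < f (n + k + 1) := by
    intro k
    induction k with
    | zero =>
      intro hk
      simpa using h n le_rfl hn
    | succ k ih =>
      intro hk
      push_cast at hk ⊢
      have h1 := ih (by omega)
      have h2 := h (n + k + 1) (by omega) (by omega)
      have h3 : n + ((k : ℤ) + 1) + 1 = n + k + 1 + 1 := by ring
      rw [h3]
      exact h1.trans h2
  have h1 := key (n' - n - 1).toNat (by omega)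
  have h2 : n + ((n' - n - 1).toNat : ℤ) + 1 = n' := by omega
  rwa [h2] at h1

/-- An item on the line `s` of the cell `(a, b)`, which is joined to the other line. -/
def At (a b s : ℝ) (i : It) : Prop :=
  i.t = s ∧ (s = b ∧ i.k ≠ .L ∨ s = a ∧ i.k ≠ .R)

/-- Translation by periods. -/
theorem shift (hq : Sq P X w W) (n k : ℤ) :
    (W (n + k * w.length)).k = (W n).k ∧ (W (n + k * w.length)).t = (W n).t ∧
      (W (n + k * w.length)).e = (W n).e + k * N := by
  have up : ∀ n, (W (n + w.length)).k = (W n).k ∧ (W (n + w.length)).t = (W n).t ∧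
      (W (n + w.length)).e = (W n).e + N := by
    intro n
    rw [hq.per n]
    exact ⟨rfl, rfl, rfl⟩
  induction k using Int.induction_on with
  | zero => simp
  | succ i ih =>
    have h1 := up (n + i * w.length)
    have h2 : n + ((i : ℤ) + 1) * w.length = n + i * w.length + w.length := by ring
    rw [h2]
    refine ⟨h1.1.trans ih.1, h1.2.1.trans ih.2.1, ?_⟩
    rw [h1.2.2, ih.2.2]
    ring
  | pred i ih =>
    have h1 := up (n + (-(i : ℤ) - 1) * w.length)
    have h2 : n + (-(i : ℤ) - 1) * w.length + w.length = n + -(i : ℤ) * w.length := by ring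
    rw [h2] at h1
    refine ⟨h1.1.symm.trans ih.1, h1.2.1.symm.trans ih.2.1, ?_⟩
    have h3 := h1.2.2.symm.trans ih.2.2
    have h4 : (W (n + (-(i : ℤ) - 1) * w.length)).e = (W n).e + -(i : ℤ) * N - N := by
      rw [← h3]; ring
    rw [h4]
    ring

/-- No other item of the line has an edge between those of the neighbours of a turn. -/
theorem uniq (hS : P_SEQ) (hq : Sq P X w W) {a b s s' : ℝ} (hsa : a ≤ s ∧ s ≤ b) {kl kr : Kd}
    (hkk : kl = .rt ∧ kr = .lt ∧ s' = a ∨ kl = .lt ∧ kr = .rt ∧ s' = b) (hne : s' ≠ s) (n : ℤ)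
    (k1 : (W (n - 1)).k = kl) (t1 : (W (n - 1)).t = s') (k2 : (W (n + 1)).k = kr)
    (t2 : (W (n + 1)).t = s') (n' : ℤ) (ht : (W n').t = s) (h1 : (W (n - 1)).e ≤ (W n').e)
    (h2 : (W n').e ≤ (W (n + 1)).e) : n' = n := by
  by_contra hnn
  rcases lt_or_gt_of_ne hnn with h | h
  · have hne1 : n' ≠ n - 1 := by
      rintro rfl
      exact hne (t1.symm.trans ht)
    have hlt : n' < n - 1 := by omega
    have he := le_antisymm (hS.mo P X w W hq n' (n - 1) hlt.le) h1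
    have hl := lk' hq (n - 1)
    rcases hS.eq P X w W hq n' (n - 1) hlt he with h3 | h3
    · have h4 : (W n').t < (W (n - 1)).t :=
        mono_t (f := fun m => (W m).t) (fun m hm hm' => (h3 m hm hm').2) hlt
      rw [ht, t1] at h4
      rcases hkk with ⟨-, -, h5⟩ | ⟨h5, -, -⟩
      · rw [h5] at h4
        exact absurd h4 (not_lt.2 hsa.1)
      · have h6 := (h3 (n - 1 - 1) (by omega) (by omega)).1
        have h7 := (stepR hl (Or.inl (by simp [h6, Kd.fw]))).2.1
        rw [k1, h5] at h7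
        simp [Kd.ar] at h7
    · have h4 : -(W n').t < -(W (n - 1)).t :=
        mono_t (f := fun m => -(W m).t) (fun m hm hm' => neg_lt_neg (h3 m hm hm').2) hlt
      rw [ht, t1] at h4
      rcases hkk with ⟨h5, -, -⟩ | ⟨-, -, h5⟩
      · have h6 := (h3 (n - 1 - 1) (by omega) (by omega)).1
        have h7 := (stepL hl (Or.inl (by simp [h6, Kd.fw]))).2.1
        rw [k1, h5] at h7
        simp [Kd.ar] at h7
      · rw [h5] at h4
        exact absurd (neg_lt_neg_iff.1 h4) (not_lt.2 hsa.2)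
  · have hne1 : n' ≠ n + 1 := by
      rintro rfl
      exact hne (t2.symm.trans ht)
    have hlt : n + 1 < n' := by omega
    have he := le_antisymm (hS.mo P X w W hq (n + 1) n' hlt.le) h2
    rcases hS.eq P X w W hq (n + 1) n' hlt he with h3 | h3
    · have h4 : (W (n + 1)).t < (W n').t :=
        mono_t (f := fun m => (W m).t) (fun m hm hm' => (h3 m hm hm').2) hlt
      rw [ht, t2] at h4
      have h6 := (h3 (n + 1) le_rfl hlt).1
      rcases hkk with ⟨-, h5, -⟩ | ⟨-, -, h5⟩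
      · rw [k2, h5] at h6
        exact absurd h6 (by decide)
      · rw [h5] at h4
        exact absurd h4 (not_lt.2 hsa.2)
    · have h4 : -(W (n + 1)).t < -(W n').t :=
        mono_t (f := fun m => -(W m).t) (fun m hm hm' => neg_lt_neg (h3 m hm hm').2) hlt
      rw [ht, t2] at h4
      have h6 := (h3 (n + 1) le_rfl hlt).1
      rcases hkk with ⟨-, -, h5⟩ | ⟨-, h5, -⟩
      · rw [h5] at h4
        exact absurd (neg_lt_neg_iff.1 h4) (not_lt.2 hsa.1)
      · rw [k2, h5] at h6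
        exact absurd h6 (by decide)

/-- The component of an item: the edge and, for a turn, the edges of the neighbours. -/
theorem comp_ex (hS : P_SEQ) (hC : P_CMP) (hN : 0 < N) (hq : Sq P X w W)
    (hz : ∀ n, ¬ (Tn (W n).k ∧ Tn (W (n + 1)).k)) {a b s : ℝ} (hG : Good P a b)
    (hab : AdjX X a b) (n : ℤ) (hA : At a b s (W n)) :
    ∃ p q, Comp P a b p q ∧ p ≤ (W n).e ∧ (W n).e ≤ q ∧
      (Tn (W n).k → ¬ Tn (W (n - 1)).k ∧ ¬ Tn (W (n + 1)).k ∧ p = (W (n - 1)).e ∧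
        q = (W (n + 1)).e ∧ ∀ n', (W n').t = s → p ≤ (W n').e → (W n').e ≤ q → n' = n) := by
  obtain ⟨ht, hA⟩ := hA
  have hlt : a < b := hab.2.2.1
  have hsa : a ≤ s ∧ s ≤ b := by
    rcases hA with ⟨h, -⟩ | ⟨h, -⟩
    · rw [h]; exact ⟨hlt.le, le_rfl⟩
    · rw [h]; exact ⟨le_rfl, hlt.le⟩
  have hok := hq.ok n
  -- passing items
  have pass : (P.x (W n).e < s ∧ s < P.x ((W n).e + 1) ∨
      P.x ((W n).e + 1) < s ∧ s < P.x (W n).e) → ¬ Tn (W n).k →
      ∃ p q, Comp P a b p q ∧ p ≤ (W n).e ∧ (W n).e ≤ q ∧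
      (Tn (W n).k → ¬ Tn (W (n - 1)).k ∧ ¬ Tn (W (n + 1)).k ∧ p = (W (n - 1)).e ∧
        q = (W (n + 1)).e ∧ ∀ n', (W n').t = s → p ≤ (W n').e → (W n').e ≤ q → n' = n) := by
    intro he hT
    have hM : Mts P a b (W n).e := by
      constructor
      · rintro ⟨h1, h2⟩
        rcases he with ⟨-, h3⟩ | ⟨-, h3⟩
        · exact absurd (h2.trans_le hsa.1) (not_lt.2 h3.le)
        · exact absurd (h1.trans_le hsa.1) (not_lt.2 h3.le)
      · rintro ⟨h1, h2⟩
        rcases he with ⟨h3, -⟩ | ⟨h3, -⟩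
        · exact absurd (hsa.2.trans_lt h1) (not_lt.2 h3.le)
        · exact absurd (hsa.2.trans_lt h2) (not_lt.2 h3.le)
    obtain ⟨p, q, hc, hp, hq'⟩ := hC.ex P a b hN hG _ hM
    exact ⟨p, q, hc, hp, hq', fun h => absurd h hT⟩
  -- turns
  have turn : ∀ kl kr : Kd, ∀ s' : ℝ,
      (kl = .rt ∧ kr = .lt ∧ s' = a ∨ kl = .lt ∧ kr = .rt ∧ s' = b) → s' ≠ s →
      (W (n - 1)).k = kl ∧ (W (n - 1)).t = s' ∧ (W (n + 1)).k = kr ∧ (W (n + 1)).t = s' ∧
      (W (n - 1)).e ≤ (W n).e ∧ (W n).e < (W (n + 1)).e ∧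
      (∀ m, (W (n - 1)).e < m → m ≤ (W (n + 1)).e → a < P.x m ∧ P.x m < b) →
      ∃ p q, Comp P a b p q ∧ p ≤ (W n).e ∧ (W n).e ≤ q ∧
      (Tn (W n).k → ¬ Tn (W (n - 1)).k ∧ ¬ Tn (W (n + 1)).k ∧ p = (W (n - 1)).e ∧
        q = (W (n + 1)).e ∧ ∀ n', (W n').t = s → p ≤ (W n').e → (W n').e ≤ q → n' = n) := by
    intro kl kr s' hkk hne ⟨k1, t1, k2, t2, e1, e2, hin⟩
    have hM : Mts P a b (W n).e := by
      have h1 := hin ((W n).e + 1) (by omega) (by omega)
      constructor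
      · rintro ⟨-, h3⟩
        exact absurd h1.1 (not_lt.2 h3.le)
      · rintro ⟨-, h3⟩
        exact absurd h1.2 (not_lt.2 h3.le)
    obtain ⟨p, q, hc, hp, hq'⟩ := hC.ex P a b hN hG _ hM
    have hp1 : p ≤ (W (n - 1)).e := ext_l hc hp fun m h1 h2 => hin m h1 (by omega)
    have hq1 : (W (n + 1)).e ≤ q := ext_r hc hq' fun m h1 h2 => hin m (by omega) h2
    have hok1 := hq.ok (n - 1)
    have hok2 := hq.ok (n + 1)
    have hpe : p = (W (n - 1)).e := by
      by_contra hpne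
      have h1 := hc.ins (W (n - 1)).e (by omega) (by omega)
      rcases hkk with ⟨h3, -, h2⟩ | ⟨h3, -, h2⟩
      · have h4 := (hok1.1 (k1.trans h3)).1
        rw [t1, h2] at h4
        exact absurd h1.1 (not_lt.2 h4.le)
      · have h4 := (hok1.2 (k1.trans h3)).2
        rw [t1, h2] at h4
        exact absurd h1.2 (not_lt.2 h4.le)
    have hqe : q = (W (n + 1)).e := by
      by_contra hqne
      have h1 := hc.ins ((W (n + 1)).e + 1) (by omega) (by omega)
      rcases hkk with ⟨-, h3, h2⟩ | ⟨-, h3, h2⟩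
      · have h4 := (hok2.2 (k2.trans h3)).1
        rw [t2, h2] at h4
        exact absurd h1.1 (not_lt.2 h4.le)
      · have h4 := (hok2.1 (k2.trans h3)).2
        rw [t2, h2] at h4
        exact absurd h1.2 (not_lt.2 h4.le)
    refine ⟨p, q, hc, hp, hq', fun _ => ⟨?_, ?_, hpe, hqe, ?_⟩⟩
    · rintro (h | h)
      · rw [k1] at h; rcases hkk with hh | hh <;> rw [hh.1] at h <;> exact absurd h (by decide)
      · rw [k1] at h; rcases hkk with hh | hh <;> rw [hh.1] at h <;> exact absurd h (by decide)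
    · rintro (h | h)
      · rw [k2] at h; rcases hkk with hh | hh <;> rw [hh.2.1] at h <;> exact absurd h (by decide)
      · rw [k2] at h; rcases hkk with hh | hh <;> rw [hh.2.1] at h <;> exact absurd h (by decide)
    · intro n' hn' h1 h2
      rw [hpe] at h1
      rw [hqe] at h2
      exact uniq hS hq hsa hkk hne n k1 t1 k2 t2 n' hn' h1 h2
  cases hk : (W n).k with
  | rt =>
    have h1 := hok.1 hk
    rw [ht] at h1
    rw [hk] at pass
    exact pass (Or.inl h1) (by unfold Tn; decide)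
  | lt =>
    have h1 := hok.2 hk
    rw [ht] at h1
    rw [hk] at pass
    exact pass (Or.inr h1) (by unfold Tn; decide)
  | R =>
    have hsb : s = b := by
      rcases hA with ⟨h, -⟩ | ⟨-, h⟩
      · exact h
      · exact absurd hk h
    rw [hk] at turn
    refine turn .rt .lt a (Or.inl ⟨rfl, rfl, rfl⟩) (by rw [hsb]; exact hlt.ne)
      (turnR hq hz hab n hk (ht.trans hsb))
  | L =>
    have hsb : s = a := by
      rcases hA with ⟨-, h⟩ | ⟨h, -⟩
      · exact absurd hk h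
      · exact h
    rw [hk] at turn
    refine turn .lt .rt b (Or.inr ⟨rfl, rfl, rfl⟩) (by rw [hsb]; exact hlt.ne')
      (turnL hq hz hab n hk (ht.trans hsb))

theorem not_tn {k : Kd} (h : ¬ Tn k) : k = .rt ∨ k = .lt := by
  unfold Tn at h
  cases k <;> simp_all

/-- The order of the heights on a line is the same in both walks. -/
theorem cmp_h (hB : P_PGB) (hS : P_SEQ) (hC : P_CMP) (hN : 0 < N) (hq : Sq P X w W)
    (hq' : Sq P X w' W') (hz : ∀ n, ¬ (Tn (W n).k ∧ Tn (W (n + 1)).k)) (c : ℤ)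
    (hs : ∀ n, SmI (W n) (W' (n + c))) {a b s : ℝ} (hG : Good P a b) (hab : AdjX X a b)
    (n n' : ℤ) (hA : At a b s (W n)) (hA' : At a b s (W n'))
    (hlt : P.l (W n).e s < P.l (W n').e s) :
    P.l (W' (n + c)).e s < P.l (W' (n' + c)).e s := by
  -- the edges of the second walk
  have inC : ∀ n p q, p ≤ (W n).e → (W n).e ≤ q →
      (Tn (W n).k → ¬ Tn (W (n - 1)).k ∧ ¬ Tn (W (n + 1)).k ∧ p = (W (n - 1)).e ∧
        q = (W (n + 1)).e ∧ ∀ n', (W n').t = s → p ≤ (W n').e → (W n').e ≤ q → n' = n) →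
      p ≤ (W' (n + c)).e ∧ (W' (n + c)).e ≤ q := by
    intro n p q hp hq1 hT
    by_cases h : Tn (W n).k
    · obtain ⟨h1, h2, h3, h4, -⟩ := hT h
      have h5 := (hs (n - 1)).2.2 (not_tn h1)
      have h6 := (hs (n + 1)).2.2 (not_tn h2)
      rw [h3, h4, h5, h6]
      exact ⟨hS.mo P X w' W' hq' _ _ (by omega), hS.mo P X w' W' hq' _ _ (by omega)⟩
    · rw [← (hs n).2.2 (not_tn h)]
      exact ⟨hp, hq1⟩
  obtain ⟨p, q, hc, hp, hq1, hT⟩ := comp_ex hS hC hN hq hz hG hab n hA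
  obtain ⟨p', q', hc', hp', hq1', hT'⟩ := comp_ex hS hC hN hq hz hG hab n' hA'
  have hi := inC n p q hp hq1 hT
  have hi' := inC n' p' q' hp' hq1' hT'
  rcases hC.sep P a b p q p' q' hN hG hc hc' with ⟨k, hk, hk'⟩ | ⟨hsa, hsb⟩
  · by_cases h1 : Tn (W n).k
    · exfalso
      have h2 := shift hq n' (-k)
      have h3 := (hT h1).2.2.2.2 (n' + -k * w.length) (h2.2.1.trans hA'.1)
        (by rw [h2.2.2, neg_mul]; omega) (by rw [h2.2.2, neg_mul]; omega)
      rw [h3] at h2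
      have h4 := (hB.sh P (W n').e (-k)).2.2.2 s
      rw [← h2.2.2] at h4
      exact absurd hlt (not_lt.2 h4.ge)
    · by_cases h1' : Tn (W n').k
      · exfalso
        have h2 := shift hq n k
        have h3 := (hT' h1').2.2.2.2 (n + k * w.length) (h2.2.1.trans hA.1)
          (by rw [h2.2.2]; omega) (by rw [h2.2.2]; omega)
        rw [h3] at h2
        have h4 := (hB.sh P (W n).e k).2.2.2 s
        rw [← h2.2.2] at h4
        exact absurd hlt (not_lt.2 h4.le)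
      · rw [← (hs n).2.2 (not_tn h1), ← (hs n').2.2 (not_tn h1')]
        exact hlt
  · have hS' : Sep P p q p' q' s := by
      rcases hA.2 with ⟨h, -⟩ | ⟨h, -⟩
      · rw [h]; exact hsb
      · rw [h]; exact hsa
    rcases hS' with h | h
    · exact h _ hi _ hi'
    · exact absurd (h _ ⟨hp, hq1⟩ _ ⟨hp', hq1'⟩) (not_lt.2 hlt.le)

theorem left_adj (hq : Sq P X w W) (n : ℤ) (hk : (W n).k ≠ .L) : ∃ a, AdjX X a (W n).t := by
  cases hc : (W n).k
  · exact ⟨_, (stepR (lk' hq n) (Or.inr (by simp [hc, Kd.ar]))).2.2.1⟩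
  · exact ⟨_, (stepL (hq.lnk n) (Or.inl (by simp [hc, Kd.fw]))).2.2.1⟩
  · exact ⟨_, (stepR (lk' hq n) (Or.inr (by simp [hc, Kd.ar]))).2.2.1⟩
  · exact absurd hc hk

theorem right_adj (hq : Sq P X w W) (n : ℤ) (hk : (W n).k ≠ .R) : ∃ b, AdjX X (W n).t b := by
  cases hc : (W n).k
  · exact ⟨_, (stepR (hq.lnk n) (Or.inl (by simp [hc, Kd.fw]))).2.2.1⟩
  · exact ⟨_, (stepL (lk' hq n) (Or.inr (by simp [hc, Kd.ar]))).2.2.1⟩
  · exact absurd hc hk
  · exact ⟨_, (stepR (hq.lnk n) (Or.inl (by simp [hc, Kd.fw]))).2.2.1⟩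

theorem col_lt (hB : P_PGB) (hS : P_SEQ) (hC : P_CMP) (hN : 0 < N) (hX : GoodX P X)
    (hq : Sq P X w W) (hq' : Sq P X w' W') (hz : ∀ n, ¬ (Tn (W n).k ∧ Tn (W (n + 1)).k)) (c : ℤ)
    (hs : ∀ n, SmI (W n) (W' (n + c))) (n n' : ℤ) (hk : (W n).k ≠ .L) (hk' : (W n').k ≠ .L)
    (hlt : (pt P (W n)).c < (pt P (W n')).c) :
    (pt P (W' (n + c))).c < (pt P (W' (n' + c))).c := by
  unfold Pt.c pt at hlt ⊢
  rw [Prod.Lex.toLex_lt_toLex] at hlt ⊢
  change (W n).t < (W n').t ∨ (W n).t = (W n').t ∧ P.l (W n).e (W n).t < P.l (W n').e (W n').t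
    at hlt
  change (W' (n + c)).t < (W' (n' + c)).t ∨ (W' (n + c)).t = (W' (n' + c)).t ∧
    P.l (W' (n + c)).e (W' (n + c)).t < P.l (W' (n' + c)).e (W' (n' + c)).t
  rw [← (hs n).2.1, ← (hs n').2.1]
  rcases hlt with h | ⟨h, h'⟩
  · exact Or.inl h
  · obtain ⟨a, ha⟩ := left_adj hq n hk
    rw [← h] at h' ⊢
    exact Or.inr ⟨rfl, cmp_h hB hS hC hN hq hq' hz c hs (hX.gd _ _ ha) ha n n'
      ⟨rfl, Or.inl ⟨rfl, hk⟩⟩ ⟨h.symm, Or.inl ⟨rfl, hk'⟩⟩ h'⟩

theorem row_lt (hB : P_PGB) (hS : P_SEQ) (hC : P_CMP) (hN : 0 < N) (hX : GoodX P X)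
    (hq : Sq P X w W) (hq' : Sq P X w' W') (hz : ∀ n, ¬ (Tn (W n).k ∧ Tn (W (n + 1)).k)) (c : ℤ)
    (hs : ∀ n, SmI (W n) (W' (n + c))) (n n' : ℤ) (hk : (W n).k ≠ .R) (hk' : (W n').k ≠ .R)
    (hlt : (pt P (W n)).r < (pt P (W n')).r) :
    (pt P (W' (n + c))).r < (pt P (W' (n' + c))).r := by
  unfold Pt.r pt at hlt ⊢
  rw [Prod.Lex.toLex_lt_toLex] at hlt ⊢
  change -(W n).t < -(W n').t ∨ -(W n).t = -(W n').t ∧
    P.l (W n).e (W n).t < P.l (W n').e (W n').t at hlt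
  change -(W' (n + c)).t < -(W' (n' + c)).t ∨ -(W' (n + c)).t = -(W' (n' + c)).t ∧
    P.l (W' (n + c)).e (W' (n + c)).t < P.l (W' (n' + c)).e (W' (n' + c)).t
  rw [← (hs n).2.1, ← (hs n').2.1]
  rcases hlt with h | ⟨h, h'⟩
  · exact Or.inl h
  · rw [neg_inj] at h
    obtain ⟨b, hb⟩ := right_adj hq n hk
    rw [← h] at h' ⊢
    exact Or.inr ⟨rfl, cmp_h hB hS hC hN hq hq' hz c hs (hX.gd _ _ hb) hb n n'
      ⟨rfl, Or.inr ⟨rfl, hk⟩⟩ ⟨h.symm, Or.inr ⟨rfl, hk'⟩⟩ h'⟩

end Sq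

/-! ### assembly -/

theorem ext_map {ι α β : Type*} [Inhabited β] (S : ι → Prop) (f : ι → α) (g : ι → β)
    (h : ∀ i j, S i → S j → f i = f j → g i = g j) : ∃ φ : α → β, ∀ i, S i → φ (f i) = g i := by
  classical
  refine ⟨fun q => if h : ∃ i, S i ∧ f i = q then g h.choose else default, ?_⟩
  intro i hi
  have h1 : ∃ j, S j ∧ f j = f i := ⟨i, hi, rfl⟩
  change (if h : ∃ j, S j ∧ f j = f i then g h.choose else default) = g i
  rw [dif_pos h1]
  exact h _ _ h1.choose_spec.1 hi h1.choose_spec.2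

/-- The window of a periodic sequence. -/
def Vw (f : ℤ → Pt) (m : ℕ) (c : ℤ) : List Pt := (List.range m).map fun k : ℕ => f ((k : ℤ) + c)

theorem V_step (f : ℤ → Pt) (m : ℕ) (hf : ∀ n, f (n + (m + 1 : ℕ)) = f n) (c : ℤ) :
    ∃ T, Vw f (m + 1) c = [f c] ++ T ∧ Vw f (m + 1) (c + 1) = T ++ [f c] := by
  refine ⟨(List.range m).map fun k : ℕ => f ((k : ℤ) + (c + 1)), ?_, ?_⟩
  · unfold Vw
    rw [List.range_succ_eq_map, List.map_cons, List.map_map, List.singleton_append]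
    congr 1
    · simp
    · refine List.map_congr_left fun k _ => ?_
      change f (((k + 1 : ℕ) : ℤ) + c) = f (k + (c + 1))
      congr 1
      push_cast
      ring
  · unfold Vw
    rw [List.range_succ, List.map_append]
    congr 1
    rw [List.map_singleton]
    congr 1
    rw [← hf c]
    congr 1
    push_cast
    ring

theorem V_rot (hA : P_CWA) (hW : P_WEB) (f : ℤ → Pt) (m : ℕ)
    (hf : ∀ n, f (n + (m + 1 : ℕ)) = f n) (h0 : CW (Vw f (m + 1) 0)) (c : ℤ) :
    CW (Vw f (m + 1) c) ∧ WE (ents (Vw f (m + 1) 0)) (ents (Vw f (m + 1) c)) := by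
  induction c using Int.induction_on with
  | zero => exact ⟨h0, hW.refl _ (hA.alt _ h0) h0.nd⟩
  | succ i ih =>
    obtain ⟨T, h1, h2⟩ := V_step f m hf i
    rw [h1] at ih
    obtain ⟨h3, h4⟩ := hA.rot _ _ ih.1
    rw [h2]
    exact ⟨h3, hW.trans _ _ _ ih.2 h4⟩
  | pred i ih =>
    obtain ⟨T, h1, h2⟩ := V_step f m hf (-(i : ℤ) - 1)
    rw [sub_add_cancel] at h2
    rw [h2] at ih
    obtain ⟨h3, h4⟩ := hA.rot _ _ ih.1
    rw [h1]
    exact ⟨h3, hW.trans _ _ _ ih.2 h4⟩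

theorem map_V {N : ℕ} {P : Pg N} {X : Finset ℝ} {w : List It} {W : ℤ → It}
    (hq : Sq P X w W) : w.map (pt P) = Vw (fun n => pt P (W n)) w.length 0 := by
  refine List.ext_getElem (by simp [Vw]) ?_
  intro k h1 h2
  rw [List.length_map] at h1
  simp only [Vw, List.getElem_map, List.getElem_range, add_zero]
  rw [hq.get k h1]

theorem mem_col {x : Pt} {a : Q} (h : Sum.inl a ∈ ent x) : x.k ≠ .L ∧ a = x.c := by
  cases hk : x.k <;> simp [ent, hk] at h
  · exact ⟨by decide, h⟩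
  · exact ⟨by decide, h⟩
  · exact ⟨by decide, h⟩

theorem mem_row {x : Pt} {a : Q} (h : Sum.inr a ∈ ent x) : x.k ≠ .R ∧ a = x.r := by
  cases hk : x.k <;> simp [ent, hk] at h
  · exact ⟨by decide, h⟩
  · exact ⟨by decide, h⟩
  · exact ⟨by decide, h⟩

theorem smI_symm {i j : It} (h : SmI i j) : SmI j i :=
  ⟨h.1.symm, h.2.1.symm, fun h1 => (h.2.2 (h.1 ▸ h1)).symm⟩

end UNI

open UNI in
/-- UNI: two walks without zigzags with the same lines are equivalent. -/
theorem t_UNI : Stmt_UNI := by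
  intro hB hC hS hW hA hG _ hNx N P X w w' hX hw hw'
  obtain ⟨W, W', c, hq, hq', hlen, hs⟩ := hNx P X w w' hX hw hw'
  have hN : 0 < N := hS.pos P X w hw.1
  have hz := nozz hS hw hq
  have hz' := nozz hS hw' hq'
  have hcw : CW (w.map (pt P)) := hG P X w hX hw
  have hcw' : CW (w'.map (pt P)) := hG P X w' hX hw'
  have hs' : ∀ n, SmI (W' n) (W (n + -c)) := by
    intro n
    have h1 := smI_symm (hs (n + -c))
    rwa [neg_add_cancel_right] at h1
  -- columns and rows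
  have colL : ∀ n n', (W n).k ≠ .L → (W n').k ≠ .L → (pt P (W n)).c < (pt P (W n')).c →
      (pt P (W' (n + c))).c < (pt P (W' (n' + c))).c :=
    fun n n' h h' => col_lt hB hS hC hN hX hq hq' hz c hs n n' h h'
  have colR : ∀ n n', (W n).k ≠ .L → (W n').k ≠ .L →
      (pt P (W' (n + c))).c < (pt P (W' (n' + c))).c → (pt P (W n)).c < (pt P (W n')).c := by
    intro n n' h h' hl
    have h1 := col_lt hB hS hC hN hX hq' hq hz' (-c) hs' (n + c) (n' + c)
      (by rw [← (hs n).1]; exact h) (by rw [← (hs n').1]; exact h') hl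
    rwa [add_neg_cancel_right, add_neg_cancel_right] at h1
  have rowL : ∀ n n', (W n).k ≠ .R → (W n').k ≠ .R → (pt P (W n)).r < (pt P (W n')).r →
      (pt P (W' (n + c))).r < (pt P (W' (n' + c))).r :=
    fun n n' h h' => row_lt hB hS hC hN hX hq hq' hz c hs n n' h h'
  have rowR : ∀ n n', (W n).k ≠ .R → (W n').k ≠ .R →
      (pt P (W' (n + c))).r < (pt P (W' (n' + c))).r → (pt P (W n)).r < (pt P (W n')).r := by
    intro n n' h h' hl
    have h1 := row_lt hB hS hC hN hX hq' hq hz' (-c) hs' (n + c) (n' + c)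
      (by rw [← (hs n).1]; exact h) (by rw [← (hs n').1]; exact h') hl
    rwa [add_neg_cancel_right, add_neg_cancel_right] at h1
  have : Inhabited Q := ⟨toLex (0, 0)⟩
  obtain ⟨φ, hφ⟩ := ext_map (fun n : ℤ => (W n).k ≠ .L) (fun n => (pt P (W n)).c)
    (fun n => (pt P (W' (n + c))).c) (by
      intro i j hi hj hij
      rcases lt_trichotomy (pt P (W' (i + c))).c (pt P (W' (j + c))).c with h | h | h
      · exact absurd hij (colR i j hi hj h).ne
      · exact h
      · exact absurd hij.symm (colR j i hj hi h).ne)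
  obtain ⟨ψ, hψ⟩ := ext_map (fun n : ℤ => (W n).k ≠ .R) (fun n => (pt P (W n)).r)
    (fun n => (pt P (W' (n + c))).r) (by
      intro i j hi hj hij
      rcases lt_trichotomy (pt P (W' (i + c))).r (pt P (W' (j + c))).r with h | h | h
      · exact absurd hij (rowR i j hi hj h).ne
      · exact h
      · exact absurd hij.symm (rowR j i hj hi h).ne)
  -- entries
  have entC : ∀ a, Sum.inl a ∈ ents (w.map (pt P)) → ∃ n : ℤ, (W n).k ≠ .L ∧
      a = (pt P (W n)).c := by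
    intro a ha
    unfold ents at ha
    rw [List.mem_flatMap] at ha
    obtain ⟨x, hx, hx'⟩ := ha
    rw [map_V hq, Vw, List.mem_map] at hx
    obtain ⟨k, -, rfl⟩ := hx
    exact ⟨_, mem_col hx'⟩
  have entR : ∀ a, Sum.inr a ∈ ents (w.map (pt P)) → ∃ n : ℤ, (W n).k ≠ .R ∧
      a = (pt P (W n)).r := by
    intro a ha
    unfold ents at ha
    rw [List.mem_flatMap] at ha
    obtain ⟨x, hx, hx'⟩ := ha
    rw [map_V hq, Vw, List.mem_map] at hx
    obtain ⟨k, -, rfl⟩ := hx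
    exact ⟨_, mem_row hx'⟩
  have step1 := hW.iso (ents (w.map (pt P))) φ ψ (hA.alt _ hcw) hcw.nd (by
      intro a b ha hb hab
      obtain ⟨n, hn, rfl⟩ := entC a ha
      obtain ⟨n', hn', rfl⟩ := entC b hb
      rw [hφ n hn, hφ n' hn']
      exact colL n n' hn hn' hab) (by
      intro a b ha hb hab
      obtain ⟨n, hn, rfl⟩ := entR a ha
      obtain ⟨n', hn', rfl⟩ := entR b hb
      rw [hψ n hn, hψ n' hn']
      exact rowL n n' hn hn' hab)
  -- the image
  have himg : (ents (w.map (pt P))).map (Sum.map φ ψ) =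
      ents (Vw (fun n => pt P (W' n)) w.length c) := by
    rw [map_V hq]
    unfold ents Vw
    rw [List.flatMap_map, List.flatMap_map, List.map_flatMap]
    refine List.flatMap_congr ?_
    intro k _
    rw [add_zero]
    have h1 := hs k
    have h2 : (pt P (W k)).k = (W k).k := rfl
    have h3 : (pt P (W' (k + c))).k = (W k).k := h1.1.symm
    have h4 := hφ k
    have h5 := hψ k
    cases hk : (W k).k <;> rw [hk] at h2 h3 h4 h5
    · have h6 := h4 (by decide)
      have h7 := h5 (by decide)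
      simp [ent, h2, h3, h6, h7]
    · have h6 := h4 (by decide)
      have h7 := h5 (by decide)
      simp [ent, h2, h3, h6, h7]
    · have h6 := h4 (by decide)
      simp [ent, h2, h3, h6]
    · have h7 := h5 (by decide)
      simp [ent, h2, h3, h7]
  -- the rotation
  have hV0 : w'.map (pt P) = Vw (fun n => pt P (W' n)) w.length 0 := by
    rw [hlen]
    exact map_V hq'
  obtain ⟨m, hm⟩ : ∃ m, w.length = m + 1 := ⟨w.length - 1, by have := hq.ne; omega⟩
  have hper : ∀ n, (fun n => pt P (W' n)) (n + (m + 1 : ℕ)) = (fun n => pt P (W' n)) n := by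
    intro n
    have h1 := shift hq' n 1
    rw [one_mul, one_mul] at h1
    rw [← hm, hlen]
    change pt P (W' (n + w'.length)) = pt P (W' n)
    unfold pt
    rw [h1.1, h1.2.1, h1.2.2]
    have h2 := (hB.sh P (W' n).e 1).2.2.2 (W' n).t
    rw [one_mul] at h2
    rw [h2]
  rw [hV0, hm] at hcw'
  have step2 := (V_rot hA hW _ m hper hcw' c).2
  unfold lst
  rw [himg] at step1
  rw [hV0, hm]
  rw [hm] at step1
  exact hW.trans _ _ _ step1 (hW.symm _ _ step2)

end LH
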